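import Pool.Agent.Lib.MP_45bb13_gt.Defs

/-! Elementary facts on angles, signs and braids. -/

set_option linter.unusedSectionVars false

namespace Pool.Agent.Lib.MP_45bb13_gt

open Set Filter Topology Complex
open scoped ComplexConjugate

lemma basic_ee (c : ℝ) : ee c = exp (((2 * Real.pi * c : ℝ) : ℂ) * I) := by
  rw [ee]; push_cast; rfl

lemma ee_add (a b : ℝ) : ee (a + b) = ee a * ee b := by
  rw [ee, ee, ee, ← exp_add]; congr 1; push_cast; ring

lemma ee_zero : ee 0 = 1 := by simp [ee]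

lemma ee_int (n : ℤ) : ee n = 1 := by
  rw [ee, ← exp_int_mul_two_pi_mul_I n]; congr 1; push_cast; ring

lemma ee_one : ee 1 = 1 := by simpa using ee_int 1

lemma ee_add_int (a : ℝ) (n : ℤ) : ee (a + n) = ee a := by rw [ee_add, ee_int, mul_one]

lemma ee_neg (a : ℝ) : ee (-a) = conj (ee a) := by
  rw [basic_ee, basic_ee, ← exp_conj, map_mul, conj_ofReal, conj_I]; congr 1; push_cast; ring

lemma ee_mul_neg (a : ℝ) : ee a * ee (-a) = 1 := by rw [← ee_add, add_neg_cancel, ee_zero]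

lemma norm_ee (a : ℝ) : ‖ee a‖ = 1 := by rw [basic_ee, norm_exp_ofReal_mul_I]

lemma ee_ne_zero (a : ℝ) : ee a ≠ 0 := exp_ne_zero _

lemma ee_re (a : ℝ) : (ee a).re = Real.cos (2 * Real.pi * a) := by rw [basic_ee, exp_ofReal_mul_I_re]

lemma ee_im (a : ℝ) : (ee a).im = Real.sin (2 * Real.pi * a) := by rw [basic_ee, exp_ofReal_mul_I_im]

lemma ee_half : ee (1 / 2) = -1 := by
  rw [ee, ← exp_pi_mul_I]; congr 1; push_cast; ring

lemma ee_quarter : ee (1 / 4) = I := by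
  rw [ee]
  exact (congrArg exp (by push_cast; ring)).trans exp_pi_div_two_mul_I

lemma ee_half_int (n : ℤ) : ee (n / 2) = sgn n := by
  rcases Int.even_or_odd' n with ⟨k, rfl | rfl⟩
  · rw [show ((2 * k : ℤ) : ℝ) / 2 = k by push_cast; ring, ee_int]; simp [sgn]
  · rw [show ((2 * k + 1 : ℤ) : ℝ) / 2 = 1 / 2 + k by push_cast; ring, ee_add_int, ee_half]
    simp [sgn]

lemma ee_eq_iff {a b : ℝ} : ee a = ee b ↔ ∃ n : ℤ, a = b + n := by
  refine ⟨fun h => ?_, fun ⟨n, h⟩ => by rw [h, ee_add_int]⟩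
  obtain ⟨n, hn⟩ := exp_eq_exp_iff_exists_int.1 h
  refine ⟨n, ?_⟩
  have h1 : (2 * Real.pi * I : ℂ) * a = 2 * Real.pi * I * (b + n) := by linear_combination hn
  exact_mod_cast mul_left_cancel₀ two_pi_I_ne_zero h1

@[fun_prop] lemma continuous_ee : Continuous ee := by unfold ee; fun_prop

lemma contDiff_ee {n : WithTop ℕ∞} : ContDiff ℝ n ee :=
  ((contDiff_const.mul ofRealCLM.contDiff).mul contDiff_const).cexp

lemma norm_ee_sub (a b : ℝ) : ‖ee a - ee b‖ ≤ 7 * |a - b| := by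
  have h : ee a - ee b = ee b * (ee (a - b) - 1) := by
    rw [mul_sub, ← ee_add, add_sub_cancel, mul_one]
  rw [h, norm_mul, norm_ee, one_mul, basic_ee, mul_comm]
  refine Real.norm_exp_I_mul_ofReal_sub_one_le.trans ?_
  rw [Real.norm_eq_abs, abs_mul, abs_of_pos Real.two_pi_pos]
  exact mul_le_mul_of_nonneg_right (by linarith [Real.pi_lt_d2]) (abs_nonneg _)

lemma norm_mul_ee_ang (x : ℂ) : ‖x‖ * ee (ang x) = x := by
  rw [basic_ee, ang, mul_div_cancel₀ _ Real.two_pi_pos.ne', norm_mul_exp_arg_mul_I]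

lemma ang_mem (x : ℂ) : ang x ∈ Ioc (-(1 / 2) : ℝ) (1 / 2) := by
  rw [ang, mem_Ioc, lt_div_iff₀ Real.two_pi_pos, div_le_iff₀ Real.two_pi_pos]
  constructor <;> linarith [neg_pi_lt_arg x, arg_le_pi x]

lemma ang_ee {r c : ℝ} (hr : 0 < r) (hc : c ∈ Ioc (-(1 / 2) : ℝ) (1 / 2)) :
    ang (r * ee c) = c := by
  rw [ang, basic_ee, exp_mul_I, arg_mul_cos_add_sin_mul_I hr, mul_div_cancel_left₀ _
    Real.two_pi_pos.ne']
  constructor <;> nlinarith [Real.pi_pos, hc.1, hc.2]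

lemma basic_norm {r : ℝ} (hr : 0 < r) (c : ℝ) : ‖r * ee c‖ = r := by
  rw [norm_mul, norm_ee, mul_one, norm_real, Real.norm_of_nonneg hr.le]

lemma exists_ang {r : ℝ} (hr : 0 < r) (c : ℝ) : ∃ n : ℤ, ang (r * ee c) = c + n := by
  have h := norm_mul_ee_ang (r * ee c)
  rw [basic_norm hr] at h
  exact ee_eq_iff.1 (mul_left_cancel₀ (ofReal_ne_zero.2 hr.ne') h)

lemma ang_pos_mul {r : ℝ} (hr : 0 < r) (x : ℂ) : ang (r * x) = ang x := by rw [ang, ang, arg_real_mul x hr]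

lemma contDiffAt_ang {n : WithTop ℕ∞} {x : ℂ} (hx : x ∈ slitPlane) : ContDiffAt ℝ n ang x := by
  have h : ang = fun z => imCLM (log z) / (2 * Real.pi) := funext fun z => by simp [ang, log_im]
  rw [h]
  exact (imCLM.contDiff.contDiffAt.comp x ((contDiffAt_log hx).restrict_scalars ℝ)).div_const _

lemma continuousAt_ang {x : ℂ} (hx : x ∈ slitPlane) : ContinuousAt ang x :=
  (contDiffAt_ang (n := 0) hx).continuousAt

/-- A smooth local branch of the angle with a prescribed value. -/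
lemma exists_branch {r : ℝ} (hr : 0 < r) (c : ℝ) : ∃ a : ℂ → ℝ,
    (∀ n, ContDiffAt ℝ n a (r * ee c)) ∧ a (r * ee c) = c ∧ ∀ x, ‖x‖ * ee (a x) = x := by
  have h : r * ee c * ee (-c) = r := by rw [mul_assoc, ee_mul_neg, mul_one]
  refine ⟨fun x => c + ang (x * ee (-c)), fun n => contDiffAt_const.add ?_, ?_, fun x => ?_⟩
  · exact ContDiffAt.comp (g := ang) _ (contDiffAt_ang (by rw [h]; simpa using hr))
      (contDiffAt_id.mul contDiffAt_const)
  · simp [h, ang, arg_ofReal_of_nonneg hr.le]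
  · have h1 := norm_mul_ee_ang (x * ee (-c))
    rw [norm_mul, norm_ee, mul_one] at h1
    rw [ee_add, mul_left_comm, h1, mul_left_comm, ee_mul_neg, mul_one]

/-- A continuous choice of the angle along a path that avoids the origin. -/
lemma exists_ang_lift {x : ℝ → ℂ} (hx : ContinuousOn x (Icc 0 1)) (h0 : ∀ t ∈ Icc (0 : ℝ) 1, x t ≠ 0) :
    ∃ c : ℝ → ℝ, Continuous c ∧ ∀ t ∈ Icc (0 : ℝ) 1, ‖x t‖ * ee (c t) = x t := by
  let γ : C(unitInterval, {z : ℂ // z ≠ 0}) :=
    ⟨fun t => ⟨x t, h0 t t.2⟩, hx.domRestrict.subtype_mk _⟩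
  obtain ⟨Γ, h1, -⟩ := isCoveringMap_exp.exists_path_lifts γ (log (x 0))
    (Subtype.ext (exp_log (h0 0 (left_mem_Icc.2 zero_le_one))).symm)
  refine ⟨fun t => (Γ (projIcc 0 1 zero_le_one t)).im / (2 * Real.pi),
    (continuous_im.comp (Γ.continuous.comp continuous_projIcc)).div_const _, fun t ht => ?_⟩
  have h2 : exp (Γ ⟨t, ht⟩) = x t := congrArg Subtype.val (congrFun h1 ⟨t, ht⟩)
  rw [basic_ee, mul_div_cancel₀ _ Real.two_pi_pos.ne', projIcc_of_mem _ ht, ← h2, norm_exp,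
    ofReal_exp, ← exp_add, re_add_im]

lemma lo_pol : LO pol {q | 0 < q.1} := by
  refine ⟨isOpen_lt continuous_const continuous_fst, fun q hq => le_antisymm ?_ ?_⟩
  · exact (show Continuous pol by unfold pol; fun_prop).continuousAt
  · obtain ⟨a, h1, h2, h3⟩ := exists_branch hq q.2
    have h4 : Tendsto (fun x : ℂ => (‖x‖, a x)) (𝓝 (pol q)) (𝓝 q) := by
      have := (continuous_norm.continuousAt (x := pol q)).prodMk (h1 0).continuousAt
      rwa [ContinuousAt, pol, basic_norm hq, h2] at this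
    have h5 : pol ∘ (fun x : ℂ => (‖x‖, a x)) = id := funext h3
    have := map_mono (m := pol) h4
    rwa [Filter.map_map, h5, Filter.map_id] at this

/-- A function of polar coordinates that is periodic in the angle is continuous in the plane. -/
lemma continuousAt_polar {Z Y : Type*} [TopologicalSpace Z] [TopologicalSpace Y]
    {G : Z × ℝ × ℝ → Y} {z : Z} {r c : ℝ} (hr : 0 < r) (hG : ContinuousAt G (z, r, c))
    (hp : ∀ z s t, G (z, s, t + 1) = G (z, s, t)) :
    ContinuousAt (fun q : Z × ℂ => G (q.1, ‖q.2‖, ang q.2)) (z, r * ee c) := by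
  obtain ⟨a, h1, h2, h3⟩ := exists_branch hr c
  have h4 : ContinuousAt (fun q : Z × ℂ => G (q.1, ‖q.2‖, a q.2)) (z, r * ee c) := by
    refine ContinuousAt.comp (g := G) ?_ (continuousAt_fst.prodMk (continuousAt_snd.norm.prodMk
      (ContinuousAt.comp (g := a) (h1 0).continuousAt continuousAt_snd)))
    simpa only [basic_norm hr, h2] using hG
  refine h4.congr ?_
  have h5 : ∀ᶠ q : Z × ℂ in 𝓝 (z, r * ee c), q.2 ≠ 0 :=
    continuousAt_snd.eventually_ne (mul_ne_zero (ofReal_ne_zero.2 hr.ne') (ee_ne_zero c))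
  filter_upwards [h5] with q hq
  obtain ⟨n, hn⟩ := ee_eq_iff.1 (mul_left_cancel₀ (ofReal_ne_zero.2 (norm_ne_zero_iff.2 hq))
    ((h3 q.2).trans (norm_mul_ee_ang q.2).symm))
  have h6 : Function.Periodic (fun t => G (q.1, ‖q.2‖, t)) 1 := hp _ _
  rw [hn]
  simpa using h6.int_mul n (ang q.2)

lemma sgn_eq (n : ℤ) : sgn n = 1 ∨ sgn n = -1 := by unfold sgn; split_ifs <;> simp

lemma sgn_one : sgn 1 = -1 := by simp [sgn]

lemma cj_one (y : ℂ) : cj 1 y = conj y := by simp [cj]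

lemma cj_cj (n : ℤ) (y : ℂ) : cj n (cj n y) = y := by unfold cj; split_ifs <;> simp

lemma cj_plus (n : ℤ) (x y : ℂ) : cj n (x + y) = cj n x + cj n y := by unfold cj; split_ifs <;> simp

lemma cj_sub (n : ℤ) (x y : ℂ) : cj n (x - y) = cj n x - cj n y := by unfold cj; split_ifs <;> simp

lemma cj_mul (n : ℤ) (x y : ℂ) : cj n (x * y) = cj n x * cj n y := by unfold cj; split_ifs <;> simp

lemma cj_div (n : ℤ) (x y : ℂ) : cj n (x / y) = cj n x / cj n y := by unfold cj; split_ifs <;> simp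

lemma cj_ofReal (n : ℤ) (r : ℝ) : cj n r = r := by unfold cj; split_ifs <;> simp

lemma cj_ee (n : ℤ) (c : ℝ) : cj n (ee c) = ee (sgn n * c) := by
  unfold cj sgn; split_ifs <;> simp [ee_neg]

lemma norm_cj (n : ℤ) (y : ℂ) : ‖cj n y‖ = ‖y‖ := by unfold cj; split_ifs <;> simp

lemma contDiff_cj {m : WithTop ℕ∞} (n : ℤ) : ContDiff ℝ m (cj n) := by
  unfold cj; split_ifs
  exacts [contDiff_id, conjCLE.contDiff]

lemma continuous_cj (n : ℤ) : Continuous (cj n) := (contDiff_cj (m := 0) n).continuous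

@[fun_prop] lemma continuous_mk {Z : Type*} [TopologicalSpace Z] {f g : Z → ℝ} (hf : Continuous f)
    (hg : Continuous g) : Continuous fun z => (⟨f z, g z⟩ : ℂ) := by
  simp only [mk_eq_add_mul_I]; fun_prop

lemma continuousAt_mk {Z : Type*} [TopologicalSpace Z] {f g : Z → ℝ} {z : Z} (hf : ContinuousAt f z)
    (hg : ContinuousAt g z) : ContinuousAt (fun z => (⟨f z, g z⟩ : ℂ)) z := by
  simp only [mk_eq_add_mul_I]; fun_prop

lemma contDiffAt_mk {Z : Type*} [NormedAddCommGroup Z] [NormedSpace ℝ Z] {n : WithTop ℕ∞}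
    {f g : Z → ℝ} {z : Z} (hf : ContDiffAt ℝ n f z) (hg : ContDiffAt ℝ n g z) :
    ContDiffAt ℝ n (fun z => (⟨f z, g z⟩ : ℂ)) z := by
  simp only [mk_eq_add_mul_I]
  exact (ofRealCLM.contDiff.contDiffAt.comp z hf).add
    ((ofRealCLM.contDiff.contDiffAt.comp z hg).mul contDiffAt_const)

lemma eqv_int {f : ℝ → ℂ} (h : ∀ t, f (t + 1) = conj (f t)) (t : ℝ) (n : ℤ) :
    f (t + n) = cj n (f t) := by
  induction n using Int.induction_on with
  | zero => simp [cj_zero]
  | succ k ih => rw [add_comm (k : ℤ), cj_add, cj_one, ← ih, ← h]; congr 1; push_cast; ring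
  | pred k ih =>
    rw [show (-k : ℤ) = 1 + (-k - 1) by ring, cj_add, cj_one, Int.cast_add, Int.cast_one,
      add_comm (1 : ℝ), ← add_assoc, h] at ih
    exact (starRingEnd ℂ).injective ih

lemma odd_int {f : ℝ → ℝ} (h : ∀ t, f (t + 1) = -f t) (t : ℝ) (n : ℤ) :
    f (t + n) = sgn n * f t := by
  induction n using Int.induction_on with
  | zero => simp [sgn_zero]
  | succ k ih =>
    rw [sgn_add, sgn_one, Int.cast_add, Int.cast_one, ← add_assoc, h, ih]; push_cast; ring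
  | pred k ih =>
    rw [show (-k : ℤ) = (-k - 1) + 1 by ring, sgn_add, sgn_one, Int.cast_add, Int.cast_one,
      ← add_assoc, h] at ih
    push_cast at ih ⊢
    linarith

lemma continuous_actT (g : SD ℤ) : Continuous fun p : CC => g • p :=
  ((continuous_cj g.n).comp continuous_fst).prodMk (continuous_mk (by fun_prop) (by fun_prop))

lemma contDiff_actT {n : WithTop ℕ∞} (g : SD ℤ) : ContDiff ℝ n fun p : CC => g • p :=
  ((contDiff_cj g.n).comp contDiff_fst).prodMk (contDiff_iff_contDiffAt.2 fun _ => contDiffAt_mk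
    (contDiff_const.add (contDiff_const.mul (reCLM.contDiff.comp contDiff_snd))).contDiffAt
    ((imCLM.contDiff.comp contDiff_snd).add contDiff_const).contDiffAt)

lemma continuous_actW (g : SD (ℤ × ℤ)) : Continuous fun p : ℂ × ℝ × ℝ => g • p :=
  (continuous_mk (by fun_prop) (by fun_prop)).prodMk
    (Continuous.prodMk (by fun_prop) (by fun_prop))

lemma continuous_actQ (g : SD (ℤ × ZMod 2)) : Continuous fun p : CC => g • p :=
  (continuous_const.mul ((continuous_cj g.n).comp continuous_fst)).prodMk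
    (continuous_mk (by fun_prop) (by fun_prop))

/-- An additive function of the translation part and of the integer gives a character. -/
lemma exists_char {M : Type} [AddCommGroup M] (f : M →+ ZMod 2) (c : ZMod 2) :
    ∃ χ : SD M →* Multiplicative (ZMod 2), ∀ g, χ g = Multiplicative.ofAdd (f g.a + c * g.n) := by
  refine ⟨MonoidHom.mk' (fun g => Multiplicative.ofAdd (f g.a + c * g.n)) fun x y => ?_,
    fun _ => rfl⟩
  have h : f (sgn x.n • y.a) = f y.a := by
    rcases sgn_eq x.n with h | h <;> simp [h, ZMod.neg_eq_self_mod_two]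
  rw [← ofAdd_add, SD.mul_def]
  congr 1
  simp only [map_add, h]
  push_cast
  ring

lemma char_W (χ : SD (ℤ × ℤ) →* Multiplicative (ZMod 2)) (g : SD (ℤ × ℤ)) :
    (χ g).toAdd = g.a.1 * (χ ⟨(1, 0), 0⟩).toAdd + (g.n + g.a.2) * (χ ⟨(0, 0), 1⟩).toAdd +
      g.a.2 * (χ ⟨(0, 1), 1⟩).toAdd := by
  let F : ℤ × ℤ →+ ZMod 2 := AddMonoidHom.mk' (fun m => (χ ⟨m, 0⟩).toAdd) fun a b => by
    rw [← toAdd_mul, ← map_mul, SD.mul_def]; simp [sgn_zero]
  let G : ℤ →+ ZMod 2 := AddMonoidHom.mk' (fun m => (χ ⟨0, m⟩).toAdd) fun a b => by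
    rw [← toAdd_mul, ← map_mul, SD.mul_def]; simp
  have h : ∀ a n, (χ ⟨a, n⟩).toAdd = F a + G n := fun a n => by
    change _ = (χ ⟨a, 0⟩).toAdd + (χ ⟨0, n⟩).toAdd
    rw [← toAdd_mul, ← map_mul, SD.mul_def]; simp
  have hF : F g.a = g.a.1 * F (1, 0) + g.a.2 * F (0, 1) := by
    rw [← zsmul_eq_mul, ← zsmul_eq_mul, ← map_zsmul, ← map_zsmul, ← map_add]; simp
  have hG : G g.n = g.n * G 1 := by rw [← zsmul_eq_mul, ← map_zsmul]; simp
  have h2 : (2 : ZMod 2) = 0 := rfl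
  have h0 : F (0, 0) = 0 := map_zero F
  rw [show g = ⟨g.a, g.n⟩ from rfl, h, h, h, h, hF, hG, h0, map_zero]
  linear_combination (-(g.a.2 * G 1)) * h2

lemma closure_T {H : Subgroup (SD ℤ)} (h1 : ⟨0, 1⟩ ∈ H) (h2 : ⟨1, 1⟩ ∈ H) : H = ⊤ := by
  have h3 : (⟨1, 0⟩ : SD ℤ) ∈ H := by
    refine (H.mul_mem_cancel_right h1).1 ?_
    simpa [SD.mul_def] using h2
  have ha : ∀ a : ℤ, (⟨a, 0⟩ : SD ℤ) ∈ H := fun a => by
    induction a using Int.induction_on with
    | zero => exact H.one_mem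
    | succ k ih => simpa [SD.mul_def, sgn_zero] using H.mul_mem ih h3
    | pred k ih => exact (H.mul_mem_cancel_right h3).1 (by simpa [SD.mul_def, sgn_zero] using ih)
  have hn : ∀ a : ℤ, (⟨0, a⟩ : SD ℤ) ∈ H := fun a => by
    induction a using Int.induction_on with
    | zero => exact H.one_mem
    | succ k ih => simpa [SD.mul_def] using H.mul_mem ih h1
    | pred k ih => exact (H.mul_mem_cancel_right h1).1 (by simpa [SD.mul_def] using ih)
  refine eq_top_iff.2 fun g _ => ?_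
  simpa [SD.mul_def] using H.mul_mem (ha g.a) (hn g.n)

lemma norm_fig (t : ℝ) : ‖fig t‖ < 3 / 2 := by
  refine lt_of_pow_lt_pow_left₀ 2 (by norm_num) ?_
  rw [← normSq_eq_norm_sq, fig, normSq_mk]
  nlinarith [Real.sin_sq_le_one (2 * Real.pi * t), Real.cos_sq_le_one (Real.pi * t)]

lemma contDiff_fig {n : WithTop ℕ∞} : ContDiff ℝ n fig :=
  contDiff_iff_contDiffAt.2 fun _ => contDiffAt_mk (by fun_prop) (by fun_prop)

lemma continuous_dd : Continuous dd := continuous_mk (by fun_prop) (by fun_prop)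

lemma dd_one (φ : ℝ) : dd (φ + 1) = conj (dd φ) := by
  refine Complex.ext ?_ ?_ <;> simp [dd, mul_add]

lemma norm_dd_sub (a b : ℝ) : ‖dd a - dd b‖ ≤ 20 * |a - b| := by
  have h3 : √3 ≤ 2 := Real.sqrt_le_iff.2 (by norm_num)
  have h0 := Real.sqrt_nonneg 3
  have hp := Real.pi_pos
  have h1 := Real.abs_cos_sub_cos_le (2 * Real.pi * a) (2 * Real.pi * b)
  have h2 := Real.abs_sin_sub_sin_le (Real.pi * a) (Real.pi * b)
  rw [← mul_sub, abs_mul, abs_of_pos Real.two_pi_pos] at h1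
  rw [← mul_sub, abs_mul, abs_of_pos hp] at h2
  refine (norm_le_abs_re_add_abs_im _).trans ?_
  simp only [dd, sub_re, sub_im]
  rw [← mul_sub, neg_sub_neg, ← mul_sub, abs_mul, abs_mul, abs_of_nonneg h0,
    abs_sub_comm (Real.sin _), ← mul_add]
  refine (mul_le_mul h3 (add_le_add h1 h2) (by positivity) (by norm_num)).trans ?_
  nlinarith [Real.pi_lt_d2, abs_nonneg (a - b)]

lemma basic_chB (j : Fin 3) (t : ℝ) : (chB 0).b j t = fig (t + 2 * (j : ℕ) / 3) := by
  simp [chB]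

lemma chB_succ (j : Fin 3) (t : ℝ) :
    (chB 0).b (j + 1) t = (chB 0).b j t + dd (t + 1 / 3 + 2 * (j : ℕ) / 3) := by
  have h := fig_sub (t + 2 * (j : ℕ) / 3)
  rw [add_right_comm t _ (1 / 3), sub_eq_iff_eq_add'] at h
  rw [basic_chB, basic_chB, ← h]
  have h0 : ∀ j : Fin 3, ((j + 1 : Fin 3) : ℕ) = j + 1 ∨ ((j + 1 : Fin 3) : ℕ) + 3 = j + 1 := by
    decide
  rcases h0 j with e | e
  · rw [e]; congr 1; push_cast; ring
  · have e' : (((j + 1 : Fin 3) : ℕ) : ℝ) + 3 = (j : ℕ) + 1 := by exact_mod_cast e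
    rw [← fig_two]; congr 1; linarith

lemma chB_pred (j : Fin 3) (t : ℝ) :
    (chB 0).b (j + 2) t = (chB 0).b j t - dd (t - 1 / 3 + 2 * (j : ℕ) / 3) := by
  have h := chB_succ (j + 2) t
  rw [add_assoc j, show (2 : Fin 3) + 1 = 0 from rfl, add_zero] at h
  rw [h, eq_sub_iff_add_eq]
  congr 1
  have h2 : ∀ s, dd (s + 2) = dd s := fun s => by
    rw [show s + 2 = s + 1 + 1 by ring, dd_one, dd_one, conj_conj]
  have h0 : ∀ j : Fin 3, ((j + 2 : Fin 3) : ℕ) = j + 2 ∨ ((j + 2 : Fin 3) : ℕ) + 1 = j := by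
    decide
  rcases h0 j with e | e
  · rw [e, ← h2]; congr 1; push_cast; ring
  · have e' : (((j + 2 : Fin 3) : ℕ) : ℝ) + 1 = (j : ℕ) := by exact_mod_cast e
    congr 1; linarith

end Pool.Agent.Lib.MP_45bb13_gt
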