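import Pool.Agent.Lib.MP_45bb13_gt.LocA

/-! The calculus of locally open maps. -/

set_option linter.unusedSectionVars false

namespace Pool.Agent.Lib.MP_45bb13_gt

open Set Filter Topology Complex
open scoped ComplexConjugate

variable {E E' X Y Z : Type*} [TopologicalSpace E] [TopologicalSpace E'] [TopologicalSpace X]
  [TopologicalSpace Y] [TopologicalSpace Z] {p q : E → X} {O O' : Set E} {x : E}

/-- Descent of a parametrised map along a locally open map. -/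
theorem LO.descend [Nonempty Y] (h : LO p O) {S : Set Z} {H : E × Z → Y}
    (hH : ContinuousOn H (O ×ˢ S))
    (he : ∀ x ∈ O, ∀ y ∈ O, p x = p y → ∀ z ∈ S, H (x, z) = H (y, z)) :
    ∃ G : X × Z → Y, ContinuousOn G ((p '' O) ×ˢ S) ∧ ∀ x ∈ O, ∀ z ∈ S, G (p x, z) = H (x, z) :=
  by
  classical
  have key : ∀ x ∈ O, ∀ z ∈ S, (if h : p x ∈ p '' O then H (h.choose, z)
      else Classical.arbitrary Y) = H (x, z) := fun x hx z hz => by
    have h0 := mem_image_of_mem p hx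
    rw [dif_pos h0]
    exact he _ h0.choose_spec.1 _ hx h0.choose_spec.2 z hz
  exact ⟨fun y => if h : y.1 ∈ p '' O then H (h.choose, y.2) else Classical.arbitrary Y,
    h.continuousOn_prod (hH.congr fun y hy => key _ hy.1 _ hy.2), key⟩

lemma exists_family [Nonempty Y] {A : Type*} {D : A → Type*} [∀ a, TopologicalSpace (D a)]
    {O : ∀ a, Set (D a)} {p : ∀ a, D a → X} {q : ∀ a, D a → Y} (hp : ∀ a, LO (p a) (O a))
    (hq : ∀ a, LO (q a) (O a))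
    (h : ∀ a b, ∀ x ∈ O a, ∀ y ∈ O b, p a x = p b y → q a x = q b y) :
    ∃ f : X → Y, ContinuousOn f (⋃ a, p a '' O a) ∧ ∀ a, ∀ x ∈ O a, f (p a x) = q a x := by
  classical
  have key : ∀ a, ∀ x ∈ O a, (if h : ∃ b : Σ a, D a, b.2 ∈ O b.1 ∧ p b.1 b.2 = p a x then
      q h.choose.1 h.choose.2 else Classical.arbitrary Y) = q a x := fun a x hx => by
    have h0 : ∃ b : Σ a, D a, b.2 ∈ O b.1 ∧ p b.1 b.2 = p a x := ⟨⟨a, x⟩, hx, rfl⟩
    rw [dif_pos h0]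
    exact h _ _ _ h0.choose_spec.1 _ hx h0.choose_spec.2
  refine ⟨fun y => if h : ∃ b : Σ a, D a, b.2 ∈ O b.1 ∧ p b.1 b.2 = y then
    q h.choose.1 h.choose.2 else Classical.arbitrary Y, fun y hy => ?_, key⟩
  obtain ⟨a, x, hx, rfl⟩ := mem_iUnion.1 hy
  refine (((hp a).continuousAt_iff hx).2 (((hq a).continuousAt hx).congr ?_)).continuousWithinAt
  filter_upwards [(hp a).1.mem_nhds hx] with y hy using (key a y hy).symm

/-- Two families of locally open maps with the same fibres define a homeomorphism of images. -/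
theorem oph_family [Nonempty X] [Nonempty Y] {A : Type*} {D : A → Type*} [∀ a, TopologicalSpace (D a)]
    {O : ∀ a, Set (D a)} {p : ∀ a, D a → X} {q : ∀ a, D a → Y} (hp : ∀ a, LO (p a) (O a))
    (hq : ∀ a, LO (q a) (O a))
    (h : ∀ a b, ∀ x ∈ O a, ∀ y ∈ O b, p a x = p b y ↔ q a x = q b y) :
    ∃ φ : OpenPartialHomeomorph X Y, φ.source = ⋃ a, p a '' O a ∧ φ.target = ⋃ a, q a '' O a ∧
      ∀ a, ∀ x ∈ O a, φ (p a x) = q a x := by
  obtain ⟨f, f1, f2⟩ := exists_family hp hq fun a b x hx y hy => (h a b x hx y hy).1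
  obtain ⟨g, g1, g2⟩ := exists_family hq hp fun a b x hx y hy => (h a b x hx y hy).2
  refine ⟨⟨⟨⟨f, g, _, _, fun y hy => ?_, fun y hy => ?_, fun y hy => ?_, fun y hy => ?_⟩, f1, g1⟩,
    isOpen_iUnion fun a => (hp a).isOpen_image (hp a).1 le_rfl,
    isOpen_iUnion fun a => (hq a).isOpen_image (hq a).1 le_rfl⟩, rfl, rfl, f2⟩ <;>
    obtain ⟨a, x, hx, rfl⟩ := mem_iUnion.1 hy
  · exact mem_iUnion.2 ⟨a, x, hx, (f2 a x hx).symm⟩
  · exact mem_iUnion.2 ⟨a, x, hx, (g2 a x hx).symm⟩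
  · rw [f2 a x hx, g2 a x hx]
  · rw [g2 a x hx, f2 a x hx]

lemma LO.sum {p' : E' → X} {U : Set E'} (hp : LO p O) (hp' : LO p' U) :
    LO (Sum.elim p p') {x | Sum.elim (· ∈ O) (· ∈ U) x} := by
  refine ⟨isOpen_sum_iff.2 ⟨hp.1, hp'.1⟩, ?_⟩
  rintro (x | x) hx
  · rw [nhds_inl, Filter.map_map]; exact hp.2 x hx
  · rw [nhds_inr, Filter.map_map]; exact hp'.2 x hx

theorem oph_two [Nonempty X] [Nonempty Y] {p' : E' → X} {q : E → Y} {q' : E' → Y} {U : Set E'} (hp : LO p O)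
    (hp' : LO p' U) (hq : LO q O) (hq' : LO q' U) (h1 : ∀ x ∈ O, ∀ y ∈ O, p x = p y ↔ q x = q y)
    (h2 : ∀ x ∈ O, ∀ y ∈ U, p x = p' y ↔ q x = q' y)
    (h3 : ∀ x ∈ U, ∀ y ∈ U, p' x = p' y ↔ q' x = q' y) :
    ∃ φ : OpenPartialHomeomorph X Y, φ.source = p '' O ∪ p' '' U ∧ φ.target = q '' O ∪ q' '' U ∧
      (∀ x ∈ O, φ (p x) = q x) ∧ ∀ x ∈ U, φ (p' x) = q' x := by
  obtain ⟨φ, e1, e2, e3⟩ := oph_family (A := Unit) (D := fun _ => E ⊕ E') (fun _ => hp.sum hp')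
    (fun _ => hq.sum hq') (by
      rintro - - (x | x) hx (y | y) hy
      exacts [h1 x hx y hy, h2 x hx y hy, eq_comm.trans ((h2 y hy x hx).trans eq_comm),
        h3 x hx y hy])
  refine ⟨φ, ?_, ?_, fun x hx => e3 () (.inl x) hx, fun x hx => e3 () (.inr x) hx⟩
  · rw [e1]; ext; simp
  · rw [e2]; ext; simp

lemma homeo_of_oph (φ : OpenPartialHomeomorph X Y) (h1 : φ.source = univ) (h2 : φ.target = univ) :
    Nonempty (X ≃ₜ Y) := ⟨φ.toHomeomorphOfSourceEqUnivTargetEqUniv h1 h2⟩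

/-- Regluing along a compact set. -/
theorem glue [Nonempty E] [T2Space X] [T2Space Y] {D K L U : Set E} {e : E → X} {e' : E → Y}
    (he : LO e D) (hi : InjOn e D) (he' : LO e' U) (hi' : InjOn e' U) (hL : IsCompact L)
    (hKL : K ⊆ L) (hLD : L ⊆ D) (hKU : K ⊆ U) (hUD : U ⊆ D) (f : OpenPartialHomeomorph X Y)
    (hs : f.source = (e '' K)ᶜ) (ht : f.target = (e' '' K)ᶜ) (ψ : OpenPartialHomeomorph E E)
    (hψ : ψ.source = D \ K) (hψ' : ψ.target = D \ K) (hU : ∀ x ∈ D \ K, ψ x ∈ U ↔ x ∈ U)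
    (hf : ∀ x ∈ U \ K, f (e x) = e' (ψ x)) (φ : E ≃ₜ E) (hφ : ∀ x, φ x ∈ D ↔ x ∈ D)
    (hφψ : ∀ x ∈ D \ L, φ x = ψ x) : Nonempty (X ≃ₜ Y) := by
  classical
  have : Nonempty X := .map e ‹_›
  have : Nonempty Y := .map e' ‹_›
  let g : E → Y := fun x => if x ∈ U then e' x else f (e (ψ.symm x))
  have a0 : ∀ x ∈ D \ K, e x ∈ f.source := fun x hx => hs ▸ fun ⟨y, hy, h⟩ =>
    hx.2 (hi (hLD (hKL hy)) hx.1 h ▸ hy)
  have a1 : ∀ x ∈ D \ K, ψ.symm x ∈ D \ K := fun x hx => hψ ▸ ψ.map_target (hψ' ▸ hx)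
  have a2 : ∀ x ∈ D \ K, ψ x ∈ D \ K := fun x hx => hψ' ▸ ψ.map_source (hψ ▸ hx)
  have g1 : EqOn g e' U := fun x hx => if_pos hx
  have g2 : EqOn g (f ∘ e ∘ ψ.symm) (D \ K) := fun x hx => by
    by_cases h : x ∈ U
    · have h1 := ψ.right_inv (hψ' ▸ hx)
      rw [g1 h, Function.comp_apply, Function.comp_apply,
        hf _ ⟨(hU _ (a1 x hx)).1 (h1.symm ▸ h), (a1 x hx).2⟩, h1]
    · exact if_neg h
  have g3 : ∀ x ∈ D \ K, g (ψ x) = f (e x) := fun x hx => by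
    rw [g2 (a2 x hx), Function.comp_apply, Function.comp_apply, ψ.left_inv (hψ ▸ hx)]
  have l1 : LO (f ∘ e ∘ ψ.symm) (D \ K) := (lo_oph f).comp (he.comp (hψ' ▸ lo_oph ψ.symm)
    fun x hx => (a1 x hx).1) fun x hx => a0 _ (a1 x hx)
  have g4 : LO g D := lo_of_local fun x hx => by
    by_cases h : x ∈ K
    · exact ⟨U, hKU h, hUD, he'.congr g1⟩
    · exact ⟨D \ K, ⟨hx, h⟩, sdiff_subset, l1.congr g2⟩
  have g5 : ∀ x ∈ K, ∀ y ∈ f.source, g x ≠ f y := fun x hx y hy h =>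
    (ht ▸ f.map_source hy) ⟨x, hx, (g1 (hKU hx)).symm.trans h⟩
  have g6 : InjOn g D := fun x hx y hy h => by
    by_cases h1 : x ∈ K <;> by_cases h2 : y ∈ K
    · exact hi' (hKU h1) (hKU h2) (by rw [← g1 (hKU h1), ← g1 (hKU h2), h])
    · exact (g5 x h1 _ (a0 _ (a1 y ⟨hy, h2⟩)) (h.trans (g2 ⟨hy, h2⟩))).elim
    · exact (g5 y h2 _ (a0 _ (a1 x ⟨hx, h1⟩)) (h.symm.trans (g2 ⟨hx, h1⟩))).elim
    · rw [g2 ⟨hx, h1⟩, g2 ⟨hy, h2⟩] at h
      exact ψ.symm.injOn (hψ'.ge ⟨hx, h1⟩) (hψ'.ge ⟨hy, h2⟩) (hi (a1 x ⟨hx, h1⟩).1 (a1 y ⟨hy, h2⟩).1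
        (f.injOn (a0 _ (a1 x ⟨hx, h1⟩)) (a0 _ (a1 y ⟨hy, h2⟩)) h))
  have o1 : IsOpen (e '' L)ᶜ :=
    (hL.image_of_continuousOn (he.continuousOn.mono hLD)).isClosed.isOpen_compl
  have o2 : (e '' L)ᶜ ⊆ f.source := hs ▸ compl_subset_compl.2 (image_mono hKL)
  have n1 : ∀ y ∈ D, y ∉ L → g (φ y) = f (e y) := fun y hy h => by
    rw [hφψ y ⟨hy, h⟩, g3 y ⟨hy, fun h' => h (hKL h')⟩]
  obtain ⟨F, s1, s2, -⟩ := oph_two (q := f) (q' := g ∘ φ) (lo_id o1) he ((lo_oph f).mono o1 o2)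
    (g4.comp (lo_homeo φ he.1) fun x hx => (hφ x).2 hx)
    (fun x hx y hy => ⟨congrArg f, f.injOn (o2 hx) (o2 hy)⟩) (fun x hx y hy => ⟨fun h => by
      subst h
      exact (n1 y hy fun h => hx ⟨y, h, rfl⟩).symm, fun h => by
      have h1 : φ y ∈ D \ K := ⟨(hφ y).2 hy, fun h' => g5 _ h' _ (o2 hx) h.symm⟩
      have h2 : x = e (ψ.symm (φ y)) := f.injOn (o2 hx) (a0 _ (a1 _ h1)) (h.trans (g2 h1))
      have h3 : φ (ψ.symm (φ y)) = φ y := by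
        rw [hφψ _ ⟨(a1 _ h1).1, fun h' => hx ⟨_, h', h2.symm⟩⟩, ψ.right_inv (hψ' ▸ h1)]
      rw [φ.injective h3] at h2
      exact h2⟩)
    fun x hx y hy => ⟨fun h => hi hx hy h ▸ rfl, fun h =>
      φ.injective (g6 ((hφ x).2 hx) ((hφ y).2 hy) h) ▸ rfl⟩
  refine homeo_of_oph F (s1.trans (eq_univ_of_forall fun x => ?_))
    (s2.trans (eq_univ_of_forall fun y => ?_))
  · by_cases h : x ∈ e '' L
    · exact .inr (image_mono hLD h)
    · exact .inl ⟨x, h, rfl⟩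
  have m : ∀ x ∈ D, g x ∈ (g ∘ φ) '' D := fun x hx =>
    ⟨φ.symm x, (hφ _).1 (by rwa [φ.apply_symm_apply]), by simp⟩
  by_cases h : y ∈ e' '' K
  · obtain ⟨x, hx, rfl⟩ := h
    exact .inr (g1 (hKU hx) ▸ m x (hLD (hKL hx)))
  obtain ⟨x, hx, rfl⟩ := f.surjOn (show y ∈ f.target from ht ▸ h)
  by_cases h' : x ∈ e '' L
  · obtain ⟨z, hz, rfl⟩ := h'
    have h1 : z ∈ D \ K := ⟨hLD hz, fun h1 => (hs ▸ hx) ⟨z, h1, rfl⟩⟩
    exact .inr (g3 z h1 ▸ m _ (a2 z h1).1)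
  · exact .inl ⟨x, h', rfl⟩

end Pool.Agent.Lib.MP_45bb13_gt
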