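import Pool.Agent.Lib.MP_45bb13_gt.Basic
import Pool.Agent.Lib.MP_45bb13_gt.Loc

/-! The belt trick. -/

set_option linter.unusedSectionVars false

namespace Pool.Agent.Lib.MP_45bb13_gt

open Set Filter Topology Complex
open scoped ComplexConjugate

section radial

variable {W : Type*} [NormedAddCommGroup W] [NormedSpace ℝ W]

/-- Radial normalisation of a family of homogeneous maps. -/
noncomputable def beltRad (M : ℝ → W → W) (x : W) : W := (‖x‖ / ‖M ‖x‖ x‖) • M ‖x‖ x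

variable {M M' : ℝ → W → W}

lemma belt_ne (h : ∀ r x, M' r (M r x) = x) (hs : ∀ r (k : ℝ) x, M' r (k • x) = k • M' r x)
    {x : W} (hx : x ≠ 0) (r : ℝ) : M r x ≠ 0 := fun h0 => by
  have h1 := h r x
  have h2 := hs r 0 0
  rw [zero_smul, zero_smul] at h2
  rw [h0, h2] at h1
  exact hx h1.symm

lemma belt_norm_rad (h : ∀ r x, M' r (M r x) = x)
    (hs : ∀ r (k : ℝ) x, M' r (k • x) = k • M' r x) (x : W) : ‖beltRad M x‖ = ‖x‖ := by
  by_cases hx : x = 0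
  · simp [beltRad, hx]
  · have h1 := norm_ne_zero_iff.2 (belt_ne h hs hx ‖x‖)
    rw [beltRad, norm_smul, Real.norm_eq_abs, abs_of_nonneg (by positivity), div_mul_cancel₀ _ h1]

lemma belt_rad_rad (h : ∀ r x, M' r (M r x) = x)
    (hs : ∀ r (k : ℝ) x, M' r (k • x) = k • M' r x) (x : W) : beltRad M' (beltRad M x) = x := by
  by_cases hx : x = 0
  · simp [beltRad, hx]
  · have h1 := norm_pos_iff.2 (belt_ne h hs hx ‖x‖)
    have h2 := norm_pos_iff.2 hx
    have h3 : M' ‖x‖ (beltRad M x) = (‖x‖ / ‖M ‖x‖ x‖) • x := by rw [beltRad, hs, h]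
    rw [beltRad, belt_norm_rad h hs, h3, smul_smul, norm_smul, Real.norm_eq_abs,
      abs_of_nonneg (by positivity)]
    have : ‖x‖ / (‖x‖ / ‖M ‖x‖ x‖ * ‖x‖) * (‖x‖ / ‖M ‖x‖ x‖) = 1 := by field_simp
    rw [this, one_smul]

lemma belt_rad_eq {x y : W} (h : M ‖x‖ x = y) (hy : ‖y‖ = ‖x‖) : beltRad M x = y := by
  by_cases hx : ‖x‖ = 0
  · rw [beltRad, hx, zero_div, zero_smul, norm_eq_zero.1 (hy.trans hx)]
  · rw [beltRad, h, hy, div_self hx, one_smul]

lemma belt_rad_cont {N N' : ℝ → ℝ → W → W} (h : ∀ t r x, N' t r (N t r x) = x)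
    (hs : ∀ t r (k : ℝ) x, N' t r (k • x) = k • N' t r x)
    (hc : Continuous fun q : ℝ × ℝ × W => N q.1 q.2.1 q.2.2) :
    Continuous fun q : ℝ × W => beltRad (N q.1) q.2 := by
  rw [continuous_iff_continuousAt]
  intro q
  by_cases hx : q.2 = 0
  · have h0 : beltRad (N q.1) q.2 = 0 := by simp [beltRad, hx]
    rw [ContinuousAt, h0, tendsto_zero_iff_norm_tendsto_zero]
    simp only [belt_norm_rad (h _) (hs _)]
    have : ContinuousAt (fun q : ℝ × W => ‖q.2‖) q := by fun_prop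
    rwa [ContinuousAt, hx, norm_zero] at this
  · have h1 : Continuous fun q : ℝ × W => N q.1 ‖q.2‖ q.2 :=
      hc.comp (f := fun q : ℝ × W => (q.1, ‖q.2‖, q.2)) (by fun_prop)
    exact ((continuous_snd.norm.continuousAt).div h1.norm.continuousAt
      (norm_ne_zero_iff.2 (belt_ne (h _) (hs _) hx _))).smul h1.continuousAt

end radial

/-- Rotation about the vertical axis. -/
noncomputable def beltR (c : ℝ) (x : ℂ × ℝ) : ℂ × ℝ := (ee c * x.1, x.2)

/-- Exchange of two coordinates. -/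
def beltT (x : ℂ × ℝ) : ℂ × ℝ := (⟨x.1.re, x.2⟩, x.1.im)

/-- Rotation about a horizontal axis. -/
noncomputable def beltP (a : ℝ) (x : ℂ × ℝ) : ℂ × ℝ := beltT (beltR a (beltT x))

lemma beltR_add (a b : ℝ) (x : ℂ × ℝ) : beltR a (beltR b x) = beltR (a + b) x := by
  simp [beltR, ee_add, mul_assoc]

lemma beltR_int (n : ℤ) (x : ℂ × ℝ) : beltR n x = x := by simp [beltR, ee_int]

lemma beltR_zero (x : ℂ × ℝ) : beltR 0 x = x := by simp [beltR, ee_zero]

lemma beltR_neg (a : ℝ) (x : ℂ × ℝ) : beltR (-a) (beltR a x) = x := by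
  rw [beltR_add, neg_add_cancel, beltR_zero]

lemma beltR_neg' (a : ℝ) (x : ℂ × ℝ) : beltR a (beltR (-a) x) = x := by
  rw [beltR_add, add_neg_cancel, beltR_zero]

lemma beltT_T (x : ℂ × ℝ) : beltT (beltT x) = x := rfl

lemma beltP_neg (a : ℝ) (x : ℂ × ℝ) : beltP (-a) (beltP a x) = x := by
  rw [beltP, beltP, beltT_T, beltR_neg, beltT_T]

lemma beltP_neg' (a : ℝ) (x : ℂ × ℝ) : beltP a (beltP (-a) x) = x := by
  rw [beltP, beltP, beltT_T, beltR_neg', beltT_T]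

lemma beltP_zero (x : ℂ × ℝ) : beltP 0 x = x := by rw [beltP, beltR_zero, beltT_T]

lemma beltR_smul (a k : ℝ) (x : ℂ × ℝ) : beltR a (k • x) = k • beltR a x := by
  refine Prod.ext ?_ rfl
  simp only [beltR, Prod.smul_fst, real_smul]
  ring

lemma beltT_smul (k : ℝ) (x : ℂ × ℝ) : beltT (k • x) = k • beltT x := by
  refine Prod.ext (Complex.ext ?_ ?_) ?_ <;> simp [beltT]

lemma beltP_smul (a k : ℝ) (x : ℂ × ℝ) : beltP a (k • x) = k • beltP a x := by
  rw [beltP, beltT_smul, beltR_smul, beltT_smul, beltP]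

lemma beltP_half (x : ℂ × ℝ) : beltP (1 / 2) x = (-conj x.1, -x.2) := by
  refine Prod.ext (Complex.ext ?_ ?_) ?_ <;> simp only [beltP, beltR, beltT, ee_half] <;> simp

lemma beltP_half' (x : ℂ × ℝ) : beltP (-(1 / 2)) x = (-conj x.1, -x.2) := by
  refine Prod.ext (Complex.ext ?_ ?_) ?_ <;>
    simp only [beltP, beltR, beltT, ee_neg, ee_half] <;> simp

lemma norm_beltR (a : ℝ) (x : ℂ × ℝ) : ‖beltR a x‖ = ‖x‖ := by
  rw [Prod.norm_def, Prod.norm_def, beltR, norm_mul, norm_ee, one_mul]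

@[fun_prop] lemma continuous_beltR {Z : Type*} [TopologicalSpace Z] {a : Z → ℝ} {f : Z → ℂ × ℝ}
    (ha : Continuous a) (hf : Continuous f) : Continuous fun z => beltR (a z) (f z) := by
  unfold beltR
  fun_prop

@[fun_prop] lemma continuous_beltT : Continuous beltT := by
  unfold beltT
  fun_prop

@[fun_prop] lemma continuous_beltP {Z : Type*} [TopologicalSpace Z] {a : Z → ℝ} {f : Z → ℂ × ℝ}
    (ha : Continuous a) (hf : Continuous f) : Continuous fun z => beltP (a z) (f z) := by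
  unfold beltP
  fun_prop

/-- The belt family. -/
noncomputable def beltM (c a : ℝ) (x : ℂ × ℝ) : ℂ × ℝ := beltR c (beltP a (beltR c (beltP (-a) x)))

/-- The inverse family. -/
noncomputable def beltM' (c a : ℝ) (x : ℂ × ℝ) : ℂ × ℝ :=
  beltP a (beltR (-c) (beltP (-a) (beltR (-c) x)))

lemma beltM'_M (c a : ℝ) (x : ℂ × ℝ) : beltM' c a (beltM c a x) = x := by
  rw [beltM', beltM, beltR_neg, beltP_neg, beltR_neg, beltP_neg']

lemma beltM_M' (c a : ℝ) (x : ℂ × ℝ) : beltM c a (beltM' c a x) = x := by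
  rw [beltM', beltM, beltP_neg, beltR_neg', beltP_neg', beltR_neg']

lemma beltM_smul (c a k : ℝ) (x : ℂ × ℝ) : beltM c a (k • x) = k • beltM c a x := by
  simp only [beltM, beltP_smul, beltR_smul]

lemma beltM'_smul (c a k : ℝ) (x : ℂ × ℝ) : beltM' c a (k • x) = k • beltM' c a x := by
  simp only [beltM', beltP_smul, beltR_smul]

lemma beltM_half (c : ℝ) (x : ℂ × ℝ) : beltM c (1 / 2) x = x := by
  rw [beltM, beltP_half, beltP_half']
  refine Prod.ext ?_ (by simp [beltR])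
  have h := ee_mul_neg c
  rw [ee_neg] at h
  simp only [beltR, map_mul, map_neg, conj_conj, mul_neg, neg_neg]
  rw [← mul_assoc, h, one_mul]

lemma beltM_int (n : ℤ) (a : ℝ) (x : ℂ × ℝ) : beltM n a x = x := by
  rw [beltM, beltR_int, beltR_int, beltP_neg']

lemma beltM_zero (c : ℝ) (x : ℂ × ℝ) : beltM c 0 x = beltR (c + c) x := by
  rw [beltM, neg_zero, beltP_zero, beltP_zero, beltR_add]

/-- The belt trick in the solid cylinder. -/
lemma belt_core {σ : ℝ} (h1 : σ < 1) {η : ℝ → ℝ} (hη : Continuous η) :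
    ∃ ψ ψ' : ℝ → ℂ × ℝ → ℂ × ℝ, (Continuous fun q : ℝ × ℂ × ℝ => ψ q.1 q.2) ∧
      (Continuous fun q : ℝ × ℂ × ℝ => ψ' q.1 q.2) ∧ (∀ t x, ψ' t (ψ t x) = x) ∧
      (∀ t x, ψ t (ψ' t x) = x) ∧ (∀ t x, ‖ψ t x‖ = ‖x‖) ∧
      (∀ t x, (1 + σ) / 2 ≤ ‖x‖ ∨ η t = 1 ∨ η t = -1 → ψ t x = x) ∧
      ∀ t x, ‖x‖ ≤ σ → ψ t x = (ee (η t) * x.1, x.2) := by
  have hσ : 0 < 1 - σ := by linarith
  let al : ℝ → ℝ := fun r => max 0 (min (1 / 2) ((r - σ) / (1 - σ)))
  have hal : Continuous al := by fun_prop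
  let N : ℝ → ℝ → ℂ × ℝ → ℂ × ℝ := fun t r => beltM ((η t + 1) / 2) (al r)
  let N' : ℝ → ℝ → ℂ × ℝ → ℂ × ℝ := fun t r => beltM' ((η t + 1) / 2) (al r)
  have a1 : ∀ t r x, N' t r (N t r x) = x := fun t r x => beltM'_M _ _ _
  have a2 : ∀ t r x, N t r (N' t r x) = x := fun t r x => beltM_M' _ _ _
  have a3 : ∀ t r (k : ℝ) x, N t r (k • x) = k • N t r x := fun t r k x => beltM_smul _ _ _ _
  have a4 : ∀ t r (k : ℝ) x, N' t r (k • x) = k • N' t r x := fun t r k x => beltM'_smul _ _ _ _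
  refine ⟨fun t => beltRad (N t), fun t => beltRad (N' t), belt_rad_cont a1 a4 ?_,
    belt_rad_cont a2 a3 ?_, fun t => belt_rad_rad (a1 t) (a4 t),
    fun t => belt_rad_rad (a2 t) (a3 t), fun t => belt_norm_rad (a1 t) (a4 t), ?_, ?_⟩
  · simp only [N, beltM]
    fun_prop
  · simp only [N', beltM']
    fun_prop
  · rintro t x (h | h | h) <;> refine belt_rad_eq ?_ rfl
    · have : al ‖x‖ = 1 / 2 := by
        have h2 : 1 / 2 ≤ (‖x‖ - σ) / (1 - σ) := by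
          rw [le_div_iff₀ hσ]
          linarith
        simp only [al]
        rw [min_eq_left h2, max_eq_right (by norm_num)]
      simp only [N]
      rw [this, beltM_half]
    · simp only [N]
      rw [h, show ((1 : ℝ) + 1) / 2 = ((1 : ℤ) : ℝ) by norm_num, beltM_int]
    · simp only [N]
      rw [h, show ((-1 : ℝ) + 1) / 2 = ((0 : ℤ) : ℝ) by norm_num, beltM_int]
  · intro t x h
    have : al ‖x‖ = 0 := by
      have h2 : (‖x‖ - σ) / (1 - σ) ≤ 0 := div_nonpos_of_nonpos_of_nonneg (by linarith) hσ.le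
      exact max_eq_left ((min_le_right _ _).trans h2)
    refine belt_rad_eq ?_ (norm_beltR (η t) x)
    simp only [N]
    rw [this, beltM_zero, show (η t + 1) / 2 + (η t + 1) / 2 = η t + ((1 : ℤ) : ℝ) by
      push_cast; ring, beltR, ee_add_int]

/-- The representative in `[-1/2, 1/2)`. -/
noncomputable def beltL (w : UnitAddCircle) : ℝ := AddCircle.equivIco 1 (-(1 / 2)) w

lemma beltL_coe (w : UnitAddCircle) : ((beltL w : ℝ) : UnitAddCircle) = w :=
  AddCircle.coe_equivIco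

lemma beltL_of {s : ℝ} (hs : |s| < 1 / 2) : beltL (s : UnitAddCircle) = s := by
  have h := abs_lt.1 hs
  exact AddCircle.equivIco_coe_of_mem ⟨h.1.le, by linarith [h.2]⟩

lemma abs_beltL (w : UnitAddCircle) : |beltL w| = ‖w‖ := by
  have h := (AddCircle.equivIco 1 (-(1 / 2) : ℝ) w).2
  have h2 : |beltL w| ≤ |(1 : ℝ)| / 2 := by
    rw [abs_one, abs_le]
    exact ⟨h.1, by linarith [show beltL w < -(1 / 2) + 1 from h.2]⟩
  rw [← (AddCircle.norm_coe_eq_abs_iff 1 one_ne_zero).2 h2, beltL_coe]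

lemma continuousAt_beltL {w : UnitAddCircle} (hw : ‖w‖ < 1 / 2) : ContinuousAt beltL w := by
  refine continuousAt_subtype_val.comp (AddCircle.continuousAt_equivIco 1 (-(1 / 2) : ℝ) ?_)
  rintro rfl
  rw [(AddCircle.norm_coe_eq_abs_iff 1 one_ne_zero).2 (by norm_num [abs_of_pos])] at hw
  norm_num [abs_of_pos] at hw

/-- Coordinates in the solid cylinder. -/
noncomputable def beltC (m ρ : ℝ) (p : MM) : ℂ × ℝ :=
  ((p.1 - m) / ρ, 2 * beltL (p.2.1 - ((3 / 4 : ℝ) : UnitAddCircle)))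

/-- The parametrisation of the solid cylinder. -/
noncomputable def beltU (m ρ t : ℝ) (x : ℂ × ℝ) : MM :=
  (m + ρ * x.1, ((3 / 4 : ℝ) : UnitAddCircle) + ((x.2 / 2 : ℝ) : UnitAddCircle), t)

lemma norm_beltC (m : ℝ) {ρ : ℝ} (hρ : 0 < ρ) (p : MM) : ‖beltC m ρ p‖ = nrm m ρ p := by
  rw [Prod.norm_def, beltC, nrm, norm_div, norm_real, Real.norm_eq_abs, abs_of_pos hρ,
    Real.norm_eq_abs, abs_mul, abs_two, abs_beltL]

lemma beltU_C (m : ℝ) {ρ : ℝ} (hρ : 0 < ρ) (p : MM) : beltU m ρ p.2.2 (beltC m ρ p) = p := by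
  have h : (ρ : ℂ) ≠ 0 := ofReal_ne_zero.2 hρ.ne'
  refine Prod.ext ?_ (Prod.ext ?_ rfl)
  · simp only [beltU, beltC]
    field_simp
    ring
  · simp only [beltU, beltC]
    rw [mul_div_cancel_left₀ _ two_ne_zero, beltL_coe, add_sub_cancel]

lemma beltC_U (m : ℝ) {ρ : ℝ} (hρ : 0 < ρ) (t : ℝ) {x : ℂ × ℝ} (hx : ‖x‖ < 1) :
    beltC m ρ (beltU m ρ t x) = x := by
  have h : (ρ : ℂ) ≠ 0 := ofReal_ne_zero.2 hρ.ne'
  have h2 : |x.2| < 1 := (norm_snd_le x).trans_lt hx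
  refine Prod.ext ?_ ?_
  · simp only [beltU, beltC]
    field_simp
    ring
  · simp only [beltU, beltC]
    rw [add_sub_cancel_left, beltL_of (by rw [abs_div, abs_two]; linarith)]
    ring

lemma continuous_belt_nrm (m ρ : ℝ) : Continuous (nrm m ρ) := by
  unfold nrm
  fun_prop

lemma belt_cont (m : ℝ) {ρ s : ℝ} (hρ : 0 < ρ) (hs : s < 1) {ψ : ℝ → ℂ × ℝ → ℂ × ℝ}
    (hc : Continuous fun q : ℝ × ℂ × ℝ => ψ q.1 q.2) (hi : ∀ t x, s ≤ ‖x‖ → ψ t x = x) :
    Continuous fun p : MM => beltU m ρ p.2.2 (ψ p.2.2 (beltC m ρ p)) := by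
  rw [continuous_iff_continuousAt]
  intro p
  rcases lt_or_ge (nrm m ρ p) 1 with h | h
  · have h1 : ‖p.2.1 - ((3 / 4 : ℝ) : UnitAddCircle)‖ < 1 / 2 := by
      have := (le_max_right _ _).trans_lt h
      linarith
    have h2 : ContinuousAt (fun p : MM => beltL (p.2.1 - ((3 / 4 : ℝ) : UnitAddCircle))) p :=
      (continuousAt_beltL h1).comp (f := fun p : MM => p.2.1 - ((3 / 4 : ℝ) : UnitAddCircle))
        (by fun_prop)
    have h3 : ContinuousAt (beltC m ρ) p := by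
      unfold beltC
      exact ContinuousAt.prodMk (by fun_prop) (continuousAt_const.mul h2)
    have h4 : ContinuousAt (fun p : MM => ψ p.2.2 (beltC m ρ p)) p :=
      hc.continuousAt.comp (f := fun p : MM => (p.2.2, beltC m ρ p))
        (ContinuousAt.prodMk (by fun_prop) h3)
    have h5 : Continuous fun q : ℝ × ℂ × ℝ => beltU m ρ q.1 q.2 := by
      unfold beltU
      have h6 : Continuous fun q : ℝ × ℂ × ℝ => ((q.2.2 / 2 : ℝ) : UnitAddCircle) :=
        (AddCircle.continuous_mk' 1).comp (f := fun q : ℝ × ℂ × ℝ => q.2.2 / 2) (by fun_prop)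
      have h7 : Continuous fun q : ℝ × ℂ × ℝ =>
          ((3 / 4 : ℝ) : UnitAddCircle) + ((q.2.2 / 2 : ℝ) : UnitAddCircle) :=
        continuous_const.add h6
      exact Continuous.prodMk (by fun_prop) (Continuous.prodMk h7 continuous_fst)
    exact h5.continuousAt.comp (f := fun p : MM => (p.2.2, ψ p.2.2 (beltC m ρ p)))
      (ContinuousAt.prodMk (by fun_prop) h4)
  · refine continuousAt_id.congr ?_
    filter_upwards [(continuous_belt_nrm m ρ).continuousAt.eventually (lt_mem_nhds (hs.trans_le h))]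
      with q hq
    rw [hi _ _ (by rw [norm_beltC m hρ]; exact hq.le), beltU_C m hρ, id]

lemma belt_inv (m : ℝ) {ρ : ℝ} (hρ : 0 < ρ) {ψ ψ' : ℝ → ℂ × ℝ → ℂ × ℝ}
    (h : ∀ t x, ψ' t (ψ t x) = x) (hn : ∀ t x, ‖ψ t x‖ = ‖x‖) (hi : ∀ t x, 1 ≤ ‖x‖ → ψ t x = x)
    (p : MM) : beltU m ρ p.2.2 (ψ' p.2.2 (beltC m ρ (beltU m ρ p.2.2 (ψ p.2.2 (beltC m ρ p))))) =
      p := by
  rcases lt_or_ge ‖beltC m ρ p‖ 1 with h1 | h1
  · rw [beltC_U m hρ _ (by rwa [hn]), h, beltU_C m hρ]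
  · have h2 := h p.2.2 (beltC m ρ p)
    rw [hi _ _ h1] at h2
    rw [hi _ _ h1, beltU_C m hρ, h2, beltU_C m hρ]

theorem belt (m : ℝ) {ρ σ : ℝ} (hρ : 0 < ρ) (h0 : 0 < σ) (h1 : σ < 1) {η : ℝ → ℝ}
    (hη : Continuous η) : ∃ φ : MM ≃ₜ MM, (∀ p, (φ p).2.2 = p.2.2) ∧
      (∀ p, nrm m ρ (φ p) = nrm m ρ p) ∧
      (∀ p, 1 ≤ nrm m ρ p ∨ η p.2.2 = 1 ∨ η p.2.2 = -1 → φ p = p) ∧
      ∀ p, nrm m ρ p ≤ σ → φ p = (m + ee (η p.2.2) * (p.1 - m), p.2) := by
  have _ := h0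
  obtain ⟨ψ, ψ', c1, c2, i1, i2, n1, e1, e2⟩ := belt_core h1 hη
  have hs : (1 + σ) / 2 < 1 := by linarith
  have n2 : ∀ t x, ‖ψ' t x‖ = ‖x‖ := fun t x => by rw [← n1 t (ψ' t x), i2]
  have e3 : ∀ t x, (1 + σ) / 2 ≤ ‖x‖ → ψ t x = x := fun t x h => e1 t x (.inl h)
  have e4 : ∀ t x, (1 + σ) / 2 ≤ ‖x‖ → ψ' t x = x := fun t x h => by
    have := i1 t x
    rwa [e3 t x h] at this
  refine ⟨⟨⟨fun p => beltU m ρ p.2.2 (ψ p.2.2 (beltC m ρ p)),
    fun p => beltU m ρ p.2.2 (ψ' p.2.2 (beltC m ρ p)),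
    belt_inv m hρ i1 n1 fun t x h => e3 t x (hs.le.trans h),
    belt_inv m hρ i2 n2 fun t x h => e4 t x (hs.le.trans h)⟩,
    belt_cont m hρ hs c1 e3, belt_cont m hρ hs c2 e4⟩, fun p => rfl, fun p => ?_, fun p hp => ?_,
    fun p hp => ?_⟩
  · change nrm m ρ (beltU m ρ p.2.2 (ψ p.2.2 (beltC m ρ p))) = _
    rcases lt_or_ge ‖beltC m ρ p‖ 1 with h | h
    · rw [← norm_beltC m hρ, beltC_U m hρ _ (by rwa [n1]), n1, norm_beltC m hρ]
    · rw [e3 _ _ (hs.le.trans h), beltU_C m hρ]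
  · change beltU m ρ p.2.2 (ψ p.2.2 (beltC m ρ p)) = _
    rw [e1 _ _ (hp.imp_left fun h => by rw [norm_beltC m hρ]; exact hs.le.trans h), beltU_C m hρ]
  · change beltU m ρ p.2.2 (ψ p.2.2 (beltC m ρ p)) = _
    rw [e2 _ _ (by rwa [norm_beltC m hρ])]
    have h : (ρ : ℂ) ≠ 0 := ofReal_ne_zero.2 hρ.ne'
    refine Prod.ext ?_ ?_
    · simp only [beltU, beltC]
      field_simp
    · exact (congrArg Prod.snd (beltU_C m hρ p) :)

end Pool.Agent.Lib.MP_45bb13_gt
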