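import Pool.Agent.Lib.MP_45bb13_gt.Defs
import Pool.Agent.Shared.Sing.PD
import Pool.Agent.Shared.Sing.Circ

/-! Homological definitions. -/

set_option linter.unusedSectionVars false

namespace Pool.Agent.Lib.MP_45bb13_gt

open Set Filter Topology Complex Pool.Agent.Shared.Sing Pool.Agent.Shared.SingEZ
open scoped ComplexConjugate

abbrev F2 : Type := ZMod 2

section chains

variable (R : Type) [CommRing R] {Y : Type} [TopologicalSpace Y] [Nonempty Y]

/-- The singular one-simplex of a path. -/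
noncomputable def edge (f : ℝ → Y) : C R Y := real f (Finsupp.single [0, 1] 1)

/-- The unit circle. -/
noncomputable def lpc : C R ℂ := edge R ee

/-- The unit disc. -/
noncomputable def dsk : C R ℂ :=
  real (fun q : ℝ × ℝ => (q.1 : ℂ) * ee (q.2 / q.1)) (Finsupp.single [(0, 0), (1, 0), (1, 1)] 1)

/-- The sphere made of two discs. -/
noncomputable def bi (f g : ℂ → Y) : C R Y := map f (dsk R) - map g (dsk R)

/-- Acyclic subsets. -/
def Acy (U : Set Y) : Prop := ∃ h, Contr R U h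

/-- The cycles of degree `n` in `U` are spanned by `S` up to boundaries. -/
def Spn (U : Set Y) (n : ℕ) (S : Set (C R Y)) : Prop :=
  (∀ c ∈ S, c ∈ Z R U ∅ n) ∧ Z R U ∅ n ≤ Submodule.span R S ⊔ B R U ∅ n

end chains

/-- The closed unit disc. -/
abbrev D1 : Set ℂ := Metric.closedBall 0 1

section forms

variable {F : Type} [Field F] {Y : Type} [TopologicalSpace Y] [Nonempty Y]

/-- An intersection form on an open subset of a four-manifold. -/
structure IForm (U : Set Y) (τ : C F (Y × Y) →ₗ[F] F) : Prop where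
  opn : IsOpen U
  coc : Coc (U ×ˢ U) 4 τ
  off : ∀ v ∈ In F (U ×ˢ U ∩ Off Y) 5, τ v = 0
  loc : ∀ x ∈ U, ∀ c ∈ Z F U (U ∩ {x}ᶜ) 4, c ∉ B F univ {x}ᶜ 4 → τ (map (Prod.mk x) c) ≠ 0

/-- The self-intersection number. -/
noncomputable def sqi (τ : C F (Y × Y) →ₗ[F] F) (z : C F Y) : F := τ (cross z z)

/-- All two-cycles of `U` have self-intersection zero. -/
def Ev (τ : C F (Y × Y) →ₗ[F] F) (U : Set Y) : Prop := ∀ z ∈ Z F U ∅ 2, sqi τ z = 0

end forms

section geom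

variable {Y : Type} [TopologicalSpace Y]

/-- Two surfaces meet like the coordinate planes. -/
def LocStd (f f' : ℂ → Y) (a a' : ℂ) : Prop :=
  ∃ (ψ : CC → Y) (h h' : ℂ → ℂ), Lemb ψ 0 ∧ Lemb h a ∧ Lemb h' a' ∧ h a = 0 ∧ h' a' = 0 ∧
    (∀ᶠ x in 𝓝 a, f x = ψ (h x, 0)) ∧ ∀ᶠ x in 𝓝 a', f' x = ψ (0, h' x)

/-- Two discs meet in `n` standard interior points. -/
def Meets (f f' : ℂ → Y) (n : ℕ) : Prop :=
  ∃ S : Finset (ℂ × ℂ), S.card = n ∧ (∀ x ∈ D1, ∀ x' ∈ D1, f x = f' x' → (x, x') ∈ S) ∧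
    ∀ a ∈ S, ‖a.1‖ < 1 ∧ ‖a.2‖ < 1 ∧ LocStd f f' a.1 a.2

/-- A family of spheres made of two discs. -/
structure BiFam (U : Set Y) (f g : ℝ → ℂ → Y) : Prop where
  cf : ContinuousOn (fun q : ℂ × ℝ => f q.2 q.1) (D1 ×ˢ Icc 0 1)
  cg : ContinuousOn (fun q : ℂ × ℝ => g q.2 q.1) (D1 ×ˢ Icc 0 1)
  mf : ∀ s ∈ Icc (0 : ℝ) 1, MapsTo (f s) D1 U
  mg : ∀ s ∈ Icc (0 : ℝ) 1, MapsTo (g s) D1 U
  bd : ∀ s ∈ Icc (0 : ℝ) 1, ∀ t, f s (ee t) = g s (ee t)

/-- The sphere made of the discs `f` and `g` meets a push-off in an even number of points. -/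
def BiEv (U : Set Y) (f g : ℂ → Y) : Prop :=
  ∃ f' g' : ℝ → ℂ → Y, BiFam U f' g' ∧ f' 0 = f ∧ g' 0 = g ∧ ∃ a b c d : ℕ, Meets f (f' 1) a ∧
    Meets f (g' 1) b ∧ Meets g (f' 1) c ∧ Meets g (g' 1) d ∧ Even (a + b + c + d)

/-- `U` retracts by deformation onto the image of the punctured plane. -/
def Circ (U : Set Y) (ι : ℂ → Y) : Prop :=
  ContinuousOn ι {0}ᶜ ∧ MapsTo ι {0}ᶜ U ∧ ∃ (π : Y → ℂ) (H : Y × ℝ → Y), ContinuousOn π U ∧
    MapsTo π U {0}ᶜ ∧ ContinuousOn H (U ×ˢ Icc 0 1) ∧ MapsTo H (U ×ˢ Icc 0 1) U ∧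
    ∀ y ∈ U, H (y, 0) = y ∧ H (y, 1) = ι (π y)

/-- `U` is contractible. -/
def Ctr (U : Set Y) : Prop :=
  ∃ y₀ ∈ U, ∃ H : Y × ℝ → Y, ContinuousOn H (U ×ˢ Icc 0 1) ∧ MapsTo H (U ×ˢ Icc 0 1) U ∧
    ∀ y ∈ U, H (y, 0) = y ∧ H (y, 1) = y₀

end geom

/-! ### Spheres in the cap -/

/-- The two halves of an exceptional sphere. -/
noncomputable def eF (k : Bool × Bool) (x : ℂ) : N := lam k (x, 0)

noncomputable def eG (k : Bool × Bool) (x : ℂ) : N := mu k (conj x, 0)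

/-- The two halves of the belt sphere. -/
noncomputable def sF (σ : Bool) (x : ℂ) : N := Sg (0, st σ x)

/-- The polar disc of a half of the fixed sphere. -/
noncomputable def cF (σ : Bool) (x : ℂ) : N := hs σ (x / 8, 0)

/-- The union of the two neighbourhoods of exceptional spheres on the same level. -/
def Ak (b : Bool) : Set N := Vk (false, b) ∪ Vk (true, b)

/-! ### Crossing spheres -/

namespace Br

variable {ι : Type} (B : Br ι)

/-- A sphere with even push-off that enters the caps along loops of prescribed classes. -/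
def Geo {κ : Type} (cap : κ → Option ι) (cls : κ → SD (ℤ × ℤ)) (cinf : SD (ℤ × ℤ)) : Prop :=
  ∃ f g : ℂ → B.X, BiEv univ f g ∧ ∃ (a : κ → ℂ) (ρ : κ → ℝ), (∀ i, 0 < ρ i ∧ ‖a i‖ + ρ i < 1) ∧
    (∀ i j, i ≠ j → ρ i + ρ j < ‖a i - a j‖) ∧ (∀ x ∈ D1, (∀ i, x ≠ a i) → f x ∈ B.T) ∧
    (∀ i, MapsTo f (Metric.closedBall (a i) (ρ i)) (B.Cap (cap i)) ∧
      LoopCls (B.pW (cap i)) (OW B.eps) (cls i) fun t => f (a i + ρ i * ee t)) ∧
    MapsTo g D1 (B.Cap none) ∧ LoopCls (B.pW none) (OW B.eps) cinf fun t => g (ee t)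

/-- The standard loops in a punctured cap. -/
noncomputable def lpA (k : Option ι) (t : ℝ) : B.X := B.pW k (t, B.eps / 2, 0)

noncomputable def lpT (k : Option ι) (b : Bool) (t : ℝ) : B.X := B.pW k (u0 (false, b), B.eps / 2, t)

/-- Combinations of the standard loops. -/
noncomputable def stdL [Fintype ι] (α β γ : Option ι → F2) : C F2 B.X :=
  ∑ k, (α k • edge F2 (B.lpA k) + β k • edge F2 (B.lpT k false) + γ k • edge F2 (B.lpT k true))

end Br

/-! ### The ray spheres of the choreography -/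

/-- The time at which the ray of strand `j` is crossed. -/
noncomputable def ts (j : Fin 3) : ℝ := -(1 / 3) - 2 * (j : ℕ) / 3

/-- The frozen time. -/
noncomputable def frz (s φ : ℝ) : ℝ := φ * (1 - max 0 (min 1 (2 - 1000 * (|s - √3| + |φ|))))

/-- The normal field. -/
noncomputable def rayN (l s φ : ℝ) : ℂ := -I * (l / 100 * min s 1 : ℝ) * ee (frz s φ / 2)

/-- The ray surface in the covering coordinates. -/
noncomputable def rayP (j : Fin 3) (b : Bool) (l s φ : ℝ) : CC :=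
  ((max 0 (min 1 ((6 - s) / 2)) : ℝ) * (chB 0).b j (ts j + frz s φ) + s * ee (rayN l s φ).re +
    (dd (frz s φ) - dd φ), ⟨(u0 (false, b)).im + (rayN l s φ).im, ts j + frz s φ⟩)

/-- The outer radius. -/
noncomputable def rayR : ℝ := 6 / (chB 0).eps

open Classical in
/-- The finite part of the ray sphere. -/
noncomputable def rayF (j : Fin 3) (b : Bool) (l : ℝ) (x : ℂ) : (chB 0).X :=
  if rayR * ‖x‖ < (chB 0).eps then (chB 0).jj (some j) (lam (false, b)
    (-I * (l / 100 : ℝ) * ee (-(ts j / 2)), (rayR ^ 2 * ‖x‖ : ℝ) * x * ee (ts j)))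
  else (chB 0).fill ((chB 0).eps / 2) (rayP j b l (rayR * ‖x‖) (ang x))

/-- The part at infinity of the ray sphere. -/
noncomputable def rayG (j : Fin 3) (b : Bool) (l : ℝ) (x : ℂ) : (chB 0).X :=
  (chB 0).jj none (lam (false, b)
    (-I * (l / 100 * rayR : ℝ) * ee (-(ts j / 2)) * conj x, ee (ts j) * x / (rayR ^ 2 : ℝ)))

end Pool.Agent.Lib.MP_45bb13_gt
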