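import Pool.Agent.Lib.MP_45bb13_gt.Loc
import Pool.Agent.Lib.MP_45bb13_gt.HDefs

/-! Coverings and one-dimensional homology. -/

set_option linter.unusedSectionVars false

namespace Pool.Agent.Lib.MP_45bb13_gt

open Set Filter Topology Complex Pool.Agent.Shared.Sing Pool.Agent.Shared.SingEZ
open scoped ComplexConjugate

variable {E X Γ : Type} [TopologicalSpace E] [TopologicalSpace X] [Nonempty E] [Nonempty X]
  [Group Γ] [MulAction Γ E] {p : E → X} {O : Set E} {F : Type} [Field F]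

lemma edge_eq {R : Type} [CommRing R] {ℓ ℓ' : ℝ → X} (h : EqOn ℓ ℓ' (Icc 0 1)) :
    edge R ℓ = edge R ℓ' := edge_congr fun t ht => by simpa using h ht

/-- The clamping of the line to the unit interval. -/
noncomputable def covC (t : ℝ) : ℝ := projIcc (0 : ℝ) 1 zero_le_one t

lemma covC_mem (t : ℝ) : covC t ∈ Icc (0 : ℝ) 1 := (projIcc (0 : ℝ) 1 zero_le_one t).2

lemma covC_eq {t : ℝ} (h : t ∈ Icc (0 : ℝ) 1) : covC t = t := by
  rw [covC, projIcc_of_mem _ h]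

lemma covC_zero : covC 0 = 0 := covC_eq ⟨le_rfl, zero_le_one⟩

lemma covC_one : covC 1 = 1 := covC_eq ⟨zero_le_one, le_rfl⟩

lemma covC_cont {ℓ : ℝ → X} (h : ContinuousOn ℓ (Icc 0 1)) : Continuous (ℓ ∘ covC) :=
  h.comp_continuous (continuous_subtype_val.comp continuous_projIcc) covC_mem

lemma edge_covC {R : Type} [CommRing R] (ℓ : ℝ → X) : edge R ℓ = edge R (ℓ ∘ covC) :=
  edge_eq fun t ht => by rw [Function.comp_apply, covC_eq ht]

lemma edge_In {R : Type} [CommRing R] {ℓ : ℝ → X} {U : Set X} (h : ContinuousOn ℓ (Icc 0 1))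
    (hm : MapsTo ℓ (Icc 0 1) U) : edge R ℓ ∈ In R U 2 := by
  rw [edge_covC]
  exact glob_In (covC_cont h) (fun t => hm (covC_mem t)) [0, 1]

lemma D_edge' {R : Type} [CommRing R] {ℓ : ℝ → X} (h : ContinuousOn ℓ (Icc 0 1)) :
    D (edge R ℓ) = pt R (ℓ 1) - pt R (ℓ 0) := by
  rw [edge_covC, edge, D_edge (covC_cont h), Function.comp_apply, Function.comp_apply, covC_zero,
    covC_one]

lemma edge_Z {R : Type} [CommRing R] {ℓ : ℝ → X} {U : Set X} (h : ContinuousOn ℓ (Icc 0 1))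
    (hm : MapsTo ℓ (Icc 0 1) U) (h1 : ℓ 1 = ℓ 0) : edge R ℓ ∈ Z R U ∅ 1 :=
  mem_Z (edge_In h hm) (by rw [D_edge' h, h1, sub_self])

lemma map_edge {R : Type} [CommRing R] {ℓ : ℝ → E} (h : ContinuousOn ℓ (Icc 0 1)) (f : E → X) :
    map f (edge R ℓ) = edge R (f ∘ ℓ) := by
  rw [edge_covC, edge, map_glob (covC_cont h), edge_covC (f ∘ ℓ)]
  rfl

lemma real_eq_edge {R : Type} [CommRing R] (G : V → X) (v w : V) :
    real G (Finsupp.single [v, w] (1 : R)) = edge R fun t => G ((1 - t) • v + t • w) :=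
  edge_congr fun t _ => by simp

lemma LoopCls.edge_Z (h : CovOn Γ p O) {g : Γ} {ℓ : ℝ → X} (hl : LoopCls p O g ℓ) :
    edge F ℓ ∈ Z F (p '' O) ∅ 1 := by
  obtain ⟨γ, c, m, e, l⟩ := hl
  rw [edge_eq (ℓ' := p ∘ γ) l]
  exact Pool.Agent.Lib.MP_45bb13_gt.edge_Z (h.lo.continuousOn.comp c m)
    (fun t ht => mem_image_of_mem _ (m ht))
    (by rw [Function.comp_apply, e, h.smul _ _ (m ⟨le_rfl, zero_le_one⟩)]; rfl)

/-- The restriction of `p` to `O` is a covering map. -/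
lemma CovOn.cov (h : CovOn Γ p O) :
    IsCoveringMap fun x : O => (⟨p x, mem_image_of_mem p x.2⟩ : p '' O) := by
  let S : SubMulAction Γ E := ⟨O, fun g _ hx => h.inv g _ hx⟩
  let _ : MulAction Γ O := SubMulAction.mulAction S
  have hs : ∀ (g : Γ) (x : O), ((g • x : O) : E) = g • (x : E) := fun _ _ => rfl
  have hc : Continuous fun x : O => (⟨p x, mem_image_of_mem p x.2⟩ : p '' O) :=
    (continuousOn_iff_continuous_domRestrict.1 h.lo.continuousOn).subtype_mk _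
  refine IsQuotientCoveringMap.isCoveringMap _ Γ ⟨?_, ⟨fun g => ?_⟩, ?_, fun e => ?_⟩
  · refine IsOpenMap.isQuotientMap (fun U hU => ?_) hc ?_
    · have := h.lo.isOpen_image (h.lo.1.isOpenMap_subtype_val U hU) (Subtype.coe_image_subset _ _)
      convert this.preimage (continuous_subtype_val (p := (· ∈ p '' O))) using 1
      ext x
      simp only [mem_image, mem_preimage, Subtype.ext_iff]
      exact ⟨fun ⟨y, a, b⟩ => ⟨y, ⟨y, a, rfl⟩, b⟩, fun ⟨_, ⟨y, a, rfl⟩, b⟩ => ⟨y, a, b⟩⟩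
    · rintro ⟨_, x, hx, rfl⟩
      exact ⟨⟨x, hx⟩, rfl⟩
  · exact ((h.cont g).comp continuous_subtype_val).subtype_mk _
  · intro a b
    refine ⟨fun e => ?_, ?_⟩
    · obtain ⟨g, hg⟩ := h.trans b b.2 a a.2 (congrArg Subtype.val e).symm
      exact ⟨g, Subtype.ext hg⟩
    · rintro ⟨g, rfl⟩
      exact Subtype.ext (h.smul g b b.2)
  · obtain ⟨U, hU, lo, hi⟩ := h.le e e.2
    refine ⟨Subtype.val ⁻¹' U, (lo.1.preimage continuous_subtype_val).mem_nhds hU, ?_⟩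
    rintro g ⟨_, ⟨x, hx, rfl⟩, hx'⟩
    exact h.free g x x.2 (hi hx' hx (h.smul g x x.2))

lemma CovOn.liftG (h : CovOn Γ p O) {A : Type} [TopologicalSpace A] [SimplyConnectedSpace A]
    [LocallyPathConnectedSpace A] {f : A → X} (hf : Continuous f) (hm : ∀ a, f a ∈ p '' O) {a : A}
    {e : E} (he : e ∈ O) (h0 : p e = f a) :
    ∃ δ : A → E, Continuous δ ∧ (∀ a, δ a ∈ O) ∧ δ a = e ∧ ∀ a, p (δ a) = f a := by
  obtain ⟨G, ⟨h1, h2⟩, -⟩ := h.cov.existsUnique_continuousMap_lifts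
    ⟨fun a => ⟨f a, hm a⟩, hf.subtype_mk _⟩ a ⟨e, he⟩ (Subtype.ext h0)
  exact ⟨fun a => G a, continuous_subtype_val.comp G.continuous, fun a => (G a).2,
    congrArg Subtype.val h1, fun a => congrArg Subtype.val (congrFun h2 a)⟩

lemma CovOn.liftV (h : CovOn Γ p O) {f : V → X} (hf : Continuous f) (hm : ∀ a, f a ∈ p '' O) :
    ∃ δ : V → E, Continuous δ ∧ (∀ a, δ a ∈ O) ∧ f = p ∘ δ := by
  obtain ⟨e, he, h0⟩ := hm 0
  obtain ⟨δ, a, b, -, c⟩ := h.liftG hf hm he h0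
  exact ⟨δ, a, b, funext fun x => (c x).symm⟩

/-- Two lifts of a path differ by a deck transformation. -/
lemma CovOn.uniq (h : CovOn Γ p O) {γ γ' : ℝ → E} (c : ContinuousOn γ (Icc 0 1))
    (m : MapsTo γ (Icc 0 1) O) (c' : ContinuousOn γ' (Icc 0 1)) (m' : MapsTo γ' (Icc 0 1) O)
    (he : ∀ t ∈ Icc (0 : ℝ) 1, p (γ t) = p (γ' t)) : ∃ g : Γ, g • γ 0 = γ' 0 ∧ g • γ 1 = γ' 1 := by
  have z : (0 : ℝ) ∈ Icc (0 : ℝ) 1 := ⟨le_rfl, zero_le_one⟩
  obtain ⟨g, hg⟩ := h.trans _ (m z) _ (m' z) (he 0 z)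
  have := h.cov.eq_of_comp_eq (A := ℝ)
    (g₁ := fun t => ⟨g • γ (covC t), h.inv g _ (m (covC_mem t))⟩)
    (g₂ := fun t => ⟨γ' (covC t), m' (covC_mem t)⟩)
    (((h.cont g).comp (covC_cont c)).subtype_mk _) ((covC_cont c').subtype_mk _)
    (funext fun t => Subtype.ext ((h.smul g _ (m (covC_mem t))).trans (he _ (covC_mem t)))) 0
    (Subtype.ext (by simpa [covC_zero] using hg))
  exact ⟨g, hg, by simpa [covC_one] using congrArg Subtype.val (congrFun this 1)⟩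

/-- Path lifting. -/
theorem CovOn.lift (h : CovOn Γ p O) {γ : ℝ → X} (hγ : ContinuousOn γ (Icc 0 1))
    (hm : MapsTo γ (Icc 0 1) (p '' O)) {e : E} (he : e ∈ O) (h0 : p e = γ 0) :
    ∃ δ : ℝ → E, Continuous δ ∧ (∀ t, δ t ∈ O) ∧ δ 0 = e ∧ ∀ t ∈ Icc (0 : ℝ) 1, p (δ t) = γ t := by
  obtain ⟨δ, a, b, c, d⟩ := h.liftG (covC_cont hγ) (fun t => hm (covC_mem t)) (a := 0) he
    (by rw [Function.comp_apply, covC_zero, h0])
  exact ⟨δ, a, b, c, fun t ht => by rw [d, Function.comp_apply, covC_eq ht]⟩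

/-- The cochain that measures the change of a function along lifts. -/
lemma CovOn.disp (h : CovOn Γ p O) {u : E → F}
    (hu : ∀ (g : Γ), ∀ x ∈ O, ∀ y ∈ O, u (g • y) - u (g • x) = u y - u x) :
    ∃ φ : C F X →ₗ[F] F, ∀ γ : ℝ → E, ContinuousOn γ (Icc 0 1) → MapsTo γ (Icc 0 1) O →
      φ (edge F (p ∘ γ)) = u (γ 1) - u (γ 0) := by
  classical
  refine ⟨lc fun s => if h : ∃ γ : ℝ → E, ContinuousOn γ (Icc 0 1) ∧ MapsTo γ (Icc 0 1) O ∧
    Finsupp.single s 1 = edge F (p ∘ γ) then u (h.choose 1) - u (h.choose 0) else 0,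
    fun γ c m => ?_⟩
  have e : ∀ ℓ : ℝ → X, edge F ℓ = Finsupp.single (Shared.Sing.mk 2 (ℓ ∘ aff [0, 1])) 1 := fun ℓ => by
    rw [edge, real_single]
    rfl
  have hγ : ∃ δ : ℝ → E, ContinuousOn δ (Icc 0 1) ∧ MapsTo δ (Icc 0 1) O ∧
      Finsupp.single (Shared.Sing.mk 2 ((p ∘ γ) ∘ aff [0, 1])) 1 = edge F (p ∘ δ) := ⟨γ, c, m, (e _).symm⟩
  rw [e, Finsupp.linearCombination_single, one_smul, dif_pos hγ]
  obtain ⟨c', m', e'⟩ := hγ.choose_spec
  generalize hγ.choose = δ at c' m' e'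
  rw [e, Finsupp.single_left_inj one_ne_zero] at e'
  have k : ∀ {δ : ℝ → E}, ContinuousOn δ (Icc 0 1) → MapsTo δ (Icc 0 1) O →
      EqOn (Shared.Sing.mk 2 ((p ∘ δ) ∘ aff [0, 1])).f ((p ∘ δ) ∘ aff [0, 1]) (Δ 2) := fun c m =>
    mk_f (cont_aff (l := [0, 1]) (convex_Icc 0 1) (h.lo.continuousOn.comp c m) (by simp))
  obtain ⟨g, g0, g1⟩ := h.uniq c m c' m' fun t ht => by
    have ht' : Pi.single 0 (1 - t) + Pi.single 1 t ∈ Δ 2 := by
      have := convex_Δ 2 (single_mem_Δ (i := 0) (by omega)) (single_mem_Δ (i := 1) (by omega))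
        (sub_nonneg.2 ht.2) ht.1 (by ring)
      rwa [← Pi.single_smul', ← Pi.single_smul', smul_eq_mul, smul_eq_mul, mul_one, mul_one] at this
    have := (k c m ht').symm.trans ((congrFun (congrArg Sx.f e') _).trans (k c' m' ht'))
    simpa [aff_apply, Finset.sum_range_succ] using this
  rw [← g0, ← g1]
  exact hu g _ (m ⟨le_rfl, zero_le_one⟩) _ (m ⟨zero_le_one, le_rfl⟩)

lemma cov_seg {G : V → E} (hG : Continuous G) (v w : V) :
    ContinuousOn (fun t : ℝ => G ((1 - t) • v + t • w)) (Icc 0 1) := by fun_prop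

/-- The cocycle of a character of the deck group. -/
theorem CovOn.coc (h : CovOn Γ p O) (χ : Γ →* Multiplicative F) : ∃ φ : C F X →ₗ[F] F,
    Coc (p '' O) 1 φ ∧ ∀ g ℓ, LoopCls p O g ℓ → φ (edge F ℓ) = (χ g).toAdd := by
  have : ∀ x : X, ∃ e, x ∈ p '' O → e ∈ O ∧ p e = x := fun x => by
    by_cases hx : x ∈ p '' O
    · exact hx.imp fun _ h _ => h
    · exact ⟨Classical.arbitrary E, fun h => (hx h).elim⟩
  choose s hs using this
  have : ∀ e : E, ∃ g : Γ, e ∈ O → g • s (p e) = e := fun e => by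
    by_cases he : e ∈ O
    · have := hs _ (mem_image_of_mem p he)
      exact (h.trans _ this.1 _ he this.2).imp fun _ h _ => h
    · exact ⟨1, fun h => (he h).elim⟩
  choose k hk using this
  have hm : ∀ (g : Γ), ∀ x ∈ O, k (g • x) = g * k x := fun g x hx => by
    have h1 := hk _ (h.inv g x hx)
    rw [h.smul g x hx] at h1
    have := h.free ((g * k x)⁻¹ * k (g • x)) _ (hs _ (mem_image_of_mem p hx)).1
      (by rw [mul_smul, h1, inv_smul_eq_iff, mul_smul, hk x hx])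
    exact (inv_mul_eq_one.1 this).symm
  obtain ⟨φ, hφ⟩ := h.disp (u := fun e => (χ (k e)).toAdd) fun g x hx y hy => by
    simp only [hm g x hx, hm g y hy, map_mul, toAdd_mul]
    ring
  refine ⟨φ, fun c hc => eq_In (f := φ ∘ₗ D) (g := 0) (fun G hG hA l hl => ?_) hc, ?_⟩
  · obtain ⟨u, v, w, rfl⟩ := List.length_eq_three.1 hl
    obtain ⟨δ, a, b, rfl⟩ := h.liftV hG hA
    have e : ∀ v w : V, φ (real (p ∘ δ) (Finsupp.single [v, w] 1)) =
        (χ (k (δ w))).toAdd - (χ (k (δ v))).toAdd := fun v w => by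
      simpa [real_eq_edge, -real_single, Function.comp_def] using
        hφ _ (cov_seg a v w) fun t _ => b _
    simp [D_glob hG, bdL, e, -real_single]
  · rintro g ℓ ⟨γ, c, m, e, l⟩
    rw [edge_eq (ℓ' := p ∘ γ) l, hφ γ c m, e, hm g _ (m ⟨le_rfl, zero_le_one⟩), map_mul, toAdd_mul]
    ring

/-- Cocycles come from characters when the cover has no first homology. -/
theorem CovOn.char (h : CovOn Γ p O) (hO : IsPathConnected O) (h1 : Z F O ∅ 1 ≤ B F O ∅ 1)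
    {φ : C F X →ₗ[F] F} (hφ : Coc (p '' O) 1 φ) : ∃ χ : Γ →* Multiplicative F,
      (∀ g ℓ, LoopCls p O g ℓ → φ (edge F ℓ) = (χ g).toAdd) ∧
        (χ = 1 → ∀ c ∈ Z F (p '' O) ∅ 1, φ c = 0) := by
  have hc := hφ.comp_map h.lo.continuousOn (mapsTo_image p O)
  obtain ⟨θ, hθ⟩ := dies_of_kills fun c hz => hc.apply_B (h1 hz)
  obtain ⟨u, hu⟩ : ∃ u : E → F, ∀ γ : ℝ → E, ContinuousOn γ (Icc 0 1) → MapsTo γ (Icc 0 1) O →
      φ (edge F (p ∘ γ)) = u (γ 1) - u (γ 0) := ⟨fun e => θ (pt F e), fun γ c m => by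
    rw [← map_edge c, ← map_sub, ← D_edge' c]
    exact hθ _ (edge_In c m)⟩
  have hg : ∀ (g : Γ), ∀ x ∈ O, ∀ y ∈ O, u (g • y) - u y = u (g • x) - u x := fun g x hx y hy => by
    obtain ⟨γ, hγ⟩ := hO.joinedIn x hx y hy
    have m : MapsTo γ.extend (Icc 0 1) O := fun t _ => hγ _
    have a := hu _ γ.continuous_extend.continuousOn m
    have b := hu (fun t => g • γ.extend t) ((h.cont g).comp γ.continuous_extend).continuousOn
      fun t ht => h.inv g _ (m ht)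
    rw [edge_eq (ℓ := p ∘ fun t => g • γ.extend t) (ℓ' := p ∘ γ.extend)
      fun t ht => h.smul g _ (m ht), a] at b
    simp only [Path.extend_zero, Path.extend_one] at b
    linear_combination -b
  obtain ⟨e, he⟩ := hO.nonempty
  refine ⟨MonoidHom.mk' (fun g => Multiplicative.ofAdd (u (g • e) - u e)) fun a b => ?_, ?_, ?_⟩
  · rw [← ofAdd_add, hg a _ (h.inv b e he) e he, mul_smul]
    congr 1
    ring
  · rintro g ℓ ⟨γ, c, m, k, l⟩
    rw [edge_eq (ℓ' := p ∘ γ) l, hu γ c m, k]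
    exact hg g e he _ (m ⟨le_rfl, zero_le_one⟩)
  · intro h0 c hz
    have h2 : ∀ (g : Γ), ∀ x ∈ O, u (g • x) = u x := fun g x hx => sub_eq_zero.1
      ((hg g e he x hx).trans (congrArg Multiplicative.toAdd (DFunLike.congr_fun h0 g)))
    have : ∀ x : X, ∃ r : F, ∀ y ∈ O, p y = x → u y = r := fun x => by
      by_cases hx : x ∈ p '' O
      · obtain ⟨z, hz, rfl⟩ := hx
        refine ⟨u z, fun y hy k => ?_⟩
        obtain ⟨g, rfl⟩ := h.trans z hz y hy k.symm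
        exact h2 g z hz
      · exact ⟨0, fun y hy k => (hx ⟨y, hy, k⟩).elim⟩
    choose w hw using this
    have := eq_edge (f := φ) (g := pv w ∘ₗ D) (fun G hG hA v v' => by
      obtain ⟨δ, a, b, rfl⟩ := h.liftV hG hA
      rw [LinearMap.comp_apply, D_edge hG, map_sub, pv_pt, pv_pt, Function.comp_apply,
        Function.comp_apply, ← hw _ _ (b v) rfl, ← hw _ _ (b v') rfl]
      simpa [real_eq_edge, -real_single, Function.comp_def] using
        hu _ (cov_seg a v v') fun t _ => b _) hz.1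
    rw [this, LinearMap.comp_apply, Z_D_eq hz, map_zero]

theorem CovOn.span (h : CovOn Γ p O) (hO : IsPathConnected O) (h1 : Z F O ∅ 1 ≤ B F O ∅ 1)
    {κ : Type} (g : κ → Γ) (ℓ : κ → ℝ → X) (hl : ∀ i, LoopCls p O (g i) (ℓ i))
    (hg : ∀ χ : Γ →* Multiplicative F, (∀ i, χ (g i) = 1) → χ = 1) :
    Spn F (p '' O) 1 (range fun i => edge F (ℓ i)) := by
  refine ⟨forall_mem_range.2 fun i => (hl i).edge_Z h, fun c hc => by_contra fun hn => ?_⟩
  obtain ⟨φ, a, b⟩ := Submodule.exists_le_ker_of_notMem hn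
  obtain ⟨χ, k, k'⟩ := h.char hO h1 (φ := φ) fun w hw => b (Submodule.mem_sup_right (D_mem_B hw))
  refine a (k' (hg χ fun i => ?_) c hc)
  exact toAdd_eq_zero.1 ((k _ _ (hl i)).symm.trans
    (b (Submodule.mem_sup_left (Submodule.subset_span ⟨i, rfl⟩))))

/-- A linear relation between the classes gives a homology between the loops. -/
theorem CovOn.rel (h : CovOn Γ p O) (hO : IsPathConnected O) (h1 : Z F O ∅ 1 ≤ B F O ∅ 1)
    {κ : Type} [Fintype κ] (a : κ → F) (g : κ → Γ) (ℓ : κ → ℝ → X)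
    (hl : ∀ i, LoopCls p O (g i) (ℓ i))
    (hg : ∀ χ : Γ →* Multiplicative F, ∑ i, a i * (χ (g i)).toAdd = 0) :
    ∑ i, a i • edge F (ℓ i) ∈ B F (p '' O) ∅ 1 := by
  by_contra hn
  obtain ⟨φ, c, -, e⟩ := exists_coc hn
  obtain ⟨χ, k, -⟩ := h.char hO h1 c
  simp only [map_sum, map_smul, k _ _ (hl _), smul_eq_mul, hg χ] at e
  exact zero_ne_one e

end Pool.Agent.Lib.MP_45bb13_gt
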