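import Mathlib

/-! Definitions for the explicit four-manifolds with cyclic symmetry. -/

set_option linter.unusedSectionVars false

namespace Pool.Agent.Lib.MP_45bb13_gt

open Set Filter Topology Complex
open scoped ComplexConjugate

abbrev CC : Type := ℂ × ℂ

/-- `exp (2 π i c)`. -/
noncomputable def ee (c : ℝ) : ℂ := exp (2 * Real.pi * c * I)

/-- The argument in units of full turns. -/
noncomputable def ang (x : ℂ) : ℝ := arg x / (2 * Real.pi)

/-- Polar coordinates. -/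
noncomputable def pol (q : ℝ × ℝ) : ℂ := q.1 * ee q.2

/-- The sign of a boolean. -/
def sgb (σ : Bool) : ℝ := if σ then 1 else -1

/-- The sign `(-1) ^ n`. -/
def sgn (n : ℤ) : ℤ := if Even n then 1 else -1

/-- Complex conjugation applied `n` times. -/
noncomputable def cj (n : ℤ) (y : ℂ) : ℂ := if Even n then y else conj y

section local_maps

variable {E Y : Type*} [TopologicalSpace E] [TopologicalSpace Y]

/-- `p` is continuous and open at every point of the open set `O`. -/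
def LO (p : E → Y) (O : Set E) : Prop := IsOpen O ∧ ∀ x ∈ O, Filter.map p (𝓝 x) = 𝓝 (p x)

/-- `p` is an open embedding near `x`. -/
def Lemb (p : E → Y) (x : E) : Prop := ∃ O, x ∈ O ∧ LO p O ∧ InjOn p O

/-- `p` restricted to `O` is the quotient map of a free, wandering action. -/
structure CovOn (Γ : Type) [Group Γ] [MulAction Γ E] (p : E → Y) (O : Set E) : Prop where
  lo : LO p O
  le : ∀ x ∈ O, Lemb p x
  cont : ∀ g : Γ, Continuous fun x : E => g • x
  inv : ∀ (g : Γ), ∀ x ∈ O, g • x ∈ O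
  smul : ∀ (g : Γ), ∀ x ∈ O, p (g • x) = p x
  trans : ∀ x ∈ O, ∀ y ∈ O, p x = p y → ∃ g : Γ, g • x = y
  free : ∀ (g : Γ), ∀ x ∈ O, g • x = x → g = 1

/-- The loop `ℓ` lifts to a path in `O` from a point to its translate by `g`. -/
def LoopCls {Γ : Type} [Group Γ] [MulAction Γ E] (p : E → Y) (O : Set E) (g : Γ) (ℓ : ℝ → Y) :
    Prop :=
  ∃ γ : ℝ → E, ContinuousOn γ (Icc 0 1) ∧ MapsTo γ (Icc 0 1) O ∧ γ 1 = g • γ 0 ∧
    ∀ t ∈ Icc (0 : ℝ) 1, ℓ t = p (γ t)

end local_maps

/-- A family of parametrisations of a set. -/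
structure PS (A X : Type) where
  dom : A → Set CC
  map : A → CC → X

/-- The topology generated by a family of parametrisations. -/
@[reducible] def PS.top {A X : Type} (P : PS A X) : TopologicalSpace X where
  IsOpen U := ∀ a, ∀ x ∈ P.dom a, P.map a x ∈ U → P.map a ⁻¹' U ∈ 𝓝 x
  isOpen_univ _ _ _ _ := univ_mem
  isOpen_inter _ _ h h' a x hx hm := inter_mem (h a x hx hm.1) (h' a x hx hm.2)
  isOpen_sUnion _ h a x hx := fun ⟨U, hU, hm⟩ =>
    mem_of_superset (h U hU a x hx hm) fun _ hy => ⟨U, hU, hy⟩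

/-- Near `x`, the map `f` factors through `g` by a `C^n` change of coordinates sending `x` to `y`. -/
def Comp (n : WithTop ℕ∞) {X : Type} (f : CC → X) (x : CC) (g : CC → X) (y : CC) : Prop :=
  ∃ θ : CC → CC, ContDiffAt ℝ n θ x ∧ θ x = y ∧ ∀ᶠ z in 𝓝 x, g (θ z) = f z

/-- The parametrisations form a `C^n` atlas of the space. -/
structure PS.Good {A X : Type} [TopologicalSpace X] (P : PS A X) (n : WithTop ℕ∞) : Prop where
  top : ∀ U, IsOpen U ↔ ∀ a, ∀ x ∈ P.dom a, P.map a x ∈ U → P.map a ⁻¹' U ∈ 𝓝 x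
  opn : ∀ a, IsOpen (P.dom a)
  cov : ∀ x, ∃ a, ∃ z ∈ P.dom a, P.map a z = x
  inj : ∀ a, ∀ z ∈ P.dom a, ∃ V ∈ 𝓝 z, InjOn (P.map a) V
  comp : ∀ a b, ∀ x ∈ P.dom a, ∀ y ∈ P.dom b, P.map a x = P.map b y →
    Comp n (P.map a) x (P.map b) y

/-- The semidirect product of an abelian group with `ℤ` acting by sign. -/
@[ext] structure SD (M : Type) where
  a : M
  n : ℤ

lemma sgn_add (m n : ℤ) : sgn (m + n) = sgn m * sgn n := by
  unfold sgn; by_cases h : Even m <;> by_cases h' : Even n <;> simp [h, h', Int.even_add]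

lemma sgn_zero : sgn 0 = 1 := by simp [sgn]

lemma sgn_neg (n : ℤ) : sgn (-n) = sgn n := by simp [sgn]

lemma sgn_sq (n : ℤ) : sgn n * sgn n = 1 := by unfold sgn; split_ifs <;> simp

lemma cj_add (m n : ℤ) (y : ℂ) : cj (m + n) y = cj m (cj n y) := by
  unfold cj; by_cases h : Even m <;> by_cases h' : Even n <;> simp [h, h', Int.even_add]

lemma cj_zero (y : ℂ) : cj 0 y = y := by simp [cj]

lemma cj_neg (n : ℤ) (y : ℂ) : cj n (-y) = -cj n y := by unfold cj; split_ifs <;> simp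

instance {M : Type} [AddCommGroup M] : Group (SD M) where
  mul x y := ⟨x.a + sgn x.n • y.a, x.n + y.n⟩
  one := ⟨0, 0⟩
  inv x := ⟨-(sgn x.n • x.a), -x.n⟩
  mul_assoc x y z := SD.ext
    (show x.a + sgn x.n • y.a + sgn (x.n + y.n) • z.a = x.a + sgn x.n • (y.a + sgn y.n • z.a) by
      rw [sgn_add, mul_smul, smul_add, add_assoc]) (add_assoc _ _ _)
  one_mul x := SD.ext (show 0 + sgn 0 • x.a = x.a by simp [sgn_zero]) (zero_add _)
  mul_one x := SD.ext (show x.a + sgn x.n • (0 : M) = x.a by simp) (add_zero _)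
  inv_mul_cancel x := SD.ext
    (show -(sgn x.n • x.a) + sgn (-x.n) • x.a = 0 by rw [sgn_neg, neg_add_cancel]) (neg_add_cancel _)

lemma SD.mul_def {M : Type} [AddCommGroup M] (x y : SD M) :
    x * y = ⟨x.a + sgn x.n • y.a, x.n + y.n⟩ := rfl

lemma SD.one_def {M : Type} [AddCommGroup M] : (1 : SD M) = ⟨0, 0⟩ := rfl

/-- The deck action on `(y, z + i t)`. -/
noncomputable instance actT : MulAction (SD ℤ) CC where
  smul g p := (cj g.n p.1, ⟨g.a + sgn g.n * p.2.re, p.2.im + g.n⟩)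
  one_smul p := Prod.ext (cj_zero _) (Complex.ext
    (show ((0 : ℤ) : ℝ) + sgn 0 * p.2.re = p.2.re by simp [sgn_zero])
    (show p.2.im + ((0 : ℤ) : ℝ) = p.2.im by simp))
  mul_smul g h p := Prod.ext (cj_add _ _ _) (Complex.ext
    (show ((g.a + sgn g.n • h.a : ℤ) : ℝ) + sgn (g.n + h.n) * p.2.re =
      g.a + sgn g.n * (h.a + sgn h.n * p.2.re) by rw [sgn_add, smul_eq_mul]; push_cast; ring)
    (show p.2.im + ((g.n + h.n : ℤ) : ℝ) = p.2.im + h.n + g.n by push_cast; ring))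

lemma actT_def (g : SD ℤ) (p : CC) :
    g • p = (cj g.n p.1, ⟨g.a + sgn g.n * p.2.re, p.2.im + g.n⟩) := rfl

/-- The deck action on `(u, r, t)`. -/
noncomputable instance actW : MulAction (SD (ℤ × ℤ)) (ℂ × ℝ × ℝ) where
  smul g q := (⟨g.a.1 + sgn g.n * q.1.re, g.a.2 + sgn g.n * q.1.im⟩, q.2.1, q.2.2 + g.n)
  one_smul q := Prod.ext (Complex.ext
    (show ((0 : ℤ) : ℝ) + sgn 0 * q.1.re = q.1.re by simp [sgn_zero])
    (show ((0 : ℤ) : ℝ) + sgn 0 * q.1.im = q.1.im by simp [sgn_zero])) (Prod.ext rfl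
    (show q.2.2 + ((0 : ℤ) : ℝ) = q.2.2 by simp))
  mul_smul g h q := Prod.ext (Complex.ext
    (show ((g.a.1 + sgn g.n • h.a.1 : ℤ) : ℝ) + sgn (g.n + h.n) * q.1.re =
      g.a.1 + sgn g.n * (h.a.1 + sgn h.n * q.1.re) by rw [sgn_add, smul_eq_mul]; push_cast; ring)
    (show ((g.a.2 + sgn g.n • h.a.2 : ℤ) : ℝ) + sgn (g.n + h.n) * q.1.im =
      g.a.2 + sgn g.n * (h.a.2 + sgn h.n * q.1.im) by rw [sgn_add, smul_eq_mul]; push_cast; ring))
    (Prod.ext rfl (show q.2.2 + ((g.n + h.n : ℤ) : ℝ) = q.2.2 + h.n + g.n by push_cast; ring))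

lemma actW_def (g : SD (ℤ × ℤ)) (q : ℂ × ℝ × ℝ) :
    g • q = (⟨g.a.1 + sgn g.n * q.1.re, g.a.2 + sgn g.n * q.1.im⟩, q.2.1, q.2.2 + g.n) := rfl

/-- The sign attached to a residue modulo two. -/
def sg2 (ε : ZMod 2) : ℂ := if ε = 0 then 1 else -1

lemma sg2_add (n : ℤ) (ε ε' : ZMod 2) : sg2 (ε + sgn n • ε') = sg2 ε * sg2 ε' := by
  have h : sgn n • ε' = ε' := by
    unfold sgn
    split_ifs
    · simp
    · simp only [neg_smul, one_smul]; exact ZMod.neg_eq_self_mod_two _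
  have h0 : ∀ x : ZMod 2, x = 0 ∨ x = 1 := by decide
  have h1 : (1 : ZMod 2) + 1 = 0 := by decide
  rw [h]
  rcases h0 ε with rfl | rfl <;> rcases h0 ε' with rfl | rfl <;> simp [sg2, h1]

lemma cj_sg2 (n : ℤ) (ε : ZMod 2) (y : ℂ) : cj n (sg2 ε * y) = sg2 ε * cj n y := by
  unfold cj sg2; split_ifs <;> simp

/-- The deck action on `(η, z + i t)` for the double cover `η ^ 2 = y - b t`. -/
noncomputable instance actQ : MulAction (SD (ℤ × ZMod 2)) CC where
  smul g p := (sg2 g.a.2 * cj g.n p.1, ⟨g.a.1 + sgn g.n * p.2.re, p.2.im + g.n⟩)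
  one_smul p := Prod.ext (show sg2 0 * cj 0 p.1 = p.1 by simp [sg2, cj_zero]) (Complex.ext
    (show ((0 : ℤ) : ℝ) + sgn 0 * p.2.re = p.2.re by simp [sgn_zero])
    (show p.2.im + ((0 : ℤ) : ℝ) = p.2.im by simp))
  mul_smul g h p := Prod.ext
    (show sg2 (g.a.2 + sgn g.n • h.a.2) * cj (g.n + h.n) p.1 =
      sg2 g.a.2 * cj g.n (sg2 h.a.2 * cj h.n p.1) by rw [sg2_add, cj_add, cj_sg2, mul_assoc])
    (Complex.ext
    (show ((g.a.1 + sgn g.n • h.a.1 : ℤ) : ℝ) + sgn (g.n + h.n) * p.2.re =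
      g.a.1 + sgn g.n * (h.a.1 + sgn h.n * p.2.re) by rw [sgn_add, smul_eq_mul]; push_cast; ring)
    (show p.2.im + ((g.n + h.n : ℤ) : ℝ) = p.2.im + h.n + g.n by push_cast; ring))

lemma actQ_def (g : SD (ℤ × ZMod 2)) (p : CC) :
    g • p = (sg2 g.a.2 * cj g.n p.1, ⟨g.a.1 + sgn g.n * p.2.re, p.2.im + g.n⟩) := rfl

/-! ### The cap -/

/-- The relation `(u, w) ~ (± u + a + b i, ± w)`. -/
def KR (p q : CC) : Prop :=
  ∃ ε a b : ℤ, (ε = 1 ∨ ε = -1) ∧ q.1 = ε * p.1 + (a + b * I) ∧ q.2 = ε * p.2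

lemma KR.refl (p : CC) : KR p p := ⟨1, 0, 0, .inl rfl, by simp, by simp⟩

lemma KR.symm {p q : CC} (h : KR p q) : KR q p := by
  obtain ⟨ε, a, b, h0, h1, h2⟩ := h
  refine ⟨ε, -(ε * a), -(ε * b), h0, ?_, ?_⟩ <;> rcases h0 with rfl | rfl <;> simp [h1, h2] <;> ring

lemma KR.trans {p q r : CC} (h : KR p q) (h' : KR q r) : KR p r := by
  obtain ⟨ε, a, b, h0, h1, h2⟩ := h
  obtain ⟨ε', a', b', h0', h1', h2'⟩ := h'
  refine ⟨ε' * ε, ε' * a + a', ε' * b + b', ?_, ?_, ?_⟩
  · rcases h0 with rfl | rfl <;> rcases h0' with rfl | rfl <;> simp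
  · rw [h1', h1]; push_cast; ring
  · rw [h2', h2]; push_cast; ring

/-- The points `(u, w)` other than the fixed points and the surgered circles. -/
def domK : Set CC :=
  {p | p.2 ≠ 0 ∨ ((∀ a b : ℤ, 2 * p.1 ≠ a + b * I) ∧ ∀ b : ℤ, 4 * p.1.im ≠ 2 * b + 1)}

def kS : Setoid domK := ⟨fun p q => KR p.1 q.1, fun p => .refl p.1, .symm, .trans⟩

/-- The unit sphere of `ℝ × ℂ`. -/
abbrev S2 : Type := {s : ℝ × ℂ // s.1 ^ 2 + normSq s.2 = 1}

/-- The points of the cap. -/
inductive N : Type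
  | o (q : Quotient kS)
  | e (k : Bool × Bool) (l : Option ℂ)
  | s (v : S2)

instance : Nonempty N := ⟨.e (false, false) none⟩

open Classical in
/-- The point `[u, w]`. -/
noncomputable def kap (p : CC) : N :=
  if h : p ∈ domK then .o (Quotient.mk kS ⟨p, h⟩) else .e (false, false) none

/-- The four fixed points. -/
noncomputable def u0 (k : Bool × Bool) : ℂ := ⟨if k.1 then 1 / 2 else 0, if k.2 then 1 / 2 else 0⟩

/-- A square root. -/
noncomputable def rt (ω : ℂ) : ℂ := ω ^ (2⁻¹ : ℂ)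

open Classical in
/-- The chart `((u - u₀) / w, w ^ 2)`. -/
noncomputable def lam (k : Bool × Bool) (p : CC) : N :=
  if p.2 = 0 then .e k (some p.1) else kap (u0 k + p.1 * rt p.2, rt p.2)

open Classical in
/-- The chart `(w / (u - u₀), (u - u₀) ^ 2)`. -/
noncomputable def mu (k : Bool × Bool) (p : CC) : N :=
  if p.2 = 0 then .e k (if p.1 = 0 then none else some p.1⁻¹)
  else kap (u0 k + rt p.2, p.1 * rt p.2)

open Classical in
/-- The surgered piece. -/
noncomputable def Sg (q : ℂ × S2) : N :=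
  if q.1 = 0 then .s q.2 else kap (⟨ang q.1, 1 / 4 + ‖q.1‖ * q.2.1.1⟩, conj q.1 * q.2.1.2)

/-- Stereographic coordinates. -/
noncomputable def st (σ : Bool) (b : ℂ) : S2 :=
  ⟨(sgb σ * ((1 - normSq b) / (1 + normSq b)), ((2 / (1 + normSq b) : ℝ) : ℂ) * b), by
    have h : 1 + normSq b ≠ 0 := by have := normSq_nonneg b; positivity
    have h' : sgb σ ^ 2 = 1 := by unfold sgb; split_ifs <;> norm_num
    simp only [mul_pow, h', map_mul, normSq_ofReal]
    field_simp
    ring⟩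

/-- Gnomonic coordinates. -/
noncomputable def gn (σ : Bool) (m : ℂ) : S2 :=
  ⟨(sgb σ / √(1 + normSq m), ((1 / √(1 + normSq m) : ℝ) : ℂ) * m), by
    have h : 0 < 1 + normSq m := by have := normSq_nonneg m; positivity
    have h' : sgb σ ^ 2 = 1 := by unfold sgb; split_ifs <;> norm_num
    have h2 := Real.sq_sqrt h.le
    have h3 := (Real.sqrt_pos.2 h).ne'
    simp only [div_pow, h', map_mul, normSq_ofReal]
    field_simp
    rw [h2]⟩

/-- The hemisphere chart of the surgered piece. -/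
noncomputable def hs (σ : Bool) (p : CC) : N := Sg (((√(1 + normSq p.2) : ℝ) : ℂ) * p.1, gn σ p.2)

/-- `q = u ^ 2` with `|re u| < 1 / 2` and `|im u| < 1 / 4`. -/
def box (q : ℂ) : Prop := ‖q‖ + q.re < 1 / 2 ∧ ‖q‖ - q.re < 1 / 8

def domL : Set CC := {p | box (p.1 ^ 2 * p.2)}

def domM : Set CC := {p | box p.2}

def domS : Set (ℂ × S2) := {q | ‖q.1‖ * |q.2.1.1| < 1 / 4}

/-- The index set of the atlas of the cap. -/
inductive NA : Type
  | k
  | l (k : Bool × Bool)
  | m (k : Bool × Bool)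
  | s (σ : Bool)

/-- The atlas of the cap. -/
noncomputable def NP : PS NA N where
  dom
    | .k => domK
    | .l _ => domL
    | .m _ => domM
    | .s σ => {p | (p.1, st σ p.2) ∈ domS}
  map
    | .k => kap
    | .l k => lam k
    | .m k => mu k
    | .s σ => fun p => Sg (p.1, st σ p.2)

noncomputable instance : TopologicalSpace N := NP.top

/-- A representative. -/
noncomputable def rep : N → CC
  | .o q => q.out.1
  | _ => 0

/-- The absolute value of `w`. -/
noncomputable def wabs (n : N) : ℝ := ‖(rep n).2‖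

/-- The function `cos (2 π z)`. -/
noncomputable def czf : N → ℝ
  | .o q => Real.cos (2 * Real.pi * q.out.1.1.im)
  | .e k _ => -sgb k.2
  | .s _ => 0

def Nr (r : ℝ) : Set N := {n | wabs n < r}

def Wr (r : ℝ) : Set N := {n | 0 < wabs n ∧ wabs n < r}

/-- The neighbourhood of an exceptional sphere. -/
def Vk (k : Bool × Bool) : Set N := lam k '' domL ∪ mu k '' domM

/-- An exceptional sphere. -/
def Ek (k : Bool × Bool) : Set N := range (N.e k)

/-- The surgered piece. -/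
def Ms : Set N := Sg '' domS

/-- Polar coordinates in `w`. -/
noncomputable def pw (q : ℂ × ℝ × ℝ) : CC := (q.1, q.2.1 * ee (q.2.2 / 2))

def OW (r : ℝ) : Set (ℂ × ℝ × ℝ) := {q | 0 < q.2.1 ∧ q.2.1 < r}

lemma normSq_ee (c : ℝ) : normSq (ee c) = 1 := by
  rw [normSq_eq_norm_sq, ee, show 2 * Real.pi * c * I = ((2 * Real.pi * c : ℝ) : ℂ) * I by
    push_cast; ring, norm_exp_ofReal_mul_I, one_pow]

/-- Rotation of the sphere about its axis. -/
noncomputable def rS (θ : ℝ) (s : S2) : S2 :=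
  ⟨(s.1.1, ee θ * s.1.2), by rw [map_mul, normSq_ee, one_mul]; exact s.2⟩

/-- The circle action on the cap. -/
noncomputable def rot (θ : ℝ) : N → N
  | .o q => kap (q.out.1.1, ee θ * q.out.1.2)
  | .e k l => .e k (l.map (ee (-θ) * ·))
  | .s v => .s (rS θ v)

/-- The reflection `z ↦ 1 / 2 - z` (away from the exceptional spheres). -/
noncomputable def rfN : N → N
  | .o q => kap (conj q.out.1.1 + I / 2, q.out.1.2)
  | .e k l => .e k l
  | .s v => .s ⟨(-v.1.1, v.1.2), by rw [neg_sq]; exact v.2⟩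

open Classical in
/-- The disc in the cap that fills the circles `[c + i z, s τ]`, `s ≥ r`, through a pole of the
belt sphere. -/
noncomputable def cd (r z : ℝ) (τ x : ℂ) : N :=
  if x = 0 then .s (gn (decide (1 / 4 < z)) 0)
  else kap (⟨ang x, 1 / 4 + (z - 1 / 4) * min (‖x‖ / r) 1⟩, ((‖x‖ * min (‖x‖ / r) 1 : ℝ) : ℂ) * τ)

/-! ### The closed manifolds -/

/-- Equivariant braids. -/
structure Br (ι : Type) where
  b : ι → ℝ → ℂ
  cont : ∀ i, Continuous (b i)
  eqv : ∀ i t, b i (t + 1) = conj (b i t)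
  inj : ∀ t i j, b i t = b j t → i = j

namespace Br

variable {ι : Type} (B : Br ι)

def IsEps (ε : ℝ) : Prop := 0 < ε ∧ ε ≤ 1 / 2 ∧
  (∀ t i j, i ≠ j → 2 * ε < ‖B.b i t - B.b j t‖) ∧ ∀ i t, ‖B.b i t‖ + ε < ε⁻¹

noncomputable def eps : ℝ := Classical.epsilon B.IsEps

def domT : Set CC := {p | ∀ i, p.1 ≠ B.b i p.2.im}

def tS : Setoid B.domT := ⟨fun p q => ∃ g : SD ℤ, g • p.1 = q.1, fun _ => ⟨1, one_smul _ _⟩,
  fun ⟨g, h⟩ => ⟨g⁻¹, by rw [← h, inv_smul_smul]⟩,
  fun ⟨g, h⟩ ⟨g', h'⟩ => ⟨g' * g, by rw [mul_smul, h, h']⟩⟩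

/-- The points of the closed manifold. -/
def X : Type := Quotient B.tS ⊕ (Option ι × {n : N // wabs n = 0})

/-- A base point. -/
def x0 : B.X := .inr (none, ⟨.e (false, false) none, by simp [wabs, rep]⟩)

instance : Nonempty B.X := ⟨B.x0⟩

open Classical in
/-- The point `[y, z + i t]`. -/
noncomputable def prT (p : CC) : B.X :=
  if h : p ∈ B.domT then .inl (Quotient.mk B.tS ⟨p, h⟩) else B.x0

/-- Polar coordinates about a strand. -/
noncomputable def loc : Option ι → ℝ → ℝ → ℝ → ℂ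
  | some i, t, r, c => B.b i t + r * ee c
  | none, _, r, c => ee (-c) / r

noncomputable def pos (k : Option ι) (p : CC) : CC :=
  (B.loc k (2 * ang p.2) ‖p.2‖ p.1.re, ⟨p.1.im, 2 * ang p.2⟩)

open Classical in
/-- The inclusion of a cap. -/
noncomputable def jj (k : Option ι) (n : N) : B.X :=
  if h : wabs n = 0 then .inr (k, ⟨n, h⟩) else B.prT (B.pos k (rep n))

/-- The distance to a strand. -/
noncomputable def dst : Option ι → CC → ℝ
  | some i, p => ‖p.1 - B.b i p.2.im‖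
  | none, p => ‖p.1‖⁻¹

/-- The point is within `r` of a strand. -/
def Near (k : Option ι) (r : ℝ) (p : CC) : Prop := 0 < B.dst k p ∧ B.dst k p < r

/-- The atlas of the closed manifold. -/
noncomputable def XP : PS (Option (Option ι × NA)) B.X where
  dom
    | none => B.domT
    | some a => {p | p ∈ NP.dom a.2 ∧ wabs (NP.map a.2 p) < B.eps}
  map
    | none => B.prT
    | some a => fun p => B.jj a.1 (NP.map a.2 p)

noncomputable instance : TopologicalSpace B.X := B.XP.top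

/-- The open dense part. -/
def T : Set B.X := B.prT '' B.domT

/-- The point `[y, z + i t]` with `z` on the circle. -/
noncomputable def prC (p : ℂ × UnitAddCircle × ℝ) : B.X :=
  B.prT (p.1, ⟨(AddCircle.equivIco 1 0 p.2.1 : ℝ), p.2.2⟩)

/-- The universal cover of the punctured cap. -/
noncomputable def pW (k : Option ι) (q : ℂ × ℝ × ℝ) : B.X := B.jj k (kap (pw q))

/-- The cap. -/
def Cap (k : Option ι) : Set B.X := B.jj k '' Nr B.eps

/-- The punctured cap. -/
def Wk (k : Option ι) : Set B.X := B.jj k '' Wr B.eps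

/-- The double cover branched along a strand. -/
noncomputable def prQ (i : ι) (p : CC) : B.X := B.prT (p.1 ^ 2 + B.b i p.2.im, p.2)

def domQ (i : ι) : Set CC := {p | (p.1 ^ 2 + B.b i p.2.im, p.2) ∈ B.domT}

open Classical in
/-- The extension of `prT` across the strands. -/
noncomputable def fill (r : ℝ) (p : CC) : B.X :=
  if h : ∃ i, ‖p.1 - B.b i p.2.im‖ < B.eps then
    B.jj (some h.choose) (cd r p.2.re (ee (p.2.im / 2)) (p.1 - B.b h.choose p.2.im))
  else B.prT p

/-- The complement of the exceptional spheres. -/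
def XE : Set B.X := {x | ∀ k k' l, x ≠ B.jj k (.e k' l)}

end Br

/-- The two manifolds are homeomorphic. -/
def BRel {ι : Type} (B B' : Br ι) : Prop := Nonempty (B.X ≃ₜ B'.X)

/-- The figure eight curve. -/
noncomputable def fig (t : ℝ) : ℂ := ⟨Real.sin (2 * Real.pi * t), Real.cos (Real.pi * t)⟩

/-- The difference of two consecutive bodies. -/
noncomputable def dd (φ : ℝ) : ℂ :=
  ⟨√3 * Real.cos (2 * Real.pi * φ), -(√3 * Real.sin (Real.pi * φ))⟩

lemma fig_sub (t : ℝ) : fig (t + 2 / 3) - fig t = dd (t + 1 / 3) := by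
  have h3 : Real.sin (2 * Real.pi / 3) = √3 / 2 := by
    rw [show 2 * Real.pi / 3 = Real.pi - Real.pi / 3 by ring, Real.sin_pi_sub, Real.sin_pi_div_three]
  refine Complex.ext ?_ ?_
  · simp only [fig, dd, sub_re]
    rw [Real.sin_sub_sin, show (2 * Real.pi * (t + 2 / 3) - 2 * Real.pi * t) / 2 =
      2 * Real.pi / 3 by ring, show (2 * Real.pi * (t + 2 / 3) + 2 * Real.pi * t) / 2 =
      2 * Real.pi * (t + 1 / 3) by ring, h3]
    ring
  · simp only [fig, dd, sub_im]
    rw [Real.cos_sub_cos, show (Real.pi * (t + 2 / 3) - Real.pi * t) / 2 = Real.pi / 3 by ring,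
      show (Real.pi * (t + 2 / 3) + Real.pi * t) / 2 = Real.pi * (t + 1 / 3) by ring,
      Real.sin_pi_div_three]
    ring

lemma dd_ne (φ : ℝ) : dd φ ≠ 0 := fun h => by
  have h1 : Real.cos (2 * Real.pi * φ) = 0 := by simpa [dd] using congrArg Complex.re h
  have h2 : Real.sin (Real.pi * φ) = 0 := by simpa [dd] using congrArg Complex.im h
  rw [mul_assoc, Real.cos_two_mul, Real.cos_sq', h2] at h1
  norm_num at h1

lemma fig_one (t : ℝ) : fig (t + 1) = conj (fig t) := by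
  refine Complex.ext ?_ ?_
  · simp [fig, mul_add]
  · simp [fig, mul_add]

lemma fig_two (t : ℝ) : fig (t + 2) = fig t := by
  rw [show t + 2 = t + 1 + 1 by ring, fig_one, fig_one, conj_conj]

lemma fig_nat (q : ℕ) (t : ℝ) : fig (t + 2 * q) = fig t := by
  induction q with
  | zero => simp
  | succ q ih => rw [show t + 2 * ((q + 1 : ℕ) : ℝ) = t + 2 * q + 2 by push_cast; ring, fig_two, ih]

lemma continuous_fig : Continuous fig := by
  have : fig = fun t => (Real.sin (2 * Real.pi * t) : ℂ) + (Real.cos (Real.pi * t) : ℝ) * I :=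
    funext fun t => Complex.ext (by simp [fig, -ofReal_sin, -ofReal_cos])
      (by simp [fig, -ofReal_sin, -ofReal_cos])
  rw [this]
  fun_prop

lemma fig_ne (t : ℝ) : fig (t + 2 / 3) ≠ fig t := fun h => dd_ne _ (by rw [← fig_sub, h, sub_self])

/-- The figure eight choreography run at speed `2 q + 1`. -/
noncomputable def chB (q : ℕ) : Br (Fin 3) where
  b k t := fig ((2 * q + 1) * t + 2 * (k : ℕ) / 3)
  cont k := continuous_fig.comp (by fun_prop)
  eqv k t := by
    rw [← fig_one, ← fig_nat q ((2 * q + 1) * t + 2 * (k : ℕ) / 3 + 1)]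
    congr 1
    ring
  inj t i j h := by
    have h1 := fig_ne ((2 * q + 1) * t)
    have h2 := fig_ne ((2 * q + 1) * t + 2 / 3)
    have h3 := fig_ne ((2 * q + 1) * t + 4 / 3)
    rw [show (2 * q + 1) * t + 2 / 3 + 2 / 3 = (2 * q + 1) * t + 4 / 3 by ring] at h2
    rw [show (2 * q + 1) * t + 4 / 3 + 2 / 3 = (2 * q + 1) * t + 2 by ring, fig_two] at h3
    fin_cases i <;> fin_cases j <;> norm_num at h ⊢ <;>
      first | exact h1 h | exact h1 h.symm | exact h2 h | exact h2 h.symm | exact h3 h |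
        exact h3 h.symm

/-- Equivariant paths in the twice punctured plane. -/
structure Xi where
  f : ℝ → ℂ
  cont : Continuous f
  eqv : ∀ t, f (t + 1) = conj (f t)
  ne1 : ∀ t, f t ≠ 1
  ne2 : ∀ t, f t ≠ -1

/-- The braid `(-1, 1, ξ)`. -/
noncomputable def bx (ξ : Xi) : Br (Fin 3) where
  b := ![fun _ => -1, fun _ => 1, ξ.f]
  cont k := by fin_cases k <;> simp [continuous_const, ξ.cont]
  eqv k t := by fin_cases k <;> simp [ξ.eqv]
  inj t i j h := by
    have h1 := ξ.ne1 t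
    have h2 := ξ.ne2 t
    fin_cases i <;> fin_cases j <;> simp at h ⊢ <;>
      first | exact h1 h | exact h1 h.symm | exact h2 h | exact h2 h.symm | norm_num at h

/-- The model space of the belt trick. -/
abbrev MM : Type := ℂ × UnitAddCircle × ℝ

/-- The gauge of the solid cylinder centred at `(m, 3 / 4)`. -/
noncomputable def nrm (m ρ : ℝ) (p : MM) : ℝ :=
  max (‖p.1 - m‖ / ρ) (2 * ‖p.2.1 - ((3 / 4 : ℝ) : UnitAddCircle)‖)

/-- The domain of the thickened torus with a two-handle. -/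
def domG (m ρ δ : ℝ) : Set MM := {p | ‖p.1 - m‖ < ρ + δ ∧ |p.2.2 - 1 / 2| < δ ∧ 1 - δ < nrm m ρ p}

end Pool.Agent.Lib.MP_45bb13_gt
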