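import Pool.Agent.Lib.MP_45bb13_gt.Loc
import Pool.Agent.Shared.Sing.Fund

/-! Spaces defined by parametrisations. -/

set_option linter.unusedSectionVars false

namespace Pool.Agent.Lib.MP_45bb13_gt

open Set Filter Topology Complex Pool.Agent.Shared.Sing
open scoped ComplexConjugate Manifold ContDiff

section comp

variable {X Y : Type} {n : WithTop ℕ∞} {f f' g h : CC → X} {x y z : CC}

lemma Comp.refl (f : CC → X) (x : CC) : Comp n f x f x :=
  ⟨id, contDiffAt_id, rfl, Eventually.of_forall fun _ => rfl⟩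

lemma Comp.trans (h1 : Comp n f x g y) (h2 : Comp n g y h z) : Comp n f x h z := by
  obtain ⟨θ, a1, a2, a3⟩ := h1
  obtain ⟨θ', b1, b2, b3⟩ := h2
  subst a2
  refine ⟨θ' ∘ θ, b1.comp x a1, b2, ?_⟩
  filter_upwards [a3, a1.continuousAt.eventually b3] with w h1 h2
  exact h2.trans h1

lemma Comp.of_le {m : WithTop ℕ∞} (h1 : Comp n f x g y) (hm : m ≤ n) : Comp m f x g y := by
  obtain ⟨θ, a1, a2, a3⟩ := h1
  exact ⟨θ, a1.of_le hm, a2, a3⟩

lemma Comp.congr (h1 : Comp n f x g y) (he : f' =ᶠ[𝓝 x] f) : Comp n f' x g y := by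
  obtain ⟨θ, a1, a2, a3⟩ := h1
  refine ⟨θ, a1, a2, ?_⟩
  filter_upwards [a3, he] with w h1 h2
  exact h1.trans h2.symm

lemma Comp.congr_right (h1 : Comp n f x g y) (he : h =ᶠ[𝓝 y] g) : Comp n f x h y := by
  obtain ⟨θ, a1, a2, a3⟩ := h1
  subst a2
  refine ⟨θ, a1, rfl, ?_⟩
  filter_upwards [a3, a1.continuousAt.eventually he] with w h1 h2
  exact h2.trans h1

lemma Comp.post (h1 : Comp n f x g y) (j : X → Y) : Comp n (j ∘ f) x (j ∘ g) y := by
  obtain ⟨θ, a1, a2, a3⟩ := h1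
  exact ⟨θ, a1, a2, a3.mono fun w hw => congrArg j hw⟩

lemma Comp.eq (h1 : Comp n f x g y) : f x = g y := by
  obtain ⟨θ, -, a2, a3⟩ := h1
  rw [← a2, a3.self_of_nhds]

end comp

variable {A X : Type} [TopologicalSpace X] {P : PS A X} {n : WithTop ℕ∞}

lemma PS.Good.of_le {m : WithTop ℕ∞} (h : P.Good n) (hm : m ≤ n) : P.Good m :=
  ⟨h.top, h.opn, h.cov, h.inj, fun a b x hx y hy he => (h.comp a b x hx y hy he).of_le hm⟩

theorem PS.Good.lo (h : P.Good n) (a : A) : LO (P.map a) (P.dom a) := by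
  refine ⟨h.opn a, fun x hx => le_antisymm ?_ ?_⟩
  · intro U hU
    obtain ⟨V, h1, h2, h3⟩ := mem_nhds_iff.1 hU
    exact mem_of_superset ((h.top V).1 h2 a x hx h3) fun z hz => h1 hz
  · intro U hU
    obtain ⟨V, h1, h2, h3⟩ := mem_nhds_iff.1 (inter_mem hU ((h.opn a).mem_nhds hx))
    have ho : IsOpen (P.map a '' V) := by
      refine (h.top _).2 ?_
      rintro b y hy ⟨x', hx', he⟩
      obtain ⟨θ, a1, a2, a3⟩ := h.comp b a y hy x' (h1 hx').2 he.symm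
      have a4 : ∀ᶠ w in 𝓝 y, θ w ∈ V := a1.continuousAt.eventually (h2.mem_nhds (a2 ▸ hx'))
      filter_upwards [a3, a4] with w h4 h5
      exact ⟨θ w, h5, h4⟩
    refine mem_of_superset (ho.mem_nhds ⟨x, h3, rfl⟩) ?_
    rintro _ ⟨w, hw, rfl⟩
    exact (h1 hw).1

lemma PS.Good.le (h : P.Good n) {a : A} {x : CC} (hx : x ∈ P.dom a) : Lemb (P.map a) x := by
  obtain ⟨V, hV, hi⟩ := h.inj a x hx
  exact ⟨interior V ∩ P.dom a, ⟨mem_interior_iff_mem_nhds.2 hV, hx⟩,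
    (h.lo a).mono (isOpen_interior.inter (h.opn a)) inter_subset_right,
    hi.mono fun w hw => interior_subset hw.1⟩

lemma PS.Good.continuousOn (h : P.Good n) {Y : Type*} [TopologicalSpace Y] {f : X → Y} {U : Set X}
    (hf : ∀ a, ∀ x ∈ P.dom a, P.map a x ∈ U → ContinuousAt (f ∘ P.map a) x) :
    ContinuousOn f U := by
  intro y hy
  obtain ⟨a, x, hx, rfl⟩ := h.cov y
  exact (((h.lo a).continuousAt_iff hx).2 (hf a x hx hy)).continuousWithinAt

lemma locEuc_of_le {Y : Type*} [TopologicalSpace Y]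
    (h : ∀ y : Y, ∃ (ψ : CC → Y) (x : CC), Lemb ψ x ∧ ψ x = y) : LocEuc (Fin 4) Y := by
  intro y
  obtain ⟨ψ, x, h1, rfl⟩ := h y
  obtain ⟨φ, rfl, h2, -⟩ := h1.oph univ_mem
  let L : CC ≃L[ℝ] (Fin 4 → ℝ) := ContinuousLinearEquiv.ofFinrankEq (by simp)
  exact ⟨φ.symm.trans L.toHomeomorph.toOpenPartialHomeomorph, φ.map_source h2, trivial⟩

lemma locEuc_CC : LocEuc (Fin 4) CC :=
  locEuc_of_le fun y => ⟨Homeomorph.refl CC, y, le_homeo _ _, rfl⟩

lemma locEuc_C : LocEuc (Fin 2) ℂ := by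
  intro y
  let L : ℂ ≃L[ℝ] (Fin 2 → ℝ) := ContinuousLinearEquiv.ofFinrankEq (by simp)
  exact ⟨L.toHomeomorph.toOpenPartialHomeomorph, trivial⟩

theorem PS.Good.locEuc (h : P.Good n) : LocEuc (Fin 4) X :=
  locEuc_of_le fun y => by
    obtain ⟨a, x, hx, rfl⟩ := h.cov y
    exact ⟨P.map a, x, h.le hx, rfl⟩

lemma locPath_of_locEuc {ι Y : Type*} [Fintype ι] [TopologicalSpace Y] (h : LocEuc ι Y) :
    LocallyPathConnectedSpace Y := by
  choose φ hφ using h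
  let _ : ChartedSpace (ι → ℝ) Y := ⟨univ, φ, hφ, fun _ => trivial⟩
  exact ChartedSpace.locallyPathConnectedSpace (ι → ℝ) Y

lemma par_key {Y E : Type} [TopologicalSpace Y] [NormedAddCommGroup E] [NormedSpace ℝ E]
    (L : CC ≃L[ℝ] E) {φ φ' : OpenPartialHomeomorph Y E} {f g : CC → Y} {F : Y → Y}
    (hf : ∀ w, φ.symm w = f (L.symm w)) (hg : ∀ w, φ'.symm w = g (L.symm w)) {w w' : E}
    (hw' : w' ∈ φ'.target) (hc : Comp n (F ∘ f) (L.symm w) g (L.symm w')) :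
    ContDiffAt ℝ n (φ' ∘ F ∘ φ.symm) w := by
  obtain ⟨θ, a1, a2, a3⟩ := hc
  have b1 : ContDiffAt ℝ n (fun v => L (θ (L.symm v))) w :=
    L.contDiff.contDiffAt.comp w (a1.comp w L.symm.contDiff.contDiffAt)
  refine b1.congr_of_eventuallyEq ?_
  have b2 : ∀ᶠ v in 𝓝 w, L (θ (L.symm v)) ∈ φ'.target :=
    b1.continuousAt.eventually (φ'.open_target.mem_nhds (by simpa [a2] using hw'))
  filter_upwards [b2, L.symm.continuous.continuousAt.eventually a3] with v h1 h2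
  have h3 := φ'.right_inv h1
  rw [hg, L.symm_apply_apply, h2] at h3
  simpa [hf] using h3

/-- The smooth structure and the action are carried along a homeomorphism. -/
theorem PS.Good.final (h : P.Good ∞) {Y G : Type} [TopologicalSpace Y] [Group G] (e : X ≃ₜ Y)
    (ρ : G →* (X ≃ₜ X)) (h1 : ρ ≠ 1) (h2 : ∀ g a, ∀ x ∈ P.dom a, ∃ b, ∃ y ∈ P.dom b,
      Comp ∞ (ρ g ∘ P.map a) x (P.map b) y) :
    ∃ _ : ChartedSpace (EuclideanSpace ℝ (Fin 4)) Y, IsManifold (𝓡 4) ∞ Y ∧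
      ∃ ρ' : G →* (Y ≃ₜ Y), ρ' ≠ 1 ∧ ∀ g, ContMDiff (𝓡 4) (𝓡 4) ∞ (ρ' g) := by
  let L : CC ≃L[ℝ] EuclideanSpace ℝ (Fin 4) :=
    ContinuousLinearEquiv.ofFinrankEq (by simp)
  let S : Set (OpenPartialHomeomorph Y (EuclideanSpace ℝ (Fin 4))) :=
    {φ | ∃ a, (∀ w ∈ φ.target, L.symm w ∈ P.dom a) ∧ ∀ w, φ.symm w = (e ∘ P.map a) (L.symm w)}
  have hS : ∀ y : Y, ∃ φ ∈ S, y ∈ φ.source := by
    intro y
    obtain ⟨a, x, hx, hy⟩ := h.cov (e.symm y)
    obtain ⟨ψ, b1, b2, b3⟩ := ((le_homeo e _).comp (h.le hx)).oph ((h.opn a).mem_nhds hx)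
    refine ⟨ψ.symm.trans L.toHomeomorph.toOpenPartialHomeomorph, ⟨a, fun w hw => b3 hw.2,
      fun w => congrFun b1 _⟩, ?_, trivial⟩
    have := ψ.map_source b2
    rwa [b1, Function.comp_apply, hy, e.apply_symm_apply] at this
  choose φ hφ hφ' using hS
  let cs : ChartedSpace (EuclideanSpace ℝ (Fin 4)) Y := ⟨S, φ, hφ', hφ⟩
  let ρ' : G →* (Y ≃ₜ Y) := MonoidHom.mk' (fun g => (e.symm.trans (ρ g)).trans e) fun g g' => by
    ext y
    simp
  have hρ : ∀ g x, ρ' g (e x) = e (ρ g x) := fun g x => by simp [ρ']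
  refine ⟨cs, isManifold_of_contDiffOn _ _ _ ?_, ρ', fun h0 => h1 ?_, fun g p => ?_⟩
  · rintro ψ ψ' ⟨a, a1, a2⟩ ⟨b, b1, b2⟩ w ⟨⟨c1, c2⟩, -⟩
    have c1' : w ∈ ψ.target := c1
    have c2' : ψ.symm w ∈ ψ'.source := c2
    have c3 := ψ'.map_source c2'
    have c4 := ψ'.left_inv c2'
    rw [b2] at c4
    have c5 := (c4.trans (a2 w)).symm
    exact (par_key L (F := id) a2 b2 c3
      ((h.comp a b _ (a1 w c1') _ (b1 _ c3) (e.injective c5)).post e)).contDiffWithinAt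
  · ext g x
    have := hρ g x
    rw [h0] at this
    exact (e.injective this).symm
  · refine contMDiffAt_iff.2 ⟨(ρ' g).continuous.continuousAt, ?_⟩
    obtain ⟨a, a1, a2⟩ := hφ p
    obtain ⟨b, b1, b2⟩ := hφ (ρ' g p)
    have c1 := (φ p).map_source (hφ' p)
    have c2 := (φ (ρ' g p)).map_source (hφ' _)
    have c3 := (φ p).left_inv (hφ' p)
    have c4 := (φ (ρ' g p)).left_inv (hφ' _)
    rw [a2] at c3
    rw [b2] at c4
    obtain ⟨c, y, hy, hc⟩ := h2 g a _ (a1 _ c1)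
    have c5 : P.map c y = P.map b (L.symm (φ (ρ' g p) (ρ' g p))) := by
      apply e.injective
      rw [← hc.eq, Function.comp_apply, ← hρ]
      exact (congrArg (ρ' g) c3).trans c4.symm
    have c6 := (hc.trans (h.comp c b y hy _ (b1 _ c2) c5)).post e
    exact (par_key L (F := ρ' g) a2 b2 c2
      (c6.congr (Eventually.of_forall fun z => hρ g _))).contDiffWithinAt

end Pool.Agent.Lib.MP_45bb13_gt
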