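import Pool.Agent.Lib.MP_45bb13_gt.Basic
import Pool.Agent.Lib.MP_45bb13_gt.Par
import Pool.Agent.Lib.MP_45bb13_gt.Cover

/-! Discs, spheres and Mayer-Vietoris spanning lemmas. -/

set_option linter.unusedSectionVars false

namespace Pool.Agent.Lib.MP_45bb13_gt

open Set Filter Topology Complex Pool.Agent.Shared.Sing Pool.Agent.Shared.SingEZ
open scoped ComplexConjugate

variable {X E : Type} [TopologicalSpace X] [Nonempty X] [TopologicalSpace E] [Nonempty E]
  {F : Type} [Field F] {U U' : Set X}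

/-- The parametrisation of the disc by a triangle. -/
noncomputable def disc_m (q : ℝ × ℝ) : ℂ := (q.1 : ℂ) * ee (q.2 / q.1)

lemma disc_norm (q : ℝ × ℝ) : ‖disc_m q‖ = |q.1| := by simp [disc_m, norm_ee]

lemma disc_cont : Continuous disc_m := by
  refine continuous_iff_continuousAt.2 fun q => ?_
  by_cases h : q.1 = 0
  · have h0 : disc_m q = 0 := by simp [disc_m, h]
    rw [ContinuousAt, h0, tendsto_zero_iff_norm_tendsto_zero]
    simp only [disc_norm]
    have : Tendsto (fun p : ℝ × ℝ => |p.1|) (𝓝 q) (𝓝 |q.1|) := continuous_fst.abs.tendsto q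
    simpa [h] using this
  · exact (continuous_ofReal.continuousAt.comp continuousAt_fst).mul
      (continuous_ee.continuousAt.comp (continuousAt_snd.div continuousAt_fst h))

lemma disc_eq (R : Type) [CommRing R] :
    dsk R = real disc_m (Finsupp.single [(0, 0), (1, 0), (1, 1)] 1) := rfl

lemma dsk_In (R : Type) [CommRing R] : dsk R ∈ In R D1 3 := by
  rw [disc_eq]
  refine real_In (K := Icc (0 : ℝ) 1 ×ˢ (univ : Set ℝ)) ((convex_Icc 0 1).prod convex_univ)
    disc_cont.continuousOn (fun q hq => ?_) (single_mem ⟨rfl, by simp⟩)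
  rw [mem_closedBall_zero_iff, disc_norm, abs_of_nonneg hq.1.1]
  exact hq.1.2

lemma D_dsk (R : Type) [CommRing R] : D (dsk R) = lpc R := by
  have h1 : real disc_m (Finsupp.single [((0 : ℝ), (0 : ℝ)), (1, 1)] (1 : R)) =
      real disc_m (Finsupp.single [((0 : ℝ), (0 : ℝ)), (1, 0)] 1) := edge_congr fun t _ => by
    by_cases h : t = 0 <;> simp [disc_m, h, ee_one, ee_zero]
  have h2 : real disc_m (Finsupp.single [((1 : ℝ), (0 : ℝ)), (1, 1)] (1 : R)) = lpc R :=
    edge_congr fun t _ => by simp [disc_m]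
  rw [disc_eq]
  simp only [D_glob disc_cont, bd_single, bdL, map_sub, cone_single, map_zero, sub_zero]
  rw [h1, h2]
  abel

lemma lpc_Z (R : Type) [CommRing R] : lpc R ∈ Z R (Metric.sphere 0 1) ∅ 1 :=
  edge_Z continuous_ee.continuousOn (fun t _ => by simp [norm_ee]) (ee_one.trans ee_zero.symm)

lemma map_lpc (R : Type) [CommRing R] (f : ℂ → X) : map f (lpc R) = edge R fun t => f (ee t) :=
  map_edge continuous_ee.continuousOn f

lemma D_map_dsk {R : Type} [CommRing R] {f : ℂ → X} (hf : ContinuousOn f D1) :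
    D (map f (dsk R)) = edge R fun t => f (ee t) := by
  rw [← map_D hf (dsk_In R), D_dsk, map_lpc]

lemma disc_Z (R : Type) [CommRing R] : dsk R ∈ Z R univ (Metric.sphere 0 1) 2 :=
  ⟨In_univ (dsk_In R), show D _ ∈ _ from D_dsk R ▸ (lpc_Z R).1⟩

lemma dsk_Z {x : ℂ} (hx : ‖x‖ < 1) : dsk F ∈ Z F univ {x}ᶜ 2 :=
  Z_mono le_rfl (fun y hy h => by
    rw [mem_sphere_zero_iff_norm, mem_singleton_iff.1 h] at hy
    exact hx.ne hy) (disc_Z F)

/-- The integers act on the angle. -/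
@[reducible] noncomputable def disc_act : MulAction (Multiplicative ℤ) (ℝ × ℝ) where
  smul g q := (q.1, q.2 + (g.toAdd : ℤ))
  one_smul q := show (q.1, q.2 + ((0 : ℤ) : ℝ)) = q by simp
  mul_smul g h q := show (q.1, q.2 + ((g.toAdd + h.toAdd : ℤ) : ℝ)) =
    (q.1, q.2 + (h.toAdd : ℤ) + (g.toAdd : ℤ)) by push_cast; ring_nf

section cover

attribute [local instance] disc_act

lemma disc_smul (g : Multiplicative ℤ) (q : ℝ × ℝ) : g • q = (q.1, q.2 + (g.toAdd : ℤ)) := rfl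

lemma disc_pol {p q : ℝ × ℝ} (hp : 0 < p.1) (hq : 0 < q.1) (h : pol p = pol q) :
    p.1 = q.1 ∧ ∃ n : ℤ, p.2 = q.2 + n := by
  have h1 : p.1 = q.1 := by
    simpa [pol, norm_ee, abs_of_pos hp, abs_of_pos hq] using congrArg norm h
  refine ⟨h1, ee_eq_iff.1 ?_⟩
  rw [pol, pol, h1] at h
  exact mul_left_cancel₀ (ofReal_ne_zero.2 hq.ne') h

lemma disc_cov : CovOn (Multiplicative ℤ) pol {q | 0 < q.1} where
  lo := lo_pol
  le x hx := by
    refine ⟨{q | 0 < q.1 ∧ |q.2 - x.2| < 1 / 2}, ⟨hx, by simp⟩, lo_pol.mono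
      ((isOpen_lt continuous_const continuous_fst).inter
        (isOpen_lt (continuous_snd.sub continuous_const).abs continuous_const))
          fun _ h => h.1, fun p hp q hq h => ?_⟩
    obtain ⟨h1, n, h2⟩ := disc_pol hp.1 hq.1 h
    have h3 := abs_lt.1 hp.2
    have h4 := abs_lt.1 hq.2
    have h5 : (n : ℝ) < 1 := by linarith
    have h6 : (-1 : ℝ) < n := by linarith
    have h7 : n = 0 := by
      have a1 : n < 1 := by exact_mod_cast h5
      have a2 : -1 < n := by exact_mod_cast h6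
      omega
    exact Prod.ext h1 (by simpa [h7] using h2)
  cont g := by
    simp only [disc_smul]
    fun_prop
  inv _ _ hx := hx
  smul g x _ := by simp [disc_smul, pol, ee_add_int]
  trans x hx y hy h := by
    obtain ⟨h1, n, h2⟩ := disc_pol hy hx h.symm
    exact ⟨Multiplicative.ofAdd n, Prod.ext h1.symm h2.symm⟩
  free g x _ h := by
    have h1 : x.2 + (g.toAdd : ℤ) = x.2 := congrArg Prod.snd h
    have h2 : g.toAdd = 0 := by simpa using h1
    exact toAdd_eq_zero.1 h2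

lemma disc_img : pol '' {q | 0 < q.1} = {0}ᶜ := by
  refine subset_antisymm ?_ fun x hx => ⟨(‖x‖, ang x), norm_pos_iff.2 hx, norm_mul_ee_ang x⟩
  rintro _ ⟨q, hq, rfl⟩
  exact mul_ne_zero (ofReal_ne_zero.2 (ne_of_gt hq)) (ee_ne_zero _)

lemma disc_convex : Convex ℝ {q : ℝ × ℝ | 0 < q.1} :=
  (convex_Ioi (0 : ℝ)).linear_preimage (LinearMap.fst ℝ ℝ ℝ)

lemma disc_pc : IsPathConnected {q : ℝ × ℝ | 0 < q.1} :=
  disc_convex.isPathConnected ⟨(1, 0), by simp⟩

lemma disc_h1 : Z F {q : ℝ × ℝ | 0 < q.1} ∅ 1 ≤ B F {q : ℝ × ℝ | 0 < q.1} ∅ 1 := fun c hc => by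
  have hp : ((1, 0) : ℝ × ℝ) ∈ {q : ℝ × ℝ | 0 < q.1} := by simp
  obtain ⟨h, H⟩ := contr_star (R := F) hp (disc_convex.starConvex hp)
  exact Submodule.mem_sup_left (H.bd hc.1 (Z_D_eq hc))

lemma disc_cls : LoopCls pol {q | 0 < q.1} (Multiplicative.ofAdd (1 : ℤ)) ee :=
  ⟨fun t => (1, t), by fun_prop, fun _ _ => by simp, by simp [disc_smul],
    fun t _ => by simp [pol]⟩

lemma disc_cls' :
    LoopCls pol {q | 0 < q.1} (Multiplicative.ofAdd (-1 : ℤ)) fun t => -conj (ee t) :=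
  ⟨fun t => (1, 1 / 2 - t), by fun_prop, fun _ _ => by simp, by
    simp only [disc_smul, toAdd_ofAdd]
    norm_num, fun t _ => by
    simp only [pol]
    rw [sub_eq_add_neg, ee_add, ee_half, ee_neg]
    simp⟩

lemma disc_not_B : dsk F ∉ B F univ {0}ᶜ 2 := fun h => by
  obtain ⟨w, -, hw⟩ := mem_B h
  obtain ⟨φ, h1, h2⟩ := disc_cov.coc (F := F) (AddMonoidHom.toMultiplicative (Int.castAddHom F))
  rw [disc_img] at h1
  have h3 := h1 _ hw
  rw [map_sub, D_D, sub_zero, D_dsk, lpc, h2 _ _ disc_cls] at h3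
  simp at h3

theorem dsk_not_B {x : ℂ} (hx : ‖x‖ < 1) : dsk F ∉ B F univ {x}ᶜ 2 := fun h =>
  disc_not_B ((null_iff locEuc_C (convex_ball (0 : ℂ) 1).isPreconnected (Z_mono le_rfl
    (fun _ hy h => (mem_ball_zero_iff.1 h).ne (mem_sphere_zero_iff_norm.1 hy)) (disc_Z F))
    (mem_ball_zero_iff.2 hx) (Metric.mem_ball_self one_pos)).1 h)

/-- A reflection reverses the disc. -/
theorem dsk_refl : map (fun x : ℂ => -conj x) (dsk F) + dsk F ∈ B F univ {0}ᶜ 2 := by
  have hc : Continuous fun x : ℂ => -conj x := by fun_prop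
  have h1 := disc_cov.rel (F := F) disc_pc disc_h1 (κ := Bool) (fun _ => 1)
    (fun b => if b then Multiplicative.ofAdd (-1 : ℤ) else Multiplicative.ofAdd (1 : ℤ))
    (fun b => if b then fun t => -conj (ee t) else ee)
    (fun b => by
      cases b
      · exact disc_cls
      · exact disc_cls') fun χ => by simp [ofAdd_neg]
  rw [disc_img] at h1
  obtain ⟨w, hw, h2⟩ := mem_B_empty h1
  obtain ⟨h, H⟩ := contr_star (R := F) (mem_univ (0 : ℂ)) (starConvex_univ 0)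
  have h3 := H.bd (sub_mem (add_mem (map_In' hc (In_univ (dsk_In F))) (In_univ (dsk_In F)))
    (In_univ hw)) (by
      rw [map_sub, map_add, D_map_dsk hc.continuousOn, D_dsk, h2]
      simp [lpc])
  simpa [B] using add_mem (Submodule.mem_sup_left h3) (In_mem_B hw)

theorem spn_punct : Spn F ({0}ᶜ : Set ℂ) 1 {lpc F} := by
  have h1 := disc_cov.span (F := F) disc_pc disc_h1 (κ := Unit)
    (fun _ => Multiplicative.ofAdd (1 : ℤ)) (fun _ => ee) (fun _ => disc_cls)
    fun χ h => MonoidHom.ext_mint (h ())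
  rwa [disc_img, range_const] at h1

end cover

lemma bi_Z {R : Type} [CommRing R] {f g : ℂ → X} (hf : ContinuousOn f D1) (hg : ContinuousOn g D1)
    (mf : MapsTo f D1 U) (mg : MapsTo g D1 U) (h : ∀ t, f (ee t) = g (ee t)) :
    bi R f g ∈ Z R U ∅ 2 :=
  mem_Z (sub_mem (map_In hf mf (dsk_In R)) (map_In hg mg (dsk_In R))) (by
    rw [bi, map_sub, D_map_dsk hf, D_map_dsk hg]
    simp [h])

lemma map_bi {R : Type} [CommRing R] {f g : ℂ → E} (hf : ContinuousOn f D1) (hg : ContinuousOn g D1)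
    (j : E → X) : map j (bi R f g) = bi R (j ∘ f) (j ∘ g) := by
  rw [bi, map_sub, map_map hf (dsk_In R), map_map hg (dsk_In R), bi]

lemma BiFam.cont {f g : ℝ → ℂ → X} (h : BiFam U f g) {s : ℝ} (hs : s ∈ Icc (0 : ℝ) 1) :
    ContinuousOn (f s) D1 ∧ ContinuousOn (g s) D1 :=
  ⟨h.cf.comp (f := fun x => (x, s)) (by fun_prop) fun _ hx => ⟨hx, hs⟩,
    h.cg.comp (f := fun x => (x, s)) (by fun_prop) fun _ hx => ⟨hx, hs⟩⟩

lemma disc_P {R : Type} [CommRing R] {H H' : E × ℝ → X} {A : Set E} {n : ℕ} {c : C R E}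
    (hc : c ∈ In R A n) (h : EqOn H H' (A ×ˢ Icc 0 1)) : P H c = P H' c := by
  have h1 := fun G : E × ℝ → X => map_P (H := id) continuousOn_id G hc
  simp only [Function.comp_id] at h1
  rw [← h1, ← h1]
  exact map_congr h (P_In continuousOn_id (mapsTo_id _) hc)

theorem BiFam.sub_mem {R : Type} [CommRing R] {f g : ℝ → ℂ → X} (h : BiFam U f g) :
    bi R (f 1) (g 1) - bi R (f 0) (g 0) ∈ B R U ∅ 2 := by
  have h1 := D_P h.cf (dsk_In R)
  have h2 := D_P h.cg (dsk_In R)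
  have h3 : P (fun q : ℂ × ℝ => f q.2 q.1) (D (dsk R)) =
      P (fun q : ℂ × ℝ => g q.2 q.1) (D (dsk R)) := by
    rw [D_dsk]
    refine disc_P (lpc_Z R).1 fun q hq => ?_
    have e := norm_mul_ee_ang q.1
    rw [mem_sphere_zero_iff_norm.1 hq.1, ofReal_one, one_mul] at e
    exact show f q.2 q.1 = g q.2 q.1 from e ▸ h.bd q.2 hq.2 _
  have h4 := D_mem_B (U := ∅) (_root_.sub_mem
    (P_In h.cf (fun q hq => h.mf q.2 hq.2 hq.1) (dsk_In R))
    (P_In h.cg (fun q hq => h.mg q.2 hq.2 hq.1) (dsk_In R)))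
  convert h4 using 1
  rw [map_sub, eq_sub_of_add_eq h1, eq_sub_of_add_eq h2, h3, bi, bi]
  abel

lemma disc_two {x : ℂ} {c c' : C F2 ℂ} (hc : c ∈ Z F2 univ {x}ᶜ 2) (hc' : c' ∈ Z F2 univ {x}ᶜ 2)
    (h1 : c ∉ B F2 univ {x}ᶜ 2) (h2 : c' ∉ B F2 univ {x}ᶜ 2) : c - c' ∈ B F2 univ {x}ᶜ 2 := by
  obtain ⟨φ, hφ⟩ := locEuc_C x
  exact two_chart φ hφ (by simpa using loc_euc (R := ZMod 2) (φ x)) hc hc' h1 h2

lemma disc_zeta {κ : Type} [Fintype κ] (a : κ → ℂ) (ρ : κ → ℝ)
    (h1 : ∀ i, 0 < ρ i ∧ ‖a i‖ + ρ i < 1) (h2 : ∀ i j, i ≠ j → ρ i + ρ j < ‖a i - a j‖) :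
    dsk F2 - ∑ i, map (fun x => a i + ρ i * x) (dsk F2) ∈ B F2 univ (range a)ᶜ 2 := by
  classical
  have hA : ∀ i, Continuous fun x : ℂ => a i + ρ i * x := fun i => by fun_prop
  have ha : ∀ i, ‖a i‖ < 1 := fun i => by linarith [(h1 i).1, (h1 i).2]
  have k1 : ∀ i j, i ≠ j → MapsTo (fun x : ℂ => a i + ρ i * x) D1 {a j}ᶜ := fun i j hij x hx e => by
    have e1 : a i - a j = -(ρ i * x) := by
      rw [← mem_singleton_iff.1 e]
      ring
    have e2 := h2 i j hij
    rw [e1, norm_neg, norm_mul, norm_real, Real.norm_of_nonneg (h1 i).1.le] at e2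
    nlinarith [mem_closedBall_zero_iff.1 hx, (h1 i).1, (h1 j).1]
  have k2 : ∀ i, MapsTo (fun x : ℂ => a i + ρ i * x) (Metric.sphere 0 1) (range a)ᶜ := by
    rintro i x hx ⟨j, e⟩
    by_cases hij : i = j
    · subst hij
      have e1 : (ρ i : ℂ) * x = 0 := by simpa using e
      have e2 := congrArg norm e1
      rw [norm_mul, mem_sphere_zero_iff_norm.1 hx, norm_real, Real.norm_of_nonneg (h1 i).1.le,
        norm_zero] at e2
      linarith [(h1 i).1]
    · exact k1 i j hij (Metric.sphere_subset_closedBall hx) e.symm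
  have k3 : ∀ i, map (fun x => a i + ρ i * x) (dsk F2) ∈ Z F2 univ (range a)ᶜ 2 := fun i =>
    map_Z (hA i).continuousOn (subset_univ _) (mapsTo_univ _ _) (k2 i) (disc_Z F2)
  have k4 : dsk F2 ∈ Z F2 univ (range a)ᶜ 2 := Z_mono le_rfl (by
    rintro x hx ⟨j, rfl⟩
    exact (ha j).ne (mem_sphere_zero_iff_norm.1 hx)) (disc_Z F2)
  have hG := good_mfd (R := F2) locEuc_C (finite_range a).isCompact
  rw [Fintype.card_fin] at hG
  refine hG.2 _ (sub_mem k4 (Submodule.sum_mem _ fun i _ => k3 i)) ?_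
  rintro _ ⟨j, rfl⟩
  rw [← Finset.add_sum_erase _ _ (Finset.mem_univ j), ← sub_sub]
  refine sub_mem (disc_two (dsk_Z (ha j))
    (Z_anti (singleton_subset_iff.2 (mem_range_self j)) (k3 j))
    (dsk_not_B (ha j)) fun h => ?_) (Submodule.sum_mem _ fun i hi =>
      In_mem_B (map_In (hA i).continuousOn (k1 i j (Finset.ne_of_mem_erase hi)) (dsk_In F2)))
  have hρ : (ρ j : ℂ) ≠ 0 := ofReal_ne_zero.2 (h1 j).1.ne'
  have h4 := map_B (g := fun y : ℂ => (y - a j) / ρ j) (U := {a j}ᶜ) (W := {0}ᶜ) (by fun_prop)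
    (subset_univ _) (mapsTo_univ _ _) (fun y hy e => hy (by simpa [hρ, sub_eq_zero] using e)) h
  rw [map_map' (hA j), map_self (A := D1) (fun x _ => by simp [hρ]) (dsk_In F2)] at h4
  exact dsk_not_B (by simp) h4

/-- The unit disc is the sum of small discs and of a chain that avoids their centres. -/
theorem planar {κ : Type} [Fintype κ] {f : ℂ → X} (hf : ContinuousOn f D1) (a : κ → ℂ) (ρ : κ → ℝ)
    (h1 : ∀ i, 0 < ρ i ∧ ‖a i‖ + ρ i < 1) (h2 : ∀ i j, i ≠ j → ρ i + ρ j < ‖a i - a j‖)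
    (h3 : ∀ x ∈ D1, (∀ i, x ≠ a i) → f x ∈ U) : ∃ u ∈ In F2 U 3,
      map f (dsk F2) - ∑ i, map (fun x => f (a i + ρ i * x)) (dsk F2) - u ∈ Bd F2 univ 3 := by
  obtain ⟨w, hw, hv⟩ := mem_B (disc_zeta a ρ h1 h2)
  let r : ℂ → ℂ := fun x => x / (max 1 ‖x‖ : ℝ)
  have m0 : ∀ x : ℂ, 0 < max 1 ‖x‖ := fun x => lt_max_of_lt_left one_pos
  have r0 : ∀ x, ‖r x‖ = ‖x‖ / max 1 ‖x‖ := fun x => by
    simp only [r, norm_div, norm_real, Real.norm_of_nonneg (m0 x).le]
  have r1 : Continuous r := continuous_id.div (by fun_prop) fun x => ofReal_ne_zero.2 (m0 x).ne'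
  have r2 : ∀ x, r x ∈ D1 := fun x => by
    rw [mem_closedBall_zero_iff, r0, div_le_one (m0 x)]
    exact le_max_right _ _
  have r3 : ∀ x ∈ D1, r x = x := fun x hx => by
    simp [r, max_eq_left (mem_closedBall_zero_iff.1 hx)]
  have hg : Continuous (f ∘ r) := hf.comp_continuous r1 r2
  have r4 : MapsTo (f ∘ r) (range a)ᶜ U := fun x hx => h3 _ (r2 x) fun i e => by
    rcases le_total ‖x‖ 1 with h | h
    · exact hx ⟨i, e.symm.trans (r3 x (mem_closedBall_zero_iff.2 h))⟩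
    · have e1 := r0 x
      rw [e, max_eq_right h, div_self (by linarith)] at e1
      linarith [(h1 i).1, (h1 i).2]
  refine ⟨_, map_In hg.continuousOn r4 hv, map (f ∘ r) w, map_In' hg hw, ?_⟩
  have e1 : map (f ∘ r) (dsk F2) = map f (dsk F2) :=
    map_congr (fun x hx => congrArg f (r3 x hx)) (dsk_In F2)
  have e2 : ∀ i, map (f ∘ r) (map (fun x => a i + ρ i * x) (dsk F2)) =
      map (fun x => f (a i + ρ i * x)) (dsk F2) := fun i => by
    rw [map_map' (by fun_prop)]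
    refine map_congr (fun x hx => congrArg f (r3 _ ?_)) (dsk_In F2)
    rw [mem_closedBall_zero_iff] at hx ⊢
    have e3 := norm_add_le (a i) (ρ i * x)
    rw [norm_mul, norm_real, Real.norm_of_nonneg (h1 i).1.le] at e3
    nlinarith [(h1 i).1, (h1 i).2]
  rw [map_sub, map_sub, map_sum, e1, map_D' hg]
  simp only [e2]
  abel

end Pool.Agent.Lib.MP_45bb13_gt
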