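import Pool.Agent.Lib.MP_45bb13_gt.Basic

/-! Identities between the charts of the cap. -/

set_option linter.unusedSectionVars false

namespace Pool.Agent.Lib.MP_45bb13_gt

open Set Filter Topology Complex
open scoped ComplexConjugate

variable {p q : CC} {k k' : Bool × Bool}

lemma KR.domK (h : KR p q) (hp : p ∈ domK) : q ∈ domK := by
  obtain ⟨ε, a, b, h0, h1, h2⟩ := h
  rcases hp with hp | ⟨hp1, hp2⟩
  · left
    rw [h2]
    rcases h0 with rfl | rfl <;> simpa using hp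
  · right
    refine ⟨fun a' b' h => ?_, fun b' h => ?_⟩
    · rw [h1] at h
      rcases h0 with rfl | rfl
      · refine hp1 (a' - 2 * a) (b' - 2 * b) ?_
        push_cast at h ⊢
        linear_combination h
      · refine hp1 (2 * a - a') (2 * b - b') ?_
        push_cast at h ⊢
        linear_combination -h
    · rw [h1] at h
      rcases h0 with rfl | rfl
      · refine hp2 (b' - 2 * b) ?_
        simp at h
        push_cast
        linarith
      · refine hp2 (2 * b - b' - 1) ?_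
        simp at h
        push_cast
        linarith

lemma KR.norm (h : KR p q) : ‖q.2‖ = ‖p.2‖ := by
  obtain ⟨ε, a, b, h0, h1, h2⟩ := h
  rw [h2]
  rcases h0 with rfl | rfl <;> simp

lemma domK_of_ne (h : p.2 ≠ 0) : p ∈ domK := Or.inl h

lemma isOpen_domK : IsOpen domK := by
  have hZ : IsClosed (range ((↑) : ℤ → ℝ)) := Int.isClosedEmbedding_coe_real.isClosed_range
  have h1 : IsClosed {p : CC | 2 * p.1.re ∈ range ((↑) : ℤ → ℝ)} := hZ.preimage (by fun_prop)
  have h2 : IsClosed {p : CC | 2 * p.1.im ∈ range ((↑) : ℤ → ℝ)} := hZ.preimage (by fun_prop)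
  have h3 : IsClosed {p : CC | (4 * p.1.im - 1) / 2 ∈ range ((↑) : ℤ → ℝ)} :=
    hZ.preimage (by fun_prop)
  have h4 : IsOpen {p : CC | p.2 ≠ 0} := isOpen_ne_fun (by fun_prop) (by fun_prop)
  convert h4.union ((h1.inter h2).isOpen_compl.inter h3.isOpen_compl) using 1
  ext p
  refine or_congr Iff.rfl (and_congr ⟨fun h ⟨⟨a, ha⟩, ⟨b, hb⟩⟩ => h a b ?_, fun h a b e => h ?_⟩
    ⟨fun h ⟨b, hb⟩ => h b ?_, fun h b e => h ⟨b, ?_⟩⟩)
  · exact Complex.ext (by simp [ha]) (by simp [hb])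
  · exact ⟨⟨a, by simpa using (congrArg Complex.re e).symm⟩,
      ⟨b, by simpa using (congrArg Complex.im e).symm⟩⟩
  · linarith
  · linarith

lemma kap_congr (h : KR p q) : kap p = kap q := by
  by_cases hp : p ∈ domK
  · rw [kap, kap, dif_pos hp, dif_pos (h.domK hp)]
    exact congrArg N.o (Quotient.sound h)
  · rw [kap, kap, dif_neg hp, dif_neg fun hq => hp (h.symm.domK hq)]

lemma kap_eq_iff (hp : p ∈ domK) (hq : q ∈ domK) : kap p = kap q ↔ KR p q := by
  refine ⟨fun h => ?_, kap_congr⟩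
  rw [kap, kap, dif_pos hp, dif_pos hq] at h
  exact Quotient.exact (N.o.inj h)

lemma rep_kap (hp : p ∈ domK) : KR p (rep (kap p)) := by
  rw [kap, dif_pos hp]
  exact KR.symm (Quotient.exact (Quotient.out_eq (Quotient.mk kS ⟨p, hp⟩)))

lemma kap_ne_e (hp : p ∈ domK) (k : Bool × Bool) (l : Option ℂ) : kap p ≠ .e k l := by
  rw [kap, dif_pos hp]
  exact fun h => N.noConfusion h

lemma kap_ne_s (hp : p ∈ domK) (v : S2) : kap p ≠ .s v := by
  rw [kap, dif_pos hp]
  exact fun h => N.noConfusion h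

lemma N.cases (n : N) : (∃ p ∈ domK, n = kap p) ∨ (∃ k l, n = .e k l) ∨ ∃ v, n = .s v := by
  cases n with
  | o q =>
    obtain ⟨⟨p, hp⟩, rfl⟩ := Quotient.exists_rep q
    exact .inl ⟨p, hp, by rw [kap, dif_pos hp]⟩
  | e k l => exact .inr (.inl ⟨k, l, rfl⟩)
  | s v => exact .inr (.inr ⟨v, rfl⟩)

/-- A fundamental domain. -/
lemma exists_KR (p : CC) : ∃ q, KR p q ∧ q.1.re ∈ Ico (0 : ℝ) 1 ∧ q.1.im ∈ Icc (0 : ℝ) (1 / 2) := by
  have h0 := Int.fract_nonneg p.1.im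
  have h1 := Int.fract_lt_one p.1.im
  by_cases h : Int.fract p.1.im ≤ 1 / 2
  · refine ⟨(⟨Int.fract p.1.re, Int.fract p.1.im⟩, p.2), ⟨1, -⌊p.1.re⌋, -⌊p.1.im⌋, .inl rfl, ?_,
      by simp⟩, ⟨Int.fract_nonneg _, Int.fract_lt_one _⟩, h0, h⟩
    refine Complex.ext ?_ ?_ <;> simp [Int.fract, sub_eq_add_neg]
  · refine ⟨(⟨Int.fract (-p.1.re), 1 - Int.fract p.1.im⟩, -p.2),
      ⟨-1, -⌊-p.1.re⌋, ⌊p.1.im⌋ + 1, .inr rfl, ?_, by simp⟩,
      ⟨Int.fract_nonneg _, Int.fract_lt_one _⟩, ?_, ?_⟩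
    · refine Complex.ext ?_ ?_
      · simp [Int.fract, sub_eq_add_neg]
      · simp [-Int.self_sub_floor, Int.fract]
        ring
    · change 0 ≤ 1 - Int.fract p.1.im
      linarith
    · change 1 - Int.fract p.1.im ≤ 1 / 2
      linarith

lemma wabs_kap (p : CC) : wabs (kap p) = ‖p.2‖ := by
  by_cases hp : p ∈ domK
  · exact (rep_kap hp).norm
  · have h : p.2 = 0 := by
      by_contra h
      exact hp (domK_of_ne h)
    rw [kap, dif_neg hp, h]
    simp [wabs, rep]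

lemma wabs_e (k : Bool × Bool) (l : Option ℂ) : wabs (.e k l) = 0 := by simp [wabs, rep]

lemma wabs_s (v : S2) : wabs (.s v) = 0 := by simp [wabs, rep]

lemma wabs_nonneg (n : N) : 0 ≤ wabs n := norm_nonneg _

lemma exists_pw {n : N} (h : 0 < wabs n) : ∃ u t, n = kap (pw (u, wabs n, t)) := by
  rcases n.cases with ⟨p, -, rfl⟩ | ⟨k, l, rfl⟩ | ⟨v, rfl⟩
  · refine ⟨p.1, 2 * ang p.2, ?_⟩
    rw [wabs_kap, pw]
    simp only [mul_div_cancel_left₀ (ang p.2) (two_ne_zero (α := ℝ)), norm_mul_ee_ang]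
  · rw [wabs_e] at h
    exact absurd h (lt_irrefl _)
  · rw [wabs_s] at h
    exact absurd h (lt_irrefl _)

lemma rt_sq (ω : ℂ) : rt ω ^ 2 = ω := Complex.cpow_ofNat_inv_pow ω 2

lemma box_iff (u : ℂ) : box (u ^ 2) ↔ |u.re| < 1 / 2 ∧ |u.im| < 1 / 4 := by
  have h1 : ‖u ^ 2‖ = u.re ^ 2 + u.im ^ 2 := by
    rw [norm_pow, ← normSq_eq_norm_sq, normSq_apply]
    ring
  have h2 : (u ^ 2).re = u.re ^ 2 - u.im ^ 2 := by
    rw [sq, mul_re]
    ring
  rw [box, h1, h2, ← sq_lt_sq₀ (abs_nonneg _) (by norm_num : (0 : ℝ) ≤ 1 / 2),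
    ← sq_lt_sq₀ (abs_nonneg _) (by norm_num : (0 : ℝ) ≤ 1 / 4), sq_abs, sq_abs]
  constructor <;> rintro ⟨h, h'⟩ <;> constructor <;> linarith

lemma box_of_norm {x : ℂ} (h : ‖x‖ < 1 / 16) : box x := by
  have h1 := abs_le.1 (abs_re_le_norm x)
  constructor <;> linarith [h1.1, h1.2]

lemma box_smul {x : ℂ} (h : box x) {s : ℝ} (h0 : 0 ≤ s) (h1 : s ≤ 1) : box (s * x) := by
  have h2 := abs_le.1 (abs_re_le_norm x)
  have h3 : ‖(s : ℂ) * x‖ = s * ‖x‖ := by rw [norm_mul, norm_real, Real.norm_of_nonneg h0]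
  have h4 : ((s : ℂ) * x).re = s * x.re := re_ofReal_mul s x
  obtain ⟨h5, h6⟩ := h
  rw [box, h3, h4]
  constructor <;> nlinarith [h2.1, h2.2]

lemma isOpen_box : IsOpen {x | box x} :=   (isOpen_lt (f := fun x : ℂ => ‖x‖ + x.re) (by fun_prop) continuous_const).inter
    (isOpen_lt (f := fun x : ℂ => ‖x‖ - x.re) (by fun_prop) continuous_const)

lemma isOpen_domL : IsOpen domL := isOpen_box.preimage (f := fun p : CC => p.1 ^ 2 * p.2) (by fun_prop)

lemma isOpen_domM : IsOpen domM := isOpen_box.preimage continuous_snd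

lemma isOpen_domS : IsOpen domS := isOpen_lt (by fun_prop) continuous_const

lemma continuous_st (σ : Bool) : Continuous (st σ) := by
  have h : ∀ b : ℂ, 1 + normSq b ≠ 0 := fun b => by have := normSq_nonneg b; positivity
  have hc : Continuous fun b : ℂ => normSq b := continuous_normSq
  refine Continuous.subtype_mk (Continuous.prodMk (continuous_const.mul
    (Continuous.div (by fun_prop) (by fun_prop) h)) (Continuous.mul (continuous_ofReal.comp
    (Continuous.div (by fun_prop) (by fun_prop) h)) continuous_id)) _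

lemma continuous_gn (σ : Bool) : Continuous (gn σ) := by
  have h : ∀ b : ℂ, √(1 + normSq b) ≠ 0 := fun b => by have := normSq_nonneg b; positivity
  have hc : Continuous fun b : ℂ => normSq b := continuous_normSq
  refine Continuous.subtype_mk (Continuous.prodMk
    (Continuous.div (by fun_prop) (by fun_prop) h) (Continuous.mul (continuous_ofReal.comp
    (Continuous.div (by fun_prop) (by fun_prop) h)) continuous_id)) _

lemma neqa_u0 (k : Bool × Bool) : ∃ c d : ℤ, 2 * (u0 k).re = c ∧ 2 * (u0 k).im = d := by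
  refine ⟨if k.1 then 1 else 0, if k.2 then 1 else 0, ?_, ?_⟩ <;> simp only [u0] <;>
    split_ifs <;> simp

lemma neqa_int {a : ℤ} (h1 : -1 < (a : ℝ)) (h2 : (a : ℝ) < 1) : a = 0 := by
  have h3 : -1 < a := by exact_mod_cast h1
  have h4 : a < 1 := by exact_mod_cast h2
  omega

lemma box_domK {u : ℂ} (h : box (u ^ 2)) (h0 : u ≠ 0) (k : Bool × Bool) (w : ℂ) :
    (u0 k + u, w) ∈ domK := by
  obtain ⟨c, d, hc, hd⟩ := neqa_u0 k
  obtain ⟨h1, h2⟩ := (box_iff u).1 h
  rw [abs_lt] at h1 h2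
  refine .inr ⟨fun a b e => h0 ?_, fun b e => ?_⟩
  · have e1 := congrArg Complex.re e
    have e2 := congrArg Complex.im e
    simp at e1 e2
    have f1 : a - c = 0 := neqa_int (by push_cast; linarith) (by push_cast; linarith)
    have f2 : b - d = 0 := neqa_int (by push_cast; linarith) (by push_cast; linarith)
    have g1 : (a : ℝ) = c := by exact_mod_cast sub_eq_zero.1 f1
    have g2 : (b : ℝ) = d := by exact_mod_cast sub_eq_zero.1 f2
    exact Complex.ext (by simp; linarith) (by simp; linarith)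
  · simp at e
    have f1 : 2 * b + 1 - 2 * d = 0 := neqa_int (by push_cast; linarith) (by push_cast; linarith)
    omega

/-- Two points of the boxes are identified only in the obvious way. -/
lemma KR_box {u u' w w' : ℂ} (h : box (u ^ 2)) (h' : box (u' ^ 2))
    (e : KR (u0 k + u, w) (u0 k + u', w')) : (u' = u ∧ w' = w) ∨ (u' = -u ∧ w' = -w) := by
  obtain ⟨c, d, hc, hd⟩ := neqa_u0 k
  obtain ⟨h1, h2⟩ := (box_iff u).1 h
  obtain ⟨h3, h4⟩ := (box_iff u').1 h'
  rw [abs_lt] at h1 h2 h3 h4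
  obtain ⟨ε, a, b, h0, e1, e2⟩ := e
  have e3 := congrArg Complex.re e1
  have e4 := congrArg Complex.im e1
  rcases h0 with rfl | rfl
  · simp at e2 e3 e4
    have f1 : a = 0 := neqa_int (by linarith) (by linarith)
    have f2 : b = 0 := neqa_int (by linarith) (by linarith)
    subst f1 f2
    exact .inl ⟨Complex.ext (by simpa using e3) (by simpa using e4), e2⟩
  · simp at e2 e3 e4
    have f1 : a - c = 0 := neqa_int (by push_cast; linarith) (by push_cast; linarith)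
    have f2 : b - d = 0 := neqa_int (by push_cast; linarith) (by push_cast; linarith)
    have g1 : (a : ℝ) = c := by exact_mod_cast sub_eq_zero.1 f1
    have g2 : (b : ℝ) = d := by exact_mod_cast sub_eq_zero.1 f2
    exact .inr ⟨Complex.ext (by simp; linarith) (by simp; linarith), e2⟩

lemma KR_neg (k : Bool × Bool) (u w : ℂ) : KR (u0 k + u, w) (u0 k + -u, -w) := by
  obtain ⟨c, d, hc, hd⟩ := neqa_u0 k
  refine ⟨-1, c, d, .inr rfl, Complex.ext ?_ ?_, by simp⟩ <;> simp <;> linarith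

lemma lam_eq (k : Bool × Bool) (l : ℂ) {w : ℂ} (h : w ≠ 0) :
    lam k (l, w ^ 2) = kap (u0 k + l * w, w) := by
  rw [lam, if_neg (pow_ne_zero 2 h)]
  rcases sq_eq_sq_iff_eq_or_eq_neg.1 (rt_sq (w ^ 2)) with e | e
  · simp only [e]
  · simp only [e, mul_neg]
    exact (kap_congr (KR_neg k _ _)).symm

lemma lam_zero (k : Bool × Bool) (l : ℂ) : lam k (l, 0) = .e k (some l) := by rw [lam, if_pos rfl]

lemma mu_eq (k : Bool × Bool) (m : ℂ) {v : ℂ} (h : v ≠ 0) :
    mu k (m, v ^ 2) = kap (u0 k + v, m * v) := by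
  rw [mu, if_neg (pow_ne_zero 2 h)]
  rcases sq_eq_sq_iff_eq_or_eq_neg.1 (rt_sq (v ^ 2)) with e | e
  · simp only [e]
  · simp only [e, mul_neg]
    exact (kap_congr (KR_neg k _ _)).symm

lemma mu_zero (k : Bool × Bool) : mu k (0, 0) = .e k none := by rw [mu, if_pos rfl, if_pos rfl]

lemma neqa_sq (ω : ℂ) : ω = 0 ∨ ∃ w, w ≠ 0 ∧ ω = w ^ 2 := by
  by_cases h : ω = 0
  · exact .inl h
  · refine .inr ⟨rt ω, fun e => h ?_, (rt_sq ω).symm⟩
    rw [← rt_sq ω, e]
    simp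

open Classical in
lemma neqa_mu0 (k : Bool × Bool) (m : ℂ) :
    mu k (m, 0) = .e k (if m = 0 then none else some m⁻¹) := by rw [mu, if_pos rfl]

lemma lam_mu (k : Bool × Bool) {l : ℂ} (h : l ≠ 0) (ω : ℂ) :
    lam k (l, ω) = mu k (l⁻¹, l ^ 2 * ω) := by
  rcases neqa_sq ω with rfl | ⟨w, hw, rfl⟩
  · rw [lam_zero, mul_zero, neqa_mu0, if_neg (inv_ne_zero h), inv_inv]
  · rw [lam_eq k l hw, ← mul_pow, mu_eq k _ (mul_ne_zero h hw), inv_mul_cancel_left₀ h]

lemma lam_eq_mu_iff (hp : p ∈ domL) (hq : q ∈ domM) :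
    lam k p = mu k q ↔ p.1 ≠ 0 ∧ q = (p.1⁻¹, p.1 ^ 2 * p.2) := by
  obtain ⟨l, ω⟩ := p
  obtain ⟨m, ν⟩ := q
  refine ⟨fun h => ?_, fun ⟨h1, h2⟩ => h2 ▸ lam_mu k h1 ω⟩
  change box (l ^ 2 * ω) at hp
  change box ν at hq
  change l ≠ 0 ∧ (m, ν) = (l⁻¹, l ^ 2 * ω)
  rcases neqa_sq ω with rfl | ⟨w, hw, rfl⟩ <;> rcases neqa_sq ν with rfl | ⟨v, hv, rfl⟩
  · rw [lam_zero, neqa_mu0] at h
    have h1 := (N.e.inj h).2
    split_ifs at h1 with hm
    obtain rfl := Option.some.inj h1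
    exact ⟨inv_ne_zero hm, by simp⟩
  · rw [lam_zero, mu_eq k m hv] at h
    exact absurd h.symm (kap_ne_e (box_domK hq hv k _) _ _)
  · rw [lam_eq k l hw, neqa_mu0] at h
    exact absurd h (kap_ne_e (domK_of_ne hw) _ _)
  · rw [lam_eq k l hw, mu_eq k m hv, kap_eq_iff (domK_of_ne hw) (box_domK hq hv k _)] at h
    rw [← mul_pow] at hp
    have hl : l ≠ 0 := by
      rintro rfl
      rcases KR_box hp hq h with ⟨e, -⟩ | ⟨e, -⟩ <;> exact hv (by simpa using e)
    refine ⟨hl, ?_⟩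
    rcases KR_box hp hq h with ⟨rfl, e⟩ | ⟨rfl, e⟩
    · refine Prod.ext (eq_inv_of_mul_eq_one_left (mul_right_cancel₀ hw ?_)) (mul_pow _ _ _)
      linear_combination e
    · refine Prod.ext (eq_inv_of_mul_eq_one_left (mul_right_cancel₀ hw ?_)) (by ring)
      linear_combination -e

lemma lam_injOn (k : Bool × Bool) : InjOn (lam k) domL := by
  rintro ⟨l, ω⟩ hp ⟨m, ν⟩ hq h
  change box (l ^ 2 * ω) at hp
  change box (m ^ 2 * ν) at hq
  rcases neqa_sq ω with rfl | ⟨w, hw, rfl⟩ <;> rcases neqa_sq ν with rfl | ⟨v, hv, rfl⟩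
  · rw [lam_zero, lam_zero] at h
    rw [Option.some.inj (N.e.inj h).2]
  · rw [lam_zero, lam_eq k m hv] at h
    exact absurd h.symm (kap_ne_e (domK_of_ne hv) _ _)
  · rw [lam_zero, lam_eq k l hw] at h
    exact absurd h (kap_ne_e (domK_of_ne hw) _ _)
  · rw [lam_eq k l hw, lam_eq k m hv, kap_eq_iff (domK_of_ne hw) (domK_of_ne hv)] at h
    rw [← mul_pow] at hp hq
    rcases KR_box hp hq h with ⟨e, rfl⟩ | ⟨e, rfl⟩
    · rw [mul_right_cancel₀ hw e]
    · refine Prod.ext (mul_right_cancel₀ hw ?_) (by ring)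
      linear_combination e

lemma mu_injOn (k : Bool × Bool) : InjOn (mu k) domM := by
  rintro ⟨l, ω⟩ hp ⟨m, ν⟩ hq h
  change box ω at hp
  change box ν at hq
  rcases neqa_sq ω with rfl | ⟨w, hw, rfl⟩ <;> rcases neqa_sq ν with rfl | ⟨v, hv, rfl⟩
  · rw [neqa_mu0, neqa_mu0] at h
    have h1 := (N.e.inj h).2
    split_ifs at h1 with hl hm
    · rw [hl, hm]
    · rw [inv_injective (Option.some.inj h1)]
  · rw [neqa_mu0, mu_eq k m hv] at h
    exact absurd h.symm (kap_ne_e (box_domK hq hv k _) _ _)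
  · rw [neqa_mu0, mu_eq k l hw] at h
    exact absurd h (kap_ne_e (box_domK hp hw k _) _ _)
  · rw [mu_eq k l hw, mu_eq k m hv, kap_eq_iff (box_domK hp hw k _) (box_domK hq hv k _)] at h
    rcases KR_box hp hq h with ⟨rfl, e⟩ | ⟨rfl, e⟩
    · rw [mul_right_cancel₀ hw e]
    · refine Prod.ext (mul_right_cancel₀ hw ?_) (by ring)
      linear_combination e

lemma wabs_lam (k : Bool × Bool) (p : CC) : wabs (lam k p) ^ 2 = ‖p.2‖ := by
  obtain ⟨l, ω⟩ := p
  rcases neqa_sq ω with rfl | ⟨w, hw, rfl⟩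
  · simp [lam_zero, wabs_e]
  · rw [lam_eq k l hw, wabs_kap, norm_pow]

lemma wabs_mu (k : Bool × Bool) (p : CC) : wabs (mu k p) ^ 2 = ‖p.1‖ ^ 2 * ‖p.2‖ := by
  obtain ⟨l, ω⟩ := p
  rcases neqa_sq ω with rfl | ⟨w, hw, rfl⟩
  · simp [neqa_mu0, wabs_e]
  · rw [mu_eq k l hw, wabs_kap, norm_pow, norm_mul, mul_pow]

end Pool.Agent.Lib.MP_45bb13_gt
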