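import Pool.Agent.Lib.MP_45bb13_gt.Basic
import Pool.Agent.Lib.MP_45bb13_gt.Loc
import Pool.Agent.Lib.MP_45bb13_gt.NEqA

/-! A winding function and a chart of the sphere. -/

set_option linter.unusedSectionVars false

namespace Pool.Agent.Lib.MP_45bb13_gt

open Set Filter Topology Complex
open scoped ComplexConjugate

/-- The direction of a complex number. -/
private noncomputable def embA_un (z : ℂ) : Circle := Circle.exp (arg z)

private lemma embA_un_coe {z : ℂ} (hz : z ≠ 0) : (embA_un z : ℂ) = z / ‖z‖ := by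
  have h : ((‖z‖ : ℝ) : ℂ) ≠ 0 := by exact_mod_cast norm_ne_zero_iff.2 hz
  rw [eq_div_iff h, embA_un, Circle.coe_exp, mul_comm]
  exact norm_mul_exp_arg_mul_I z

private lemma embA_un_cont {z : ℂ} (hz : z ≠ 0) : ContinuousAt embA_un z := by
  have hi : IsInducing (fun u : Circle => (u : ℂ)) := IsInducing.subtypeVal
  rw [hi.continuousAt_iff]
  have h : ((‖z‖ : ℝ) : ℂ) ≠ 0 := by exact_mod_cast norm_ne_zero_iff.2 hz
  have hc : ContinuousAt (fun w : ℂ => w / ((‖w‖ : ℝ) : ℂ)) z :=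
    continuousAt_id.div (continuous_ofReal.comp continuous_norm).continuousAt h
  refine hc.congr ?_
  filter_upwards [isOpen_ne.mem_nhds hz] with w hw
  exact (embA_un_coe hw).symm

private lemma embA_un_pol {s c : ℝ} {u : Circle} (hs : 0 < s) (hu : (u : ℂ) = ee c) :
    embA_un (s * ee c) = u := by
  have h0 : (s : ℂ) ≠ 0 := by exact_mod_cast hs.ne'
  refine Circle.ext ?_
  rw [embA_un_coe (mul_ne_zero h0 (ee_ne_zero c)), hu, norm_mul, norm_ee, mul_one, norm_real,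
    Real.norm_of_nonneg hs.le, mul_div_cancel_left₀ _ h0]

private lemma embA_cont_on {f : ℂ → ℂ} {S : Set ℂ} (hf : Continuous f) (h : ∀ y ∈ S, f y ≠ 0) :
    ContinuousOn (fun y => embA_un (f y)) S := fun y hy =>
  (ContinuousAt.comp (embA_un_cont (h y hy)) hf.continuousAt).continuousWithinAt

theorem exists_wind {β₁ β₂ : ℂ} {m ρ : ℝ} (h12 : β₁ ≠ β₂) (h1 : ‖β₁ - m‖ < ρ) (h2 : ‖β₂ - m‖ < ρ) :
    ∃ (Θ a₁ a₂ : ℂ → Circle) (δ : ℝ), 0 < δ ∧ ContinuousOn Θ {β₁, β₂}ᶜ ∧
      (∀ y : ℂ, ρ - δ ≤ ‖y - m‖ → Θ y = 1) ∧ ContinuousOn a₁ (Metric.ball β₁ δ) ∧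
      ContinuousOn a₂ (Metric.ball β₂ δ) ∧ ∀ (s c : ℝ) (u : Circle), 0 < s → s < δ →
        (u : ℂ) = ee c → Θ (β₁ + s * ee c) = u * a₁ (β₁ + s * ee c) ∧
          Θ (β₂ + s * ee c) = u⁻¹ * a₂ (β₂ + s * ee c) := by
  obtain ⟨R, hR1, hR2, hR⟩ : ∃ R : ℝ, ‖β₁ - m‖ ≤ R ∧ ‖β₂ - m‖ ≤ R ∧ R < ρ :=
    ⟨max ‖β₁ - m‖ ‖β₂ - m‖, le_max_left _ _, le_max_right _ _, max_lt h1 h2⟩
  obtain ⟨g, hg, hgR⟩ : ∃ g : ℝ, 0 < g ∧ ρ = R + 3 * g := ⟨(ρ - R) / 3, by linarith, by ring⟩
  have hd : 0 < ‖β₁ - β₂‖ := norm_pos_iff.2 (sub_ne_zero.2 h12)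
  obtain ⟨l, hlc, hl0, hl1, hlone, hlzero⟩ : ∃ l : ℂ → ℝ, Continuous l ∧ (∀ y, 0 ≤ l y) ∧
      (∀ y, l y ≤ 1) ∧ (∀ y : ℂ, ‖y - m‖ ≤ R + g → l y = 1) ∧
      ∀ y : ℂ, R + 2 * g ≤ ‖y - m‖ → l y = 0 := by
    refine ⟨fun y => max 0 (min 1 ((R + 2 * g - ‖y - m‖) / g)), by fun_prop,
      fun y => le_max_left _ _, fun y => max_le zero_le_one (min_le_left _ _), fun y hy => ?_,
      fun y hy => ?_⟩
    · have : 1 ≤ (R + 2 * g - ‖y - m‖) / g := by rw [le_div_iff₀ hg]; linarith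
      simp only [min_eq_left this, max_eq_right zero_le_one]
    · have : (R + 2 * g - ‖y - m‖) / g ≤ 0 := div_nonpos_of_nonpos_of_nonneg (by linarith) hg.le
      exact max_eq_left ((min_le_right _ _).trans this)
  have hne : ∀ β : ℂ, ‖β - m‖ ≤ R → ∀ y, y ≠ β → y - m - l y * (β - m) ≠ 0 := by
    intro β hβ y hy h
    by_cases hc : ‖y - m‖ ≤ R + g
    · rw [hlone y hc] at h
      apply hy
      push_cast at h
      linear_combination h
    · have e : y - m = l y * (β - m) := by linear_combination h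
      have : ‖y - m‖ ≤ R := by
        rw [e, norm_mul, norm_real, Real.norm_of_nonneg (hl0 y)]
        nlinarith [hl0 y, hl1 y, norm_nonneg (β - m)]
      linarith
  have hin : ∀ β : ℂ, ‖β - m‖ ≤ R → ∀ s c : ℝ, 0 < s → s < g → l (β + s * ee c) = 1 := by
    intro β hβ s c hs hs'
    apply hlone
    have e : β + s * ee c - m = (β - m) + s * ee c := by ring
    have : ‖(s : ℂ) * ee c‖ = s := by
      rw [norm_mul, norm_ee, mul_one, norm_real, Real.norm_of_nonneg hs.le]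
    rw [e]
    linarith [norm_add_le (β - m) (s * ee c)]
  refine ⟨fun y => embA_un (y - m - l y * (β₁ - m)) * (embA_un (y - m - l y * (β₂ - m)))⁻¹,
    fun y => (embA_un (y - β₂))⁻¹, fun y => embA_un (y - β₁), min g ‖β₁ - β₂‖, lt_min hg hd,
    ?_, fun y hy => ?_, ?_, ?_, fun s c u hs hs' hu => ?_⟩
  · refine ContinuousOn.mul (embA_cont_on (by fun_prop) fun y hy => hne _ hR1 y ?_)
      (ContinuousOn.inv (embA_cont_on (by fun_prop) fun y hy => hne _ hR2 y ?_))
    · exact fun h => hy (by simp [h])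
    · exact fun h => hy (by simp [h])
  · have : l y = 0 := hlzero y (by linarith [min_le_left g ‖β₁ - β₂‖])
    simp [this]
  · refine ContinuousOn.inv (embA_cont_on (by fun_prop) fun y hy h => ?_)
    rw [sub_eq_zero.1 h, Metric.mem_ball, dist_comm, dist_eq_norm] at hy
    exact absurd hy (not_lt.2 (min_le_right _ _))
  · refine embA_cont_on (by fun_prop) fun y hy h => ?_
    rw [sub_eq_zero.1 h, Metric.mem_ball, dist_eq_norm] at hy
    exact absurd hy (not_lt.2 (min_le_right _ _))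
  · have hsg : s < g := hs'.trans_le (min_le_left _ _)
    constructor
    · simp only [hin _ hR1 s c hs hsg]
      rw [show β₁ + s * ee c - m - ((1 : ℝ) : ℂ) * (β₁ - m) = s * ee c by push_cast; ring,
        show β₁ + s * ee c - m - ((1 : ℝ) : ℂ) * (β₂ - m) = β₁ + s * ee c - β₂ by push_cast; ring,
        embA_un_pol hs hu]
    · simp only [hin _ hR2 s c hs hsg]
      rw [show β₂ + s * ee c - m - ((1 : ℝ) : ℂ) * (β₂ - m) = s * ee c by push_cast; ring,
        show β₂ + s * ee c - m - ((1 : ℝ) : ℂ) * (β₁ - m) = β₂ + s * ee c - β₁ by push_cast; ring,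
        embA_un_pol hs hu, mul_comm]

/-- The inverse of the latitude chart. -/
private noncomputable def embA_inv (ζ : ℂ) : S2 :=
  ⟨(ζ.re / √(1 + ζ.re ^ 2), ((1 / √(1 + ζ.re ^ 2) : ℝ) : ℂ) * ee (ζ.im / 2)), by
    have h : 0 < 1 + ζ.re ^ 2 := by positivity
    have h2 := Real.sq_sqrt h.le
    have h3 := (Real.sqrt_pos.2 h).ne'
    simp only [div_pow, map_mul, normSq_ofReal, normSq_ee]
    field_simp
    rw [h2]
    ring⟩

private lemma embA_ang {x : ℂ} (hx : 0 < x.im) : 0 < ang x ∧ ang x < 1 / 2 := by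
  have h0 : 0 < arg x := lt_of_le_of_ne (arg_nonneg_iff.2 hx.le) fun h => by
    have := (arg_eq_zero_iff.1 h.symm).2
    linarith
  have h1 : arg x < Real.pi := arg_lt_pi_iff.2 (Or.inr hx.ne')
  have hp := Real.pi_pos
  unfold ang
  refine ⟨by positivity, ?_⟩
  rw [div_lt_iff₀ (by positivity)]
  linarith

theorem exists_lat : ∃ χ : OpenPartialHomeomorph S2 ℂ, χ.source = {s | 0 < s.1.2.im} ∧
    χ.target = {ζ | 0 < ζ.im ∧ ζ.im < 1} ∧ ∀ s, χ s = ⟨s.1.1 / ‖s.1.2‖, 2 * ang s.1.2⟩ := by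
  have hpos : ∀ ζ : ℂ, 0 < 1 / √(1 + ζ.re ^ 2) := fun ζ => by
    have h : 0 < 1 + ζ.re ^ 2 := by positivity
    exact one_div_pos.2 (Real.sqrt_pos.2 h)
  refine ⟨{ toFun := fun s => ⟨s.1.1 / ‖s.1.2‖, 2 * ang s.1.2⟩
            invFun := embA_inv
            source := {s | 0 < s.1.2.im}
            target := {ζ | 0 < ζ.im ∧ ζ.im < 1}
            map_source' := fun s hs => ?_
            map_target' := fun ζ hζ => ?_
            left_inv' := fun s hs => ?_
            right_inv' := fun ζ hζ => ?_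
            open_source := isOpen_lt continuous_const (by fun_prop)
            open_target := (isOpen_lt continuous_const continuous_im).inter
              (isOpen_lt continuous_im continuous_const)
            continuousOn_toFun := fun s hs => ?_
            continuousOn_invFun := ?_ }, rfl, rfl, fun s => rfl⟩
  · have := embA_ang hs
    exact ⟨by simp only; linarith [this.1], by simp only; linarith [this.2]⟩
  · show 0 < (((1 / √(1 + ζ.re ^ 2) : ℝ) : ℂ) * ee (ζ.im / 2)).im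
    rw [im_ofReal_mul, ee_im]
    refine mul_pos (hpos ζ) (Real.sin_pos_of_pos_of_lt_pi ?_ ?_)
    · have := hζ.1
      have := Real.pi_pos
      positivity
    · nlinarith [hζ.2, Real.pi_pos]
  · obtain ⟨⟨a, w⟩, hs2⟩ := s
    have hw : w ≠ 0 := fun h => by simp [h] at hs
    have hn : 0 < ‖w‖ := norm_pos_iff.2 hw
    have hs3 : a ^ 2 + ‖w‖ ^ 2 = 1 := by rw [← normSq_eq_norm_sq]; exact hs2
    have hq : √(1 + (a / ‖w‖) ^ 2) = 1 / ‖w‖ := by
      rw [Real.sqrt_eq_iff_mul_self_eq (by positivity) (by positivity)]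
      field_simp
      linarith
    refine Subtype.ext (Prod.ext ?_ ?_)
    · show a / ‖w‖ / √(1 + (a / ‖w‖) ^ 2) = a
      rw [hq]
      field_simp
    · show ((1 / √(1 + (a / ‖w‖) ^ 2) : ℝ) : ℂ) * ee (2 * ang w / 2) = w
      rw [hq, one_div_one_div, mul_div_cancel_left₀ _ two_ne_zero, norm_mul_ee_ang]
  · refine Complex.ext ?_ ?_
    · show ζ.re / √(1 + ζ.re ^ 2) / ‖((1 / √(1 + ζ.re ^ 2) : ℝ) : ℂ) * ee (ζ.im / 2)‖ = ζ.re
      have h : 0 < 1 + ζ.re ^ 2 := by positivity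
      have h3 := (Real.sqrt_pos.2 h).ne'
      rw [norm_mul, norm_ee, mul_one, norm_real, Real.norm_of_nonneg (hpos ζ).le]
      field_simp
    · show 2 * ang (((1 / √(1 + ζ.re ^ 2) : ℝ) : ℂ) * ee (ζ.im / 2)) = ζ.im
      rw [ang_ee (hpos ζ) ⟨by linarith [hζ.1], by linarith [hζ.2]⟩]
      ring
  · have hs' : 0 < s.1.2.im := hs
    have hw : s.1.2 ≠ 0 := fun h => by simp [h] at hs'
    have hc : Continuous fun s : S2 => s.1.2 := by fun_prop
    refine (continuousAt_mk ?_ ?_).continuousWithinAt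
    · exact ContinuousAt.div (by fun_prop) (by fun_prop) (norm_ne_zero_iff.2 hw)
    · exact continuousAt_const.mul (ContinuousAt.comp (f := fun s : S2 => s.1.2)
        (continuousAt_ang (Or.inr hs'.ne')) hc.continuousAt)
  · refine Continuous.continuousOn (Continuous.subtype_mk ?_ _)
    have h : ∀ ζ : ℂ, √(1 + ζ.re ^ 2) ≠ 0 := fun ζ =>
      (Real.sqrt_pos.2 (by positivity)).ne'
    refine Continuous.prodMk (Continuous.div (by fun_prop) (by fun_prop) h)
      (Continuous.mul (continuous_ofReal.comp (Continuous.div (by fun_prop) (by fun_prop) h))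
        (by fun_prop))

end Pool.Agent.Lib.MP_45bb13_gt
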