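import Pool.Agent.Lib.MP_45bb13_gt.NMap

/-! Rotations of the belt sphere. -/

set_option linter.unusedSectionVars false

namespace Pool.Agent.Lib.MP_45bb13_gt

open Set Filter Topology Complex
open scoped ComplexConjugate

lemma rot_cc : Continuous fun a : Circle => (a : ℂ) := continuous_subtype_val

lemma rot_sq (a : Circle) : (a : ℂ).re ^ 2 + (a : ℂ).im ^ 2 = 1 := by
  have := Circle.normSq_coe a
  rw [normSq_apply] at this
  linarith

lemma rot_s2 (s : S2) : s.1.1 ^ 2 + s.1.2.re ^ 2 + s.1.2.im ^ 2 = 1 := by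
  have := s.2
  rw [normSq_apply] at this
  linarith

lemma rot_ext {s t : S2} (h0 : s.1.1 = t.1.1) (h1 : s.1.2.re = t.1.2.re)
    (h2 : s.1.2.im = t.1.2.im) : s = t :=
  Subtype.ext (Prod.ext h0 (Complex.ext h1 h2))

/-- A continuous action of the circle as a homomorphism to the group of homeomorphisms. -/
noncomputable def rotHom (f : Circle → S2 → S2) (hf : Continuous fun q : Circle × S2 => f q.1 q.2)
    (h1 : ∀ s, f 1 s = s) (hm : ∀ a b s, f (a * b) s = f a (f b s)) : Circle →* (S2 ≃ₜ S2) where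
  toFun a :=
    { toFun := f a
      invFun := f a⁻¹
      left_inv := fun s => by rw [← hm, inv_mul_cancel, h1]
      right_inv := fun s => by rw [← hm, mul_inv_cancel, h1]
      continuous_toFun := hf.comp (continuous_const.prodMk continuous_id)
      continuous_invFun := hf.comp (continuous_const.prodMk continuous_id) }
  map_one' := Homeomorph.ext h1
  map_mul' a b := Homeomorph.ext (hm a b)

/-- Rotation of the first and second coordinates. -/
noncomputable def rotQ (a : Circle) (s : S2) : S2 :=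
  ⟨((a : ℂ).re * s.1.1 - (a : ℂ).im * s.1.2.re,
    ⟨(a : ℂ).re * s.1.2.re + (a : ℂ).im * s.1.1, s.1.2.im⟩), by
    have h := rot_sq a
    have h' := rot_s2 s
    simp only [normSq_apply]
    linear_combination (s.1.1 ^ 2 + s.1.2.re ^ 2) * h + h'⟩

/-- Rotation of the first and third coordinates. -/
noncomputable def rotP (a : Circle) (s : S2) : S2 :=
  ⟨((a : ℂ).re * s.1.1 - (a : ℂ).im * s.1.2.im,
    ⟨s.1.2.re, (a : ℂ).re * s.1.2.im + (a : ℂ).im * s.1.1⟩), by
    have h := rot_sq a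
    have h' := rot_s2 s
    simp only [normSq_apply]
    linear_combination (s.1.1 ^ 2 + s.1.2.im ^ 2) * h + h'⟩

/-- Rotation of the second and third coordinates. -/
noncomputable def rotR (a : Circle) (s : S2) : S2 :=
  ⟨(s.1.1, (a : ℂ) * s.1.2), by rw [map_mul, Circle.normSq_coe, one_mul]; exact s.2⟩

lemma rotQ_cont : Continuous fun q : Circle × S2 => rotQ q.1 q.2 := by
  have := rot_cc
  refine Continuous.subtype_mk ?_ _
  fun_prop

lemma rotP_cont : Continuous fun q : Circle × S2 => rotP q.1 q.2 := by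
  have := rot_cc
  refine Continuous.subtype_mk ?_ _
  fun_prop

lemma rotR_cont : Continuous fun q : Circle × S2 => rotR q.1 q.2 := by
  have := rot_cc
  refine Continuous.subtype_mk ?_ _
  fun_prop

noncomputable def rotQh : Circle →* (S2 ≃ₜ S2) := rotHom rotQ rotQ_cont
  (fun s => rot_ext (by simp [rotQ]) (by simp [rotQ]) (by simp [rotQ]))
  (fun a b s => rot_ext (by simp [rotQ]; ring) (by simp [rotQ]; ring) (by simp [rotQ]))

noncomputable def rotPh : Circle →* (S2 ≃ₜ S2) := rotHom rotP rotP_cont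
  (fun s => rot_ext (by simp [rotP]) (by simp [rotP]) (by simp [rotP]))
  (fun a b s => rot_ext (by simp [rotP]; ring) (by simp [rotP]) (by simp [rotP]; ring))

noncomputable def rotRh : Circle →* (S2 ≃ₜ S2) := rotHom rotR rotR_cont
  (fun s => Subtype.ext (by simp [rotR]))
  (fun a b s => Subtype.ext (by simp [rotR, mul_assoc]))

/-- The quarter turn, run in part. -/
noncomputable def rotB (σ : Bool) (l : ℝ) : Circle := Circle.exp (sgb σ * (l * (Real.pi / 2)))

lemma rotB_zero (σ : Bool) : rotB σ 0 = 1 := by simp [rotB]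

lemma rotB_re (σ : Bool) : ((rotB σ 1 : Circle) : ℂ).re = 0 := by
  rw [rotB, Circle.coe_exp, exp_ofReal_mul_I_re]
  cases σ <;> simp [sgb]

lemma rotB_im (σ : Bool) : ((rotB σ 1 : Circle) : ℂ).im = sgb σ := by
  rw [rotB, Circle.coe_exp, exp_ofReal_mul_I_im]
  cases σ <;> simp [sgb]

lemma rotB_cont (σ : Bool) : Continuous (rotB σ) :=
  Circle.exp.continuous.comp (by fun_prop)

/-- The contraction. -/
noncomputable def rotG (σ : Bool) (l : ℝ) (c : Circle) : S2 ≃ₜ S2 :=
  rotRh c * rotPh (rotB σ l) * rotQh (if σ then c else c⁻¹) * rotPh (rotB σ l)⁻¹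

lemma rotG_apply (σ : Bool) (l : ℝ) (c : Circle) (s : S2) : rotG σ l c s =
    rotR c (rotP (rotB σ l) (rotQ (if σ then c else c⁻¹) (rotP (rotB σ l)⁻¹ s))) := rfl

lemma rotG_symm (σ : Bool) (l : ℝ) (c : Circle) (s : S2) : (rotG σ l c).symm s =
    rotP (rotB σ l)⁻¹⁻¹ (rotQ (if σ then c else c⁻¹)⁻¹ (rotP (rotB σ l)⁻¹ (rotR c⁻¹ s))) := rfl

lemma rot_if (σ : Bool) : Continuous fun c : Circle => if σ then c else c⁻¹ := by
  cases σ
  · exact continuous_inv
  · exact continuous_id

lemma rot_comp {Z : Type*} [TopologicalSpace Z] {f : Circle → S2 → S2}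
    (hf : Continuous fun q : Circle × S2 => f q.1 q.2) {a : Z → Circle} {s : Z → S2}
    (ha : Continuous a) (hs : Continuous s) : Continuous fun z => f (a z) (s z) :=
  hf.comp (ha.prodMk hs)

/-- `Q` is the rotation about the axis through `(0, i)`; the loop `c ↦ R c ∘ Q c ^ (± 1)` is
contracted by moving the axis to a pole. -/
theorem exists_rot : ∃ (Q : Circle →* (S2 ≃ₜ S2)) (G : Bool → ℝ → Circle → (S2 ≃ₜ S2)),
    Continuous (fun q : Circle × S2 => Q q.1 q.2) ∧ (∀ a s, (Q a s).1.2.im = s.1.2.im) ∧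
    (∀ σ, Continuous fun q : ℝ × Circle × S2 => G σ q.1 q.2.1 q.2.2) ∧
    (∀ σ, Continuous fun q : ℝ × Circle × S2 => (G σ q.1 q.2.1).symm q.2.2) ∧
    (∀ σ c s, G σ 1 c s = s) ∧ ∀ σ c s, (G σ 0 c s).1 =
      ((Q (if σ then c else c⁻¹) s).1.1, (c : ℂ) * (Q (if σ then c else c⁻¹) s).1.2) := by
  refine ⟨rotQh, rotG, rotQ_cont, fun a s => rfl, fun σ => ?_, fun σ => ?_, fun σ c s => ?_,
    fun σ c s => ?_⟩
  · have hb : Continuous fun q : ℝ × Circle × S2 => rotB σ q.1 := (rotB_cont σ).comp continuous_fst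
    have hc : Continuous fun q : ℝ × Circle × S2 => q.2.1 := by fun_prop
    simp only [rotG_apply]
    exact rot_comp rotR_cont hc (rot_comp rotP_cont hb (rot_comp rotQ_cont ((rot_if σ).comp hc)
      (rot_comp rotP_cont hb.inv (by fun_prop))))
  · have hb : Continuous fun q : ℝ × Circle × S2 => rotB σ q.1 := (rotB_cont σ).comp continuous_fst
    have hc : Continuous fun q : ℝ × Circle × S2 => q.2.1 := by fun_prop
    simp only [rotG_symm]
    exact rot_comp rotP_cont hb.inv.inv (rot_comp rotQ_cont ((rot_if σ).comp hc).inv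
      (rot_comp rotP_cont hb.inv (rot_comp rotR_cont hc.inv (by fun_prop))))
  · have h := rot_sq c
    rw [rotG_apply]
    cases σ
    · refine rot_ext ?_ ?_ ?_ <;>
        simp only [rotR, rotP, rotQ, Circle.coe_inv_eq_conj, conj_re, conj_im, rotB_re, rotB_im,
          sgb, mul_re, mul_im, Bool.false_eq_true, if_false]
      · ring
      · linear_combination s.1.2.re * h
      · linear_combination s.1.2.im * h
    · refine rot_ext ?_ ?_ ?_ <;>
        simp only [rotR, rotP, rotQ, Circle.coe_inv_eq_conj, conj_re, conj_im, rotB_re, rotB_im,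
          sgb, mul_re, mul_im, if_true]
      · ring
      · linear_combination s.1.2.re * h
      · linear_combination s.1.2.im * h
  · have h : ∀ t, rotP 1 t = t := fun t => congrArg (fun e : S2 ≃ₜ S2 => e t) (map_one rotPh)
    rw [rotG_apply, rotB_zero, inv_one, h, h]
    rfl

/-- The direction of a complex number. -/
noncomputable def rotD (x : ℂ) : Circle := Circle.exp (arg x)

lemma rotD_coe {x : ℂ} (hx : x ≠ 0) : (rotD x : ℂ) = x / ‖x‖ := by
  have h : (‖x‖ : ℂ) ≠ 0 := by simpa using hx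
  rw [rotD, Circle.coe_exp, eq_div_iff h, mul_comm]
  exact norm_mul_exp_arg_mul_I x

lemma rotD_cont {x : ℂ} (hx : x ≠ 0) : ContinuousAt rotD x := by
  have h : (‖x‖ : ℂ) ≠ 0 := by simpa using hx
  have h1 : ContinuousAt (fun y : ℂ => y / ‖y‖) x :=
    continuousAt_id.div (continuous_ofReal.comp continuous_norm).continuousAt h
  have h2 : ContinuousAt (fun y : ℂ => (rotD y : ℂ)) x :=
    h1.congr (mem_of_superset (isOpen_ne.mem_nhds hx) fun y hy => (rotD_coe hy).symm)
  exact (Topology.IsInducing.subtypeVal.continuousAt_iff (f := rotD)).2 h2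

/-- The cutoff. -/
noncomputable def rotL (r t : ℝ) : ℝ := max 0 (min 1 (2 - 4 * t / r))

lemma rotL_cont (r : ℝ) : Continuous (rotL r) := by unfold rotL; fun_prop

lemma rotL_one {r t : ℝ} (hr : 0 < r) (h : t < r / 4) : rotL r t = 1 := by
  have : 4 * t / r < 1 := by rw [div_lt_one hr]; linarith
  rw [rotL, min_eq_left (by linarith), max_eq_right zero_le_one]

lemma rotL_zero {r t : ℝ} (hr : 0 < r) (h : r / 2 ≤ t) : rotL r t = 0 := by
  have : 2 ≤ 4 * t / r := by rw [le_div_iff₀ hr]; linarith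
  rw [rotL, max_eq_left ((min_le_right _ _).trans (by linarith))]

lemma rot_fam {H : ℝ × Circle × S2 → S2} (hH : Continuous H) (h1 : ∀ c s, H (1, c, s) = s) {r : ℝ}
    (hr : 0 < r) : Continuous fun q : ℂ × S2 => H (rotL r ‖q.1‖, rotD q.1, q.2) := by
  refine continuous_iff_continuousAt.2 fun q => ?_
  by_cases hq : q.1 = 0
  · have ho : IsOpen {p : ℂ × S2 | ‖p.1‖ < r / 4} := isOpen_lt (by fun_prop) continuous_const
    refine continuous_snd.continuousAt.congr (mem_of_superset (ho.mem_nhds ?_) fun p hp => ?_)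
    · show ‖q.1‖ < r / 4
      rw [hq, norm_zero]
      positivity
    · show p.2 = H (rotL r ‖p.1‖, rotD p.1, p.2)
      rw [rotL_one hr hp, h1]
  · refine hH.continuousAt.comp (ContinuousAt.prodMk ?_ (ContinuousAt.prodMk ?_ ?_))
    · exact ((rotL_cont r).comp (by fun_prop)).continuousAt
    · exact (rotD_cont hq).comp continuous_fst.continuousAt
    · exact continuous_snd.continuousAt

/-- The scaling denominator. -/
noncomputable def rotN (s : S2) : ℝ := max ‖s.1.2‖ (1 / 2)

lemma rotN_pos (s : S2) : 0 < rotN s := lt_max_of_lt_right (by norm_num)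

lemma rotN_ne (s : S2) : (rotN s : ℂ) ≠ 0 := by simpa using (rotN_pos s).ne'

lemma rotN_cont : Continuous rotN := by unfold rotN; fun_prop

/-- The framed disc inside the cap. -/
theorem cap_disc (σ : Bool) {Q : Circle →* (S2 ≃ₜ S2)} {G : ℝ → Circle → (S2 ≃ₜ S2)}
    (hQ : Continuous fun q : Circle × S2 => Q q.1 q.2)
    (hG : Continuous fun q : ℝ × Circle × S2 => G q.1 q.2.1 q.2.2)
    (hG' : Continuous fun q : ℝ × Circle × S2 => (G q.1 q.2.1).symm q.2.2) (h1 : ∀ c s, G 1 c s = s)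
    (h0 : ∀ c s, (G 0 c s).1 =
      ((Q (if σ then c else c⁻¹) s).1.1, (c : ℂ) * (Q (if σ then c else c⁻¹) s).1.2))
    {r : ℝ} (hr : 0 < r) (hr' : r ≤ 1 / 8) : ∃ e : ℂ × S2 → N, LO e {q | ‖q.1‖ < r} ∧
      InjOn e {q | ‖q.1‖ < r} ∧ (∀ q, wabs (e q) ≤ ‖q.1‖) ∧ ∀ (s c : ℝ) (a : Circle) (v : S2),
        r / 2 ≤ s → s < r → (a : ℂ) = ee c → 1 / 2 < (Q (if σ then a else a⁻¹) v).1.2.im →
        e (s * ee c, v) = kap (⟨c, 1 / 4 + s * (Q (if σ then a else a⁻¹) v).1.1 /
          ‖(Q (if σ then a else a⁻¹) v).1.2‖⟩, s * (Q (if σ then a else a⁻¹) v).1.2 /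
          ‖(Q (if σ then a else a⁻¹) v).1.2‖) := by
  have c1 := rot_fam hG h1 hr
  have c2 := rot_fam hG' (fun c s => (G 1 c).symm_apply_eq.2 (h1 c s).symm) hr
  have cN : Continuous fun s => (rotN s : ℂ) := continuous_ofReal.comp rotN_cont
  let Φ : ℂ × S2 ≃ₜ ℂ × S2 :=
    { toFun := fun q => (q.1, G (rotL r ‖q.1‖) (rotD q.1) q.2)
      invFun := fun q => (q.1, (G (rotL r ‖q.1‖) (rotD q.1)).symm q.2)
      left_inv := fun q => by simp
      right_inv := fun q => by simp
      continuous_toFun := continuous_fst.prodMk c1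
      continuous_invFun := continuous_fst.prodMk c2 }
  let Ψ : ℂ × S2 ≃ₜ ℂ × S2 :=
    { toFun := fun q => (q.1 / rotN q.2, q.2)
      invFun := fun q => (q.1 * rotN q.2, q.2)
      left_inv := fun q => Prod.ext (div_mul_cancel₀ _ (rotN_ne _)) rfl
      right_inv := fun q => Prod.ext (mul_div_cancel_right₀ _ (rotN_ne _)) rfl
      continuous_toFun :=
        (continuous_fst.div (cN.comp continuous_snd) fun q => rotN_ne _).prodMk continuous_snd
      continuous_invFun := (continuous_fst.mul (cN.comp continuous_snd)).prodMk continuous_snd }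
  have ho : IsOpen {q : ℂ × S2 | ‖q.1‖ < r} := isOpen_lt (by fun_prop) continuous_const
  have hn : ∀ (x : ℂ) (s : S2), ‖x / rotN s‖ = ‖x‖ / rotN s := fun x s => by
    rw [norm_div, norm_real, Real.norm_of_nonneg (rotN_pos s).le]
  have hm : MapsTo (Φ.trans Ψ) {q | ‖q.1‖ < r} domS := fun q hq => by
    have key : ∀ s : S2, ‖q.1 / rotN s‖ * |s.1.1| < 1 / 4 := fun s => by
      have h2 : |s.1.1| ≤ 1 := by
        rw [← sq_le_one_iff_abs_le_one]
        have := s.2
        have := normSq_nonneg s.1.2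
        linarith
      have h3 : ‖q.1‖ / rotN s < 1 / 4 := by
        rw [div_lt_iff₀ (rotN_pos s)]
        have : 1 / 2 ≤ rotN s := le_max_right _ _
        have : ‖q.1‖ < r := hq
        linarith
      rw [hn]
      exact (mul_le_of_le_one_right (div_nonneg (norm_nonneg _) (rotN_pos s).le) h2).trans_lt h3
    exact key _
  refine ⟨Sg ∘ Φ.trans Ψ, lo_Sg.comp (lo_homeo _ ho) hm,
    Sg_injOn.comp (Φ.trans Ψ).injective.injOn hm, fun q => ?_, fun s c a v hs _ ha hv => ?_⟩
  · have key : ∀ s : S2, wabs (Sg (q.1 / rotN s, s)) ≤ ‖q.1‖ := fun s => by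
      rw [wabs_Sg, hn, div_mul_eq_mul_div, div_le_iff₀ (rotN_pos s)]
      exact mul_le_mul_of_nonneg_left (le_max_left _ _) (norm_nonneg _)
    exact key _
  · have s0 : 0 < s := by linarith
    have e1 : ‖(s : ℂ) * ee c‖ = s := by
      rw [norm_mul, norm_ee, mul_one, norm_real, Real.norm_of_nonneg s0.le]
    have s1 : (s : ℂ) ≠ 0 := by simpa using s0.ne'
    have e2 : rotD (s * ee c) = a := Circle.ext (by
      rw [rotD_coe (mul_ne_zero s1 (ee_ne_zero c)), e1, ha, mul_div_cancel_left₀ _ s1])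
    show Sg (s * ee c / rotN (G (rotL r ‖(s : ℂ) * ee c‖) (rotD (s * ee c)) v),
      G (rotL r ‖(s : ℂ) * ee c‖) (rotD (s * ee c)) v) = _
    rw [e1, e2, rotL_zero hr hs]
    have h3 := h0 a v
    generalize Q (if σ then a else a⁻¹) v = w at h3 hv ⊢
    generalize G 0 a v = t at h3 ⊢
    have t1 : t.1.1 = w.1.1 := by rw [h3]
    have t2 : t.1.2 = ee c * w.1.2 := by rw [h3, ha]
    have w1 : 1 / 2 < ‖w.1.2‖ := hv.trans_le (im_le_norm _)
    have w0 : 0 < ‖w.1.2‖ := by linarith
    have e3 : rotN t = ‖w.1.2‖ := by rw [rotN, t2, norm_mul, norm_ee, one_mul, max_eq_left w1.le]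
    have e4 : (s : ℂ) * ee c / (‖w.1.2‖ : ℝ) = ((s / ‖w.1.2‖ : ℝ) : ℂ) * ee c := by
      push_cast; ring
    rw [e3, e4, Sg_eq (div_pos s0 w0), t1, t2]
    congr 2
    · congr 1
      ring
    · push_cast
      linear_combination (s / (‖w.1.2‖ : ℂ) * w.1.2) * ee_mul_neg c

end Pool.Agent.Lib.MP_45bb13_gt
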