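import Pool.Agent.Lib.MP_45bb13_gt.XTop
import Pool.Agent.Lib.MP_45bb13_gt.Rot
import Pool.Agent.Lib.MP_45bb13_gt.EmbA

/-! The framed disc bounded by a circle around two strands. -/

set_option linter.unusedSectionVars false

namespace Pool.Agent.Lib.MP_45bb13_gt

open Set Filter Topology Complex
open scoped ComplexConjugate

/-- A local section of the circle near `1 / 4`. -/
lemma emb_lift : ∃ lf : UnitAddCircle → ℝ, LO lf {x | x ≠ ((3 / 4 : ℝ) : UnitAddCircle)} ∧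
    (∀ x, ((lf x : ℝ) : UnitAddCircle) = x) ∧
    ∀ x (δ : ℝ), 1 - δ < 2 * ‖x - ((3 / 4 : ℝ) : UnitAddCircle)‖ → |lf x - 1 / 4| < δ / 2 := by
  have h34 : ((3 / 4 : ℝ) : UnitAddCircle) = ((-(1 / 4) : ℝ) : UnitAddCircle) := by
    rw [show (3 / 4 : ℝ) = -(1 / 4) + 1 by norm_num, AddCircle.coe_add_period]
  have hc : ∀ x : UnitAddCircle,
      (((AddCircle.equivIco (1 : ℝ) (-(1 / 4)) x : ℝ) : ℝ) : UnitAddCircle) = x := fun x =>
    (AddCircle.equivIco (1 : ℝ) (-(1 / 4))).symm_apply_apply x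
  refine ⟨fun x => (AddCircle.equivIco (1 : ℝ) (-(1 / 4)) x : ℝ), ?_, hc, fun x δ h => ?_⟩
  · rw [h34]
    exact lo_oph (AddCircle.openPartialHomeomorphCoe (1 : ℝ) (-(1 / 4))).symm
  · obtain ⟨h1, h2⟩ := (AddCircle.equivIco (1 : ℝ) (-(1 / 4)) x).2
    have e := hc x
    beta_reduce
    generalize (AddCircle.equivIco (1 : ℝ) (-(1 / 4)) x : ℝ) = z at h1 h2 e ⊢
    subst e
    have a1 : ‖(z : UnitAddCircle) - ((3 / 4 : ℝ) : UnitAddCircle)‖ ≤ |z - 3 / 4| := by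
      rw [← AddCircle.coe_sub]; exact QuotientAddGroup.norm_mk_le_norm
    have a2 : ‖(z : UnitAddCircle) - ((3 / 4 : ℝ) : UnitAddCircle)‖ ≤ |z - -(1 / 4)| := by
      rw [h34, ← AddCircle.coe_sub]; exact QuotientAddGroup.norm_mk_le_norm
    rw [abs_of_nonpos (by linarith)] at a1
    rw [abs_of_nonneg (by linarith)] at a2
    rw [abs_lt]
    constructor <;> linarith

lemma emb_norm_le (s : S2) : ‖s.1.2‖ ≤ 1 := by
  have h := s.2
  rw [normSq_eq_norm_sq] at h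
  nlinarith [sq_nonneg s.1.1, norm_nonneg s.1.2]

lemma emb_abs_le (s : S2) : |s.1.1| ≤ 1 := by
  have h := s.2
  rw [normSq_eq_norm_sq] at h
  rw [abs_le]
  constructor <;> nlinarith [sq_nonneg ‖s.1.2‖]

lemma emb_norm_ge {s : S2} (h : 3 / 4 < s.1.2.im) : 3 / 4 < ‖s.1.2‖ :=
  h.trans_le ((le_abs_self _).trans (abs_im_le_norm _))

lemma emb_ang {s : S2} (h : 3 / 4 < s.1.2.im) : 2 * ang s.1.2 ∈ Icc (1 / 4 : ℝ) (3 / 4) := by
  have h1 := emb_norm_le s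
  have h2 := congrArg Complex.im (norm_mul_ee_ang s.1.2)
  rw [im_ofReal_mul, ee_im] at h2
  obtain ⟨h3, h4⟩ := ang_mem s.1.2
  generalize ang s.1.2 = a at h2 h3 h4
  have hp := Real.pi_pos
  have h5 : 3 / 4 < Real.sin (2 * Real.pi * a) := by
    by_contra h5
    push Not at h5
    have := emb_norm_ge h
    nlinarith
  have h6 : Real.sin (Real.pi / 4) < 3 / 4 := by
    rw [Real.sin_pi_div_four]
    have : √2 < 3 / 2 := by rw [Real.sqrt_lt' (by norm_num)]; norm_num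
    linarith
  have h7 : ∀ x, -Real.pi ≤ x → x ≤ Real.pi / 4 → Real.sin x < 3 / 4 := fun x hx hx' => by
    rcases le_total x 0 with h0 | h0
    · have := Real.sin_nonpos_of_nonpos_of_neg_pi_le h0 hx
      linarith
    · exact (Real.sin_le_sin_of_le_of_le_pi_div_two (by linarith) (by linarith) hx').trans_lt h6
  constructor
  · by_contra h8
    push Not at h8
    have := h7 (2 * Real.pi * a) (by nlinarith) (by nlinarith)
    linarith
  · by_contra h8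
    push Not at h8
    have := h7 (Real.pi - 2 * Real.pi * a) (by nlinarith) (by nlinarith)
    rw [Real.sin_pi_sub] at this
    linarith

lemma emb_open : IsOpen {s : S2 | 3 / 4 < s.1.2.im} := isOpen_lt continuous_const (by fun_prop)

/-- A fibrewise rotation over an open set of the plane. -/
lemma emb_lo_rot {Q : Circle →* (S2 ≃ₜ S2)} (hQ : Continuous fun q : Circle × S2 => Q q.1 q.2)
    {f : ℂ → Circle} {V : Set ℂ} (hV : IsOpen V) (hf : ContinuousOn f V) (β : ℂ) :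
    LO (fun p : ℂ × S2 => (p.1 - β, Q (f p.1) p.2)) {p | p.1 ∈ V} := by
  have c1 : ContinuousOn (fun p : ℂ × S2 => f p.1) {p | p.1 ∈ V} :=
    hf.comp continuous_fst.continuousOn fun _ h => h
  have c2 : ContinuousOn (fun p : ℂ × S2 => f (p.1 + β)) {p | p.1 + β ∈ V} :=
    hf.comp (by fun_prop) fun _ h => h
  refine lo_of_inverse (g := fun p : ℂ × S2 => (p.1 + β, Q (f (p.1 + β))⁻¹ p.2))
    (U := {p | p.1 + β ∈ V}) (hV.preimage continuous_fst) (hV.preimage (by fun_prop)) ?_ ?_ ?_ ?_ ?_ ?_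
  · exact ContinuousOn.prodMk (by fun_prop)
      (hQ.comp_continuousOn (c1.prodMk continuous_snd.continuousOn))
  · exact ContinuousOn.prodMk (by fun_prop)
      (hQ.comp_continuousOn (c2.inv.prodMk continuous_snd.continuousOn))
  · intro p hp
    simpa using hp
  · intro p hp
    exact hp
  · intro p _
    simp only [sub_add_cancel]
    rw [← Homeomorph.mul_apply, ← map_mul, inv_mul_cancel, map_one]
    rfl
  · intro p _
    simp only [add_sub_cancel_right]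
    rw [← Homeomorph.mul_apply, ← map_mul, mul_inv_cancel, map_one]
    rfl

/-- A fibrewise affine map over an open set of the plane. -/
lemma emb_lo_aff {f : ℂ → ℝ} (hf : Continuous f) :
    LO (fun p : CC => ((p.1, ⟨1 / 4 + f p.1 * p.2.re, p.2.im⟩) : CC)) {p | 0 < f p.1} := by
  have hO : IsOpen {p : CC | 0 < f p.1} := isOpen_lt continuous_const (hf.comp continuous_fst)
  refine lo_of_inverse (g := fun p : CC => ((p.1, ⟨(p.2.re - 1 / 4) / f p.1, p.2.im⟩) : CC))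
    (U := {p | 0 < f p.1}) hO hO ?_ ?_ (fun _ h => h) (fun _ h => h) ?_ ?_
  · exact Continuous.continuousOn (by fun_prop)
  · intro p hp
    refine ContinuousAt.continuousWithinAt (continuousAt_fst.prodMk (continuousAt_mk ?_ (by fun_prop)))
    exact ContinuousAt.div (by fun_prop) (by fun_prop) (ne_of_gt hp)
  · intro p hp
    have : f p.1 ≠ 0 := ne_of_gt hp
    refine Prod.ext rfl (Complex.ext ?_ rfl)
    field_simp
    ring
  · intro p hp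
    have : f p.1 ≠ 0 := ne_of_gt hp
    refine Prod.ext rfl (Complex.ext ?_ rfl)
    field_simp
    ring

/-- The latitude coordinates. -/
noncomputable def embL (b : ℝ) (s : S2) : ℂ := ⟨1 / 4 + b * (s.1.1 / ‖s.1.2‖), 2 * ang s.1.2⟩

/-- The framed disc near a strand. -/
lemma emb_cap {ι : Type} [Finite ι] (A : Br ι) (i : ι)
    (hc : ∀ t ∈ Icc (1 / 4 : ℝ) (3 / 4), A.b i t = A.b i (1 / 2)) (σ : Bool)
    {Q : Circle →* (S2 ≃ₜ S2)} {G : ℝ → Circle → (S2 ≃ₜ S2)}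
    (hQ : Continuous fun q : Circle × S2 => Q q.1 q.2) (hI : ∀ a s, (Q a s).1.2.im = s.1.2.im)
    (hG : Continuous fun q : ℝ × Circle × S2 => G q.1 q.2.1 q.2.2)
    (hG' : Continuous fun q : ℝ × Circle × S2 => (G q.1 q.2.1).symm q.2.2) (h1 : ∀ c s, G 1 c s = s)
    (h0 : ∀ c s, (G 0 c s).1 =
      ((Q (if σ then c else c⁻¹) s).1.1, (c : ℂ) * (Q (if σ then c else c⁻¹) s).1.2))
    {r : ℝ} (hr : 0 < r) (hr' : r ≤ 1 / 8) (he : r ≤ A.eps) {a : ℂ → Circle}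
    (ha : ContinuousOn a (Metric.ball (A.b i (1 / 2)) r)) :
    ∃ D : ℂ × S2 → A.X, LO D {p | ‖p.1 - A.b i (1 / 2)‖ < r} ∧
      InjOn D {p | ‖p.1 - A.b i (1 / 2)‖ < r} ∧
      (∀ p, ‖p.1 - A.b i (1 / 2)‖ < r → D p ∈ A.jj (some i) '' Nr r) ∧
      ∀ (s c : ℝ) (u : Circle) (v : S2), r / 2 ≤ s → s < r → (u : ℂ) = ee c → 3 / 4 < v.1.2.im →
        D (A.b i (1 / 2) + s * ee c, v) = A.prT (A.b i (1 / 2) + s * ee c,
          embL s (Q ((if σ then u else u⁻¹) * a (A.b i (1 / 2) + s * ee c)) v)) := by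
  obtain ⟨e, e1, e2, e3, e4⟩ := cap_disc σ hQ hG hG' h1 h0 hr hr'
  have hF := emb_lo_rot hQ Metric.isOpen_ball ha (A.b i (1 / 2))
  simp only [Metric.mem_ball, dist_eq_norm] at hF
  have hN : ∀ p : ℂ × S2, ‖p.1 - A.b i (1 / 2)‖ < r →
      e (p.1 - A.b i (1 / 2), Q (a p.1) p.2) ∈ Nr r := fun p hp => (e3 _).trans_lt hp
  refine ⟨fun p => A.jj (some i) (e (p.1 - A.b i (1 / 2), Q (a p.1) p.2)), ?_, ?_,
    fun p hp => ⟨_, hN p hp, rfl⟩, fun s c u v hs hs' hu hv => ?_⟩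
  · exact (A.lo_jj (some i)).comp (e1.comp hF fun _ h => h) fun p hp => (hN p hp).trans_le he
  · rintro ⟨y, v⟩ hp ⟨y', v'⟩ hq h
    have h2 := e2 (x₁ := (y - A.b i (1 / 2), Q (a y) v)) hp (x₂ := (y' - A.b i (1 / 2), Q (a y') v'))
      hq (A.jj_injOn (some i) ((hN _ hp).trans_le he) ((hN _ hq).trans_le he) h)
    obtain ⟨h3, h4⟩ := Prod.mk.inj h2
    obtain rfl : y = y' := sub_left_injective h3
    rw [(Q (a y)).injective h4]
  · have hs0 : 0 < s := by linarith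
    simp only [add_sub_cancel_left]
    rw [e4 s c u _ hs hs' hu (by rw [hI, hI]; linarith), map_mul, Homeomorph.mul_apply]
    have hS : 3 / 4 < (Q (if σ then u else u⁻¹) (Q (a (A.b i (1 / 2) + s * ee c)) v)).1.2.im := by
      rwa [hI, hI]
    generalize Q (if σ then u else u⁻¹) (Q (a (A.b i (1 / 2) + s * ee c)) v) = S at hS ⊢
    have hn : (‖S.1.2‖ : ℂ) ≠ 0 := ofReal_ne_zero.2 (by have := emb_norm_ge hS; linarith)
    have h5 := A.pW_eq (some i) ⟨c, 1 / 4 + s * S.1.1 / ‖S.1.2‖⟩ hs0 (2 * ang S.1.2)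
    have h6 : (s : ℂ) * S.1.2 / ‖S.1.2‖ = s * ee (2 * ang S.1.2 / 2) := by
      rw [mul_div_cancel_left₀ _ two_ne_zero, div_eq_iff hn, mul_assoc, mul_comm (ee _),
        norm_mul_ee_ang]
    rw [h6]
    refine h5.trans ?_
    simp only [Br.loc, embL, hc _ (emb_ang hS), mul_div_assoc]

lemma emb_domT {ι : Type} (A : Br ι)
    (hc : ∀ i, ∀ t ∈ Icc (1 / 4 : ℝ) (3 / 4), A.b i t = A.b i (1 / 2)) {y v : ℂ}
    (hv : v.im ∈ Icc (1 / 4 : ℝ) (3 / 4)) (hy : ∀ i, y ≠ A.b i (1 / 2)) : (y, v) ∈ A.domT :=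
  fun i => by rw [hc i _ hv]; exact hy i

lemma emb_prT {ι : Type} (A : Br ι) {y v y' v' : ℂ} (h : (y, v) ∈ A.domT) (h' : (y', v') ∈ A.domT)
    (hv : v.im ∈ Icc (1 / 4 : ℝ) (3 / 4)) (hv' : v'.im ∈ Icc (1 / 4 : ℝ) (3 / 4))
    (e : A.prT (y, v) = A.prT (y', v')) :
    y = y' ∧ v.im = v'.im ∧ ∃ a : ℤ, a + v.re = v'.re := by
  obtain ⟨g, hg⟩ := (A.prT_eq_iff h h').1 e
  rw [actT_def] at hg
  obtain ⟨h1, h2⟩ := Prod.mk.inj hg
  have h3 : v.im + g.n = v'.im := congrArg Complex.im h2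
  have h4 : g.a + sgn g.n * v.re = v'.re := congrArg Complex.re h2
  have h5 : g.n = 0 := by
    have a1 : (g.n : ℝ) < 1 := by linarith [hv.1, hv'.2]
    have a2 : (-1 : ℝ) < g.n := by linarith [hv.2, hv'.1]
    have a3 : g.n < 1 := by exact_mod_cast a1
    have a4 : -1 < g.n := by exact_mod_cast a2
    omega
  rw [h5] at h1 h3 h4
  rw [cj_zero] at h1
  rw [sgn_zero] at h4
  exact ⟨h1, by simpa using h3, g.a, by simpa using h4⟩

lemma emb_near {ι : Type} [Finite ι] (A : Br ι) {i : ι}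
    (hc : ∀ t ∈ Icc (1 / 4 : ℝ) (3 / 4), A.b i t = A.b i (1 / 2)) {y v : ℂ} {r : ℝ}
    (he : r ≤ A.eps) (h : (y, v) ∈ A.domT) (hv : v.im ∈ Icc (1 / 4 : ℝ) (3 / 4))
    (e : A.prT (y, v) ∈ A.jj (some i) '' Nr r) : ‖y - A.b i (1 / 2)‖ < r := by
  have h1 := ((A.near_iff h he).1 e).2
  rwa [Br.dst, hc _ hv] at h1

/-- The framed pair of pants. -/
lemma emb_pants {ι : Type} [Finite ι] (A : Br ι)
    (hc : ∀ i, ∀ t ∈ Icc (1 / 4 : ℝ) (3 / 4), A.b i t = A.b i (1 / 2))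
    {Q : Circle →* (S2 ≃ₜ S2)}
    (hQ : Continuous fun q : Circle × S2 => Q q.1 q.2) (hI : ∀ a s, (Q a s).1.2.im = s.1.2.im)
    {V : Set ℂ} (hV : IsOpen V) (hV' : ∀ y ∈ V, ∀ i, y ≠ A.b i (1 / 2)) {Θ : ℂ → Circle}
    (hΘ : ContinuousOn Θ V) {f : ℂ → ℝ} (hf : Continuous f) (h0 : ∀ y ∈ V, 0 < f y)
    (h8 : ∀ y, f y ≤ 1 / 8) :
    LO (fun p : ℂ × S2 => A.prT (p.1, embL (f p.1) (Q (Θ p.1) p.2)))
      {p | p.1 ∈ V ∧ 3 / 4 < p.2.1.2.im} ∧
    InjOn (fun p : ℂ × S2 => A.prT (p.1, embL (f p.1) (Q (Θ p.1) p.2)))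
      {p | p.1 ∈ V ∧ 3 / 4 < p.2.1.2.im} := by
  obtain ⟨χ, c1, -, c3⟩ := exists_lat
  have hd : ∀ p : ℂ × S2, p.1 ∈ V → 3 / 4 < p.2.1.2.im →
      (embL (f p.1) (Q (Θ p.1) p.2)).im ∈ Icc (1 / 4 : ℝ) (3 / 4) := fun p _ h =>
    emb_ang (by rwa [hI])
  constructor
  · have hO : IsOpen {p : ℂ × S2 | p.1 ∈ V ∧ 3 / 4 < p.2.1.2.im} :=
      (hV.preimage continuous_fst).inter (emb_open.preimage continuous_snd)
    have l1 := (emb_lo_rot hQ hV hΘ 0).mono hO fun _ h => h.1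
    have l2 := ((lo_id (isOpen_univ (X := ℂ))).prod (lo_oph χ)).comp l1 fun p h =>
      ⟨mem_univ _, by
        rw [c1]
        show 0 < (Q (Θ p.1) p.2).1.2.im
        rw [hI]
        linarith [h.2]⟩
    have l3 := (emb_lo_aff hf).comp l2 fun p h => by simpa using h0 _ h.1
    have l4 : LO (fun p : ℂ × S2 => ((p.1, embL (f p.1) (Q (Θ p.1) p.2)) : CC))
        {p | p.1 ∈ V ∧ 3 / 4 < p.2.1.2.im} := l3.congr fun p _ => by simp [c3, embL]
    exact A.lo_prT.comp l4 fun p h => emb_domT A hc (hd p h.1 h.2) (hV' _ h.1)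
  · rintro ⟨y, v⟩ hp ⟨y', v'⟩ hq h
    obtain ⟨rfl, h2, a, h3⟩ := emb_prT A (emb_domT A hc (hd _ hp.1 hp.2) (hV' _ hp.1))
      (emb_domT A hc (hd _ hq.1 hq.2) (hV' _ hq.1)) (hd _ hp.1 hp.2) (hd _ hq.1 hq.2) h
    have hS : 3 / 4 < (Q (Θ y) v).1.2.im := by rw [hI]; exact hp.2
    have hS' : 3 / 4 < (Q (Θ y) v').1.2.im := by rw [hI]; exact hq.2
    suffices Q (Θ y) v = Q (Θ y) v' by rw [(Q (Θ y)).injective this]
    simp only [embL] at h2 h3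
    generalize Q (Θ y) v = S at hS h2 h3 ⊢
    generalize Q (Θ y) v' = S' at hS' h2 h3 ⊢
    have hb : ∀ T : S2, 3 / 4 < T.1.2.im → |f y * (T.1.1 / ‖T.1.2‖)| ≤ 1 / 6 := fun T hT => by
      have b1 := emb_norm_ge hT
      have b2 : |T.1.1 / ‖T.1.2‖| ≤ 4 / 3 := by
        rw [abs_div, abs_norm, div_le_iff₀ (by linarith)]
        linarith [emb_abs_le T]
      rw [abs_mul, abs_of_pos (h0 _ hp.1)]
      have b3 : 0 < f y := h0 _ hp.1
      nlinarith [h8 y, abs_nonneg (T.1.1 / ‖T.1.2‖)]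
    have b1 := abs_le.1 (hb S hS)
    have b2 := abs_le.1 (hb S' hS')
    have h5 : a = 0 := by
      have a1 : (a : ℝ) < 1 := by linarith [b1.1, b2.2]
      have a2 : (-1 : ℝ) < a := by linarith [b1.2, b2.1]
      have a3 : a < 1 := by exact_mod_cast a1
      have a4 : -1 < a := by exact_mod_cast a2
      omega
    rw [h5, Int.cast_zero, zero_add, add_right_inj] at h3
    have h6 := mul_left_cancel₀ (h0 _ hp.1).ne' h3
    refine χ.injOn (by rw [c1]; show 0 < S.1.2.im; linarith) (by rw [c1]; show 0 < S'.1.2.im; linarith) ?_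
    rw [c3, c3, h2, h6]

lemma emb_polar (β y : ℂ) : ∃ (c : ℝ) (u : Circle), (u : ℂ) = ee c ∧
    y = β + (‖y - β‖ : ℝ) * ee c :=
  ⟨ang (y - β), ⟨ee (ang (y - β)), mem_sphere_zero_iff_norm.2 (norm_ee _)⟩, rfl, by
    rw [norm_mul_ee_ang, add_sub_cancel]⟩

/-- The framed disc inside the circle. -/
lemma emb_inner {ι : Type} [Finite ι] (A : Br ι) {m ρ : ℝ} {i₁ i₂ : ι} (h12 : i₁ ≠ i₂)
    (hc : ∀ i, ∀ t ∈ Icc (1 / 4 : ℝ) (3 / 4), A.b i t = A.b i (1 / 2))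
    (h1 : ‖A.b i₁ (1 / 2) - m‖ < ρ) (h2 : ‖A.b i₂ (1 / 2) - m‖ < ρ)
    (h3 : ∀ i, i ≠ i₁ → i ≠ i₂ → ρ < ‖A.b i (1 / 2) - m‖) :
    ∃ r d : ℝ, 0 < r ∧ 0 < d ∧ (∀ i, d < |‖A.b i (1 / 2) - m‖ - ρ|) ∧ ∃ E : ℂ × S2 → A.X,
      LO E {p | ‖p.1 - m‖ < ρ ∧ 3 / 4 < p.2.1.2.im} ∧
      InjOn E {p | ‖p.1 - m‖ < ρ ∧ 3 / 4 < p.2.1.2.im} ∧
      (∀ p : ℂ × S2, ‖p.1 - m‖ < ρ → ρ - d < ‖p.1 - m‖ → E p = A.prT (p.1, embL r p.2)) ∧
      ∀ p : ℂ × S2, ‖p.1 - m‖ < ρ → 3 / 4 < p.2.1.2.im → ∀ y v, (y, v) ∈ A.domT →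
        v.im ∈ Icc (1 / 4 : ℝ) (3 / 4) → ρ - d < ‖y - m‖ → E p = A.prT (y, v) → p.1 = y := by
  classical
  obtain ⟨Q, G, hQ, hI, hG, hG', g1, g0⟩ := exists_rot
  obtain ⟨Θ, a₁, a₂, w, hw, w1, w2, w3, w4, w5⟩ :=
    exists_wind (fun h => h12 (A.inj _ _ _ h)) h1 h2
  obtain ⟨d₁, hd₁, hd⟩ : ∃ d₁ > 0, ∀ i, d₁ < |‖A.b i (1 / 2) - m‖ - ρ| := by
    have : Nonempty ι := ⟨i₁⟩
    obtain ⟨i₀, hi₀⟩ := Finite.exists_min fun i => |‖A.b i (1 / 2) - m‖ - ρ|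
    have : 0 < |‖A.b i₀ (1 / 2) - m‖ - ρ| := by
      rw [abs_pos, sub_ne_zero]
      by_cases e1 : i₀ = i₁
      · rw [e1]; exact h1.ne
      by_cases e2 : i₀ = i₂
      · rw [e2]; exact h2.ne
      exact (h3 _ e1 e2).ne'
    exact ⟨_, half_pos this, fun i => (half_lt_self this).trans_le (hi₀ i)⟩
  obtain ⟨r, hr, r1, r2, r3, r4⟩ : ∃ r > 0, r ≤ d₁ / 2 ∧ r ≤ A.eps ∧ r ≤ 1 / 8 ∧ r ≤ w :=
    ⟨min (min (d₁ / 2) A.eps) (min (1 / 8) w), by have := A.eps_pos; positivity,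
      (min_le_left _ _).trans (min_le_left _ _), (min_le_left _ _).trans (min_le_right _ _),
      (min_le_right _ _).trans (min_le_left _ _), (min_le_right _ _).trans (min_le_right _ _)⟩
  obtain ⟨D₁, p1, p2, p3, p4⟩ := emb_cap A i₁ (hc i₁) true hQ hI (hG true) (hG' true) (g1 true)
    (g0 true) hr r3 r2 (w3.mono (Metric.ball_subset_ball r4))
  obtain ⟨D₂, q1, q2, q3, q4⟩ := emb_cap A i₂ (hc i₂) false hQ hI (hG false) (hG' false) (g1 false)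
    (g0 false) hr r3 r2 (w4.mono (Metric.ball_subset_ball r4))
  have hsep := A.eps_spec.2.2.1 (1 / 2) i₁ i₂ h12
  have hd1 := hd i₁
  have hd2 := hd i₂
  rw [abs_of_neg (by linarith)] at hd1 hd2
  have hb : ∀ y : ℂ, ‖y - m‖ < ρ → y ≠ A.b i₁ (1 / 2) → y ≠ A.b i₂ (1 / 2) →
      ∀ i, y ≠ A.b i (1 / 2) := fun y hy e1 e2 i e => by
    by_cases f1 : i = i₁
    · exact e1 (f1 ▸ e)
    by_cases f2 : i = i₂
    · exact e2 (f2 ▸ e)
    have := h3 i f1 f2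
    rw [← e] at this
    linarith
  have hn1 := fun {y v : ℂ} => emb_near A (hc i₁) (y := y) (v := v) r2
  have hn2 := fun {y v : ℂ} => emb_near A (hc i₂) (y := y) (v := v) r2
  have hprT := fun {y v y' v' : ℂ} => emb_prT A (y := y) (v := v) (y' := y') (v' := v')
  have hdom := fun {y v : ℂ} => emb_domT A hc (y := y) (v := v)
  have hdisj : ∀ x, x ∈ A.jj (some i₁) '' Nr r → x ∈ A.jj (some i₂) '' Nr r → False := by
    rintro x ⟨n, hn, rfl⟩ ⟨n', hn', e⟩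
    exact h12 (Option.some.inj (A.jj_disj (hn'.trans_le r2) (hn.trans_le r2) e)).symm
  have hpants := fun {V : Set ℂ} hV hV' {Θ : ℂ → Circle} hΘ {f : ℂ → ℝ} =>
    emb_pants A hc hQ hI (V := V) hV hV' (Θ := Θ) hΘ (f := f)
  generalize A.b i₁ (1 / 2) = β₁ at *
  generalize A.b i₂ (1 / 2) = β₂ at *
  have ht : ∀ y : ℂ, 2 * r < ‖y - β₁‖ + ‖y - β₂‖ := fun y => by
    have := norm_sub_le (y - β₂) (y - β₁)
    rw [show y - β₂ - (y - β₁) = β₁ - β₂ by ring] at this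
    linarith
  have hm : ∀ y β : ℂ, ‖y - m‖ ≤ ‖y - β‖ + ‖β - m‖ := fun y β => norm_sub_le_norm_sub_add_norm_sub _ _ _
  set V : Set ℂ := {y | ‖y - m‖ < ρ ∧ r / 2 < ‖y - β₁‖ ∧ r / 2 < ‖y - β₂‖} with hVd
  have o1 : ∀ (β : ℂ) (t : ℝ), IsOpen {y : ℂ | ‖y - β‖ < t} := fun β t =>
    isOpen_lt (by fun_prop) continuous_const
  have o2 : ∀ (β : ℂ) (t : ℝ), IsOpen {y : ℂ | t < ‖y - β‖} := fun β t =>
    isOpen_lt continuous_const (by fun_prop)
  have hV : IsOpen V := (o1 m ρ).inter ((o2 β₁ _).inter (o2 β₂ _))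
  have hV1 : ∀ y ∈ V, y ≠ β₁ := fun y hy e => by
    have := hy.2.1
    rw [e, sub_self, norm_zero] at this
    linarith
  have hV2 : ∀ y ∈ V, y ≠ β₂ := fun y hy e => by
    have := hy.2.2
    rw [e, sub_self, norm_zero] at this
    linarith
  have hV' : ∀ y ∈ V, ∀ i, y ≠ A.b i (1 / 2) := fun y hy => hb y hy.1 (hV1 y hy) (hV2 y hy)
  set f : ℂ → ℝ := fun y => min r (min ‖y - β₁‖ ‖y - β₂‖) with hfd
  obtain ⟨l1, l2⟩ := hpants hV hV' (w1.mono fun y hy => by simp [hV1 y hy, hV2 y hy]) (f := f)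
    (by fun_prop) (fun y hy => lt_min hr (lt_min (by linarith [hy.2.1]) (by linarith [hy.2.2])))
    fun y => (min_le_left _ _).trans r3
  set P : ℂ × S2 → A.X := fun p => A.prT (p.1, embL (f p.1) (Q (Θ p.1) p.2)) with hPd
  set E : ℂ × S2 → A.X := fun p =>
    if ‖p.1 - β₁‖ < r then D₁ p else if ‖p.1 - β₂‖ < r then D₂ p else P p with hEd
  have E1 : ∀ p : ℂ × S2, ‖p.1 - β₁‖ < r → E p = D₁ p := fun p h => if_pos h
  have E2 : ∀ p : ℂ × S2, ‖p.1 - β₂‖ < r → E p = D₂ p := fun p h =>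
    (if_neg (by have := ht p.1; linarith)).trans (if_pos h)
  have E3 : ∀ p : ℂ × S2, ¬‖p.1 - β₁‖ < r → ¬‖p.1 - β₂‖ < r → E p = P p := fun p h h' =>
    (if_neg h).trans (if_neg h')
  have E4 : ∀ p : ℂ × S2, p.1 ∈ V → 3 / 4 < p.2.1.2.im → E p = P p := by
    rintro ⟨y, v⟩ hy hv
    by_cases k1 : ‖y - β₁‖ < r
    · obtain ⟨c, u, hu, e⟩ := emb_polar β₁ y
      have k2 := p4 _ c u v hy.2.1.le k1 hu hv
      have k3 := (w5 _ c u (by linarith [hy.2.1]) (k1.trans_le r4) hu).1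
      rw [← e] at k2 k3
      have k4 : f y = ‖y - β₁‖ := by
        have := ht y
        simp only [hfd]
        rw [min_eq_left (by linarith : ‖y - β₁‖ ≤ ‖y - β₂‖), min_eq_right k1.le]
      rw [E1 _ k1, k2]
      simp only [hPd, k3, k4, if_true]
    by_cases k1' : ‖y - β₂‖ < r
    · obtain ⟨c, u, hu, e⟩ := emb_polar β₂ y
      have k2 := q4 _ c u v hy.2.2.le k1' hu hv
      have k3 := (w5 _ c u (by linarith [hy.2.2]) (k1'.trans_le r4) hu).2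
      rw [← e] at k2 k3
      have k4 : f y = ‖y - β₂‖ := by
        have := ht y
        simp only [hfd]
        rw [min_eq_right (by linarith : ‖y - β₂‖ ≤ ‖y - β₁‖), min_eq_right k1'.le]
      rw [E2 _ k1', k2]
      simp only [hPd, k3, k4, Bool.false_eq_true, if_false]
    exact E3 _ k1 k1'
  have hin : ∀ y : ℂ, ‖y - m‖ < ρ → ¬‖y - β₁‖ < r → ¬‖y - β₂‖ < r → y ∈ V := fun y hy k k' =>
    ⟨hy, by linarith [not_lt.1 k], by linarith [not_lt.1 k']⟩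
  have hPv : ∀ p : ℂ × S2, 3 / 4 < p.2.1.2.im →
      (embL (f p.1) (Q (Θ p.1) p.2)).im ∈ Icc (1 / 4 : ℝ) (3 / 4) := fun p h =>
    emb_ang (by rwa [hI])
  have hO : IsOpen {p : ℂ × S2 | ‖p.1 - m‖ < ρ ∧ 3 / 4 < p.2.1.2.im} :=
    ((o1 m ρ).preimage continuous_fst).inter (emb_open.preimage continuous_snd)
  have hout : ∀ p q : ℂ × S2, ‖p.1 - β₁‖ < r ∨ ‖p.1 - β₂‖ < r → ‖q.1 - m‖ < ρ →
      3 / 4 < q.2.1.2.im → ¬‖q.1 - β₁‖ < r → ¬‖q.1 - β₂‖ < r → E p ≠ E q := by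
    intro p q hp hq hq' k k' e
    rw [E3 q k k'] at e
    have hT := hdom (hPv q hq') (hV' _ (hin _ hq k k'))
    rcases hp with hp | hp
    · exact k (hn1 hT (hPv q hq') (by have := p3 p hp; rwa [← E1 p hp, e] at this))
    · exact k' (hn2 hT (hPv q hq') (by have := q3 p hp; rwa [← E2 p hp, e] at this))
  refine ⟨r, min (d₁ / 2) w, hr, by positivity,
    fun i => ((min_le_left _ _).trans (by linarith)).trans_lt (hd i), E, ?_, ?_, ?_, ?_⟩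
  · refine lo_of_local fun p hp => ?_
    by_cases k1 : ‖p.1 - β₁‖ < r
    · exact ⟨_ ∩ {p | ‖p.1 - β₁‖ < r}, ⟨hp, k1⟩, inter_subset_left,
        (p1.mono (hO.inter p1.1) inter_subset_right).congr fun q hq => E1 q hq.2⟩
    by_cases k2 : ‖p.1 - β₂‖ < r
    · exact ⟨_ ∩ {p | ‖p.1 - β₂‖ < r}, ⟨hp, k2⟩, inter_subset_left,
        (q1.mono (hO.inter q1.1) inter_subset_right).congr fun q hq => E2 q hq.2⟩
    exact ⟨{p | p.1 ∈ V ∧ 3 / 4 < p.2.1.2.im}, ⟨hin _ hp.1 k1 k2, hp.2⟩, fun q hq => ⟨hq.1.1, hq.2⟩,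
      l1.congr fun q hq => E4 q hq.1 hq.2⟩
  · intro p hp q hq e
    by_cases k1 : ‖p.1 - β₁‖ < r
    · by_cases k2 : ‖q.1 - β₁‖ < r
      · exact p2 k1 k2 (by rwa [← E1 p k1, ← E1 q k2])
      by_cases k3 : ‖q.1 - β₂‖ < r
      · exact (hdisj (E p) (by rw [E1 p k1]; exact p3 p k1) (by rw [e, E2 q k3]; exact q3 q k3)).elim
      exact (hout p q (.inl k1) hq.1 hq.2 k2 k3 e).elim
    by_cases k1' : ‖p.1 - β₂‖ < r
    · by_cases k2 : ‖q.1 - β₁‖ < r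
      · exact (hdisj (E q) (by rw [E1 q k2]; exact p3 q k2)
          (by rw [← e, E2 p k1']; exact q3 p k1')).elim
      by_cases k3 : ‖q.1 - β₂‖ < r
      · exact q2 k1' k3 (by rwa [← E2 p k1', ← E2 q k3])
      exact (hout p q (.inr k1') hq.1 hq.2 k2 k3 e).elim
    by_cases k2 : ‖q.1 - β₁‖ < r
    · exact (hout q p (.inl k2) hp.1 hp.2 k1 k1' e.symm).elim
    by_cases k3 : ‖q.1 - β₂‖ < r
    · exact (hout q p (.inr k3) hp.1 hp.2 k1 k1' e.symm).elim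
    exact l2 ⟨hin _ hp.1 k1 k1', hp.2⟩ ⟨hin _ hq.1 k2 k3, hq.2⟩
      (by rwa [E3 p k1 k1', E3 q k2 k3] at e)
  · intro p _ hp
    have b1 := min_le_left (d₁ / 2) w
    have b2 := min_le_right (d₁ / 2) w
    have k1 : r ≤ ‖p.1 - β₁‖ := by linarith [hm p.1 β₁]
    have k2 : r ≤ ‖p.1 - β₂‖ := by linarith [hm p.1 β₂]
    rw [E3 p (not_lt.2 k1) (not_lt.2 k2)]
    simp only [hPd, hfd, w2 p.1 (by linarith), map_one, min_eq_left (le_min k1 k2)]
    rfl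
  · intro p hp hp' y v hT hv hy e
    have b1 := min_le_left (d₁ / 2) w
    by_cases k1 : ‖p.1 - β₁‖ < r
    · have := hn1 hT hv (by have := p3 p k1; rwa [← E1 p k1, e] at this)
      linarith [hm y β₁]
    by_cases k2 : ‖p.1 - β₂‖ < r
    · have := hn2 hT hv (by have := q3 p k2; rwa [← E2 p k2, e] at this)
      linarith [hm y β₂]
    rw [E3 p k1 k2] at e
    exact (hprT (hdom (hPv p hp') (hV' _ (hin _ hp k1 k2))) hT (hPv p hp') hv e).1

/-- The chart of the model space near `z = 1 / 4`, `t = 1 / 2`. -/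
lemma emb_chart {r : ℝ} (hr : 0 < r) : ∃ η > 0, ∃ (W : MM → ℂ × S2) (O : Set MM), LO W O ∧
    InjOn W O ∧ (∀ p, (W p).1 = p.1) ∧ (∀ p ∈ O, 3 / 4 < (W p).2.1.2.im) ∧
    (∀ p ∈ O, ∃ z : ℝ, (z : UnitAddCircle) = p.2.1 ∧ embL r (W p).2 = ⟨z, p.2.2⟩) ∧
    ∀ p : MM, |p.2.2 - 1 / 2| < η →
      1 - η < 2 * ‖p.2.1 - ((3 / 4 : ℝ) : UnitAddCircle)‖ → p ∈ O := by
  obtain ⟨χ, c1, c2, c3⟩ := exists_lat
  obtain ⟨lf, f1, f2, f3⟩ := emb_lift
  have hs0 : χ ⟨(0, I), by simp⟩ = ⟨0, 1 / 2⟩ := by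
    rw [c3]
    have := Real.pi_pos
    refine Complex.ext (by simp) ?_
    simp only [ang, arg_I]
    field_simp
  have hs1 : (⟨(0, I), by simp⟩ : S2) ∈ χ.source := by rw [c1]; simp
  have hU : IsOpen (χ.target ∩ χ.symm ⁻¹' {s : S2 | 3 / 4 < s.1.2.im}) :=
    χ.isOpen_inter_preimage_symm emb_open
  obtain ⟨η, hη, hb⟩ := Metric.isOpen_iff.1 hU ⟨0, 1 / 2⟩ (by
    rw [← hs0]
    refine ⟨χ.map_source hs1, ?_⟩
    rw [mem_preimage, χ.left_inv hs1]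
    norm_num)
  have l1 : LO (fun q : ℝ × ℝ => (⟨(q.1 - 1 / 4) / r, q.2⟩ : ℂ)) univ :=
    lo_of_inverse (g := fun ζ : ℂ => (1 / 4 + r * ζ.re, ζ.im)) isOpen_univ isOpen_univ
      (Continuous.continuousOn (by fun_prop)) (Continuous.continuousOn (by fun_prop))
      (mapsTo_univ _ _) (mapsTo_univ _ _)
      (fun q _ => Prod.ext (by simp only; field_simp; ring) rfl)
      fun ζ _ => Complex.ext (by simp only; field_simp; ring) rfl
  have l2 := l1.comp (f1.prod (lo_id (isOpen_univ (X := ℝ)))) (mapsTo_univ _ _)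
  set Z : UnitAddCircle × ℝ → ℂ := fun q => ⟨(lf q.1 - 1 / 4) / r, q.2⟩ with hZ
  have l3 : LO Z ({x | x ≠ ((3 / 4 : ℝ) : UnitAddCircle)} ×ˢ univ) := l2
  have hO := l3.continuousOn.isOpen_inter_preimage l3.1 hU
  have l4 := (lo_oph χ.symm).comp (l3.mono hO inter_subset_left) fun _ h => h.2.1
  have l5 := (lo_id (isOpen_univ (X := ℂ))).prod l4
  refine ⟨min (min (1 / 2) (η / 2)) (r * η), by positivity, _, _, l5, ?_, fun _ => rfl,
    fun p hp => hp.2.2.2, fun p hp => ⟨lf p.2.1, f2 _, ?_⟩, fun p h1 h2 => ?_⟩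
  · rintro ⟨y, z, t⟩ hp ⟨y', z', t'⟩ hq e
    obtain ⟨rfl, e2⟩ := Prod.mk.inj e
    have e3 : Z (z, t) = Z (z', t') := χ.symm.injOn hp.2.2.1 hq.2.2.1 e2
    have e4 : (lf z - 1 / 4) / r = (lf z' - 1 / 4) / r := congrArg Complex.re e3
    have e5 : t = t' := congrArg Complex.im e3
    rw [div_left_inj' hr.ne', sub_left_inj] at e4
    rw [← f2 z, e4, f2, e5]
    rfl
  · have e1 := χ.right_inv hp.2.2.1
    rw [c3] at e1
    have e2 := congrArg Complex.re e1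
    have e3 := congrArg Complex.im e1
    simp only [hZ] at e2 e3
    refine Complex.ext ?_ e3
    show 1 / 4 + r * _ = lf p.2.1
    refine (congrArg (fun x => 1 / 4 + r * x) e2).trans ?_
    field_simp
    ring
  · have a1 := (min_le_left _ (r * η)).trans (min_le_left (1 / 2) (η / 2))
    have a2 := (min_le_left _ (r * η)).trans (min_le_right (1 / 2) (η / 2))
    have a3 := min_le_right (min (1 / 2) (η / 2)) (r * η)
    have a4 := f3 _ _ h2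
    generalize min (min (1 / 2) (η / 2)) (r * η) = d at h1 h2 a1 a2 a3 a4
    refine ⟨mem_univ _, ⟨fun e => ?_, mem_univ _⟩, hb ?_⟩
    · rw [e, sub_self, norm_zero] at h2
      linarith
    · rw [Metric.mem_ball, dist_eq_norm]
      refine (norm_le_abs_re_add_abs_im _).trans_lt ?_
      simp only [hZ, sub_re, sub_im, sub_zero]
      have a5 : |(lf p.2.1 - 1 / 4) / r| < η / 2 := by
        rw [abs_div, abs_of_pos hr, div_lt_iff₀ hr]
        linarith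
      linarith

theorem Br.exists_emb {ι : Type} [Finite ι] (A : Br ι) {m ρ : ℝ} {i₁ i₂ : ι} (h12 : i₁ ≠ i₂)
    (hc : ∀ i, ∀ t ∈ Icc (1 / 4 : ℝ) (3 / 4), A.b i t = A.b i (1 / 2))
    (h1 : ‖A.b i₁ (1 / 2) - m‖ < ρ) (h2 : ‖A.b i₂ (1 / 2) - m‖ < ρ)
    (h3 : ∀ i, i ≠ i₁ → i ≠ i₂ → ρ < ‖A.b i (1 / 2) - m‖) :
    ∃ δ > 0, δ < 1 / 4 ∧ (∀ i, δ < |‖A.b i (1 / 2) - m‖ - ρ|) ∧ ∃ e : MM → A.X,
      LO e (domG m ρ δ) ∧ InjOn e (domG m ρ δ) ∧
      ∀ p ∈ domG m ρ δ, ρ - δ < ‖p.1 - m‖ → e p = A.prC p := by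
  classical
  obtain ⟨r, d, hr, hd, hd', E, e1, e2, e3, e4⟩ := emb_inner A h12 hc h1 h2 h3
  obtain ⟨η, hη, W, O, w1, w2, w3, w4, w5, w6⟩ := emb_chart hr
  have hρ : 0 < ρ := (norm_nonneg _).trans_lt h1
  obtain ⟨δ, hδ, d1, d2, d3, d4⟩ : ∃ δ > 0, δ ≤ 1 / 8 ∧ δ ≤ η ∧ δ ≤ d / 2 ∧ δ ≤ d / (2 * ρ) :=
    ⟨min (min (1 / 8) η) (min (d / 2) (d / (2 * ρ))), by positivity,
      (min_le_left _ _).trans (min_le_left _ _), (min_le_left _ _).trans (min_le_right _ _),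
      (min_le_right _ _).trans (min_le_left _ _), (min_le_right _ _).trans (min_le_right _ _)⟩
  rw [le_div_iff₀ (by positivity)] at d4
  have hδρ : 0 < δ * ρ := by positivity
  have hG : IsOpen (domG m ρ δ) := by
    have o1 : IsOpen {p : MM | ‖p.1 - m‖ < ρ + δ} := isOpen_lt (by fun_prop) continuous_const
    have o2 : IsOpen {p : MM | |p.2.2 - 1 / 2| < δ} := isOpen_lt (by fun_prop) continuous_const
    have o3 : IsOpen {p : MM | 1 - δ < nrm m ρ p} :=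
      isOpen_lt continuous_const (by unfold nrm; fun_prop)
    exact o1.inter (o2.inter o3)
  have ht : ∀ p ∈ domG m ρ δ, p.2.2 ∈ Icc (1 / 4 : ℝ) (3 / 4) := fun p hp => by
    have := abs_lt.1 hp.2.1
    constructor <;> linarith [this.1, this.2]
  have hC : ∀ p ∈ domG m ρ δ, ρ - d < ‖p.1 - m‖ → ∀ i, p.1 ≠ A.b i p.2.2 := fun p hp h i e => by
    have a1 := hd' i
    have a2 := hp.1
    rw [← hc i _ (ht p hp), ← e, lt_abs] at a1
    rcases a1 with a1 | a1 <;> linarith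
  have hO : ∀ p ∈ domG m ρ δ, ‖p.1 - m‖ < ρ - δ * ρ → p ∈ O := fun p hp h => by
    refine w6 p (hp.2.1.trans_le d2) ?_
    rcases lt_max_iff.1 hp.2.2 with a1 | a1
    · rw [lt_div_iff₀ hρ] at a1
      linarith
    · linarith
  have hM : ∀ p ∈ domG m ρ δ, ‖p.1 - m‖ < ρ - δ * ρ →
      ‖(W p).1 - m‖ < ρ ∧ 3 / 4 < (W p).2.1.2.im := fun p hp h =>
    ⟨by rw [w3]; linarith, w4 p (hO p hp h)⟩
  set e : MM → A.X := fun p => if ρ - d < ‖p.1 - m‖ then A.prC p else E (W p) with he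
  have k1 : ∀ p : MM, ρ - d < ‖p.1 - m‖ → e p = A.prC p := fun p h => if_pos h
  have k2 : ∀ p ∈ domG m ρ δ, ‖p.1 - m‖ < ρ - δ * ρ → e p = E (W p) := fun p hp h => by
    by_cases h' : ρ - d < ‖p.1 - m‖
    · obtain ⟨z, z1, z2⟩ := w5 p (hO p hp h)
      rw [k1 p h', e3 _ (hM p hp h).1 (by rwa [w3]), z2, w3, ← A.prC_eq, z1]
    · exact if_neg h'
  have k3 : ∀ p ∈ domG m ρ δ, ∀ q ∈ domG m ρ δ, ¬ρ - d < ‖p.1 - m‖ → ρ - d < ‖q.1 - m‖ →
      e p ≠ e q := fun p hp q hq h h' e' => by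
    have a1 : ‖p.1 - m‖ < ρ - δ * ρ := by linarith [not_lt.1 h]
    rw [k2 p hp a1, k1 q h'] at e'
    have a2 := e4 _ (hM p hp a1).1 (hM p hp a1).2 q.1
      ⟨(AddCircle.equivIco 1 0 q.2.1 : ℝ), q.2.2⟩ (hC q hq h') (ht q hq) h' e'
    rw [w3] at a2
    exact h (a2 ▸ h')
  refine ⟨δ, hδ, by linarith, fun i => lt_trans (by linarith) (hd' i), e, ?_, ?_,
    fun p _ h => k1 p (by linarith)⟩
  · refine lo_of_local fun p hp => ?_
    by_cases h : ρ - d < ‖p.1 - m‖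
    · have o : IsOpen {p : MM | ρ - d < ‖p.1 - m‖} := isOpen_lt continuous_const (by fun_prop)
      exact ⟨_ ∩ {p : MM | ρ - d < ‖p.1 - m‖}, ⟨hp, h⟩, inter_subset_left,
        (A.lo_prC.mono (hG.inter o) fun q hq => hC q hq.1 hq.2).congr fun q hq => k1 q hq.2⟩
    · have o : IsOpen {p : MM | ‖p.1 - m‖ < ρ - δ * ρ} := isOpen_lt (by fun_prop) continuous_const
      have a1 : ‖p.1 - m‖ < ρ - δ * ρ := by linarith [not_lt.1 h]
      exact ⟨_ ∩ {p : MM | ‖p.1 - m‖ < ρ - δ * ρ}, ⟨hp, a1⟩,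
        inter_subset_left, (e1.comp (w1.mono (hG.inter o) fun q hq => hO q hq.1 hq.2)
          fun q hq => hM q hq.1 hq.2).congr fun q hq => k2 q hq.1 hq.2⟩
  · intro p hp q hq e'
    have hI : ∀ p ∈ domG m ρ δ, p.2.2 ∈ Ioo (0 : ℝ) 1 := fun p hp =>
      ⟨by linarith [(ht p hp).1], by linarith [(ht p hp).2]⟩
    by_cases h : ρ - d < ‖p.1 - m‖ <;> by_cases h' : ρ - d < ‖q.1 - m‖
    · exact A.injOn_prC ⟨hC p hp h, hI p hp⟩ ⟨hC q hq h', hI q hq⟩ (by rwa [k1 p h, k1 q h'] at e')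
    · exact (k3 q hq p hp h' h e'.symm).elim
    · exact (k3 p hp q hq h h' e').elim
    · have a1 : ‖p.1 - m‖ < ρ - δ * ρ := by linarith [not_lt.1 h]
      have a2 : ‖q.1 - m‖ < ρ - δ * ρ := by linarith [not_lt.1 h']
      rw [k2 p hp a1, k2 q hq a2] at e'
      exact w2 (hO p hp a1) (hO q hq a2) (e2 (hM p hp a1) (hM q hq a2) e')

end Pool.Agent.Lib.MP_45bb13_gt
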