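import Pool.Agent.Lib.MP_45bb13_gt.XTop

/-! Equivariant maps of the braid complements extend over the caps. -/

set_option linter.unusedSectionVars false

namespace Pool.Agent.Lib.MP_45bb13_gt

open Set Filter Topology Complex
open scoped ComplexConjugate

/-- A cutoff function: one up to `ρ`, zero from `2 ρ`. -/
noncomputable def extChi (ρ x : ℝ) : ℝ := max 0 (min 1 (2 - x / ρ))

lemma ext_chi_one {ρ x : ℝ} (hρ : 0 < ρ) (h : x ≤ ρ) : extChi ρ x = 1 := by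
  have h1 : x / ρ ≤ 1 := (div_le_one hρ).2 h
  rw [extChi, min_eq_left (by linarith), max_eq_right zero_le_one]

lemma ext_chi_zero {ρ x : ℝ} (hρ : 0 < ρ) (h : 2 * ρ ≤ x) : extChi ρ x = 0 := by
  have h1 : 2 ≤ x / ρ := (le_div_iff₀ hρ).2 h
  exact max_eq_left ((min_le_right _ _).trans (by linarith))

lemma ext_chi_cont (ρ : ℝ) : Continuous (extChi ρ) := by
  unfold extChi
  fun_prop

lemma ext_cj_sum {ι : Type} (n : ℤ) (s : Finset ι) (f : ι → ℂ) :
    cj n (∑ i ∈ s, f i) = ∑ i ∈ s, cj n (f i) := by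
  unfold cj
  split_ifs
  · rfl
  · exact map_sum _ _ _

section twist

variable {ι : Type} [Fintype ι] (B : Br ι) (η : ι → ℝ → ℝ) (ρ : ℝ)

/-- A twist about each strand, cut off at distance `2 ρ`. -/
noncomputable def extU (s : ℝ) (p : CC) : CC :=
  (p.1 + ∑ i, (ee (s * (extChi ρ ‖p.1 - B.b i p.2.im‖ * η i p.2.im)) - 1) * (p.1 - B.b i p.2.im),
    p.2)

variable {B η ρ}

lemma ext_far (hρ : 0 < ρ) (s : ℝ) {p : CC} (h : ∀ i, 2 * ρ ≤ ‖p.1 - B.b i p.2.im‖) :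
    extU B η ρ s p = p := by
  refine Prod.ext ?_ rfl
  simp only [extU]
  rw [Finset.sum_eq_zero, add_zero]
  intro i _
  rw [ext_chi_zero hρ (h i), zero_mul, mul_zero, ee_zero, sub_self, zero_mul]

lemma ext_near (hρ : 0 < ρ) (he : 2 * ρ ≤ B.eps) (s : ℝ) {p : CC} {i : ι}
    (h : ‖p.1 - B.b i p.2.im‖ < B.eps) : extU B η ρ s p =
      (B.b i p.2.im + ee (s * (extChi ρ ‖p.1 - B.b i p.2.im‖ * η i p.2.im)) *
        (p.1 - B.b i p.2.im), p.2) := by
  refine Prod.ext ?_ rfl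
  simp only [extU]
  rw [Finset.sum_eq_single i]
  · ring
  · intro j _ hj
    have h' : B.eps ≤ ‖p.1 - B.b j p.2.im‖ := not_lt.1 fun h' => hj (B.close_unique h' h)
    rw [ext_chi_zero hρ (he.trans h'), zero_mul, mul_zero, ee_zero, sub_self, zero_mul]
  · exact fun h => absurd (Finset.mem_univ i) h

lemma ext_norm (hρ : 0 < ρ) (he : 2 * ρ ≤ B.eps) (s : ℝ) {p : CC} {i : ι}
    (h : ‖p.1 - B.b i p.2.im‖ < B.eps) :
    ‖(extU B η ρ s p).1 - B.b i (extU B η ρ s p).2.im‖ = ‖p.1 - B.b i p.2.im‖ := by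
  rw [ext_near hρ he s h]
  simp only [add_sub_cancel_left, norm_mul, norm_ee, one_mul]

lemma ext_inv (hρ : 0 < ρ) (he : 2 * ρ ≤ B.eps) (s : ℝ) (p : CC) :
    extU B η ρ (-s) (extU B η ρ s p) = p := by
  by_cases h : ∃ i, ‖p.1 - B.b i p.2.im‖ < B.eps
  · obtain ⟨i, h⟩ := h
    have h' := ext_norm (η := η) hρ he s h
    rw [ext_near hρ he (-s) (h'.trans_lt h), h', ext_near hρ he s h]
    refine Prod.ext ?_ rfl
    simp only [add_sub_cancel_left]
    rw [← mul_assoc, mul_comm (ee _) (ee _), neg_mul, ee_mul_neg]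
    ring
  · have h' : ∀ i, 2 * ρ ≤ ‖p.1 - B.b i p.2.im‖ := fun i => he.trans (not_lt.1 fun h' => h ⟨i, h'⟩)
    rw [ext_far hρ s h', ext_far hρ _ h']

lemma ext_cont (hη : ∀ i, Continuous (η i)) (s : ℝ) : Continuous (extU B η ρ s) := by
  have h1 := B.cont
  have h2 := ext_chi_cont ρ
  unfold extU
  refine Continuous.prodMk (continuous_fst.add (continuous_finsetSum _ fun i _ => ?_))
    continuous_snd
  have h3 := h1 i
  have h4 := hη i
  fun_prop

lemma ext_smul (ho : ∀ i t, η i (t + 1) = -η i t) (s : ℝ) (g : SD ℤ) (p : CC) :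
    extU B η ρ s (g • p) = g • extU B η ρ s p := by
  refine Prod.ext ?_ rfl
  simp only [extU, actT_def]
  rw [cj_plus, ext_cj_sum]
  congr 1
  refine Finset.sum_congr rfl fun i _ => ?_
  have h1 : cj g.n 1 = 1 := by simpa using cj_ofReal g.n 1
  rw [B.b_int, ← cj_sub, norm_cj, odd_int (ho i), cj_mul, cj_sub g.n (ee _), cj_ee, h1]
  congr 3
  ring

lemma ext_domT (hρ : 0 < ρ) (he : 2 * ρ ≤ B.eps) (s : ℝ) {p : CC} (hp : p ∈ B.domT) :
    extU B η ρ s p ∈ B.domT := by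
  intro i hi
  have h0 : ‖(extU B η ρ s p).1 - B.b i (extU B η ρ s p).2.im‖ = 0 := by
    rw [hi, sub_self, norm_zero]
  have h1 := ext_norm (η := η) hρ he (-s) (h0.trans_lt B.eps_pos)
  rw [ext_inv hρ he, h0, norm_eq_zero, sub_eq_zero] at h1
  exact hp i h1

/-- The twist as a homeomorphism. -/
lemma ext_lo (hρ : 0 < ρ) (he : 2 * ρ ≤ B.eps) (hη : ∀ i, Continuous (η i)) (s : ℝ) :
    LO (extU B η ρ s) univ :=
  lo_of_inverse (g := extU B η ρ (-s)) (U := univ) isOpen_univ isOpen_univ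
    (ext_cont hη s).continuousOn (ext_cont hη (-s)).continuousOn (mapsTo_univ _ _)
    (mapsTo_univ _ _) (fun x _ => ext_inv hρ he s x) fun y _ => by
      simpa using ext_inv (η := η) hρ he (-s) y

end twist

section caps

variable {ι : Type} [Finite ι] (B : Br ι) {ρ : ℝ}

lemma ext_lo_caps (he : ρ ≤ B.eps) :
    LO (fun x : Σ _ : Option ι, N => B.jj x.1 x.2) {x | x.2 ∈ Nr ρ} := by
  refine ⟨isOpen_sigma_iff.2 fun _ => isOpen_Nr ρ, fun x hx => ?_⟩
  obtain ⟨k, n⟩ := x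
  rw [Sigma.nhds_mk, Filter.map_map]
  exact (B.lo_jj k).2 n (lt_of_lt_of_le hx he)

lemma ext_caps_iff (he : ρ ≤ B.eps) {x y : Σ _ : Option ι, N} (hx : x.2 ∈ Nr ρ)
    (hy : y.2 ∈ Nr ρ) : B.jj x.1 x.2 = B.jj y.1 y.2 ↔ x = y := by
  refine ⟨fun h => ?_, fun h => by rw [h]⟩
  obtain ⟨k, n⟩ := x
  obtain ⟨l, m⟩ := y
  have hn : n ∈ Nr B.eps := lt_of_lt_of_le hx he
  have hm : m ∈ Nr B.eps := lt_of_lt_of_le hy he
  obtain rfl : k = l := B.jj_disj hn hm h
  obtain rfl : n = m := B.jj_injOn k hn hm h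
  rfl

/-- The complement of the image of an invariant set that stays away from the strands. -/
lemma ext_compl (hρ : 0 < ρ) (he : ρ ≤ B.eps) {S : Set CC} (hS : S ⊆ B.domT)
    (hg : ∀ g : SD ℤ, ∀ p ∈ S, g • p ∈ S) (hn : ∀ k p, B.Near k ρ p → p ∈ S) :
    B.prT '' S ∪ (fun x : Σ _ : Option ι, N => B.jj x.1 x.2) '' {x | x.2 ∈ Nr ρ} =
      (B.prT '' (B.domT \ S))ᶜ := by
  refine Subset.antisymm ?_ fun x hx => ?_
  · rintro x (⟨p, hp, rfl⟩ | ⟨⟨k, n⟩, hn', rfl⟩) ⟨q, hq, e⟩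
    · obtain ⟨g, rfl⟩ := (B.prT_eq_iff (hS hp) hq.1).1 e.symm
      exact hq.2 (hg g p hp)
    · exact hq.2 (hn k q ((B.near_iff hq.1 he).1 ⟨n, hn', e.symm⟩))
  · rcases B.X_cases x with ⟨p, hp, rfl⟩ | ⟨k, n, h0, rfl⟩
    · exact .inl ⟨p, by_contra fun h => hx ⟨p, ⟨hp, h⟩, rfl⟩, rfl⟩
    · exact .inr ⟨⟨k, n⟩, h0.trans_lt hρ, rfl⟩

end caps

theorem Br.extend {ι : Type} [Finite ι] (A A' : Br ι) (Φ : OpenPartialHomeomorph CC CC)
    (hs : Φ.source ⊆ A.domT) (ht : Φ.target ⊆ A'.domT)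
    (h1 : ∀ g : SD ℤ, ∀ p ∈ Φ.source, g • p ∈ Φ.source ∧ Φ (g • p) = g • Φ p) {r : ℝ} (hr : 0 < r)
    (η : ι → ℝ → ℝ) (hη : ∀ i, Continuous (η i)) (ho : ∀ i t, η i (t + 1) = -η i t)
    (h2 : ∀ i p, A.Near (some i) r p → p ∈ Φ.source ∧
      Φ p = (A'.b i p.2.im + ee (η i p.2.im) * (p.1 - A.b i p.2.im), p.2))
    (h3 : ∀ p, A.Near none r p → p ∈ Φ.source ∧ Φ p = p) :
    ∃ f : OpenPartialHomeomorph A.X A'.X, f.source = (A.prT '' (A.domT \ Φ.source))ᶜ ∧
      f.target = (A'.prT '' (A'.domT \ Φ.target))ᶜ ∧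
      ∀ p ∈ Φ.source, (∀ i, r ≤ ‖p.1 - A.b i p.2.im‖) → f (A.prT p) = A'.prT (Φ p) := by
  have := Fintype.ofFinite ι
  obtain ⟨ρ, hρ, hρr, hρA, hρA'⟩ : ∃ ρ : ℝ, 0 < ρ ∧ 2 * ρ ≤ r ∧ 2 * ρ ≤ A.eps ∧ 2 * ρ ≤ A'.eps := by
    have e1 := A.eps_pos
    have e2 := A'.eps_pos
    refine ⟨min r (min A.eps A'.eps) / 2, by positivity, ?_, ?_, ?_⟩
    · linarith [min_le_left r (min A.eps A'.eps)]
    · linarith [min_le_right r (min A.eps A'.eps), min_le_left A.eps A'.eps]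
    · linarith [min_le_right r (min A.eps A'.eps), min_le_right A.eps A'.eps]
  have hρ1 : ρ ≤ r := by linarith
  have hρ2 : ρ ≤ A.eps := by linarith
  have hρ3 : ρ ≤ A'.eps := by linarith
  set U := extU A' η ρ (-1) with hU
  -- points close to a strand of the target come from points close to the strand of the source
  have hback : ∀ i q, A'.Near (some i) r q → ∃ p, A.Near (some i) r p ∧ Φ p = q := by
    intro i q hq
    have hp : A.Near (some i) r
        (A.b i q.2.im + ee (-η i q.2.im) * (q.1 - A'.b i q.2.im), q.2) := by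
      simpa only [Br.Near, Br.dst, add_sub_cancel_left, norm_mul, norm_ee, one_mul] using hq
    refine ⟨_, hp, ?_⟩
    rw [(h2 i _ hp).2]
    refine Prod.ext ?_ rfl
    simp only [add_sub_cancel_left]
    rw [← mul_assoc, ee_mul_neg]
    ring
  have hnear : ∀ k p, A.Near k r p → p ∈ Φ.source := by
    rintro (_ | i) p hp
    · exact (h3 p hp).1
    · exact (h2 i p hp).1
  have hnear' : ∀ k q, A'.Near k r q → q ∈ Φ.target := by
    rintro (_ | i) q hq
    · have := Φ.map_source (h3 q hq).1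
      rwa [(h3 q hq).2] at this
    · obtain ⟨p, hp, rfl⟩ := hback i q hq
      exact Φ.map_source (h2 i p hp).1
  have hUt : ∀ s, ∀ q ∈ Φ.target, extU A' η ρ s q ∈ Φ.target := by
    intro s q hq
    by_cases h : ∀ i, 2 * ρ ≤ ‖q.1 - A'.b i q.2.im‖
    · rwa [ext_far hρ s h]
    · obtain ⟨i, hi⟩ := not_forall.1 h
      have hi' := not_le.1 hi
      have e := ext_norm (η := η) hρ hρA' s (hi'.trans_le hρA')
      refine hnear' (some i) _ ⟨?_, ?_⟩
      · exact (norm_pos_iff.2 (sub_ne_zero.2 (ht hq i))).trans_eq e.symm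
      · exact e.trans_lt (hi'.trans_le hρr)
  have himg : (A'.prT ∘ U ∘ Φ) '' Φ.source = A'.prT '' Φ.target := by
    rw [image_comp, image_comp, Φ.image_source_eq_target]
    congr 1
    refine Subset.antisymm ?_ fun q hq => ⟨extU A' η ρ 1 q, hUt 1 q hq, ext_inv hρ hρA' 1 q⟩
    rintro _ ⟨q, hq, rfl⟩
    exact hUt _ q hq
  have hm : MapsTo (U ∘ Φ) Φ.source A'.domT := fun p hp =>
    ext_domT hρ hρA' _ (ht (Φ.map_source hp))
  have hfib : ∀ x ∈ Φ.source, ∀ y ∈ Φ.source,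
      A.prT x = A.prT y ↔ (A'.prT ∘ U ∘ Φ) x = (A'.prT ∘ U ∘ Φ) y := by
    intro x hx y hy
    rw [A.prT_eq_iff (hs hx) (hs hy), Function.comp_apply, Function.comp_apply (f := A'.prT),
      A'.prT_eq_iff (hm hx) (hm hy)]
    refine exists_congr fun g => ?_
    simp only [Function.comp_apply, hU]
    rw [← ext_smul ho, ← (h1 g x hx).2]
    refine ⟨fun h => by rw [h], fun h => Φ.injOn (h1 g x hx).1 hy ?_⟩
    have := congrArg (extU A' η ρ (-(-1))) h
    rwa [ext_inv hρ hρA', ext_inv hρ hρA'] at this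
  have hloc : ∀ k t s c z, 0 < s → s < ρ → (A.loc k t s c, (⟨z, t⟩ : ℂ)) ∈ Φ.source ∧
      U (Φ (A.loc k t s c, ⟨z, t⟩)) = (A'.loc k t s c, ⟨z, t⟩) := by
    intro k t s c z h0 hlt
    have hp : A.Near k r (A.loc k t s c, ⟨z, t⟩) := by
      rw [Br.Near, A.dst_loc k t h0]
      exact ⟨h0, hlt.trans_le hρ1⟩
    refine ⟨hnear k _ hp, ?_⟩
    rcases k with _ | i
    · rw [(h3 _ hp).2]
      refine ext_far hρ _ fun i => hρA'.trans (not_lt.1 fun h => ?_)
      have hp' : A'.Near none A'.eps (A'.loc none t s c, ⟨z, t⟩) := by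
        rw [Br.Near, A'.dst_loc none t h0]
        exact ⟨h0, hlt.trans_le hρ3⟩
      have := A'.near_unique hp' (l := some i)
        ⟨norm_pos_iff.2 (sub_ne_zero.2 (A'.near_domT le_rfl hp' i)), h⟩
      cases this
    · rw [(h2 i _ hp).2]
      have hn : ‖A'.b i t + ee (η i t) * (A.loc (some i) t s c - A.b i t) - A'.b i t‖ = s := by
        simp only [Br.loc, add_sub_cancel_left, norm_mul, norm_ee, one_mul, mul_one, norm_real,
          Real.norm_eq_abs, abs_of_pos h0]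
      rw [hU, ext_near (i := i) hρ hρA' _ (hn.trans_lt (hlt.trans_le hρ3))]
      refine Prod.ext ?_ rfl
      simp only
      rw [hn, ext_chi_one hρ hlt.le]
      simp only [Br.loc, add_sub_cancel_left, one_mul, neg_mul]
      rw [← mul_assoc, mul_comm (ee _) (ee _), ee_mul_neg, one_mul]
  obtain ⟨f, e1, e2, e3, -⟩ := oph_two (A.lo_prT.mono Φ.open_source hs) (ext_lo_caps A hρ2)
    (A'.lo_prT.comp ((ext_lo hρ hρA' hη (-1)).comp (lo_oph Φ) (mapsTo_univ _ _)) hm)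
    (ext_lo_caps A' hρ3) hfib
    (by
      rintro x hx ⟨k, n⟩ hn
      rcases (wabs_nonneg n).eq_or_lt with h0 | h0
      · exact iff_of_false (A.jj_ne_prT h0.symm (hs hx)).symm (A'.jj_ne_prT h0.symm (hm hx)).symm
      · obtain ⟨u, t, e⟩ := exists_pw h0
        obtain ⟨hx0, hx1⟩ := hloc k t (wabs n) u.re u.im h0 hn
        have a1 : A.jj k n = A.prT (A.loc k t (wabs n) u.re, ⟨u.im, t⟩) := by
          rw [← A.pW_eq k u h0 t, Br.pW, ← e]
        have a2 : A'.jj k n = (A'.prT ∘ U ∘ Φ) (A.loc k t (wabs n) u.re, ⟨u.im, t⟩) := by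
          simp only [Function.comp_apply]
          rw [hx1, ← A'.pW_eq k u h0 t, Br.pW, ← e]
        simp only
        rw [a1, a2]
        exact hfib x hx _ hx0)
    fun x hx y hy => (ext_caps_iff A hρ2 hx hy).trans (ext_caps_iff A' hρ3 hx hy).symm
  refine ⟨f, ?_, ?_, fun p hp hfar => ?_⟩
  · rw [e1]
    exact ext_compl A hρ hρ2 hs (fun g p hp => (h1 g p hp).1)
      fun k p hp => hnear k p ⟨hp.1, hp.2.trans_le hρ1⟩
  · rw [e2, himg]
    refine ext_compl A' hρ hρ3 ht (fun g q hq => ?_)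
      fun k p hp => hnear' k p ⟨hp.1, hp.2.trans_le hρ1⟩
    have hp := Φ.map_target hq
    have := Φ.map_source (h1 g _ hp).1
    rwa [(h1 g _ hp).2, Φ.right_inv hq] at this
  · rw [e3 p hp]
    simp only [Function.comp_apply]
    rw [ext_far hρ _ fun i => hρr.trans (not_lt.1 fun h => ?_)]
    obtain ⟨p', hp', e⟩ := hback i (Φ p)
      ⟨norm_pos_iff.2 (sub_ne_zero.2 (ht (Φ.map_source hp) i)), h⟩
    obtain rfl : p' = p := Φ.injOn (h2 i p' hp').1 hp e
    exact absurd hp'.2 (not_lt.2 (hfar i))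

end Pool.Agent.Lib.MP_45bb13_gt
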