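import Pool.Agent.Lib.MP_45bb13_gt.Basic
import Pool.Agent.Lib.MP_45bb13_gt.HDefs
import Pool.Agent.Lib.MP_45bb13_gt.Loc

/-! Standard intersection points. -/

set_option linter.unusedSectionVars false

namespace Pool.Agent.Lib.MP_45bb13_gt

open Set Filter Topology Complex
open scoped ComplexConjugate

variable {X Y : Type} [TopologicalSpace X] [TopologicalSpace Y] {f f' g g' : ℂ → X} {a a' : ℂ}

lemma LocStd.symm (h : LocStd f f' a a') : LocStd f' f a' a := by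
  obtain ⟨ψ, h, h', a1, a2, a3, a4, a5, a6, a7⟩ := h
  exact ⟨ψ ∘ Homeomorph.prodComm ℂ ℂ, h', h, Lemb.comp a1 (le_homeo _ 0), a3, a2, a5, a4, a7, a6⟩

lemma LocStd.congr (h : LocStd f f' a a') (h1 : g =ᶠ[𝓝 a] f) (h2 : g' =ᶠ[𝓝 a'] f') :
    LocStd g g' a a' := by
  obtain ⟨ψ, h, h', a1, a2, a3, a4, a5, a6, a7⟩ := h
  exact ⟨ψ, h, h', a1, a2, a3, a4, a5, h1.trans a6, h2.trans a7⟩

lemma LocStd.post (h : LocStd f f' a a') {j : X → Y} (hj : Lemb j (f a)) :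
    LocStd (j ∘ f) (j ∘ f') a a' := by
  obtain ⟨ψ, h, h', a1, a2, a3, a4, a5, a6, a7⟩ := h
  rw [a6.self_of_nhds, a4] at hj
  exact ⟨j ∘ ψ, h, h', Lemb.comp hj a1, a2, a3, a4, a5, a6.mono fun _ => congrArg j,
    a7.mono fun _ => congrArg j⟩

lemma LocStd.pre (h : LocStd f f' a a') {α α' : ℂ → ℂ} {b b' : ℂ} (h1 : Lemb α b) (h2 : Lemb α' b')
    (e1 : α b = a) (e2 : α' b' = a') : LocStd (f ∘ α) (f' ∘ α') b b' := by
  obtain ⟨ψ, h, h', a1, a2, a3, a4, a5, a6, a7⟩ := h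
  subst e1 e2
  exact ⟨ψ, h ∘ α, h' ∘ α', a1, a2.comp h1, a3.comp h2, a4, a5, h1.continuousAt.eventually a6,
    h2.continuousAt.eventually a7⟩

lemma lemb_shear {u : ℂ → ℂ} (hu : ∀ᶠ x in 𝓝 a, ContinuousAt u x) (b : ℂ) :
    Lemb (fun p : CC => (p.1, u p.1 + p.2)) (a, b) := by
  obtain ⟨W, w1, w2, w3⟩ := mem_nhds_iff.1 hu
  have h : ContinuousOn (fun p : CC => u p.1) (W ×ˢ univ) := fun p hp =>
    ((w1 hp.1 : ContinuousAt u p.1).comp continuousAt_fst).continuousWithinAt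
  refine ⟨W ×ˢ univ, ⟨w3, trivial⟩, lo_of_inverse (g := fun p => (p.1, p.2 - u p.1))
    (w2.prod isOpen_univ) (w2.prod isOpen_univ) (continuousOn_fst.prodMk (h.add continuousOn_snd))
    (continuousOn_fst.prodMk (continuousOn_snd.sub h)) (fun _ h => ⟨h.1, trivial⟩)
    (fun _ h => ⟨h.1, trivial⟩) (by simp) (by simp), fun p _ q _ e => ?_⟩
  obtain ⟨e1, e2⟩ := Prod.mk.inj e
  exact Prod.ext e1 (by rwa [e1, add_right_inj] at e2)

/-- Two graphs whose difference is a local homeomorphism. -/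
theorem locStd_graph {χ : CC → X} {u u' : ℂ → ℂ} (hχ : Lemb χ (a, u a))
    (hu : ∀ᶠ x in 𝓝 a, ContinuousAt u x) (h0 : u' a = u a) (hd : Lemb (fun x => u' x - u x) a) :
    LocStd (fun x => χ (x, u x)) (fun x => χ (x, u' x)) a a := by
  obtain ⟨φ, e, ha, -⟩ := hd.oph univ_mem
  have e0 : φ a = 0 := by simp [e, h0]
  have e1 : φ.symm 0 = a := by rw [← e0, φ.left_inv ha]
  have h1 := lemb_shear (a := 0) (u := φ.symm) (by
    filter_upwards [φ.open_target.mem_nhds (e0 ▸ φ.map_source ha)] with y hy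
    exact φ.continuousAt_symm hy) 0
  have h2 := ((le_homeo (Homeomorph.prodComm ℂ ℂ) _).comp h1).comp
    (p := Homeomorph.prodComm ℂ ℂ) (x := 0) (le_homeo _ 0)
  have h3 := Lemb.comp (x := 0) (by simpa [e1] using lemb_shear hu 0) h2
  refine ⟨_, fun x => x - a, _, Lemb.comp (x := 0) (by simpa [e1] using hχ) h3,
    le_homeo (Homeomorph.subRight a) a, hd, sub_self a, by simp [h0], .of_forall fun x => ?_, ?_⟩
  · simp [e1]
  · filter_upwards [φ.open_source.mem_nhds ha] with x hx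
    have := φ.left_inv hx
    rw [e] at this
    simp [this]

lemma le_lin {c : ℂ} (hc : c ≠ 0) (d a : ℂ) : Lemb (fun x => c * x + d) a :=
  le_homeo ((Homeomorph.mulLeft₀ c hc).trans (.addRight d)) a

lemma le_conj {c : ℂ} (hc : c ≠ 0) (a : ℂ) : Lemb (fun x => c * conj x) a :=
  le_homeo (conjCLE.toHomeomorph.trans (.mulLeft₀ c hc)) a

lemma meets_zero (h : ∀ x ∈ D1, ∀ x' ∈ D1, f x ≠ f' x') : Meets f f' 0 :=
  ⟨∅, rfl, fun x hx x' hx' e => (h x hx x' hx' e).elim, by simp⟩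

lemma meets_one (h : ∀ x ∈ D1, ∀ x' ∈ D1, f x = f' x' → x = a ∧ x' = a') (ha : ‖a‖ < 1)
    (ha' : ‖a'‖ < 1) (hs : LocStd f f' a a') : Meets f f' 1 :=
  ⟨{(a, a')}, rfl, fun x hx x' hx' e => by simpa using h x hx x' hx' e, by simpa using ⟨ha, ha', hs⟩⟩

lemma Meets.post {n : ℕ} (h : Meets f f' n) {j : X → Y} {U : Set X} (hj : LO j U) (hi : InjOn j U)
    (mf : MapsTo f D1 U) (mf' : MapsTo f' D1 U) : Meets (j ∘ f) (j ∘ f') n := by
  obtain ⟨S, h1, h2, h3⟩ := h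
  exact ⟨S, h1, fun x hx x' hx' e => h2 x hx x' hx' (hi (mf hx) (mf' hx') e), fun a ha =>
    ⟨(h3 a ha).1, (h3 a ha).2.1, (h3 a ha).2.2.post
      (hj.le hi (mf (mem_closedBall_zero_iff.2 (h3 a ha).1.le)))⟩⟩

end Pool.Agent.Lib.MP_45bb13_gt
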