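import Pool.Agent.Lib.MP_45bb13_gt.XTop
import Pool.Agent.Lib.MP_45bb13_gt.Std

/-! Filling in the strands. -/

set_option linter.unusedSectionVars false

namespace Pool.Agent.Lib.MP_45bb13_gt

open Set Filter Topology Complex
open scoped ComplexConjugate

private lemma fill_aux_ev {r z : ℝ} {τ : ℂ} (hr : 0 < r) (hz : z ≠ 1 / 4) :
    cd r z τ =ᶠ[𝓝 0] (fun x => hs (decide (1 / 4 < z))
      (x, τ * r / ((|z - 1 / 4| : ℝ) : ℂ) ^ 2 * x)) ∘ fun x => (|z - 1 / 4| / r : ℝ) * x + 0 := by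
  filter_upwards [Metric.closedBall_mem_nhds (0 : ℂ) hr] with x hx
  have h1 : ((|z - 1 / 4| : ℝ) : ℂ) ≠ 0 := ofReal_ne_zero.2 (abs_ne_zero.2 (sub_ne_zero.2 hz))
  have h2 : (r : ℂ) ≠ 0 := ofReal_ne_zero.2 hr.ne'
  rw [cd_near hr hz (by simpa using hx), Function.comp_apply, add_zero]
  congr 2
  rw [ofReal_div]
  field_simp

/-- Two cap discs meet in a standard way at the pole. -/
theorem cd_std {r z z' : ℝ} {τ : ℂ} (hr : 0 < r) (hτ : τ ≠ 0) (hz : z ≠ z')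
    (h : (z < 1 / 4 ∧ z' < 1 / 4) ∨ (1 / 4 < z ∧ 1 / 4 < z')) :
    LocStd (cd r z τ) (cd r z' τ) 0 0 := by
  have hz1 : z ≠ 1 / 4 := by rcases h with h | h <;> [exact h.1.ne; exact h.1.ne']
  have hz2 : z' ≠ 1 / 4 := by rcases h with h | h <;> [exact h.2.ne; exact h.2.ne']
  have hσ : decide (1 / 4 < z') = decide (1 / 4 < z) := by
    rcases h with h | h
    · rw [decide_eq_false h.1.not_gt, decide_eq_false h.2.not_gt]
    · rw [decide_eq_true h.1, decide_eq_true h.2]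
  have p1 : 0 < |z - 1 / 4| := abs_pos.2 (sub_ne_zero.2 hz1)
  have p2 : 0 < |z' - 1 / 4| := abs_pos.2 (sub_ne_zero.2 hz2)
  have hne : |z - 1 / 4| ≠ |z' - 1 / 4| := by
    rcases h with h | h
    · rw [abs_of_neg (by linarith [h.1]), abs_of_neg (by linarith [h.2])]
      exact fun e => hz (by linarith)
    · rw [abs_of_pos (by linarith [h.1]), abs_of_pos (by linarith [h.2])]
      exact fun e => hz (by linarith)
  have h2 : (r : ℂ) ≠ 0 := ofReal_ne_zero.2 hr.ne'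
  have hk : τ * r / ((|z' - 1 / 4| : ℝ) : ℂ) ^ 2 - τ * r / ((|z - 1 / 4| : ℝ) : ℂ) ^ 2 ≠ 0 := by
    intro e
    rw [sub_eq_zero, div_eq_div_iff (pow_ne_zero 2 (ofReal_ne_zero.2 p2.ne'))
      (pow_ne_zero 2 (ofReal_ne_zero.2 p1.ne'))] at e
    have e2 := mul_left_cancel₀ (mul_ne_zero hτ h2) e
    rw [← ofReal_pow, ← ofReal_pow, ofReal_inj] at e2
    exact hne ((sq_eq_sq₀ p1.le p2.le).1 e2)
  have hg := locStd_graph (χ := hs (decide (1 / 4 < z))) (a := 0)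
    (u := fun x => τ * r / ((|z - 1 / 4| : ℝ) : ℂ) ^ 2 * x)
    (u' := fun x => τ * r / ((|z' - 1 / 4| : ℝ) : ℂ) ^ 2 * x)
    ((lo_hs _).le (hs_injOn _) (by simp)) (.of_forall fun x => by fun_prop) (by simp)
    ((le_lin hk 0 0).congr (.of_forall fun x => by ring))
  have c1 : ((|z - 1 / 4| / r : ℝ) : ℂ) ≠ 0 := ofReal_ne_zero.2 (div_pos p1 hr).ne'
  have c2 : ((|z' - 1 / 4| / r : ℝ) : ℂ) ≠ 0 := ofReal_ne_zero.2 (div_pos p2 hr).ne'
  have hp := hg.pre (le_lin c1 0 0) (le_lin c2 0 0) (by simp) (by simp)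
  refine hp.congr (fill_aux_ev hr hz1) ?_
  have := fill_aux_ev (τ := τ) hr hz2
  rwa [hσ] at this

private lemma fill_aux_mono {r a b : ℝ} (hr : 0 < r) (ha : 0 ≤ a) (hab : a < b) :
    a * min (a / r) 1 < b * min (b / r) 1 := by
  have hb : 0 < b := ha.trans_lt hab
  have h1 : min (a / r) 1 ≤ min (b / r) 1 := min_le_min_right _ (by gcongr)
  have h2 : 0 < min (b / r) 1 := lt_min (div_pos hb hr) one_pos
  calc a * min (a / r) 1 ≤ a * min (b / r) 1 := by gcongr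
    _ < _ := by gcongr

private lemma fill_aux_int {n : ℤ} (h : |(n : ℝ)| < 1) : n = 0 := by
  have : |n| < 1 := by exact_mod_cast h
  exact Int.abs_lt_one_iff.1 this

private lemma fill_aux_inj {r z z' t t' : ℝ} {x x' : ℂ} (hr : 0 < r) (ht : |t - t'| < 1)
    (hz : |z - z'| < 1) (h : cd r z (ee (t / 2)) x = cd r z' (ee (t' / 2)) x') :
    (x = x' ∧ z = z' ∧ t = t') ∨ (x = 0 ∧ x' = 0) := by
  have hw := congrArg wabs h
  rw [wabs_cd _ _ _ _ hr, wabs_cd _ _ _ _ hr, norm_ee, norm_ee, mul_one, mul_one] at hw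
  have hn : ‖x‖ = ‖x'‖ := by
    rcases lt_trichotomy ‖x‖ ‖x'‖ with e | e | e
    · exact absurd hw (fill_aux_mono hr (norm_nonneg _) e).ne
    · exact e
    · exact absurd hw (fill_aux_mono hr (norm_nonneg _) e).ne'
  by_cases hx : x = 0
  · refine .inr ⟨hx, ?_⟩
    rw [hx, norm_zero] at hn
    exact norm_eq_zero.1 hn.symm
  left
  have hs : 0 < ‖x‖ := norm_pos_iff.2 hx
  have e1 := norm_mul_ee_ang x
  have e2 := norm_mul_ee_ang x'
  rw [← hn] at e2
  have hm : 0 < min (‖x‖ / r) 1 := lt_min (div_pos hs hr) one_pos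
  have hm1 : min (‖x‖ / r) 1 ≤ 1 := min_le_right _ _
  have hc : ((‖x‖ * min (‖x‖ / r) 1 : ℝ) : ℂ) ≠ 0 := ofReal_ne_zero.2 (mul_pos hs hm).ne'
  have h' := h
  rw [← e1, ← e2, cd_pw hr hs, cd_pw hr hs, kap_eq_iff
    (domK_of_ne (mul_ne_zero hc (ee_ne_zero _))) (domK_of_ne (mul_ne_zero hc (ee_ne_zero _)))] at h'
  obtain ⟨ε, a, b, hε, k1, k2⟩ := h'
  simp only [pw] at k1 k2
  rw [mul_left_comm] at k2
  have k3 := mul_left_cancel₀ hc k2
  rcases hε with rfl | rfl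
  · rw [Int.cast_one, one_mul] at k1 k3
    obtain ⟨n, hn'⟩ := ee_eq_iff.1 k3
    have n0 : n = 0 := fill_aux_int (by
      rw [abs_lt] at ht ⊢
      constructor <;> linarith [ht.1, ht.2])
    have r1 : ang x' = ang x + a := by simpa using congrArg Complex.re k1
    have r2 : 1 / 4 + (z' - 1 / 4) * min (‖x‖ / r) 1 =
        1 / 4 + (z - 1 / 4) * min (‖x‖ / r) 1 + b := by
      simpa using congrArg Complex.im k1
    have r3 : (b : ℝ) = (z' - z) * min (‖x‖ / r) 1 := by linarith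
    have b0 : b = 0 := fill_aux_int (by
      rw [r3, abs_mul, abs_of_pos hm, abs_sub_comm]
      exact (mul_le_of_le_one_right (abs_nonneg _) hm1).trans_lt hz)
    rw [b0, Int.cast_zero] at r3
    rw [n0, Int.cast_zero] at hn'
    refine ⟨by rw [← e1, ← e2, r1, ee_add_int], ?_, by linarith⟩
    have := (mul_eq_zero.1 r3.symm).resolve_right hm.ne'
    linarith
  · have k4 : ee (t' / 2) = ee (t / 2 + 1 / 2) := by
      rw [k3, ee_add, ee_half]; push_cast; ring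
    obtain ⟨n, hn'⟩ := ee_eq_iff.1 k4
    have n0 : 2 * n + 1 = 0 := fill_aux_int (by
      rw [abs_lt] at ht ⊢
      push_cast
      constructor <;> linarith [ht.1, ht.2])
    omega

namespace Br

variable {ι : Type} [Finite ι] (A : Br ι) {r : ℝ} (h0 : 0 < r) (h1 : r < A.eps) {p q : CC}

lemma cd_mem (h0 : 0 < r) (z t : ℝ) {x : ℂ} {s : ℝ} (h : ‖x‖ < s) :
    cd r z (ee t) x ∈ Nr s := by
  show wabs _ < s
  rw [wabs_cd _ _ _ _ h0, norm_ee, mul_one]
  exact (mul_le_of_le_one_right (norm_nonneg _) (min_le_right _ _)).trans_lt h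

lemma fill_near {i : ι} (h : ‖p.1 - A.b i p.2.im‖ < A.eps) : A.fill r p =
    A.jj (some i) (cd r p.2.re (ee (p.2.im / 2)) (p.1 - A.b i p.2.im)) := by
  have h' : ∃ i, ‖p.1 - A.b i p.2.im‖ < A.eps := ⟨i, h⟩
  rw [fill, dif_pos h', A.close_unique h'.choose_spec h]

private lemma fill_aux_not (h : ¬∃ i, ‖p.1 - A.b i p.2.im‖ < A.eps) :
    A.fill r p = A.prT p ∧ p ∈ A.domT := by
  refine ⟨by rw [fill, dif_neg h], fun i e => h ⟨i, ?_⟩⟩
  rw [e, sub_self, norm_zero]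
  exact A.eps_pos

include h0 h1

lemma fill_far (h : ∀ i, r ≤ ‖p.1 - A.b i p.2.im‖) : A.fill r p = A.prT p := by
  by_cases h' : ∃ i, ‖p.1 - A.b i p.2.im‖ < A.eps
  · obtain ⟨i, hi⟩ := h'
    have := A.pW_eq (some i) ⟨ang (p.1 - A.b i p.2.im), p.2.re⟩ (h0.trans_le (h i)) p.2.im
    rw [A.fill_near hi, cd_far h0 (h i)]
    refine this.trans ?_
    simp only [loc, norm_mul_ee_ang, add_sub_cancel]
  · exact (A.fill_aux_not h').1

theorem fill_cont : ContinuousOn (A.fill r) {p | p.2.re ≠ 1 / 4} := by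
  intro p hp
  refine ContinuousAt.continuousWithinAt ?_
  have hc : ∀ i, Continuous fun p : CC => p.1 - A.b i p.2.im := fun i =>
    continuous_fst.sub ((A.cont i).comp (continuous_im.comp continuous_snd))
  by_cases h' : ∃ i, ‖p.1 - A.b i p.2.im‖ < A.eps
  · obtain ⟨i, hi⟩ := h'
    have ho : IsOpen {q : ℝ × ℂ × ℂ | q.1 ≠ 1 / 4 ∧ q.2.1 ≠ 0} :=
      (isOpen_ne.preimage continuous_fst).inter
        (isOpen_ne.preimage (continuous_fst.comp continuous_snd))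
    have hφ : Continuous fun p : CC => ((p.2.re, ee (p.2.im / 2), p.1 - A.b i p.2.im) : ℝ × ℂ × ℂ) :=
      (continuous_re.comp continuous_snd).prodMk (Continuous.prodMk (by fun_prop) (hc i))
    have h2 : ContinuousAt (fun p : CC => cd r p.2.re (ee (p.2.im / 2)) (p.1 - A.b i p.2.im)) p :=
      ContinuousAt.comp (f := fun p : CC =>
        ((p.2.re, ee (p.2.im / 2), p.1 - A.b i p.2.im) : ℝ × ℂ × ℂ))
        ((cd_cont h0).continuousAt (ho.mem_nhds ⟨hp, ee_ne_zero _⟩)) hφ.continuousAt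
    have h3 := ContinuousAt.comp (f := fun p : CC =>
      cd r p.2.re (ee (p.2.im / 2)) (p.1 - A.b i p.2.im))
      ((A.lo_jj (some i)).continuousAt (cd_mem h0 _ _ hi)) h2
    refine h3.congr ?_
    filter_upwards [(isOpen_lt (hc i).norm continuous_const).mem_nhds hi] with q hq
    exact (A.fill_near hq).symm
  · refine (A.lo_prT.continuousAt (A.fill_aux_not (r := r) h').2).congr ?_
    have : ∀ᶠ q : CC in 𝓝 p, ∀ i, r < ‖q.1 - A.b i q.2.im‖ := eventually_all.2 fun i =>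
      (isOpen_lt continuous_const (hc i).norm).mem_nhds
        (h1.trans_le (not_lt.1 fun e => h' ⟨i, e⟩))
    filter_upwards [this] with q hq
    exact (A.fill_far h0 h1 fun i => (hq i).le).symm

lemma fill_mem_T (hp : p ∈ A.domT) : A.fill r p ∈ A.T := by
  by_cases h' : ∃ i, ‖p.1 - A.b i p.2.im‖ < A.eps
  · obtain ⟨i, hi⟩ := h'
    have hs : 0 < ‖p.1 - A.b i p.2.im‖ := norm_pos_iff.2 (sub_ne_zero.2 (hp i))
    rw [A.fill_near hi, A.jj_mem_T (cd_mem h0 _ _ hi), wabs_cd _ _ _ _ h0, norm_ee, mul_one]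
    exact mul_pos hs (lt_min (div_pos hs h0) one_pos)
  · rw [(A.fill_aux_not h').1]
    exact mem_image_of_mem _ hp

private lemma fill_aux_cap {i : ι} (h : ‖p.1 - A.b i p.2.im‖ < A.eps) :
    A.fill r p ∈ A.Cap (some i) := by
  rw [A.fill_near h]
  exact mem_image_of_mem _ (cd_mem h0 _ _ h)

lemma fill_mem_cap (i : ι) : A.fill r p ∈ A.Cap (some i) ↔ ‖p.1 - A.b i p.2.im‖ < A.eps := by
  refine ⟨fun h => ?_, A.fill_aux_cap h0 h1⟩
  by_cases h' : ∃ i, ‖p.1 - A.b i p.2.im‖ < A.eps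
  · obtain ⟨j, hj⟩ := h'
    by_cases e : i = j
    · rwa [e]
    · exact absurd (A.fill_aux_cap h0 h1 hj) (disjoint_left.1 (A.cap_disj (by simpa using e)) h)
  · obtain ⟨e, hp⟩ := A.fill_aux_not (r := r) h'
    rw [e] at h
    exact ((A.near_iff hp le_rfl).1 h).2

lemma fill_mem_inf {s : ℝ} (hs : s ≤ A.eps) (h : A.fill r p ∈ A.jj none '' Nr s) :
    A.Near none s p ∧ A.fill r p = A.prT p := by
  by_cases h' : ∃ i, ‖p.1 - A.b i p.2.im‖ < A.eps
  · obtain ⟨j, hj⟩ := h'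
    have h2 : A.fill r p ∈ A.Cap none := image_mono (fun n hn => lt_of_lt_of_le hn hs) h
    exact absurd (A.fill_aux_cap h0 h1 hj) (disjoint_left.1 (A.cap_disj (by simp)) h2)
  · obtain ⟨e, hp⟩ := A.fill_aux_not (r := r) h'
    exact ⟨(A.near_iff hp hs).1 (e ▸ h), e⟩

theorem fill_inj (ht : |p.2.im - q.2.im| < 1) (hz : |p.2.re - q.2.re| < 1)
    (h : A.fill r p = A.fill r q) :
    p = q ∨ ∃ i, p.1 = A.b i p.2.im ∧ q.1 = A.b i q.2.im := by
  by_cases h' : ∃ i, ‖p.1 - A.b i p.2.im‖ < A.eps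
  · obtain ⟨i, hi⟩ := h'
    have hq := (A.fill_mem_cap h0 h1 i).1 (h ▸ A.fill_aux_cap h0 h1 hi)
    rw [A.fill_near hi, A.fill_near hq] at h
    have e := A.jj_injOn (some i) (cd_mem h0 _ _ hi) (cd_mem h0 _ _ hq) h
    rcases fill_aux_inj h0 ht hz e with ⟨e1, e2, e3⟩ | ⟨e1, e2⟩
    · rw [e3] at e1
      exact .inl (Prod.ext (sub_left_injective e1) (Complex.ext e2 e3))
    · exact .inr ⟨i, sub_eq_zero.1 e1, sub_eq_zero.1 e2⟩
  · have h'' : ¬∃ i, ‖q.1 - A.b i q.2.im‖ < A.eps := fun ⟨i, hi⟩ =>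
      h' ⟨i, (A.fill_mem_cap h0 h1 i).1 (h ▸ A.fill_aux_cap h0 h1 hi)⟩
    obtain ⟨e, hp⟩ := A.fill_aux_not (r := r) h'
    obtain ⟨e', hq⟩ := A.fill_aux_not (r := r) h''
    rw [e, e', A.prT_eq_iff hp hq] at h
    obtain ⟨⟨a, n⟩, rfl⟩ := h
    simp only [actT_def] at ht hz ⊢
    have n0 : n = 0 := fill_aux_int (by simpa using ht)
    subst n0
    have a0 : a = 0 := fill_aux_int (by simpa [sgn_zero] using hz)
    subst a0
    left
    simp [sgn_zero, cj_zero]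

end Br

end Pool.Agent.Lib.MP_45bb13_gt
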