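import Pool.Agent.Lib.MP_45bb13_gt.Disc

/-! Mayer-Vietoris spanning lemmas. -/

set_option linter.unusedSectionVars false

namespace Pool.Agent.Lib.MP_45bb13_gt

open Set Filter Topology Complex Pool.Agent.Shared.Sing Pool.Agent.Shared.SingEZ
open scoped ComplexConjugate

variable {X E : Type} [TopologicalSpace X] [Nonempty X] [TopologicalSpace E] [Nonempty E]
  {F : Type} [Field F] {U U' : Set X}

lemma ctr_star {W : Type} [NormedAddCommGroup W] [NormedSpace ℝ W] {O : Set W} {a : W} (ha : a ∈ O)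
    (h : StarConvex ℝ a O) : Ctr O :=
  ⟨a, ha, fun q => q.2 • a + (1 - q.2) • q.1, by fun_prop,
    fun q hq => h hq.1 hq.2.1 (sub_nonneg.2 hq.2.2) (by simp), fun y _ => by simp⟩

private lemma span_conj {p : E → X} {O : Set E} (φ : OpenPartialHomeomorph E X) (h1 : ⇑φ = p)
    (h2 : φ.source = O) (h3 : φ.target = p '' O) {H : E × ℝ → E}
    (hH : ContinuousOn H (O ×ˢ Icc 0 1)) (hm : MapsTo H (O ×ˢ Icc 0 1) O) :
    ContinuousOn (fun q : X × ℝ => p (H (φ.symm q.1, q.2))) ((p '' O) ×ˢ Icc 0 1) ∧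
      MapsTo (fun q : X × ℝ => p (H (φ.symm q.1, q.2))) ((p '' O) ×ˢ Icc 0 1) (p '' O) := by
  subst h1 h2
  have hs : MapsTo (fun q : X × ℝ => (φ.symm q.1, q.2)) ((φ '' φ.source) ×ˢ Icc 0 1)
      (φ.source ×ˢ Icc (0 : ℝ) 1) := fun q hq => ⟨φ.map_target (h3 ▸ hq.1), hq.2⟩
  refine ⟨φ.continuousOn.comp (hH.comp ?_ hs) (hm.comp hs), fun q hq => ⟨_, hm (hs hq), rfl⟩⟩
  exact (φ.continuousOn_symm.comp continuousOn_fst fun q hq => h3 ▸ hq.1).prodMk continuousOn_snd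

lemma Ctr.image {p : E → X} {O : Set E} (h : Ctr O) (hp : LO p O) (hi : InjOn p O) :
    Ctr (p '' O) := by
  obtain ⟨φ, h1, h2, h3⟩ := hp.oph hi
  obtain ⟨y₀, hy, H, hH, hm, he⟩ := h
  obtain ⟨c1, c2⟩ := span_conj φ h1 h2 h3 hH hm
  refine ⟨p y₀, ⟨y₀, hy, rfl⟩, _, c1, c2, ?_⟩
  rintro _ ⟨y, hy, rfl⟩
  have e : φ.symm (p y) = y := h1 ▸ φ.left_inv (h2 ▸ hy)
  simp only [e, he y hy, and_self]

lemma Circ.image {p : E → X} {O : Set E} {ι : ℂ → E} (h : Circ O ι) (hp : LO p O)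
    (hi : InjOn p O) : Circ (p '' O) (p ∘ ι) := by
  obtain ⟨φ, h1, h2, h3⟩ := hp.oph hi
  obtain ⟨i1, i2, π, H, p1, p2, hH, hm, he⟩ := h
  obtain ⟨c1, c2⟩ := span_conj φ h1 h2 h3 hH hm
  have hs : MapsTo φ.symm (p '' O) O := h3 ▸ h2 ▸ φ.mapsTo_symm
  refine ⟨hp.continuousOn.comp i1 i2, fun x hx => ⟨_, i2 hx, rfl⟩, π ∘ φ.symm, _,
    p1.comp (h3 ▸ φ.continuousOn_symm) hs, p2.comp hs, c1, c2, ?_⟩
  rintro _ ⟨y, hy, rfl⟩
  have e : φ.symm (p y) = y := h1 ▸ φ.left_inv (h2 ▸ hy)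
  simp only [Function.comp_apply, e, he y hy, and_self]

lemma Ctr.acy (h : Ctr U) (R : Type) [CommRing R] : Acy R U := by
  obtain ⟨y₀, hy, H, hH, hm, he⟩ := h
  exact exists_contr hH hm hy (fun y hy => (he y hy).1) fun y hy => (he y hy).2

private lemma span_contr (h : Ctr U) : ContractibleSpace U := by
  obtain ⟨y₀, hy, H, hH, hm, he⟩ := h
  refine (contractible_iff_id_nullhomotopic U).2 ⟨⟨y₀, hy⟩, ⟨⟨⟨fun q =>
    ⟨H (q.2.1, q.1.1), hm ⟨q.2.2, q.1.2⟩⟩, ?_⟩, fun y => Subtype.ext (he y.1 y.2).1,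
    fun y => Subtype.ext (he y.1 y.2).2⟩⟩⟩
  exact (hH.comp_continuous (by fun_prop) fun q => ⟨q.2.2, q.1.2⟩).subtype_mk _

lemma Ctr.pathConn (h : Ctr U) : IsPathConnected U := by
  have := span_contr h
  exact isPathConnected_iff_pathConnectedSpace.2 inferInstance

lemma Ctr.simply (h : Ctr U) : IsSimplyConnected U := by
  have := span_contr h
  exact SimplyConnectedSpace.ofContractible U

lemma Circ.pathConn {ι : ℂ → X} (h : Circ U ι) : IsPathConnected U := by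
  obtain ⟨i1, i2, π, H, p1, p2, hH, hm, he⟩ := h
  have h0 : IsPathConnected ({0}ᶜ : Set ℂ) :=
    isPathConnected_compl_singleton_of_one_lt_rank (by simp) 0
  obtain ⟨a, ha, hj⟩ := h0.image' i1
  refine ⟨a, i2.image_subset ha, fun y hy => ?_⟩
  refine ((hj ⟨π y, p2 hy, rfl⟩).mono i2.image_subset).trans (JoinedIn.symm ?_)
  refine JoinedIn.ofLine (f := fun t => H (y, t)) (hH.comp (by fun_prop) fun t ht => ⟨hy, ht⟩)
    (he y hy).1 (he y hy).2 ?_
  rintro _ ⟨t, ht, rfl⟩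
  exact hm ⟨hy, ht⟩

lemma Acy.Z_le {R : Type} [CommRing R] (h : Acy R U) (n : ℕ) :
    Z R U ∅ (n + 1) ≤ B R U ∅ (n + 1) := fun c hc => by
  obtain ⟨k, H⟩ := h
  exact Submodule.mem_sup_left (H.bd hc.1 (Z_D_eq hc))

theorem Circ.spn {ι : ℂ → X} (h : Circ U ι) : Spn F U 1 {edge F fun t => ι (ee t)} := by
  obtain ⟨i1, i2, π, H, p1, p2, hH, hm, he⟩ := h
  refine ⟨?_, fun c hc => ?_⟩
  · rintro _ rfl
    rw [← map_lpc]
    exact map_Z i1 (empty_subset _) i2 (mapsTo_empty _ _) ((spn_punct (F := F)).1 _ rfl)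
  · have h1 := htpy_B (A' := ∅) hH (empty_subset _) hm (fun _ h => h.1.elim) hc
    rw [map_self (g := fun y => H (y, 0)) (fun y hy => (he y hy).1) hc.1,
      map_congr (g' := ι ∘ π) (fun y hy => (he y hy).2) hc.1, ← map_map p1 hc.1] at h1
    obtain ⟨s, hs, b, hb, e⟩ := Submodule.mem_sup.1 ((spn_punct (F := F)).2
      (map_Z p1 (empty_subset _) p2 (mapsTo_empty _ _) hc))
    obtain ⟨r, rfl⟩ := Submodule.mem_span_singleton.1 hs
    rw [← e, map_add, map_smul, map_lpc] at h1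
    have h2 := map_B i1 (empty_subset _) i2 (mapsTo_empty _ ∅) hb
    refine Submodule.mem_sup.2 ⟨_, Submodule.smul_mem _ r (Submodule.mem_span_singleton_self _),
      _, sub_mem h2 h1, ?_⟩
    abel

/-- The first homology of a union with connected intersection. -/
theorem h1_union (hU : IsOpen U) (hU' : IsOpen U') (h : Z F U ∅ 1 ≤ B F U ∅ 1)
    (h' : Z F U' ∅ 1 ≤ B F U' ∅ 1) (h0 : IsPathConnected (U ∩ U')) :
    Z F (U ∪ U') ∅ 1 ≤ B F (U ∪ U') ∅ 1 := fun c hc => by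
  obtain ⟨m, a, ha, hb⟩ := small_ex hU hU' hc.1
  have e : D ((sd ^ m) c - a) = -D a := by rw [map_sub, D_sd, Z_D_eq hc, map_zero, zero_sub]
  obtain ⟨w, hw, hD⟩ := zero_Bd' h0 (In_inter (D_In ha) (by simpa [e] using D_In hb)) (D_D a)
  have h1 := h (mem_Z (sub_mem ha (In_mono inter_subset_left _ hw)) (by rw [map_sub, hD, sub_self]))
  have h2 := h' (mem_Z (add_mem hb (In_mono inter_subset_right _ hw))
    (by rw [map_add, e, hD, neg_add_cancel]))
  refine (congr_B (sub_sd hc m)).2 ?_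
  simpa using add_mem (B_mono subset_union_left le_rfl h1) (B_mono subset_union_right le_rfl h2)

/-- The general form of the Mayer-Vietoris spanning lemma in degree two. -/
theorem mv_span (hU : IsOpen U) (hU' : IsOpen U') {S : Submodule F (C F X)}
    (h : ∀ c ∈ Z F (U ∩ U') ∅ 1, c ∈ B F U ∅ 1 → c ∈ B F U' ∅ 1 → ∃ a ∈ In F U 3, ∃ a' ∈ In F U' 3,
      a + a' ∈ S ∧ D (a + a') = 0 ∧ c - D a ∈ B F (U ∩ U') ∅ 1) {z : C F X}
    (hz : z ∈ Z F (U ∪ U') ∅ 2) : ∃ s ∈ S, s ∈ Z F (U ∪ U') ∅ 2 ∧ ∃ u ∈ Z F U ∅ 2,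
      ∃ u' ∈ Z F U' ∅ 2, z - (s + u + u') ∈ B F (U ∪ U') ∅ 2 := by
  obtain ⟨m, x, hx, hx'⟩ := small_ex hU hU' hz.1
  have e : D ((sd ^ m) z - x) = -D x := by rw [map_sub, D_sd, Z_D_eq hz, map_zero, zero_sub]
  obtain ⟨a, ha, a', ha', hS, hD, hb⟩ := h (D x)
    (mem_Z (In_inter (D_In hx) (by simpa [e] using D_In hx')) (D_D x)) (D_mem_B hx)
    (by simpa [e] using D_mem_B (U := ∅) hx')
  obtain ⟨w, hw, hw'⟩ := mem_B_empty hb
  rw [map_add] at hD
  refine ⟨a + a', hS, mem_Z (add_mem (In_mono subset_union_left _ ha)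
    (In_mono subset_union_right _ ha')) (by rw [map_add, hD]), x - a - w,
    mem_Z (sub_mem (sub_mem hx ha) (In_mono inter_subset_left _ hw))
      (by rw [map_sub, map_sub, hw', sub_self]), (sd ^ m) z - x - a' + w,
    mem_Z (add_mem (sub_mem hx' ha') (In_mono inter_subset_right _ hw)) ?_, ?_⟩
  · rw [map_add, map_sub, e, hw', eq_neg_of_add_eq_zero_right hD]
    abel
  · convert sub_sd hz m using 1
    abel

/-- One crossing sphere. -/
theorem mv_span_one (hU : IsOpen U) (hU' : IsOpen U') {f g : ℂ → X} (hf : ContinuousOn f D1)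
    (hg : ContinuousOn g D1) (mf : MapsTo f D1 U) (mg : MapsTo g D1 U')
    (h : ∀ t, f (ee t) = g (ee t)) (hs : Spn F (U ∩ U') 1 {edge F fun t => f (ee t)}) {z : C F X}
    (hz : z ∈ Z F (U ∪ U') ∅ 2) : ∃ r : F, ∃ u ∈ Z F U ∅ 2, ∃ u' ∈ Z F U' ∅ 2,
      z - (r • bi F f g + u + u') ∈ B F (U ∪ U') ∅ 2 := by
  obtain ⟨s, hs', -, u, hu, u', hu', hb⟩ := mv_span hU hU' (S := Submodule.span F {bi F f g})
    (fun c hc _ _ => by
      obtain ⟨s, hs', b, hb, e⟩ := Submodule.mem_sup.1 (hs.2 hc)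
      obtain ⟨r, rfl⟩ := Submodule.mem_span_singleton.1 hs'
      have e1 : r • map f (dsk F) + -(r • map g (dsk F)) = r • bi F f g := by
        rw [bi, smul_sub, sub_eq_add_neg]
      refine ⟨r • map f (dsk F), Submodule.smul_mem _ _ (map_In hf mf (dsk_In F)),
        -(r • map g (dsk F)), neg_mem (Submodule.smul_mem _ _ (map_In hg mg (dsk_In F))), ?_, ?_,
        ?_⟩
      · rw [e1]
        exact Submodule.smul_mem _ _ (Submodule.mem_span_singleton_self _)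
      · rw [e1, map_smul, Z_D_eq (bi_Z (U := univ) hf hg (mapsTo_univ _ _) (mapsTo_univ _ _) h),
          smul_zero]
      · rwa [map_smul, D_map_dsk hf, ← e, add_sub_cancel_left]) hz
  obtain ⟨r, rfl⟩ := Submodule.mem_span_singleton.1 hs'
  exact ⟨r, u, hu, u', hu', hb⟩

/-- A union of two acyclic charts that meet in a homology circle. -/
theorem spn_sphere (hU : IsOpen U) (hU' : IsOpen U') (a : Acy F U) (a' : Acy F U') {f g : ℂ → X}
    (hf : ContinuousOn f D1) (hg : ContinuousOn g D1) (mf : MapsTo f D1 U) (mg : MapsTo g D1 U')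
    (h : ∀ t, f (ee t) = g (ee t)) (hs : Spn F (U ∩ U') 1 {edge F fun t => f (ee t)}) :
    Spn F (U ∪ U') 2 {bi F f g} := by
  refine ⟨?_, fun z hz => ?_⟩
  · rintro _ rfl
    exact bi_Z hf hg (mf.mono_right subset_union_left) (mg.mono_right subset_union_right) h
  · obtain ⟨r, u, hu, u', hu', hb⟩ := mv_span_one hU hU' hf hg mf mg h hs hz
    refine Submodule.mem_sup.2 ⟨_, Submodule.smul_mem _ r (Submodule.mem_span_singleton_self _),
      _, add_mem (add_mem hb (B_mono subset_union_left le_rfl (a.Z_le 1 hu)))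
        (B_mono subset_union_right le_rfl (a'.Z_le 1 hu')), ?_⟩
    abel

/-- Chains in a disjoint union of open sets split. -/
theorem split_disj {R : Type} [CommRing R] {κ : Type} [Fintype κ] {V : κ → Set X}
    (hV : ∀ i, IsOpen (V i)) (hd : ∀ i j, i ≠ j → Disjoint (V i) (V j)) {n : ℕ} {c : C R X}
    (hc : c ∈ Z R (⋃ i, V i) ∅ (n + 1)) :
    ∃ d : κ → C R X, (∀ i, d i ∈ Z R (V i) ∅ (n + 1)) ∧ c = ∑ i, d i := by
  classical
  have h1 : c ∈ ⨆ i, In R (V i) (n + 2) := by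
    refine map_mem (F := LinearMap.id) (fun s hs => ?_) hc.1
    have ht : (Pi.single 0 1 : Shared.Sing.V) ∈ Δ s.n := single_mem_Δ (by rw [hs.1]; omega)
    obtain ⟨i, hi⟩ := mem_iUnion.1 (hs.2 ht)
    refine Submodule.mem_iSup_of_mem i (single_mem ⟨hs.1, MapsTo.mono_right (mapsTo_image _ _) ?_⟩)
    refine IsPreconnected.subset_left_of_subset_union (v := ⋃ j, ⋃ _ : j ≠ i, V j) (hV i)
      (isOpen_iUnion fun j => isOpen_iUnion fun _ => hV j) ?_ ?_ ⟨_, ⟨_, ht, rfl⟩, hi⟩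
      ((convex_Δ _).isPreconnected.image _ s.cont)
    · exact disjoint_iUnion₂_right.2 fun j hj => hd i j hj.symm
    · rintro _ ⟨t, ht, rfl⟩
      obtain ⟨j, hj⟩ := mem_iUnion.1 (hs.2 ht)
      by_cases e : j = i
      · exact Or.inl (e ▸ hj)
      · exact Or.inr (mem_iUnion₂.2 ⟨j, e, hj⟩)
  obtain ⟨d, hd1, hd2⟩ := (Submodule.mem_iSup_iff_exists_finsupp _ _).1 h1
  rw [Finsupp.sum_fintype _ _ fun _ => rfl] at hd2
  refine ⟨d, fun i => mem_Z (hd1 i) (In_empty (n := n) ?_), hd2.symm⟩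
  rw [← inter_compl_self (V i)]
  refine In_inter (D_In (hd1 i)) ?_
  have h2 := Z_D_eq hc
  rw [← hd2, map_sum, ← Finset.add_sum_erase _ _ (Finset.mem_univ i)] at h2
  rw [eq_neg_of_add_eq_zero_left h2]
  exact neg_mem (Submodule.sum_mem _ fun j hj => In_mono
    (hd j i (Finset.ne_of_mem_erase hj)).subset_compl_right _ (D_In (hd1 j)))

/-- Removing a point from an open subset of a four-manifold keeps the first homology trivial. -/
theorem h1_punct [T2Space X] (hX : LocEuc (Fin 4) X) (hU : IsOpen U) (h : Z F U ∅ 1 ≤ B F U ∅ 1)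
    (x : X) : Z F (U ∩ {x}ᶜ) ∅ 1 ≤ B F (U ∩ {x}ᶜ) ∅ 1 := fun c hc => by
  obtain ⟨a, ha, rfl⟩ := mem_B_empty (h (Z_mono inter_subset_left le_rfl hc))
  have h1 : a ∈ Z F U (U ∩ {x}ᶜ) 2 := ⟨ha, hc.1⟩
  have h2 := loc_low hX x (n := 2) (by simp) (Z_mono (subset_univ _) inter_subset_right h1)
  by_cases hx : x ∈ U
  · obtain ⟨w, -, hv⟩ := mem_B (exc_inj hU isOpen_compl_singleton (by
      rw [← compl_subset_iff_union, compl_subset_compl]
      exact singleton_subset_iff.2 hx) h1 h2)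
    simpa using D_mem_B (U := ∅) hv
  · refine D_mem_B (In_mono (subset_inter le_rfl ?_) _ ha)
    exact subset_compl_singleton_iff.2 hx

/-- Homology is carried along an open embedding. -/
lemma exists_map {R : Type} [CommRing R] {p : E → X} {O : Set E} (hp : LO p O) (hi : InjOn p O)
    {n : ℕ} {c : C R X} (hc : c ∈ Z R (p '' O) ∅ n) : ∃ d ∈ Z R O ∅ n, map p d = c := by
  obtain ⟨φ, h1, h2, h3⟩ := hp.oph hi
  rw [← h3] at hc
  subst h1 h2
  refine ⟨map φ.symm c, map_Z φ.continuousOn_symm (empty_subset _) φ.mapsTo_symm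
    (mapsTo_empty _ _) hc, ?_⟩
  rw [map_map φ.continuousOn_symm hc.1,
    map_self (g := φ ∘ φ.symm) (fun x hx => φ.right_inv hx) hc.1]

lemma Spn.image {p : E → X} {O : Set E} (hp : LO p O) (hi : InjOn p O) {n : ℕ} {S : Set (C F E)}
    (h : Spn F O n S) : Spn F (p '' O) n (map p '' S) := by
  refine ⟨?_, fun c hc => ?_⟩
  · rintro _ ⟨c, hc, rfl⟩
    exact map_Z hp.continuousOn (empty_subset _) (mapsTo_image _ _) (mapsTo_empty _ _) (h.1 c hc)
  · obtain ⟨d, hd, rfl⟩ := exists_map hp hi hc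
    obtain ⟨s, hs, b, hb, rfl⟩ := Submodule.mem_sup.1 (h.2 hd)
    rw [map_add]
    exact Submodule.add_mem_sup (Submodule.apply_mem_span_image_of_mem_span _ hs)
      (map_B hp.continuousOn (empty_subset _) (mapsTo_image _ _) (mapsTo_empty _ _) hb)

lemma null_image {p : E → X} {O : Set E} (hp : LO p O) (hi : InjOn p O) {n : ℕ}
    (h : Z F O ∅ n ≤ B F O ∅ n) : Z F (p '' O) ∅ n ≤ B F (p '' O) ∅ n := fun c hc => by
  obtain ⟨d, hd, rfl⟩ := exists_map hp hi hc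
  exact map_B hp.continuousOn (empty_subset _) (mapsTo_image _ _) (mapsTo_empty _ _) (h hd)

end Pool.Agent.Lib.MP_45bb13_gt
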