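import Pool.Agent.Lib.MP_45bb13_gt.Nat
import Pool.Agent.Lib.MP_45bb13_gt.Span
import Pool.Agent.Shared.Sing.Bridge
import Pool.Agent.Shared.Sing.Word

/-! Formal properties of self-intersection numbers. -/

set_option linter.unusedSectionVars false

namespace Pool.Agent.Lib.MP_45bb13_gt

open Set Filter Topology Complex Pool.Agent.Shared.Sing Pool.Agent.Shared.SingEZ
open scoped ComplexConjugate

variable {X Y : Type} [TopologicalSpace X] [Nonempty X] [TopologicalSpace Y] [Nonempty Y]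
  {F : Type} [Field F] {U U' O : Set X}

lemma Z_of_sub {R : Type} [CommRing R] {n : ℕ} {z z' : C R X} (hz : z ∈ Z R O ∅ n)
    (h : z - z' ∈ B R O ∅ n) : z' ∈ Z R O ∅ n := by
  simpa using sub_mem hz (B_le_Z (empty_subset _) h)

section field

variable {τ : C F (X × X) →ₗ[F] F} {z y z' y' : C F X}

lemma IForm.congr (h : IForm O τ) (hz : z ∈ Z F O ∅ 2) (hy : y ∈ Z F O ∅ 2)
    (h1 : z - z' ∈ B F O ∅ 2) (h2 : y - y' ∈ B F O ∅ 2) : τ (cross z y) = τ (cross z' y') := by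
  have a : cross (z - z') y ∈ B F (O ×ˢ O) ∅ 4 := cross_B_left (p := 2) (q := 2) h1 hy
  have b : cross z' (y - y') ∈ B F (O ×ˢ O) ∅ 4 :=
    cross_B_right (p := 2) (q := 2) (Z_of_sub hz h1) h2
  have a' := h.coc.apply_B a
  have b' := h.coc.apply_B b
  rw [map_sub, LinearMap.sub_apply, map_sub, sub_eq_zero] at a'
  rw [map_sub, map_sub, sub_eq_zero] at b'
  exact a'.trans b'

lemma IForm.sqi_congr (h : IForm O τ) (hz : z ∈ Z F O ∅ 2) (h1 : z - z' ∈ B F O ∅ 2) :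
    sqi τ z = sqi τ z' := h.congr hz hz h1 h1

lemma IForm.disj (h : IForm O τ) (hU : U ⊆ O) (hU' : U' ⊆ O) (hd : Disjoint U U')
    (hz : z ∈ In F U 3) (hy : y ∈ In F U' 3) : τ (cross z y) = 0 :=
  h.off _ (In_mono (A := U ×ˢ U') (B := O ×ˢ O ∩ Off X)
    (fun _ hp => ⟨⟨hU hp.1, hU' hp.2⟩, hd.ne_of_mem hp.1 hp.2⟩) 5
    (cross_In (p := 2) (q := 2) hz hy))

lemma sqi_smul (r : F) (z : C F X) : sqi τ (r • z) = r ^ 2 * sqi τ z := by
  simp [sqi, pow_two, mul_assoc]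

lemma sqi_pull {φ : Y → X} {V : Set Y} (hφ : ContinuousOn φ V) {z : C F Y} (hz : z ∈ Z F V ∅ 2) :
    sqi (τ ∘ₗ map (Prod.map φ φ)) z = sqi τ (map φ z) := congrArg τ (cross_pull hφ hz.1 hz.1)

lemma ev_image {φ : Y → X} {V : Set Y} (hφ : LO φ V) (hi : InjOn φ V)
    (h : Ev (τ ∘ₗ map (Prod.map φ φ)) V) : Ev τ (φ '' V) := fun z hz => by
  obtain ⟨d, hd, rfl⟩ := exists_map hφ hi hz
  exact (sqi_pull hφ.continuousOn hd).symm.trans (h d hd)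

lemma Acy.ev (h : IForm O τ) (hU : U ⊆ O) (a : Acy F U) : Ev τ U := fun z hz => by
  rw [h.sqi_congr (z' := 0) (Z_mono hU le_rfl hz) (by simpa using B_mono hU le_rfl (a.Z_le 1 hz))]
  simp [sqi]

lemma Spn.ev (h : IForm O τ) (hU : U ⊆ O) (a : Spn F U 2 {z}) (hz : sqi τ z = 0) : Ev τ U := fun y hy => by
  obtain ⟨u, hu, v, hv, rfl⟩ := Submodule.mem_sup.1 (a.2 hy)
  obtain ⟨r, rfl⟩ := Submodule.mem_span_singleton.1 hu
  rw [h.sqi_congr (z' := r • z) (Z_mono hU le_rfl hy) (by simpa using B_mono hU le_rfl hv),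
    sqi_smul, hz, mul_zero]

end field

variable [T2Space X] (hX : LocEuc (Fin 4) X) {τ : C F2 (X × X) →ₗ[F2] F2} (h : IForm O τ)
  {z y : C F2 X}

include hX h

theorem IForm.sqi_add (hz : z ∈ Z F2 O ∅ 2) (hy : y ∈ Z F2 O ∅ 2) :
    sqi τ (z + y) = sqi τ z + sqi τ y := by
  have h1 := h.unique hX (h.swap hX) (Z_mono le_rfl (empty_subset _) (cross_Z hz hy))
  rw [LinearMap.comp_apply, swap_cross hz.1 hy.1, Even.neg_one_pow (by decide), one_smul] at h1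
  simp only [sqi, map_add, LinearMap.add_apply, h1]
  linear_combination CharTwo.add_self_eq_zero (τ (cross y z))

/-- The cycles of self-intersection zero form a subspace. -/
theorem IForm.exists_ker : ∃ S : Submodule F2 (C F2 X), ∀ z, z ∈ S ↔ z ∈ Z F2 O ∅ 2 ∧ sqi τ z = 0 :=

  ⟨{ carrier := {z | z ∈ Z F2 O ∅ 2 ∧ sqi τ z = 0}
     add_mem' := fun a b => ⟨add_mem a.1 b.1, by rw [h.sqi_add hX a.1 b.1, a.2, b.2, add_zero]⟩
     zero_mem' := ⟨zero_mem _, by simp [sqi]⟩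
     smul_mem' := fun r _ a => ⟨Submodule.smul_mem _ r a.1, by rw [sqi_smul, a.2, mul_zero]⟩ },
    fun _ => Iff.rfl⟩

theorem IForm.ev_union (hU : IsOpen U) (hU' : IsOpen U') (h1 : U ⊆ O) (h2 : U' ⊆ O) (e : Ev τ U)
    (e' : Ev τ U') (hc : ∀ c ∈ Z F2 (U ∩ U') ∅ 1, c ∈ B F2 U ∅ 1 → c ∈ B F2 U' ∅ 1 →
      ∃ a ∈ In F2 U 3, ∃ a' ∈ In F2 U' 3, sqi τ (a + a') = 0 ∧ D (a + a') = 0 ∧
        c - D a ∈ B F2 (U ∩ U') ∅ 1) : Ev τ (U ∪ U') := fun z hz => by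
  obtain ⟨S, hS⟩ := h.exists_ker hX
  have h3 := union_subset h1 h2
  obtain ⟨s, hs, -, u, hu, u', hu', e0⟩ := mv_span hU hU' (S := S) (fun c a b b' => by
    obtain ⟨a, ha, a', ha', e1, e2, e3⟩ := hc c a b b'
    exact ⟨a, ha, a', ha', (hS _).2 ⟨mem_Z (add_mem (In_mono h1 _ ha) (In_mono h2 _ ha')) e2, e1⟩,
      e2, e3⟩) hz
  rw [h.sqi_congr (Z_mono h3 le_rfl hz) (B_mono h3 le_rfl e0)]
  exact ((hS _).1 (add_mem (add_mem hs ((hS _).2 ⟨Z_mono h1 le_rfl hu, e u hu⟩))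
    ((hS _).2 ⟨Z_mono h2 le_rfl hu', e' u' hu'⟩))).2

theorem IForm.ev_union_one (hU : IsOpen U) (hU' : IsOpen U') (h1 : U ⊆ O) (h2 : U' ⊆ O)
    (e : Ev τ U) (e' : Ev τ U') {f g : ℂ → X} (hf : ContinuousOn f D1) (hg : ContinuousOn g D1)
    (mf : MapsTo f D1 U) (mg : MapsTo g D1 U') (hb : ∀ t, f (ee t) = g (ee t))
    (hs : Spn F2 (U ∩ U') 1 {edge F2 fun t => f (ee t)}) (h0 : sqi τ (bi F2 f g) = 0) :
    Ev τ (U ∪ U') := fun z hz => by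
  obtain ⟨S, hS⟩ := h.exists_ker hX
  have h3 := union_subset h1 h2
  obtain ⟨r, u, hu, u', hu', e0⟩ := mv_span_one hU hU' hf hg mf mg hb hs hz
  rw [h.sqi_congr (Z_mono h3 le_rfl hz) (B_mono h3 le_rfl e0)]
  exact ((hS _).1 (add_mem (add_mem (S.smul_mem r ((hS _).2
    ⟨bi_Z hf hg (mf.mono_right h1) (mg.mono_right h2) hb, h0⟩))
    ((hS _).2 ⟨Z_mono h1 le_rfl hu, e u hu⟩)) ((hS _).2 ⟨Z_mono h2 le_rfl hu', e' u' hu'⟩))).2

theorem IForm.ev_union_zero (hU : IsOpen U) (hU' : IsOpen U') (h1 : U ⊆ O) (h2 : U' ⊆ O)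
    (e : Ev τ U) (e' : Ev τ U') (hs : Z F2 (U ∩ U') ∅ 1 ≤ B F2 (U ∩ U') ∅ 1) : Ev τ (U ∪ U') :=
  h.ev_union hX hU hU' h1 h2 e e' fun c a _ _ =>
    ⟨0, zero_mem _, 0, zero_mem _, by simp [sqi], by simp, by simpa using hs a⟩

theorem IForm.ev_disj {κ : Type} [Fintype κ] {V : κ → Set X} (hV : ∀ i, IsOpen (V i))
    (hO : ∀ i, V i ⊆ O) (hd : ∀ i j, i ≠ j → Disjoint (V i) (V j)) (e : ∀ i, Ev τ (V i)) :
    Ev τ (⋃ i, V i) := fun z hz => by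
  obtain ⟨S, hS⟩ := h.exists_ker hX
  obtain ⟨d, h1, rfl⟩ := split_disj hV hd hz
  exact ((hS _).1 (S.sum_mem fun i _ => (hS _).2 ⟨Z_mono (hO i) le_rfl (h1 i), e i _ (h1 i)⟩)).2

omit h in
/-- Evenness of the integral cup form from the vanishing of the squares modulo two. -/
theorem even_of_ev [CompactSpace X] (μ : Sing.Ch ℤ X 4) (hμ : μ ∈ Sing.cyc ℤ X 4)
    (h0 : ∀ x, cf (Int.castRingHom F2) (br ℤ 4 μ) ∉ B F2 univ {x}ᶜ 4)
    (he : ∀ τ : C F2 (X × X) →ₗ[F2] F2, IForm univ τ → Ev τ univ) :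
    ∀ a ∈ Sing.cocyc ℤ X 2, Even (Sing.cup (show 2 + 2 = 4 from rfl) a a μ) := fun a ha => by
  have hμ' := cf_Z (Int.castRingHom F2) (br_mem_Z.2 hμ)
  obtain ⟨τ, hτ⟩ := exists_isThom (ι := Fin 4) hX hμ' h0
  have h1 := bc_coc (Int.castRingHom F2) (coc_comp_rb.2 ha)
  have h2 := cap_Z (k := 2) h1 hμ'
  have h3 := (hτ.pd hX (k := 2) (m := 2) rfl h1 h2).trans
    (by rw [show τ (cross _ _) = 0 from he τ (iform_of_thom hX hτ h0) _ h2, mul_zero])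
  rw [← cf_cap, bc_cf] at h3
  rw [cup_eq_comp_br, even_iff_two_dvd]
  exact (ZMod.intCast_zmod_eq_zero_iff_dvd _ 2).1 h3

end Pool.Agent.Lib.MP_45bb13_gt
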