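import Pool.Agent.Lib.MP_45bb13_gt.Fill

/-! The horizontal sphere. -/

set_option linter.unusedSectionVars false

namespace Pool.Agent.Lib.MP_45bb13_gt

open Set Filter Topology Complex
open scoped ComplexConjugate

namespace GeoC

variable (A : Br (Fin 3))

/-- The outer radius. -/
noncomputable def R : ℝ := 6 / A.eps

/-- The finite part of the sphere. -/
noncomputable def F (s : ℝ) (x : ℂ) : A.X := A.fill (A.eps / 2) (R A * x, ⟨s / 8, 0⟩)

/-- The part at infinity. -/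
noncomputable def G (s : ℝ) (x : ℂ) : A.X :=
  A.jj none (cd (A.eps / 8) (s / 8) (ee (0 / 2)) (((R A)⁻¹ : ℝ) * conj x))

lemma R_pos : 0 < R A := div_pos (by norm_num) A.eps_pos

lemma R_ne : (R A : ℂ) ≠ 0 := ofReal_ne_zero.2 (R_pos A).ne'

lemma R_inv : (R A)⁻¹ = A.eps / 6 := inv_div _ _

lemma b_lt (i : Fin 3) : ‖A.b i 0‖ + A.eps < R A := by
  have h1 := A.eps_spec.2.2.2 i 0
  have h2 := inv_pos.2 A.eps_pos
  rw [R, div_eq_mul_inv]
  linarith

lemma norm_R (x : ℂ) : ‖R A * x‖ = R A * ‖x‖ := by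
  rw [norm_mul, norm_real, Real.norm_of_nonneg (R_pos A).le]

lemma norm_inv (x : ℂ) : ‖(((R A)⁻¹ : ℝ) : ℂ) * conj x‖ = (R A)⁻¹ * ‖x‖ := by
  rw [norm_mul, norm_real, Real.norm_of_nonneg (inv_pos.2 (R_pos A)).le, norm_conj]

lemma norm_inv_lt {x : ℂ} (hx : x ∈ D1) : ‖(((R A)⁻¹ : ℝ) : ℂ) * conj x‖ < A.eps := by
  have h1 := mul_le_mul_of_nonneg_left (mem_closedBall_zero_iff.1 hx) (inv_pos.2 (R_pos A)).le
  have h2 := A.eps_pos
  rw [norm_inv]
  rw [mul_one] at h1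
  linarith [R_inv A]

lemma half : 0 < A.eps / 2 ∧ A.eps / 2 < A.eps := ⟨half_pos A.eps_pos, half_lt_self A.eps_pos⟩

lemma eighth : 0 < A.eps / 8 ∧ A.eps / 8 < A.eps := by
  constructor <;> linarith [A.eps_pos]

lemma conj_ee (t : ℝ) : conj (ee t) = ee (-t) := (ee_neg t).symm

lemma bd (s t : ℝ) : F A s (ee t) = G A s (ee t) := by
  have h0 := inv_pos.2 (R_pos A)
  have h1 : min ((R A)⁻¹ / (A.eps / 8)) 1 = 1 := by
    refine min_eq_right ((one_le_div (eighth A).1).2 ?_)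
    linarith [R_inv A, A.eps_pos]
  rw [F, G, conj_ee, cd_pw (eighth A).1 h0, h1, mul_one, mul_one, add_sub_cancel,
    A.fill_far (half A).1 (half A).2 fun i => ?_]
  · refine Eq.trans ?_ (A.pW_eq none _ h0 0).symm
    simp only [Br.loc, neg_neg, ofReal_inv, div_inv_eq_mul, mul_comm]
  · have h2 := norm_sub_norm_le (R A * ee t) (A.b i 0)
    rw [norm_R, norm_ee] at h2
    linarith [b_lt A i, A.eps_pos]

lemma bd' (s : ℝ) {x : ℂ} (hx : ‖x‖ = 1) : F A s x = G A s x := by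
  have h := norm_mul_ee_ang x
  rw [hx, ofReal_one, one_mul] at h
  rw [← h, bd]

lemma fill_eq {r s s' : ℝ} (h0 : 0 < r) (h1 : r < A.eps) (hs : |s - s'| = 1) {y y' : ℂ}
    (h : A.fill r (y, ⟨s / 8, 0⟩) = A.fill r (y', ⟨s' / 8, 0⟩)) :
    ∃ i, y = A.b i 0 ∧ y' = A.b i 0 := by
  have h2 : |s / 8 - s' / 8| = 1 / 8 := by rw [← sub_div, abs_div, hs]; norm_num
  refine (A.fill_inj h0 h1 (by simp) (h2.trans_lt (by norm_num)) h).resolve_left fun e => ?_
  have h3 : s / 8 = s' / 8 := congrArg (fun p : CC => p.2.re) e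
  rw [h3, sub_self, abs_zero] at h2
  norm_num at h2

lemma FG {s s' : ℝ} (hs : |s - s'| = 1) {x x' : ℂ} (hx : x ∈ D1) (hx' : x' ∈ D1) :
    F A s x ≠ G A s' x' := fun h => by
  have hR := R_pos A
  rcases (mem_closedBall_zero_iff.1 hx').eq_or_lt with h1 | h1
  · rw [← bd' A s' h1] at h
    obtain ⟨i, -, e⟩ := fill_eq A (half A).1 (half A).2 hs h
    have h2 := b_lt A i
    rw [← e, norm_R, h1] at h2
    linarith [A.eps_pos]
  · obtain ⟨⟨h2, h3⟩, -⟩ := A.fill_mem_inf (half A).1 (half A).2 (s := (R A)⁻¹)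
      (by linarith [R_inv A, A.eps_pos]) ⟨_, Br.cd_mem (eighth A).1 _ _ (by
        rw [norm_inv]
        exact mul_lt_of_lt_one_right (inv_pos.2 hR) h1), h.symm⟩
    simp only [Br.dst, norm_R] at h2 h3
    exact absurd ((inv_lt_inv₀ (inv_pos.1 h2) hR).1 h3)
      (not_lt.2 (mul_le_of_le_one_right hR.le (mem_closedBall_zero_iff.1 hx)))

lemma G_mem (s : ℝ) {x : ℂ} (hx : x ∈ D1) :
    cd (A.eps / 8) (s / 8) (ee (0 / 2)) (((R A)⁻¹ : ℝ) * conj x) ∈ Nr A.eps :=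
  Br.cd_mem (eighth A).1 _ _ (norm_inv_lt A hx)

lemma GG {x x' : ℂ} (hx : x ∈ D1) (hx' : x' ∈ D1) (h : G A 0 x = G A 1 x') : x = 0 ∧ x' = 0 := by
  have h1 := A.jj_injOn none (G_mem A 0 hx) (G_mem A 1 hx') h
  have h2 := norm_inv_lt A hx
  have h3 := norm_inv_lt A hx'
  have h4 : ∀ y : ℂ, (((R A)⁻¹ : ℝ) : ℂ) * conj y = 0 → y = 0 := fun y e => by
    simpa [(R_pos A).ne'] using e
  refine And.imp (h4 x) (h4 x') ?_
  generalize (((R A)⁻¹ : ℝ) : ℂ) * conj x = y at h1 h2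
  generalize (((R A)⁻¹ : ℝ) : ℂ) * conj x' = y' at h1 h3
  obtain ⟨i, e, e'⟩ := fill_eq A (s := 0) (s' := 1) (y := y + A.b 0 0) (y' := y' + A.b 0 0)
    (eighth A).1 (eighth A).2 (by norm_num) (by
      rw [A.fill_near (i := 0) (by simpa using h2), A.fill_near (i := 0) (by simpa using h3)]
      simp only [add_sub_cancel_right, h1])
  obtain rfl : 0 = i := A.close_unique (y := y + A.b 0 0) (t := 0) (by simpa using h2)
    (by rw [e, sub_self, norm_zero]; exact A.eps_pos)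
  exact ⟨add_eq_right.1 e, add_eq_right.1 e'⟩

lemma std (k : Option (Fin 3)) {r : ℝ} (hr : 0 < r) {α : ℂ → ℂ} {a : ℂ} (h : Lemb α a)
    (h0 : α a = 0) : LocStd (fun x => A.jj k (cd r (0 / 8) (ee (0 / 2)) (α x)))
      (fun x => A.jj k (cd r (1 / 8) (ee (0 / 2)) (α x))) a a :=
  ((cd_std hr (ee_ne_zero _) (by norm_num) (Or.inl (by norm_num))).post
    ((A.lo_jj k).le (A.jj_injOn k) (Br.cd_mem hr _ _ (norm_zero.trans_lt A.eps_pos)))).pre
      h h h0 h0

lemma loop (k : Option (Fin 3)) {r z s : ℝ} (hr : 0 < r) (h0 : 0 < s) (h1 : s < A.eps) (n : ℤ)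
    {ℓ : ℝ → A.X} (h : ∀ t, ℓ t = A.jj k (cd r z (ee (0 / 2)) (s * ee (n * t)))) :
    LoopCls (A.pW k) (OW A.eps) (⟨(n, 0), 0⟩ : SD (ℤ × ℤ)) ℓ := by
  refine ⟨fun t => (⟨n * t, 1 / 4 + (z - 1 / 4) * min (s / r) 1⟩, s * min (s / r) 1, 0),
    Continuous.continuousOn (by fun_prop), fun t _ => ⟨?_, ?_⟩, ?_, fun t _ => ?_⟩
  · exact mul_pos h0 (lt_min (div_pos h0 hr) one_pos)
  · exact (mul_le_of_le_one_right h0.le (min_le_right _ _)).trans_lt h1
  · simp [actW_def, sgn_zero]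
  · rw [h, cd_pw hr h0, Br.pW]

/-- The centres. -/
noncomputable def a (i : Fin 3) : ℂ := A.b i 0 / R A

lemma R_a (i : Fin 3) : R A * a A i = A.b i 0 := mul_div_cancel₀ _ (R_ne A)

lemma norm_sub (x : ℂ) (i : Fin 3) : ‖R A * x - A.b i 0‖ = R A * ‖x - a A i‖ := by
  rw [← R_a, ← mul_sub, norm_R]

lemma a_lt (i : Fin 3) : ‖a A i‖ + 3 * A.eps / 4 / R A < 1 := by
  have h := b_lt A i
  rw [← R_a, norm_R] at h
  rw [← lt_sub_iff_add_lt', div_lt_iff₀ (R_pos A)]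
  linarith [A.eps_pos]

lemma FF : Meets (F A 0) (F A 1) 3 := by
  classical
  refine ⟨Finset.univ.image fun i => (a A i, a A i), ?_, fun x _ x' _ h => ?_, fun p hp => ?_⟩
  · rw [Finset.card_image_of_injective _ fun i j e => A.inj 0 i j ?_]
    · simp
    · rw [← R_a, ← R_a, (Prod.mk.inj e).1]
  · obtain ⟨i, e, e'⟩ := fill_eq A (half A).1 (half A).2 (by norm_num) h
    rw [← R_a] at e e'
    exact Finset.mem_image.2 ⟨i, Finset.mem_univ _,
      Prod.ext (mul_left_cancel₀ (R_ne A) e).symm (mul_left_cancel₀ (R_ne A) e').symm⟩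
  · obtain ⟨i, -, rfl⟩ := Finset.mem_image.1 hp
    have h1 : ‖a A i‖ < 1 :=
      (lt_add_of_pos_right _ (div_pos (by linarith [A.eps_pos]) (R_pos A))).trans (a_lt A i)
    have h2 : ∀ s, F A s =ᶠ[𝓝 (a A i)] fun x =>
        A.jj (some i) (cd (A.eps / 2) (s / 8) (ee (0 / 2)) (R A * x + -A.b i 0)) := fun s => by
      filter_upwards [Metric.ball_mem_nhds (a A i) (div_pos A.eps_pos (R_pos A))] with x hx
      rw [mem_ball_iff_norm, lt_div_iff₀' (R_pos A), ← norm_sub] at hx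
      rw [F, A.fill_near (i := i) hx, sub_eq_add_neg]
    exact ⟨h1, h1, (std A (some i) (half A).1 (le_lin (R_ne A) _ _)
      (by rw [R_a, add_neg_cancel])).congr (h2 0) (h2 1)⟩

lemma biFam : BiFam univ (F A) (G A) := by
  refine ⟨?_, ?_, fun _ _ => mapsTo_univ _ _, fun _ _ => mapsTo_univ _ _, fun s _ => bd A s⟩
  · refine (A.fill_cont (half A).1 (half A).2).comp
      (f := fun q : ℂ × ℝ => ((R A * q.1, ⟨q.2 / 8, 0⟩) : CC))
      (Continuous.continuousOn (by fun_prop)) fun q hq e => ?_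
    have h1 : q.2 / 8 = 1 / 4 := e
    linarith [hq.2.2]
  · refine (A.lo_jj none).continuousOn.comp ((cd_cont (eighth A).1).comp
      (f := fun q : ℂ × ℝ => (q.2 / 8, ee (0 / 2), (((R A)⁻¹ : ℝ) : ℂ) * conj q.1))
      (Continuous.continuousOn (by fun_prop)) fun q hq => ⟨fun e => ?_, ee_ne_zero _⟩)
      fun q hq => G_mem A _ hq.1
    have h1 : q.2 / 8 = 1 / 4 := e
    linarith [hq.2.2]

end GeoC

open GeoC in
theorem geo_c (A : Br (Fin 3)) : A.Geo (κ := Fin 3) some (fun _ => ⟨(1, 0), 0⟩) ⟨(-1, 0), 0⟩ := by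
  have hε := A.eps_pos
  have hR := R_pos A
  refine ⟨F A 0, G A 0, ⟨F A, G A, biFam A, rfl, rfl, 3, 0, 0, 1, FF A,
    meets_zero fun x hx x' hx' => FG A (by norm_num) hx hx',
    meets_zero fun x hx x' hx' => (FG A (by norm_num) hx' hx).symm,
    meets_one (a := 0) (a' := 0) (fun x hx x' hx' => GG A hx hx') (by simp) (by simp)
      (std A none (eighth A).1 (le_conj (ofReal_ne_zero.2 (inv_pos.2 hR).ne') 0) (by simp)),
    by decide⟩, a A, fun _ => 3 * A.eps / 4 / R A, fun i => ⟨by positivity, a_lt A i⟩,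
    fun i j h => ?_, fun x _ h => A.fill_mem_T (half A).1 (half A).2 fun i e => h i ?_,
    fun i => ⟨fun x hx => (A.fill_mem_cap (half A).1 (half A).2 i).2 ?_,
      loop A _ (z := 0 / 8) (s := 3 * A.eps / 4) (half A).1 (by positivity) (by linarith) 1
        fun t => ?_⟩,
    fun x hx => ⟨_, G_mem A 0 hx, rfl⟩,
    loop A _ (z := 0 / 8) (eighth A).1 (inv_pos.2 hR) (by linarith [R_inv A]) (-1) fun t => ?_⟩
  · have h1 := A.eps_spec.2.2.1 0 i j h
    rw [← R_a A i, norm_sub] at h1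
    rw [← add_div, div_lt_iff₀' hR]
    linarith
  · exact mul_left_cancel₀ (R_ne A) (e.trans (R_a A i).symm)
  · rw [mem_closedBall_iff_norm, le_div_iff₀' hR, ← norm_sub] at hx
    exact hx.trans_lt (by linarith)
  · have e : R A * (a A i + (3 * A.eps / 4 / R A : ℝ) * ee t) - A.b i 0 =
        (3 * A.eps / 4 : ℝ) * ee ((1 : ℤ) * t) := by
      have := R_ne A
      rw [mul_add, R_a, add_sub_cancel_left, Int.cast_one, one_mul, ofReal_div]
      field_simp
    rw [F, A.fill_near (i := i), ← e]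
    refine (congrArg norm e).trans_lt ?_
    rw [norm_mul, norm_ee, mul_one, norm_real, Real.norm_of_nonneg (by positivity)]
    linarith
  · rw [G, conj_ee, Int.cast_neg, Int.cast_one, neg_one_mul]

end Pool.Agent.Lib.MP_45bb13_gt
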