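import Pool.Agent.Lib.MP_45bb13_gt.Ext

/-! Homotopic braids give homeomorphic manifolds. -/

set_option linter.unusedSectionVars false

namespace Pool.Agent.Lib.MP_45bb13_gt

open Set Filter Topology Complex
open scoped ComplexConjugate

variable {ι : Type}

lemma BRel.refl (A : Br ι) : BRel A A := ⟨.refl _⟩

lemma BRel.symm {A A' : Br ι} (h : BRel A A') : BRel A' A := h.map .symm

lemma BRel.trans {A A' A'' : Br ι} (h : BRel A A') (h' : BRel A' A'') : BRel A A'' :=
  h.elim fun e => h'.map e.trans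

/-- A small perturbation of the identity, fibrewise over a parameter. -/
theorem exists_homeo_lip {g : ℂ × ℝ → ℂ} (hg : Continuous g)
    (hl : ∀ y y' t, ‖g (y, t) - g (y', t)‖ ≤ 1 / 2 * ‖y - y'‖) :
    ∃ Φ : CC ≃ₜ CC, ∀ p, Φ p = (p.1 + g (p.1, p.2.im), p.2) := by
  have h1 : ∀ y y' t, ‖y - y'‖ ≤ 2 * ‖y + g (y, t) - (y' + g (y', t))‖ := fun y y' t => by
    have h2 := norm_sub_le (y + g (y, t) - (y' + g (y', t))) (g (y, t) - g (y', t))
    rw [show y + g (y, t) - (y' + g (y', t)) - (g (y, t) - g (y', t)) = y - y' by ring] at h2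
    linarith [hl y y' t]
  have h2 : ∀ p : CC, ∃ y, y + g (y, p.2.im) = p.1 := fun p => by
    have hc : ContractingWith (1 / 2) fun y => p.1 - g (y, p.2.im) :=
      ⟨by norm_num, LipschitzWith.of_dist_le_mul fun y y' => by
        rw [dist_sub_left, dist_eq_norm, dist_eq_norm]
        simpa using hl y y' p.2.im⟩
    exact ⟨hc.fixedPoint _, eq_sub_iff_add_eq.1 hc.fixedPoint_isFixedPt.symm⟩
  choose ψ hψ using h2
  have h3 : Continuous ψ := continuous_iff_continuousAt.2 fun p₀ => by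
    have h4 : Continuous fun p : CC => 2 * ‖p.1 - (ψ p₀ + g (ψ p₀, p.2.im))‖ := by fun_prop
    have h5 := h4.tendsto p₀
    rw [hψ p₀, sub_self, norm_zero, mul_zero] at h5
    refine tendsto_iff_norm_sub_tendsto_zero.2 (squeeze_zero (fun _ => norm_nonneg _)
      (fun p => ?_) h5)
    have h6 := h1 (ψ p) (ψ p₀) p.2.im
    rwa [hψ p] at h6
  refine ⟨⟨⟨fun p => (p.1 + g (p.1, p.2.im), p.2), fun p => (ψ p, p.2), fun p => ?_,
    fun p => Prod.ext (hψ p) rfl⟩, ?_, ?_⟩, fun p => rfl⟩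
  · have h4 := h1 (ψ (p.1 + g (p.1, p.2.im), p.2)) p.1 p.2.im
    rw [hψ (p.1 + g (p.1, p.2.im), p.2), sub_self, norm_zero, mul_zero] at h4
    exact Prod.ext (sub_eq_zero.1 (norm_le_zero_iff.1 h4)) rfl
  · show Continuous fun p : CC => (p.1 + g (p.1, p.2.im), p.2)
    fun_prop
  · show Continuous fun p : CC => (ψ p, p.2)
    fun_prop

/-- A cut off function. -/
noncomputable def isoChi (ε s : ℝ) : ℝ := max 0 (min 1 (2 - 2 * s / ε))

lemma isoChi_one {ε s : ℝ} (hε : 0 < ε) (h : s ≤ ε / 2) : isoChi ε s = 1 := by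
  have : 2 * s / ε ≤ 1 := by rw [div_le_one hε]; linarith
  rw [isoChi, min_eq_left (by linarith), max_eq_right zero_le_one]

lemma isoChi_zero {ε s : ℝ} (hε : 0 < ε) (h : ε ≤ s) : isoChi ε s = 0 := by
  have : 2 ≤ 2 * s / ε := by rw [le_div_iff₀ hε]; linarith
  exact max_eq_left ((min_le_right _ _).trans (by linarith))

lemma isoChi_lip {ε : ℝ} (hε : 0 < ε) (s s' : ℝ) :
    |isoChi ε s - isoChi ε s'| ≤ 2 / ε * |s - s'| := by
  have h1 := abs_max_sub_max_le_max 0 (min 1 (2 - 2 * s / ε)) 0 (min 1 (2 - 2 * s' / ε))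
  have h2 := abs_min_sub_min_le_max 1 (2 - 2 * s / ε) 1 (2 - 2 * s' / ε)
  have h3 : ∀ x : ℝ, max 0 |x| = |x| := fun x => max_eq_right (abs_nonneg x)
  rw [sub_self, abs_zero, h3] at h1 h2
  rw [show 2 - 2 * s / ε - (2 - 2 * s' / ε) = -(2 / ε * (s - s')) by ring, abs_neg, abs_mul,
    abs_of_pos (by positivity : 0 < 2 / ε)] at h2
  exact h1.trans h2

lemma isoChi_cont (ε : ℝ) : Continuous (isoChi ε) := by unfold isoChi; fun_prop

theorem rel_close [Finite ι] (A : Br ι) : ∃ δ > 0, ∀ A' : Br ι,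
    (∀ i t, ‖A'.b i t - A.b i t‖ < δ) → BRel A A' := by
  classical
  have := Fintype.ofFinite ι
  obtain ⟨h0, -, h1, h2⟩ := A.eps_spec
  refine ⟨A.eps / (4 * (Fintype.card ι + 1)), by positivity, fun A' hA => ?_⟩
  set g : ℂ × ℝ → ℂ := fun q =>
    ∑ i, (isoChi A.eps ‖q.1 - A.b i q.2‖ : ℂ) * (A'.b i q.2 - A.b i q.2) with hg
  have hc : Continuous g := continuous_finsetSum _ fun i _ => by
    have := isoChi_cont A.eps
    have := A.cont i
    have := A'.cont i
    fun_prop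
  have hl : ∀ y y' t, ‖g (y, t) - g (y', t)‖ ≤ 1 / 2 * ‖y - y'‖ := fun y y' t => by
    have e1 : ∀ i ∈ Finset.univ, ‖(isoChi A.eps ‖y - A.b i t‖ : ℂ) * (A'.b i t - A.b i t) -
        (isoChi A.eps ‖y' - A.b i t‖ : ℂ) * (A'.b i t - A.b i t)‖ ≤
        2 / A.eps * ‖y - y'‖ * (A.eps / (4 * (Fintype.card ι + 1))) := fun i _ => by
      rw [← sub_mul, norm_mul, ← ofReal_sub, norm_real, Real.norm_eq_abs]
      refine mul_le_mul ((isoChi_lip h0 _ _).trans ?_) (hA i t).le (norm_nonneg _) (by positivity)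
      have := abs_norm_sub_norm_le (y - A.b i t) (y' - A.b i t)
      rw [sub_sub_sub_cancel_right] at this
      gcongr
    simp only [hg]
    rw [← Finset.sum_sub_distrib]
    refine (norm_sum_le_of_le _ e1).trans ?_
    rw [Finset.sum_const, Finset.card_univ, nsmul_eq_mul,
      show (Fintype.card ι : ℝ) * (2 / A.eps * ‖y - y'‖ * (A.eps / (4 * (Fintype.card ι + 1)))) =
        Fintype.card ι / (Fintype.card ι + 1) * (1 / 2 * ‖y - y'‖) by field_simp; ring]
    exact mul_le_of_le_one_left (by positivity) ((div_le_one (by positivity)).2 (by linarith))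
  obtain ⟨Φ, hΦ⟩ := exists_homeo_lip hc hl
  have hn : ∀ i y t, ‖y - A.b i t‖ ≤ A.eps / 2 → g (y, t) = A'.b i t - A.b i t := by
    intro i y t hy
    simp only [hg]
    rw [Finset.sum_eq_single i (fun j _ hj => ?_) (fun h => absurd (Finset.mem_univ i) h),
      isoChi_one h0 hy, ofReal_one, one_mul]
    have e1 := h1 t i j hj.symm
    have e2 := norm_sub_le (y - A.b j t) (y - A.b i t)
    rw [sub_sub_sub_cancel_left] at e2
    rw [isoChi_zero h0 (by linarith), ofReal_zero, zero_mul]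
  have hd : ∀ p, Φ p ∈ A'.domT ↔ p ∈ A.domT := fun p => by
    refine forall_congr' fun i => not_congr ?_
    have e1 : Φ (A.b i p.2.im, p.2) = (A'.b i p.2.im, p.2) := by
      rw [hΦ, hn i _ _ (by simp; positivity)]
      simp
    have e2 : (Φ p).2 = p.2 := by rw [hΦ]
    rw [e2]
    refine ⟨fun h => ?_, fun h => ?_⟩
    · have e3 : Φ p = (A'.b i p.2.im, p.2) := Prod.ext h e2
      exact congrArg Prod.fst (Φ.injective (e3.trans e1.symm))
    · have e3 : p = (A.b i p.2.im, p.2) := Prod.ext h rfl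
      exact congrArg Prod.fst ((congrArg Φ e3).trans e1)
  have hi : Φ '' A.domT = A'.domT := by
    ext q
    obtain ⟨p, rfl⟩ := Φ.surjective q
    rw [Φ.injective.mem_set_image, hd]
  have hk : ∀ (k : SD ℤ) (p : CC), Φ (k • p) = k • Φ p := fun k p => by
    rw [hΦ, hΦ, actT_def, actT_def]
    refine Prod.ext ?_ rfl
    simp only [hg, cj_plus, Br.b_int, ← cj_sub, norm_cj]
    unfold cj
    split_ifs <;> simp
  have hs : ∀ i p, A.Near (some i) (A.eps / 2) p →
      Φ p = (A'.b i p.2.im + ee 0 * (p.1 - A.b i p.2.im), p.2) := fun i p hp => by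
    rw [hΦ, hn i _ _ hp.2.le, ee_zero]
    exact Prod.ext (by ring) rfl
  have hz : ∀ p, A.Near none (A.eps / 2) p → Φ p = p := fun p hp => by
    have e1 : 0 < ‖p.1‖ := inv_pos.1 hp.1
    have e2 : A.eps⁻¹ < ‖p.1‖ := inv_lt_of_inv_lt₀ e1 (hp.2.trans (half_lt_self h0))
    have e3 : g (p.1, p.2.im) = 0 := Finset.sum_eq_zero fun i _ => by
      have e4 := h2 i p.2.im
      have e5 := norm_sub_norm_le p.1 (A.b i p.2.im)
      rw [isoChi_zero h0 (by linarith), ofReal_zero, zero_mul]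
    rw [hΦ, e3, add_zero]
  obtain ⟨f, hs, ht, -⟩ := Br.extend A A'
    (Φ.toOpenPartialHomeomorphOfImageEq A.domT A.isOpen_domT A'.domT hi) subset_rfl subset_rfl
    (fun k p hp => ⟨(A.smul_domT k).2 hp, hk k p⟩) (half_pos h0) (fun _ _ => 0)
    (fun _ => continuous_const) (fun _ _ => neg_zero.symm)
    (fun i p hp => ⟨A.near_domT (half_le_self h0.le) hp, hs i p hp⟩)
    (fun p hp => ⟨A.near_domT (half_le_self h0.le) hp, hz p hp⟩)
  exact ⟨f.toHomeomorphOfSourceEqUnivTargetEqUniv (by rw [hs]; simp) (by rw [ht]; simp)⟩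

theorem rel_htpy [Finite ι] (A A' : Br ι) (h : ι → ℝ × ℝ → ℂ) (hc : ∀ i, Continuous (h i))
    (h0 : ∀ i t, h i (0, t) = A.b i t) (h1 : ∀ i t, h i (1, t) = A'.b i t)
    (he : ∀ i, ∀ s ∈ Icc (0 : ℝ) 1, ∀ t, h i (s, t + 1) = conj (h i (s, t)))
    (hi : ∀ s ∈ Icc (0 : ℝ) 1, ∀ t i j, h i (s, t) = h j (s, t) → i = j) : BRel A A' := by
  let B : unitInterval → Br ι := fun s => ⟨fun i t => h i (s, t),
    fun i => (hc i).comp (by fun_prop), fun i => he i s s.2, hi s s.2⟩
  have e0 : BRel A (B 0) := by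
    obtain ⟨δ, hδ, h2⟩ := rel_close A
    exact h2 _ fun i t => by simpa [B, h0] using hδ
  have e1 : BRel A' (B 1) := by
    obtain ⟨δ, hδ, h2⟩ := rel_close A'
    exact h2 _ fun i t => by simpa [B, h1] using hδ
  refine e0.trans (.trans ?_ e1.symm)
  refine PreconnectedSpace.induction₂' (fun s s' => BRel (B s) (B s')) (fun s => ?_)
    ⟨fun _ _ _ => BRel.trans⟩ 0 1
  obtain ⟨δ, hδ, h2⟩ := rel_close (B s)
  have h3 : ∀ᶠ s' : unitInterval in 𝓝 s, ∀ i, ∀ t ∈ Icc (0 : ℝ) 1,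
      ‖h i (s', t) - h i (s, t)‖ < δ := by
    refine eventually_all.2 fun i => isCompact_Icc.eventually_forall_of_forall_eventually
      fun t _ => ?_
    have := hc i
    have h4 : Continuous fun q : unitInterval × ℝ => ‖h i (q.1, q.2) - h i (s, q.2)‖ := by
      fun_prop
    exact h4.continuousAt.eventually_lt continuousAt_const (by simpa using hδ)
  filter_upwards [h3] with s' hs'
  have h4 : BRel (B s) (B s') := h2 _ fun i t => by
    rw [← Int.fract_add_floor t, Br.b_int, Br.b_int, ← cj_sub, norm_cj]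
    exact hs' i _ ⟨Int.fract_nonneg t, (Int.fract_lt_one t).le⟩
  exact ⟨h4, h4.symm⟩

end Pool.Agent.Lib.MP_45bb13_gt
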