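import Pool.Agent.Lib.MP_45bb13_gt.Defs

/-! The calculus of locally open maps. -/

set_option linter.unusedSectionVars false

namespace Pool.Agent.Lib.MP_45bb13_gt

open Set Filter Topology Complex
open scoped ComplexConjugate

variable {E E' X Y Z : Type*} [TopologicalSpace E] [TopologicalSpace E'] [TopologicalSpace X]
  [TopologicalSpace Y] [TopologicalSpace Z] {p q : E → X} {O O' : Set E} {x : E}

lemma LO.continuousAt (h : LO p O) (hx : x ∈ O) : ContinuousAt p x := (h.2 x hx).le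

lemma LO.continuousOn (h : LO p O) : ContinuousOn p O := fun _ hx => (h.continuousAt hx).continuousWithinAt

lemma LO.mono (h : LO p O) (h' : IsOpen O') (hs : O' ⊆ O) : LO p O' := ⟨h', fun x hx => h.2 x (hs hx)⟩

lemma LO.congr (h : LO p O) (he : EqOn q p O) : LO q O := ⟨h.1, fun x hx => by
  rw [he hx, ← h.2 x hx]
  exact map_congr (he.eventuallyEq_of_mem (h.1.mem_nhds hx))⟩

lemma LO.isOpen_image (h : LO p O) (h' : IsOpen O') (hs : O' ⊆ O) : IsOpen (p '' O') :=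
  isOpen_iff_mem_nhds.2 <| by
    rintro _ ⟨y, hy, rfl⟩
    rw [← h.2 y (hs hy)]
    exact image_mem_map (h'.mem_nhds hy)

lemma LO.image_mem (h : LO p O) (hx : x ∈ O) {V : Set E} (hV : V ∈ 𝓝 x) : p '' V ∈ 𝓝 (p x) :=
  h.2 x hx ▸ image_mem_map hV

lemma lo_id (h : IsOpen O) : LO id O := ⟨h, fun _ _ => map_id⟩

lemma lo_homeo (e : E ≃ₜ X) (h : IsOpen O) : LO e O := ⟨h, fun x _ => e.map_nhds_eq x⟩

lemma lo_oph (φ : OpenPartialHomeomorph E X) : LO φ φ.source := ⟨φ.open_source, fun _ hx => φ.map_nhds_eq hx⟩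

lemma LO.comp {g : X → Y} {U : Set X} (hg : LO g U) (h : LO p O) (hm : MapsTo p O U) :
    LO (g ∘ p) O := ⟨h.1, fun x hx => by
  rw [← Filter.map_map, h.2 x hx, hg.2 _ (hm hx)]; rfl⟩

lemma LO.prod {p' : E' → Y} {U : Set E'} (h : LO p O) (h' : LO p' U) :
    LO (Prod.map p p') (O ×ˢ U) := ⟨h.1.prod h'.1, fun x hx => by
  rw [nhds_prod_eq, nhds_prod_eq, ← prod_map_map_eq', h.2 _ hx.1, h'.2 _ hx.2]; rfl⟩

lemma LO.of_comp {g : X → Y} (h : LO p O) (hg : LO (g ∘ p) O) : LO g (p '' O) :=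
  ⟨h.isOpen_image h.1 le_rfl, by
    rintro _ ⟨x, hx, rfl⟩
    rw [← h.2 x hx, Filter.map_map, hg.2 x hx]; rfl⟩

lemma lo_of_local (h : ∀ x ∈ O, ∃ U, x ∈ U ∧ U ⊆ O ∧ LO p U) : LO p O :=
  ⟨isOpen_iff_mem_nhds.2 fun x hx => let ⟨_, h1, h2, h3⟩ := h x hx
    mem_of_superset (h3.1.mem_nhds h1) h2, fun x hx => let ⟨_, h1, _, h3⟩ := h x hx; h3.2 x h1⟩

/-- A map with a continuous two-sided inverse between open sets. -/
lemma lo_of_inverse {g : X → E} {U : Set X} (hO : IsOpen O) (hU : IsOpen U) (hp : ContinuousOn p O)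
    (hg : ContinuousOn g U) (h1 : MapsTo p O U) (h2 : MapsTo g U O) (h3 : ∀ x ∈ O, g (p x) = x)
    (h4 : ∀ y ∈ U, p (g y) = y) : LO p O :=
  lo_oph ⟨⟨⟨p, g, O, U, h1, h2, h3, h4⟩, hp, hg⟩, hO, hU⟩

lemma LO.continuousAt_iff (h : LO p O) (hx : x ∈ O) {f : X → Y} :
    ContinuousAt f (p x) ↔ ContinuousAt (f ∘ p) x := by
  rw [ContinuousAt, ContinuousAt, Tendsto, Tendsto, ← Filter.map_map, h.2 x hx]; rfl

lemma LO.continuousAt_prod (h : LO p O) (hx : x ∈ O) {f : X × Z → Y} {z : Z}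
    (hf : ContinuousAt (fun y : E × Z => f (p y.1, y.2)) (x, z)) : ContinuousAt f (p x, z) :=
  ((h.prod (lo_id isOpen_univ)).continuousAt_iff (x := (x, z)) ⟨hx, trivial⟩).2 hf

lemma LO.continuousOn_prod (h : LO p O) {f : X × Z → Y} {S : Set Z}
    (hf : ContinuousOn (fun y : E × Z => f (p y.1, y.2)) (O ×ˢ S)) :
    ContinuousOn f ((p '' O) ×ˢ S) := by
  rintro ⟨_, z⟩ ⟨⟨x, hx, rfl⟩, hz⟩
  have h1 := hf (x, z) ⟨hx, hz⟩
  rw [ContinuousWithinAt, nhdsWithin_prod_eq, h.1.nhdsWithin_eq hx] at h1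
  rw [ContinuousWithinAt, nhdsWithin_prod_eq, (h.isOpen_image h.1 le_rfl).nhdsWithin_eq
    (mem_image_of_mem p hx), ← h.2 x hx, ← map_id (f := 𝓝[S] z), prod_map_map_eq]
  exact h1

lemma LO.oph [Nonempty E] (h : LO p O) (hi : InjOn p O) :
    ∃ φ : OpenPartialHomeomorph E X, ⇑φ = p ∧ φ.source = O ∧ φ.target = p '' O := by
  refine ⟨⟨⟨hi.toPartialEquiv p O, h.continuousOn, ?_⟩, h.1, h.isOpen_image h.1 le_rfl⟩, rfl, rfl,
    rfl⟩
  rintro _ ⟨x, hx, rfl⟩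
  refine ((h.continuousAt_iff hx).2 (continuousAt_id.congr ?_)).continuousWithinAt
  filter_upwards [h.1.mem_nhds hx] with y hy
  exact (hi.leftInvOn_invFunOn hy).symm

lemma LO.le (h : LO p O) (hi : InjOn p O) (hx : x ∈ O) : Lemb p x := ⟨O, hx, h, hi⟩

lemma Lemb.continuousAt (h : Lemb p x) : ContinuousAt p x := let ⟨_, h1, h2, _⟩ := h; h2.continuousAt h1

lemma Lemb.shrink (h : Lemb p x) {V : Set E} (hV : V ∈ 𝓝 x) :
    ∃ O, x ∈ O ∧ O ⊆ V ∧ LO p O ∧ InjOn p O := by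
  obtain ⟨O, h1, h2, h3⟩ := h
  obtain ⟨W, w1, w2, w3⟩ := mem_nhds_iff.1 hV
  exact ⟨O ∩ W, ⟨h1, w3⟩, inter_subset_right.trans w1, h2.mono (h2.1.inter w2) inter_subset_left,
    h3.mono inter_subset_left⟩

lemma Lemb.congr (h : Lemb p x) (he : q =ᶠ[𝓝 x] p) : Lemb q x := by
  obtain ⟨O, h1, h2, h3, h4⟩ := h.shrink he
  exact ⟨O, h1, h3.congr h2, h4.congr fun y hy => (h2 hy).symm⟩

lemma Lemb.comp {g : X → Y} (hg : Lemb g (p x)) (h : Lemb p x) : Lemb (g ∘ p) x := by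
  obtain ⟨U, u1, u2, u3⟩ := hg
  obtain ⟨O, h1, h2, h3, h4⟩ := h.shrink (h.continuousAt (u2.1.mem_nhds u1))
  exact ⟨O, h1, u2.comp h3 h2, u3.comp h4 h2⟩

lemma Lemb.prod {p' : E' → Y} {y : E'} (h : Lemb p x) (h' : Lemb p' y) : Lemb (Prod.map p p') (x, y) := by
  obtain ⟨O, h1, h2, h3⟩ := h
  obtain ⟨U, u1, u2, u3⟩ := h'
  exact ⟨O ×ˢ U, ⟨h1, u1⟩, h2.prod u2, h3.prodMap u3⟩

lemma le_homeo (e : E ≃ₜ X) (x : E) : Lemb e x := ⟨univ, trivial, lo_homeo e isOpen_univ, e.injective.injOn⟩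

lemma Lemb.oph [Nonempty E] (h : Lemb p x) {V : Set E} (hV : V ∈ 𝓝 x) :
    ∃ φ : OpenPartialHomeomorph E X, ⇑φ = p ∧ x ∈ φ.source ∧ φ.source ⊆ V := by
  obtain ⟨O, h1, h2, h3, h4⟩ := h.shrink hV
  obtain ⟨φ, e1, e2, -⟩ := h3.oph h4
  exact ⟨φ, e1, e2 ▸ h1, e2 ▸ h2⟩

lemma lo_of_le (hO : IsOpen O) (h : ∀ x ∈ O, Lemb p x) : LO p O := ⟨hO, fun x hx => let ⟨_, h1, h2, _⟩ := h x hx; h2.2 x h1⟩

/-- A holomorphic germ with nonzero derivative. -/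
lemma le_of_deriv {f : ℂ → ℂ} {a f' : ℂ} (h : HasStrictDerivAt f f' a) (h0 : f' ≠ 0) : Lemb f a :=
  let φ := (h.hasStrictFDerivAt_equiv h0).toOpenPartialHomeomorph f
  ⟨φ.source, (h.hasStrictFDerivAt_equiv h0).mem_toOpenPartialHomeomorph_source, lo_oph φ, φ.injOn⟩

lemma le_of_deriv_real {f : ℝ → ℝ} {a f' : ℝ} (h : HasStrictDerivAt f f' a) (h0 : f' ≠ 0) :
    Lemb f a :=
  let φ := (h.hasStrictFDerivAt_equiv h0).toOpenPartialHomeomorph f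
  ⟨φ.source, (h.hasStrictFDerivAt_equiv h0).mem_toOpenPartialHomeomorph_source, lo_oph φ, φ.injOn⟩

/-- The image of an open set of a Hausdorff space under an open embedding separates points. -/
lemma LO.separated [T2Space E] (h : LO p O) (hi : InjOn p O) {a b : X} (ha : a ∈ p '' O)
    (hb : b ∈ p '' O) (hab : a ≠ b) : Disjoint (𝓝 a) (𝓝 b) := by
  obtain ⟨x, hx, rfl⟩ := ha
  obtain ⟨y, hy, rfl⟩ := hb
  obtain ⟨V, W, v1, w1, v2, w2, hd⟩ := t2_separation (show x ≠ y from fun e => hab (e ▸ rfl))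
  refine Filter.disjoint_iff.2 ⟨_, h.image_mem hx (inter_mem (v1.mem_nhds v2) (h.1.mem_nhds hx)), _,
    h.image_mem hy (inter_mem (w1.mem_nhds w2) (h.1.mem_nhds hy)), disjoint_left.2 ?_⟩
  rintro _ ⟨u, hu, rfl⟩ ⟨v, hv, e⟩
  exact disjoint_left.1 hd hu.1 (hi hv.2 hu.2 e ▸ hv.1)

end Pool.Agent.Lib.MP_45bb13_gt
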