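import Pool.Agent.Lib.MP_45bb13_gt.XTop
import Pool.Agent.Lib.MP_45bb13_gt.HDefs

/-! The exceptional spheres at the finite strands are related by isotopies. -/

set_option linter.unusedSectionVars false

namespace Pool.Agent.Lib.MP_45bb13_gt

open Set Filter Topology Complex
open scoped ComplexConjugate

/-- The part of the first chart that lies in the small cap. -/
def moveL (r : ℝ) : Set CC := {p | p ∈ domL ∧ ‖p.2‖ < r ^ 2}

/-- The part of the second chart that lies in the small cap. -/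
def moveM (r : ℝ) : Set CC := {p | p ∈ domM ∧ ‖p.1‖ ^ 2 * ‖p.2‖ < r ^ 2}

lemma move_openL (r : ℝ) : IsOpen (moveL r) :=
  isOpen_domL.inter (isOpen_lt (f := fun p : CC => ‖p.2‖) (by fun_prop) continuous_const)

lemma move_openM (r : ℝ) : IsOpen (moveM r) :=
  isOpen_domM.inter
    (isOpen_lt (f := fun p : CC => ‖p.1‖ ^ 2 * ‖p.2‖) (by fun_prop) continuous_const)

lemma move_lam_mem {r : ℝ} (hr : 0 < r) (k : Bool × Bool) (p : CC) :
    lam k p ∈ Nr r ↔ ‖p.2‖ < r ^ 2 := by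
  rw [← wabs_lam k p]
  exact (pow_lt_pow_iff_left₀ (wabs_nonneg _) hr.le two_ne_zero).symm

lemma move_mu_mem {r : ℝ} (hr : 0 < r) (k : Bool × Bool) (p : CC) :
    mu k p ∈ Nr r ↔ ‖p.1‖ ^ 2 * ‖p.2‖ < r ^ 2 := by
  rw [← wabs_mu k p]
  exact (pow_lt_pow_iff_left₀ (wabs_nonneg _) hr.le two_ne_zero).symm

lemma move_V_eq {r : ℝ} (hr : 0 < r) (k : Bool × Bool) :
    Vk k ∩ Nr r = lam k '' moveL r ∪ mu k '' moveM r := by
  ext n
  constructor
  · rintro ⟨⟨p, hp, rfl⟩ | ⟨p, hp, rfl⟩, hn⟩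
    · exact .inl ⟨p, ⟨hp, (move_lam_mem hr k p).1 hn⟩, rfl⟩
    · exact .inr ⟨p, ⟨hp, (move_mu_mem hr k p).1 hn⟩, rfl⟩
  · rintro (⟨p, hp, rfl⟩ | ⟨p, hp, rfl⟩)
    · exact ⟨.inl ⟨p, hp.1, rfl⟩, (move_lam_mem hr k p).2 hp.2⟩
    · exact ⟨.inr ⟨p, hp.1, rfl⟩, (move_mu_mem hr k p).2 hp.2⟩

lemma move_box_zero : box 0 := box_of_norm (by norm_num)

lemma move_memL {r : ℝ} (hr : 0 < r) (l : ℂ) : ((l, 0) : CC) ∈ moveL r :=
  ⟨by simpa [domL] using move_box_zero, by simpa using pow_pos hr 2⟩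

lemma move_memM {r : ℝ} (hr : 0 < r) (l : ℂ) : ((l, 0) : CC) ∈ moveM r :=
  ⟨by simpa [domM] using move_box_zero, by simpa using pow_pos hr 2⟩

lemma move_starL {r : ℝ} (hr : 0 < r) : IsPathConnected (moveL r) := by
  refine StarConvex.isPathConnected (a := (0 : CC)) ?_ (move_memL hr 0)
  intro y hy a b _ hb hab
  have hb1 : b ≤ 1 := by linarith
  rw [smul_zero, zero_add]
  refine ⟨?_, ?_⟩
  · have h := box_smul hy.1 (s := b ^ 3) (by positivity) (pow_le_one₀ hb hb1)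
    have e : (b • y).1 ^ 2 * (b • y).2 = ((b ^ 3 : ℝ) : ℂ) * (y.1 ^ 2 * y.2) := by
      simp only [Prod.smul_fst, Prod.smul_snd, real_smul]
      push_cast
      ring
    show box ((b • y).1 ^ 2 * (b • y).2)
    rw [e]
    exact h
  · have h := hy.2
    have h0 := norm_nonneg y.2
    rw [Prod.smul_snd, norm_smul, Real.norm_of_nonneg hb]
    nlinarith

lemma move_starM {r : ℝ} (hr : 0 < r) : IsPathConnected (moveM r) := by
  refine StarConvex.isPathConnected (a := (0 : CC)) ?_ (move_memM hr 0)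
  intro y hy a b _ hb hab
  have hb1 : b ≤ 1 := by linarith
  rw [smul_zero, zero_add]
  refine ⟨?_, ?_⟩
  · exact box_smul hy.1 hb hb1
  · have h := hy.2
    have h0 : 0 ≤ ‖y.1‖ ^ 2 * ‖y.2‖ := by positivity
    have h3 : b ^ 3 ≤ 1 := pow_le_one₀ hb hb1
    rw [Prod.smul_snd, Prod.smul_fst, norm_smul, norm_smul, Real.norm_of_nonneg hb]
    calc (b * ‖y.1‖) ^ 2 * (b * ‖y.2‖) = b ^ 3 * (‖y.1‖ ^ 2 * ‖y.2‖) := by ring
      _ ≤ 1 * (‖y.1‖ ^ 2 * ‖y.2‖) := mul_le_mul_of_nonneg_right h3 h0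
      _ < r ^ 2 := by rw [one_mul]; exact h

namespace Br

variable {ι : Type} [Finite ι] (A : Br ι)

lemma move_mapsL (k' : Bool × Bool) : MapsTo (lam k') (moveL A.eps) (Nr A.eps) :=
  fun p hp => (move_lam_mem A.eps_pos k' p).2 hp.2

lemma move_mapsM (k' : Bool × Bool) : MapsTo (mu k') (moveM A.eps) (Nr A.eps) :=
  fun p hp => (move_mu_mem A.eps_pos k' p).2 hp.2

lemma move_loL (k : Option ι) (k' : Bool × Bool) : LO (A.jj k ∘ lam k') (moveL A.eps) :=
  (A.lo_jj k).comp ((lo_lam k').mono (move_openL _) fun _ h => h.1) (A.move_mapsL k')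

lemma move_loM (k : Option ι) (k' : Bool × Bool) : LO (A.jj k ∘ mu k') (moveM A.eps) :=
  (A.lo_jj k).comp ((lo_mu k').mono (move_openM _) fun _ h => h.1) (A.move_mapsM k')

lemma move_image (k : Option ι) (k' : Bool × Bool) : A.jj k '' (Vk k' ∩ Nr A.eps) =
    (A.jj k ∘ lam k') '' moveL A.eps ∪ (A.jj k ∘ mu k') '' moveM A.eps := by
  rw [move_V_eq A.eps_pos, image_union, image_comp, image_comp]

lemma preconn_V (k : Option ι) (k' : Bool × Bool) :
    IsPreconnected (A.jj k '' (Vk k' ∩ Nr A.eps)) := by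
  rw [A.move_image]
  refine IsPreconnected.union (A.jj k (lam k' (1, 0))) ⟨_, move_memL A.eps_pos 1, rfl⟩
    ⟨_, move_memM A.eps_pos 1, ?_⟩
    ((move_starL A.eps_pos).isConnected.isPreconnected.image _ (A.move_loL k k').continuousOn)
    ((move_starM A.eps_pos).isConnected.isPreconnected.image _ (A.move_loM k k').continuousOn)
  rw [lam_mu k' one_ne_zero]
  simp

lemma move_LL (k : Option ι) (k' : Bool × Bool) {x y : CC} (hx : x ∈ moveL A.eps)
    (hy : y ∈ moveL A.eps) : (A.jj k ∘ lam k') x = (A.jj k ∘ lam k') y ↔ x = y :=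
  ⟨fun h => lam_injOn k' hx.1 hy.1 (A.jj_injOn k (A.move_mapsL k' hx) (A.move_mapsL k' hy) h),
    fun h => by rw [h]⟩

lemma move_MM (k : Option ι) (k' : Bool × Bool) {x y : CC} (hx : x ∈ moveM A.eps)
    (hy : y ∈ moveM A.eps) : (A.jj k ∘ mu k') x = (A.jj k ∘ mu k') y ↔ x = y :=
  ⟨fun h => mu_injOn k' hx.1 hy.1 (A.jj_injOn k (A.move_mapsM k' hx) (A.move_mapsM k' hy) h),
    fun h => by rw [h]⟩

lemma move_LM (k : Option ι) (k' : Bool × Bool) {x y : CC} (hx : x ∈ moveL A.eps)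
    (hy : y ∈ moveM A.eps) : (A.jj k ∘ lam k') x = (A.jj k ∘ mu k') y ↔
      x.1 ≠ 0 ∧ y = (x.1⁻¹, x.1 ^ 2 * x.2) := by
  rw [← lam_eq_mu_iff (k := k') hx.1 hy.1]
  exact ⟨fun h => A.jj_injOn k (A.move_mapsL k' hx) (A.move_mapsM k' hy) h,
    fun h => congrArg (A.jj k) h⟩

lemma move_phi (i i' : Option ι) (k k' : Bool × Bool) :
    ∃ φ : OpenPartialHomeomorph A.X A.X, φ.source = A.jj i '' (Vk k ∩ Nr A.eps) ∧
      (∀ x ∈ moveL A.eps, φ (A.jj i (lam k x)) = A.jj i' (lam k' x)) ∧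
      ∀ x ∈ moveM A.eps, φ (A.jj i (mu k x)) = A.jj i' (mu k' x) := by
  obtain ⟨φ, h1, -, h2, h3⟩ := oph_two (A.move_loL i k) (A.move_loM i k) (A.move_loL i' k')
    (A.move_loM i' k') (fun x hx y hy => (A.move_LL i k hx hy).trans (A.move_LL i' k' hx hy).symm)
    (fun x hx y hy => (A.move_LM i k hx hy).trans (A.move_LM i' k' hx hy).symm)
    (fun x hx y hy => (A.move_MM i k hx hy).trans (A.move_MM i' k' hx hy).symm)
  exact ⟨φ, h1.trans (A.move_image i k).symm, h2, h3⟩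

end Br

/-- The chart point below `(b t + η, v)`. -/
noncomputable def movePt (η v : ℂ) : CC :=
  ((⟨ang η, v.re⟩ : ℂ) / (‖η‖ * ee (v.im / 2)), (‖η‖ * ee (v.im / 2)) ^ 2)

lemma move_w_ne {η : ℂ} (h : η ≠ 0) (c : ℝ) : (‖η‖ : ℂ) * ee c ≠ 0 :=
  mul_ne_zero (ofReal_ne_zero.2 (norm_ne_zero_iff.2 h)) (ee_ne_zero _)

lemma movePt_mem {η v : ℂ} {r : ℝ} (h0 : 0 < η.re) (h1 : ‖η‖ < r) (h2 : |v.re| < 1 / 4) :
    movePt η v ∈ moveL r := by
  have hη : η ≠ 0 := fun h => by simp [h] at h0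
  refine ⟨?_, ?_⟩
  · show box (((⟨ang η, v.re⟩ : ℂ) / (‖η‖ * ee (v.im / 2))) ^ 2 * (‖η‖ * ee (v.im / 2)) ^ 2)
    rw [← mul_pow, div_mul_cancel₀ _ (move_w_ne hη _), box_iff]
    refine ⟨?_, h2⟩
    have ha : |arg η| < Real.pi / 2 := abs_arg_lt_pi_div_two_iff.2 (.inl h0)
    have hp := Real.pi_pos
    show |arg η / (2 * Real.pi)| < 1 / 2
    rw [abs_div, abs_of_pos (by positivity : 0 < 2 * Real.pi), div_lt_iff₀ (by positivity)]
    linarith
  · show ‖((‖η‖ : ℂ) * ee (v.im / 2)) ^ 2‖ < r ^ 2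
    rw [norm_pow, norm_mul, norm_ee, mul_one, norm_real, norm_norm]
    exact pow_lt_pow_left₀ h1 (norm_nonneg _) two_ne_zero

namespace Br

variable {ι : Type} [Finite ι] (A : Br ι)

lemma move_chart (j : ι) (k : Bool × Bool) {η : ℂ} (h : η ≠ 0) (v : ℂ) :
    A.jj (some j) (lam k (movePt η v)) =
      A.prT (A.b j v.im + ee (u0 k).re * η, v + (u0 k).im) := by
  have hw := move_w_ne h (v.im / 2)
  have e := A.pW_eq (some j) (u0 k + ⟨ang η, v.re⟩) (norm_pos_iff.2 h) v.im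
  rw [movePt, lam_eq k _ hw, div_mul_cancel₀ _ hw]
  refine Eq.trans e ?_
  congr 1
  refine Prod.ext ?_ (Complex.ext ?_ ?_)
  · show A.b j v.im + ‖η‖ * ee ((u0 k).re + ang η) = A.b j v.im + ee (u0 k).re * η
    rw [ee_add, mul_left_comm, norm_mul_ee_ang]
  · simp [add_comm]
  · simp

/-- The displacement of the isotopy. -/
noncomputable def moveD (i i' : ι) (c : ℝ) (q : CC × ℝ) : CC :=
  (ee (q.2 * c) * (q.1.1 - (A.b i q.1.2.im - A.b i 0)) + (1 - q.2) * (A.b i q.1.2.im - A.b i 0) +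
    q.2 * (A.b i' q.1.2.im - A.b i' 0), q.1.2)

lemma moveD_cont (i i' : ι) (c : ℝ) : Continuous (A.moveD i i' c) := by
  have h1 := A.cont i
  have h2 := A.cont i'
  unfold moveD
  fun_prop

lemma moveD_zero (i i' : ι) (c s : ℝ) : A.moveD i i' c (0, s) = 0 := by
  simp [moveD]

lemma moveD_start (i i' : ι) (c : ℝ) (x : CC) : A.moveD i i' c (x, 0) = x := by
  simp [moveD, ee_zero]

lemma moveD_eq_zero (i i' : ι) (c s : ℝ) {x : CC} (h : A.moveD i i' c (x, s) = 0) : x = 0 := by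
  have h2 : x.2 = 0 := congrArg Prod.snd h
  have h1 := congrArg Prod.fst h
  simp only [moveD, h2, zero_im, sub_self, sub_zero, mul_zero, add_zero, Prod.fst_zero,
    mul_eq_zero, ee_ne_zero, false_or] at h1
  exact Prod.ext h1 h2

lemma move_prT_inj {p d : CC} (hp : p ∈ A.domT) (hd : p + d ∈ A.domT) (h1 : ‖d.2‖ < 1)
    (h : A.prT (p + d) = A.prT p) : d = 0 := by
  obtain ⟨g, hg⟩ := (A.prT_eq_iff hp hd).1 h.symm
  rw [actT_def] at hg
  have e1 := congrArg (fun z : CC => z.2.im) hg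
  have e2 := congrArg (fun z : CC => z.2.re) hg
  simp only [Prod.snd_add, add_im, add_re, add_right_inj] at e1 e2
  have hn : g.n = 0 := by
    have := (abs_im_le_norm d.2).trans_lt h1
    rw [← e1] at this
    exact Int.abs_lt_one_iff.1 (by exact_mod_cast this)
  rw [hn, sgn_zero] at e2
  have ha : g.a = 0 := by
    have := (abs_re_le_norm d.2).trans_lt h1
    rw [show d.2.re = g.a by push_cast at e2; linarith] at this
    exact Int.abs_lt_one_iff.1 (by exact_mod_cast this)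
  have hg1 : g = 1 := SD.ext ha hn
  rw [← actT_def, hg1, one_smul] at hg
  exact left_eq_add.1 hg

lemma move_base (j : ι) (c z : ℝ) :
    ((A.b j 0 + ee c * (A.eps / 2 : ℝ), (z : ℂ)) : CC) ∈ A.domT := by
  have h := A.eps_pos
  have e : A.dst (some j) (A.b j 0 + ee c * (A.eps / 2 : ℝ), (z : ℂ)) = A.eps / 2 := by
    show ‖A.b j 0 + ee c * (A.eps / 2 : ℝ) - A.b j (z : ℂ).im‖ = _
    rw [ofReal_im, add_sub_cancel_left, norm_mul, norm_ee, one_mul, norm_real,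
      Real.norm_of_nonneg (by positivity)]
  refine A.near_domT (k := some j) le_rfl ⟨?_, ?_⟩ <;> rw [e] <;> linarith

theorem exists_move (i i' : ι) (k : Bool × Bool) : ∃ φ : A.X → A.X,
    LO φ (A.jj (some i) '' (Vk (false, false) ∩ Nr A.eps)) ∧
    InjOn φ (A.jj (some i) '' (Vk (false, false) ∩ Nr A.eps)) ∧
    (∀ l, φ (A.jj (some i) (.e (false, false) l)) = A.jj (some i') (.e k l)) ∧
    ∃ (Ψ : CC × ℝ → A.X) (O : Set CC), O ∈ 𝓝 0 ∧ ContinuousOn Ψ (O ×ˢ Icc 0 1) ∧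
      (∀ x ∈ O, x ≠ 0 → ∀ s ∈ Icc (0 : ℝ) 1, Ψ (x, s) ≠ Ψ (0, s)) ∧ Lemb (fun x => Ψ (x, 0)) 0 ∧
      Ψ (0, 0) ∈ A.jj (some i) '' (Vk (false, false) ∩ Nr A.eps) ∧
      ∀ x ∈ O, Ψ (x, 1) = φ (Ψ (x, 0)) := by
  have hε := A.eps_pos
  obtain ⟨φ, hs, hL, hM⟩ := A.move_phi (some i) (some i') (false, false) k
  refine ⟨φ, hs ▸ lo_oph φ, hs ▸ φ.injOn, fun l => ?_, ?_⟩
  · rcases l with _ | l
    · rw [← mu_zero, ← mu_zero]
      exact hM _ (move_memM hε 0)
    · rw [← lam_zero, ← lam_zero]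
      exact hL _ (move_memL hε l)
  have hu1 : (u0 (false, false)).re = 0 := by simp [u0]
  have hu2 : (u0 (false, false)).im = 0 := by simp [u0]
  have hp0 := A.move_base i 0 0
  have hp1 := A.move_base i' (u0 k).re (u0 k).im
  obtain ⟨γ₀, hγ₀⟩ := A.pathConn_domT.joinedIn _ hp0 _ hp1
  have hγc : Continuous γ₀.extend := γ₀.continuous_extend
  have hγ : ∀ s ∈ Icc (0 : ℝ) 1, γ₀.extend s ∈ A.domT := fun s hs => by
    rw [γ₀.extend_apply hs]
    exact hγ₀ _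
  have hγ0 := γ₀.extend_zero
  have hγ1 := γ₀.extend_one
  generalize (γ₀.extend : ℝ → CC) = γ at hγc hγ hγ0 hγ1
  rw [ee_zero, one_mul, ofReal_zero] at hγ0
  set c := (u0 k).re with hc
  have hF : Continuous fun q : CC × ℝ => γ q.2 + A.moveD i i' c q :=
    (hγc.comp continuous_snd).add (A.moveD_cont i i' c)
  have hO1 : ∀ᶠ x in 𝓝 (0 : CC), ∀ s ∈ Icc (0 : ℝ) 1, γ s + A.moveD i i' c (x, s) ∈ A.domT := by
    refine isCompact_Icc.eventually_forall_of_forall_eventually fun s hs => ?_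
    refine hF.continuousAt.eventually_mem (A.isOpen_domT.mem_nhds ?_)
    show γ s + A.moveD i i' c (0, s) ∈ A.domT
    rw [moveD_zero, add_zero]
    exact hγ s hs
  have hη : Continuous fun x : CC => A.b i 0 + (A.eps / 2 : ℝ) + x.1 - A.b i x.2.im := by
    have := A.cont i
    fun_prop
  have hO2 : ∀ᶠ x in 𝓝 (0 : CC), 0 < (A.b i 0 + (A.eps / 2 : ℝ) + x.1 - A.b i x.2.im).re := by
    refine (continuous_re.comp hη).continuousAt.eventually (lt_mem_nhds ?_)
    simpa using hε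
  have hO3 : ∀ᶠ x in 𝓝 (0 : CC), ‖A.b i 0 + (A.eps / 2 : ℝ) + x.1 - A.b i x.2.im‖ < A.eps := by
    refine hη.norm.continuousAt.eventually (gt_mem_nhds ?_)
    simp only [Prod.fst_zero, Prod.snd_zero, zero_im, add_zero, add_sub_cancel_left, norm_real]
    rw [Real.norm_of_nonneg (by positivity)]
    linarith
  have hO4 : ∀ᶠ x in 𝓝 (0 : CC), ‖x.2‖ < 1 / 4 := by
    refine continuous_snd.norm.continuousAt.eventually (gt_mem_nhds ?_)
    simp
  have key : ∀ x : CC, 0 < (A.b i 0 + (A.eps / 2 : ℝ) + x.1 - A.b i x.2.im).re →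
      A.prT (γ 0 + A.moveD i i' c (x, 0)) = A.jj (some i) (lam (false, false)
        (movePt (A.b i 0 + (A.eps / 2 : ℝ) + x.1 - A.b i x.2.im) x.2)) := fun x hx => by
    have hne : A.b i 0 + (A.eps / 2 : ℝ) + x.1 - A.b i x.2.im ≠ 0 := fun h => by
      rw [h] at hx
      simp at hx
    rw [A.move_chart i _ hne, hu1, hu2, ee_zero, moveD_start, hγ0]
    congr 1
    refine Prod.ext ?_ ?_
    · simp only [Prod.fst_add]
      ring
    · simp
  refine ⟨fun q => A.prT (γ q.2 + A.moveD i i' c q), _, hO1.and (hO2.and (hO3.and hO4)), ?_, ?_,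
    ?_, ?_, ?_⟩
  · exact A.lo_prT.continuousOn.comp hF.continuousOn fun q hq => hq.1.1 q.2 hq.2
  · intro x hx hx0 s hs h
    refine hx0 (A.moveD_eq_zero i i' c s (A.move_prT_inj (hγ s hs) (hx.1 s hs) ?_ ?_))
    · exact hx.2.2.2.trans (by norm_num)
    · simpa only [moveD_zero, add_zero] using h
  · have h1 : Lemb A.prT (Homeomorph.addLeft (γ 0) 0) := by
      refine A.covT.le _ ?_
      simpa using hγ 0 ⟨le_rfl, zero_le_one⟩
    refine (h1.comp (le_homeo (Homeomorph.addLeft (γ 0)) 0)).congr (.of_forall fun x => ?_)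
    simp [moveD_start]
  · have h2 := hO2.self_of_nhds
    have hm := movePt_mem h2 hO3.self_of_nhds
      ((abs_re_le_norm _).trans_lt hO4.self_of_nhds)
    show A.prT (γ 0 + A.moveD i i' c (0, 0)) ∈ _
    rw [key 0 h2, A.move_image]
    exact .inl ⟨_, hm, rfl⟩
  · intro x hx
    have hne : A.b i 0 + (A.eps / 2 : ℝ) + x.1 - A.b i x.2.im ≠ 0 := fun h => by
      have := hx.2.1
      rw [h] at this
      simp at this
    have hm := movePt_mem hx.2.1 hx.2.2.1 ((abs_re_le_norm _).trans_lt hx.2.2.2)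
    show A.prT (γ 1 + A.moveD i i' c (x, 1)) = φ (A.prT (γ 0 + A.moveD i i' c (x, 0)))
    rw [key x hx.2.1, hL _ hm, A.move_chart i' k hne, hγ1]
    congr 1
    refine Prod.ext ?_ ?_
    · simp only [moveD, Prod.fst_add, one_mul, ofReal_one, ← hc]
      ring
    · simp only [moveD, Prod.snd_add]
      ring

end Br

end Pool.Agent.Lib.MP_45bb13_gt
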