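import Pool.Agent.Lib.MP_45bb13_gt.NEqA

/-! Identities between the charts of the cap. -/

set_option linter.unusedSectionVars false

namespace Pool.Agent.Lib.MP_45bb13_gt

open Set Filter Topology Complex
open scoped ComplexConjugate

variable {p q : CC} {k k' : Bool × Bool}

private lemma neq_polar {x : ℂ} (h : x ≠ 0) : ∃ r : ℝ, 0 < r ∧ ∃ c : ℝ, x = r * ee c :=
  ⟨‖x‖, norm_pos_iff.2 h, ang x, (norm_mul_ee_ang x).symm⟩

private lemma neq_norm {r : ℝ} (hr : 0 < r) (c : ℝ) : ‖(r : ℂ) * ee c‖ = r := by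
  rw [norm_mul, norm_ee, mul_one, norm_real, Real.norm_of_nonneg hr.le]

private lemma neq_strip (h : KR p q) (h0 : 0 < p.1.im) (h1 : p.1.im < 1 / 2) (h2 : 0 < q.1.im)
    (h3 : q.1.im < 1 / 2) : ∃ a : ℤ, q.1.re = p.1.re + a ∧ q.1.im = p.1.im ∧ q.2 = p.2 := by
  obtain ⟨ε, a, b, hε, e1, e2⟩ := h
  have hr := congrArg Complex.re e1
  have hi := congrArg Complex.im e1
  rcases hε with rfl | rfl
  · simp at hr hi e2
    have hb : b = 0 := by
      have : (b : ℝ) < 1 := by linarith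
      have : (-1 : ℝ) < b := by linarith
      have : b < 1 := by exact_mod_cast ‹(b : ℝ) < 1›
      have : -1 < b := by exact_mod_cast ‹(-1 : ℝ) < b›
      omega
    subst hb
    exact ⟨a, hr, by simpa using hi, e2⟩
  · simp at hi
    have : (b : ℝ) < 1 := by linarith
    have : (0 : ℝ) < b := by linarith
    have : b < 1 := by exact_mod_cast ‹(b : ℝ) < 1›
    have : 0 < b := by exact_mod_cast ‹(0 : ℝ) < b›
    omega

private lemma neq_im {r t : ℝ} (hr : 0 < r) (h : r * |t| < 1 / 4) :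
    0 < 1 / 4 + r * t ∧ 1 / 4 + r * t < 1 / 2 := by
  have : |r * t| < 1 / 4 := by rwa [abs_mul, abs_of_pos hr]
  obtain ⟨h1, h2⟩ := abs_lt.1 this
  constructor <;> linarith

private lemma neq_sgb (σ : Bool) : sgb σ * sgb σ = 1 := by cases σ <;> simp [sgb]

private lemma neq_sqrt (m : ℂ) : 0 < √(1 + normSq m) :=
  Real.sqrt_pos.2 (by have := normSq_nonneg m; positivity)

private lemma neq_rt {ω : ℂ} (h : ω ≠ 0) : rt ω ≠ 0 := fun h' => h (by
  rw [← rt_sq ω, h']; simp)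

private lemma neq_box0 : box 0 := box_of_norm (by norm_num)

private lemma neq_mul_domK (hp : p ∈ domK) (θ : ℝ) : (p.1, ee θ * p.2) ∈ domK :=
  hp.imp (mul_ne_zero (ee_ne_zero θ)) id

lemma Sg_eq {r : ℝ} (hr : 0 < r) (c : ℝ) (s : S2) :
    Sg (r * ee c, s) = kap (⟨c, 1 / 4 + r * s.1.1⟩, r * ee (-c) * s.1.2) := by
  obtain ⟨n, hn⟩ := exists_ang hr c
  have h0 : (r : ℂ) * ee c ≠ 0 := mul_ne_zero (ofReal_ne_zero.2 hr.ne') (ee_ne_zero c)
  rw [Sg, if_neg h0]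
  refine kap_congr ⟨1, -n, 0, .inl rfl, ?_, ?_⟩
  · refine Complex.ext ?_ ?_
    · simp [hn]
    · simp only [neq_norm hr c]
      simp
  · simp [ee_neg]

lemma Sg_zero (s : S2) : Sg (0, s) = .s s := by simp [Sg]

lemma Sg_domK {r : ℝ} (hr : 0 < r) (c : ℝ) {s : S2} (h : r * |s.1.1| < 1 / 4) :
    ((⟨c, 1 / 4 + r * s.1.1⟩, r * ee (-c) * s.1.2) : CC) ∈ domK := by
  by_cases hw : s.1.2 = 0
  · obtain ⟨h1, h2⟩ := neq_im hr h
    have h3 : s.1.1 ≠ 0 := fun h' => by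
      have := s.2
      rw [hw, h'] at this
      norm_num at this
    refine .inr ⟨fun a b e => ?_, fun b e => ?_⟩
    · have hi := congrArg Complex.im e
      simp at hi
      have : (b : ℝ) < 1 := by linarith
      have : (0 : ℝ) < b := by linarith
      have : b < 1 := by exact_mod_cast ‹(b : ℝ) < 1›
      have : 0 < b := by exact_mod_cast ‹(0 : ℝ) < b›
      omega
    · dsimp only at e
      have : (b : ℝ) < 1 := by linarith
      have : (-1 : ℝ) < b := by linarith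
      have : b < 1 := by exact_mod_cast ‹(b : ℝ) < 1›
      have : -1 < b := by exact_mod_cast ‹(-1 : ℝ) < b›
      obtain rfl : b = 0 := by omega
      exact mul_ne_zero hr.ne' h3 (by push_cast at e; linarith)
  · exact .inl (mul_ne_zero (mul_ne_zero (ofReal_ne_zero.2 hr.ne') (ee_ne_zero _)) hw)

/-- Every point of the strip `0 < z < 1 / 2` lies in the surgered piece. -/
lemma exists_Sg (hp : p ∈ domK) (h0 : 0 < p.1.im) (h1 : p.1.im < 1 / 2) : ∃ r > 0, ∃ s : S2,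
    r * |s.1.1| < 1 / 4 ∧ p = (⟨p.1.re, 1 / 4 + r * s.1.1⟩, r * ee (-p.1.re) * s.1.2) := by
  have hpos : 0 < (p.1.im - 1 / 4) ^ 2 + normSq p.2 := by
    rcases hp with h | h
    · have := normSq_pos.2 h
      positivity
    · have h2 : p.1.im - 1 / 4 ≠ 0 := fun e => h.2 0 (by push_cast; linarith)
      have := normSq_nonneg p.2
      positivity
  obtain ⟨r, hr, e⟩ : ∃ r : ℝ, 0 < r ∧ r ^ 2 = (p.1.im - 1 / 4) ^ 2 + normSq p.2 :=
    ⟨_, Real.sqrt_pos.2 hpos, Real.sq_sqrt hpos.le⟩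
  have hr' : (r : ℂ) ≠ 0 := ofReal_ne_zero.2 hr.ne'
  refine ⟨r, hr, ⟨((p.1.im - 1 / 4) / r, ee p.1.re * p.2 / r), ?_⟩, ?_, ?_⟩
  · simp only [map_div₀, map_mul, normSq_ee, normSq_ofReal]
    field_simp
    linarith
  · dsimp only
    rw [abs_div, abs_of_pos hr, mul_div_cancel₀ _ hr.ne', abs_lt]
    constructor <;> linarith
  · refine Prod.ext (Complex.ext rfl ?_) ?_
    · dsimp only
      field_simp
      ring
    · dsimp only
      have := ee_mul_neg p.1.re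
      field_simp
      linear_combination (-p.2) * this

lemma Sg_injOn : InjOn Sg domS := by
  rintro ⟨x, s⟩ h ⟨x', s'⟩ h' e
  simp only [domS, mem_ofPred_eq] at h h'
  by_cases hx : x = 0 <;> by_cases hx' : x' = 0
  · subst hx hx'
    rw [Sg_zero, Sg_zero] at e
    rw [N.s.inj e]
  · obtain ⟨r, hr, c, rfl⟩ := neq_polar hx'
    rw [neq_norm hr] at h'
    rw [hx, Sg_zero, Sg_eq hr] at e
    exact absurd e.symm (kap_ne_s (Sg_domK hr c h') _)
  · obtain ⟨r, hr, c, rfl⟩ := neq_polar hx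
    rw [neq_norm hr] at h
    rw [hx', Sg_zero, Sg_eq hr] at e
    exact absurd e (kap_ne_s (Sg_domK hr c h) _)
  · obtain ⟨r, hr, c, rfl⟩ := neq_polar hx
    obtain ⟨r', hr', c', rfl⟩ := neq_polar hx'
    rw [neq_norm hr] at h
    rw [neq_norm hr'] at h'
    rw [Sg_eq hr, Sg_eq hr', kap_eq_iff (Sg_domK hr c h) (Sg_domK hr' c' h')] at e
    obtain ⟨a, e1, e2, e3⟩ := neq_strip e (neq_im hr h).1 (neq_im hr h).2 (neq_im hr' h').1
      (neq_im hr' h').2
    dsimp only at e1 e2 e3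
    have e4 := congrArg normSq e3
    simp only [map_mul, normSq_ee, normSq_ofReal] at e4
    have e5 : r' * s'.1.1 = r * s.1.1 := by linarith
    have e6 : r' ^ 2 = r ^ 2 := by
      have h1 := s.2
      have h2 := s'.2
      calc r' ^ 2 = (r' * s'.1.1) ^ 2 + r' * r' * 1 * normSq s'.1.2 := by
            linear_combination (-r' ^ 2) * h2
        _ = (r * s.1.1) ^ 2 + r * r * 1 * normSq s.1.2 := by rw [e4, e5]
        _ = r ^ 2 := by linear_combination r ^ 2 * h1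
    obtain rfl : r' = r := (pow_left_inj₀ hr'.le hr.le two_ne_zero).1 e6
    have e7 : ee c' = ee c := by rw [e1, ee_add_int]
    rw [ee_neg, ee_neg, e7] at e3
    have e8 := mul_left_cancel₀ (mul_ne_zero (ofReal_ne_zero.2 hr.ne')
      ((map_ne_zero _).2 (ee_ne_zero c))) e3
    exact Prod.ext (by rw [e7]) (Subtype.ext (Prod.ext (mul_left_cancel₀ hr.ne' e5).symm e8.symm))

lemma wabs_Sg (x : ℂ) (s : S2) : wabs (Sg (x, s)) = ‖x‖ * ‖s.1.2‖ := by
  by_cases hx : x = 0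
  · rw [hx, Sg_zero, wabs_s, norm_zero, zero_mul]
  · rw [Sg, if_neg hx, wabs_kap, norm_mul, norm_conj]

lemma exists_st (s : S2) : ∃ σ b, ‖b‖ ≤ 1 ∧ s = st σ b := by
  obtain ⟨σ, h0⟩ : ∃ σ, 0 ≤ sgb σ * s.1.1 := by
    rcases le_total 0 s.1.1 with h | h
    · exact ⟨true, by simpa [sgb] using h⟩
    · exact ⟨false, by simpa [sgb] using h⟩
  obtain ⟨t, ht⟩ : ∃ t, t = sgb σ * s.1.1 := ⟨_, rfl⟩
  have h1 : s.1.1 = sgb σ * t := by rw [ht, ← mul_assoc, neq_sgb, one_mul]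
  rw [← ht] at h0
  have h2 : normSq s.1.2 = (1 - t) * (1 + t) := by
    have h := s.2
    rw [h1] at h
    linear_combination h - t ^ 2 * neq_sgb σ
  have h3 : 0 < 1 + t := by positivity
  have h4 : normSq (s.1.2 / ((1 + t : ℝ) : ℂ)) = (1 - t) / (1 + t) := by
    rw [map_div₀, normSq_ofReal, h2]
    field_simp
  refine ⟨σ, s.1.2 / ((1 + t : ℝ) : ℂ), ?_, Subtype.ext (Prod.ext ?_ ?_)⟩
  · rw [← sq_le_one_iff₀ (norm_nonneg _), ← normSq_eq_norm_sq, h4, div_le_one h3]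
    linarith
  · simp only [st, h4, h1]
    congr 1
    field_simp
    ring
  · simp only [st, h4]
    rw [show 2 / (1 + (1 - t) / (1 + t)) = 1 + t by field_simp; ring,
      mul_div_cancel₀ _ (ofReal_ne_zero.2 h3.ne')]

lemma st_inj (σ : Bool) : Function.Injective (st σ) := fun b b' e => by
  have e1 := congrArg (fun s : S2 => sgb σ * s.1.1) e
  have e2 := congrArg (fun s : S2 => s.1.2) e
  simp only [st, ← mul_assoc, neq_sgb, one_mul] at e1 e2
  have h : 0 < 1 + normSq b := by have := normSq_nonneg b; positivity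
  have h' : 0 < 1 + normSq b' := by have := normSq_nonneg b'; positivity
  rw [div_eq_div_iff h.ne' h'.ne'] at e1
  have e3 : normSq b' = normSq b := by linarith
  rw [e3] at e2
  exact mul_left_cancel₀ (ofReal_ne_zero.2 (by positivity)) e2

lemma st_eq_iff {b b' : ℂ} : st true b = st false b' ↔ b ≠ 0 ∧ b' = (conj b)⁻¹ := by
  have h : 0 < 1 + normSq b := by have := normSq_nonneg b; positivity
  have key : b ≠ 0 → st true b = st false (conj b)⁻¹ := fun hb => by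
    have h1 : normSq b ≠ 0 := (normSq_pos.2 hb).ne'
    have h2 : normSq b + 1 ≠ 0 := by linarith
    refine Subtype.ext (Prod.ext ?_ ?_)
    · simp only [st, sgb, map_inv₀, normSq_conj]
      simp only [if_true, Bool.false_eq_true, if_false]
      field_simp
      ring
    · simp only [st, map_inv₀, normSq_conj]
      rw [show (2 / (1 + (normSq b)⁻¹) : ℝ) = 2 / (1 + normSq b) * normSq b by
        field_simp; ring, ofReal_mul, ← mul_conj b, mul_assoc,
        mul_inv_cancel_right₀ ((map_ne_zero _).2 hb)]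
  refine ⟨fun e => ?_, fun ⟨hb, e⟩ => e ▸ key hb⟩
  have hb : b ≠ 0 := fun hb => by
    have e1 := congrArg (fun s : S2 => s.1.1) e
    have h' : 0 < 1 + normSq b' := by have := normSq_nonneg b'; positivity
    simp only [st, sgb, hb, map_zero, if_true, Bool.false_eq_true, if_false] at e1
    field_simp at e1
    linarith
  exact ⟨hb, st_inj false (e.symm.trans (key hb))⟩

lemma hs_eq (σ : Bool) {r : ℝ} (hr : 0 < r) (c : ℝ) (m : ℂ) :
    hs σ (r * ee c, m) = kap (⟨c, 1 / 4 + sgb σ * r⟩, r * ee (-c) * m) := by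
  have h := neq_sqrt m
  have h' : ((√(1 + normSq m) : ℝ) : ℂ) ≠ 0 := ofReal_ne_zero.2 h.ne'
  rw [hs, ← mul_assoc, ← ofReal_mul, Sg_eq (mul_pos h hr)]
  congr 1
  refine Prod.ext (Complex.ext rfl ?_) ?_
  · simp only [gn]
    field_simp
  · simp only [gn]
    push_cast
    field_simp

lemma hs_zero (σ : Bool) (m : ℂ) : hs σ (0, m) = .s (gn σ m) := by rw [hs, mul_zero, Sg_zero]

lemma wabs_hs (σ : Bool) (p : CC) : wabs (hs σ p) = ‖p.1‖ * ‖p.2‖ := by
  have h := neq_sqrt p.2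
  rw [hs, wabs_Sg]
  simp only [gn, norm_mul, norm_real, Real.norm_of_nonneg h.le,
    Real.norm_of_nonneg (one_div_pos.2 h).le]
  field_simp

lemma hs_injOn (σ : Bool) : InjOn (hs σ) {p | ‖p.1‖ < 1 / 4} := by
  have key : ∀ p : CC, ‖p.1‖ < 1 / 4 →
      ((((√(1 + normSq p.2) : ℝ) : ℂ) * p.1, gn σ p.2) : ℂ × S2) ∈ domS := fun p hp => by
    have h := neq_sqrt p.2
    have h1 : |sgb σ| = 1 := by cases σ <;> simp [sgb]
    simp only [domS, mem_ofPred_eq, gn, norm_mul, norm_real, Real.norm_of_nonneg h.le, abs_div,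
      h1, abs_of_pos h]
    rwa [show √(1 + normSq p.2) * ‖p.1‖ * (1 / √(1 + normSq p.2)) = ‖p.1‖ by field_simp]
  intro p hp q hq e
  have e0 := Sg_injOn (key p hp) (key q hq) e
  have e1 := congrArg Prod.fst e0
  have e2 := congrArg (fun s : ℂ × S2 => sgb σ * s.2.1.1) e0
  have e3 := congrArg (fun s : ℂ × S2 => s.2.1.2) e0
  simp only [gn, ← mul_div_assoc, neq_sgb] at e1 e2 e3
  have h := neq_sqrt p.2
  have h' := neq_sqrt q.2
  rw [div_eq_div_iff h.ne' h'.ne', one_mul, one_mul] at e2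
  rw [e2] at e1 e3
  exact Prod.ext (mul_left_cancel₀ (ofReal_ne_zero.2 h.ne') e1)
    (mul_left_cancel₀ (ofReal_ne_zero.2 (one_div_pos.2 h).ne') e3)

private lemma neq_Vk {n : N} (h : n ∈ Vk k) : (∃ l, n = .e k l) ∨
    ∃ u w, box (u ^ 2) ∧ (u0 k + u, w) ∈ domK ∧ n = kap (u0 k + u, w) := by
  rcases h with ⟨p, hp, rfl⟩ | ⟨p, hp, rfl⟩
  · by_cases h : p.2 = 0
    · exact .inl ⟨_, if_pos h⟩
    · exact .inr ⟨p.1 * rt p.2, rt p.2, by rw [mul_pow, rt_sq]; exact hp, domK_of_ne (neq_rt h),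
        if_neg h⟩
  · by_cases h : p.2 = 0
    · exact .inl ⟨_, if_pos h⟩
    · have hb : box (rt p.2 ^ 2) := by rw [rt_sq]; exact hp
      exact .inr ⟨rt p.2, p.1 * rt p.2, hb, box_domK hb (neq_rt h) k _, if_neg h⟩

private lemma neq_Ms {n : N} (h : n ∈ Ms) : (∃ v, n = .s v) ∨
    ∃ q ∈ domK, 0 < q.1.im ∧ q.1.im < 1 / 2 ∧ n = kap q := by
  obtain ⟨⟨x, s⟩, h, rfl⟩ := h
  by_cases hx : x = 0
  · exact .inl ⟨s, by rw [hx, Sg_zero]⟩
  · obtain ⟨r, hr, c, rfl⟩ := neq_polar hx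
    simp only [domS, mem_ofPred_eq, neq_norm hr] at h
    exact .inr ⟨_, Sg_domK hr c h, (neq_im hr h).1, (neq_im hr h).2, Sg_eq hr c s⟩

lemma kap_mem_Vk (hp : p ∈ domK) :
    kap p ∈ Vk k ↔ ∃ u w, box (u ^ 2) ∧ KR p (u0 k + u, w) := by
  constructor
  · intro h
    rcases neq_Vk h with ⟨l, e⟩ | ⟨u, w, h1, h2, e⟩
    · exact absurd e (kap_ne_e hp _ _)
    · exact ⟨u, w, h1, (kap_eq_iff hp h2).1 e⟩
  · rintro ⟨u, w, h1, h2⟩
    rw [kap_congr h2]
    by_cases hu : u = 0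
    · subst hu
      have hw : w ≠ 0 := by
        rcases h2.domK hp with h | h
        · exact h
        · refine absurd ?_ (h.1 (if k.1 then 1 else 0) (if k.2 then 1 else 0))
          obtain ⟨a, b⟩ := k
          cases a <;> cases b <;> refine Complex.ext ?_ ?_ <;> simp [u0]
      refine .inl ⟨(0, w ^ 2), ?_, by rw [lam_eq k 0 hw, zero_mul]⟩
      simpa [domL] using neq_box0
    · exact .inr ⟨(w / u, u ^ 2), h1, by rw [mu_eq k _ hu, div_mul_cancel₀ _ hu]⟩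

lemma e_mem_Vk {l : Option ℂ} : N.e k' l ∈ Vk k ↔ k' = k := by
  constructor
  · intro h
    rcases neq_Vk h with ⟨l, e⟩ | ⟨u, w, -, h2, e⟩
    · exact (N.e.inj e).1
    · exact absurd e.symm (kap_ne_e h2 _ _)
  · rintro rfl
    cases l with
    | none => exact .inr ⟨(0, 0), neq_box0, mu_zero _⟩
    | some l => exact .inl ⟨(l, 0), by simpa [domL] using neq_box0, lam_zero _ _⟩

lemma s_not_mem_Vk (v : S2) : N.s v ∉ Vk k := fun h => by
  rcases neq_Vk h with ⟨l, e⟩ | ⟨u, w, -, h2, e⟩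
  · cases e
  · exact kap_ne_s h2 _ e.symm

lemma kap_mem_Ms (hp : p ∈ domK) :
    kap p ∈ Ms ↔ ∃ q, KR p q ∧ 0 < q.1.im ∧ q.1.im < 1 / 2 := by
  constructor
  · intro h
    rcases neq_Ms h with ⟨v, e⟩ | ⟨q, h1, h2, h3, e⟩
    · exact absurd e (kap_ne_s hp _)
    · exact ⟨q, (kap_eq_iff hp h1).1 e, h2, h3⟩
  · rintro ⟨q, h, h0, h1⟩
    obtain ⟨r, hr, s, h2, e⟩ := exists_Sg (h.domK hp) h0 h1
    refine ⟨(r * ee q.1.re, s), ?_, ?_⟩
    · simpa only [domS, mem_ofPred_eq, neq_norm hr] using h2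
    · rw [Sg_eq hr, ← e, kap_congr h]

lemma e_not_mem_Ms (l : Option ℂ) : N.e k l ∉ Ms := fun h => by
  rcases neq_Ms h with ⟨v, e⟩ | ⟨q, h1, -, -, e⟩
  · cases e
  · exact kap_ne_e h1 _ _ e.symm

lemma s_mem_Ms (v : S2) : N.s v ∈ Ms := ⟨(0, v), by simp [domS], Sg_zero v⟩

lemma rot_kap (θ : ℝ) (hp : p ∈ domK) : rot θ (kap p) = kap (p.1, ee θ * p.2) := by
  have h : rot θ (kap p) = kap ((rep (kap p)).1, ee θ * (rep (kap p)).2) := by
    have : kap p = .o (Quotient.mk kS ⟨p, hp⟩) := dif_pos hp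
    rw [this]
    rfl
  obtain ⟨ε, a, b, h0, h1, h2⟩ := rep_kap hp
  rw [h]
  symm
  refine kap_congr ⟨ε, a, b, h0, h1, ?_⟩
  dsimp only
  rw [h2]
  ring

lemma rot_lam (θ : ℝ) (k : Bool × Bool) (p : CC) :
    rot θ (lam k p) = lam k (ee (-θ) * p.1, ee (2 * θ) * p.2) := by
  obtain ⟨l, ω⟩ := p
  by_cases h : ω = 0
  · subst h
    rw [mul_zero, lam_zero, lam_zero]
    rfl
  · obtain ⟨w, hw, rfl⟩ : ∃ w, w ≠ 0 ∧ w ^ 2 = ω := ⟨_, neq_rt h, rt_sq ω⟩
    rw [lam_eq k l hw, rot_kap θ (domK_of_ne hw), show ee (2 * θ) * w ^ 2 = (ee θ * w) ^ 2 by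
      rw [two_mul, ee_add]; ring, lam_eq k _ (mul_ne_zero (ee_ne_zero θ) hw),
      show ee (-θ) * l * (ee θ * w) = l * w by linear_combination l * w * ee_mul_neg θ]

lemma rot_mu (θ : ℝ) (k : Bool × Bool) (hp : p ∈ domM) :
    rot θ (mu k p) = mu k (ee θ * p.1, p.2) := by
  obtain ⟨m, ν⟩ := p
  by_cases h : ν = 0
  · subst h
    by_cases hm : m = 0
    · subst hm
      rw [mul_zero, mu_zero]
      rfl
    · have h1 : (ee θ)⁻¹ = ee (-θ) := inv_eq_of_mul_eq_one_right (ee_mul_neg θ)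
      simp [mu, rot, hm, ee_ne_zero, h1, mul_comm]
  · obtain ⟨v, hv, rfl⟩ : ∃ v, v ≠ 0 ∧ v ^ 2 = ν := ⟨_, neq_rt h, rt_sq ν⟩
    rw [mu_eq k m hv, rot_kap θ (box_domK hp hv k _), mu_eq k _ hv, mul_assoc]

lemma rot_Sg (θ : ℝ) {x : ℂ} {s : S2} (h : (x, s) ∈ domS) :
    rot θ (Sg (x, s)) = Sg (x, rS θ s) := by
  by_cases hx : x = 0
  · rw [hx, Sg_zero, Sg_zero]
    rfl
  · obtain ⟨r, hr, c, rfl⟩ := neq_polar hx
    simp only [domS, mem_ofPred_eq, neq_norm hr] at h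
    rw [Sg_eq hr, Sg_eq hr, rot_kap θ (Sg_domK hr c h), mul_left_comm]
    rfl

lemma rS_st (θ : ℝ) (σ : Bool) (b : ℂ) : rS θ (st σ b) = st σ (ee θ * b) := by
  refine Subtype.ext (Prod.ext ?_ ?_)
  · simp only [rS, st, map_mul, normSq_ee, one_mul]
  · simp only [rS, st, map_mul, normSq_ee, one_mul]
    ring

lemma wabs_rot (θ : ℝ) (n : N) : wabs (rot θ n) = wabs n := by
  rcases n.cases with ⟨p, hp, rfl⟩ | ⟨k, l, rfl⟩ | ⟨v, rfl⟩
  · rw [rot_kap θ hp, wabs_kap, wabs_kap, norm_mul, norm_ee, one_mul]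
  · rfl
  · rfl

lemma rot_add (θ θ' : ℝ) (n : N) : rot (θ + θ') n = rot θ (rot θ' n) := by
  rcases n.cases with ⟨p, hp, rfl⟩ | ⟨k, l, rfl⟩ | ⟨v, rfl⟩
  · rw [rot_kap θ' hp, rot_kap θ (neq_mul_domK hp θ'), rot_kap _ hp, ee_add, mul_assoc]
  · cases l with
    | none => rfl
    | some l => simp only [rot, Option.map_some, neg_add, ee_add, mul_assoc]
  · simp only [rot, rS, ee_add, mul_assoc]

lemma rot_int (m : ℤ) (n : N) : rot m n = n := by
  rcases n.cases with ⟨p, hp, rfl⟩ | ⟨k, l, rfl⟩ | ⟨v, rfl⟩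
  · rw [rot_kap _ hp, ee_int, one_mul]
  · cases l with
    | none => rfl
    | some l => simp only [rot, Option.map_some, ee_neg, ee_int, map_one, one_mul]
  · simp only [rot, rS, ee_int, one_mul]

lemma rfN_kap (hp : p ∈ domK) : rfN (kap p) = kap (conj p.1 + I / 2, p.2) := by
  have h : rfN (kap p) = kap (conj (rep (kap p)).1 + I / 2, (rep (kap p)).2) := by
    have : kap p = .o (Quotient.mk kS ⟨p, hp⟩) := dif_pos hp
    rw [this]
    rfl
  obtain ⟨ε, a, b, h0, h1, h2⟩ := rep_kap hp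
  rw [h]
  symm
  rcases h0 with rfl | rfl
  · refine kap_congr ⟨1, a, -b, .inl rfl, ?_, h2⟩
    rw [h1]
    simp
    ring
  · refine kap_congr ⟨-1, a, 1 - b, .inr rfl, ?_, h2⟩
    rw [h1]
    simp
    ring

lemma rfN_domK (hp : p ∈ domK) : (conj p.1 + I / 2, p.2) ∈ domK := by
  refine hp.imp id fun h => ⟨fun a b e => h.1 a (1 - b) ?_, fun b e => h.2 (-b) ?_⟩
  · have hr := congrArg Complex.re e
    have hi := congrArg Complex.im e
    simp at hr hi
    refine Complex.ext ?_ ?_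
    · simpa using hr
    · simp
      linarith
  · simp at e
    push_cast
    linarith

lemma rfN_Sg {x : ℂ} {s : S2} (h : (x, s) ∈ domS) :
    rfN (Sg (x, s)) = Sg (x, ⟨(-s.1.1, s.1.2), by rw [neg_sq]; exact s.2⟩) := by
  by_cases hx : x = 0
  · rw [hx, Sg_zero, Sg_zero]
    rfl
  · obtain ⟨r, hr, c, rfl⟩ := neq_polar hx
    simp only [domS, mem_ofPred_eq, neq_norm hr] at h
    rw [Sg_eq hr, Sg_eq hr, rfN_kap (Sg_domK hr c h)]
    congr 1
    refine Prod.ext (Complex.ext ?_ ?_) rfl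
    · simp
    · simp
      ring

lemma rfN_rfN (n : N) : rfN (rfN n) = n := by
  rcases n.cases with ⟨p, hp, rfl⟩ | ⟨k, l, rfl⟩ | ⟨v, rfl⟩
  · rw [rfN_kap hp, rfN_kap (rfN_domK hp)]
    congr 1
    refine Prod.ext ?_ rfl
    simp only [map_add, map_div₀, conj_conj, conj_I, map_ofNat]
    ring
  · rfl
  · simp only [rfN, neg_neg]

lemma wabs_rfN (n : N) : wabs (rfN n) = wabs n := by
  rcases n.cases with ⟨p, hp, rfl⟩ | ⟨k, l, rfl⟩ | ⟨v, rfl⟩
  · rw [rfN_kap hp, wabs_kap, wabs_kap]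
  · rfl
  · rfl

end Pool.Agent.Lib.MP_45bb13_gt
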