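import Pool.Agent.Lib.MP_45bb13_gt.NTop
import Pool.Agent.Lib.MP_45bb13_gt.Span

/-! The homotopy types of the pieces of the cap. -/

set_option linter.unusedSectionVars false

namespace Pool.Agent.Lib.MP_45bb13_gt

open Set Filter Topology Complex Pool.Agent.Shared.Sing Pool.Agent.Shared.SingEZ
open scoped ComplexConjugate

variable {r : ℝ} (hr : 0 < r) (k : Bool × Bool) (b : Bool)

lemma npc_re {p q : CC} (h : KR p q) : ∃ a c : ℤ,
    (q.1.re = p.1.re + a ∧ q.1.im = p.1.im + c ∧ q.2 = p.2) ∨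
      (q.1.re = -p.1.re + a ∧ q.1.im = -p.1.im + c ∧ q.2 = -p.2) := by
  obtain ⟨ε, a, c, h0, h1, h2⟩ := h
  refine ⟨a, c, ?_⟩
  rcases h0 with rfl | rfl
  · left; rw [h1, h2]; simp
  · right; rw [h1, h2]; simp

lemma npc_int {a : ℤ} {m : ℤ} (h1 : (m : ℝ) - 1 < a) (h2 : (a : ℝ) < m + 1) : a = m := by
  have h3 : m - 1 < a := by exact_mod_cast h1
  have h4 : a < m + 1 := by exact_mod_cast h2
  omega

lemma npc_noint {a : ℤ} (h1 : (0 : ℝ) < a) (h2 : (a : ℝ) < 1) : False := by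
  have h3 : 0 < a := by exact_mod_cast h1
  have h4 : a < 1 := by exact_mod_cast h2
  omega

/-- The level of the fixed points. -/
noncomputable def npcL (b : Bool) : ℝ := if b then 1 / 2 else 0

lemma npc_u0_im (a b : Bool) : (u0 (a, b)).im = npcL b := rfl

lemma npc_u0_re0 (b : Bool) : (u0 (false, b)).re = 0 := by simp [u0]

lemma npc_u0_re1 (b : Bool) : (u0 (true, b)).re = 1 / 2 := by simp [u0]

lemma npc_mem_Vk {p : CC} (hp : p ∈ domK) {k : Bool × Bool} (h1 : |p.1.re - (u0 k).re| < 1 / 2)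
    (h2 : |p.1.im - (u0 k).im| < 1 / 4) : kap p ∈ Vk k := by
  refine (kap_mem_Vk hp).2 ⟨p.1 - u0 k, p.2, (box_iff _).2 ⟨by simpa using h1, by simpa using h2⟩, ?_⟩
  rw [add_sub_cancel]
  exact KR.refl p

lemma npc_mem_Ak {p : CC} (hp : p ∈ domK) :
    kap p ∈ Ak b ↔ ∃ q, KR p q ∧ |q.1.im - npcL b| < 1 / 4 := by
  constructor
  · rintro (h | h) <;> obtain ⟨u, w, h1, h2⟩ := (kap_mem_Vk hp).1 h <;>
      refine ⟨_, h2, ?_⟩ <;> simpa [npc_u0_im] using ((box_iff u).1 h1).2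
  · rintro ⟨q, h1, h2⟩
    have h3 : KR q (q.1 - (⌊q.1.re⌋ : ℤ), q.2) := ⟨1, -⌊q.1.re⌋, 0, .inl rfl, by simp; ring, by simp⟩
    have h4 := h1.trans h3
    have hq := h4.domK hp
    rw [kap_congr h4]
    have f0 := Int.floor_le q.1.re
    have f1 := Int.lt_floor_add_one q.1.re
    rcases f0.eq_or_lt with e | e
    · refine Or.inl (npc_mem_Vk hq ?_ ?_)
      · simp [npc_u0_re0, e]
      · simpa [npc_u0_im] using h2
    · refine Or.inr (npc_mem_Vk hq ?_ ?_)
      · simp only [npc_u0_re1, sub_re, intCast_re, abs_lt]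
        constructor <;> linarith
      · simpa [npc_u0_im] using h2

lemma npc_e_mem_Ak {k : Bool × Bool} {l : Option ℂ} : N.e k l ∈ Ak b ↔ k.2 = b := by
  obtain ⟨k1, k2⟩ := k
  simp only [Ak, mem_union, e_mem_Vk]
  cases k1 <;> simp

lemma npc_s_not_mem_Ak (v : S2) : N.s v ∉ Ak b := fun h =>
  h.elim (s_not_mem_Vk v) (s_not_mem_Vk v)

lemma N_cover : Ak false ∪ Ms ∪ Ak true = univ := by
  refine eq_univ_of_forall fun n => ?_
  rcases n.cases with ⟨p, hp, rfl⟩ | ⟨k, l, rfl⟩ | ⟨v, rfl⟩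
  · obtain ⟨q, h, -, h0, h1⟩ := exists_KR p
    rcases lt_trichotomy q.1.im (1 / 4) with e | e | e
    · refine .inl (.inl ((npc_mem_Ak false hp).2 ⟨q, h, ?_⟩))
      simp only [npcL, Bool.false_eq_true, if_false, abs_lt]
      constructor <;> linarith
    · exact .inl (.inr ((kap_mem_Ms hp).2 ⟨q, h, by linarith, by linarith⟩))
    · refine .inr ((npc_mem_Ak true hp).2 ⟨q, h, ?_⟩)
      simp only [npcL, if_true, abs_lt]
      constructor <;> linarith
  · obtain ⟨k1, k2⟩ := k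
    cases k2
    · exact .inl (.inl ((npc_e_mem_Ak false).2 rfl))
    · exact .inr ((npc_e_mem_Ak true).2 rfl)
  · exact .inl (.inr (s_mem_Ms v))

lemma Ak_disj : Disjoint (Ak false) (Ak true) := by
  refine Set.disjoint_left.2 fun n h h' => ?_
  rcases n.cases with ⟨p, hp, rfl⟩ | ⟨k, l, rfl⟩ | ⟨v, rfl⟩
  · obtain ⟨q, e, h1⟩ := (npc_mem_Ak false hp).1 h
    obtain ⟨q', e', h2⟩ := (npc_mem_Ak true hp).1 h'
    simp only [npcL, Bool.false_eq_true, if_false, if_true, abs_lt] at h1 h2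
    obtain ⟨a, c, ⟨-, h3, -⟩ | ⟨-, h3, -⟩⟩ := npc_re (e.symm.trans e') <;>
      exact npc_noint (a := c) (by linarith) (by linarith)
  · have h1 := (npc_e_mem_Ak false).1 h
    have h2 := (npc_e_mem_Ak true).1 h'
    rw [h1] at h2
    exact Bool.false_ne_true h2
  · exact npc_s_not_mem_Ak false v h

lemma Vk_Ek {k k' : Bool × Bool} (h : k ≠ k') : Disjoint (Vk k) (Ek k') := by
  refine Set.disjoint_left.2 ?_
  rintro _ hn ⟨l, rfl⟩
  exact h (e_mem_Vk.1 hn).symm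

lemma npc_domK {p : CC} (h0 : 0 < p.1.im) (h1 : p.1.im < 1 / 2) (h2 : p.1.im ≠ 1 / 4) :
    p ∈ domK := by
  refine Or.inr ⟨fun a c h => ?_, fun c h => ?_⟩
  · have h3 : 2 * p.1.im = c := by simpa using congrArg Complex.im h
    exact npc_noint (a := c) (by linarith) (by linarith)
  · have h3 : c = 0 := npc_int (m := 0) (by push_cast; linarith) (by push_cast; linarith)
    rw [h3] at h
    push_cast at h
    exact h2 (by linarith)

lemma Ak_Ms : Ak b ∩ Ms = hs b '' {p | 0 < ‖p.1‖ ∧ ‖p.1‖ < 1 / 4} := by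
  ext n
  constructor
  · rintro ⟨h, h'⟩
    rcases n.cases with ⟨p, hp, rfl⟩ | ⟨k, l, rfl⟩ | ⟨v, rfl⟩
    · obtain ⟨q', e', h1⟩ := (npc_mem_Ak b hp).1 h
      obtain ⟨q, e, h2, h3⟩ := (kap_mem_Ms hp).1 h'
      have key : ∃ ρ : ℝ, 0 < ρ ∧ ρ < 1 / 4 ∧ q.1.im = 1 / 4 + sgb b * ρ := by
        obtain ⟨a, c, h4⟩ := npc_re (e'.symm.trans e)
        cases b
        · simp only [npcL, Bool.false_eq_true, if_false, abs_lt] at h1
          refine ⟨1 / 4 - q.1.im, ?_, by linarith, by simp [sgb]⟩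
          rcases h4 with ⟨-, h4, -⟩ | ⟨-, h4, -⟩
          · have h5 : c = 0 := npc_int (m := 0) (by push_cast; linarith) (by push_cast; linarith)
            rw [h5] at h4
            push_cast at h4
            linarith
          · have h5 : c = 0 := npc_int (m := 0) (by push_cast; linarith) (by push_cast; linarith)
            rw [h5] at h4
            push_cast at h4
            linarith
        · simp only [npcL, if_true, abs_lt] at h1
          refine ⟨q.1.im - 1 / 4, ?_, by linarith, by simp [sgb]⟩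
          rcases h4 with ⟨-, h4, -⟩ | ⟨-, h4, -⟩
          · have h5 : c = 0 := npc_int (m := 0) (by push_cast; linarith) (by push_cast; linarith)
            rw [h5] at h4
            push_cast at h4
            linarith
          · have h5 : c = 1 := npc_int (m := 1) (by push_cast; linarith) (by push_cast; linarith)
            rw [h5] at h4
            push_cast at h4
            linarith
      obtain ⟨ρ, r0, r1, r2⟩ := key
      have hn : ‖(ρ : ℂ) * ee q.1.re‖ = ρ := by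
        rw [norm_mul, norm_ee, mul_one, norm_real, Real.norm_eq_abs, abs_of_pos r0]
      refine ⟨(ρ * ee q.1.re, q.2 / (ρ * ee (-q.1.re))), ⟨by rwa [hn], by rwa [hn]⟩, ?_⟩
      have hne : (ρ : ℂ) * ee (-q.1.re) ≠ 0 :=
        mul_ne_zero (by exact_mod_cast r0.ne') (ee_ne_zero _)
      rw [hs_eq b r0, kap_congr e, ← r2, mul_div_cancel₀ _ hne]
    · exact absurd h' (e_not_mem_Ms l)
    · exact absurd h (npc_s_not_mem_Ak b v)
  · rintro ⟨⟨x, m⟩, ⟨h0, h1⟩, rfl⟩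
    simp only at h0 h1
    rw [← norm_mul_ee_ang x, hs_eq b h0]
    have hd : ((⟨ang x, 1 / 4 + sgb b * ‖x‖⟩, ‖x‖ * ee (-ang x) * m) : CC) ∈ domK := by
      cases b <;> refine npc_domK ?_ ?_ ?_ <;> simp only [sgb, Bool.false_eq_true, if_false,
        if_true] <;> first | linarith | (intro h; linarith)
    refine ⟨(npc_mem_Ak b hd).2 ⟨_, KR.refl _, ?_⟩, (kap_mem_Ms hd).2 ⟨_, KR.refl _, ?_, ?_⟩⟩ <;>
      cases b <;> simp only [sgb, npcL, Bool.false_eq_true, if_false, if_true, abs_lt] <;>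
      first | linarith | (constructor <;> linarith)

lemma npc_lo {p : CC → N} {D : Set CC} (hlo : LO p D) {U : Set N} (hU : IsOpen U) {V : Set CC}
    (hV : IsOpen V) : LO p (D ∩ p ⁻¹' U ∩ V) :=
  hlo.mono ((hlo.continuousOn.isOpen_inter_preimage hlo.1 hU).inter hV)
    (inter_subset_left.trans inter_subset_left)

lemma npc_ctr {p : CC → N} {D : Set CC} (hlo : LO p D) (hi : InjOn p D) {U : Set N}
    (hU : IsOpen U) (h : Ctr (D ∩ p ⁻¹' U)) : Ctr (p '' D ∩ U) := by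
  rw [← image_inter_preimage]
  exact h.image (hlo.mono (hlo.continuousOn.isOpen_inter_preimage hlo.1 hU) inter_subset_left)
    (hi.mono inter_subset_left)

lemma npc_star {O : Set CC} (h0 : (0 : CC) ∈ O)
    (h : ∀ p ∈ O, ∀ s : ℝ, 0 ≤ s → s ≤ 1 → ((s * p.1, s * p.2) : CC) ∈ O) : Ctr O := by
  refine ctr_star h0 fun p hp s t hs ht hst => ?_
  have h1 := h p hp t ht (by linarith)
  rw [smul_zero, zero_add]
  exact h1

/-- Shrinking the second coordinate. -/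
lemma npc_circ1 {O : Set CC} (h0 : ∀ p ∈ O, p.1 ≠ 0) (h1 : ∀ x : ℂ, x ≠ 0 → ((x, 0) : CC) ∈ O)
    (h : ∀ p ∈ O, ∀ s : ℝ, 0 ≤ s → s ≤ 1 → ((p.1, s * p.2) : CC) ∈ O) :
    Circ O fun x => (x, 0) := by
  refine ⟨by fun_prop, fun x hx => h1 x hx, Prod.fst,
    fun q => (q.1.1, ((1 - q.2 : ℝ) : ℂ) * q.1.2), by fun_prop, fun p hp => h0 p hp, by fun_prop,
    fun q hq => h q.1 hq.1 _ (by linarith [hq.2.2]) (by linarith [hq.2.1]), fun y _ => ?_⟩
  simp

/-- Shrinking the first coordinate. -/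
lemma npc_circ2 {O : Set CC} (h0 : ∀ p ∈ O, p.2 ≠ 0) (h1 : ∀ x : ℂ, x ≠ 0 → ((0, x) : CC) ∈ O)
    (h : ∀ p ∈ O, ∀ s : ℝ, 0 ≤ s → s ≤ 1 → ((s * p.1, p.2) : CC) ∈ O) :
    Circ O fun x => (0, x) := by
  refine ⟨by fun_prop, fun x hx => h1 x hx, Prod.snd,
    fun q => (((1 - q.2 : ℝ) : ℂ) * q.1.1, q.1.2), by fun_prop, fun p hp => h0 p hp, by fun_prop,
    fun q hq => h q.1 hq.1 _ (by linarith [hq.2.2]) (by linarith [hq.2.1]), fun y _ => ?_⟩
  simp

lemma npc_norm_mul {s : ℝ} (h0 : 0 ≤ s) (x : ℂ) : ‖(s : ℂ) * x‖ = s * ‖x‖ := by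
  rw [norm_mul, norm_real, Real.norm_eq_abs, abs_of_nonneg h0]

lemma npc_norm_le {s : ℝ} (h0 : 0 ≤ s) (h1 : s ≤ 1) (x : ℂ) : ‖(s : ℂ) * x‖ ≤ ‖x‖ := by
  rw [npc_norm_mul h0]
  exact mul_le_of_le_one_left (norm_nonneg _) h1

lemma npc_box0 : box 0 := box_of_norm (by simp)

lemma npc_st_inj (σ : Bool) : InjOn (fun p : CC => Sg (p.1, st σ p.2)) (NP.dom (.s σ)) := by
  intro p hp q hq h
  have h1 := Sg_injOn hp hq h
  exact Prod.ext (Prod.mk.inj h1).1 (st_inj σ (Prod.mk.inj h1).2)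

include hr

lemma npc_Nr {n : N} : n ∈ Nr r ↔ wabs n ^ 2 < r ^ 2 :=
  (sq_lt_sq₀ (wabs_nonneg n) hr.le).symm

lemma ctr_lam : Ctr (lam k '' domL ∩ Nr r) := by
  refine npc_ctr (lo_lam k) (lam_injOn k) (isOpen_Nr r) (npc_star ⟨?_, ?_⟩ ?_)
  · simpa [domL] using npc_box0
  · rw [mem_preimage, npc_Nr hr, wabs_lam]
    simpa using pow_pos hr 2
  · rintro p ⟨h1, h2⟩ s s0 s1
    rw [mem_preimage, npc_Nr hr, wabs_lam] at h2
    refine ⟨?_, ?_⟩
    · have h3 := box_smul h1 (pow_nonneg s0 3) (pow_le_one₀ s0 s1)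
      change box (((s : ℂ) * p.1) ^ 2 * (s * p.2))
      convert h3 using 1
      push_cast
      ring
    · rw [mem_preimage, npc_Nr hr, wabs_lam]
      exact (npc_norm_le s0 s1 _).trans_lt h2

lemma ctr_mu : Ctr (mu k '' domM ∩ Nr r) := by
  refine npc_ctr (lo_mu k) (mu_injOn k) (isOpen_Nr r) (npc_star ⟨?_, ?_⟩ ?_)
  · exact npc_box0
  · rw [mem_preimage, npc_Nr hr, wabs_mu]
    simpa using pow_pos hr 2
  · rintro p ⟨h1, h2⟩ s s0 s1
    rw [mem_preimage, npc_Nr hr, wabs_mu] at h2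
    refine ⟨box_smul h1 s0 s1, ?_⟩
    rw [mem_preimage, npc_Nr hr, wabs_mu]
    refine lt_of_le_of_lt ?_ h2
    have h3 := npc_norm_le s0 s1 p.1
    have h4 := npc_norm_le s0 s1 p.2
    gcongr

lemma circ_lam_mu : Circ ((lam k '' domL ∩ Nr r) ∩ (mu k '' domM ∩ Nr r)) (eF k) := by
  have e : (lam k '' domL ∩ Nr r) ∩ (mu k '' domM ∩ Nr r) =
      lam k '' (domL ∩ lam k ⁻¹' Nr r ∩ {p | p.1 ≠ 0}) := by
    ext n
    constructor
    · rintro ⟨⟨⟨p, hp, rfl⟩, h1⟩, ⟨q, hq, h2⟩, -⟩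
      exact ⟨p, ⟨⟨hp, h1⟩, ((lam_eq_mu_iff hp hq).1 h2.symm).1⟩, rfl⟩
    · rintro ⟨p, ⟨⟨hp, h1⟩, h2⟩, rfl⟩
      exact ⟨⟨⟨p, hp, rfl⟩, h1⟩, ⟨(p.1⁻¹, p.1 ^ 2 * p.2), hp, (lam_mu k h2 p.2).symm⟩, h1⟩
  rw [e]
  refine Circ.image (ι := fun x => ((x, 0) : CC)) (npc_circ1 (fun p hp => hp.2) ?_ ?_)
    (npc_lo (lo_lam k) (isOpen_Nr r) (isOpen_ne_fun continuous_fst continuous_const))
    ((lam_injOn k).mono (inter_subset_left.trans inter_subset_left))
  · intro x hx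
    refine ⟨⟨by simpa [domL] using npc_box0, ?_⟩, hx⟩
    rw [mem_preimage, npc_Nr hr, wabs_lam]
    simpa using pow_pos hr 2
  · rintro p ⟨⟨h1, h2⟩, h3⟩ s s0 s1
    rw [mem_preimage, npc_Nr hr, wabs_lam] at h2
    refine ⟨⟨?_, ?_⟩, h3⟩
    · have h3 := box_smul h1 s0 s1
      change box (p.1 ^ 2 * (s * p.2))
      convert h3 using 1
      ring
    · rw [mem_preimage, npc_Nr hr, wabs_lam]
      exact (npc_norm_le s0 s1 _).trans_lt h2

lemma ctr_VV : Ctr ((Vk (false, b) ∩ Nr r) ∩ (Vk (true, b) ∩ Nr r)) := by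
  let O : Set CC := (({u : ℂ | 0 < u.re} ∩ {u : ℂ | u.re < 1 / 2}) ∩
    ({u : ℂ | npcL b - 1 / 4 < u.im} ∩ {u : ℂ | u.im < npcL b + 1 / 4})) ×ˢ Metric.ball 0 r
  have hO : ∀ p : CC, p ∈ O ↔ (0 < p.1.re ∧ p.1.re < 1 / 2) ∧
      (npcL b - 1 / 4 < p.1.im ∧ p.1.im < npcL b + 1 / 4) ∧ ‖p.2‖ < r := fun p => by
    simp only [O, mem_prod, mem_inter_iff, mem_setOf_eq, mem_ball_zero_iff, and_assoc]
  have hopen : IsOpen O := by
    refine IsOpen.prod (IsOpen.inter (IsOpen.inter ?_ ?_) (IsOpen.inter ?_ ?_)) Metric.isOpen_ball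
    exacts [isOpen_lt continuous_const continuous_re, isOpen_lt continuous_re continuous_const,
      isOpen_lt continuous_const continuous_im, isOpen_lt continuous_im continuous_const]
  have hconv : Convex ℝ O :=
    (((convex_halfSpace_re_gt _).inter (convex_halfSpace_re_lt _)).inter
      ((convex_halfSpace_im_gt _).inter (convex_halfSpace_im_lt _))).prod (convex_ball _ _)
  have hsub : O ⊆ domK := fun p hp => by
    obtain ⟨⟨h1, h2⟩, ⟨h3, h4⟩, -⟩ := (hO p).1 hp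
    refine Or.inr ⟨fun a c h => ?_, fun c h => ?_⟩
    · have h5 : 2 * p.1.re = a := by simpa using congrArg Complex.re h
      exact npc_noint (a := a) (by linarith) (by linarith)
    · cases b
      · simp only [npcL, Bool.false_eq_true, if_false] at h3 h4
        exact npc_noint (a := c + 1) (by push_cast; linarith) (by push_cast; linarith)
      · simp only [npcL, if_true] at h3 h4
        exact npc_noint (a := c) (by linarith) (by linarith)
  have hinj : InjOn kap O := fun p hp q hq h => by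
    obtain ⟨⟨h1, h2⟩, ⟨h3, h4⟩, -⟩ := (hO p).1 hp
    obtain ⟨⟨h5, h6⟩, ⟨h7, h8⟩, -⟩ := (hO q).1 hq
    obtain ⟨a, c, ⟨e1, e2, e3⟩ | ⟨e1, -, -⟩⟩ := npc_re ((kap_eq_iff (hsub hp) (hsub hq)).1 h)
    · have ha : a = 0 := npc_int (m := 0) (by push_cast; linarith) (by push_cast; linarith)
      have hc : c = 0 := npc_int (m := 0) (by push_cast; linarith) (by push_cast; linarith)
      rw [ha] at e1
      rw [hc] at e2
      exact Prod.ext (Complex.ext (by simpa using e1.symm) (by simpa using e2.symm)) e3.symm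
    · exact (npc_noint (a := a) (by linarith) (by linarith)).elim
  have e : (Vk (false, b) ∩ Nr r) ∩ (Vk (true, b) ∩ Nr r) = kap '' O := by
    ext n
    constructor
    · rintro ⟨⟨h, hn⟩, h', -⟩
      rcases n.cases with ⟨p, hp, rfl⟩ | ⟨k, l, rfl⟩ | ⟨v, rfl⟩
      · obtain ⟨u, w, h1, h2⟩ := (kap_mem_Vk hp).1 h
        obtain ⟨u', w', h1', h2'⟩ := (kap_mem_Vk hp).1 h'
        have hw : ‖w‖ < r := by
          have h3 : wabs (kap p) < r := hn
          rw [wabs_kap] at h3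
          exact (h2.norm).trans_lt h3
        obtain ⟨b1, b2⟩ := (box_iff u).1 h1
        obtain ⟨b3, -⟩ := (box_iff u').1 h1'
        rw [abs_lt] at b1 b2 b3
        rcases lt_trichotomy u.re 0 with c0 | c0 | c0
        · refine ⟨(u0 (false, b) + -u, -w), (hO _).2 ?_, (kap_congr (h2.trans (KR_neg _ u w))).symm⟩
          simp only [add_re, add_im, neg_re, neg_im, npc_u0_re0, npc_u0_im, norm_neg]
          exact ⟨⟨by linarith, by linarith⟩, ⟨by linarith, by linarith⟩, hw⟩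
        · obtain ⟨a, c, ⟨e1, -, -⟩ | ⟨e1, -, -⟩⟩ := npc_re (h2.symm.trans h2') <;>
            simp only [add_re, npc_u0_re0, npc_u0_re1, c0] at e1 <;>
            exact (npc_noint (a := a) (by linarith) (by linarith)).elim
        · refine ⟨(u0 (false, b) + u, w), (hO _).2 ?_, (kap_congr h2).symm⟩
          simp only [add_re, add_im, npc_u0_re0, npc_u0_im]
          exact ⟨⟨by linarith, by linarith⟩, ⟨by linarith, by linarith⟩, hw⟩
      · have h1 := (e_mem_Vk.1 h).symm.trans (e_mem_Vk.1 h')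
        simp at h1
      · exact absurd h (s_not_mem_Vk v)
    · rintro ⟨p, hp, rfl⟩
      obtain ⟨⟨h1, h2⟩, ⟨h3, h4⟩, h5⟩ := (hO p).1 hp
      have hn : kap p ∈ Nr r := by
        change wabs (kap p) < r
        rwa [wabs_kap]
      refine ⟨⟨npc_mem_Vk (hsub hp) ?_ ?_, hn⟩, npc_mem_Vk (hsub hp) ?_ ?_, hn⟩ <;>
        simp only [npc_u0_re0, npc_u0_re1, npc_u0_im, abs_lt] <;> constructor <;> linarith
  rw [e]
  have h0 : ((⟨1 / 4, npcL b⟩, 0) : CC) ∈ O := (hO _).2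
    ⟨⟨by norm_num, by norm_num⟩, ⟨by simp, by simp⟩, by simpa using hr⟩
  exact (ctr_star h0 (hconv.starConvex h0)).image (lo_kap.mono hopen hsub) hinj

lemma npc_st_zero (σ : Bool) (x : ℂ) : ((0, x) : CC) ∈ NP.dom (.s σ) ∩
    (fun p : CC => Sg (p.1, st σ p.2)) ⁻¹' Nr r := by
  refine ⟨?_, ?_⟩
  · change ‖(0 : ℂ)‖ * _ < _
    simp
  · change wabs (Sg (0, st σ x)) < r
    rw [wabs_Sg]
    simpa using hr

omit hr in
lemma npc_st_smul (σ : Bool) {p : CC} (hp : p ∈ NP.dom (.s σ) ∩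
    (fun p : CC => Sg (p.1, st σ p.2)) ⁻¹' Nr r) {s : ℝ} (s0 : 0 ≤ s) (s1 : s ≤ 1) :
    ((s * p.1, p.2) : CC) ∈ NP.dom (.s σ) ∩ (fun p : CC => Sg (p.1, st σ p.2)) ⁻¹' Nr r := by
  obtain ⟨h1, h2⟩ := hp
  have h3 := npc_norm_le s0 s1 p.1
  refine ⟨?_, ?_⟩
  · change ‖p.1‖ * |(st σ p.2).1.1| < 1 / 4 at h1
    change ‖s * p.1‖ * |(st σ p.2).1.1| < 1 / 4
    exact (mul_le_mul_of_nonneg_right h3 (abs_nonneg _)).trans_lt h1
  · change wabs (Sg (p.1, st σ p.2)) < r at h2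
    change wabs (Sg (s * p.1, st σ p.2)) < r
    rw [wabs_Sg] at h2 ⊢
    exact (mul_le_mul_of_nonneg_right h3 (norm_nonneg _)).trans_lt h2

lemma ctr_st : Ctr ((fun p : CC => Sg (p.1, st b p.2)) '' NP.dom (.s b) ∩ Nr r) := by
  refine npc_ctr (good_N.lo (.s b)) (npc_st_inj b) (isOpen_Nr r) ⟨0, npc_st_zero hr b 0,
    fun q => (((max (1 - 2 * q.2) 0 : ℝ) : ℂ) * q.1.1, ((min (2 - 2 * q.2) 1 : ℝ) : ℂ) * q.1.2),
    by fun_prop, fun q hq => ?_, fun y _ => ⟨by simp, ?_⟩⟩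
  · rcases le_total q.2 (1 / 2) with h | h
    · have e : min (2 - 2 * q.2) 1 = 1 := min_eq_right (by linarith)
      simp only [e, ofReal_one, one_mul]
      exact npc_st_smul b hq.1 (le_max_right _ _) (max_le (by linarith [hq.2.1]) zero_le_one)
    · have e : max (1 - 2 * q.2) 0 = 0 := max_eq_right (by linarith)
      simp only [e, ofReal_zero, zero_mul]
      exact npc_st_zero hr b _
  · have e : max (1 - 2 * (1 : ℝ)) 0 = 0 := max_eq_right (by norm_num)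
    simp only [e]
    norm_num

lemma circ_st : Circ (((fun p : CC => Sg (p.1, st true p.2)) '' NP.dom (.s true) ∩ Nr r) ∩
    ((fun p : CC => Sg (p.1, st false p.2)) '' NP.dom (.s false) ∩ Nr r)) (sF true) := by
  have e : ((fun p : CC => Sg (p.1, st true p.2)) '' NP.dom (.s true) ∩ Nr r) ∩
      ((fun p : CC => Sg (p.1, st false p.2)) '' NP.dom (.s false) ∩ Nr r) =
      (fun p : CC => Sg (p.1, st true p.2)) '' (NP.dom (.s true) ∩
        (fun p : CC => Sg (p.1, st true p.2)) ⁻¹' Nr r ∩ {p | p.2 ≠ 0}) := by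
    ext n
    constructor
    · rintro ⟨⟨⟨p, hp, rfl⟩, h1⟩, ⟨q, hq, h2⟩, -⟩
      have h3 := Sg_injOn hq hp h2
      exact ⟨p, ⟨⟨hp, h1⟩, (st_eq_iff.1 (congrArg Prod.snd h3).symm).1⟩, rfl⟩
    · rintro ⟨p, ⟨⟨hp, h1⟩, h2⟩, rfl⟩
      have h3 : st true p.2 = st false (conj p.2)⁻¹ := st_eq_iff.2 ⟨h2, rfl⟩
      refine ⟨⟨⟨p, hp, rfl⟩, h1⟩, ⟨(p.1, (conj p.2)⁻¹), ?_, ?_⟩, h1⟩
      · change (p.1, st false (conj p.2)⁻¹) ∈ domS
        rw [← h3]
        exact hp
      · simp only [h3]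
  rw [e]
  exact Circ.image (ι := fun x => ((0, x) : CC)) (npc_circ2 (fun p hp => hp.2)
    (fun x hx => ⟨npc_st_zero hr true x, hx⟩)
    fun p hp s s0 s1 => ⟨npc_st_smul true hp.1 s0 s1, hp.2⟩)
    (npc_lo (good_N.lo (.s true)) (isOpen_Nr r) (isOpen_ne_fun continuous_snd continuous_const))
    ((npc_st_inj true).mono (inter_subset_left.trans inter_subset_left))

lemma circ_Ak_Ms : Circ ((Ak b ∩ Nr r) ∩ (Ms ∩ Nr r)) fun x => cF b (x / ‖x‖) := by
  let O : Set CC := {p : CC | ‖p.1‖ < 1 / 4} ∩ hs b ⁻¹' Nr r ∩ {p | p.1 ≠ 0}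
  have hO : ∀ p : CC, p ∈ O ↔ (‖p.1‖ < 1 / 4 ∧ ‖p.1‖ * ‖p.2‖ < r) ∧ p.1 ≠ 0 := fun p => by
    simp only [O, mem_inter_iff, mem_setOf_eq, mem_preimage, Nr, wabs_hs]
  have e : (Ak b ∩ Nr r) ∩ (Ms ∩ Nr r) = hs b '' O := by
    rw [inter_inter_inter_comm, inter_self, Ak_Ms, ← image_inter_preimage]
    congr 1
    ext p
    simp only [O, mem_inter_iff, mem_setOf_eq, norm_pos_iff]
    tauto
  rw [e]
  refine Circ.image (ι := fun x => ((x / ‖x‖ / 8, 0) : CC)) ?_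
    (npc_lo (lo_hs b) (isOpen_Nr r) (isOpen_ne_fun continuous_fst continuous_const))
    ((hs_injOn b).mono (inter_subset_left.trans inter_subset_left))
  have hn : ∀ (x : ℂ) (c : ℝ), x ≠ 0 → 0 ≤ c → c ≤ 1 →
      ‖((1 - c + c / (8 * ‖x‖) : ℝ) : ℂ) * x‖ = (1 - c) * ‖x‖ + c / 8 := fun x c hx c0 c1 => by
    have h0 := norm_pos_iff.2 hx
    have h1 : 0 ≤ 1 - c := by linarith
    rw [npc_norm_mul (by positivity)]
    field_simp
  refine ⟨?_, fun x hx => (hO _).2 ?_, Prod.fst, fun q =>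
    (((1 - max (2 * q.2 - 1) 0 + max (2 * q.2 - 1) 0 / (8 * ‖q.1.1‖) : ℝ) : ℂ) * q.1.1,
      ((max (1 - 2 * q.2) 0 : ℝ) : ℂ) * q.1.2), by fun_prop, fun p hp => hp.2, ?_,
    fun q hq => (hO _).2 ?_, fun y hy => ⟨by simp, ?_⟩⟩
  · refine ContinuousOn.prodMk (ContinuousOn.div_const (continuousOn_id.div (by fun_prop) ?_) _)
      continuousOn_const
    intro x hx
    exact_mod_cast norm_ne_zero_iff.2 hx
  · have h0 : ‖x‖ ≠ 0 := norm_ne_zero_iff.2 hx
    have h1 : ‖x / ‖x‖ / 8‖ = 1 / 8 := by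
      rw [norm_div, norm_div, norm_real, norm_norm, div_self h0]
      simp
    refine ⟨⟨by rw [h1]; norm_num, by simpa using hr⟩, fun h => ?_⟩
    simp only at h
    rw [h, norm_zero] at h1
    norm_num at h1
  · refine ContinuousOn.prodMk (ContinuousOn.mul (continuous_ofReal.comp_continuousOn
      (ContinuousOn.add (by fun_prop) (ContinuousOn.div (by fun_prop) (by fun_prop) ?_)))
      (by fun_prop)) (by fun_prop)
    intro q hq
    exact mul_ne_zero (by norm_num) (norm_ne_zero_iff.2 hq.1.2)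
  · obtain ⟨⟨h1, h2⟩, h3⟩ := (hO _).1 hq.1
    have h0 := norm_pos_iff.2 h3
    have c0 : 0 ≤ max (2 * q.2 - 1) 0 := le_max_right _ _
    have c1 : max (2 * q.2 - 1) 0 ≤ 1 := max_le (by linarith [hq.2.2]) zero_le_one
    have h4 := hn q.1.1 _ h3 c0 c1
    simp only
    refine ⟨⟨?_, ?_⟩, fun h => ?_⟩
    · rw [h4]
      nlinarith
    · rcases le_total q.2 (1 / 2) with h | h
      · have e : max (2 * q.2 - 1) 0 = 0 := max_eq_right (by linarith)
        rw [h4, e]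
        have h5 := npc_norm_le (le_max_right (1 - 2 * q.2) 0)
          (max_le (by linarith [hq.2.1]) zero_le_one) q.1.2
        refine lt_of_le_of_lt ?_ h2
        rw [sub_zero, one_mul, zero_div, add_zero]
        exact mul_le_mul_of_nonneg_left h5 h0.le
      · have e : max (1 - 2 * q.2) 0 = 0 := max_eq_right (by linarith)
        rw [e]
        simpa using hr
    · rw [h, norm_zero] at h4
      rcases c0.eq_or_lt with e | e
      · rw [← e] at h4
        linarith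
      · nlinarith
  · have h0 : (‖y.1‖ : ℂ) ≠ 0 := by exact_mod_cast norm_ne_zero_iff.2 hy.2
    have e1 : max (1 - 2 * (1 : ℝ)) 0 = 0 := max_eq_right (by norm_num)
    have e2 : max (2 * (1 : ℝ) - 1) 0 = 1 := by norm_num
    simp only [e1, e2]
    refine Prod.ext ?_ (by simp)
    push_cast
    field_simp
    ring

end Pool.Agent.Lib.MP_45bb13_gt
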