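import Pool.Agent.Lib.MP_45bb13_gt.NHalfA
import Pool.Agent.Lib.MP_45bb13_gt.NPc
import Pool.Agent.Lib.MP_45bb13_gt.Std

/-! The two halves of the fixed sphere. -/

set_option linter.unusedSectionVars false

namespace Pool.Agent.Lib.MP_45bb13_gt

open Set Filter Topology Complex
open scoped ComplexConjugate

/-- The factor `exp (± π / 4)`. -/
noncomputable def nhalfE (b : Bool) : ℝ := Real.exp (sgb b * (Real.pi / 4))

/-- The section over the polar disc. -/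
noncomputable def nhalfM (b : Bool) (m : ℝ) (x : ℂ) : ℂ :=
  -(4 * m * I) * (x ^ 2 * nhalfE b - ((nhalfE b)⁻¹ : ℝ))

lemma nhalf_exp_le {t : ℝ} (h : |t| ≤ Real.pi / 4) : Real.exp t ≤ 3 :=
  (Real.exp_le_exp.2 (by linarith [le_abs_self t, Real.pi_le_four])).trans
    (Real.exp_one_lt_d9.le.trans (by norm_num))

lemma nhalf_abs (b : Bool) : |sgb b * (Real.pi / 4)| ≤ Real.pi / 4 := by
  cases b <;> simp [sgb, abs_of_pos (show 0 < Real.pi / 4 by positivity)]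

lemma nhalf_norm_M (b : Bool) {m : ℝ} (hm : 0 ≤ m) {x : ℂ} (hx : x ∈ D1) :
    ‖nhalfM b m x‖ ≤ 24 * m := by
  have h0 : 0 < nhalfE b := Real.exp_pos _
  have h1 : nhalfE b ≤ 3 := nhalf_exp_le (nhalf_abs b)
  have h2 : (nhalfE b)⁻¹ ≤ 3 := by
    rw [nhalfE, ← Real.exp_neg]
    exact nhalf_exp_le (by rw [abs_neg]; exact nhalf_abs b)
  have h3 : ‖x‖ ^ 2 ≤ 1 := pow_le_one₀ (norm_nonneg _) (mem_closedBall_zero_iff.1 hx)
  have h4 := norm_sub_le (x ^ 2 * nhalfE b) ((nhalfE b)⁻¹ : ℝ)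
  rw [norm_mul, norm_pow, norm_real, norm_real, Real.norm_of_nonneg h0.le,
    Real.norm_of_nonneg (inv_pos.2 h0).le] at h4
  have h5 : ‖-(4 * m * I)‖ = 4 * m := by simp [abs_of_nonneg hm]
  rw [nhalfM, norm_mul, h5]
  nlinarith [mul_le_mul_of_nonneg_right h3 h0.le]

lemma nhalf_M_zero {b : Bool} {m : ℝ} (hm : m ≠ 0) {x : ℂ} (h : nhalfM b m x = 0) :
    x = ((nhalfE b)⁻¹ : ℝ) ∨ x = -((nhalfE b)⁻¹ : ℝ) := by
  have h0 : (nhalfE b : ℂ) ≠ 0 := ofReal_ne_zero.2 (Real.exp_pos _).ne'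
  have h1 : -(4 * m * I) ≠ 0 := by simp [hm]
  have h2 := (mul_eq_zero.1 h).resolve_left h1
  refine sq_eq_sq_iff_eq_or_eq_neg.1 ?_
  push_cast at h2 ⊢
  rw [(eq_mul_inv_iff_mul_eq₀ h0).2 (sub_eq_zero.1 h2), sq]

lemma nhalf_norm_zero {b : Bool} {m : ℝ} (hm : m ≠ 0) {x : ℂ} (h : nhalfM b m x = 0) :
    ‖x‖ = (nhalfE b)⁻¹ := by
  have h0 : 0 < nhalfE b := Real.exp_pos _
  rcases nhalf_M_zero hm h with rfl | rfl <;> simp [abs_of_pos h0]

lemma nhalf_true : (nhalfE true)⁻¹ < 1 :=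
  inv_lt_one_of_one_lt₀ (Real.one_lt_exp_iff.2 (by simp [sgb, Real.pi_pos]))

lemma nhalf_false : 1 < (nhalfE false)⁻¹ := by
  rw [nhalfE, ← Real.exp_neg]
  exact Real.one_lt_exp_iff.2 (by simp [sgb, Real.pi_pos])

lemma nhalf_dom {x : ℂ} (hx : x ∈ D1) (m : ℂ) : (x / 8, m) ∈ {p : CC | ‖p.1‖ < 1 / 4} := by
  have := mem_closedBall_zero_iff.1 hx
  simp only [mem_ofPred_eq, norm_div, Complex.norm_ofNat]
  linarith

lemma nhalf_hs_ne_e {b : Bool} {x : ℂ} (hx : x ∈ D1) (m : ℂ) (k : Bool × Bool) (c : ℂ) :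
    hs b (x / 8, m) ≠ mu k (c, 0) := fun e => by
  have h : 0 < √(1 + normSq m) := Real.sqrt_pos.2 (by linarith [normSq_nonneg m])
  have h1 : hs b (x / 8, m) ∈ Ms := ⟨_, by
    have h2 : |sgb b| = 1 := by cases b <;> simp [sgb]
    have h3 := nhalf_dom hx m
    simp only [domS, gn, mem_ofPred_eq, norm_mul, norm_real, Real.norm_eq_abs, abs_div, h2] at h3 ⊢
    rwa [mul_comm, ← mul_assoc, one_div_mul_cancel (abs_pos.2 h.ne').ne', one_mul], rfl⟩
  rw [e, mu, if_pos rfl] at h1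
  exact e_not_mem_Ms _ h1

lemma nhalf_kap_ne {b : Bool} {u w : ℂ} (hu : |u.im| ≤ 1 / 8) (hp : (u0 (false, b) + u, w) ∈ domK)
    {x : ℂ} (hx : ‖x‖ < 1) (m : ℂ) : kap (u0 (false, b) + u, w) ≠ hs b (x / 8, m) := fun e => by
  by_cases h0 : x = 0
  · rw [h0, zero_div, hs_zero] at e
    exact kap_ne_s hp _ e
  have h1 : 0 < ‖x‖ / 8 := by positivity
  have h2 : x / 8 = (‖x‖ / 8 : ℝ) * ee (ang x) := by
    conv_lhs => rw [← norm_mul_ee_ang x]
    push_cast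
    ring
  rw [h2, hs_eq b h1] at e
  obtain ⟨ε, a, c, hε, h3, -⟩ := (kap_eq_iff hp (by_contra fun h =>
    kap_ne_e hp _ _ (e.trans (dif_neg h)))).1 e
  have h4 := congrArg Complex.im h3
  rw [abs_le] at hu
  have h5 : ∀ n : ℤ, ¬((0 : ℝ) < n ∧ (n : ℝ) < 1) := fun n h => by
    have := Int.cast_pos.1 h.1
    have : n < 1 := by exact_mod_cast h.2
    omega
  rcases hε with rfl | rfl <;> cases b <;> simp [u0, sgb] at h4
  · exact h5 (2 * c) (by push_cast; constructor <;> linarith)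
  · exact h5 (2 * c + 1) (by push_cast; constructor <;> linarith)
  · exact h5 (2 * c) (by push_cast; constructor <;> linarith)
  · exact h5 (2 * c - 1) (by push_cast; constructor <;> linarith)

lemma nhalf_mem_Ak {b : Bool} {u w : ℂ} (hu : |u.im| ≤ 1 / 8)
    (hp : (u0 (false, b) + u, w) ∈ domK) : kap (u0 (false, b) + u, w) ∈ Ak b := by
  have h1 := Int.floor_le u.re
  have h2 := Int.lt_floor_add_one u.re
  rcases h1.eq_or_lt with h | h
  · refine .inl ((kap_mem_Vk hp).2 ⟨u - ⌊u.re⌋, w, (box_iff _).2 ⟨?_, ?_⟩,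
      1, -⌊u.re⌋, 0, .inl rfl, ?_, by simp⟩)
    · simp [h]
    · simpa using hu.trans_lt (by norm_num)
    · simp [sub_eq_add_neg, add_assoc]
  · refine .inr ((kap_mem_Vk hp).2 ⟨u - ⌊u.re⌋ - (1 / 2 : ℝ), w, (box_iff _).2 ⟨?_, ?_⟩,
      1, -⌊u.re⌋, 0, .inl rfl, ?_, by simp⟩)
    · simp only [sub_re, intCast_re, ofReal_re, abs_lt]
      constructor <;> linarith
    · simpa using hu.trans_lt (by norm_num)
    · apply Complex.ext <;> simp [u0, -Int.self_sub_floor]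
      ring

lemma nhalf_norm_sin {u : ℂ} (hu : |u.im| ≤ 1 / 8) : ‖Complex.sin (2 * Real.pi * u)‖ ≤ 3 := by
  have h : |2 * Real.pi * u.im| ≤ Real.pi / 4 := by
    rw [abs_mul, abs_of_pos Real.two_pi_pos]
    nlinarith [Real.pi_pos]
  have h1 := nhalf_exp_le h
  have h2 := nhalf_exp_le ((abs_neg _).trans_le h)
  have h3 := norm_sub_le (exp (-(2 * Real.pi * u) * I)) (exp (2 * Real.pi * u * I))
  rw [Complex.norm_exp, Complex.norm_exp] at h3
  rw [Complex.sin, norm_div, norm_mul, norm_I, Complex.norm_ofNat, neg_mul]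
  simp at h3
  linarith

lemma nhalf_bd (b : Bool) (m t : ℝ) : hs b (ee t / 8, nhalfM b m (ee t)) =
    kap (u0 (false, b) + ⟨t, -(sgb b / 8)⟩,
      m * Complex.sin (2 * Real.pi * (⟨t, -(sgb b / 8)⟩ : ℂ))) := by
  have h0 : (nhalfE b : ℂ) ≠ 0 := ofReal_ne_zero.2 (Real.exp_pos _).ne'
  have h1 : exp (2 * Real.pi * (⟨t, -(sgb b / 8)⟩ : ℂ) * I) = ee t * nhalfE b := by
    rw [ee, nhalfE, ofReal_exp, ← Complex.exp_add]
    congr 1
    apply Complex.ext <;> simp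
    ring
  have h2 : ee (-t) = (ee t)⁻¹ := eq_inv_of_mul_eq_one_right (ee_mul_neg t)
  have h3 := ee_ne_zero t
  rw [show ee t / 8 = (1 / 8 : ℝ) * ee t by push_cast; ring, hs_eq b (by norm_num), Complex.sin,
    neg_mul, Complex.exp_neg, h1, h2, nhalfM]
  congr 2
  · apply Complex.ext <;> cases b <;> simp [u0, sgb] <;> norm_num
  · push_cast
    field_simp
    ring

lemma nhalf_meets (b : Bool) {m : ℝ} (hm : m ≠ 0) :
    ∃ a, Even a ∧ Meets (cF b) (fun x => hs b (x / 8, nhalfM b m x)) a := by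
  have h1 : ∀ x ∈ D1, ∀ x' ∈ D1, cF b x = hs b (x' / 8, nhalfM b m x') →
      x = x' ∧ nhalfM b m x' = 0 := fun x hx x' hx' e => by
    have h := Prod.ext_iff.1 (hs_injOn b (nhalf_dom hx _) (nhalf_dom hx' _) e)
    exact ⟨by simpa using h.1, h.2.symm⟩
  cases b
  · refine ⟨0, Even.zero, meets_zero fun x hx x' hx' e => ?_⟩
    have := nhalf_norm_zero hm (h1 x hx x' hx' e).2
    linarith [mem_closedBall_zero_iff.1 hx', nhalf_false]
  have h0 : 0 < nhalfE true := Real.exp_pos _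
  have h2 : ∀ a : ℂ, a ^ 2 = ((nhalfE true)⁻¹ : ℝ) ^ 2 → ‖a‖ < 1 ∧ ‖a‖ < 1 ∧
      LocStd (cF true) (fun x => hs true (x / 8, nhalfM true m x)) a a := fun a ha => by
    have h3 : nhalfM true m a = 0 := by
      have := ofReal_ne_zero.2 h0.ne'
      rw [nhalfM, ha]
      push_cast
      field_simp
      ring
    have h4 := nhalf_norm_zero hm h3
    have h5 := h4.trans_lt nhalf_true
    have h6 : a ≠ 0 := norm_pos_iff.1 (h4 ▸ inv_pos.2 h0)
    refine ⟨h5, h5, locStd_graph (χ := fun p => hs true (p.1 / 8, p.2)) (u := fun _ => 0) ?_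
      (.of_forall fun _ => continuousAt_const) h3 (le_of_deriv
        (f' := -(4 * m * I) * (2 * a * nhalfE true)) ?_ (by simp [hm, h6, h0.ne']))⟩
    · refine (Lemb.comp (g := hs true) ((lo_hs true).le (hs_injOn true) ?_)
        ((le_lin (c := 8⁻¹) (by norm_num) 0 a).prod (le_homeo (Homeomorph.refl ℂ) 0))).congr
        (.of_forall fun p => by simp [Prod.map, div_eq_inv_mul])
      simpa [div_eq_inv_mul] using nhalf_dom (mem_closedBall_zero_iff.2 h5.le) 0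
    · simpa [nhalfM] using (((hasStrictDerivAt_pow 2 a).mul_const (nhalfE true : ℂ)).fun_sub
        (hasStrictDerivAt_const a (ofReal (nhalfE true)⁻¹))).const_mul (-(4 * m * I))
  classical
  refine ⟨2, even_two, {(ofReal (nhalfE true)⁻¹, ofReal (nhalfE true)⁻¹),
    (-ofReal (nhalfE true)⁻¹, -ofReal (nhalfE true)⁻¹)}, Finset.card_pair ?_,
    fun x hx x' hx' e => ?_, ?_⟩
  · simp [self_eq_neg, h0.ne']
  · obtain ⟨rfl, h⟩ := h1 x hx x' hx' e
    rcases nhalf_M_zero hm h with rfl | rfl <;> simp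
  · simp only [Finset.mem_insert, Finset.mem_singleton]
    rintro _ (rfl | rfl)
    · exact h2 _ rfl
    · exact h2 _ (neg_sq _)

theorem biEv_c {r : ℝ} (hr : 0 < r) (b : Bool) :
    ∃ g : ℂ → N, MapsTo g D1 (Ak b) ∧ BiEv (Nr r) (cF b) g := by
  obtain ⟨g, hc, hg, hb⟩ := exists_half b
  obtain ⟨η, h0, h1, h2⟩ : ∃ η : ℝ, 0 < η ∧ η ≤ 1 ∧ 3 * η < r :=
    ⟨min 1 (r / 4), by positivity, min_le_left _ _, by linarith [min_le_right 1 (r / 4)]⟩
  have hs0 : ∀ s ∈ Icc (0 : ℝ) 1, 0 ≤ s * η ∧ s * η ≤ η := fun s hs =>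
    ⟨mul_nonneg hs.1 h0.le, mul_le_of_le_one_left h0.le hs.2⟩
  have hmu : ∀ k c, wabs (mu k (c, 0)) = 0 := fun k c => by rw [mu, if_pos rfl, wabs_e]
  have hz : ∀ x ∈ D1, wabs (g 0 x) = 0 := fun x hx => by
    obtain ⟨u, -, ⟨-, -, e⟩ | e | e⟩ := hg 0 x hx <;> simp [e, wabs_kap, hmu]
  have hπ : (2 * Real.pi * η : ℂ) ≠ 0 := by simp [h0.ne']
  obtain ⟨a, ha, hm⟩ := nhalf_meets b h0.ne'
  refine ⟨g 0, fun x hx => ?_, fun s x => hs b (x / 8, nhalfM b (s * η) x), fun s => g (s * η),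
    ⟨(lo_hs b).continuousOn.comp (by unfold nhalfM; fun_prop) fun q hq => nhalf_dom hq.1 _,
      hc.comp (f := fun q : ℂ × ℝ => (q.1, q.2 * η)) (by fun_prop) fun q hq =>
        ⟨hq.1, (hs0 _ hq.2).1, (hs0 _ hq.2).2.trans h1⟩, fun s hs x hx => ?_, fun s hs x hx => ?_,
      fun s _ t => by rw [hb, nhalf_bd]⟩, funext fun x => by simp [nhalfM, cF], by simp,
    a, 0, 0, 0, by simpa using hm, meets_zero fun x hx x' hx' e => ?_,
    meets_zero fun x hx x' hx' e => ?_, meets_zero fun x hx x' hx' e => ?_, ha⟩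
  · have h3 : ((0, 0) : CC) ∈ domM := box_of_norm (by simp)
    obtain ⟨u, hu, ⟨-, hp, e⟩ | e | e⟩ := hg 0 x hx <;> rw [e]
    · simpa using nhalf_mem_Ak hu hp
    · exact .inl (.inr ⟨_, h3, by simp⟩)
    · exact .inr (.inr ⟨_, h3, by simp⟩)
  · have h3 := nhalf_norm_M b (hs0 s hs).1 hx
    have h4 := mem_closedBall_zero_iff.1 hx
    have h5 := hs0 s hs
    simp only [Nr, mem_ofPred_eq, wabs_hs, norm_div, Complex.norm_ofNat]
    nlinarith [norm_nonneg (nhalfM b (s * η) x)]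
  · have h5 := hs0 s hs
    obtain ⟨u, hu, ⟨-, -, e⟩ | e | e⟩ := hg (s * η) x hx <;>
      simp only [Nr, mem_ofPred_eq, e, hmu, hr]
    rw [wabs_kap, norm_mul, norm_real, Real.norm_of_nonneg h5.1]
    nlinarith [nhalf_norm_sin hu]
  · simp only [one_mul] at e
    obtain ⟨u, -, ⟨h3, -, e'⟩ | e' | e'⟩ := hg η x' hx' <;> rw [e'] at e
    · simpa [cF, wabs_hs, wabs_kap, h0.ne', h3] using congrArg wabs e
    · exact nhalf_hs_ne_e hx _ _ _ e
    · exact nhalf_hs_ne_e hx _ _ _ e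
  · simp only [one_mul] at e
    obtain ⟨u, hu, ⟨-, hp, e'⟩ | e' | e'⟩ := hg 0 x hx
    · have h3 := hz x hx
      rw [e, wabs_hs, mul_eq_zero, norm_eq_zero, norm_eq_zero] at h3
      refine nhalf_kap_ne hu hp ((mem_closedBall_zero_iff.1 hx').lt_of_ne fun h4 => ?_) _
        ((by simpa using e'.symm : _ = g 0 x).trans e)
      rcases h3 with h3 | h3
      · simp [show x' = 0 by simpa using h3] at h4
      · have h5 := nhalf_norm_zero h0.ne' h3
        cases b <;> linarith [nhalf_true, nhalf_false]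
    · exact nhalf_hs_ne_e hx' _ _ _ (e.symm.trans e')
    · exact nhalf_hs_ne_e hx' _ _ _ (e.symm.trans e')
  · simp only [one_mul] at e
    have h3 : ∀ k {c : ℂ}, c ≠ 0 → g 0 x ≠ mu k (c, 0) := fun k c hc e => by
      rw [mu, if_pos rfl, if_neg hc] at e
      obtain ⟨u, -, ⟨-, hp, e'⟩ | e' | e'⟩ := hg 0 x hx <;> rw [e'] at e
      · exact kap_ne_e hp _ _ (by simpa using e)
      · simp [mu_zero] at e
      · simp [mu_zero] at e
    obtain ⟨u, -, ⟨h4, -, e'⟩ | e' | e'⟩ := hg η x' hx'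
    · simpa [e, e', wabs_kap, h0.ne', h4] using hz x hx
    · exact h3 _ hπ (e.trans e')
    · exact h3 _ (neg_ne_zero.2 hπ) (e.trans e')

end Pool.Agent.Lib.MP_45bb13_gt
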