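import Pool.Agent.Lib.MP_45bb13_gt.NSph
import Pool.Agent.Lib.MP_45bb13_gt.NHalf

/-! The intersection form of the cap is even. -/

set_option linter.unusedSectionVars false

namespace Pool.Agent.Lib.MP_45bb13_gt

open Set Filter Topology Complex Pool.Agent.Shared.Sing Pool.Agent.Shared.SingEZ
open scoped ComplexConjugate

lemma nev_cF (b : Bool) : MapsTo (cF b) D1 Ms := fun x hx => by
  refine ⟨_, ?_, rfl⟩
  have h1 : ‖x‖ ≤ 1 := by simpa using hx
  have h2 : |sgb b| = 1 := by unfold sgb; split_ifs <;> simp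
  simp only [domS, gn, mem_ofPred_eq, map_zero, add_zero, Real.sqrt_one, div_one, ofReal_one, one_mul,
    h2, mul_one, norm_div, Complex.norm_ofNat]
  linarith

lemma nev_step {r : ℝ} (hr : 0 < r) {τ : C F2 (N × N) →ₗ[F2] F2} (h : IForm (Nr r) τ) (b : Bool)
    {U : Set N} (hU : IsOpen U) (h1 : U ⊆ Nr r) (h2 : Ms ∩ Nr r ⊆ U)
    (h3 : U ∩ (Ak b ∩ Nr r) = (Ak b ∩ Nr r) ∩ (Ms ∩ Nr r)) (e : Ev τ U) :
    Ev τ (U ∪ (Ak b ∩ Nr r)) := by
  have := t2_N
  have eV : ∀ k, Ev τ (Vk k ∩ Nr r) := fun k =>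
    Spn.ev h inter_subset_right (spn_V hr k) (h.biEv (biEv_e hr k))
  have eA : Ev τ (Ak b ∩ Nr r) := by
    rw [Ak, union_inter_distrib_right]
    exact h.ev_union_zero locEuc_N ((isOpen_Vk _).inter h.opn) ((isOpen_Vk _).inter h.opn)
      inter_subset_right inter_subset_right (eV _) (eV _) (((ctr_VV hr b).acy F2).Z_le 0)
  obtain ⟨g, hg, hb⟩ := biEv_c hr b
  obtain ⟨c1, c2, m1, m2, c3⟩ := hb.cont
  refine h.ev_union_one locEuc_N hU (((isOpen_Vk _).union (isOpen_Vk _)).inter h.opn) h1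
    inter_subset_right e eA c1 c2 (fun x hx => h2 ⟨nev_cF b hx, m1 hx⟩)
    (fun x hx => ⟨hg hx, m2 hx⟩) c3 ?_ (h.biEv hb)
  have hs := (circ_Ak_Ms hr b).spn (F := F2)
  simp only [norm_ee, ofReal_one, div_one] at hs
  exact h3 ▸ hs

theorem ev_N {r : ℝ} (hr : 0 < r) {τ : C F2 (N × N) →ₗ[F2] F2} (h : IForm (Nr r) τ) :
    Ev τ (Nr r) := by
  have := t2_N
  have eM : Ev τ (Ms ∩ Nr r) := Spn.ev h inter_subset_right (spn_M hr) (h.biEv (biEv_s hr))
  have e1 := nev_step hr h false (isOpen_Ms.inter h.opn) inter_subset_right Subset.rfl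
    (inter_comm _ _) eM
  have e2 := nev_step hr h true ((isOpen_Ms.inter h.opn).union
    (((isOpen_Vk _).union (isOpen_Vk _)).inter h.opn))
    (union_subset inter_subset_right inter_subset_right) subset_union_left (by
      refine Subset.antisymm ?_ fun x hx => ⟨Or.inl hx.2, hx.1⟩
      rintro x ⟨hx | hx, hx'⟩
      · exact ⟨hx', hx⟩
      · exact absurd hx'.1 (disjoint_left.1 Ak_disj hx.1)) e1
  have e3 : Ms ∩ Nr r ∪ Ak false ∩ Nr r ∪ Ak true ∩ Nr r = Nr r := by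
    rw [← union_inter_distrib_right, ← union_inter_distrib_right, union_comm Ms, N_cover, univ_inter]
  exact e3 ▸ e2

/-- A punctured convex neighbourhood of the origin is path connected. -/
lemma nev_path {O : Set CC} (hO : IsOpen O) (hc : Convex ℝ O) (h0 : (0 : CC) ∈ O) :
    IsPathConnected (O ∩ {0}ᶜ) := by
  obtain ⟨ε, hε, hb⟩ := Metric.nhds_basis_closedBall.mem_iff.1 (hO.mem_nhds h0)
  have hrk : 1 < Module.rank ℝ CC := by
    rw [rank_prod', Complex.rank_real_complex]; norm_num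
  have hS : Metric.sphere (0 : CC) ε ⊆ O ∩ {0}ᶜ := fun x hx =>
    ⟨hb (Metric.sphere_subset_closedBall hx), fun h => by
      rw [mem_singleton_iff.1 h] at hx
      exact hε.ne (by simpa using hx)⟩
  obtain ⟨a, ha, hj⟩ := isPathConnected_sphere hrk (0 : CC) hε.le
  refine ⟨a, hS ha, fun x hx => ?_⟩
  have hx0 : 0 < ‖x‖ := norm_pos_iff.2 hx.2
  have hy : (ε / ‖x‖) • x ∈ Metric.sphere (0 : CC) ε := by
    rw [mem_sphere_zero_iff_norm, norm_smul, Real.norm_of_nonneg (div_pos hε hx0).le,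
      div_mul_cancel₀ _ hx0.ne']
  refine ((hj hy).mono hS).trans (JoinedIn.of_segment_subset fun z hz =>
    ⟨hc.segment_subset (hS hy).1 hx.1 hz, ?_⟩)
  obtain ⟨s, t, hs, ht, hst, rfl⟩ := hz
  rw [smul_smul, ← add_smul]
  refine smul_ne_zero (ne_of_gt ?_) hx.2
  rcases hs.eq_or_lt with rfl | hs
  · rw [zero_mul, zero_add, ← zero_add t, hst]; exact one_pos
  · exact add_pos_of_pos_of_nonneg (mul_pos hs (div_pos hε hx0)) ht

/-- The box times a disc. -/
def nevO (r : ℝ) : Set CC := {p | box (p.1 ^ 2) ∧ ‖p.2‖ < r}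

lemma nev_open (r : ℝ) : IsOpen (nevO r) :=
  (isOpen_box.preimage (f := fun p : CC => p.1 ^ 2) (by fun_prop)).inter
    (isOpen_lt (f := fun p : CC => ‖p.2‖) (g := fun _ => r) (by fun_prop) continuous_const)

lemma nev_convex (r : ℝ) : Convex ℝ (nevO r) := by
  have e : nevO r = ((reLm ⁻¹' Metric.ball 0 (1 / 2)) ∩ (imLm ⁻¹' Metric.ball 0 (1 / 4))) ×ˢ
      Metric.ball 0 r := by
    ext p
    simp only [nevO, box_iff, mem_ofPred_eq, mem_prod, mem_inter_iff, mem_preimage,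
      mem_ball_zero_iff, reLm_coe, imLm_coe, Real.norm_eq_abs]
  rw [e]
  exact (((convex_ball _ _).linear_preimage _).inter ((convex_ball _ _).linear_preimage _)).prod
    (convex_ball _ _)

lemma nev_domK {r : ℝ} (k : Bool × Bool) {p : CC} (hp : p ∈ nevO r ∩ {0}ᶜ) :
    (u0 k + p.1, p.2) ∈ domK := by
  by_cases h : p.2 = 0
  · exact box_domK hp.1.1 (fun h' => hp.2 (Prod.ext h' h)) k _
  · exact domK_of_ne h

lemma nev_neg (p : CC) : (-1 : ℤˣ) • p = (-p.1, -p.2) := by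
  rw [Units.neg_smul, one_smul]; rfl

lemma nev_cov (r : ℝ) (k : Bool × Bool) :
    CovOn ℤˣ (fun p : CC => kap (u0 k + p.1, p.2)) (nevO r ∩ {0}ᶜ) := by
  have hO : IsOpen (nevO r ∩ {0}ᶜ) := (nev_open r).inter isOpen_compl_singleton
  have hl : LO (fun p : CC => kap (u0 k + p.1, p.2)) (nevO r ∩ {0}ᶜ) :=
    (lo_kap.comp (lo_homeo (Homeomorph.addLeft ((u0 k, 0) : CC)) hO) fun p hp => by
      simpa [Prod.add_def] using nev_domK k hp).congr fun p _ => by simp [Prod.add_def]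
  have ht : ∀ x ∈ nevO r ∩ {0}ᶜ, ∀ y ∈ nevO r ∩ {0}ᶜ,
      kap (u0 k + x.1, x.2) = kap (u0 k + y.1, y.2) → y = x ∨ y = -x := fun x hx y hy h =>
    (KR_box hx.1.1 hy.1.1 ((kap_eq_iff (nev_domK k hx) (nev_domK k hy)).1 h)).imp
      (fun e => Prod.ext e.1 e.2) fun e => Prod.ext e.1 e.2
  refine ⟨hl, fun x hx => ?_, fun g => continuous_const_smul g, fun g x hx => ?_, fun g x hx => ?_,
    fun x hx y hy h => ?_, fun g x hx h => ?_⟩
  · refine ⟨nevO r ∩ {0}ᶜ ∩ Metric.ball x ‖x‖, ⟨hx, Metric.mem_ball_self (norm_pos_iff.2 hx.2)⟩,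
      hl.mono (hO.inter Metric.isOpen_ball) inter_subset_left, fun y hy z hz h => ?_⟩
    rcases ht y hy.1 z hz.1 h with e | e
    · exact e.symm
    · have h1 := mem_ball_iff_norm.1 hy.2
      have h2 := mem_ball_iff_norm.1 hz.2
      have h3 := norm_add_le (y - x) (z - x)
      have h4 : y - x + (z - x) = (-2 : ℝ) • x := by rw [e]; module
      rw [h4, norm_smul] at h3
      norm_num at h3
      linarith
  · rcases Int.units_eq_one_or g with rfl | rfl
    · rwa [one_smul]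
    · rw [nev_neg]
      exact ⟨⟨by simpa using hx.1.1, by simpa using hx.1.2⟩, fun h => hx.2 (neg_eq_zero.1 h)⟩
  · rcases Int.units_eq_one_or g with rfl | rfl
    · rw [one_smul]
    · rw [nev_neg]
      exact (kap_congr (KR_neg k x.1 x.2)).symm
  · rcases ht x hx y hy h with rfl | rfl
    · exact ⟨1, one_smul _ _⟩
    · exact ⟨-1, nev_neg x⟩
  · rcases Int.units_eq_one_or g with rfl | rfl
    · rfl
    · exact absurd (neg_eq_self.1 ((nev_neg x).symm.trans h)) hx.2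

lemma nev_image (r : ℝ) (k : Bool × Bool) :
    (fun p : CC => kap (u0 k + p.1, p.2)) '' (nevO r ∩ {0}ᶜ) = (Vk k ∩ Nr r) \ Ek k := by
  refine Subset.antisymm ?_ fun n hn => ?_
  · rintro _ ⟨p, hp, rfl⟩
    refine ⟨⟨(kap_mem_Vk (nev_domK k hp)).2 ⟨p.1, p.2, hp.1.1, KR.refl _⟩, ?_⟩, ?_⟩
    · exact (wabs_kap _).trans_lt hp.1.2
    · rintro ⟨l, hl⟩
      exact kap_ne_e (nev_domK k hp) k l hl.symm
  · rcases N.cases n with ⟨q, hq, rfl⟩ | ⟨k', l, rfl⟩ | ⟨v, rfl⟩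
    · obtain ⟨u, w, hu, hk⟩ := (kap_mem_Vk hq).1 hn.1.1
      refine ⟨(u, w), ⟨⟨hu, hk.norm.trans_lt ((wabs_kap q).symm.trans_lt hn.1.2)⟩, fun h => ?_⟩,
        (kap_congr hk).symm⟩
      obtain ⟨rfl, rfl⟩ := Prod.ext_iff.1 (mem_singleton_iff.1 h)
      rcases hk.domK hq with h1 | h1
      · exact h1 rfl
      · refine h1.1 (if k.1 then 1 else 0) (if k.2 then 1 else 0) (Complex.ext ?_ ?_) <;>
          simp only [u0] <;> split_ifs <;> simp
    · exact absurd ⟨l, by rw [e_mem_Vk.1 hn.1.1]⟩ hn.2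
    · exact absurd hn.1.1 (s_not_mem_Vk v)

/-- The complement of the zero section has no real first homology. -/
theorem h1_VE {r : ℝ} (hr : 0 < r) (k : Bool × Bool) :
    Z ℝ ((Vk k ∩ Nr r) \ Ek k) ∅ 1 ≤ B ℝ ((Vk k ∩ Nr r) \ Ek k) ∅ 1 := by
  have h0 : (0 : CC) ∈ nevO r := ⟨box_of_norm (by simp), by simpa using hr⟩
  have h := ((nev_cov r k).span (F := ℝ) (nev_path (nev_open r) (nev_convex r) h0)
    (h1_punct locEuc_CC (nev_open r) (((ctr_star h0 ((nev_convex r).starConvex h0)).acy ℝ).Z_le 0) 0)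
    (κ := Empty) Empty.elim Empty.elim (fun i => i.elim) fun χ _ => MonoidHom.ext fun g => by
      rcases Int.units_eq_one_or g with rfl | rfl
      · exact χ.map_one
      · have e : χ (-1) * χ (-1) = 1 := by rw [← map_mul, neg_mul_neg, one_mul, map_one]
        exact add_self_eq_zero.1 (show (χ (-1)).toAdd + (χ (-1)).toAdd = 0 from e)).2
  rwa [range_eq_empty, Submodule.span_empty, bot_sup_eq, nev_image] at h

theorem sqi_e_ne {r : ℝ} (hr : 0 < r) (k : Bool × Bool) {τ : C ℝ (N × N) →ₗ[ℝ] ℝ}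
    (h : IForm (Nr r) τ) : sqi τ (bi ℝ (eF k) (eG k)) ≠ 0 := by
  have := t2_N
  obtain ⟨ε, hε⟩ : ∃ ε : ℝ, ε = r ^ 2 / 2 := ⟨_, rfl⟩
  have hε0 : 0 < ε := by rw [hε]; positivity
  have hεc : (ε : ℂ) ≠ 0 := ofReal_ne_zero.2 hε0.ne'
  have hd : ∀ ω : ℂ, ((0, ω) : CC) ∈ domL := fun ω => box_of_norm (by simp)
  have hd' : ∀ x : ℂ, ((x, 0) : CC) ∈ domL := fun x => box_of_norm (by simp)
  obtain ⟨f, hf⟩ : ∃ f : ℂ → N, f = fun x => lam k (0, ε * x + 0) := ⟨_, rfl⟩
  have cf : Continuous f := by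
    rw [hf]
    exact (lo_lam k).continuousOn.comp_continuous (f := fun x : ℂ => ((0, ε * x + 0) : CC))
      (by fun_prop) fun x => hd _
  have mf : MapsTo f D1 (Vk k ∩ Nr r) := fun x hx => by
    have h1 : ‖x‖ ≤ 1 := by simpa using hx
    refine ⟨Or.inl ⟨_, hd _, by rw [hf]⟩, lt_of_pow_lt_pow_left₀ 2 hr.le ?_⟩
    rw [hf, wabs_lam, add_zero, norm_mul, Complex.norm_real, Real.norm_of_nonneg hε0.le]
    nlinarith
  have hE : Ek k ⊆ Nr r := by
    rintro _ ⟨l, rfl⟩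
    exact (wabs_e k l).trans_lt hr
  have hz := bi_e_In k (F := ℝ)
  have hl : edge ℝ (fun t => f (ee t)) ∈ Z ℝ ((Vk k ∩ Nr r) \ Ek k) ∅ 1 := by
    refine edge_Z (cf.comp continuous_ee).continuousOn (fun t _ => ⟨mf (by simp [norm_ee]), ?_⟩)
      (by rw [ee_one, ee_zero])
    rintro ⟨l, hl⟩
    have h1 := wabs_lam k (0, ε * ee t + 0)
    have hl' : N.e k l = lam k (0, ε * ee t + 0) := by rw [hl, hf]
    rw [← hl', wabs_e, add_zero, norm_mul, norm_ee, Complex.norm_real,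
      Real.norm_of_nonneg hε0.le] at h1
    linarith
  obtain ⟨a, ha, hDa⟩ := mem_B_empty (h1_VE hr k hl)
  have hy : map f (dsk ℝ) - a ∈ Z ℝ (Vk k ∩ Nr r) ∅ 2 :=
    mem_Z (sub_mem (map_In cf.continuousOn mf (dsk_In ℝ)) (In_mono sdiff_subset _ ha))
      (by rw [map_sub, D_map_dsk cf.continuousOn, hDa, sub_self])
  obtain ⟨_, hs, b, hb, e⟩ := Submodule.mem_sup.1 ((spn_V hr k (F := ℝ)).2 hy)
  obtain ⟨ρ, rfl⟩ := Submodule.mem_span_singleton.1 hs
  have h1 := h.congr (z' := bi ℝ (eF k) (eG k)) (y' := ρ • bi ℝ (eF k) (eG k))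
    (Z_mono hE Subset.rfl hz) (Z_mono inter_subset_right Subset.rfl hy)
    (by rw [sub_self]; exact zero_mem _)
    (by rw [← e, add_sub_cancel_left]; exact B_mono inter_subset_right Subset.rfl hb)
  have h2 := h.disj hE (sdiff_subset.trans inter_subset_right) disjoint_sdiff_right hz.1 ha
  obtain ⟨-, -, m1, m2, -⟩ := (biEv_e hr k).cont
  have mf' : MapsTo f D1 (Nr r) := mf.mono_right inter_subset_right
  obtain ⟨c, hc, h3⟩ := h.count (continuous_eF k).continuousOn cf.continuousOn m1 mf'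
    (meets_one (a := 0) (a' := 0) (fun x _ x' _ hx => by
      rw [hf] at hx
      obtain ⟨e1, e2⟩ := Prod.ext_iff.1 (lam_injOn k (hd' x) (hd _) hx)
      exact ⟨e1, by simpa [hε0.ne'] using e2⟩) (by simp) (by simp)
      ⟨lam k, fun x => 1 * x + 0, fun x => ε * x + 0, (lo_lam k).le (lam_injOn k) (hd 0),
        le_lin one_ne_zero 0 0, le_lin hεc 0 0, by simp, by simp,
        .of_forall fun x => by simp [eF], .of_forall fun x => by rw [hf]⟩)
  obtain ⟨c', -, h4⟩ := h.count (continuous_eG k).continuousOn cf.continuousOn m2 mf'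
    (meets_zero fun x _ x' _ hx => by
      rw [hf] at hx
      exact ((lam_eq_mu_iff (hd _) (box_of_norm (by simp))).1 hx.symm).1 rfl)
  intro h0
  rw [map_smul, map_smul, map_sub, map_sub, h2, sub_zero] at h1
  rw [sqi] at h0
  rw [h0, smul_zero, bi, map_sub, LinearMap.sub_apply, map_sub, h3, h4] at h1
  exact hc 0 (by simpa using h1)

end Pool.Agent.Lib.MP_45bb13_gt
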