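import Pool.Agent.Lib.MP_45bb13_gt.NEq
import Pool.Agent.Lib.MP_45bb13_gt.Par

/-! The atlas of the cap is smooth. -/

set_option linter.unusedSectionVars false

namespace Pool.Agent.Lib.MP_45bb13_gt

open Set Filter Topology Complex
open scoped ComplexConjugate ContDiff

lemma ngood_inv {f : CC → ℂ} {x : CC} (hf : ContDiffAt ℝ ∞ f x) (h : f x ≠ 0) :
    ContDiffAt ℝ ∞ (fun z => (f z)⁻¹) x := hf.inv h

lemma ngood_ofReal {f : CC → ℝ} {x : CC} (hf : ContDiffAt ℝ ∞ f x) :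
    ContDiffAt ℝ ∞ (fun z => ((f z : ℝ) : ℂ)) x := ofRealCLM.contDiff.contDiffAt.comp x hf

lemma ngood_conj {f : CC → ℂ} {x : CC} (hf : ContDiffAt ℝ ∞ f x) :
    ContDiffAt ℝ ∞ (fun z => conj (f z)) x := conjCLE.contDiff.contDiffAt.comp x hf

lemma ngood_re {f : CC → ℂ} {x : CC} (hf : ContDiffAt ℝ ∞ f x) :
    ContDiffAt ℝ ∞ (fun z => (f z).re) x := reCLM.contDiff.contDiffAt.comp x hf

lemma ngood_im {f : CC → ℂ} {x : CC} (hf : ContDiffAt ℝ ∞ f x) :
    ContDiffAt ℝ ∞ (fun z => (f z).im) x := imCLM.contDiff.contDiffAt.comp x hf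

lemma ngood_normSq {f : CC → ℂ} {x : CC} (hf : ContDiffAt ℝ ∞ f x) :
    ContDiffAt ℝ ∞ (fun z => normSq (f z)) x := by
  have := ((ngood_re hf).mul (ngood_re hf)).add ((ngood_im hf).mul (ngood_im hf))
  simpa only [normSq_apply] using this

lemma ngood_ne {f : CC → ℂ} {x : CC} (hf : ContinuousAt f x) (h : f x ≠ 0) :
    ∀ᶠ z in 𝓝 x, f z ≠ 0 := hf.eventually_ne h

/-- A smooth local square root. -/
lemma ngood_root {o : ℂ} (h : o ≠ 0) : ∃ r : ℂ → ℂ, ContDiffAt ℝ ∞ r o ∧ r o = rt o ∧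
    ∀ z, r z ^ 2 = z := by
  refine ⟨fun z => rt o * rt (z * o⁻¹), ?_, ?_, fun z => ?_⟩
  · have h1 : AnalyticAt ℂ (fun z : ℂ => rt (z * o⁻¹)) o := by
      unfold rt
      refine AnalyticAt.cpow (by fun_prop) analyticAt_const ?_
      rw [mul_inv_cancel₀ h]
      exact one_mem_slitPlane
    exact contDiffAt_const.mul (h1.contDiffAt.restrict_scalars ℝ)
  · simp [rt, mul_inv_cancel₀ h]
  · rw [mul_pow, rt_sq, rt_sq]
    field_simp

lemma ngood_rt_ne {o : ℂ} (h : o ≠ 0) : rt o ≠ 0 := fun e => h (by rw [← rt_sq o, e]; simp)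

/-- The point is a regular point of the chart. -/
def NReg (f : CC → N) (x : CC) : Prop :=
  ∃ p ∈ domK, Comp ∞ f x kap p ∧ Comp ∞ kap p f x

lemma ngood_KR {p q : CC} (h : KR p q) : Comp ∞ kap p kap q := by
  obtain ⟨ε, a, b, h0, h1, h2⟩ := h
  refine ⟨fun z => (ε * z.1 + (a + b * I), ε * z.2), by fun_prop, Prod.ext h1.symm h2.symm, ?_⟩
  exact Eventually.of_forall fun z => (kap_congr ⟨ε, a, b, h0, rfl, rfl⟩).symm

lemma NReg.comp {f g : CC → N} {x y : CC} (hf : NReg f x) (hg : NReg g y) (e : f x = g y) :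
    Comp ∞ f x g y := by
  obtain ⟨p, hp, h1, -⟩ := hf
  obtain ⟨q, hq, h2, h3⟩ := hg
  have : KR p q := (kap_eq_iff hp hq).1 (by rw [← h1.eq, ← h2.eq, e])
  exact (h1.trans (ngood_KR this)).trans h3

lemma NReg.ne_e {f : CC → N} {x : CC} (hf : NReg f x) (k : Bool × Bool) (l : Option ℂ) :
    f x ≠ .e k l := by
  obtain ⟨p, hp, h1, -⟩ := hf
  rw [h1.eq]
  exact kap_ne_e hp k l

lemma NReg.ne_s {f : CC → N} {x : CC} (hf : NReg f x) (v : S2) : f x ≠ .s v := by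
  obtain ⟨p, hp, h1, -⟩ := hf
  rw [h1.eq]
  exact kap_ne_s hp v

lemma nreg_kap {x : CC} (hx : x ∈ domK) : NReg kap x := ⟨x, hx, .refl _ _, .refl _ _⟩

lemma nreg_lam (k : Bool × Bool) {x : CC} (h : x.2 ≠ 0) : NReg (lam k) x := by
  obtain ⟨r, hr, h1, h2⟩ := ngood_root h
  have hw := ngood_rt_ne h
  have hr' : ContDiffAt ℝ ∞ (fun z : CC => r z.2) x := hr.comp x contDiffAt_snd
  refine ⟨(u0 k + x.1 * rt x.2, rt x.2), domK_of_ne hw,
    ⟨fun z => (u0 k + z.1 * r z.2, r z.2),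
      (contDiffAt_const.add (contDiffAt_fst.mul hr')).prodMk hr', by simp only [h1], ?_⟩,
    ⟨fun z => ((z.1 - u0 k) * z.2⁻¹, z.2 ^ 2),
      ((contDiffAt_fst.sub contDiffAt_const).mul (ngood_inv contDiffAt_snd hw)).prodMk
        (contDiffAt_snd.pow 2), ?_, ?_⟩⟩
  · filter_upwards [ngood_ne hr'.continuousAt (by rw [h1]; exact hw)] with z hz
    rw [← lam_eq k z.1 hz, h2]
  · refine Prod.ext ?_ (rt_sq _)
    simp only [add_sub_cancel_left]
    field_simp
  · filter_upwards [ngood_ne (f := fun z : CC => z.2) continuousAt_snd hw] with z hz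
    rw [lam_eq k _ hz]
    congr 1
    refine Prod.ext ?_ rfl
    simp only
    field_simp
    ring

lemma nreg_mu (k : Bool × Bool) {x : CC} (hx : x ∈ domM) (h : x.2 ≠ 0) : NReg (mu k) x := by
  obtain ⟨r, hr, h1, h2⟩ := ngood_root h
  have hw := ngood_rt_ne h
  have hr' : ContDiffAt ℝ ∞ (fun z : CC => r z.2) x := hr.comp x contDiffAt_snd
  have hb : box (rt x.2 ^ 2) := by rw [rt_sq]; exact hx
  have hn : (fun z : CC => z.1 - u0 k) (u0 k + rt x.2, x.1 * rt x.2) ≠ 0 := by simpa using hw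
  refine ⟨(u0 k + rt x.2, x.1 * rt x.2), box_domK hb hw k _,
    ⟨fun z => (u0 k + r z.2, z.1 * r z.2),
      (contDiffAt_const.add hr').prodMk (contDiffAt_fst.mul hr'), by simp only [h1], ?_⟩,
    ⟨fun z => (z.2 * (z.1 - u0 k)⁻¹, (z.1 - u0 k) ^ 2),
      (contDiffAt_snd.mul (ngood_inv (contDiffAt_fst.sub contDiffAt_const) hn)).prodMk
        ((contDiffAt_fst.sub contDiffAt_const).pow 2), ?_, ?_⟩⟩
  · filter_upwards [ngood_ne hr'.continuousAt (by rw [h1]; exact hw)] with z hz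
    rw [← mu_eq k z.1 hz, h2]
  · refine Prod.ext ?_ ?_
    · simp only [add_sub_cancel_left]
      field_simp
    · simp only [add_sub_cancel_left]
      exact rt_sq _
  · filter_upwards [ngood_ne (f := fun z : CC => z.1 - u0 k) (by fun_prop) hn] with z hz
    rw [mu_eq k _ hz]
    congr 1
    refine Prod.ext ?_ ?_
    · simp
    · simp only
      field_simp

lemma ngood_sgb (σ : Bool) : sgb σ * sgb σ = 1 := by unfold sgb; split_ifs <;> norm_num

lemma ngood_st1 (σ : Bool) (b : ℂ) : 1 + sgb σ * (st σ b).1.1 = 2 / (1 + normSq b) := by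
  have h : 1 + normSq b ≠ 0 := by have := normSq_nonneg b; positivity
  show 1 + sgb σ * (sgb σ * ((1 - normSq b) / (1 + normSq b))) = _
  rw [← mul_assoc, ngood_sgb]
  field_simp
  ring

lemma ngood_st_of (σ : Bool) (s : S2) (h : 1 + sgb σ * s.1.1 ≠ 0) :
    st σ (s.1.2 * (((1 + sgb σ * s.1.1 : ℝ) : ℂ))⁻¹) = s := by
  have hs := s.2
  have hσ := ngood_sgb σ
  set τ := sgb σ * s.1.1 with hτ
  have h1 : normSq s.1.2 = (1 - τ) * (1 + τ) := by
    have : τ ^ 2 = s.1.1 ^ 2 := by rw [hτ, mul_pow, sq (sgb σ), hσ, one_mul]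
    nlinarith
  have h2 : normSq (s.1.2 * (((1 + τ : ℝ) : ℂ))⁻¹) = (1 - τ) / (1 + τ) := by
    rw [map_mul, map_inv₀, normSq_ofReal, h1]
    field_simp
  have h3 : 1 + (1 - τ) / (1 + τ) = 2 / (1 + τ) := by field_simp; ring
  have h4 : 1 - (1 - τ) / (1 + τ) = 2 * τ / (1 + τ) := by field_simp; ring
  refine Subtype.ext (Prod.ext ?_ ?_)
  · show sgb σ * ((1 - normSq _) / (1 + normSq _)) = _
    rw [h2, h3, h4, show 2 * τ / (1 + τ) / (2 / (1 + τ)) = τ by field_simp, hτ, ← mul_assoc, hσ,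
      one_mul]
  · show ((2 / (1 + normSq _) : ℝ) : ℂ) * _ = _
    rw [h2, h3, show 2 / (2 / (1 + τ)) = 1 + τ by field_simp]
    have : ((1 + τ : ℝ) : ℂ) ≠ 0 := ofReal_ne_zero.2 h
    field_simp

lemma ngood_st_a (σ : Bool) (x : CC) : ContDiffAt ℝ ∞ (fun z : CC => (st σ z.2).1.1) x := by
  have h : 1 + normSq x.2 ≠ 0 := by have := normSq_nonneg x.2; positivity
  have h1 : ContDiffAt ℝ ∞ (fun z : CC => normSq z.2) x := ngood_normSq contDiffAt_snd
  exact contDiffAt_const.mul ((contDiffAt_const.sub h1).div (contDiffAt_const.add h1) h)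

lemma ngood_st_b (σ : Bool) (x : CC) : ContDiffAt ℝ ∞ (fun z : CC => (st σ z.2).1.2) x := by
  have h : 1 + normSq x.2 ≠ 0 := by have := normSq_nonneg x.2; positivity
  have h1 : ContDiffAt ℝ ∞ (fun z : CC => normSq z.2) x := ngood_normSq contDiffAt_snd
  exact (ngood_ofReal (contDiffAt_const.div (contDiffAt_const.add h1) h)).mul contDiffAt_snd

/-- The distance to the surgered circle. -/
noncomputable def ngoodR (z : CC) : ℝ := √((z.1.im - 1 / 4) ^ 2 + normSq z.2)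

lemma ngood_back (σ : Bool) {z : CC} (h : ngoodR z ≠ 0)
    (h' : ngoodR z + sgb σ * (z.1.im - 1 / 4) ≠ 0) :
    Sg (ngoodR z * ee z.1.re,
      st σ (z.2 * ee z.1.re * (((ngoodR z + sgb σ * (z.1.im - 1 / 4) : ℝ) : ℂ))⁻¹)) = kap z := by
  have h0 : 0 < ngoodR z := lt_of_le_of_ne (Real.sqrt_nonneg _) h.symm
  have hsq : ngoodR z ^ 2 = (z.1.im - 1 / 4) ^ 2 + normSq z.2 :=
    Real.sq_sqrt (by have := normSq_nonneg z.2; positivity)
  have hc : ((ngoodR z : ℝ) : ℂ) ≠ 0 := ofReal_ne_zero.2 h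
  let s : S2 := ⟨((z.1.im - 1 / 4) / ngoodR z, z.2 * ee z.1.re * ((ngoodR z : ℝ) : ℂ)⁻¹), by
    simp only [map_mul, map_inv₀, normSq_ofReal, normSq_ee]
    field_simp
    linarith⟩
  have e1 : 1 + sgb σ * s.1.1 = (ngoodR z + sgb σ * (z.1.im - 1 / 4)) / ngoodR z := by
    show 1 + sgb σ * ((z.1.im - 1 / 4) / ngoodR z) = _
    field_simp
  have e2 := ngood_st_of σ s (by rw [e1]; exact div_ne_zero h' h)
  have e3 : s.1.2 * (((1 + sgb σ * s.1.1 : ℝ) : ℂ))⁻¹ =
      z.2 * ee z.1.re * (((ngoodR z + sgb σ * (z.1.im - 1 / 4) : ℝ) : ℂ))⁻¹ := by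
    rw [e1, ofReal_div, inv_div]
    show z.2 * ee z.1.re * ((ngoodR z : ℝ) : ℂ)⁻¹ * _ = _
    rw [div_eq_mul_inv, mul_assoc (z.2 * ee z.1.re), ← mul_assoc _ ((ngoodR z : ℝ) : ℂ),
      inv_mul_cancel₀ hc, one_mul]
  rw [← e3, e2, Sg_eq h0]
  congr 1
  refine Prod.ext (Complex.ext rfl ?_) ?_
  · show 1 / 4 + ngoodR z * ((z.1.im - 1 / 4) / ngoodR z) = z.1.im
    field_simp
    ring
  · show ngoodR z * ee (-z.1.re) * (z.2 * ee z.1.re * ((ngoodR z : ℝ) : ℂ)⁻¹) = z.2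
    have := ee_mul_neg z.1.re
    field_simp
    linear_combination z.2 * this

lemma nreg_Sg (σ : Bool) {x : CC} (hx : (x.1, st σ x.2) ∈ domS) (h : x.1 ≠ 0) :
    NReg (fun p : CC => Sg (p.1, st σ p.2)) x := by
  have hr : 0 < ‖x.1‖ := norm_pos_iff.2 h
  obtain ⟨a, ha, ha1, ha2⟩ := exists_branch hr (ang x.1)
  rw [norm_mul_ee_ang] at ha ha1
  have hcj : ∀ y : ℂ, ((‖y‖ : ℝ) : ℂ) * ee (-a y) = conj y := fun y => by
    conv_rhs => rw [← ha2 y]
    rw [map_mul, conj_ofReal, ee_neg]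
  set p : CC := (⟨ang x.1, 1 / 4 + ‖x.1‖ * (st σ x.2).1.1⟩,
    ‖x.1‖ * ee (-ang x.1) * (st σ x.2).1.2) with hp
  have hR2 : (p.1.im - 1 / 4) ^ 2 + normSq p.2 = ‖x.1‖ ^ 2 := by
    have := (st σ x.2).2
    simp only [hp, map_mul, normSq_ofReal, normSq_ee]
    linear_combination ‖x.1‖ ^ 2 * this
  have hR : ngoodR p = ‖x.1‖ := by rw [ngoodR, hR2, Real.sqrt_sq hr.le]
  have hD : ngoodR p + sgb σ * (p.1.im - 1 / 4) = ‖x.1‖ * (2 / (1 + normSq x.2)) := by
    rw [hR, ← ngood_st1 σ]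
    simp only [hp]
    ring
  have hq : 0 < 1 + normSq x.2 := by have := normSq_nonneg x.2; positivity
  have hD0 : ngoodR p + sgb σ * (p.1.im - 1 / 4) ≠ 0 := by rw [hD]; positivity
  have c1 : ContDiffAt ℝ ∞ (fun z : CC => z.1.im - 1 / 4) p :=
    (ngood_im contDiffAt_fst).sub contDiffAt_const
  have cR : ContDiffAt ℝ ∞ ngoodR p :=
    ((c1.pow 2).add (ngood_normSq contDiffAt_snd)).sqrt (by rw [hR2]; positivity)
  have cD : ContDiffAt ℝ ∞ (fun z : CC => ngoodR z + sgb σ * (z.1.im - 1 / 4)) p :=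
    cR.add (contDiffAt_const.mul c1)
  have cE : ContDiffAt ℝ ∞ (fun z : CC => ee z.1.re) p :=
    contDiff_ee.contDiffAt.comp p (ngood_re contDiffAt_fst)
  refine ⟨p, Sg_domK hr _ hx,
    ⟨fun z => (⟨a z.1, 1 / 4 + ‖z.1‖ * (st σ z.2).1.1⟩, conj z.1 * (st σ z.2).1.2),
      (contDiffAt_mk ((ha _).comp x contDiffAt_fst) (contDiffAt_const.add
        ((contDiffAt_fst.norm ℝ h).mul (ngood_st_a σ x)))).prodMk
        ((ngood_conj contDiffAt_fst).mul (ngood_st_b σ x)), ?_, ?_⟩,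
    ⟨fun z => (ngoodR z * ee z.1.re,
      z.2 * ee z.1.re * (((ngoodR z + sgb σ * (z.1.im - 1 / 4) : ℝ) : ℂ))⁻¹),
      ((ngood_ofReal cR).mul cE).prodMk ((contDiffAt_snd.mul cE).mul
        (ngood_inv (ngood_ofReal cD) (ofReal_ne_zero.2 hD0))), ?_, ?_⟩⟩
  · simp only [hp, ← hcj x.1, ha1]
  · filter_upwards [ngood_ne (f := fun z : CC => z.1) continuousAt_fst h] with z hz
    rw [← hcj z.1, ← Sg_eq (norm_pos_iff.2 hz), ha2]
  · refine Prod.ext ?_ ?_
    · simp only [hR]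
      exact norm_mul_ee_ang x.1
    · simp only [hD]
      show ((‖x.1‖ : ℝ) : ℂ) * ee (-ang x.1) * (((2 / (1 + normSq x.2) : ℝ) : ℂ) * x.2) *
        ee (ang x.1) * (((‖x.1‖ * (2 / (1 + normSq x.2)) : ℝ) : ℂ))⁻¹ = x.2
      have e1 := ee_mul_neg (ang x.1)
      have e2 : ((‖x.1‖ : ℝ) : ℂ) ≠ 0 := ofReal_ne_zero.2 hr.ne'
      have e3 : ((2 / (1 + normSq x.2) : ℝ) : ℂ) ≠ 0 := ofReal_ne_zero.2 (by positivity)
      rw [ofReal_mul]
      generalize ((2 / (1 + normSq x.2) : ℝ) : ℂ) = t at e3 ⊢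
      field_simp
      linear_combination x.2 * e1
  · filter_upwards [cR.continuousAt.eventually_ne (y := 0) (by rw [hR]; exact hr.ne'),
      cD.continuousAt.eventually_ne (y := 0) hD0] with z h1 h2
    exact ngood_back σ h1 h2

lemma ngood_lam_mu (k : Bool × Bool) {x : CC} (h : x.1 ≠ 0) :
    Comp ∞ (lam k) x (mu k) (x.1⁻¹, x.1 ^ 2 * x.2) := by
  refine ⟨fun z => (z.1⁻¹, z.1 ^ 2 * z.2), (ngood_inv contDiffAt_fst h).prodMk
    ((contDiffAt_fst.pow 2).mul contDiffAt_snd), rfl, ?_⟩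
  filter_upwards [ngood_ne (f := fun z : CC => z.1) continuousAt_fst h] with z hz
  exact (lam_mu k hz z.2).symm

lemma ngood_mu_lam (k : Bool × Bool) {x : CC} (h : x.1 ≠ 0) :
    Comp ∞ (mu k) (x.1⁻¹, x.1 ^ 2 * x.2) (lam k) x := by
  have h' : (fun z : CC => z.1) (x.1⁻¹, x.1 ^ 2 * x.2) ≠ 0 := inv_ne_zero h
  refine ⟨fun z => (z.1⁻¹, z.1 ^ 2 * z.2), (ngood_inv contDiffAt_fst h').prodMk
    ((contDiffAt_fst.pow 2).mul contDiffAt_snd), ?_, ?_⟩
  · refine Prod.ext (inv_inv _) ?_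
    simp only
    field_simp
  · filter_upwards [ngood_ne (f := fun z : CC => z.1) continuousAt_fst h'] with z hz
    rw [lam_mu k (inv_ne_zero hz), inv_inv]
    congr 1
    refine Prod.ext rfl ?_
    simp only
    field_simp

lemma ngood_st_st {σ σ' : Bool} {x y : CC} (hx : x.1 = 0) (hy : y.1 = 0)
    (e : st σ x.2 = st σ' y.2) :
    Comp ∞ (fun p : CC => Sg (p.1, st σ p.2)) x (fun p : CC => Sg (p.1, st σ' p.2)) y := by
  have key : ∀ {σ σ' : Bool}, x.2 ≠ 0 → y.2 = (conj x.2)⁻¹ →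
      (∀ b : ℂ, b ≠ 0 → st σ' (conj b)⁻¹ = st σ b) →
      Comp ∞ (fun p : CC => Sg (p.1, st σ p.2)) x (fun p : CC => Sg (p.1, st σ' p.2)) y := by
    intro σ σ' h1 h2 h3
    refine ⟨fun z => (z.1, (conj z.2)⁻¹), contDiffAt_fst.prodMk
      (ngood_inv (ngood_conj contDiffAt_snd) (by simpa using h1)),
      Prod.ext (hx.trans hy.symm) h2.symm, ?_⟩
    filter_upwards [ngood_ne (f := fun z : CC => z.2) continuousAt_snd h1] with z hz
    simp only [h3 z.2 hz]
  have same : σ = σ' → Comp ∞ (fun p : CC => Sg (p.1, st σ p.2)) x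
      (fun p : CC => Sg (p.1, st σ' p.2)) y := by
    rintro rfl
    obtain rfl : x = y := Prod.ext (hx.trans hy.symm) (st_inj σ e)
    exact .refl _ _
  cases σ <;> cases σ'
  · exact same rfl
  · obtain ⟨h1, h2⟩ := st_eq_iff.1 e.symm
    refine key (by rw [h2]; simpa using h1) (by rw [h2]; simp) fun b hb => ?_
    exact st_eq_iff.2 ⟨by simpa using hb, by simp⟩
  · obtain ⟨h1, h2⟩ := st_eq_iff.1 e
    exact key h1 h2 fun b hb => (st_eq_iff.2 ⟨hb, rfl⟩).symm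
  · exact same rfl

/-- A point of a chart is regular or lies over an exceptional sphere or over the belt sphere. -/
lemma ngood_cases (a : NA) {x : CC} (hx : x ∈ NP.dom a) : NReg (NP.map a) x ∨
    (∃ k l, (a = .l k ∨ a = .m k) ∧ NP.map a x = .e k l) ∨
    ∃ σ, a = .s σ ∧ x.1 = 0 ∧ NP.map a x = .s (st σ x.2) := by
  cases a with
  | k => exact .inl (nreg_kap hx)
  | l k =>
    by_cases h : x.2 = 0
    · exact .inr (.inl ⟨k, _, .inl rfl, if_pos h⟩)
    · exact .inl (nreg_lam k h)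
  | m k =>
    by_cases h : x.2 = 0
    · exact .inr (.inl ⟨k, _, .inr rfl, if_pos h⟩)
    · exact .inl (nreg_mu k hx h)
  | s σ =>
    by_cases h : x.1 = 0
    · exact .inr (.inr ⟨σ, rfl, h, if_pos h⟩)
    · exact .inl (nreg_Sg σ hx h)

lemma ngood_opn (a : NA) : IsOpen (NP.dom a) := by
  cases a with
  | k => exact isOpen_domK
  | l k => exact isOpen_domL
  | m k => exact isOpen_domM
  | s σ =>
    exact isOpen_domS.preimage (continuous_fst.prodMk ((continuous_st σ).comp continuous_snd))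

lemma ngood_inj_kap {z : CC} (hz : z ∈ domK) : ∃ V ∈ 𝓝 z, InjOn kap V := by
  obtain ⟨δ, hδ, hb⟩ := Metric.isOpen_iff.1 isOpen_domK z hz
  have hs : Metric.ball z (min δ (1 / 4)) ⊆ domK :=
    (Metric.ball_subset_ball (min_le_left _ _)).trans hb
  refine ⟨Metric.ball z (min δ (1 / 4)), Metric.ball_mem_nhds _ (by positivity),
    fun p hp q hq e => ?_⟩
  obtain ⟨ε, a, b, h0, h1, h2⟩ := (kap_eq_iff (hs hp) (hs hq)).1 e
  rcases h0 with rfl | rfl
  · have hd : dist q p < 1 := by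
      have := dist_triangle_right q p z
      have h3 := (Metric.mem_ball.1 hp).trans_le (min_le_right _ _)
      have h4 := (Metric.mem_ball.1 hq).trans_le (min_le_right _ _)
      linarith
    have hd1 : ‖(a : ℂ) + b * I‖ < 1 := by
      have h5 : dist q.1 p.1 ≤ dist q p := by rw [Prod.dist_eq]; exact le_max_left _ _
      rw [dist_eq_norm, h1] at h5
      simpa using h5.trans_lt hd
    have ha : |(a : ℝ)| < 1 := by simpa using (abs_re_le_norm _).trans_lt hd1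
    have hb' : |(b : ℝ)| < 1 := by simpa using (abs_im_le_norm _).trans_lt hd1
    have ha0 : a = 0 := Int.abs_lt_one_iff.1 (by exact_mod_cast ha)
    have hb0 : b = 0 := Int.abs_lt_one_iff.1 (by exact_mod_cast hb')
    subst ha0 hb0
    exact Prod.ext (by simpa using h1.symm) (by simpa using h2.symm)
  · exfalso
    have hm := hs ((convex_ball z _) hp hq (show (0 : ℝ) ≤ 1 / 2 by norm_num)
      (show (0 : ℝ) ≤ 1 / 2 by norm_num) (by norm_num))
    rcases hm with hm | ⟨hm, -⟩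
    · apply hm
      simp [h2]
    · apply hm a b
      simp [h1]
      ring

theorem good_N : NP.Good ∞ where
  top _ := Iff.rfl
  opn := ngood_opn
  cov n := by
    rcases n.cases with ⟨p, hp, rfl⟩ | ⟨k, l, rfl⟩ | ⟨v, rfl⟩
    · exact ⟨.k, p, hp, rfl⟩
    · cases l with
      | none => exact ⟨.m k, (0, 0), box_of_norm (by simp), mu_zero k⟩
      | some l => exact ⟨.l k, (l, 0), box_of_norm (by simp), lam_zero k l⟩
    · obtain ⟨σ, b, -, rfl⟩ := exists_st v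
      exact ⟨.s σ, (0, b), show ‖(0 : ℂ)‖ * _ < _ by simp, Sg_zero _⟩
  inj a z hz := by
    have ho := (ngood_opn a).mem_nhds hz
    cases a with
    | k => exact ngood_inj_kap hz
    | l k => exact ⟨_, ho, lam_injOn k⟩
    | m k => exact ⟨_, ho, mu_injOn k⟩
    | s σ =>
      refine ⟨_, ho, fun p hp q hq e => ?_⟩
      have := Sg_injOn hp hq e
      exact Prod.ext (Prod.mk.inj this).1 (st_inj σ (Prod.mk.inj this).2)
  comp a b x hx y hy e := by
    rcases ngood_cases a hx with h | ⟨k, l, h, h1⟩ | ⟨σ, rfl, h, h1⟩ <;>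
      rcases ngood_cases b hy with h' | ⟨k', l', h', h2⟩ | ⟨σ', rfl, h', h2⟩
    · exact h.comp h' e
    · exact absurd (e.trans h2) (h.ne_e _ _)
    · exact absurd (e.trans h2) (h.ne_s _)
    · exact absurd (e.symm.trans h1) (h'.ne_e _ _)
    · have e' := h1.symm.trans (e.trans h2)
      obtain rfl : k = k' := by injection e'
      rcases h with rfl | rfl <;> rcases h' with rfl | rfl
      · obtain rfl := lam_injOn k hx hy e
        exact .refl _ _
      · obtain ⟨h3, rfl⟩ := (lam_eq_mu_iff hx hy).1 e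
        exact ngood_lam_mu k h3
      · obtain ⟨h3, rfl⟩ := (lam_eq_mu_iff hy hx).1 e.symm
        exact ngood_mu_lam k h3
      · obtain rfl := mu_injOn k hx hy e
        exact .refl _ _
    · exact absurd (h1.symm.trans (e.trans h2)) (by simp)
    · exact absurd (e.symm.trans h1) (h'.ne_s _)
    · exact absurd (h1.symm.trans (e.trans h2)) (by simp)
    · have e' := h1.symm.trans (e.trans h2)
      exact ngood_st_st h h' (by injection e')

end Pool.Agent.Lib.MP_45bb13_gt
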