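import Pool.Agent.Lib.MP_45bb13_gt.NMap
import Pool.Agent.Lib.MP_45bb13_gt.HDefs

/-! The two halves of the fixed sphere. -/

set_option linter.unusedSectionVars false

namespace Pool.Agent.Lib.MP_45bb13_gt

open Set Filter Topology Complex
open scoped ComplexConjugate

lemma nha_desc {A B C : Type*} [TopologicalSpace A] [TopologicalSpace B] [TopologicalSpace C]
    [T2Space A] [T2Space B] {K : Set A} (hK : IsCompact K) {π : A → B} (hπ : ContinuousOn π K)
    {G : A → C} (hG : ContinuousOn G K) {g : B → C} (h : ∀ a ∈ K, g (π a) = G a) :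
    ContinuousOn g (π '' K) := by
  refine continuousOn_iff_isClosed.2 fun t ht => ⟨π '' (K ∩ G ⁻¹' t), ((hK.of_isClosed_subset
    (hG.preimage_isClosed_of_isClosed hK.isClosed ht) inter_subset_left).image_of_continuousOn
    (hπ.mono inter_subset_left)).isClosed, ?_⟩
  ext y
  constructor
  · rintro ⟨h1, a, ha, rfl⟩
    exact ⟨⟨a, ⟨ha, by rwa [mem_preimage, h a ha] at h1⟩, rfl⟩, a, ha, rfl⟩
  · rintro ⟨⟨a, ha, rfl⟩, h2⟩
    exact ⟨by rw [mem_preimage, h a ha.1]; exact ha.2, h2⟩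

open Classical in
/-- The section before descent. -/
noncomputable def nhaG (b : Bool) (m : ℝ) (u : ℂ) : N :=
  if Complex.sin (2 * Real.pi * u) ≠ 0 then
    kap (u0 (false, b) + u, m * Complex.sin (2 * Real.pi * u))
  else if Complex.cos (2 * Real.pi * u) = 1 then mu (false, b) (2 * Real.pi * m, 0)
  else mu (true, b) (-(2 * Real.pi * m), 0)

lemma nha_pi : (Real.pi : ℂ) ≠ 0 := ofReal_ne_zero.2 Real.pi_ne_zero

lemma nha_cos {u u' : ℂ} (h : Complex.cos (2 * Real.pi * u) = Complex.cos (2 * Real.pi * u')) :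
    ∃ n : ℤ, u' = u + n ∨ u' = -u + n := by
  obtain ⟨n, h⟩ := Complex.cos_eq_cos_iff.1 h
  refine ⟨n, h.imp (fun h => ?_) fun h => ?_⟩ <;>
  · refine mul_left_cancel₀ (mul_ne_zero two_ne_zero nha_pi) ?_
    linear_combination h

lemma nha_inv (b : Bool) (m : ℝ) {u u' : ℂ}
    (h : Complex.cos (2 * Real.pi * u) = Complex.cos (2 * Real.pi * u')) :
    nhaG b m u = nhaG b m u' := by
  obtain ⟨n, e | e⟩ := nha_cos h
  · have : Complex.sin (2 * Real.pi * u') = Complex.sin (2 * Real.pi * u) := by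
      rw [e, mul_add, mul_comm _ (n : ℂ), Complex.sin_add_int_mul_two_pi]
    simp only [nhaG, h, this]
    rw [kap_congr (q := (u0 (false, b) + u', m * Complex.sin (2 * Real.pi * u)))
      ⟨1, n, 0, .inl rfl, by simp [e, add_assoc], by simp⟩]
  · have : Complex.sin (2 * Real.pi * u') = -Complex.sin (2 * Real.pi * u) := by
      rw [e, mul_add, mul_comm _ (n : ℂ), Complex.sin_add_int_mul_two_pi, mul_neg, Complex.sin_neg]
    simp only [nhaG, h, this, ne_eq, neg_eq_zero]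
    rw [kap_congr (q := (u0 (false, b) + u', m * -Complex.sin (2 * Real.pi * u)))
      ⟨-1, n, if b then 1 else 0, .inr rfl, ?_, by simp⟩]
    rw [e]
    cases b <;> apply Complex.ext <;> simp [u0]
    ring

lemma nha_zero {u : ℂ} : Complex.sin (2 * Real.pi * u) = 0 ↔ ∃ n : ℤ, 2 * u = n := by
  rw [Complex.sin_eq_zero_iff]
  refine exists_congr fun n => ⟨fun h => mul_left_cancel₀ nha_pi ?_, fun h => ?_⟩
  · linear_combination h
  · linear_combination Real.pi * h

lemma nha_domK (b : Bool) {u : ℂ} (h : |u.im| ≤ 1 / 8) (h0 : Complex.sin (2 * Real.pi * u) ≠ 0)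
    (w : ℂ) : (u0 (false, b) + u, w) ∈ domK := by
  obtain ⟨c, d, h1, h2⟩ := neqa_u0 (false, b)
  obtain ⟨h3, h4⟩ := abs_le.1 h
  refine .inr ⟨fun x y e => h0 (nha_zero.2 ⟨x - c, ?_⟩), fun y e => ?_⟩
  · have e1 := congrArg re e
    have e2 := congrArg im e
    simp at e1 e2
    have := neqa_int (a := y - d) (by push_cast; linarith) (by push_cast; linarith)
    have : (y : ℝ) = d := by exact_mod_cast sub_eq_zero.1 this
    apply Complex.ext <;> simp <;> linarith
  · simp only [add_im] at e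
    have := neqa_int (a := 2 * y + 1 - 2 * d) (by push_cast; linarith) (by push_cast; linarith)
    omega

/-- The difference quotient of the sine. -/
noncomputable def nhaS : ℂ → ℂ := dslope (fun u => Complex.sin (2 * Real.pi * u)) 0

lemma nhaS_cont : ContinuousAt nhaS 0 := continuousAt_dslope_same.2 (by fun_prop)

lemma nhaS_zero : nhaS 0 = 2 * Real.pi := by
  rw [nhaS, dslope_same]
  simpa using (((hasDerivAt_id (0 : ℂ)).const_mul (2 * Real.pi : ℂ)).csin).deriv

lemma nhaS_mul (u : ℂ) : nhaS u * u = Complex.sin (2 * Real.pi * u) := by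
  rw [mul_comm]
  simpa [nhaS] using sub_smul_dslope (fun u => Complex.sin (2 * Real.pi * u)) 0 u

lemma nha_ne {v : ℂ} (h : ‖v‖ < 1 / 2) (h0 : v ≠ 0) : Complex.sin (2 * Real.pi * v) ≠ 0 := fun e => by
  obtain ⟨n, e⟩ := nha_zero.1 e
  have := abs_lt.1 ((abs_re_le_norm v).trans_lt h)
  have e1 := congrArg re e
  simp at e1
  rw [neqa_int (a := n) (by linarith) (by linarith)] at e
  exact h0 (by simpa using e)

lemma nha_near0 (b : Bool) (m : ℝ) {v : ℂ} (h : ‖v‖ < 1 / 2) :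
    nhaG b m v = mu (false, b) (m * nhaS v, v ^ 2) := by
  by_cases h0 : v = 0
  · simp [h0, nhaG, nhaS_zero, mul_comm]
  · rw [nhaG, if_pos (nha_ne h h0), mu_eq _ _ h0, mul_assoc (m : ℂ), nhaS_mul]

lemma nha_near1 (b : Bool) (m : ℝ) {v : ℂ} (h : ‖v‖ < 1 / 2) :
    nhaG b m (v + 1 / 2) = mu (true, b) (-(m * nhaS v), v ^ 2) := by
  have e : 2 * Real.pi * (v + 1 / 2) = 2 * Real.pi * v + Real.pi := by ring
  rw [nhaG, e, Complex.sin_add_pi, Complex.cos_add_pi]
  by_cases h0 : v = 0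
  · have : (-1 : ℂ) ≠ 1 := by norm_num
    simp [h0, nhaS_zero, mul_comm, this]
  · rw [if_pos (neg_ne_zero.2 (nha_ne h h0)), mu_eq _ _ h0, neg_mul, mul_assoc (m : ℂ), nhaS_mul,
      mul_neg]
    congr 2
    apply Complex.ext <;> simp [u0]
    ring

/-- The fundamental rectangle. -/
def nhaK : Set ℂ := Icc 0 (1 / 2) ×ℂ Icc (-(1 / 8)) (1 / 8)

lemma nha_cont (b : Bool) {u : ℂ} (hu : u ∈ nhaK) (m : ℝ) :
    ContinuousAt (fun q : ℂ × ℝ => nhaG b q.2 q.1) (u, m) := by
  have hb : ∀ w : ℂ, (w, (0 : ℂ)) ∈ domM := fun w => box_of_norm (by simp)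
  have hS : ∀ {f : ℂ × ℝ → ℂ}, ContinuousAt f (u, m) → f (u, m) = 0 →
      ContinuousAt (fun q => nhaS (f q)) (u, m) := fun h e =>
    ContinuousAt.comp (by rw [e]; exact nhaS_cont) h
  by_cases h0 : Complex.sin (2 * Real.pi * u) = 0
  · obtain ⟨n, e⟩ := nha_zero.1 h0
    have e1 := congrArg re e
    simp at e1
    have : n = 0 ∨ n = 1 := by
      have h1 : (0 : ℝ) ≤ n := by linarith [hu.1.1]
      have h2 : (n : ℝ) ≤ 1 := by linarith [hu.1.2]
      norm_cast at h1 h2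
      omega
    rcases this with rfl | rfl
    · obtain rfl : u = 0 := by simpa using e
      have := hS continuousAt_fst rfl
      refine (ContinuousAt.comp (g := mu (false, b)) (f := fun q : ℂ × ℝ =>
        (q.2 * nhaS q.1, q.1 ^ 2)) ((lo_mu _).continuousAt (by simpa using hb _))
        (by fun_prop)).congr ?_
      filter_upwards [continuousAt_fst.norm.eventually_lt_const (u := 1 / 2) (by simp)] with q hq
      exact (nha_near0 b _ hq).symm
    · obtain rfl : u = 1 / 2 := by linear_combination (norm := (push_cast; ring1)) e / 2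
      have := hS (f := fun q => q.1 - 1 / 2) (by fun_prop) (sub_self _)
      refine (ContinuousAt.comp (g := mu (true, b)) (f := fun q : ℂ × ℝ =>
        (-(q.2 * nhaS (q.1 - 1 / 2)), (q.1 - 1 / 2) ^ 2))
        ((lo_mu _).continuousAt (by simpa using hb _)) (by fun_prop)).congr ?_
      filter_upwards [(continuousAt_fst.sub (continuousAt_const (y := (1 / 2 : ℂ)))).norm
        |>.eventually_lt_const (u := 1 / 2) (by simp)] with q hq
      simpa using (nha_near1 b _ hq).symm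
  · refine (ContinuousAt.comp (g := kap) (f := fun q : ℂ × ℝ =>
      (u0 (false, b) + q.1, q.2 * Complex.sin (2 * Real.pi * q.1)))
      (lo_kap.continuousAt (nha_domK b (abs_le.2 hu.2) h0 _)) (by fun_prop)).congr ?_
    filter_upwards [(by fun_prop : ContinuousAt (fun q : ℂ × ℝ => Complex.sin (2 * Real.pi * q.1))
      (u, m)).eventually_ne h0] with q hq
    exact (if_pos hq).symm

/-- The linear map from the disc onto the filled ellipse. -/
noncomputable def nhaL (z : ℝ) (x : ℂ) : ℂ :=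
  ⟨Real.cosh (2 * Real.pi * z) * x.re, -(Real.sinh (2 * Real.pi * z) * x.im)⟩

lemma nha_cos_eq (u : ℂ) : Complex.cos (2 * Real.pi * u) = nhaL u.im (ee u.re) := by
  have : 2 * Real.pi * u = (2 * Real.pi * u.re : ℝ) + (2 * Real.pi * u.im : ℝ) * I := by
    apply Complex.ext <;> simp
  have e : ee u.re = Real.cos (2 * Real.pi * u.re) + Real.sin (2 * Real.pi * u.re) * I := by
    rw [ee, ofReal_cos, ofReal_sin, ← exp_mul_I]
    push_cast
    rfl
  rw [this, Complex.cos_add_mul_I, e, ← ofReal_cos, ← ofReal_sin, ← ofReal_cosh, ← ofReal_sinh]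
  apply Complex.ext <;> simp only [nhaL, sub_re, mul_re, ofReal_re, ofReal_im, I_re, I_im, add_re,
    sub_im, mul_im, add_im] <;> ring

lemma nha_im {z : ℝ} (hz : |z| = 1 / 8) {x u : ℂ} (hx : x ∈ D1)
    (h : Complex.cos (2 * Real.pi * u) = nhaL z x) : |u.im| ≤ 1 / 8 := by
  by_contra hn
  have h0 : |2 * Real.pi * z| < |2 * Real.pi * u.im| := by
    rw [abs_mul _ z, abs_mul _ u.im]
    exact mul_lt_mul_of_pos_left (hz ▸ not_le.1 hn) (abs_pos.2 (by positivity))
  have h1 := Real.cosh_lt_cosh.2 h0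
  have z0 : Real.sinh (2 * Real.pi * z) ≠ 0 := Real.sinh_ne_zero.2
    (mul_ne_zero (by positivity) fun e => by norm_num [e] at hz)
  rw [nha_cos_eq] at h
  have e1 := congrArg re h
  have e2 := congrArg im h
  simp only [nhaL, neg_inj] at e1 e2
  have n1 : (ee u.re).re ^ 2 + (ee u.re).im ^ 2 = 1 := by
    have : ‖ee u.re‖ = 1 := by
      rw [ee]
      exact_mod_cast norm_exp_ofReal_mul_I (2 * Real.pi * u.re)
    rw [sq, sq, ← normSq_apply, normSq_eq_norm_sq, this, one_pow]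
  have n2 : x.re ^ 2 + x.im ^ 2 ≤ 1 := by
    rw [sq, sq, ← normSq_apply, normSq_eq_norm_sq]
    exact pow_le_one₀ (norm_nonneg _) (mem_closedBall_zero_iff.1 hx)
  have c0 := Real.cosh_pos (2 * Real.pi * z)
  have c1 := Real.cosh_sq (2 * Real.pi * z)
  have c2 := Real.cosh_sq (2 * Real.pi * u.im)
  have s0 := sq_pos_of_ne_zero z0
  generalize Real.cosh (2 * Real.pi * z) = C at *
  generalize Real.cosh (2 * Real.pi * u.im) = C' at *
  generalize Real.sinh (2 * Real.pi * z) = S at *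
  generalize Real.sinh (2 * Real.pi * u.im) = S' at *
  generalize (ee u.re).re = p at *
  generalize (ee u.re).im = q at *
  have d : C ^ 2 < C' ^ 2 := by nlinarith
  have f1 : C' ^ 2 * p ^ 2 = C ^ 2 * x.re ^ 2 := by rw [← mul_pow, e1, mul_pow]
  have f2 : S' ^ 2 * q ^ 2 = S ^ 2 * x.im ^ 2 := by rw [← mul_pow, e2, mul_pow]
  have g1 : (C' ^ 2 - C ^ 2) * p ^ 2 = C ^ 2 * (x.re ^ 2 - p ^ 2) := by linarith
  have g2 : (C' ^ 2 - C ^ 2) * q ^ 2 = S ^ 2 * (x.im ^ 2 - q ^ 2) := by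
    linear_combination f2 + q ^ 2 * c2 - q ^ 2 * c1
  have k1 : 0 ≤ x.re ^ 2 - p ^ 2 := (mul_nonneg_iff_of_pos_left (sq_pos_of_pos c0)).1
    (g1 ▸ mul_nonneg (sub_pos.2 d).le (sq_nonneg p))
  have k2 : 0 ≤ x.im ^ 2 - q ^ 2 := (mul_nonneg_iff_of_pos_left s0).1
    (g2 ▸ mul_nonneg (sub_pos.2 d).le (sq_nonneg q))
  rw [show x.re ^ 2 - p ^ 2 = 0 by linarith] at g1
  rw [show x.im ^ 2 - q ^ 2 = 0 by linarith] at g2
  nlinarith

lemma nha_red {u : ℂ} (h : |u.im| ≤ 1 / 8) :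
    ∃ v ∈ nhaK, Complex.cos (2 * Real.pi * v) = Complex.cos (2 * Real.pi * u) := by
  have e : Complex.cos (2 * Real.pi * (u - round u.re)) = Complex.cos (2 * Real.pi * u) := by
    rw [mul_sub, mul_comm _ (round u.re : ℂ), Complex.cos_sub_int_mul_two_pi]
  obtain ⟨h1, h2⟩ := abs_le.1 (abs_sub_round u.re)
  obtain ⟨h3, h4⟩ := abs_le.1 h
  rcases le_total 0 (u.re - round u.re) with h0 | h0
  · exact ⟨_, ⟨⟨by simpa using h0, by simpa using h2⟩, by simpa using h3, by simpa using h4⟩, e⟩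
  · refine ⟨-(u - round u.re), ⟨⟨?_, ?_⟩, ?_, ?_⟩, by rw [mul_neg, Complex.cos_neg, e]⟩ <;>
      simp <;> linarith

/-- Descent along `u ↦ cos (2 π u)`: the sections `w = m sin (2 π u)` over the half spheres. -/
theorem exists_half (b : Bool) : ∃ g : ℝ → ℂ → N,
    ContinuousOn (fun q : ℂ × ℝ => g q.2 q.1) (D1 ×ˢ Icc 0 1) ∧ (∀ m, ∀ x ∈ D1, ∃ u : ℂ,
      |u.im| ≤ 1 / 8 ∧ ((Complex.sin (2 * Real.pi * u) ≠ 0 ∧ (u0 (false, b) + u, (0 : ℂ)) ∈ domK ∧
        g m x = kap (u0 (false, b) + u, m * Complex.sin (2 * Real.pi * u))) ∨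
        g m x = mu (false, b) (2 * Real.pi * m, 0) ∨ g m x = mu (true, b) (-(2 * Real.pi * m), 0))) ∧
    ∀ (m t : ℝ), g m (ee t) = kap (u0 (false, b) + ⟨t, -(sgb b / 8)⟩,
      m * Complex.sin (2 * Real.pi * (⟨t, -(sgb b / 8)⟩ : ℂ))) := by
  have : ∀ y : ℂ, ∃ u : ℂ, Complex.cos (2 * Real.pi * u) = y := fun y => by
    obtain ⟨w, rfl⟩ := Complex.cos_surjective y
    exact ⟨w / (2 * Real.pi), by rw [mul_div_cancel₀ _ (mul_ne_zero two_ne_zero nha_pi)]⟩
  choose s hs using this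
  have hz : |-(sgb b / 8)| = 1 / 8 := by cases b <;> norm_num [sgb]
  refine ⟨fun m x => nhaG b m (s (nhaL (-(sgb b / 8)) x)), ?_, fun m x hx => ?_, fun m t => ?_⟩
  · have := nha_desc (K := nhaK ×ˢ Icc (0 : ℝ) 1)
      ((isCompact_Icc.reProdIm isCompact_Icc).prod isCompact_Icc)
      (π := fun q => (Complex.cos (2 * Real.pi * q.1), q.2)) (by fun_prop)
      (fun q hq => (nha_cont b hq.1 q.2).continuousWithinAt) (g := fun q => nhaG b q.2 (s q.1))
      fun q _ => nha_inv b _ (hs _)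
    refine this.comp (f := fun q : ℂ × ℝ => (nhaL (-(sgb b / 8)) q.1, q.2)) ?_ fun q hq => ?_
    · refine (Continuous.prodMk ?_ continuous_snd).continuousOn
      simp only [nhaL, mk_eq_add_mul_I]
      fun_prop
    · obtain ⟨v, hv, e⟩ := nha_red (nha_im hz hq.1 (hs _))
      exact ⟨(v, q.2), ⟨hv, hq.2⟩, Prod.ext (e.trans (hs _)) rfl⟩
  · have h := nha_im hz hx (hs _)
    refine ⟨_, h, ?_⟩
    simp only [nhaG]
    split_ifs with h1 h2
    exacts [.inl ⟨h1, nha_domK b h h1 _, rfl⟩, .inr (.inl rfl), .inr (.inr rfl)]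
  · refine (nha_inv b m ((hs _).trans (nha_cos_eq ⟨t, -(sgb b / 8)⟩).symm)).trans (if_pos fun e => ?_)
    obtain ⟨n, e⟩ := nha_zero.1 e
    have := congrArg im e
    cases b <;> simp [sgb] at this

end Pool.Agent.Lib.MP_45bb13_gt
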