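import Pool.Agent.Lib.MP_45bb13_gt.NGood

/-! Charts of the cap. -/

set_option linter.unusedSectionVars false

namespace Pool.Agent.Lib.MP_45bb13_gt

open Set Filter Topology Complex Pool.Agent.Shared.Sing
open scoped ComplexConjugate

lemma lo_kap : LO kap domK := good_N.lo .k

lemma lo_lam (k : Bool × Bool) : LO (lam k) domL := good_N.lo (.l k)

lemma lo_mu (k : Bool × Bool) : LO (mu k) domM := good_N.lo (.m k)

lemma locEuc_N : LocEuc (Fin 4) N := good_N.locEuc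

lemma nmap_sgb_sq (σ : Bool) : sgb σ * sgb σ = 1 := by
  unfold sgb; split_ifs <;> norm_num

lemma nmap_sph (σ : Bool) (s : S2) :
    normSq s.1.2 = (1 - sgb σ * s.1.1) * (1 + sgb σ * s.1.1) := by
  have h := s.2
  have h' := nmap_sgb_sq σ
  linear_combination h + s.1.1 ^ 2 * h'

lemma lo_st (σ : Bool) : LO (st σ) univ := by
  have h' := nmap_sgb_sq σ
  have key : ∀ b : ℂ, 1 + sgb σ * (st σ b).1.1 = 2 / (1 + normSq b) := by
    intro b
    have h : 1 + normSq b ≠ 0 := by have := normSq_nonneg b; positivity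
    show 1 + sgb σ * (sgb σ * ((1 - normSq b) / (1 + normSq b))) = _
    rw [← mul_assoc, h']
    field_simp
    ring
  have hc : Continuous fun s : S2 => 1 + sgb σ * s.1.1 := by fun_prop
  refine lo_of_inverse (g := fun s : S2 => s.1.2 / ((1 + sgb σ * s.1.1 : ℝ) : ℂ))
    (U := {s | 1 + sgb σ * s.1.1 ≠ 0}) isOpen_univ (isOpen_ne_fun hc continuous_const)
    (continuous_st σ).continuousOn ?_ (fun b _ => ?_) (mapsTo_univ _ _) (fun b _ => ?_)
    (fun s hs => ?_)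
  · refine ContinuousOn.div (by fun_prop) (continuous_ofReal.comp hc).continuousOn fun s hs => ?_
    exact ofReal_ne_zero.2 hs
  · show 1 + sgb σ * (st σ b).1.1 ≠ 0
    rw [key]
    have := normSq_nonneg b
    positivity
  · show (st σ b).1.2 / ((1 + sgb σ * (st σ b).1.1 : ℝ) : ℂ) = b
    rw [key]
    have h : (2 / (1 + normSq b) : ℝ) ≠ 0 := by have := normSq_nonneg b; positivity
    exact mul_div_cancel_left₀ b (ofReal_ne_zero.2 h)
  · have hs' : 1 + sgb σ * s.1.1 ≠ 0 := hs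
    have h1 : normSq (s.1.2 / ((1 + sgb σ * s.1.1 : ℝ) : ℂ)) =
        (1 - sgb σ * s.1.1) / (1 + sgb σ * s.1.1) := by
      rw [map_div₀, normSq_ofReal, nmap_sph σ s]
      field_simp
    have h2 : 1 + (1 - sgb σ * s.1.1) / (1 + sgb σ * s.1.1) = 2 / (1 + sgb σ * s.1.1) := by
      field_simp
      ring
    refine Subtype.ext (Prod.ext ?_ ?_)
    · show sgb σ * ((1 - normSq _) / (1 + normSq _)) = s.1.1
      rw [h1, h2]
      field_simp
      linear_combination 2 * s.1.1 * h'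
    · show ((2 / (1 + normSq _) : ℝ) : ℂ) * _ = s.1.2
      rw [h1, h2]
      have h3 : (2 / (2 / (1 + sgb σ * s.1.1)) : ℝ) = 1 + sgb σ * s.1.1 := by field_simp
      rw [h3]
      exact mul_div_cancel₀ _ (ofReal_ne_zero.2 hs')

lemma lo_Sg : LO Sg domS := by
  refine lo_of_local fun q hq => ?_
  obtain ⟨σ, b, -, hb⟩ := exists_st q.2
  have h1 : LO (Prod.map id (st σ)) (NP.dom (.s σ)) :=
    ((lo_id isOpen_univ).prod (lo_st σ)).mono (good_N.opn _) fun _ _ => ⟨trivial, trivial⟩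
  have h2 : (q.1, st σ b) = q := by rw [← hb]
  refine ⟨Prod.map id (st σ) '' NP.dom (.s σ), ⟨(q.1, b), ?_, h2⟩, ?_,
    h1.of_comp (good_N.lo (.s σ))⟩
  · show (q.1, st σ b) ∈ domS
    rwa [h2]
  · rintro _ ⟨p, hp, rfl⟩
    exact hp

lemma nmap_lo_gn (σ : Bool) :
    LO (fun p : CC => (((√(1 + normSq p.2) : ℝ) : ℂ) * p.1, gn σ p.2)) univ := by
  have h' := nmap_sgb_sq σ
  have pos : ∀ m : ℂ, 0 < √(1 + normSq m) := fun m =>
    Real.sqrt_pos.2 (by have := normSq_nonneg m; positivity)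
  have key : ∀ m : ℂ, sgb σ * (gn σ m).1.1 = 1 / √(1 + normSq m) := by
    intro m
    show sgb σ * (sgb σ / √(1 + normSq m)) = _
    rw [← mul_div_assoc, h']
  have hc : Continuous fun q : ℂ × S2 => sgb σ * q.2.1.1 := by fun_prop
  have hn := continuous_normSq
  refine lo_of_inverse (g := fun q : ℂ × S2 =>
      (((sgb σ * q.2.1.1 : ℝ) : ℂ) * q.1, q.2.1.2 / ((sgb σ * q.2.1.1 : ℝ) : ℂ)))
    (U := {q | 0 < sgb σ * q.2.1.1}) isOpen_univ (isOpen_lt continuous_const hc)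
    (Continuous.continuousOn ?_) ?_ (fun p _ => ?_) (mapsTo_univ _ _) (fun p _ => ?_)
    (fun q hq => ?_)
  · exact Continuous.prodMk (by fun_prop) ((continuous_gn σ).comp continuous_snd)
  · refine ContinuousOn.prodMk (by fun_prop) ?_
    refine ContinuousOn.div (by fun_prop) (continuous_ofReal.comp hc).continuousOn fun q hq => ?_
    exact ofReal_ne_zero.2 (ne_of_gt hq)
  · show 0 < sgb σ * (gn σ p.2).1.1
    rw [key]
    exact one_div_pos.2 (pos _)
  · have h1 : ((√(1 + normSq p.2) : ℝ) : ℂ) ≠ 0 := ofReal_ne_zero.2 (pos _).ne'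
    refine Prod.ext ?_ ?_
    · show ((sgb σ * (gn σ p.2).1.1 : ℝ) : ℂ) * (_ * p.1) = p.1
      rw [key, ofReal_div, ofReal_one]
      field_simp
    · show (gn σ p.2).1.2 / ((sgb σ * (gn σ p.2).1.1 : ℝ) : ℂ) = p.2
      rw [key]
      exact mul_div_cancel_left₀ p.2 (ofReal_ne_zero.2 (one_div_pos.2 (pos _)).ne')
  · have hq' : 0 < sgb σ * q.2.1.1 := hq
    have h0 : ((sgb σ * q.2.1.1 : ℝ) : ℂ) ≠ 0 := ofReal_ne_zero.2 hq'.ne'
    have h1 : √(1 + normSq (q.2.1.2 / ((sgb σ * q.2.1.1 : ℝ) : ℂ))) = (sgb σ * q.2.1.1)⁻¹ := by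
      rw [map_div₀, normSq_ofReal, nmap_sph σ q.2, Real.sqrt_eq_iff_mul_self_eq
        (by have := normSq_nonneg q.2.1.2; rw [← nmap_sph σ q.2]; positivity) (by positivity)]
      generalize sgb σ * q.2.1.1 = a at hq'
      field_simp
      ring
    refine Prod.ext ?_ (Subtype.ext (Prod.ext ?_ ?_))
    · show ((√(1 + normSq _) : ℝ) : ℂ) * (_ * q.1) = q.1
      rw [h1, ofReal_inv, inv_mul_cancel_left₀ h0]
    · show sgb σ / √(1 + normSq _) = q.2.1.1
      rw [h1, div_inv_eq_mul, ← mul_assoc, h', one_mul]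
    · show ((1 / √(1 + normSq _) : ℝ) : ℂ) * _ = q.2.1.2
      rw [h1, one_div, inv_inv]
      exact mul_div_cancel₀ _ h0

lemma lo_hs (σ : Bool) : LO (hs σ) {p | ‖p.1‖ < 1 / 4} := by
  refine lo_Sg.comp ((nmap_lo_gn σ).mono (isOpen_lt (by fun_prop) continuous_const)
    (subset_univ _)) fun p hp => ?_
  have pos : 0 < √(1 + normSq p.2) := Real.sqrt_pos.2 (by have := normSq_nonneg p.2; positivity)
  have h1 : |sgb σ| = 1 := by unfold sgb; split_ifs <;> norm_num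
  show ‖((√(1 + normSq p.2) : ℝ) : ℂ) * p.1‖ * |sgb σ / √(1 + normSq p.2)| < 1 / 4
  rw [norm_mul, norm_real, Real.norm_of_nonneg pos.le, abs_div, h1, abs_of_pos pos]
  have h2 : √(1 + normSq p.2) * ‖p.1‖ * (1 / √(1 + normSq p.2)) = ‖p.1‖ := by field_simp
  rw [h2]
  exact hp

lemma isOpen_Vk (k : Bool × Bool) : IsOpen (Vk k) :=
  ((lo_lam k).isOpen_image isOpen_domL subset_rfl).union
    ((lo_mu k).isOpen_image isOpen_domM subset_rfl)

lemma isOpen_Ms : IsOpen Ms := lo_Sg.isOpen_image isOpen_domS subset_rfl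

theorem continuous_wabs : Continuous wabs := by
  refine continuousOn_univ.1 (good_N.continuousOn fun a x _ _ => Continuous.continuousAt ?_)
  cases a with
  | k =>
    have h : wabs ∘ NP.map .k = fun p => ‖p.2‖ := funext wabs_kap
    rw [h]
    fun_prop
  | l k =>
    have h : wabs ∘ NP.map (.l k) = fun p => √‖p.2‖ := funext fun p => by
      rw [← wabs_lam k p, Real.sqrt_sq (wabs_nonneg _)]
      rfl
    rw [h]
    fun_prop
  | m k =>
    have h : wabs ∘ NP.map (.m k) = fun p => √(‖p.1‖ ^ 2 * ‖p.2‖) := funext fun p => by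
      rw [← wabs_mu k p, Real.sqrt_sq (wabs_nonneg _)]
      rfl
    rw [h]
    fun_prop
  | s σ =>
    have h : wabs ∘ NP.map (.s σ) = fun p => ‖p.1‖ * ‖(st σ p.2).1.2‖ :=
      funext fun p => wabs_Sg _ _
    rw [h]
    exact continuous_fst.norm.mul
      (continuous_subtype_val.comp ((continuous_st σ).comp continuous_snd)).snd.norm

lemma isOpen_Nr (r : ℝ) : IsOpen (Nr r) := isOpen_lt continuous_wabs continuous_const

lemma isOpen_Wr (r : ℝ) : IsOpen (Wr r) :=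
  (isOpen_lt continuous_const continuous_wabs).inter (isOpen_lt continuous_wabs continuous_const)

lemma nmap_lo_pw : LO pw {q | 0 < q.2.1} := by
  have h1 : LO (fun q : ℝ × ℝ => (q.1, q.2 / 2)) {q | 0 < q.1} := by
    refine (lo_of_inverse (g := fun q : ℝ × ℝ => (q.1, q.2 * 2)) (U := univ) isOpen_univ
      isOpen_univ (by fun_prop) (by fun_prop) (mapsTo_univ _ _) (mapsTo_univ _ _)
      (fun q _ => by simp) (fun q _ => by simp)).mono
      (isOpen_lt continuous_const continuous_fst) (subset_univ _)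
  have h2 := (lo_id (E := ℂ) isOpen_univ).prod (lo_pol.comp h1 fun q hq => hq)
  exact h2.mono (isOpen_lt continuous_const (by fun_prop)) fun q hq => ⟨trivial, hq⟩

lemma nmap_norm_pw {q : ℂ × ℝ × ℝ} (h : 0 < q.2.1) : ‖(pw q).2‖ = q.2.1 := by
  show ‖(q.2.1 : ℂ) * ee (q.2.2 / 2)‖ = q.2.1
  rw [norm_mul, norm_ee, mul_one, norm_real, Real.norm_of_nonneg h.le]

lemma nmap_pw_domK {q : ℂ × ℝ × ℝ} (h : 0 < q.2.1) : pw q ∈ domK :=
  domK_of_ne (norm_pos_iff.1 (by rwa [nmap_norm_pw h]))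

lemma nmap_le_pw {q : ℂ × ℝ × ℝ} (h : 0 < q.2.1) : Lemb pw q := by
  have ho : IsOpen {p : ℂ × ℝ × ℝ | 0 < p.2.1 ∧ |p.2.2 - q.2.2| < 1} :=
    IsOpen.and (isOpen_lt continuous_const (by fun_prop)) (isOpen_lt (by fun_prop) continuous_const)
  refine ⟨{p | 0 < p.2.1 ∧ |p.2.2 - q.2.2| < 1}, ⟨h, by simp⟩,
    nmap_lo_pw.mono ho fun p hp => hp.1, fun p hp p' hp' e => ?_⟩
  have e1 : p.2.1 = p'.2.1 := by rw [← nmap_norm_pw hp.1, ← nmap_norm_pw hp'.1, e]
  have e2 : (p.2.1 : ℂ) * ee (p.2.2 / 2) = p'.2.1 * ee (p'.2.2 / 2) := congrArg Prod.snd e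
  rw [← e1] at e2
  obtain ⟨n, hn⟩ := ee_eq_iff.1 (mul_left_cancel₀ (ofReal_ne_zero.2 hp.1.ne') e2)
  have h1 := abs_lt.1 hp.2
  have h2 := abs_lt.1 hp'.2
  have h3 : (n : ℝ) < (1 : ℤ) := by push_cast; linarith
  have h4 : ((-1 : ℤ) : ℝ) < n := by push_cast; linarith
  have h5 : n = 0 := by have := Int.cast_lt.1 h3; have := Int.cast_lt.1 h4; omega
  rw [h5, Int.cast_zero, add_zero] at hn
  have e3 : (pw p).1 = (pw p').1 := congrArg Prod.fst e
  exact Prod.ext e3 (Prod.ext e1 (by linarith))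

lemma nmap_isOpen_OW (r : ℝ) : IsOpen (OW r) :=
  IsOpen.and (isOpen_lt continuous_const continuous_snd.fst)
    (isOpen_lt continuous_snd.fst continuous_const)

theorem covW (r : ℝ) : CovOn (SD (ℤ × ℤ)) (kap ∘ pw) (OW r) where
  lo := lo_kap.comp (nmap_lo_pw.mono (nmap_isOpen_OW r) fun _ hq => hq.1)
    fun _ hq => nmap_pw_domK hq.1
  le x hx := Lemb.comp (good_N.le (a := .k) (nmap_pw_domK hx.1)) (nmap_le_pw hx.1)
  cont := continuous_actW
  inv _ _ hx := hx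
  smul g x _ := by
    refine (kap_congr ⟨sgn g.n, g.a.1, g.a.2, sgn_eq _, ?_, ?_⟩).symm
    · rw [actW_def]
      apply Complex.ext <;> simp [pw, add_comm]
    · rw [actW_def]
      show (x.2.1 : ℂ) * ee ((x.2.2 + g.n) / 2) = sgn g.n * (x.2.1 * ee (x.2.2 / 2))
      rw [add_div, ee_add, ee_half_int]
      ring
  trans x hx y hy e := by
    have h := (kap_eq_iff (nmap_pw_domK hx.1) (nmap_pw_domK hy.1)).1 e
    have e1 : y.2.1 = x.2.1 := by rw [← nmap_norm_pw hx.1, ← nmap_norm_pw hy.1, h.norm]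
    obtain ⟨ε, a, b, hε, h1, h2⟩ := h
    have h3 : (y.2.1 : ℂ) * ee (y.2.2 / 2) = ε * (x.2.1 * ee (x.2.2 / 2)) := h2
    have h4 : y.1 = ε * x.1 + (a + b * I) := h1
    rw [e1, mul_left_comm] at h3
    have h5 := mul_left_cancel₀ (ofReal_ne_zero.2 hx.1.ne') h3
    obtain ⟨n, hn, hn'⟩ : ∃ n : ℤ, sgn n = ε ∧ y.2.2 = x.2.2 + n := by
      rcases hε with rfl | rfl
      · rw [Int.cast_one, one_mul] at h5
        obtain ⟨m, hm⟩ := ee_eq_iff.1 h5
        exact ⟨2 * m, by simp [sgn], by push_cast; linarith⟩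
      · have h6 : ee (y.2.2 / 2) = ee (x.2.2 / 2 + 1 / 2) := by
          rw [h5, ee_add, ee_half]
          push_cast
          ring
        obtain ⟨m, hm⟩ := ee_eq_iff.1 h6
        exact ⟨2 * m + 1, by simp [sgn], by push_cast; linarith⟩
    refine ⟨⟨(a, b), n⟩, ?_⟩
    rw [actW_def]
    refine Prod.ext ?_ (Prod.ext e1.symm hn'.symm)
    rw [h4, hn]
    apply Complex.ext <;> simp [add_comm]
  free g x _ e := by
    rw [actW_def] at e
    have e1 : x.2.2 + g.n = x.2.2 := congrArg (fun q : ℂ × ℝ × ℝ => q.2.2) e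
    have e2 : (g.a.1 : ℝ) + sgn g.n * x.1.re = x.1.re := congrArg (fun q : ℂ × ℝ × ℝ => q.1.re) e
    have e3 : (g.a.2 : ℝ) + sgn g.n * x.1.im = x.1.im := congrArg (fun q : ℂ × ℝ × ℝ => q.1.im) e
    have h1 : g.n = 0 := by exact_mod_cast (add_eq_left.1 e1)
    rw [h1, sgn_zero, Int.cast_one, one_mul] at e2 e3
    have h2 : g.a.1 = 0 := by exact_mod_cast (add_eq_right.1 e2)
    have h3 : g.a.2 = 0 := by exact_mod_cast (add_eq_right.1 e3)
    exact SD.ext (Prod.ext h2 h3) h1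

lemma image_OW (r : ℝ) : (kap ∘ pw) '' OW r = Wr r := by
  ext n
  constructor
  · rintro ⟨q, hq, rfl⟩
    have h : wabs ((kap ∘ pw) q) = q.2.1 := (wabs_kap _).trans (nmap_norm_pw hq.1)
    exact ⟨h ▸ hq.1, h ▸ hq.2⟩
  · intro hn
    obtain ⟨u, t, h⟩ := exists_pw hn.1
    exact ⟨(u, wabs n, t), hn, h.symm⟩

variable {r z z' : ℝ} {τ x x' : ℂ}

lemma cd_far (hr : 0 < r) (h : r ≤ ‖x‖) : cd r z τ x = kap (⟨ang x, z⟩, ‖x‖ * τ) := by
  have h0 : x ≠ 0 := norm_pos_iff.1 (hr.trans_le h)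
  have h1 : min (‖x‖ / r) 1 = 1 := min_eq_right ((one_le_div hr).2 h)
  rw [cd, if_neg h0, h1, mul_one, mul_one, add_sub_cancel]

lemma cd_pw (hr : 0 < r) {s : ℝ} (hs : 0 < s) (c t : ℝ) : cd r z (ee (t / 2)) (s * ee c) =
    kap (pw (⟨c, 1 / 4 + (z - 1 / 4) * min (s / r) 1⟩, s * min (s / r) 1, t)) := by
  have h1 : ‖(s : ℂ) * ee c‖ = s := by
    rw [norm_mul, norm_ee, mul_one, norm_real, Real.norm_of_nonneg hs.le]
  have h0 : (s : ℂ) * ee c ≠ 0 := norm_pos_iff.1 (by rwa [h1])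
  obtain ⟨n, hn⟩ := exists_ang hs c
  rw [cd, if_neg h0, h1, hn]
  refine (kap_congr ⟨1, n, 0, .inl rfl, ?_, ?_⟩).symm
  · apply Complex.ext <;> simp [pw]
  · simp [pw]

lemma wabs_cd (r z : ℝ) (τ x : ℂ) (hr : 0 < r) :
    wabs (cd r z τ x) = ‖x‖ * min (‖x‖ / r) 1 * ‖τ‖ := by
  by_cases h0 : x = 0
  · rw [cd, if_pos h0, wabs_s, h0, norm_zero, zero_mul, zero_mul]
  · rw [cd, if_neg h0, wabs_kap, norm_mul, norm_real, Real.norm_of_nonneg]
    exact mul_nonneg (norm_nonneg x) (le_min (by positivity) zero_le_one)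

lemma cd_near (hr : 0 < r) (hz : z ≠ 1 / 4) (h : ‖x‖ ≤ r) : cd r z τ x = hs (decide (1 / 4 < z))
    ((|z - 1 / 4| / r : ℝ) * x, τ / (|z - 1 / 4| : ℝ) * x) := by
  by_cases h0 : x = 0
  · rw [cd, if_pos h0, h0, mul_zero, mul_zero, hs_zero]
  have h1 : min (‖x‖ / r) 1 = ‖x‖ / r := min_eq_left ((div_le_one hr).2 h)
  have h2 : 0 < |z - 1 / 4| := abs_pos.2 (sub_ne_zero.2 hz)
  have h3 : 0 < ‖x‖ := norm_pos_iff.2 h0
  have h4 : ((|z - 1 / 4| / r : ℝ) : ℂ) * x = (|z - 1 / 4| / r * ‖x‖ : ℝ) * ee (ang x) := by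
    rw [ofReal_mul, mul_assoc, norm_mul_ee_ang]
  have h5 : sgb (decide (1 / 4 < z)) * |z - 1 / 4| = z - 1 / 4 := by
    rcases lt_or_gt_of_ne hz with h6 | h6
    · rw [decide_eq_false (not_lt.2 h6.le), abs_of_neg (sub_neg.2 h6)]
      simp [sgb]
    · rw [decide_eq_true h6, abs_of_pos (sub_pos.2 h6)]
      simp [sgb]
  rw [cd, if_neg h0, h1, h4, hs_eq _ (by positivity)]
  congr 2
  · congr 2
    linear_combination (-(‖x‖ / r)) * h5
  · have h6 := ee_mul_neg (ang x)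
    have h7 := norm_mul_ee_ang x
    have h8 : ((|z - 1 / 4| : ℝ) : ℂ) ≠ 0 := ofReal_ne_zero.2 h2.ne'
    have h9 : (r : ℂ) ≠ 0 := ofReal_ne_zero.2 hr.ne'
    simp only [ofReal_mul, ofReal_div]
    generalize ((|z - 1 / 4| : ℝ) : ℂ) = a at h8
    field_simp
    linear_combination (-(‖x‖ : ℂ) ^ 2 * τ) * h6 + (‖x‖ * τ * ee (-ang x)) * h7

theorem cd_cont (hr : 0 < r) : ContinuousOn (fun q : ℝ × ℂ × ℂ => cd r q.1 q.2.1 q.2.2)
    {q | q.1 ≠ 1 / 4 ∧ q.2.1 ≠ 0} := by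
  rintro ⟨z, τ, x⟩ ⟨hz, hτ⟩
  refine ContinuousAt.continuousWithinAt ?_
  by_cases h0 : x = 0
  · subst h0
    have h1 : ∀ᶠ q : ℝ × ℂ × ℂ in 𝓝 (z, τ, 0), q.1 ≠ 1 / 4 ∧ decide (1 / 4 < q.1) = decide (1 / 4 < z) := by
      rcases lt_or_gt_of_ne hz with h | h
      · filter_upwards [continuousAt_fst.eventually_lt continuousAt_const h] with q hq
        exact ⟨hq.ne, by rw [decide_eq_false (not_lt.2 hq.le), decide_eq_false (not_lt.2 h.le)]⟩
      · filter_upwards [continuousAt_const.eventually_lt continuousAt_fst h] with q hq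
        exact ⟨hq.ne', by rw [decide_eq_true hq, decide_eq_true h]⟩
    have h2 : ∀ᶠ q : ℝ × ℂ × ℂ in 𝓝 (z, τ, 0), ‖q.2.2‖ < r :=
      ContinuousAt.eventually_lt (by fun_prop) continuousAt_const (by simpa using hr)
    have h3 : ContinuousAt (fun q : ℝ × ℂ × ℂ => (((|q.1 - 1 / 4| / r : ℝ) * q.2.2,
        q.2.1 / (|q.1 - 1 / 4| : ℝ) * q.2.2) : CC)) (z, τ, 0) := by
      refine ContinuousAt.prodMk (by fun_prop) (ContinuousAt.mul (ContinuousAt.div (by fun_prop)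
        (by fun_prop) ?_) (by fun_prop))
      exact ofReal_ne_zero.2 (abs_pos.2 (sub_ne_zero.2 hz)).ne'
    have h4 := ((lo_hs (decide (1 / 4 < z))).continuousAt (by simp)).comp_of_eq h3
      (y := (0, 0)) (by simp)
    refine h4.congr ?_
    filter_upwards [h1, h2] with q hq hq'
    rw [cd_near hr hq.1 hq'.le, hq.2]
    rfl
  · have h1 : 0 < ‖x‖ := norm_pos_iff.2 h0
    set G : (ℝ × ℂ) × ℝ × ℝ → N := fun q => kap (⟨q.2.2, 1 / 4 + (q.1.1 - 1 / 4) * min (q.2.1 / r) 1⟩,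
      ((q.2.1 * min (q.2.1 / r) 1 : ℝ) : ℂ) * q.1.2) with hG
    have h2 : ContinuousAt G ((z, τ), ‖x‖, ang x) := by
      refine ContinuousAt.comp (g := kap) (lo_kap.continuousAt (domK_of_ne ?_)) (by fun_prop)
      exact mul_ne_zero (ofReal_ne_zero.2 (mul_pos h1 (lt_min (by positivity) one_pos)).ne') hτ
    have h3 := continuousAt_polar h1 h2 fun w s t => by
      refine (kap_congr ⟨1, 1, 0, .inl rfl, ?_, ?_⟩).symm
      · apply Complex.ext <;> simp
      · simp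
    rw [norm_mul_ee_ang] at h3
    have h4 := h3.comp_of_eq (f := fun q : ℝ × ℂ × ℂ => ((q.1, q.2.1), q.2.2)) (x := (z, τ, x))
      (by fun_prop) rfl
    refine h4.congr ?_
    have h5 : ∀ᶠ q : ℝ × ℂ × ℂ in 𝓝 (z, τ, x), q.2.2 ≠ 0 :=
      ContinuousAt.eventually_ne (by fun_prop) h0
    filter_upwards [h5] with q hq
    rw [cd, if_neg hq]
    rfl

end Pool.Agent.Lib.MP_45bb13_gt
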