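import Pool.Agent.Lib.MP_45bb13_gt.Form
import Pool.Agent.Lib.MP_45bb13_gt.Std

/-! Counting intersection points. -/

set_option linter.unusedSectionVars false

namespace Pool.Agent.Lib.MP_45bb13_gt

open Set Filter Topology Complex Pool.Agent.Shared.Sing Pool.Agent.Shared.SingEZ
open scoped ComplexConjugate

variable {X : Type} [TopologicalSpace X] [Nonempty X] [T2Space X] {F : Type} [Field F] {U : Set X}

lemma one_D {c d : C F ℂ} {A A' : Set ℂ} (hc : c ∈ Z F univ A 2) (hd : d ∈ Z F univ A' 2) :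
    D (cross c d) ∈ In F (A ×ˢ univ) 4 ⊔ In F (univ ×ˢ A') 4 := by
  rw [D_cross, e1_In hc.1 (by omega), zero_mul, zero_smul, add_zero, sg_In hc.1, map_smul,
    LinearMap.smul_apply]
  exact sub_mem (Submodule.mem_sup_left (cross_In (p := 1) (q := 2) (Z_D hc) hd.1))
    (Submodule.mem_sup_right (Submodule.smul_mem _ _ (cross_In (p := 2) (q := 1) hc.1 (Z_D hd))))

lemma one_Z {c d : C F ℂ} {A A' : Set ℂ} (hc : c ∈ Z F univ A 2) (hd : d ∈ Z F univ A' 2)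
    {W : Set CC} (h1 : A ×ˢ univ ⊆ W) (h2 : univ ×ˢ A' ⊆ W) : cross c d ∈ Z F univ W 4 :=
  ⟨cross_In' (p := 2) (q := 2) hc.1 hd.1,
    (sup_le (In_mono h1 4) (In_mono h2 4) : _ ≤ In F W 4) (one_D hc hd)⟩

theorem cross_dsk_Z {x y : ℂ} (hx : ‖x‖ < 1) (hy : ‖y‖ < 1) :
    cross (dsk F) (dsk F) ∈ Z F univ {(x, y)}ᶜ 4 :=
  one_Z (dsk_Z hx) (dsk_Z hy) (fun _ hq e => hq.1 (congrArg Prod.fst (mem_singleton_iff.1 e)))
    fun _ hq e => hq.2 (congrArg Prod.snd (mem_singleton_iff.1 e))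

lemma one_snd {e d : C F ℂ} (he : e ∈ In F univ 1) (hd : d ∈ In F univ 3) :
    map Prod.snd (cross e d) = eps e • d := by
  refine eq_In (f := map Prod.snd ∘ₗ cross.flip d) (g := eps.smulRight d)
    (fun G _ _ l hl => ?_) he
  obtain ⟨v, rfl⟩ := List.length_eq_one_iff.1 hl
  have : eps (pt F (G v)) = 1 := by simp [pt, eps]
  rw [real_one, LinearMap.comp_apply, LinearMap.flip_apply, cross_pt_left _ hd,
    map_map (A := univ) (by fun_prop) hd, LinearMap.smulRight_apply, this, one_smul]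
  exact map_self (fun _ _ => rfl) hd

theorem cross_dsk_not_B {x y : ℂ} (hx : ‖x‖ < 1) (hy : ‖y‖ < 1) :
    cross (dsk F) (dsk F) ∉ B F univ {(x, y)}ᶜ 4 := fun h => by
  obtain ⟨α, a1, a2, a3⟩ := exists_coc (dsk_not_B (F := F) hx)
  obtain ⟨β, b1, b2, b3⟩ := exists_coc (dsk_not_B (F := F) hy)
  have d1 : dsk F ∈ In F univ 3 := In_univ (dsk_In F)
  have a4 : (α ∘ₗ nu) (dsk F) = 1 := by
    have := congrArg α (D_nuT (dsk F))
    rw [map_add, a1 _ (nuT_In d1), a2 _ (nuT_In (Z_D (dsk_Z hx))), map_sub, a3] at this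
    rw [LinearMap.comp_apply]
    linear_combination this
  let ω := cup 2 ((α ∘ₗ nu) ∘ₗ map Prod.fst) (β ∘ₗ map (Prod.snd : CC → ℂ))
  have w1 : Coc univ 4 ω :=
    (a1.comp_nu.comp_map continuousOn_fst (mapsTo_univ _ _)).cup
      (b1.comp_map continuousOn_snd (mapsTo_univ _ _))
  have w2 : ω (cross (dsk F) (dsk F)) = 1 := by
    simp only [ω, cup]
    rw [LinearMap.comp_apply, cap_fst_cross (nrm_nu 2 α), LinearMap.comp_apply,
      one_snd (cap_In' (p := 2) (k := 1) _ d1) d1, eps_cap _ d1, a4, one_smul, b3]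
  obtain ⟨w, hw, hv⟩ := mem_B h
  have e : ({(x, y)}ᶜ : Set CC) = {x}ᶜ ×ˢ univ ∪ univ ×ˢ {y}ᶜ := by
    ext q
    simp [Prod.ext_iff, imp_iff_not_or]
  rw [e] at hv
  obtain ⟨w', hw', a, ha, hb⟩ := split (isOpen_compl_singleton.prod isOpen_univ)
    (isOpen_univ.prod isOpen_compl_singleton) hv
    (by rw [map_sub, D_D, sub_zero]; exact one_D (dsk_Z hx) (dsk_Z hy))
  have w3 : ω a = 0 := by
    simp only [ω, cup]
    rw [LinearMap.comp_apply, cap_eq_zero (φ := (α ∘ₗ nu) ∘ₗ map Prod.fst) (fun c hc => a2 _ (nu_In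
      (map_In (B := {x}ᶜ) continuousOn_fst (fun _ h => h.1) hc))) ha, map_zero]
  have w4 := b2 _ (map_In continuousOn_snd (fun _ h => h.2)
    (cap_In' (p := 2) (k := 3) ((α ∘ₗ nu) ∘ₗ map Prod.fst) hb))
  change ω _ = 0 at w4
  rw [map_sub, map_sub, map_sub, w1 _ hw, w1 _ (In_univ hw'), w2, w3] at w4
  simp at w4

/-- The local contribution of a standard intersection point. -/
theorem IForm.local {τ : C F (X × X) →ₗ[F] F} (h : IForm U τ) {f f' : ℂ → X} {a a' : ℂ}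
    (hs : LocStd f f' a a') (ha : f a ∈ U) : ∃ V ∈ 𝓝 (a, a'), ∀ O, IsOpen O → (a, a') ∈ O → O ⊆ V →
      ∀ c ∈ Z F O (O ∩ {(a, a')}ᶜ) 4, c ∉ B F univ {(a, a')}ᶜ 4 → τ (map (Prod.map f f') c) ≠ 0 := by
  obtain ⟨ψ, k, k', a1, a2, a3, a4, a5, a6, a7⟩ := hs
  have e0 : f a = ψ 0 := by rw [a6.self_of_nhds, a4]; rfl
  rw [e0] at ha
  obtain ⟨W, w0, wU, wl, wi⟩ := a1.shrink (a1.continuousAt.preimage_mem_nhds (h.opn.mem_nhds ha))
  obtain ⟨ε, hε, hb⟩ := Metric.isOpen_iff.1 wl.1 0 w0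
  have l1 : Lemb (Prod.map (fun x => -k x) k') (a, a') :=
    ((le_homeo (Homeomorph.neg ℂ) _).comp a2).prod a3
  have e1 : Prod.map (fun x => -k x) k' (a, a') = 0 := by simp [a4, a5]
  obtain ⟨χ, hχ, c0, -⟩ := (Lemb.comp (e1 ▸ a1) l1).oph univ_mem
  obtain ⟨W', v0, vs, vl, vi⟩ := l1.shrink
    (l1.continuousAt.preimage_mem_nhds (e1 ▸ Metric.ball_mem_nhds (0 : CC) hε))
  refine ⟨_, inter_mem (inter_mem (vl.1.mem_nhds v0) (χ.open_source.mem_nhds c0))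
    (prod_mem_nhds a6 a7), fun O hO m hV c hc hn => ?_⟩
  have k1 : ContinuousOn (fun q : CC × ℝ => Prod.map (fun x => -k x) k' q.1) (O ×ˢ Icc 0 1) :=
    vl.continuousOn.comp continuousOn_fst fun q hq => (hV hq.1).1.1
  have k2 : ContinuousOn (fun q : CC × ℝ => k q.1.1) (O ×ˢ Icc 0 1) := by
    exact k1.fst.neg.congr fun q _ => (neg_neg _).symm
  have k3 : ContinuousOn (fun q : CC × ℝ => k' q.1.2) (O ×ˢ Icc 0 1) := k1.snd
  have n1 : ∀ q ∈ O, ‖k q.1‖ < ε ∧ ‖k' q.2‖ < ε := fun q hq => by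
    have : Prod.map (fun x => -k x) k' q ∈ Metric.ball 0 ε := e1 ▸ vs (hV hq).1.1
    simpa [Prod.norm_def] using this
  have m1 : ∀ q ∈ O ×ˢ Icc (0 : ℝ) 1, (((1 - q.2 : ℝ) : ℂ) * k q.1.1, (0 : ℂ)) ∈ W := fun q hq =>
    hb (by
      have := n1 _ hq.1
      simp only [mem_ball_zero_iff, Prod.norm_def, norm_mul, norm_real, norm_zero, sup_lt_iff,
        Real.norm_of_nonneg (sub_nonneg.2 hq.2.2)]
      exact ⟨by nlinarith [hq.2.1, norm_nonneg (k q.1.1)], hε⟩)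
  have m2 : ∀ q ∈ O ×ˢ Icc (0 : ℝ) 1, (-((q.2 : ℂ) * k q.1.1), k' q.1.2) ∈ W := fun q hq =>
    hb (by
      have := n1 _ hq.1
      simp only [mem_ball_zero_iff, Prod.norm_def, norm_mul, norm_real, norm_neg, sup_lt_iff,
        Real.norm_of_nonneg hq.2.1]
      exact ⟨by nlinarith [hq.2.2, norm_nonneg (k q.1.1)], this.2⟩)
  have hH := htpy_B (H := fun q : CC × ℝ => (ψ (((1 - q.2 : ℝ) : ℂ) * k q.1.1, 0),
      ψ (-((q.2 : ℂ) * k q.1.1), k' q.1.2))) (A := U ×ˢ U) (A' := U ×ˢ U ∩ Off X)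
    ((wl.continuousOn.comp (((by fun_prop : ContinuousOn (fun q : CC × ℝ => ((1 - q.2 : ℝ) : ℂ)) _).mul
      k2).prodMk continuousOn_const) m1).prodMk (wl.continuousOn.comp
      (((by fun_prop : ContinuousOn (fun q : CC × ℝ => (q.2 : ℂ)) _).mul k2).neg.prodMk k3) m2))
    inter_subset_left (fun q hq => ⟨wU (m1 q hq), wU (m2 q hq)⟩) (fun q hq => by
      have hq' : q ∈ O ×ˢ Icc (0 : ℝ) 1 := ⟨hq.1.1, hq.2⟩
      refine ⟨⟨wU (m1 q hq'), wU (m2 q hq')⟩, fun e => hq.1.2 (vi (hV hq.1.1).1.1 v0 ?_)⟩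
      obtain ⟨e2, e3⟩ := Prod.mk.inj (wi (m1 q hq') (m2 q hq') e)
      rw [e1]
      refine Prod.ext ?_ e3.symm
      push_cast at e2
      change -k q.1.1 = 0
      linear_combination -e2) hc
  have hs : O ⊆ χ.source := fun q hq => (hV hq).1.2
  have hc' : c ∈ Z F χ.source (χ.source ∩ {(a, a')}ᶜ) 4 :=
    Z_mono hs (inter_subset_inter_left _ hs) hc
  have e2 : χ (a, a') = ψ 0 := by rw [hχ, Function.comp_apply, e1]
  have mU : MapsTo χ O U := fun q hq => by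
    rw [hχ]
    simpa [Prod.map] using wU (m2 (q, 1) ⟨hq, zero_le_one, le_rfl⟩)
  have := h.loc _ ha (map χ c) (map_Z (U := O ∩ {(a, a')}ᶜ) (χ.continuousOn.mono hs)
    inter_subset_left mU
    (fun q hq => ⟨mU hq.1, fun e => hq.2 (χ.injOn (hs hq.1) c0 (e.trans e2.symm))⟩) hc)
    (by rw [← e2, ← chart_pt χ (mem_singleton _) c0 hc']; exact hn)
  have h2 := h.apply_B hH
  rw [map_sub, sub_eq_zero] at h2
  rw [map_map (χ.continuousOn.mono hs) hc.1, map_congr (g' := fun y : CC =>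
    (ψ (((1 - 1 : ℝ) : ℂ) * k y.1, 0), ψ (-(((1 : ℝ) : ℂ) * k y.1), k' y.2)))
    (fun y _ => by simp [hχ, Prod.map]; rfl) hc.1] at this
  rw [map_congr (g' := fun y : CC =>
    (ψ (((1 - 0 : ℝ) : ℂ) * k y.1, 0), ψ (-(((0 : ℝ) : ℂ) * k y.1), k' y.2)))
    (fun y hy => Prod.ext (by simpa using (hV hy).2.1) (by simpa using (hV hy).2.2)) hc.1, ← h2]
  exact this

lemma one_retr : ∃ r : ℂ → ℂ, Continuous r ∧ (∀ x, r x ∈ D1) ∧ (∀ x ∈ D1, r x = x) ∧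
    ∀ x, ‖r x‖ < 1 → r x = x := by
  let r : ℂ → ℂ := fun x => x / (max 1 ‖x‖ : ℝ)
  have m0 : ∀ x : ℂ, 0 < max 1 ‖x‖ := fun x => lt_max_of_lt_left one_pos
  have r0 : ∀ x, ‖r x‖ = ‖x‖ / max 1 ‖x‖ := fun x => by
    simp only [r, norm_div, norm_real, Real.norm_of_nonneg (m0 x).le]
  have r3 : ∀ x ∈ D1, r x = x := fun x hx => by
    simp [r, max_eq_left (mem_closedBall_zero_iff.1 hx)]
  refine ⟨r, continuous_id.div (by fun_prop) fun x => ofReal_ne_zero.2 (m0 x).ne', fun x => ?_, r3,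
    fun x hx => ?_⟩
  · rw [mem_closedBall_zero_iff, r0, div_le_one (m0 x)]
    exact le_max_right _ _
  · rcases le_total ‖x‖ 1 with h | h
    · exact r3 x (mem_closedBall_zero_iff.2 h)
    · rw [r0, max_eq_right h, div_self (by linarith)] at hx
      exact (lt_irrefl _ hx).elim

theorem IForm.count {τ : C F (X × X) →ₗ[F] F} (h : IForm U τ) {f f' : ℂ → X}
    (hf : ContinuousOn f D1) (hf' : ContinuousOn f' D1) (mf : MapsTo f D1 U) (mf' : MapsTo f' D1 U)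
    {n : ℕ} (hm : Meets f f' n) : ∃ a : Fin n → F, (∀ i, a i ≠ 0) ∧
      τ (cross (map f (dsk F)) (map f' (dsk F))) = ∑ i, a i := by
  classical
  obtain ⟨S, rfl, h2, h3⟩ := hm
  have key : ∀ p : S, ∃ c : C F CC, c ∈ In F (D1 ×ˢ D1 ∩ (S.erase p : Set CC)ᶜ) 5 ∧
      c ∈ Z F univ (S : Set CC)ᶜ 4 ∧ cross (dsk F) (dsk F) - c ∈ B F univ {p.1}ᶜ 4 ∧
      τ (map (Prod.map f f') c) ≠ 0 := by
    rintro ⟨p, hp⟩
    obtain ⟨p1, p2, p3⟩ := h3 p hp
    obtain ⟨V, hV, hv⟩ := h.local p3 (mf (mem_closedBall_zero_iff.2 p1.le))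
    obtain ⟨O, o1, o2, o3⟩ := mem_nhds_iff.1 (inter_mem hV (inter_mem
      (prod_mem_nhds (Metric.closedBall_mem_nhds_of_mem (mem_ball_zero_iff.2 p1))
        (Metric.closedBall_mem_nhds_of_mem (mem_ball_zero_iff.2 p2)))
      ((S.erase p).finite_toSet.isClosed.isOpen_compl.mem_nhds (by simp))))
    have hz : cross (dsk F) (dsk F) ∈ Z F univ {p}ᶜ 4 := cross_dsk_Z p1 p2
    have hn : cross (dsk F) (dsk F) ∉ B F univ {p}ᶜ 4 := cross_dsk_not_B p1 p2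
    obtain ⟨c, c1, c2⟩ := exc_surj o2 isOpen_compl_singleton
      (eq_univ_of_forall fun q => by by_cases e : q = p <;> simp [e, o3]) hz
    have s1 : O ⊆ D1 ×ˢ D1 ∩ (S.erase p : Set CC)ᶜ := fun q hq => (o1 hq).2
    have s2 : O ∩ {p}ᶜ ⊆ (S : Set CC)ᶜ := fun q hq e =>
      (s1 hq.1).2 (Finset.mem_coe.2 (Finset.mem_erase.2 ⟨hq.2, e⟩))
    exact ⟨c, In_mono s1 _ c1.1, Z_mono (subset_univ _) s2 c1, c2,
      hv O o2 o3 (fun q hq => (o1 hq).1) c c1 fun e => hn ((congr_B c2).2 e)⟩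
  choose c c1 c2 c3 c4 using key
  have hG := good_mfd (R := F) locEuc_CC S.finite_toSet.isCompact
  rw [Fintype.card_fin] at hG
  have hζ : cross (dsk F) (dsk F) - ∑ p, c p ∈ B F univ (S : Set CC)ᶜ 4 := by
    refine hG.2 _ (sub_mem (one_Z (disc_Z F) (disc_Z F)
      (fun q hq e => (h3 q e).1.ne (mem_sphere_zero_iff_norm.1 hq.1))
      fun q hq e => (h3 q e).2.1.ne (mem_sphere_zero_iff_norm.1 hq.2))
      (Submodule.sum_mem _ fun p _ => c2 p)) fun q hq => ?_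
    rw [← Finset.add_sum_erase _ _ (Finset.mem_univ ⟨q, hq⟩), ← sub_sub]
    refine sub_mem (c3 ⟨q, hq⟩) (Submodule.sum_mem _ fun p hp => In_mem_B (In_mono ?_ _ (c1 p)))
    rintro _ h rfl
    exact h.2 (Finset.mem_erase.2 ⟨fun e => Finset.ne_of_mem_erase hp (Subtype.ext e.symm), hq⟩)
  obtain ⟨r, r1, r2, r3, r4⟩ := one_retr
  have g1 : Continuous (f ∘ r) := hf.comp_continuous r1 r2
  have g2 : Continuous (f' ∘ r) := hf'.comp_continuous r1 r2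
  have h4 := h.apply_B (map_B (U := (S : Set CC)ᶜ) (g1.prodMap g2).continuousOn (subset_univ _)
    (fun q _ => ⟨mf (r2 _), mf' (r2 _)⟩) (fun q hq => ⟨⟨mf (r2 _), mf' (r2 _)⟩, fun e => hq (by
      have := h2 _ (r2 _) _ (r2 _) e
      rwa [r4 _ (h3 _ this).1, r4 _ (h3 _ this).2.1] at this)⟩) hζ)
  rw [map_sub, map_sub, sub_eq_zero, map_cross g1 g2,
    map_congr (g := f ∘ r) (g' := f) (fun x hx => congrArg f (r3 x hx)) (dsk_In F),
    map_congr (g := f' ∘ r) (g' := f') (fun x hx => congrArg f' (r3 x hx)) (dsk_In F), map_sum,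
    map_sum] at h4
  refine ⟨fun i => τ (map (Prod.map f f') (c (S.equivFin.symm i))), fun i => c4 _, ?_⟩
  rw [h4, S.equivFin.symm.sum_comp fun p => τ (map (Prod.map f f') (c p))]
  exact Finset.sum_congr rfl fun p _ => congrArg τ (map_congr (fun q hq =>
    Prod.ext (congrArg f (r3 _ hq.1.1)) (congrArg f' (r3 _ hq.1.2))) (c1 p))

lemma BiEv.cont {f g : ℂ → X} (h : BiEv U f g) : ContinuousOn f D1 ∧ ContinuousOn g D1 ∧
    MapsTo f D1 U ∧ MapsTo g D1 U ∧ ∀ t, f (ee t) = g (ee t) := by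
  obtain ⟨f', g', h, rfl, rfl, -⟩ := h
  have z : (0 : ℝ) ∈ Icc (0 : ℝ) 1 := ⟨le_rfl, zero_le_one⟩
  exact ⟨(h.cont z).1, (h.cont z).2, h.mf 0 z, h.mg 0 z, h.bd 0 z⟩

lemma IForm.count_two {τ : C F2 (X × X) →ₗ[F2] F2} (h : IForm U τ) {f f' : ℂ → X}
    (hf : ContinuousOn f D1) (hf' : ContinuousOn f' D1) (mf : MapsTo f D1 U) (mf' : MapsTo f' D1 U)
    {n : ℕ} (hm : Meets f f' n) : τ (cross (map f (dsk F2)) (map f' (dsk F2))) = n := by
  obtain ⟨a, h1, h2⟩ := h.count hf hf' mf mf' hm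
  have : ∀ x : F2, x ≠ 0 → x = 1 := by decide
  simp [h2, this _ (h1 _)]

theorem IForm.biEv {τ : C F2 (X × X) →ₗ[F2] F2} (h : IForm U τ) {f g : ℂ → X} (hb : BiEv U f g) :
    sqi τ (bi F2 f g) = 0 := by
  obtain ⟨c1, c2, m1, m2, e⟩ := hb.cont
  obtain ⟨f', g', hb, rfl, rfl, a, b, c, d, ha, hb', hc, hd, he⟩ := hb
  have z : (1 : ℝ) ∈ Icc (0 : ℝ) 1 := ⟨zero_le_one, le_rfl⟩
  have hz := bi_Z (R := F2) c1 c2 m1 m2 e
  rw [sqi, h.congr hz hz (z' := bi F2 (f' 0) (g' 0)) (y' := bi F2 (f' 1) (g' 1)) (by simp)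
    (by simpa using neg_mem (hb.sub_mem (R := F2)))]
  simp only [bi, map_sub, LinearMap.sub_apply]
  rw [h.count_two c1 (hb.cont z).1 m1 (hb.mf 1 z) ha, h.count_two c1 (hb.cont z).2 m1 (hb.mg 1 z) hb',
    h.count_two c2 (hb.cont z).1 m2 (hb.mf 1 z) hc, h.count_two c2 (hb.cont z).2 m2 (hb.mg 1 z) hd]
  have := (ZMod.natCast_eq_zero_iff_even (n := a + b + c + d)).2 he
  push_cast at this
  linear_combination this - CharTwo.add_self_eq_zero (b : F2) - CharTwo.add_self_eq_zero (c : F2)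

end Pool.Agent.Lib.MP_45bb13_gt
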