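import Pool.Agent.Lib.MP_45bb13_gt.NPc
import Pool.Agent.Lib.MP_45bb13_gt.One

/-! The exceptional spheres and the belt sphere. -/

set_option linter.unusedSectionVars false

namespace Pool.Agent.Lib.MP_45bb13_gt

open Set Filter Topology Complex Pool.Agent.Shared.Sing Pool.Agent.Shared.SingEZ
open scoped ComplexConjugate

variable {r : ℝ} (hr : 0 < r) (k : Bool × Bool) {F : Type} [Field F]

lemma nsph_domL (x : ℂ) : ((x, 0) : CC) ∈ domL := box_of_norm (by simp)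

lemma nsph_domM (x : ℂ) : ((x, 0) : CC) ∈ domM := box_of_norm (by simp)

lemma nsph_inv (t : ℝ) : (ee t)⁻¹ = conj (ee t) :=
  inv_eq_of_mul_eq_one_right (by rw [← ee_neg, ee_mul_neg])

lemma nsph_st (t : ℝ) : st true (ee t) = st false (ee t) :=
  st_eq_iff.2 ⟨ee_ne_zero t, by rw [← nsph_inv, inv_inv]⟩

lemma nsph_S2 (s : S2) : |s.1.1| ≤ 1 ∧ ‖s.1.2‖ ≤ 1 := by
  have h := s.2
  rw [normSq_eq_norm_sq] at h
  exact ⟨(sq_le_one_iff_abs_le_one _).1 (by nlinarith [sq_nonneg ‖s.1.2‖]),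
    (sq_le_one_iff₀ (norm_nonneg _)).1 (by nlinarith [sq_nonneg s.1.1])⟩

lemma nsph_domS {x : ℂ} (h : ‖x‖ < 1 / 4) (s : S2) : (x, s) ∈ domS :=
  (mul_le_of_le_one_right (norm_nonneg x) (nsph_S2 s).1).trans_lt h

lemma nsph_eG (x : ℂ) : ∃ l, eG k x = .e k l := ⟨_, if_pos rfl⟩

lemma continuous_eF : Continuous (eF k) :=
  (lo_lam k).continuousOn.comp_continuous (f := fun x : ℂ => ((x, 0) : CC)) (by fun_prop) nsph_domL

lemma continuous_eG : Continuous (eG k) :=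
  (lo_mu k).continuousOn.comp_continuous (f := fun x : ℂ => ((conj x, 0) : CC)) (by fun_prop)
    fun _ => nsph_domM _

lemma nsph_cont_sF (σ : Bool) : Continuous (sF σ) :=
  lo_Sg.continuousOn.comp_continuous (f := fun x : ℂ => ((0 : ℂ), st σ x))
    (continuous_const.prodMk (continuous_st σ)) fun _ => nsph_domS (by simp) _

lemma eF_eG (t : ℝ) : eF k (ee t) = eG k (ee t) := by
  rw [eF, eG, lam_mu k (ee_ne_zero t), nsph_inv, mul_zero]

lemma bi_e_In : bi F (eF k) (eG k) ∈ Z F (Ek k) ∅ 2 :=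
  bi_Z (continuous_eF k).continuousOn (continuous_eG k).continuousOn
    (fun x _ => ⟨_, (lam_zero k x).symm⟩) (fun x _ => (nsph_eG k x).imp fun _ h => h.symm) (eF_eG k)

lemma nsph_small {s η : ℝ} (hs : s ∈ Icc (0 : ℝ) 1) (hη : 0 < η) {x : ℂ} (hx : ‖x‖ ≤ 1) :
    ‖((s * η : ℝ) : ℂ) * x‖ ≤ η := by
  rw [norm_mul, norm_real, Real.norm_of_nonneg (mul_nonneg hs.1 hη.le)]
  calc s * η * ‖x‖ ≤ 1 * η * 1 := by gcongr; exact hs.2
    _ = η := by ring

lemma nsph_sq {x y : ℂ} (hx : ‖x‖ ≤ 1) : ‖x‖ ^ 2 * ‖y‖ ≤ ‖y‖ :=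
  mul_le_of_le_one_left (norm_nonneg y) (pow_le_one₀ (norm_nonneg x) hx)

include hr

theorem spn_V : Spn F (Vk k ∩ Nr r) 2 {bi F (eF k) (eG k)} := by
  rw [Vk, union_inter_distrib_right]
  refine spn_sphere (((lo_lam k).isOpen_image isOpen_domL subset_rfl).inter (isOpen_Nr r))
    (((lo_mu k).isOpen_image isOpen_domM subset_rfl).inter (isOpen_Nr r))
    ((ctr_lam hr k).acy F) ((ctr_mu hr k).acy F) (continuous_eF k).continuousOn
    (continuous_eG k).continuousOn (fun x _ => ⟨⟨_, nsph_domL x, rfl⟩, ?_⟩)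
    (fun x _ => ⟨⟨_, nsph_domM _, rfl⟩, ?_⟩) (eF_eG k) (circ_lam_mu hr k).spn
  · change wabs (lam k (x, 0)) < r
    rwa [lam_zero, wabs_e]
  · obtain ⟨l, hl⟩ := nsph_eG k x
    change wabs (eG k x) < r
    rwa [hl, wabs_e]

theorem spn_M : Spn F (Ms ∩ Nr r) 2 {bi F (sF true) (sF false)} := by
  have e : Ms = (fun p : CC => Sg (p.1, st true p.2)) '' NP.dom (.s true) ∪
      (fun p : CC => Sg (p.1, st false p.2)) '' NP.dom (.s false) := by
    ext n
    constructor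
    · rintro ⟨⟨x, s⟩, hq, rfl⟩
      obtain ⟨σ, b, -, rfl⟩ := exists_st s
      cases σ
      · exact Or.inr ⟨(x, b), hq, rfl⟩
      · exact Or.inl ⟨(x, b), hq, rfl⟩
    · rintro (⟨p, hp, rfl⟩ | ⟨p, hp, rfl⟩) <;> exact ⟨_, hp, rfl⟩
  have ho : ∀ σ, IsOpen ((fun p : CC => Sg (p.1, st σ p.2)) '' NP.dom (.s σ) ∩ Nr r) := fun σ =>
    ((good_N.lo (.s σ)).isOpen_image (good_N.opn _) subset_rfl).inter (isOpen_Nr r)
  have hm : ∀ σ, MapsTo (sF σ) D1
      ((fun p : CC => Sg (p.1, st σ p.2)) '' NP.dom (.s σ) ∩ Nr r) := fun σ x _ => by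
    refine ⟨⟨(0, x), nsph_domS (by simp) _, rfl⟩, ?_⟩
    change wabs (Sg (0, st σ x)) < r
    rwa [Sg_zero, wabs_s]
  rw [e, union_inter_distrib_right]
  exact spn_sphere (ho true) (ho false) ((ctr_st hr true).acy F) ((ctr_st hr false).acy F)
    (nsph_cont_sF true).continuousOn (nsph_cont_sF false).continuousOn (hm true) (hm false)
    (fun t => by rw [sF, sF, nsph_st]) (circ_st hr).spn

theorem biEv_e : BiEv (Nr r) (eF k) (eG k) := by
  obtain ⟨η, hη, h1, h2⟩ : ∃ η : ℝ, 0 < η ∧ η < 1 / 16 ∧ η < r ^ 2 :=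
    ⟨min (1 / 32) (r ^ 2 / 2), by positivity, (min_le_left _ _).trans_lt (by norm_num),
      (min_le_right _ _).trans_lt (half_lt_self (by positivity))⟩
  have hη' : (η : ℂ) ≠ 0 := ofReal_ne_zero.2 hη.ne'
  have hc : ∀ x ∈ D1, ‖conj x‖ ≤ 1 := fun x hx => by
    rw [norm_conj]; exact mem_closedBall_zero_iff.1 hx
  have mL : ∀ s ∈ Icc (0 : ℝ) 1, ∀ x ∈ D1, ((x, ((s * η : ℝ) : ℂ) * conj x) : CC) ∈ domL :=
    fun s hs x hx => box_of_norm (by
      rw [norm_mul, norm_pow]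
      exact ((nsph_sq (mem_closedBall_zero_iff.1 hx)).trans
        (nsph_small hs hη (hc x hx))).trans_lt h1)
  have mM : ∀ s ∈ Icc (0 : ℝ) 1, ∀ x ∈ D1, ((conj x, ((s * η : ℝ) : ℂ) * x) : CC) ∈ domM :=
    fun s hs x hx => box_of_norm ((nsph_small hs hη (mem_closedBall_zero_iff.1 hx)).trans_lt h1)
  have o1 : (1 : ℝ) ∈ Icc (0 : ℝ) 1 := right_mem_Icc.2 zero_le_one
  have hd : Lemb (fun x : ℂ => ((1 * η : ℝ) : ℂ) * conj x - 0) 0 := by
    simpa only [sub_zero, one_mul] using le_conj hη' 0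
  refine ⟨fun s x => lam k (x, ((s * η : ℝ) : ℂ) * conj x),
    fun s x => mu k (conj x, ((s * η : ℝ) : ℂ) * x), ⟨?_, ?_, ?_, ?_, ?_⟩, ?_, ?_, 1, 0, 0, 1,
    meets_one (a := 0) (a' := 0) ?_ (by simp) (by simp) ?_, meets_zero ?_, meets_zero ?_,
    meets_one (a := 0) (a' := 0) ?_ (by simp) (by simp) ?_, by decide⟩
  · exact (lo_lam k).continuousOn.comp
      (f := fun q : ℂ × ℝ => ((q.1, ((q.2 * η : ℝ) : ℂ) * conj q.1) : CC)) (by fun_prop)
      fun q hq => mL _ hq.2 _ hq.1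
  · exact (lo_mu k).continuousOn.comp
      (f := fun q : ℂ × ℝ => ((conj q.1, ((q.2 * η : ℝ) : ℂ) * q.1) : CC)) (by fun_prop)
      fun q hq => mM _ hq.2 _ hq.1
  · intro s hs x hx
    refine lt_of_pow_lt_pow_left₀ 2 hr.le ?_
    rw [wabs_lam]
    exact (nsph_small hs hη (hc x hx)).trans_lt h2
  · intro s hs x hx
    refine lt_of_pow_lt_pow_left₀ 2 hr.le ?_
    rw [wabs_mu]
    exact ((nsph_sq (hc x hx)).trans
      (nsph_small hs hη (mem_closedBall_zero_iff.1 hx))).trans_lt h2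
  · intro s _ t
    have h := ee_ne_zero t
    rw [lam_mu k h, ← nsph_inv]
    congr 2
    field_simp
  · funext x
    simp [eF]
  · funext x
    simp [eG]
  · intro x _ x' hx' h
    obtain ⟨h3, h4⟩ := Prod.ext_iff.1 (lam_injOn k (nsph_domL x) (mL 1 o1 x' hx') h)
    have h5 : x' = 0 := by simpa [hη'] using h4.symm
    exact ⟨h3.trans h5, h5⟩
  · exact locStd_graph (χ := lam k) (u := fun _ => 0)
      ((lo_lam k).le (lam_injOn k) (nsph_domL 0))
      (Eventually.of_forall fun _ => continuousAt_const) (by simp) hd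
  · intro x _ x' hx' h
    obtain ⟨h3, h4⟩ := (lam_eq_mu_iff (nsph_domL x) (mM 1 o1 x' hx')).1 h
    obtain ⟨h5, h6⟩ := Prod.ext_iff.1 h4
    have h7 : x' = 0 := by simpa [hη'] using h6
    apply h3
    simpa [h7] using h5.symm
  · intro x _ x' hx' h
    obtain ⟨h3, h4⟩ := (lam_eq_mu_iff (mL 1 o1 x' hx') (nsph_domM _)).1 h.symm
    apply h3
    simpa [hη'] using (Prod.ext_iff.1 h4).2.symm
  · intro x _ x' hx' h
    obtain ⟨h3, h4⟩ := Prod.ext_iff.1 (mu_injOn k (nsph_domM _) (mM 1 o1 x' hx') h)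
    have h5 : x' = 0 := by simpa [hη'] using h4.symm
    exact ⟨by simpa [h5] using h3, h5⟩
  · have h := (locStd_graph (χ := mu k) (u := fun _ => 0)
      ((lo_mu k).le (mu_injOn k) (nsph_domM 0))
      (Eventually.of_forall fun _ => continuousAt_const) (by simp) hd).pre
      (le_conj one_ne_zero 0) (le_conj one_ne_zero 0) (by simp) (by simp)
    refine h.congr (Eventually.of_forall fun x => ?_) (Eventually.of_forall fun x => ?_)
    · simp [eG]
    · simp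

theorem biEv_s : BiEv (Nr r) (sF true) (sF false) := by
  obtain ⟨η, hη, h1, h2⟩ : ∃ η : ℝ, 0 < η ∧ η < 1 / 4 ∧ η < r :=
    ⟨min (1 / 8) (r / 2), by positivity, (min_le_left _ _).trans_lt (by norm_num),
      (min_le_right _ _).trans_lt (half_lt_self hr)⟩
  have hn : ∀ s ∈ Icc (0 : ℝ) 1, ‖((s * η : ℝ) : ℂ)‖ ≤ η := fun s hs => by
    simpa only [mul_one] using nsph_small hs hη (x := 1) (by simp)
  have hc : ∀ σ, ContinuousOn (fun q : ℂ × ℝ => Sg (((q.2 * η : ℝ) : ℂ), st σ q.1))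
      (D1 ×ˢ Icc 0 1) := fun σ =>
    lo_Sg.continuousOn.comp (f := fun q : ℂ × ℝ => (((q.2 * η : ℝ) : ℂ), st σ q.1))
      (Continuous.prodMk (by fun_prop) ((continuous_st σ).comp continuous_fst)).continuousOn
      fun q hq => nsph_domS ((hn _ hq.2).trans_lt h1) _
  have hm : ∀ σ, ∀ s ∈ Icc (0 : ℝ) 1,
      MapsTo (fun x => Sg (((s * η : ℝ) : ℂ), st σ x)) D1 (Nr r) := fun σ s hs x _ => by
    change wabs (Sg (((s * η : ℝ) : ℂ), st σ x)) < r
    rw [wabs_Sg]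
    exact ((mul_le_of_le_one_right (norm_nonneg _) (nsph_S2 _).2).trans (hn s hs)).trans_lt h2
  have hz : ∀ σ σ', Meets (sF σ) (fun x => Sg (((1 * η : ℝ) : ℂ), st σ' x)) 0 := fun σ σ' =>
    meets_zero fun x _ x' _ h => by
      have h3 := (Prod.ext_iff.1 (Sg_injOn (nsph_domS (by simp) _)
        (nsph_domS ((hn 1 (right_mem_Icc.2 zero_le_one)).trans_lt h1) _) h)).1
      exact hη.ne' (by simpa using h3.symm)
  refine ⟨fun s x => Sg (((s * η : ℝ) : ℂ), st true x),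
    fun s x => Sg (((s * η : ℝ) : ℂ), st false x),
    ⟨hc true, hc false, hm true, hm false, fun s _ t => by rw [nsph_st]⟩, ?_, ?_, 0, 0, 0, 0,
    hz _ _, hz _ _, hz _ _, hz _ _, by decide⟩ <;> funext x <;> simp [sF]

end Pool.Agent.Lib.MP_45bb13_gt
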