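import Pool.Agent.Lib.MP_45bb13_gt.NMap

/-! The cap is Hausdorff and exhausted by compact sets. -/

set_option linter.unusedSectionVars false

namespace Pool.Agent.Lib.MP_45bb13_gt

open Set Filter Topology Complex
open scoped ComplexConjugate

/-- The function `cos (2 π c)`. -/
noncomputable def ntop_ccf : N → ℝ
  | .o q => Real.cos (2 * Real.pi * q.out.1.1.re)
  | .e k _ => -sgb k.1
  | .s _ => 0

lemma ntop_cos {ε : ℤ} (h : ε = 1 ∨ ε = -1) (a : ℤ) (y : ℝ) :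
    Real.cos (2 * Real.pi * (ε * y + a)) = Real.cos (2 * Real.pi * y) := by
  rw [show 2 * Real.pi * (ε * y + a) = ε * (2 * Real.pi * y) + a * (2 * Real.pi) by ring,
    Real.cos_add_int_mul_two_pi]
  rcases h with rfl | rfl <;> simp

lemma ntop_kap {p : CC} (hp : p ∈ domK) : czf (kap p) = Real.cos (2 * Real.pi * p.1.im) ∧
    ntop_ccf (kap p) = Real.cos (2 * Real.pi * p.1.re) := by
  obtain ⟨ε, a, b, h0, h1, -⟩ := rep_kap hp
  have e1 : czf (kap p) = Real.cos (2 * Real.pi * (rep (kap p)).1.im) := by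
    rw [kap, dif_pos hp]
    rfl
  have e2 : ntop_ccf (kap p) = Real.cos (2 * Real.pi * (rep (kap p)).1.re) := by
    rw [kap, dif_pos hp]
    rfl
  rw [e1, e2, h1, ← ntop_cos h0 b p.1.im, ← ntop_cos h0 a p.1.re]
  simp

lemma ntop_half (τ : Bool) (y : ℝ) : Real.cos (2 * Real.pi * ((if τ then 1 / 2 else 0) + y)) =
    -sgb τ * Real.cos (2 * Real.pi * y) := by
  cases τ
  · simp [sgb]
  · rw [if_pos rfl, show 2 * Real.pi * (1 / 2 + y) = 2 * Real.pi * y + Real.pi by ring,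
      Real.cos_add_pi]
    simp [sgb]

/-- `cos (2 π im v)` as a function of `v ^ 2`. -/
noncomputable def ntop_ci (q : ℂ) : ℝ := Real.cos (2 * Real.pi * √((‖q‖ - q.re) / 2))

/-- `cos (2 π re v)` as a function of `v ^ 2`. -/
noncomputable def ntop_cr (q : ℂ) : ℝ := Real.cos (2 * Real.pi * √((‖q‖ + q.re) / 2))

@[fun_prop] lemma ntop_ci_cont : Continuous ntop_ci := by
  unfold ntop_ci
  fun_prop

@[fun_prop] lemma ntop_cr_cont : Continuous ntop_cr := by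
  unfold ntop_cr
  fun_prop

lemma ntop_sq (v : ℂ) :
    ‖v ^ 2‖ + (v ^ 2).re = 2 * v.re ^ 2 ∧ ‖v ^ 2‖ - (v ^ 2).re = 2 * v.im ^ 2 := by
  rw [norm_pow, ← normSq_eq_norm_sq, normSq_apply, sq v, mul_re]
  constructor <;> ring

lemma ntop_abs (y : ℝ) :
    Real.cos (2 * Real.pi * √(2 * y ^ 2 / 2)) = Real.cos (2 * Real.pi * y) := by
  rw [mul_div_cancel_left₀ _ two_ne_zero, Real.sqrt_sq_eq_abs]
  rcases abs_choice y with h | h <;> simp [h]

lemma ntop_box {k : Bool × Bool} {v w : ℂ} (h : (u0 k + v, w) ∈ domK) :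
    czf (kap (u0 k + v, w)) = -sgb k.2 * ntop_ci (v ^ 2) ∧
      ntop_ccf (kap (u0 k + v, w)) = -sgb k.1 * ntop_cr (v ^ 2) := by
  rw [(ntop_kap h).1, (ntop_kap h).2, ntop_ci, ntop_cr, (ntop_sq v).1, (ntop_sq v).2, ntop_abs,
    ntop_abs, ← ntop_half, ← ntop_half]
  exact ⟨rfl, rfl⟩

lemma ntop_rt {ω : ℂ} (h : ω ≠ 0) : rt ω ≠ 0 := fun h' => h (by rw [← rt_sq ω, h']; simp)

lemma ntop_lam (k : Bool × Bool) (p : CC) :
    czf (lam k p) = -sgb k.2 * ntop_ci (p.1 ^ 2 * p.2) ∧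
      ntop_ccf (lam k p) = -sgb k.1 * ntop_cr (p.1 ^ 2 * p.2) := by
  by_cases h : p.2 = 0
  · rw [lam, if_pos h, h]
    simp [czf, ntop_ccf, ntop_ci, ntop_cr]
  · have := ntop_box (k := k) (v := p.1 * rt p.2) (domK_of_ne (p := (_, rt p.2)) (ntop_rt h))
    rwa [lam, if_neg h, ← rt_sq p.2, ← mul_pow, rt_sq]

lemma ntop_mu (k : Bool × Bool) {p : CC} (hp : p ∈ domM) :
    czf (mu k p) = -sgb k.2 * ntop_ci p.2 ∧ ntop_ccf (mu k p) = -sgb k.1 * ntop_cr p.2 := by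
  by_cases h : p.2 = 0
  · rw [mu, if_pos h, h]
    simp [czf, ntop_ccf, ntop_ci, ntop_cr]
  · have := ntop_box (box_domK (u := rt p.2) (by rw [rt_sq]; exact hp) (ntop_rt h) k
      (p.1 * rt p.2))
    rw [rt_sq] at this
    rwa [mu, if_neg h]

lemma ntop_Sg {x : ℂ} {s : S2} (h : (x, s) ∈ domS) :
    czf (Sg (x, s)) = Real.cos (2 * Real.pi * (1 / 4 + ‖x‖ * s.1.1)) ∧
      ntop_ccf (Sg (x, s)) = x.re / ‖x‖ := by
  by_cases hx : x = 0
  · subst hx
    rw [Sg_zero, norm_zero, zero_mul, add_zero, show 2 * Real.pi * (1 / 4) = Real.pi / 2 by ring,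
      Real.cos_pi_div_two, div_zero]
    exact ⟨rfl, rfl⟩
  · have hr := norm_pos_iff.2 hx
    have h1 := Sg_eq hr (ang x) s
    have h2 := ntop_kap (Sg_domK hr (ang x) h)
    have h3 := congrArg Complex.re (norm_mul_ee_ang x)
    rw [norm_mul_ee_ang] at h1
    rw [re_ofReal_mul, ee_re] at h3
    rw [h1, eq_div_iff hr.ne', mul_comm _ ‖x‖, ← h3]
    exact ⟨h2.1, congrArg (‖x‖ * ·) h2.2⟩

lemma ntop_at {f : N → ℝ} {a : NA} {x : CC} (hx : x ∈ NP.dom a) {g : CC → ℝ}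
    (hg : ContinuousAt g x) (h : ∀ p ∈ NP.dom a, f (NP.map a p) = g p) :
    ContinuousAt (f ∘ NP.map a) x :=
  hg.congr (mem_of_superset ((good_N.opn a).mem_nhds hx) fun p hp => (h p hp).symm)

lemma ntop_czf_cont : Continuous czf := by
  refine continuousOn_univ.1 (good_N.continuousOn fun a x hx _ => ?_)
  rcases a with _ | k | k | σ
  · exact ntop_at hx (by fun_prop) fun p hp => (ntop_kap hp).1
  · exact ntop_at hx (by fun_prop) fun p _ => (ntop_lam k p).1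
  · exact ntop_at hx (by fun_prop) fun p hp => (ntop_mu k hp).1
  · have h1 : Continuous fun p : CC => (st σ p.2).1.1 :=
      continuous_fst.comp (continuous_subtype_val.comp ((continuous_st σ).comp continuous_snd))
    refine ntop_at hx (Continuous.continuousAt ?_) fun p hp => (ntop_Sg hp).1
    exact Real.continuous_cos.comp
      (continuous_const.mul (continuous_const.add (continuous_fst.norm.mul h1)))

lemma ntop_ccf_cont {n : N} (hn : czf n ≠ 0) : ContinuousAt ntop_ccf n := by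
  refine ContinuousOn.continuousAt (s := {n | czf n ≠ 0}) (good_N.continuousOn fun a x hx h => ?_)
    ((isOpen_ne_fun ntop_czf_cont continuous_const).mem_nhds hn)
  rcases a with _ | k | k | σ
  · exact ntop_at hx (by fun_prop) fun p hp => (ntop_kap hp).2
  · exact ntop_at hx (by fun_prop) fun p _ => (ntop_lam k p).2
  · exact ntop_at hx (by fun_prop) fun p hp => (ntop_mu k hp).2
  · have h0 : ‖x.1‖ ≠ 0 := norm_ne_zero_iff.2 fun h0 => h (by
      change czf (Sg (x.1, st σ x.2)) = 0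
      rw [h0, Sg_zero]
      rfl)
    exact ntop_at hx (ContinuousAt.div (by fun_prop) (by fun_prop) h0) fun p hp => (ntop_Sg hp).2

lemma ntop_rep {p : CC} (hp : p ∈ domK) : ∃ q ∈ domK, kap p = kap q ∧
    q.1.re ∈ Ico (0 : ℝ) 1 ∧ q.1.im ∈ Icc (0 : ℝ) (1 / 2) :=
  let ⟨q, h1, h2⟩ := exists_KR p
  ⟨q, h1.domK hp, kap_congr h1, h2⟩

lemma ntop_cos_half : Real.cos (2 * Real.pi * (1 / 2)) = -1 := by
  rw [show 2 * Real.pi * (1 / 2) = Real.pi by ring, Real.cos_pi]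

lemma ntop_mem_Ms {n : N} (h : ∀ σ, czf n ≠ -sgb σ) : n ∈ Ms := by
  rcases n.cases with ⟨p, hp, rfl⟩ | ⟨k, l, rfl⟩ | ⟨v, rfl⟩
  · obtain ⟨q, hq, e, -, h1, h2⟩ := ntop_rep hp
    rw [e] at h ⊢
    rw [(ntop_kap hq).1] at h
    refine (kap_mem_Ms hq).2 ⟨q, .refl q, h1.lt_of_ne fun h3 => h false ?_,
      h2.lt_of_ne fun h3 => h true ?_⟩
    · simp [← h3, sgb]
    · rw [h3, ntop_cos_half]
      rfl
  · exact absurd rfl (h k.2)
  · exact s_mem_Ms v

lemma ntop_KR (q : CC) (k : Bool × Bool) (a : ℤ) : KR q (u0 k + (q.1 + a - u0 k), q.2) :=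
  ⟨1, a, 0, .inl rfl, by simp, by simp⟩

lemma ntop_mem_Vk {n : N} {k : Bool × Bool} (h1 : czf n = -sgb k.2) (h2 : ntop_ccf n ≠ sgb k.1) :
    n ∈ Vk k := by
  rcases n.cases with ⟨p, hp, rfl⟩ | ⟨k', l, rfl⟩ | ⟨v, rfl⟩
  · obtain ⟨q, hq, e, ⟨r1, r2⟩, i1, i2⟩ := ntop_rep hp
    rw [e] at h1 h2 ⊢
    rw [(ntop_kap hq).1] at h1
    rw [(ntop_kap hq).2] at h2
    have hpi := Real.pi_pos
    have hi : q.1.im = (u0 k).im := by
      have h3 : ∀ y ∈ Icc (0 : ℝ) (1 / 2), 2 * Real.pi * y ∈ Icc 0 Real.pi := fun y hy =>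
        ⟨by have := hy.1; positivity, by nlinarith [hy.2]⟩
      have h4 : (u0 k).im ∈ Icc (0 : ℝ) (1 / 2) := by
        rcases k with ⟨_, _ | _⟩ <;> simp [u0]
      refine mul_left_cancel₀ (by positivity) (Real.injOn_cos (h3 _ ⟨i1, i2⟩) (h3 _ h4) ?_)
      have h5 := ntop_half k.2 0
      rw [add_zero, mul_zero, Real.cos_zero, mul_one] at h5
      exact h1.trans h5.symm
    obtain ⟨a, ha⟩ : ∃ a : ℤ, |q.1.re + a - (u0 k).re| < 1 / 2 := by
      rcases k with ⟨_ | _, σ⟩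
      · have h3 : q.1.re ≠ 1 / 2 := fun h3 => h2 (by rw [h3, ntop_cos_half]; rfl)
        rcases h3.lt_or_gt with h3 | h3
        · exact ⟨0, by simp only [u0, abs_lt]; norm_num; constructor <;> linarith⟩
        · exact ⟨-1, by simp only [u0, abs_lt]; norm_num; constructor <;> linarith⟩
      · have h3 : 0 < q.1.re := r1.lt_of_ne fun h3 => h2 (by simp [← h3, sgb])
        exact ⟨0, by simp only [u0, abs_lt]; norm_num; constructor <;> linarith⟩
    refine (kap_mem_Vk hq).2 ⟨_, _, (box_iff _).2 ⟨by simpa using ha, ?_⟩, ntop_KR q k a⟩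
    simp [hi]
  · refine e_mem_Vk.2 ?_
    rcases k with ⟨_ | _, _ | _⟩ <;> rcases k' with ⟨_ | _, _ | _⟩ <;>
      simp [czf, ntop_ccf, sgb] at h1 h2 ⊢ <;> norm_num at h1
  · rcases k with ⟨_, _ | _⟩ <;> simp [czf, sgb] at h1

lemma ntop_sep_aux {k : Bool × Bool} {p q : CC} (hp : p ∈ domL) (hq : q ∈ domM)
    (h : lam k p ≠ mu k q) : Disjoint (𝓝 (lam k p)) (𝓝 (mu k q)) := by
  by_cases h1 : p.1 = 0
  · by_cases h2 : q.1 = 0
    · have hb : ∀ x : CC, x.1 = 0 → {y : CC | ‖y.1‖ < 1} ∈ 𝓝 x := fun x hx =>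
        (isOpen_lt (by fun_prop) continuous_const).mem_nhds (by simp [hx])
      refine disjoint_of_disjoint_of_mem (Set.disjoint_left.2 ?_)
        ((lo_lam k).image_mem hp (inter_mem (isOpen_domL.mem_nhds hp) (hb p h1)))
        ((lo_mu k).image_mem hq (inter_mem (isOpen_domM.mem_nhds hq) (hb q h2)))
      rintro _ ⟨x, ⟨x1, x2⟩, rfl⟩ ⟨y, ⟨y1, y2⟩, e⟩
      obtain ⟨h3, rfl⟩ := (lam_eq_mu_iff x1 y1).1 e.symm
      have h4 : ‖x.1‖⁻¹ < 1 := by simpa using y2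
      exact lt_asymm x2 ((inv_lt_one₀ (norm_pos_iff.2 h3)).1 h4)
    · have e : q.1⁻¹ ^ 2 * (q.1 ^ 2 * q.2) = q.2 := by field_simp
      refine (lo_lam k).separated (lam_injOn k) (mem_image_of_mem _ hp)
        ⟨(q.1⁻¹, q.1 ^ 2 * q.2), ?_, ?_⟩ h
      · change box _
        rw [e]
        exact hq
      · rw [lam_mu k (inv_ne_zero h2), inv_inv, e]
  · exact (lo_mu k).separated (mu_injOn k) ⟨(p.1⁻¹, p.1 ^ 2 * p.2), hp, (lam_mu k h1 p.2).symm⟩
      (mem_image_of_mem _ hq) h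

lemma ntop_sep {k : Bool × Bool} {a b : N} (ha : a ∈ Vk k) (hb : b ∈ Vk k) (h : a ≠ b) :
    Disjoint (𝓝 a) (𝓝 b) := by
  rcases ha with ha | ha <;> rcases hb with hb | hb
  · exact (lo_lam k).separated (lam_injOn k) ha hb h
  · obtain ⟨p, hp, rfl⟩ := ha
    obtain ⟨q, hq, rfl⟩ := hb
    exact ntop_sep_aux hp hq h
  · obtain ⟨p, hp, rfl⟩ := ha
    obtain ⟨q, hq, rfl⟩ := hb
    exact (ntop_sep_aux hq hp h.symm).symm
  · exact (lo_mu k).separated (mu_injOn k) ha hb h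

theorem t2_N : T2Space N := by
  refine t2Space_iff_disjoint_nhds.2 fun a b h => ?_
  by_cases h1 : czf a = czf b
  swap
  · exact Tendsto.disjoint ntop_czf_cont.continuousAt (disjoint_nhds_nhds.2 h1)
      ntop_czf_cont.continuousAt
  by_cases h2 : ∀ σ, czf a ≠ -sgb σ
  · exact lo_Sg.separated Sg_injOn (ntop_mem_Ms h2) (ntop_mem_Ms (h1 ▸ h2)) h
  obtain ⟨σ, h2⟩ := not_forall.1 h2
  rw [not_not] at h2
  have h3 : czf a ≠ 0 := by
    rw [h2]
    cases σ <;> simp [sgb]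
  by_cases h4 : ntop_ccf a = ntop_ccf b
  swap
  · exact Tendsto.disjoint (ntop_ccf_cont h3) (disjoint_nhds_nhds.2 h4) (ntop_ccf_cont (h1 ▸ h3))
  obtain ⟨τ, h5⟩ : ∃ τ, ntop_ccf a ≠ sgb τ := by
    by_contra h5
    have h6 : ∀ τ, ntop_ccf a = sgb τ := by simpa using h5
    have h7 := (h6 true).symm.trans (h6 false)
    norm_num [sgb] at h7
  exact ntop_sep (k := (τ, σ)) (ntop_mem_Vk h2 h5) (ntop_mem_Vk (h1 ▸ h2) (h4 ▸ h5)) h

/-- A compact box. -/
def ntop_cb : Set ℂ := {q | ‖q‖ + q.re ≤ 1 / 4 ∧ ‖q‖ - q.re ≤ 1 / 16}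

lemma ntop_cb_closed : IsClosed ntop_cb :=
  IsClosed.and (isClosed_le (by fun_prop) continuous_const)
    (isClosed_le (by fun_prop) continuous_const)

lemma ntop_cb_box {q : ℂ} (h : q ∈ ntop_cb) : box q :=
  ⟨h.1.trans_lt (by norm_num), h.2.trans_lt (by norm_num)⟩

lemma ntop_cb_zero : (0 : ℂ) ∈ ntop_cb := by simp [ntop_cb]

/-- The compact part of the first chart. -/
def ntop_CL (r : ℝ) : Set CC := (Metric.closedBall 0 1 ×ˢ Metric.closedBall 0 (r ^ 2)) ∩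
  (fun p => p.1 ^ 2 * p.2) ⁻¹' ntop_cb

/-- The compact part of the second chart. -/
def ntop_CM : Set CC := Metric.closedBall 0 1 ×ˢ (Metric.closedBall 0 1 ∩ ntop_cb)

/-- The compact part of the surgered piece. -/
def ntop_CS (r : ℝ) : Set (ℂ × S2) :=
  {q | ‖q.1‖ * |q.2.1.1| ≤ 1 / 8 ∧ ‖q.1‖ * ‖q.2.1.2‖ ≤ r}

lemma ntop_S2 (s : S2) : |s.1.1| ^ 2 + ‖s.1.2‖ ^ 2 = 1 := by
  rw [sq_abs, ← normSq_eq_norm_sq]
  exact s.2

lemma ntop_S2_compact : CompactSpace S2 := by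
  refine isCompact_iff_compactSpace.1 (Metric.isCompact_of_isClosed_isBounded
    (isClosed_eq (by fun_prop) continuous_const) (isBounded_iff_forall_norm_le.2 ⟨1, ?_⟩))
  intro s hs
  have h : |s.1| ^ 2 + ‖s.2‖ ^ 2 = 1 := ntop_S2 ⟨s, hs⟩
  refine norm_prod_le_iff.2 ⟨?_, ?_⟩
  · rw [Real.norm_eq_abs]
    exact (sq_le_one_iff₀ (abs_nonneg _)).1 (by linarith [sq_nonneg ‖s.2‖])
  · exact (sq_le_one_iff₀ (norm_nonneg _)).1 (by linarith [sq_nonneg |s.1|])

lemma ntop_CS_compact (r : ℝ) : IsCompact (ntop_CS r) := by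
  have := ntop_S2_compact
  refine ((isCompact_closedBall (0 : ℂ) (1 / 8 + r)).prod isCompact_univ).of_isClosed_subset
    (IsClosed.and (isClosed_le (by fun_prop) continuous_const)
      (isClosed_le (by fun_prop) continuous_const)) fun q hq => ⟨?_, trivial⟩
  have h1 := ntop_S2 q.2
  have h2 : 1 ≤ |q.2.1.1| + ‖q.2.1.2‖ := by
    nlinarith [abs_nonneg q.2.1.1, norm_nonneg q.2.1.2,
      mul_nonneg (abs_nonneg q.2.1.1) (norm_nonneg q.2.1.2)]
  rw [mem_closedBall_zero_iff]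
  nlinarith [hq.1, hq.2, norm_nonneg q.1]

lemma ntop_near {c : ℝ} (h0 : 0 ≤ c) (h1 : c < 1) :
    ∃ (τ : Bool) (a : ℤ), |c + a - (if τ then 1 / 2 else 0)| ≤ 1 / 4 := by
  rcases le_total c (1 / 4) with h | h
  · exact ⟨false, 0, by simp only [abs_le]; norm_num; constructor <;> linarith⟩
  rcases le_total c (3 / 4) with h' | h'
  · exact ⟨true, 0, by simp only [abs_le]; norm_num; constructor <;> linarith⟩
  · exact ⟨false, -1, by simp only [abs_le]; norm_num; constructor <;> linarith⟩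

lemma ntop_cover_box {k : Bool × Bool} {u w : ℂ} {r : ℝ} (hd : (u0 k + u, w) ∈ domK)
    (h1 : |u.re| ≤ 1 / 4) (h2 : |u.im| ≤ 1 / 8) (hw : ‖w‖ ≤ r) :
    kap (u0 k + u, w) ∈ lam k '' ntop_CL r ∪ mu k '' ntop_CM := by
  have h3 : u.re ^ 2 ≤ 1 / 16 := by nlinarith [sq_abs u.re, abs_nonneg u.re]
  have h4 : u.im ^ 2 ≤ 1 / 64 := by nlinarith [sq_abs u.im, abs_nonneg u.im]
  have hb : u ^ 2 ∈ ntop_cb := ⟨by rw [(ntop_sq u).1]; linarith, by rw [(ntop_sq u).2]; linarith⟩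
  have hne : w = 0 → u ≠ 0 := by
    rintro rfl rfl
    rcases hd with hd | hd
    · exact hd rfl
    · refine hd.1 (if k.1 then 1 else 0) (if k.2 then 1 else 0) ?_
      rcases k with ⟨_ | _, _ | _⟩ <;> simp [u0, Complex.ext_iff]
  rcases le_total ‖u‖ ‖w‖ with h | h
  · have h0 : w ≠ 0 := fun h0 => hne h0 (by simpa [h0] using h)
    refine Or.inl ⟨(u / w, w ^ 2), ⟨⟨?_, ?_⟩, ?_⟩, ?_⟩
    · rw [mem_closedBall_zero_iff, norm_div]
      exact div_le_one_of_le₀ h (norm_nonneg _)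
    · rw [mem_closedBall_zero_iff, norm_pow]
      exact pow_le_pow_left₀ (norm_nonneg _) hw 2
    · rwa [mem_preimage, ← mul_pow, div_mul_cancel₀ _ h0]
    · rw [lam_eq k _ h0, div_mul_cancel₀ _ h0]
  · have h0 : u ≠ 0 := fun h0 => hne (by simpa [h0] using h) h0
    refine Or.inr ⟨(w / u, u ^ 2), ⟨?_, ?_, hb⟩, ?_⟩
    · rw [mem_closedBall_zero_iff, norm_div]
      exact div_le_one_of_le₀ h (norm_nonneg _)
    · rw [mem_closedBall_zero_iff]
      linarith [hb.1, hb.2]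
    · rw [mu_eq k _ h0, div_mul_cancel₀ _ h0]

lemma ntop_cover {r : ℝ} {n : N} (hn : wabs n ≤ r) :
    n ∈ Sg '' ntop_CS r ∪ ⋃ k, lam k '' ntop_CL r ∪ mu k '' ntop_CM := by
  rcases n.cases with ⟨p, hp, rfl⟩ | ⟨k, l, rfl⟩ | ⟨v, rfl⟩
  · obtain ⟨q, hq, e, ⟨r1, r2⟩, i1, i2⟩ := ntop_rep hp
    rw [e] at hn ⊢
    by_cases h : 1 / 8 ≤ q.1.im ∧ q.1.im ≤ 3 / 8
    · obtain ⟨ρ, hρ, s, -, hs⟩ := exists_Sg hq (by linarith [h.1]) (by linarith [h.2])
      have h1 : Sg (ρ * ee q.1.re, s) = kap q := (Sg_eq hρ _ s).trans (congrArg kap hs.symm)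
      have h2 : q.1.im = 1 / 4 + ρ * s.1.1 := congrArg (fun p : CC => p.1.im) hs
      refine Or.inl ⟨_, ⟨?_, ?_⟩, h1⟩
      · rw [norm_mul, norm_ee, mul_one, norm_real, Real.norm_eq_abs, ← abs_mul, abs_le]
        constructor <;> linarith [h.1, h.2]
      · rwa [← wabs_Sg, h1]
    · obtain ⟨τ, a, ha⟩ := ntop_near r1 r2
      obtain ⟨σ, hσ⟩ : ∃ σ : Bool, |q.1.im - (if σ then 1 / 2 else 0)| ≤ 1 / 8 := by
        rcases not_and_or.1 h with h | h
        · exact ⟨false, by simp only [abs_le]; norm_num; constructor <;> linarith⟩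
        · exact ⟨true, by simp only [abs_le]; norm_num; constructor <;> linarith⟩
      have h1 := ntop_KR q (τ, σ) a
      rw [wabs_kap] at hn
      rw [kap_congr h1]
      exact Or.inr (mem_iUnion.2 ⟨_, ntop_cover_box (h1.domK hq) (by simpa [u0] using ha)
        (by simpa [u0] using hσ) hn⟩)
  · refine Or.inr (mem_iUnion.2 ⟨k, ?_⟩)
    have h0 : (0 : ℂ) ∈ Metric.closedBall 0 1 ∩ ntop_cb := ⟨by simp, ntop_cb_zero⟩
    rcases l with _ | l
    · exact Or.inr ⟨(0, 0), ⟨by simp, h0⟩, mu_zero k⟩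
    rcases le_total ‖l‖ 1 with h | h
    · exact Or.inl ⟨(l, 0), ⟨⟨by simpa using h, by simpa using sq_nonneg r⟩,
        by simpa using ntop_cb_zero⟩, lam_zero k l⟩
    · have h1 : l ≠ 0 := norm_pos_iff.1 (one_pos.trans_le h)
      refine Or.inr ⟨(l⁻¹, 0), ⟨by simpa using inv_le_one_of_one_le₀ h, h0⟩, ?_⟩
      rw [← lam_zero, lam_mu k h1, mul_zero]
  · rw [wabs_s] at hn
    exact Or.inl ⟨(0, v), ⟨by simp, by simpa using hn⟩, Sg_zero v⟩

theorem isCompact_wabs (r : ℝ) : IsCompact {n : N | wabs n ≤ r} := by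
  refine IsCompact.of_isClosed_subset (IsCompact.union ?_ (isCompact_iUnion fun k =>
    IsCompact.union ?_ ?_)) (isClosed_le continuous_wabs continuous_const) fun n hn => ntop_cover hn
  · exact (ntop_CS_compact r).image_of_continuousOn
      (lo_Sg.continuousOn.mono fun q hq => hq.1.trans_lt (by norm_num))
  · exact (((isCompact_closedBall _ _).prod (isCompact_closedBall _ _)).inter_right
      (ntop_cb_closed.preimage (by fun_prop))).image_of_continuousOn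
      ((lo_lam k).continuousOn.mono fun q hq => ntop_cb_box hq.2)
  · exact ((isCompact_closedBall _ _).prod
      ((isCompact_closedBall _ _).inter_right ntop_cb_closed)).image_of_continuousOn
      ((lo_mu k).continuousOn.mono fun q hq => ntop_cb_box hq.2.2)

end Pool.Agent.Lib.MP_45bb13_gt
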