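import Pool.Agent.Lib.MP_45bb13_gt.Par
import Pool.Agent.Lib.MP_45bb13_gt.HDefs

/-! Uniqueness of the Thom class of the diagonal over an open set. -/

set_option linter.unusedSectionVars false

namespace Pool.Agent.Lib.MP_45bb13_gt

open Set Filter Topology Complex Pool.Agent.Shared.Sing Pool.Agent.Shared.SingEZ
open scoped ComplexConjugate

variable {X Y : Type} [TopologicalSpace X] [Nonempty X] [TopologicalSpace Y] [Nonempty Y]
  {F : Type} [Field F] {U U' : Set X} {τ τ' : C F (X × X) →ₗ[F] F}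

lemma nat_chart {ι : Type} [Fintype ι] (hX : LocEuc ι X) (hU : IsOpen U) {x : X} (hx : x ∈ U) :
    ∃ φ : OpenPartialHomeomorph X (ι → ℝ), x ∈ φ.source ∧ φ.source ⊆ U ∧ φ.target = univ := by
  obtain ⟨φ₀, h0⟩ := hX x
  obtain ⟨φ, hx, hs⟩ : ∃ φ : OpenPartialHomeomorph X (ι → ℝ), x ∈ φ.source ∧ φ.source ⊆ U :=
    ⟨φ₀.restrOpen U hU, ⟨h0, hx⟩, inter_subset_right⟩
  obtain ⟨r, hr, h⟩ := Metric.isOpen_iff.1 φ.open_target _ (φ.map_source hx)
  refine ⟨φ.trans (OpenPartialHomeomorph.univBall (φ x) r).symm, ⟨hx, ?_⟩,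
    fun y hy => hs hy.1, ?_⟩
  · simp [OpenPartialHomeomorph.univBall_target _ hr, hr]
  · refine eq_univ_of_forall fun y => ⟨by simp, h ?_⟩
    rw [← OpenPartialHomeomorph.univBall_target _ hr]
    exact (OpenPartialHomeomorph.univBall (φ x) r).map_source (by simp)

/-- Induction over the open subsets of a manifold. -/
theorem nat_ind {ι : Type} [Fintype ι] (hX : LocEuc ι X) (hU : IsOpen U) {Q : Set X → Prop}
    (h0 : Q ∅) (hu : ∀ V V', IsOpen V → IsOpen V' → V ⊆ U → V' ⊆ U → Q V → Q V' → Q (V ∩ V') →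
      Q (V ∪ V'))
    (hc : ∀ V ⊆ U, (∀ K, IsCompact K → K ⊆ V → ∃ V', K ⊆ V' ∧ V' ⊆ V ∧ Q V') → Q V)
    (hb : ∀ φ : OpenPartialHomeomorph X (ι → ℝ), φ.source ⊆ U → φ.target = univ →
      ∀ K, Convex ℝ K → IsOpen K → Q (φ.source ∩ φ ⁻¹' K)) : Q U := by
  classical
  refine hc U le_rfl fun L hL hLU => ?_
  have := hL.induction_on (p := fun s : Set X => ∃ W, IsOpen W ∧ s ⊆ W ∧ W ⊆ U ∧
    ∀ V, IsOpen V → V ⊆ W → Q V) ⟨∅, isOpen_empty, le_rfl, empty_subset _, fun K _ h => by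
      rwa [subset_empty_iff.1 h]⟩
    (fun s t h ⟨W, h1, h2, h3⟩ => ⟨W, h1, h.trans h2, h3⟩) ?_ fun x hx => ?_
  · obtain ⟨W, h1, h2, h3, h4⟩ := this
    exact ⟨W, h2, h3, h4 W h1 le_rfl⟩
  · rintro s t ⟨W, h1, h2, h3, h4⟩ ⟨W', h1', h2', h3', h4'⟩
    refine ⟨W ∪ W', h1.union h1', union_subset_union h2 h2', union_subset h3 h3', fun V hV h => ?_⟩
    rw [← inter_eq_left.2 h, inter_union_distrib_left]
    exact hu _ _ (hV.inter h1) (hV.inter h1') (inter_subset_right.trans h3)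
      (inter_subset_right.trans h3') (h4 _ (hV.inter h1) inter_subset_right)
      (h4' _ (hV.inter h1') inter_subset_right)
      (h4 _ ((hV.inter h1).inter (hV.inter h1')) fun _ h => h.1.2)
  obtain ⟨φ, hx, hs, ht⟩ := nat_chart hX hU (hLU hx)
  refine ⟨_, mem_nhdsWithin_of_mem_nhds (φ.open_source.mem_nhds hx), _, φ.open_source, le_rfl, hs,
    fun V hV h => hc V (h.trans hs) fun K hK hKV => ?_⟩
  have key : ∀ (s : Finset X) (f : X → Set (ι → ℝ)), (∀ k, Convex ℝ (f k)) → (∀ k, IsOpen (f k)) →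
      Q (φ.source ∩ φ ⁻¹' ⋃ k ∈ s, f k) := fun s => by
    induction s using Finset.induction_on with
    | empty => simpa using fun _ _ _ => h0
    | insert a s _ ih =>
      intro f h1 h2
      rw [Finset.set_biUnion_insert, preimage_union, inter_union_distrib_left]
      refine hu _ _ (φ.isOpen_inter_preimage (h2 a))
        (φ.isOpen_inter_preimage (isOpen_biUnion fun k _ => h2 k)) (inter_subset_left.trans hs)
        (inter_subset_left.trans hs) (hb φ hs ht _ (h1 a) (h2 a)) (ih f h1 h2) ?_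
      rw [← inter_inter_distrib_left, ← preimage_inter, inter_iUnion₂]
      exact ih _ (fun k => (h1 a).inter (h1 k)) fun k => (h2 a).inter (h2 k)
  choose! ε hε hb using fun y (hy : y ∈ K) => Metric.isOpen_iff.1
    (φ.isOpen_image_of_subset_source hV h) _ (mem_image_of_mem φ (hKV hy))
  obtain ⟨s, hs, h1⟩ := hK.elim_nhds_subcover (fun y => φ ⁻¹' Metric.ball (φ y) (ε y)) fun y hy =>
    (φ.continuousAt (h (hKV hy))).preimage_mem_nhds (Metric.ball_mem_nhds _ (hε y hy))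
  refine ⟨φ.source ∩ φ ⁻¹' ⋃ k ∈ s, Metric.ball (φ k) (ε k),
    fun y hy => ⟨h (hKV hy), by simpa using h1 hy⟩, fun y hy => ?_,
    key s (fun y => Metric.ball (φ y) (ε y)) (fun _ => convex_ball _ _) fun _ => Metric.isOpen_ball⟩
  obtain ⟨z, hz, h2⟩ := mem_iUnion₂.1 (show φ y ∈ _ from hy.2)
  obtain ⟨w, hw, e⟩ := hb z (hs z hz) h2
  exact φ.injOn (h hw) hy.1 e ▸ hw

lemma nat_exc [T2Space X] (hU : IsOpen U) {x : X} (hx : x ∈ U) {n : ℕ} {c : C F X}
    (hc : c ∈ Z F U (U ∩ {x}ᶜ) n) (h : c ∈ B F univ {x}ᶜ n) : c ∈ B F U (U ∩ {x}ᶜ) n :=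
  exc_inj hU isOpen_compl_singleton (by simpa [← compl_subset_iff_union] using hx) hc h

lemma nat_fib {V : Set X} {x : X} (hx : x ∈ V) {n : ℕ} {c : C F X} (h : c ∈ B F U (U ∩ {x}ᶜ) n) :
    map (Prod.mk x) c ∈ B F (V ×ˢ U) (V ×ˢ U ∩ Off X) n :=
  map_B (by fun_prop) inter_subset_left (fun _ hy => ⟨hx, hy⟩)
    (fun _ hy => ⟨⟨hx, hy.1⟩, Ne.symm hy.2⟩) h

lemma nat_mono {V V' : Set X} (h : V ⊆ V') (n : ℕ) :
    B F (V ×ˢ U) (V ×ˢ U ∩ Off X) n ≤ B F (V' ×ˢ U) (V' ×ˢ U ∩ Off X) n :=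
  B_mono (prod_mono_left h) (inter_subset_inter_left _ (prod_mono_left h))

/-- Over a convex part of a chart every relative cycle comes from one fibre. -/
theorem nat_surj [T2Space X] {ι : Type} [Fintype ι] (hU : IsOpen U)
    (φ : OpenPartialHomeomorph X (ι → ℝ)) (hs : φ.source ⊆ U) (ht : φ.target = univ)
    {K : Set (ι → ℝ)} (hK : Convex ℝ K) (hK' : IsOpen K) {V : Set X}
    (hV : φ.source ∩ φ ⁻¹' K = V) {x₀ : X} (hx : x₀ ∈ V) {k : ℕ} {c : C F (X × X)}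
    (hc : c ∈ Z F (V ×ˢ U) (V ×ˢ U ∩ Off X) k) : ∃ c' ∈ Z F U (U ∩ {x₀}ᶜ) k,
      c - map (Prod.mk x₀) c' ∈ B F (V ×ˢ U) (V ×ˢ U ∩ Off X) k := by
  have v0 : IsOpen V := hV ▸ φ.isOpen_inter_preimage hK'
  have v1 : V ⊆ φ.source := hV ▸ inter_subset_left
  have s1 : Continuous φ.symm := continuousOn_univ.1 (ht ▸ φ.continuousOn_symm)
  have s2 : ∀ y, φ (φ.symm y) = y := fun y => φ.right_inv (ht ▸ trivial)
  have s3 : ∀ y, φ.symm y ∈ φ.source := fun y => φ.map_target (ht ▸ trivial)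
  let g : X × ℝ → X := fun q => φ.symm ((1 - q.2) • φ q.1 + q.2 • φ x₀)
  have g1 : ContinuousOn g (V ×ˢ Icc 0 1) := by
    have : ContinuousOn (fun q : X × ℝ => φ q.1) (V ×ˢ Icc 0 1) :=
      φ.continuousOn.comp continuousOn_fst fun _ h => v1 h.1
    exact s1.comp_continuousOn (((continuousOn_const.sub continuousOn_snd).smul this).add
      (by fun_prop))
  have g2 : MapsTo g (V ×ˢ Icc 0 1) V := fun q hq => by
    subst hV
    refine ⟨s3 _, ?_⟩
    rw [mem_preimage, s2]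
    exact hK hq.1.2 hx.2 (sub_nonneg.2 hq.2.2) hq.2.1 (by simp)
  let A : Set (X × X) := V ×ˢ φ.source
  have a0 : IsOpen A := v0.prod φ.open_source
  have a1 : A ∪ V ×ˢ U ∩ Off X = V ×ˢ U :=
    subset_antisymm (union_subset (prod_mono_right hs) inter_subset_left) fun q hq =>
      (em (q.1 = q.2)).elim (fun h => Or.inl ⟨hq.1, h ▸ v1 hq.1⟩) fun h => Or.inr ⟨hq, h⟩
  have a2 := (v0.prod hU).inter isOpen_Off
  let H : (X × X) × ℝ → X × X := fun q =>
    (g (q.1.1, q.2), φ.symm (φ q.1.2 - q.2 • φ q.1.1 + q.2 • φ x₀))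
  have c1 : ContinuousOn (fun q : X × X => φ q.1) A :=
    φ.continuousOn.comp continuousOn_fst fun _ h => v1 h.1
  have c2 : ContinuousOn (fun q : X × X => φ q.2) A :=
    φ.continuousOn.comp continuousOn_snd fun _ h => h.2
  have H1 : ContinuousOn H (A ×ˢ Icc 0 1) := by
    have d1 := c1.comp (continuousOn_fst (β := ℝ)) (s := A ×ˢ Icc 0 1) fun _ h => h.1
    have d2 := c2.comp (continuousOn_fst (β := ℝ)) (s := A ×ˢ Icc 0 1) fun _ h => h.1
    exact (g1.comp (by fun_prop) fun _ h => ⟨h.1.1, h.2⟩).prodMk (s1.comp_continuousOn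
      ((d2.sub (continuousOn_snd.smul d1)).add (by fun_prop)))
  let d : X × X → X := fun q => φ.symm (φ q.2 - φ q.1 + φ x₀)
  have d1 : ContinuousOn d A := s1.comp_continuousOn ((c2.sub c1).add continuousOn_const)
  have d2 : MapsTo d (A ∩ (V ×ˢ U ∩ Off X)) (U ∩ {x₀}ᶜ) := fun q hq => ⟨hs (s3 _), fun h =>
    hq.2.2 (by
      have := congrArg φ (show d q = x₀ from h)
      rw [s2, add_eq_right, sub_eq_zero] at this
      exact φ.injOn (v1 hq.1.1) hq.1.2 this.symm)⟩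
  obtain ⟨c1, h1, h2⟩ := exc_surj' a0 a2 (by rwa [a1])
  rw [a1] at h2
  refine ⟨map d c1, map_Z d1 inter_subset_left (fun _ _ => hs (s3 _)) d2 h1, ?_⟩
  have h3 := htpy_B H1 inter_subset_left (A := V ×ˢ U) (A' := V ×ˢ U ∩ Off X)
    (fun q hq => ⟨g2 ⟨hq.1.1, hq.2⟩, hs (s3 _)⟩)
    (fun q hq => ⟨⟨g2 ⟨hq.1.1.1, hq.2⟩, hs (s3 _)⟩, fun h => hq.1.2.2 (by
      have := congrArg φ (show g (q.1.1, q.2) = φ.symm _ from h)
      rw [s2, s2, add_left_inj, sub_smul, one_smul, sub_left_inj] at this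
      exact φ.injOn (v1 hq.1.1.1) hq.1.1.2 this)⟩) h1
  rw [map_self (g := fun y => H (y, 0)) (fun y hy => by
    simp [H, g, φ.left_inv (v1 hy.1), φ.left_inv hy.2]) h1.1,
    map_congr (g' := Prod.mk x₀ ∘ d) (fun y hy => by simp [H, g, d, φ.left_inv (v1 hx)]) h1.1,
    ← map_map d1 h1.1] at h3
  simpa using sub_mem h2 h3

/-- Relative four-cycles of `(U × U, off diagonal)` are spanned by the fibre classes. -/
theorem thom_gen [T2Space X] (hX : LocEuc (Fin 4) X) (hU : IsOpen U) {S : Submodule F (C F (X × X))}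
    (h1 : B F (U ×ˢ U) (U ×ˢ U ∩ Off X) 4 ≤ S)
    (h2 : ∀ x ∈ U, ∀ c ∈ Z F U (U ∩ {x}ᶜ) 4, map (Prod.mk x) c ∈ S) :
    Z F (U ×ˢ U) (U ×ˢ U ∩ Off X) 4 ≤ S := by
  refine (nat_ind hX hU (Q := fun V => (∀ k < 4, Z F (V ×ˢ U) (V ×ˢ U ∩ Off X) k ≤
    B F (V ×ˢ U) (V ×ˢ U ∩ Off X) k) ∧ Z F (V ×ˢ U) (V ×ˢ U ∩ Off X) 4 ≤ S) ?h0
    (fun V V' hV hV' s1 s2 h h' h0 => ?_) (fun V hV h => ?_) fun φ hs ht K hK hK' => ?_).2
  case h0 =>
    rw [empty_prod]
    exact ⟨fun _ _ _ hc => In_empty hc.1 ▸ zero_mem _, fun _ hc => In_empty hc.1 ▸ zero_mem _⟩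
  · have key : ∀ k ≤ 4, ∀ c ∈ Z F ((V ∪ V') ×ˢ U) ((V ∪ V') ×ˢ U ∩ Off X) k,
        ∃ a ∈ Z F (V ×ˢ U) (V ×ˢ U ∩ Off X) k, ∃ b ∈ Z F (V' ×ˢ U) (V' ×ˢ U ∩ Off X) k,
          c - (a + b) ∈ B F ((V ∪ V') ×ˢ U) ((V ∪ V') ×ˢ U ∩ Off X) k := fun k hk c hc => by
      rw [union_prod] at hc ⊢
      refine mv_surj (hV.prod hU) (hV'.prod hU) isOpen_Off (fun j hj => ?_) hc
      rw [← inter_prod]
      exact h0.1 j (by omega)
    refine ⟨fun k hk c hc => ?_, fun c hc => ?_⟩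
    · obtain ⟨a, ha, b, hb, h3⟩ := key k hk.le c hc
      exact (congr_B h3).2 (add_mem (nat_mono subset_union_left k (h.1 k hk ha))
        (nat_mono subset_union_right k (h'.1 k hk hb)))
    · obtain ⟨a, ha, b, hb, h3⟩ := key 4 le_rfl c hc
      simpa using add_mem (h1 (nat_mono (union_subset s1 s2) 4 h3)) (add_mem (h.2 ha) (h'.2 hb))
  · have key : ∀ k, ∀ c ∈ Z F (V ×ˢ U) (V ×ˢ U ∩ Off X) k, ∃ K, IsCompact K ∧ K ⊆ V ∧
        ∀ V', K ⊆ V' → c ∈ Z F (V' ×ˢ U) (V' ×ˢ U ∩ Off X) k := fun k c hc => by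
      obtain ⟨L, hL, l1, l2⟩ := exists_compact hc.1
      refine ⟨Prod.fst '' L, hL.image continuous_fst, image_subset_iff.2 fun _ h => (l1 h).1,
        fun V' hV' => ?_⟩
      have l3 : c ∈ In F (V' ×ˢ U) (k + 1) :=
        In_mono (fun q hq => mk_mem_prod (hV' (mem_image_of_mem _ hq)) (l1 hq).2) _ l2
      exact ⟨l3, In_inter (D_In l3) (In_mono inter_subset_right _ hc.2)⟩
    refine ⟨fun k hk c hc => ?_, fun c hc => ?_⟩ <;> obtain ⟨K, k1, k2, k3⟩ := key _ c hc <;>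
      obtain ⟨V', v1, v2, v3⟩ := h K k1 k2
    · exact nat_mono v2 k (v3.1 k hk (k3 V' v1))
    · exact v3.2 (k3 V' v1)
  rcases (φ.source ∩ φ ⁻¹' K).eq_empty_or_nonempty with h | ⟨x, hx⟩
  · rw [h, empty_prod]
    exact ⟨fun _ _ _ hc => In_empty hc.1 ▸ zero_mem _, fun _ hc => In_empty hc.1 ▸ zero_mem _⟩
  refine ⟨fun k hk c hc => ?_, fun c hc => ?_⟩ <;>
    obtain ⟨c', h3, h4⟩ := nat_surj hU φ hs ht hK hK' rfl hx hc
  · exact (congr_B h4).2 (nat_fib hx (nat_exc hU (hs hx.1) h3 (loc_low hX x (by simpa using hk)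
      (Z_mono (subset_univ _) inter_subset_right h3))))
  · simpa using add_mem (h1 (nat_mono (inter_subset_left.trans hs) 4 h4)) (h2 x (hs hx.1) c' h3)

lemma IForm.apply_B (h : IForm U τ) {v : C F (X × X)} (hv : v ∈ B F (U ×ˢ U) (U ×ˢ U ∩ Off X) 4) :
    τ v = 0 := by
  obtain ⟨w, hw, h1⟩ := mem_B hv
  simpa [h.coc w hw] using h.off _ h1

lemma IForm.mono (h : IForm U τ) (hU : IsOpen U') (hs : U' ⊆ U) : IForm U' τ :=
  ⟨hU, fun c hc => h.coc c (In_mono (prod_mono hs hs) _ hc),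
    fun v hv => h.off v (In_mono (inter_subset_inter_left _ (prod_mono hs hs)) _ hv),
    fun x hx c hc => h.loc x (hs hx) c (Z_mono hs (inter_subset_inter_left _ hs) hc)⟩

theorem IForm.pull [T2Space X] [T2Space Y] (h : IForm U τ) {φ : Y → X} {O : Set Y} (hφ : LO φ O)
    (hi : InjOn φ O) (hm : MapsTo φ O U) : IForm O (τ ∘ₗ map (Prod.map φ φ)) := by
  have h1 := hφ.continuousOn
  have h2 := h1.prodMap h1
  refine ⟨hφ.1, fun c hc => ?_, fun v hv => ?_, fun x hx c hc h0 => ?_⟩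
  · rw [LinearMap.comp_apply, map_D h2 hc]
    exact h.coc _ (map_In h2 (hm.prodMap hm) hc)
  · exact h.off _ (map_In (A := O ×ˢ O ∩ Off Y) (B := U ×ˢ U ∩ Off X) (h2.mono inter_subset_left)
      (fun q hq => ⟨hm.prodMap hm hq.1, fun e => hq.2 (hi hq.1.1 hq.1.2 e)⟩) hv)
  · obtain ⟨ψ, rfl, rfl, -⟩ := hφ.oph hi
    rw [LinearMap.comp_apply, map_map (by fun_prop) hc.1,
      show Prod.map ψ ψ ∘ Prod.mk x = Prod.mk (ψ x) ∘ ψ from rfl, ← map_map h1 hc.1]
    exact h.loc _ (hm hx) _ (map_Z (U := ψ.source ∩ {x}ᶜ) h1 inter_subset_left hm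
      (fun y hy => ⟨hm hy.1, fun e => hy.2 (hi hy.1 hx e)⟩) hc)
      fun e => h0 ((chart_pt ψ (mem_singleton x) hx hc).2 e)

lemma cross_pull {φ : Y → X} {O : Set Y} (hφ : ContinuousOn φ O) {p q : ℕ} {z y : C F Y}
    (hz : z ∈ In F O (p + 1)) (hy : y ∈ In F O (q + 1)) :
    map (Prod.map φ φ) (cross z y) = cross (map φ z) (map φ y) :=
  eq_In (f := (cross.compr₂ (map (Prod.map φ φ))).flip y)
    (g := (cross.compl₁₂ (map φ) (map φ)).flip y) (fun f hf h1 l _ => eq_In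
      (f := map (Prod.map φ φ) ∘ₗ cross _) (g := cross (map φ _) ∘ₗ map φ) (fun g hg h2 m _ => by
        simp only [LinearMap.comp_apply, cross_single hf hg, map_glob hf, map_glob hg,
          map_glob (hf.prodMap hg), Prod.map_comp_map,
          cross_single (hφ.comp_continuous hf h1) (hφ.comp_continuous hg h2)]) hy) hz

theorem iform_of_thom [T2Space X] (hX : LocEuc (Fin 4) X) {μ : C F X} (h : IsThom 4 μ τ)
    (h0 : ∀ x, μ ∉ B F univ {x}ᶜ 4) : IForm univ τ := by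
  refine ⟨isOpen_univ, univ_prod_univ ▸ h.coc, fun v hv => h.off v (In_mono inter_subset_right _ hv),
    fun x _ c hc hc' => ?_⟩
  have h1 := @loc_gen X _ _ _ _ _ hX F _ x μ c
  rw [Fintype.card_fin] at h1
  obtain ⟨r, hr⟩ := h1 (Z_mono le_rfl (empty_subset _) h.cyc) (h0 x)
    (Z_mono le_rfl inter_subset_right hc)
  obtain ⟨w, hw, h2⟩ := mem_B (map_B (g := Prod.mk x) (O' := univ) (W := Off X) (by fun_prop)
    (subset_univ _) (mapsTo_univ _ _) (fun _ hy => Ne.symm hy) hr)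
  have h3 := h.off _ h2
  simp only [map_sub, map_smul, h.coc w hw, h.one, smul_eq_mul, mul_one, sub_zero] at h3
  rw [sub_eq_zero.1 h3]
  rintro rfl
  exact hc' (by simpa using hr)

theorem exists_iform [T2Space X] [CompactSpace X] (hX : LocEuc (Fin 4) X) :
    ∃ τ : C F2 (X × X) →ₗ[F2] F2, IForm univ τ := by
  obtain ⟨μ, h1, h2⟩ := exists_fund hX
  obtain ⟨τ, h⟩ := exists_isThom hX h1 h2
  rw [Fintype.card_fin] at h h2
  exact ⟨τ, iform_of_thom hX h h2⟩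

theorem IForm.unique [T2Space X] (hX : LocEuc (Fin 4) X) {τ τ' : C F2 (X × X) →ₗ[F2] F2}
    (h : IForm U τ) (h' : IForm U τ') {v : C F2 (X × X)}
    (hv : v ∈ Z F2 (U ×ˢ U) (U ×ˢ U ∩ Off X) 4) : τ v = τ' v := by
  refine thom_gen hX h.opn (S := LinearMap.eqLocus τ τ')
    (fun w hw => (h.apply_B hw).trans (h'.apply_B hw).symm) (fun x hx c hc => ?_) hv
  by_cases h0 : c ∈ B F2 univ {x}ᶜ 4
  · have := nat_fib hx (nat_exc h.opn hx hc h0)
    exact (h.apply_B this).trans (h'.apply_B this).symm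
  · exact (by decide : ∀ a b : ZMod 2, a ≠ 0 → b ≠ 0 → a = b) _ _ (h.loc x hx c hc h0)
      (h'.loc x hx c hc h0)

theorem IForm.swap [T2Space X] (hX : LocEuc (Fin 4) X) (h : IForm U τ) :
    IForm U (τ ∘ₗ map Prod.swap) := by
  have w1 : ContinuousOn (Prod.swap : X × X → X × X) (U ×ˢ U) := continuous_swap.continuousOn
  refine ⟨h.opn, fun c hc => ?_, fun v hv => ?_, fun x hx c hc h0 => ?_⟩
  · rw [LinearMap.comp_apply, map_D w1 hc]
    exact h.coc _ (map_In w1 (fun _ hq => mk_mem_prod hq.2 hq.1) hc)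
  · exact h.off _ (map_In (w1.mono inter_subset_left)
      (fun q hq => mem_inter (mk_mem_prod hq.1.2 hq.1.1) (Ne.symm hq.2)) hv)
  obtain ⟨φ, hx', hs, ht⟩ := nat_chart hX h.opn hx
  have s1 : Continuous φ.symm := continuousOn_univ.1 (ht ▸ φ.continuousOn_symm)
  have s2 : ∀ y, φ (φ.symm y) = y := fun y => φ.right_inv (ht ▸ trivial)
  have s3 : ∀ y, φ.symm y ∈ φ.source := fun y => φ.map_target (ht ▸ trivial)
  have a1 : φ.source ∪ U ∩ {x}ᶜ = U := subset_antisymm (union_subset hs inter_subset_left)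
    fun y hy => (em (y = x)).elim (fun e => Or.inl (e ▸ hx')) fun e => Or.inr ⟨hy, e⟩
  obtain ⟨a, ha, h1⟩ := exc_surj' φ.open_source (h.opn.inter isOpen_compl_singleton)
    (by rwa [a1])
  rw [a1] at h1
  replace ha : a ∈ Z F φ.source (φ.source ∩ {x}ᶜ) 4 :=
    Z_mono le_rfl (inter_subset_inter_right _ inter_subset_right) ha
  let ρ : X → X := fun y => φ.symm (φ x - (φ y - φ x))
  have r1 : ContinuousOn ρ φ.source :=
    s1.comp_continuousOn (continuousOn_const.sub (φ.continuousOn.sub continuousOn_const))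
  have r2 : MapsTo ρ (φ.source ∩ {x}ᶜ) (φ.source ∩ {x}ᶜ) := fun y hy => ⟨s3 _, fun e => hy.2 (by
    have := congrArg φ (show ρ y = x from e)
    rw [s2, sub_eq_self, sub_eq_zero] at this
    exact φ.injOn hy.1 hx' this)⟩
  have r3 := map_Z r1 inter_subset_left (fun _ _ => s3 _) r2 ha
  have r4 : map ρ a ∉ B F univ {x}ᶜ 4 := fun e => by
    have := map_B r1 inter_subset_left (fun _ _ => s3 _) r2 (nat_exc φ.open_source hx' r3 e)
    rw [map_map r1 ha.1, map_self (g := ρ ∘ ρ) (fun y hy => by simp [ρ, s2, φ.left_inv hy]) ha.1]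
      at this
    exact h0 ((congr_B (B_mono (subset_univ _) inter_subset_right h1)).2
      (B_mono (subset_univ _) inter_subset_right this))
  let H : X × ℝ → X × X := fun q =>
    (φ.symm (φ x + (1 - q.2) • (φ q.1 - φ x)), φ.symm (φ x - q.2 • (φ q.1 - φ x)))
  have H1 : ContinuousOn H (φ.source ×ˢ Icc 0 1) := by
    have : ContinuousOn (fun q : X × ℝ => φ q.1 - φ x) (φ.source ×ˢ Icc 0 1) :=
      (φ.continuousOn.comp continuousOn_fst fun _ h => h.1).sub continuousOn_const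
    exact (s1.comp_continuousOn (continuousOn_const.add
      ((continuousOn_const.sub continuousOn_snd).smul this))).prodMk
      (s1.comp_continuousOn (continuousOn_const.sub (continuousOn_snd.smul this)))
  have h2 := htpy_B (U := φ.source ∩ {x}ᶜ) H1 inter_subset_left (A := U ×ˢ U)
    (A' := U ×ˢ U ∩ Off X) (fun q _ => ⟨hs (s3 _), hs (s3 _)⟩)
    (fun q hq => ⟨⟨hs (s3 _), hs (s3 _)⟩, fun e => hq.1.2 (by
      have := congrArg φ (show φ.symm _ = φ.symm _ from e)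
      rw [s2, s2, sub_smul, one_smul, add_sub, sub_left_inj, add_eq_left, sub_eq_zero] at this
      exact φ.injOn hq.1.1 hx' this)⟩) ha
  rw [map_congr (g' := Prod.mk x ∘ ρ) (fun y _ => by simp [H, ρ, φ.left_inv hx']) ha.1,
    map_congr (g := fun y => H (y, 0)) (g' := fun y => (y, x))
      (fun y hy => by simp [H, φ.left_inv hx', φ.left_inv hy]) ha.1, ← map_map r1 ha.1] at h2
  have h3 := map_B (g := fun y => (y, x)) (O' := U ×ˢ U) (W := U ×ˢ U ∩ Off X) (by fun_prop)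
    inter_subset_left (fun _ hy => ⟨hy, hx⟩) (fun _ hy => ⟨⟨hy.1, hx⟩, hy.2⟩) h1
  have h4 := h.apply_B (sub_mem h3 h2)
  rw [LinearMap.comp_apply, map_map (by fun_prop) hc.1,
    show Prod.swap ∘ Prod.mk x = fun y => (y, x) from rfl]
  simp only [map_sub, sub_sub_sub_cancel_right, sub_eq_zero] at h4
  rw [h4]
  exact h.loc x hx _ (Z_mono hs (inter_subset_inter_left _ hs) r3) r4

end Pool.Agent.Lib.MP_45bb13_gt
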