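import Pool.Agent.Lib.MP_45bb13_gt.Iso

/-! Normal form of the choreography. -/

set_option linter.unusedSectionVars false

namespace Pool.Agent.Lib.MP_45bb13_gt

open Set Filter Topology Complex
open scoped ComplexConjugate

lemma norm_fig_third (t : ℝ) : fig (t + 4 / 3) =
    ⟨2 * Real.sin (Real.pi * (t + 1 / 3)) * Real.cos (Real.pi * (t + 1 / 3)),
      -Real.cos (Real.pi * (t + 1 / 3))⟩ := by
  rw [show t + 4 / 3 = t + 1 / 3 + 1 by ring, fig_one]
  refine Complex.ext ?_ ?_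
  · simp only [fig, conj_re, mul_assoc, Real.sin_two_mul]
  · simp only [fig, conj_im]

lemma norm_dd_eq (φ : ℝ) : dd φ =
    ⟨√3 * (1 - 2 * Real.sin (Real.pi * φ) ^ 2), -(√3 * Real.sin (Real.pi * φ))⟩ := by
  rw [dd, mul_assoc, Real.cos_two_mul, Real.cos_sq']
  congr 2
  ring

lemma norm_sum (t : ℝ) : fig t + fig (t + 2 / 3) = -fig (t + 4 / 3) := by
  rw [show t + 4 / 3 = t + 1 / 3 + 1 by ring, fig_one]
  refine Complex.ext ?_ ?_
  · simp only [fig, add_re, neg_re, conj_re]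
    rw [show 2 * Real.pi * t = 2 * Real.pi * (t + 1 / 3) - (Real.pi - Real.pi / 3) by ring,
      show 2 * Real.pi * (t + 2 / 3) = 2 * Real.pi * (t + 1 / 3) + (Real.pi - Real.pi / 3) by ring,
      Real.sin_add, Real.sin_sub, Real.cos_pi_sub, Real.cos_pi_div_three]
    ring
  · simp only [fig, add_im, neg_im, conj_im]
    rw [show Real.pi * t = Real.pi * (t + 1 / 3) - Real.pi / 3 by ring,
      show Real.pi * (t + 2 / 3) = Real.pi * (t + 1 / 3) + Real.pi / 3 by ring,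
      Real.cos_add, Real.cos_sub, Real.cos_pi_div_three]
    ring

/-- The third body in the frame of the first two. -/
noncomputable def normXi : Xi where
  f t := 3 * fig (t + 4 / 3) / dd (t + 1 / 3)
  cont := (continuous_const.mul (continuous_fig.comp (by fun_prop))).div
    (continuous_dd.comp (by fun_prop)) fun _ => dd_ne _
  eqv t := by
    rw [show t + 1 + 4 / 3 = t + 4 / 3 + 1 by ring, show t + 1 + 1 / 3 = t + 1 / 3 + 1 by ring,
      fig_one, dd_one, map_div₀, map_mul, map_ofNat]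
  ne1 t h := by
    rw [div_eq_iff (dd_ne _), ← fig_sub] at h
    refine fig_ne (t + 2 / 3) ?_
    rw [show t + 2 / 3 + 2 / 3 = t + 4 / 3 by ring]
    linear_combination (h - norm_sum t) / 2
  ne2 t h := by
    rw [div_eq_iff (dd_ne _), ← fig_sub] at h
    refine fig_ne (t + 4 / 3) ?_
    rw [show t + 4 / 3 + 2 / 3 = t + 2 by ring, fig_two]
    linear_combination (norm_sum t - h) / 2

lemma norm_xi (t : ℝ) {s c : ℝ} (hs : s = Real.sin (Real.pi * (t + 1 / 3)))
    (hc : c = Real.cos (Real.pi * (t + 1 / 3))) : ∃ D : ℝ, 0 < D ∧ D = (1 - 2 * s ^ 2) ^ 2 + s ^ 2 ∧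
      (normXi.f t).re = √3 * (s * c * (3 - 4 * s ^ 2)) / D ∧
      (normXi.f t).im = √3 * (c * (4 * s ^ 2 - 1)) / D := by
  have hD : 0 < (1 - 2 * s ^ 2) ^ 2 + s ^ 2 := by nlinarith [sq_nonneg (s ^ 2 - 3 / 8)]
  have h3 : √3 * √3 = 3 := Real.mul_self_sqrt (by norm_num)
  have h4 : normXi.f t = ⟨√3 * (s * c * (3 - 4 * s ^ 2)) / ((1 - 2 * s ^ 2) ^ 2 + s ^ 2),
      √3 * (c * (4 * s ^ 2 - 1)) / ((1 - 2 * s ^ 2) ^ 2 + s ^ 2)⟩ := by
    change 3 * fig (t + 4 / 3) / dd (t + 1 / 3) = _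
    rw [div_eq_iff (dd_ne _), norm_fig_third, norm_dd_eq, ← hs, ← hc]
    refine Complex.ext ?_ ?_
    · simp only [mul_re, re_ofNat, im_ofNat]
      field_simp
      linear_combination (-2 * c * s * ((1 - 2 * s ^ 2) ^ 2 + s ^ 2)) * h3
    · simp only [mul_im, re_ofNat, im_ofNat]
      field_simp
      linear_combination (c * ((1 - 2 * s ^ 2) ^ 2 + s ^ 2)) * h3
  exact ⟨_, hD, rfl, by rw [h4], by rw [h4]⟩

lemma norm_cos_le {x : ℝ} (h1 : 2 / 3 ≤ x) (h2 : x ≤ 4 / 3) : Real.cos (Real.pi * x) ≤ -(1 / 2) := by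
  have hp := Real.pi_pos
  rw [show Real.pi * x = Real.pi * (x - 1) + Real.pi by ring, Real.cos_add_pi, neg_le_neg_iff,
    ← Real.cos_pi_div_three, ← Real.cos_abs (Real.pi * (x - 1))]
  refine Real.cos_le_cos_of_nonneg_of_le_pi (abs_nonneg _) (by linarith) (abs_le.2 ⟨?_, ?_⟩) <;>
    nlinarith

lemma norm_rel (q : ℕ) (ξ' : Xi) (h : ∀ t, ξ'.f t = normXi.f ((2 * q + 1) * t)) :
    BRel (chB q) (bx ξ') := by
  have e0 : ∀ t, (chB q).b 0 t = fig ((2 * q + 1) * t) := fun t => by simp [chB]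
  have e1 : ∀ t, (chB q).b 1 t = fig ((2 * q + 1) * t + 2 / 3) := fun t => by simp [chB]
  have e2 : ∀ t, (chB q).b 2 t = fig ((2 * q + 1) * t + 4 / 3) := fun t => by
    simp only [chB]; norm_num
  have hd : ∀ t, (chB q).b 1 t - (chB q).b 0 t = dd ((2 * q + 1) * t + 1 / 3) := fun t => by
    rw [e0, e1, fig_sub]
  have hn : ∀ t, (chB q).b 1 t - (chB q).b 0 t ≠ 0 := fun t => hd t ▸ dd_ne _
  have hc := (chB q).cont
  refine rel_htpy _ _ (fun i p => ((1 - p.1) + p.1 * (2 / ((chB q).b 1 p.2 - (chB q).b 0 p.2))) *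
    (chB q).b i p.2 - p.1 * (((chB q).b 0 p.2 + (chB q).b 1 p.2) /
      ((chB q).b 1 p.2 - (chB q).b 0 p.2))) (fun i => ?_) (fun i t => by simp) (fun i t => ?_)
    (fun i s _ t => by simp [(chB q).eqv, map_ofNat]) fun s hs t i j e => ?_
  · have c0 : ∀ i, Continuous fun p : ℝ × ℝ => (chB q).b i p.2 := fun i =>
      (hc i).comp continuous_snd
    have c1 : Continuous fun p : ℝ × ℝ => (p.1 : ℂ) := continuous_ofReal.comp continuous_fst
    exact (((continuous_const.sub c1).add (c1.mul (continuous_const.div ((c0 1).sub (c0 0))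
      fun p => hn _))).mul (c0 i)).sub (c1.mul (((c0 0).add (c0 1)).div ((c0 1).sub (c0 0))
      fun p => hn _))
  · have := hn t
    fin_cases i
    · simp [bx]; field_simp; ring
    · simp [bx]; field_simp; ring
    · have h5 := norm_sum ((2 * q + 1) * t)
      rw [← e0, ← e1, ← e2] at h5
      simp only [bx, Fin.reduceFinMk, Matrix.cons_val, h, normXi, ← hd, ← e2, h5]
      push_cast
      field_simp
      ring
  · refine (chB q).inj t i j (mul_left_cancel₀ (fun h0 => ?_) (sub_left_injective e))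
    have h1 : (1 - s) * dd ((2 * q + 1) * t + 1 / 3) + 2 * s = 0 := by
      have := hn t
      rw [← hd]
      field_simp at h0
      linear_combination h0
    rw [norm_dd_eq] at h1
    have h2 := congrArg re h1
    have h3 := congrArg im h1
    have h4 : 0 < √3 := by positivity
    simp only [add_re, mul_re, sub_re, one_re, ofReal_re, sub_im, one_im, ofReal_im, re_ofNat,
      im_ofNat, add_im, mul_im, zero_re, zero_im] at h2 h3
    have h5 : (1 - s) * Real.sin (Real.pi * ((2 * q + 1) * t + 1 / 3)) = 0 :=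
      mul_left_cancel₀ h4.ne' (by linarith)
    rcases mul_eq_zero.1 h5 with h6 | h6
    · rw [h6] at h2; linarith
    · rw [h6] at h2
      have h7 : 1 < √3 := by rw [Real.lt_sqrt zero_le_one]; norm_num
      nlinarith [hs.1, hs.2]

theorem exists_xi : ∃ ξ : Xi, 0 < (ξ.f 0).im ∧ (ξ.f (1 / 3)).im < 0 ∧ 0 < (ξ.f (2 / 3)).im ∧
    (∀ t ∈ Icc (0 : ℝ) (1 / 3), (ξ.f t).im = 0 → -1 < (ξ.f t).re ∧ (ξ.f t).re < 1) ∧
    (∀ t ∈ Icc (1 / 3 : ℝ) (2 / 3), (ξ.f t).im = 0 → (ξ.f t).re < -1) ∧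
    (∀ t ∈ Icc (2 / 3 : ℝ) 1, (ξ.f t).im = 0 → 1 < (ξ.f t).re) ∧
    ∀ (q : ℕ) (ξ' : Xi), (∀ t, ξ'.f t = ξ.f ((2 * q + 1) * t)) → BRel (chB q) (bx ξ') := by
  have h4 : 0 < √3 := by positivity
  have h3 : √3 * √3 = 3 := Real.mul_self_sqrt (by norm_num)
  have hp := Real.pi_pos
  refine ⟨normXi, ?_, ?_, ?_, fun t ht h => ?_, fun t ht h => ?_, fun t ht h => ?_, norm_rel⟩
  · obtain ⟨D, h1, -, -, h2⟩ := norm_xi 0 (s := √3 / 2) (c := 1 / 2)
      (by rw [← Real.sin_pi_div_three]; congr 1; ring)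
      (by rw [← Real.cos_pi_div_three]; congr 1; ring)
    rw [h2]
    exact div_pos (mul_pos h4 (by nlinarith)) h1
  · obtain ⟨D, h1, -, -, h2⟩ := norm_xi (1 / 3) (s := √3 / 2) (c := -(1 / 2))
      (by rw [← Real.sin_pi_div_three, ← Real.sin_pi_sub]; congr 1; ring)
      (by rw [← Real.cos_pi_div_three, ← Real.cos_pi_sub]; congr 1; ring)
    rw [h2]
    exact div_neg_of_neg_of_pos (mul_neg_of_pos_of_neg h4 (by nlinarith)) h1
  · obtain ⟨D, h1, -, -, h2⟩ := norm_xi (2 / 3) (s := 0) (c := -1)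
      (by rw [← Real.sin_pi]; congr 1; ring) (by rw [← Real.cos_pi]; congr 1; ring)
    rw [h2]
    exact div_pos (mul_pos h4 (by norm_num)) h1
  · obtain ⟨D, h1, -, h5, h2⟩ := norm_xi t rfl rfl
    have h6 := Real.sin_sq_add_cos_sq (Real.pi * (t + 1 / 3))
    have h7 : Real.cos (Real.pi * (t + 1 / 3)) ≤ 1 / 2 := by
      rw [← Real.cos_pi_div_three]
      exact Real.cos_le_cos_of_nonneg_of_le_pi (by positivity) (by nlinarith [ht.2])
        (by nlinarith [ht.1])
    have h8 : -(1 / 2) ≤ Real.cos (Real.pi * (t + 1 / 3)) := by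
      rw [← Real.cos_pi_div_three, ← Real.cos_pi_sub]
      exact Real.cos_le_cos_of_nonneg_of_le_pi (by nlinarith [ht.1]) (by linarith)
        (by nlinarith [ht.2])
    rw [h2, div_eq_zero_iff, mul_eq_zero, mul_eq_zero] at h
    have h9 : Real.cos (Real.pi * (t + 1 / 3)) = 0 := by
      rcases h with (h | h | h) | h
      exacts [absurd h h4.ne', h, by nlinarith, absurd h h1.ne']
    rw [h5, h9]
    norm_num
  all_goals
    obtain ⟨D, h1, hD, h5, h2⟩ := norm_xi t rfl rfl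
    have h6 := Real.sin_sq_add_cos_sq (Real.pi * (t + 1 / 3))
    have h7 := norm_cos_le (x := t + 1 / 3) (by linarith [ht.1]) (by linarith [ht.2])
    rw [h2, div_eq_zero_iff, mul_eq_zero, mul_eq_zero] at h
    have h9 : Real.sin (Real.pi * (t + 1 / 3)) ^ 2 = 1 / 4 := by
      rcases h with (h | h | h) | h
      exacts [absurd h h4.ne', by linarith, by linarith, absurd h h1.ne']
    have h10 : 1 < √3 := by rw [Real.lt_sqrt zero_le_one]; norm_num
    rw [h5, hD, h9]
  · have h8 : 0 ≤ Real.sin (Real.pi * (t + 1 / 3)) :=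
      Real.sin_nonneg_of_nonneg_of_le_pi (by nlinarith [ht.1]) (by nlinarith [ht.2])
    have h11 : Real.sin (Real.pi * (t + 1 / 3)) = 1 / 2 := by nlinarith
    rw [h11, div_lt_iff₀ (by norm_num)]
    nlinarith
  · have h8 : Real.sin (Real.pi * (t + 1 / 3)) ≤ 0 := by
      rw [show Real.pi * (t + 1 / 3) = Real.pi * (t - 2 / 3) + Real.pi by ring, Real.sin_add_pi,
        neg_nonpos]
      exact Real.sin_nonneg_of_nonneg_of_le_pi (by nlinarith [ht.1]) (by nlinarith [ht.2])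
    have h11 : Real.sin (Real.pi * (t + 1 / 3)) = -(1 / 2) := by nlinarith
    rw [h11, lt_div_iff₀ (by norm_num)]
    nlinarith

end Pool.Agent.Lib.MP_45bb13_gt
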