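import Pool.Agent.Lib.MP_18d288_gt.Geo
import Pool.Agent.Shared.Sing.Bridge
import Pool.Agent.Shared.Sing.Orient
import Pool.Agent.Shared.Sing.Glob

/-! Simply connected closed manifolds are orientable. -/

set_option linter.unusedSectionVars false

namespace Pool.Agent.Lib.MP_45bb13_gt

open Set Filter Topology Complex Pool.Agent.Shared.Sing Pool.Agent.Shared.SingEZ
open scoped ComplexConjugate

namespace OriAux

/-- A locally constant cocycle on a simply connected space is a coboundary. -/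
theorem exists_sec {X G : Type} [TopologicalSpace X] [SimplyConnectedSpace X]
    [LocallyPathConnectedSpace X] [Group G] (O : X → Set X) (hO : ∀ i, IsOpen (O i))
    (hc : ∀ x, x ∈ O x) (c : X → X → G)
    (h : ∀ i k, ∀ x ∈ O i, x ∈ O k → ∀ᶠ y in 𝓝 x, c k y * (c i y)⁻¹ = c k x * (c i x)⁻¹) :
    ∃ ε : X → G, ∀ x, ∀ᶠ y in 𝓝 x, c x y * (c y y)⁻¹ * ε y = ε x := by
  let : TopologicalSpace G := ⊥
  have : DiscreteTopology G := ⟨rfl⟩
  let F : FiberBundleCore X X G :=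
    { baseSet := O
      isOpen_baseSet := hO
      indexAt := id
      mem_baseSet_at := hc
      coordChange := fun i k x v => c k x * (c i x)⁻¹ * v
      coordChange_self := fun i x _ v => by simp
      continuousOn_coordChange := fun i k q hq => by
        refine ContinuousAt.continuousWithinAt ?_
        rw [ContinuousAt, nhds_discrete G, tendsto_pure, nhds_prod_eq, nhds_discrete G]
        exact ((h i k _ hq.1.1 hq.1.2).prod_mk (eventually_pure.2 rfl :
          ∀ᶠ v in pure q.2, v = q.2)).mono fun y hy => by rw [hy.1, hy.2]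
      coordChange_comp := fun i j k x _ v => by simp [mul_assoc] }
  have cov : IsCoveringMap F.proj := FiberBundle.isCoveringMap
  obtain ⟨x₀⟩ : Nonempty X := inferInstance
  obtain ⟨s, ⟨-, hs⟩, -⟩ := cov.existsUnique_continuousMap_lifts (ContinuousMap.id X) x₀
    ⟨x₀, (1 : G)⟩ rfl
  have h1 : ∀ y, (s y).1 = y := fun y => congrFun hs y
  refine ⟨fun y => (s y).2, fun x => ?_⟩
  have h3 : ContinuousAt (fun y => (F.localTriv x (s y)).2) x :=
    continuousAt_snd.comp (((F.localTriv x).continuousAt ((F.localTriv x).mem_source.2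
      (show (s x).1 ∈ O x from (h1 x).symm ▸ hc x))).comp s.continuous.continuousAt)
  rw [ContinuousAt, nhds_discrete G, tendsto_pure] at h3
  have h4 : ∀ y, (F.localTriv x (s y)).2 = c x y * (c y y)⁻¹ * (show G from (s y).2) := fun y => by
    change c x (s y).1 * (c (s y).1 (s y).1)⁻¹ * (show G from (s y).2) = _
    rw [h1]
  simpa only [h4, mul_inv_cancel, one_mul] using h3

variable {Y : Type} [TopologicalSpace Y] [Nonempty Y] {d : ℕ} {x : Y} {c c' : C ℤ Y}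

/-- `c` freely generates the integral local homology at `x`. -/
def Gen (d : ℕ) (x : Y) (c : C ℤ Y) : Prop :=
  c ∈ Z ℤ univ {x}ᶜ d ∧ (∀ r : ℤ, r • c ∈ B ℤ univ {x}ᶜ d → r = 0) ∧
    ∀ c' ∈ Z ℤ univ {x}ᶜ d, ∃ r : ℤ, c' - r • c ∈ B ℤ univ {x}ᶜ d

theorem Gen.unit (h : Gen d x c) (hc : c' ∈ Z ℤ univ {x}ᶜ d) {u : ℤˣ}
    (hu : c' - (u : ℤ) • c ∈ B ℤ univ {x}ᶜ d) : Gen d x c' := by
  refine ⟨hc, fun r hr => ?_, fun e he => ?_⟩
  · have := h.2.1 (r * u) (by
      convert sub_mem hr (Submodule.smul_mem _ r hu) using 1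
      module)
    simpa using this
  · obtain ⟨r, hr⟩ := h.2.2 e he
    refine ⟨r * u, ?_⟩
    convert sub_mem hr (Submodule.smul_mem _ (r * u) hu) using 1
    rw [smul_sub, smul_smul, mul_assoc, Int.units_coe_mul_self, mul_one]
    abel

theorem Gen.exists_unit (h : Gen d x c) (h' : Gen d x c') :
    ∃ u : ℤˣ, c' - (u : ℤ) • c ∈ B ℤ univ {x}ᶜ d := by
  obtain ⟨r, hr⟩ := h.2.2 c' h'.1
  obtain ⟨s, hs⟩ := h'.2.2 c h.1
  have := h.2.1 (1 - s * r) (by
    convert add_mem hs (Submodule.smul_mem _ s hr) using 1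
    module)
  exact ⟨⟨r, s, by linarith, by linarith⟩, hr⟩

theorem Gen.unique (h : Gen d x c) {u v : ℤˣ} (hu : c' - (u : ℤ) • c ∈ B ℤ univ {x}ᶜ d)
    (hv : c' - (v : ℤ) • c ∈ B ℤ univ {x}ᶜ d) : u = v := by
  have := h.2.1 (u - v) (by
    convert sub_mem hv hu using 1
    module)
  exact Units.ext (by linarith)

theorem Gen.zmod (h : Gen d x c) {p : ℕ} (hp : p ≠ 1) :
    cf (Int.castRingHom (ZMod p)) c ∉ B (ZMod p) univ {x}ᶜ d := fun hB => by
  obtain ⟨w0, hw0, hv0⟩ := mem_B hB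
  obtain ⟨w, hw, e0⟩ := cf_lift (Int.castRingHom (ZMod p)) (ZMod.intCast_surjective) hw0
  obtain ⟨v, hv, e⟩ := cf_lift (Int.castRingHom (ZMod p)) (ZMod.intCast_surjective) hv0
  have h0 : cf (Int.castRingHom (ZMod p)) (c - D w - v) = 0 := by
    rw [map_sub, map_sub, cf_D, e, e0, sub_self]
  have h1 : c - D w - v ∈ In ℤ univ (d + 1) := sub_mem (sub_mem h.1.1 (D_In hw)) (In_univ hv)
  obtain ⟨a, ha, h2⟩ : ∃ a ∈ In ℤ univ (d + 1), (p : ℤ) • a = c - D w - v := by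
    refine ⟨(c - D w - v).mapRange (· / (p : ℤ)) (Int.zero_ediv _), fun s hs =>
      h1 (Finsupp.support_mapRange hs), Finsupp.ext fun s => ?_⟩
    rw [Finsupp.smul_apply, Finsupp.mapRange_apply, smul_eq_mul]
    exact Int.mul_ediv_cancel' ((ZMod.intCast_zmod_eq_zero_iff_dvd _ p).1
      (DFunLike.congr_fun h0 s))
  have h3 : c - (p : ℤ) • a ∈ B ℤ univ {x}ᶜ d := B_of hw (by
    rw [h2, show c - (c - D w - v) - D w = v by abel]
    exact hv)
  rcases eq_or_ne p 0 with rfl | hp0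
  · exact one_ne_zero (h.2.1 1 (by simpa using h3))
  have h4 : (p : ℤ) • D a ∈ In ℤ {x}ᶜ d := by
    rw [← map_smul, h2, map_sub, map_sub, D_D, sub_zero]
    exact sub_mem (Z_D h.1) (D_In hv)
  obtain ⟨r, hr⟩ := h.2.2 a ⟨ha, fun s hs => h4 (by
    rw [Finset.mem_coe, Finsupp.mem_support_iff] at hs ⊢
    rw [Finsupp.smul_apply, smul_eq_mul]
    exact mul_ne_zero (by exact_mod_cast hp0) hs)⟩
  have h5 := h.2.1 (1 - p * r) (by
    convert add_mem h3 (Submodule.smul_mem _ (p : ℤ) hr) using 1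
    module)
  exact hp (by exact_mod_cast Int.eq_one_of_mul_eq_one_right (Int.natCast_nonneg p) (by linarith))

theorem supp_of_inj {α S : Type} [CommRing S] {φ : ℤ →+* S} (hφ : Function.Injective φ) {T : Set α}
    {c : α →₀ ℤ} (hc : cf φ c ∈ Finsupp.supported S S T) : c ∈ Finsupp.supported ℤ ℤ T :=
  fun s hs => hc (by
    rw [Finset.mem_coe, Finsupp.mem_support_iff] at hs ⊢
    exact (map_ne_zero_iff φ hφ).2 hs)

theorem exists_den {α : Type} (w : α →₀ ℚ) :
    ∃ N : ℤ, N ≠ 0 ∧ ∃ w', cf (Int.castRingHom ℚ) w' = (N : ℚ) • w := by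
  induction w using Finsupp.induction_linear with
  | zero => exact ⟨1, one_ne_zero, 0, by simp⟩
  | add f g hf hg =>
    obtain ⟨N, hN, f', hf⟩ := hf
    obtain ⟨M, hM, g', hg⟩ := hg
    refine ⟨N * M, mul_ne_zero hN hM, M • f' + N • g', ?_⟩
    rw [map_add, cf_smul, cf_smul, hf, hg, eq_intCast, eq_intCast, Int.cast_mul]
    module
  | single a r =>
    refine ⟨r.den, by exact_mod_cast r.den_ne_zero, Finsupp.single a r.num, ?_⟩
    rw [cf_single, Finsupp.smul_single, smul_eq_mul, Int.cast_natCast, Rat.den_mul_eq_num,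
      eq_intCast]

theorem Gen.rat (h : Gen d x c) : cf (Int.castRingHom ℚ) c ∉ B ℚ univ {x}ᶜ d := fun hB => by
  obtain ⟨w, hw, hv⟩ := mem_B hB
  obtain ⟨N, hN, w', e⟩ := exists_den w
  refine hN (h.2.1 N (B_of (w := w') (supp_of_inj (φ := Int.castRingHom ℚ) Int.cast_injective ?_)
    (supp_of_inj (φ := Int.castRingHom ℚ) Int.cast_injective ?_)))
  · rw [e]
    exact Submodule.smul_mem _ _ hw
  · rw [map_sub, cf_D, e, cf_smul, map_smul, eq_intCast, ← smul_sub]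
    exact Submodule.smul_mem _ _ hv

theorem Gen.real (h : Gen d x c) : cf (Int.castRingHom ℝ) c ∉ B ℝ univ {x}ᶜ d := fun hB => by
  obtain ⟨l, hl⟩ := Module.Projective.exists_dual_eq_one ℚ (one_ne_zero : (1 : ℝ) ≠ 0)
  let af : C ℝ Y →+ C ℚ Y := Finsupp.mapRange.addMonoidHom l.toAddMonoidHom
  have h1 : ∀ (r : ℝ) (e : C ℤ Y), af (r • cf (Int.castRingHom ℝ) e) =
      l r • cf (Int.castRingHom ℚ) e := fun r e => Finsupp.ext fun s => by
    change l (r * (e s : ℝ)) = l r * (e s : ℚ)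
    rw [mul_comm r, mul_comm (l r), ← smul_eq_mul (e s : ℚ), ← map_smul, Rat.smul_def,
      Rat.cast_intCast]
  have h2 : ∀ w, af (D w) = D (af w) := fun w => by
    induction w using Finsupp.induction_linear with
    | zero => simp
    | add f g hf hg => simp [hf, hg]
    | single a r =>
      have : Finsupp.single a r = r • cf (Int.castRingHom ℝ) (Finsupp.single a 1) := by simp
      rw [this, map_smul, ← cf_D, h1, h1, map_smul, cf_D]
  have h3 : ∀ (A : Set Y) (n : ℕ), ∀ w ∈ In ℝ A n, af w ∈ In ℚ A n := fun A n w hw s hs =>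
    hw (Finsupp.support_mapRange (hf := map_zero l.toAddMonoidHom) hs)
  obtain ⟨w, hw, hv⟩ := mem_B hB
  refine h.rat (B_of (h3 _ _ w hw) ?_)
  have h4 := h1 1 c
  rw [one_smul, hl, one_smul] at h4
  rw [← h2, ← h4, ← map_sub]
  exact h3 _ _ _ hv

variable {ι : Type} [Fintype ι] [T2Space Y] (hY : LocEuc ι Y)
include hY

theorem exists_gen (x : Y) : ∃ c, Gen (Fintype.card ι) x c := by
  obtain ⟨φ, hs⟩ := hY x
  obtain ⟨z, hz, h1, h2⟩ := (loc_euc (R := ℤ) (φ x)).2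
  obtain ⟨c, hc, h3⟩ := chart_surj φ (singleton_subset_iff.2 hs)
    (image_singleton ▸ isClosed_singleton) (image_singleton ▸ hz)
  rw [image_singleton] at h3
  refine ⟨c, Z_mono (subset_univ _) inter_subset_right hc, fun r hr => h1 r ?_, fun e he => ?_⟩
  · have := (chart_pt φ (mem_singleton x) hs (Submodule.smul_mem _ r hc)).1 hr
    convert add_mem this (Submodule.smul_mem _ r h3) using 1
    rw [map_smul]
    module
  · obtain ⟨a, ha, h4⟩ := exc_surj φ.open_source isOpen_compl_singleton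
      (by simpa [← compl_subset_iff_union]) he
    obtain ⟨r, hr⟩ := h2 _ (image_singleton ▸ Z_mono (subset_univ _) inter_subset_right
      (chart_Z φ (singleton_subset_iff.2 hs) ha))
    have := (chart_pt φ (mem_singleton x) hs (sub_mem ha (Submodule.smul_mem _ r hc))).2 (by
      convert add_mem hr (Submodule.smul_mem _ r h3) using 1
      rw [map_sub, map_smul]
      module)
    exact ⟨r, by simpa using add_mem h4 this⟩

theorem Gen.spread {K : Set Y} (hK : IsPreconnected K) (hc : c ∈ Z ℤ univ Kᶜ (Fintype.card ι))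
    {y : Y} (hx : x ∈ K) (hy : y ∈ K) (h : Gen (Fintype.card ι) x c) :
    Gen (Fintype.card ι) y c := by
  obtain ⟨z, hz⟩ := exists_gen hY y
  have h1 := Z_anti (singleton_subset_iff.2 hy) hc
  obtain ⟨k, hk⟩ := hz.2.2 c h1
  by_cases hu : k.natAbs = 1
  · obtain ⟨u, rfl⟩ := Int.isUnit_iff_natAbs_eq.2 hu
    exact hz.unit h1 hk
  · refine absurd ((null_iff hY hK (cf_Z _ hc) hx hy).2 ?_) (h.zmod hu)
    have := cf_B (Int.castRingHom (ZMod k.natAbs)) hk
    rwa [map_sub, cf_smul, eq_intCast,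
      (ZMod.intCast_zmod_eq_zero_iff_dvd k _).2 (Int.natAbs_dvd.2 dvd_rfl), zero_smul,
      sub_zero] at this

theorem lpc : LocallyPathConnectedSpace Y := by
  let : ChartedSpace (ι → ℝ) Y := ⟨univ, fun x => (hY x).choose, fun x => (hY x).choose_spec,
    fun _ => trivial⟩
  exact ChartedSpace.locallyPathConnectedSpace (ι → ℝ) Y

theorem exists_loc (x : Y) : ∃ O, IsOpen O ∧ x ∈ O ∧ ∃ c ∈ Z ℤ univ Oᶜ (Fintype.card ι),
    ∀ y ∈ O, Gen (Fintype.card ι) y c := by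
  have := lpc hY
  obtain ⟨c, hc⟩ := exists_gen hY x
  obtain ⟨L, hL, hLx, h2⟩ := exists_compact (Z_D hc.1)
  obtain ⟨O, ⟨h3, h4, h5⟩, h6⟩ := (LocallyConnectedSpace.open_connected_basis x).mem_iff.1
    (hL.isClosed.isOpen_compl.mem_nhds fun h => hLx h rfl)
  have h7 : c ∈ Z ℤ univ Oᶜ (Fintype.card ι) := ⟨hc.1.1, In_mono (subset_compl_comm.1 h6) _ h2⟩
  exact ⟨O, h3, h4, c, h7, fun y hy => hc.spread hY h5.isPreconnected h7 h4 hy⟩

theorem exists_section [SimplyConnectedSpace Y] : ∃ s : Y → C ℤ Y, ∀ x,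
    Gen (Fintype.card ι) x (s x) ∧ ∃ O ∈ 𝓝 x, s x ∈ Z ℤ univ Oᶜ (Fintype.card ι) ∧
      ∀ y ∈ O, s x - s y ∈ B ℤ univ {y}ᶜ (Fintype.card ι) := by
  have := lpc hY
  choose O o1 o2 c hc hg using exists_loc hY
  have hk : ∀ i y, ∃ u : ℤˣ, y ∈ O i → c i - (u : ℤ) • c y ∈ B ℤ univ {y}ᶜ (Fintype.card ι) := by
    intro i y
    by_cases hy : y ∈ O i
    · exact ((hg y y (o2 y)).exists_unit (hg i y hy)).imp fun u hu _ => hu
    · exact ⟨1, fun h => absurd h hy⟩
  choose κ hκ using hk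
  have key : ∀ i k, ∀ y ∈ O i, y ∈ O k →
      c k - ((κ k y * (κ i y)⁻¹ : ℤˣ) : ℤ) • c i ∈ B ℤ univ {y}ᶜ (Fintype.card ι) := by
    intro i k y hi hk
    convert sub_mem (hκ k y hk) (Submodule.smul_mem _ ((κ k y * (κ i y)⁻¹ : ℤˣ) : ℤ) (hκ i y hi))
      using 1
    rw [smul_sub, smul_smul, ← Units.val_mul, inv_mul_cancel_right]
    abel
  obtain ⟨ε, hε⟩ := exists_sec O o1 o2 κ fun i k x hi hk => by
    filter_upwards [loc_const hY (sub_mem (hg k x hk).1 (Submodule.smul_mem _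
      ((κ k x * (κ i x)⁻¹ : ℤˣ) : ℤ) (hg i x hi).1)), (o1 i).mem_nhds hi, (o1 k).mem_nhds hk]
      with y h1 h2 h3
    exact (hg i y h2).unique (key i k y h2 h3) (h1.2 (key i k x hi hk))
  refine ⟨fun y => (ε y : ℤ) • c y, fun x => ⟨(hg x x (o2 x)).unit (u := ε x)
    (Submodule.smul_mem _ _ (hg x x (o2 x)).1) (by simp), _,
    inter_mem ((o1 x).mem_nhds (o2 x)) (hε x),
    Submodule.smul_mem _ _ (Z_anti inter_subset_left (hc x)), fun y hy => ?_⟩⟩
  have h1 := Submodule.smul_mem _ (ε x : ℤ) (key y x y (o2 y) hy.1)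
  have h2 : ε x * (κ x y * (κ y y)⁻¹) = ε y := by
    rw [← show _ = ε x from hy.2, mul_right_comm _ (ε y), Int.units_mul_self, one_mul]
  rwa [smul_sub, smul_smul, ← Units.val_mul, h2] at h1

theorem exists_cycle [CompactSpace Y] [SimplyConnectedSpace Y] :
    ∃ c ∈ Z ℤ univ ∅ (Fintype.card ι), ∀ y : Y, Gen (Fintype.card ι) y c := by
  obtain ⟨σ, hσ⟩ := exists_section hY
  have := isCompact_univ.induction_on (p := fun s : Set Y => ∃ K, IsCompact K ∧ s ⊆ K ∧
    ∃ c ∈ Z ℤ univ Kᶜ (Fintype.card ι), ∀ y ∈ K, c - σ y ∈ B ℤ univ {y}ᶜ (Fintype.card ι))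
    ⟨∅, isCompact_empty, le_rfl, 0, zero_mem _, by simp⟩
    (fun s t h ⟨K, h1, h2, h3⟩ => ⟨K, h1, h.trans h2, h3⟩) ?_ fun x _ => ?_
  · obtain ⟨K, -, h2, c, hc, h3⟩ := this
    rw [univ_subset_iff.1 h2] at hc h3
    exact ⟨c, compl_univ ▸ hc, fun y => (hσ y).1.unit (u := 1) (Z_anti (subset_univ _) hc)
      (by simpa using h3 y trivial)⟩
  · rintro s t ⟨K, h1, h2, c, hc, h3⟩ ⟨K', h1', h2', c', hc', h3'⟩
    obtain ⟨e, he, e1, e2⟩ := mv_glue h1.isClosed h1'.isClosed hc hc'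
      ((good_mfd hY (h1.inter h1')).2 _ (sub_mem (Z_anti inter_subset_left hc)
        (Z_anti inter_subset_right hc')) fun x hx => by
          simpa using sub_mem (h3 x hx.1) (h3' x hx.2))
    exact ⟨K ∪ K', h1.union h1', union_subset_union h2 h2', e, he, fun y hy => hy.elim
      (fun hy => by simpa using sub_mem (h3 y hy) (B_anti (singleton_subset_iff.2 hy) e1))
      fun hy => by simpa using add_mem (B_anti (singleton_subset_iff.2 hy) e2) (h3' y hy)⟩
  · obtain ⟨O, h1, h2, h3⟩ := (hσ x).2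
    obtain ⟨K, k1, k2, k3⟩ := local_compact_nhds h1
    exact ⟨K, mem_nhdsWithin_of_mem_nhds k1, K, k3, le_rfl, σ x, Z_anti k2 h2,
      fun y hy => h3 y (k2 hy)⟩

end OriAux

theorem exists_ori {X : Type} [TopologicalSpace X] [Nonempty X] [T2Space X] [CompactSpace X]
    [SimplyConnectedSpace X] (hX : LocEuc (Fin 4) X) : ∃ μ : Sing.Ch ℤ X 4,
      MP_18d288_gt.IsFund μ ∧
        (∀ x, cf (Int.castRingHom (ZMod 2)) (br ℤ 4 μ) ∉ B (ZMod 2) univ {x}ᶜ 4) ∧
        ∀ x, cf (Int.castRingHom ℝ) (br ℤ 4 μ) ∉ B ℝ univ {x}ᶜ 4 := by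
  obtain ⟨c, hc, h⟩ := OriAux.exists_cycle hX
  rw [Fintype.card_fin] at hc h
  obtain ⟨μ, hμ, rfl⟩ := exists_cyc hc
  refine ⟨μ, ⟨hμ, fun x e he => ?_⟩, fun x => (h x).zmod (by norm_num), fun x => (h x).real⟩
  obtain ⟨r, hr⟩ := (h x).2.2 _ (br_mem_Z_rel.2 he)
  rw [← map_smul, ← map_sub, br_mem_B_rel] at hr
  obtain ⟨w, hw⟩ := hr
  exact ⟨r, Submodule.mem_sup.2 ⟨_, ⟨w, rfl⟩, _, hw, add_sub_cancel _ _⟩⟩

end Pool.Agent.Lib.MP_45bb13_gt
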