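import Pool.Agent.Lib.MP_a25f44_gt.H43Pi

/-! Simple connectivity from a dense subset. -/

set_option linter.unusedSectionVars false

namespace Pool.Agent.Lib.MP_45bb13_gt

open Set Filter Topology Complex
open scoped ComplexConjugate
open Pool.Agent.Lib.MP_a25f44_gt.H43

theorem pia_trans_mem {X : Type} [TopologicalSpace X] {S : Set X} {x y z : X} {p : Path x y}
    {q : Path y z} (hp : ∀ t, p t ∈ S) (hq : ∀ t, q t ∈ S) (t : unitInterval) : p.trans q t ∈ S := by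
  have : p.trans q t ∈ range p ∪ range q := p.trans_range q ▸ mem_range_self t
  rcases this with ⟨s, e⟩ | ⟨s, e⟩
  exacts [e ▸ hp s, e ▸ hq s]

theorem pia_eq {X : Type} [TopologicalSpace X] {S : Set X}
    (hl : ∀ x (γ : Path x x), (∀ t, γ t ∈ S) → γ.Homotopic (Path.refl x)) {x y : X}
    {p q : Path x y} (hp : ∀ t, p t ∈ S) (hq : ∀ t, q t ∈ S) :
    Path.Homotopic.Quotient.mk p = Path.Homotopic.Quotient.mk q := by
  have h := Path.Homotopic.Quotient.eq.2 (hl x (p.trans q.symm) (pia_trans_mem hp fun t => hq _))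
  have h2 := congrArg (fun r => r.trans (Path.Homotopic.Quotient.mk q)) h
  simpa [Path.Homotopic.Quotient.mk_trans, Path.Homotopic.Quotient.mk_symm,
    Path.Homotopic.Quotient.mk_refl] using h2

theorem sc_of_dense {X : Type} [TopologicalSpace X] [LocallyPathConnectedSpace X] {T : Set X}
    (hd : Dense T) (hT : IsPathConnected T)
    (hl : ∀ x (γ : Path x x), (∀ t, γ t ∈ T) → γ.Homotopic (Path.refl x))
    (hU : ∀ x, ∃ U, IsOpen U ∧ x ∈ U ∧ IsSimplyConnected U ∧ IsPathConnected (U ∩ T)) :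
    SimplyConnectedSpace X := by
  choose U h1 h2 h3 h4 using hU
  obtain ⟨x0, hx0⟩ := hT.nonempty
  have hj : ∀ x, Joined x0 x := fun x => by
    obtain ⟨y, hy⟩ := (h4 x).nonempty
    exact (hT.joinedIn _ hx0 _ hy.2).joined.trans
      ((h3 x).isPathConnected.joinedIn _ hy.1 _ (h2 x)).joined
  have : PathConnectedSpace X := ⟨⟨x0⟩, fun x y => (hj x).symm.trans (hj y)⟩
  have hu : ∀ i x (γ : Path x x), (∀ t, γ t ∈ U i) → γ.Homotopic (Path.refl x) :=
    fun i x γ h => by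
      obtain ⟨F, -⟩ := (isSimplyConnected_iff_exists_homotopy_refl_forall_mem.1 (h3 i)).2 x γ h
      exact ⟨F⟩
  let R : X → X → Pi1 x0 → Prop := fun i x g => ∃ y, ∃ (a : Path x0 y) (b : Path y x),
    (∀ t, a t ∈ T) ∧ (∀ t, b t ∈ U i) ∧
      g = cl x0 (Path.Homotopic.Quotient.mk a) * cl x0 (Path.Homotopic.Quotient.mk b)
  have uniq : ∀ i x g g', R i x g → R i x g' → g = g' := by
    rintro i x _ _ ⟨y, a, b, ha, hb, rfl⟩ ⟨y', a', b', ha', hb', rfl⟩
    obtain ⟨e, he⟩ := (h4 i).joinedIn y ⟨b.source ▸ hb 0, a.target ▸ ha 1⟩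
      y' ⟨b'.source ▸ hb' 0, a'.target ▸ ha' 1⟩
    rw [pia_eq hl ha' (pia_trans_mem ha fun t => (he t).2),
      pia_eq (hu i) hb (pia_trans_mem (fun t => (he t).1) hb'), Path.Homotopic.Quotient.mk_trans,
      Path.Homotopic.Quotient.mk_trans, cl_trans, cl_trans, mul_assoc]
  have both : ∀ i j x, x ∈ U i → x ∈ U j → ∃ g, R i x g ∧ R j x g := by
    intro i j x hi hj
    obtain ⟨V, ⟨v1, v2⟩, v3⟩ := (LocallyPathConnectedSpace.path_connected_basis x).mem_iff.1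
      (((h1 i).inter (h1 j)).mem_nhds ⟨hi, hj⟩)
    obtain ⟨y, y1, y2⟩ := hd.inter_nhds_nonempty v1
    obtain ⟨a, ha⟩ := hT.joinedIn _ hx0 _ y1
    obtain ⟨b, hb⟩ := v2.joinedIn _ y2 _ (mem_of_mem_nhds v1)
    exact ⟨_, ⟨y, a, b, ha, fun t => (v3 (hb t)).1, rfl⟩, y, a, b, ha, fun t => (v3 (hb t)).2, rfl⟩
  choose c hc _ using fun x => both x x x (h2 x) (h2 x)
  have hR : ∀ i x, x ∈ U i → R i x (c x) := fun i x hx => by
    obtain ⟨g, g1, g2⟩ := both i x x hx (h2 x)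
    exact uniq _ _ _ _ g2 (hc x) ▸ g1
  refine sc_of_cover x0 U h1 (fun x => ⟨x, h2 x⟩) c fun i γ hγ hm => ?_
  refine uniq i _ _ _ ?_ (hR i _ (hm ⟨zero_le_one, le_rfl⟩))
  obtain ⟨y, a, b, ha, hb, e⟩ := hR i _ (hm ⟨le_rfl, zero_le_one⟩)
  refine ⟨y, a, b.trans (Path.ofLine hγ rfl rfl), ha, pia_trans_mem hb fun t => hm t.2, ?_⟩
  rw [e, clf_eq x0 (Path.ofLine hγ rfl rfl) fun _ => rfl, Path.Homotopic.Quotient.mk_trans,
    cl_trans, mul_assoc]

end Pool.Agent.Lib.MP_45bb13_gt
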