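import Pool.Agent.Lib.MP_45bb13_gt.XTop
import Pool.Agent.Lib.MP_45bb13_gt.Span

/-! Small neighbourhoods meet the dense part in connected sets. -/

set_option linter.unusedSectionVars false

namespace Pool.Agent.Lib.MP_45bb13_gt

open Set Filter Topology Complex
open scoped ComplexConjugate

lemma pib_aux1 (c : ℂ) {r : ℝ} (hr : 0 < r) : IsPathConnected (Metric.ball c r ∩ {0}ᶜ) := by
  set e := OpenPartialHomeomorph.univBall c r with he
  have hs : e.source = univ := OpenPartialHomeomorph.univBall_source c r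
  have ht : e.target = Metric.ball c r := OpenPartialHomeomorph.univBall_target c hr
  have hi : Function.Injective e := by
    have := e.injOn
    rw [hs] at this
    exact injOn_univ.1 this
  have hc : (e ⁻¹' {0}).Countable := (subsingleton_singleton.preimage hi).countable
  have h1 : 1 < Module.rank ℝ ℂ := by rw [Complex.rank_real_complex]; norm_num
  have h2 := (hc.isPathConnected_compl_of_one_lt_rank h1).image
    (OpenPartialHomeomorph.continuous_univBall c r)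
  convert h2 using 1
  ext y
  constructor
  · rintro ⟨hy, h0⟩
    rw [← ht] at hy
    refine ⟨e.symm y, ?_, e.right_inv hy⟩
    simp only [mem_compl_iff, mem_preimage, e.right_inv hy]
    exact h0
  · rintro ⟨x, hx, rfl⟩
    exact ⟨ht ▸ e.map_source (hs ▸ mem_univ x), hx⟩

lemma pib_aux2 (z : CC) {r : ℝ} (hr : 0 < r) {S : Set CC}
    (h : S = univ ∨ S = {p | p.2 ≠ 0} ∨ S = {p | p.1 ≠ 0 ∧ p.2 ≠ 0}) :
    IsPathConnected (Metric.ball z r ∩ S) := by
  obtain ⟨a, b⟩ := z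
  rcases h with rfl | rfl | rfl
  · rw [inter_univ]
    exact Metric.isPathConnected_ball hr
  · convert (Metric.isPathConnected_ball (x := a) hr).prod (pib_aux1 b hr) using 1
    rw [← ball_prod_same]
    ext p
    simp only [mem_inter_iff, mem_prod, mem_ofPred_eq, mem_compl_iff, mem_singleton_iff]
    tauto
  · convert (pib_aux1 a hr).prod (pib_aux1 b hr) using 1
    rw [← ball_prod_same]
    ext p
    simp only [mem_inter_iff, mem_prod, mem_ofPred_eq, mem_compl_iff, mem_singleton_iff]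
    tauto

lemma pib_aux3 (a : NA) : ∃ S : Set CC,
    (S = univ ∨ S = {p | p.2 ≠ 0} ∨ S = {p | p.1 ≠ 0 ∧ p.2 ≠ 0}) ∧
      ∀ p, 0 < wabs (NP.map a p) ↔ p ∈ S := by
  have key : ∀ n : N, 0 < wabs n ↔ wabs n ^ 2 ≠ 0 := fun n => by
    rw [(wabs_nonneg n).lt_iff_ne', ne_eq, ne_eq, pow_eq_zero_iff two_ne_zero]
  rcases a with _ | k | k | σ
  · refine ⟨_, .inr (.inl rfl), fun p => ?_⟩
    change 0 < wabs (kap p) ↔ p.2 ≠ 0
    rw [wabs_kap, norm_pos_iff]
  · refine ⟨_, .inr (.inl rfl), fun p => ?_⟩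
    change 0 < wabs (lam k p) ↔ p.2 ≠ 0
    rw [key, wabs_lam, norm_ne_zero_iff]
  · refine ⟨_, .inr (.inr rfl), fun p => ?_⟩
    change 0 < wabs (mu k p) ↔ p.1 ≠ 0 ∧ p.2 ≠ 0
    rw [key, wabs_mu]
    simp
  · refine ⟨_, .inr (.inr rfl), fun p => ?_⟩
    change 0 < wabs (Sg (p.1, st σ p.2)) ↔ p.1 ≠ 0 ∧ p.2 ≠ 0
    have h : (2 / (1 + normSq p.2) : ℝ) ≠ 0 := by
      have := normSq_nonneg p.2
      positivity
    rw [(wabs_nonneg _).lt_iff_ne', wabs_Sg]
    change ‖p.1‖ * ‖((2 / (1 + normSq p.2) : ℝ) : ℂ) * p.2‖ ≠ 0 ↔ _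
    rw [mul_ne_zero_iff, norm_ne_zero_iff, norm_ne_zero_iff, mul_ne_zero_iff, ofReal_ne_zero]
    tauto

lemma pib_aux4 {ι : Type} [Finite ι] (A : Br ι) (a : Option (Option ι × NA)) : ∃ S : Set CC,
    (S = univ ∨ S = {p | p.2 ≠ 0} ∨ S = {p | p.1 ≠ 0 ∧ p.2 ≠ 0}) ∧
      ∀ p ∈ A.XP.dom a, A.XP.map a p ∈ A.T ↔ p ∈ S := by
  rcases a with _ | ⟨k, a⟩
  · exact ⟨_, .inl rfl, fun p hp => ⟨fun _ => mem_univ _, fun _ => ⟨p, hp, rfl⟩⟩⟩
  · obtain ⟨S, h1, h2⟩ := pib_aux3 a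
    exact ⟨S, h1, fun p hp => (A.jj_mem_T (k := k) (n := NP.map a p) hp.2).trans (h2 p)⟩

theorem Br.nbhd {ι : Type} [Finite ι] (A : Br ι) (x : A.X) :
    ∃ U, IsOpen U ∧ x ∈ U ∧ IsSimplyConnected U ∧ IsPathConnected (U ∩ A.T) := by
  obtain ⟨a, z, hz, rfl⟩ := A.good0.cov x
  obtain ⟨O, hzO, hO, hlo, hi⟩ := (A.good0.le hz).shrink ((A.good0.opn a).mem_nhds hz)
  obtain ⟨r, hr, hb⟩ := Metric.isOpen_iff.1 hlo.1 z hzO
  have hlo' := hlo.mono Metric.isOpen_ball hb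
  have hi' := hi.mono hb
  refine ⟨A.XP.map a '' Metric.ball z r, hlo.isOpen_image Metric.isOpen_ball hb,
    mem_image_of_mem _ (Metric.mem_ball_self hr), ?_, ?_⟩
  · exact ((ctr_star (Metric.mem_ball_self hr) ((convex_ball z r).starConvex
      (Metric.mem_ball_self hr))).image hlo' hi').simply
  · obtain ⟨S, h1, h2⟩ := pib_aux4 A a
    have h3 := (pib_aux2 z hr h1).image' (hlo'.continuousOn.mono inter_subset_left)
    convert h3 using 1
    ext y
    constructor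
    · rintro ⟨⟨p, hp, rfl⟩, hT⟩
      exact ⟨p, ⟨hp, (h2 p (hO (hb hp))).1 hT⟩, rfl⟩
    · rintro ⟨p, ⟨hp, hS⟩, rfl⟩
      exact ⟨⟨p, hp, rfl⟩, (h2 p (hO (hb hp))).2 hS⟩

end Pool.Agent.Lib.MP_45bb13_gt
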