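import Pool.Agent.Lib.MP_45bb13_gt.Fill
import Pool.Agent.Lib.MP_45bb13_gt.Cover
import Pool.Agent.Lib.MP_45bb13_gt.PiA
import Pool.Agent.Lib.MP_45bb13_gt.PiB

/-! The closed manifold is simply connected. -/

set_option linter.unusedSectionVars false

namespace Pool.Agent.Lib.MP_45bb13_gt

open Set Filter Topology Complex
open scoped ComplexConjugate

/-- A loop that factors through a convex set is null-homotopic. -/
lemma pic_convex {V X : Type} [NormedAddCommGroup V] [NormedSpace ℝ V] [TopologicalSpace X]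
    {K : Set V} (hK : Convex ℝ K) {F : V → X} (hF : ContinuousOn F K) {γ : unitInterval → V}
    (hγ : Continuous γ) (hm : ∀ t, γ t ∈ K) (h01 : γ 1 = γ 0) {x : X} (P : Path x x)
    (hP : ∀ t, P t = F (γ t)) : P.Homotopic (Path.refl x) := by
  have hx : F (γ 0) = x := (hP 0).symm.trans P.source
  have hmem : ∀ q : unitInterval × unitInterval,
      (1 - (q.1 : ℝ)) • γ q.2 + (q.1 : ℝ) • γ 0 ∈ K := fun q =>
    hK (hm _) (hm _) (sub_nonneg.2 q.1.2.2) q.1.2.1 (by ring)
  refine ⟨⟨⟨⟨fun q => F ((1 - (q.1 : ℝ)) • γ q.2 + (q.1 : ℝ) • γ 0),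
    hF.comp_continuous (by fun_prop) hmem⟩, fun t => ?_, fun t => ?_⟩, fun s t ht => ?_⟩⟩
  · simp [hP]
  · simp [hx]
  · have h2 : γ t = γ 0 := by
      rcases ht with rfl | rfl
      · rfl
      · exact h01
    have h3 : P t = x := by
      rcases ht with rfl | rfl
      · exact P.source
      · exact P.target
    change F ((1 - (s : ℝ)) • γ t + (s : ℝ) • γ 0) = P t
    rw [h2, h3, ← add_smul, sub_add_cancel, one_smul, hx]

namespace Br

variable {ι : Type} [Finite ι] (A : Br ι)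

/-- Loops of the covering space die. -/
lemma pic_loop {p : CC} (δ : Path p p) (hδ : ∀ t, δ t ∈ A.domT) {x : A.X} (P : Path x x)
    (hP : ∀ t, P t = A.prT (δ t)) : P.Homotopic (Path.refl x) := by
  have hc := δ.continuous
  obtain ⟨m, hm⟩ : ∃ m : ℝ, ∀ t, m ≤ (δ t).2.re := by
    obtain ⟨m, hm⟩ := (isCompact_range (f := fun t => (δ t).2.re) (by fun_prop)).bddBelow
    exact ⟨m, fun t => hm ⟨t, rfl⟩⟩
  obtain ⟨a, ha⟩ := exists_int_gt (1 / 4 - m)
  have h1 : ∀ i, ∀ᶠ r in 𝓝[>] (0 : ℝ), ∀ t, r ≤ ‖(δ t).1 - A.b i (δ t).2.im‖ := fun i => by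
    have hb := A.cont i
    obtain ⟨r, hr, h2⟩ := isCompact_univ.exists_forall_le'
      (f := fun t => ‖(δ t).1 - A.b i (δ t).2.im‖) (a := 0) (Continuous.continuousOn (by fun_prop))
      (fun t _ => norm_pos_iff.2 (sub_ne_zero.2 (hδ t i)))
    filter_upwards [Ioc_mem_nhdsGT hr] with s hs t using hs.2.trans (h2 t trivial)
  obtain ⟨r, hr, hr'⟩ := ((eventually_all.2 h1).and (Ioo_mem_nhdsGT A.eps_pos)).exists
  have hK : Convex ℝ {q : CC | 1 / 4 < q.2.re} :=
    convex_halfSpace_gt (f := fun q : CC => q.2.re) ⟨fun _ _ => rfl, fun _ _ => by simp⟩ _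
  refine pic_convex hK ((A.fill_cont hr'.1 hr'.2).mono fun q hq => ne_of_gt hq)
    (γ := fun t => (⟨a, 0⟩ : SD ℤ) • δ t) ((continuous_actT _).comp hc) (fun t => ?_)
    (by simp) P fun t => ?_
  · have := hm t
    simp only [actT_def, sgn_zero, mem_ofPred_eq]
    push_cast
    linarith
  · rw [A.fill_far hr'.1 hr'.2, A.prT_smul, hP]
    intro i
    simpa [actT_def, cj_zero] using hr i t

/-- The class `Q` is the projection of a path from `p` to `q`. -/
def PicRel (p q : CC) {x y : A.X} (Q : Path.Homotopic.Quotient x y) : Prop :=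
  ∃ (δ : Path p q) (P : Path x y), (∀ t, δ t ∈ A.domT) ∧ (∀ t, P t = A.prT (δ t)) ∧
    Q = Path.Homotopic.Quotient.mk P

variable {A} {p q s : CC} {x y z : A.X}

lemma PicRel.trans {Q : Path.Homotopic.Quotient x y} {Q' : Path.Homotopic.Quotient y z}
    (h : A.PicRel p q Q) (h' : A.PicRel q s Q') : A.PicRel p s (Q.trans Q') := by
  obtain ⟨δ, P, h1, h2, rfl⟩ := h
  obtain ⟨δ', P', h1', h2', rfl⟩ := h'
  refine ⟨δ.trans δ', P.trans P', fun t => ?_, fun t => ?_, rfl⟩
  · rw [Path.trans_apply]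
    split_ifs
    · exact h1 _
    · exact h1' _
  · rw [Path.trans_apply, Path.trans_apply]
    split_ifs
    · exact h2 _
    · exact h2' _

lemma PicRel.symm {Q : Path.Homotopic.Quotient x y} (h : A.PicRel p q Q) :
    A.PicRel q p Q.symm := by
  obtain ⟨δ, P, h1, h2, rfl⟩ := h
  exact ⟨δ.symm, P.symm, fun t => h1 _, fun t => h2 _, rfl⟩

lemma PicRel.smul {Q : Path.Homotopic.Quotient x y} (h : A.PicRel p q Q) (g : SD ℤ) :
    A.PicRel (g • p) (g • q) Q := by
  obtain ⟨δ, P, h1, h2, rfl⟩ := h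
  exact ⟨δ.map (continuous_actT g), P, fun t => (A.smul_domT g).2 (h1 t),
    fun t => (h2 t).trans (A.prT_smul g _).symm, rfl⟩

lemma PicRel.left {Q : Path.Homotopic.Quotient x y} (h : A.PicRel p q Q) :
    p ∈ A.domT ∧ x = A.prT p := by
  obtain ⟨δ, P, h1, h2, -⟩ := h
  have h3 := h1 0
  have h4 := h2 0
  rw [δ.source] at h3 h4
  rw [P.source] at h4
  exact ⟨h3, h4⟩

lemma pic_exists (hp : p ∈ A.domT) (hq : q ∈ A.domT) (hx : x = A.prT p) (hy : y = A.prT q) :
    ∃ Q : Path.Homotopic.Quotient x y, A.PicRel p q Q := by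
  obtain ⟨δ, hδ⟩ := A.pathConn_domT.joinedIn p hp q hq
  refine ⟨_, δ, ⟨⟨fun t => A.prT (δ t), A.lo_prT.continuousOn.comp_continuous δ.continuous hδ⟩,
    ?_, ?_⟩, hδ, fun _ => rfl, rfl⟩
  · simp [hx]
  · simp [hy]

lemma PicRel.null {Q : Path.Homotopic.Quotient x x} (h : A.PicRel p p Q) :
    Q = Path.Homotopic.Quotient.refl x := by
  obtain ⟨δ, P, h1, h2, rfl⟩ := h
  exact Path.Homotopic.Quotient.eq.2 (A.pic_loop δ h1 P h2)

lemma PicRel.unique {Q Q' : Path.Homotopic.Quotient x y} (h : A.PicRel p q Q)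
    (h' : A.PicRel p q Q') : Q = Q' := by
  have h1 := congrArg (fun R => Path.Homotopic.Quotient.trans R Q') (h.trans h'.symm).null
  simpa only [Path.Homotopic.Quotient.trans_assoc, Path.Homotopic.Quotient.symm_trans,
    Path.Homotopic.Quotient.trans_refl, Path.Homotopic.Quotient.refl_trans] using h1

variable (A)

/-- The deck transformations whose loops die. -/
def picH : Subgroup (SD ℤ) where
  carrier := {g | ∀ (p : CC) (x : A.X) (Q : Path.Homotopic.Quotient x x),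
    A.PicRel p (g • p) Q → Q = Path.Homotopic.Quotient.refl x}
  one_mem' p x Q h := by
    rw [one_smul] at h
    exact h.null
  mul_mem' {g g'} hg hg' p x Q h := by
    obtain ⟨hp, hx⟩ := h.left
    have hp' := (A.smul_domT g').2 hp
    have hx' : x = A.prT (g' • p) := by rw [A.prT_smul, hx]
    obtain ⟨Q1, h1⟩ := pic_exists hp hp' hx hx'
    obtain ⟨Q2, h2⟩ := pic_exists hp' ((A.smul_domT g).2 hp') hx'
      (show x = A.prT (g • g' • p) by rw [A.prT_smul, hx'])
    rw [mul_smul] at h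
    rw [h.unique (h1.trans h2), hg' _ _ _ h1, hg _ _ _ h2, Path.Homotopic.Quotient.trans_refl]
  inv_mem' {g} hg p x Q h := by
    have h1 := h.symm
    have h2 : Q.symm = Path.Homotopic.Quotient.refl x :=
      hg (g⁻¹ • p) x _ (by rw [smul_inv_smul]; exact h1)
    have h3 := Path.Homotopic.Quotient.trans_symm Q
    rwa [h2, Path.Homotopic.Quotient.trans_refl] at h3

lemma mem_picH {g : SD ℤ} {p₀ : CC} {x₀ : A.X}
    (h : A.PicRel p₀ (g • p₀) (Path.Homotopic.Quotient.refl x₀)) : g ∈ A.picH := by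
  intro p x Q hQ
  obtain ⟨hp, hx⟩ := hQ.left
  obtain ⟨hp₀, hx₀⟩ := h.left
  obtain ⟨R, hR⟩ := pic_exists hp hp₀ hx hx₀
  rw [hQ.unique ((hR.trans h).trans (hR.smul g).symm), Path.Homotopic.Quotient.trans_refl,
    Path.Homotopic.Quotient.trans_symm]

lemma pic_far (v : ℂ) : ((((2 / A.eps : ℝ) : ℂ), v) : CC) ∈ A.domT := by
  intro i h
  have h1 := A.eps_spec.2.2.2 i v.im
  have h2 := A.eps_pos
  have h3 : ‖A.b i v.im‖ = 2 / A.eps := by
    rw [← h, norm_real, Real.norm_of_nonneg (by positivity)]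
  have h4 : 0 < A.eps⁻¹ := by positivity
  rw [h3, div_eq_mul_inv] at h1
  linarith

lemma pic_lam (b : Bool) (t : ℝ) :
    A.prT (((2 / A.eps : ℝ) : ℂ), ⟨(u0 (false, b)).im, t⟩) =
      A.jj none (lam (false, b) (0, (((A.eps / 2) ^ 2 : ℝ) : ℂ) * ee t)) := by
  have h2 := A.eps_pos
  have h3 : ((A.eps / 2 : ℝ) : ℂ) ≠ 0 := ofReal_ne_zero.2 (by positivity)
  have h4 : (((A.eps / 2) ^ 2 : ℝ) : ℂ) * ee t = (((A.eps / 2 : ℝ) : ℂ) * ee (t / 2)) ^ 2 := by
    rw [mul_pow, sq (ee _), ← ee_add, add_halves, ofReal_pow]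
  have h5 := A.pW_eq none (u0 (false, b)) (s := A.eps / 2) (by positivity) t
  rw [h4, lam_eq _ _ (mul_ne_zero h3 (ee_ne_zero _)), zero_mul, add_zero]
  refine Eq.trans ?_ h5.symm
  congr 2
  simp [loc, u0, ee_zero]

lemma pic_gen (b : Bool) {g : SD ℤ} (hn : g.n = 1) (ha : (g.a : ℝ) = 2 * (u0 (false, b)).im) :
    g ∈ A.picH := by
  have h2 := A.eps_pos
  let γ : ℝ → CC := fun t => (((2 / A.eps : ℝ) : ℂ), ⟨(u0 (false, b)).im, t⟩)
  have hγ : Continuous γ := continuous_const.prodMk (continuous_mk continuous_const continuous_id)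
  have hg : γ 1 = g • γ 0 := by
    rw [actT_def, hn, cj_ofReal, sgn_one, ha]
    refine Prod.ext rfl (Complex.ext ?_ ?_)
    · simp only [γ]
      push_cast
      ring
    · simp [γ]
  let δ : Path (γ 0) (g • γ 0) := ⟨⟨fun t => γ t, by fun_prop⟩, rfl, hg⟩
  let P : Path (A.prT (γ 0)) (A.prT (γ 0)) :=
    ⟨⟨fun t => A.prT (γ t), A.lo_prT.continuousOn.comp_continuous δ.continuous
      fun t => A.pic_far _⟩, rfl, show A.prT (γ 1) = _ by rw [hg, A.prT_smul]⟩
  have hF : ContinuousOn (fun ω : ℂ => A.jj none (lam (false, b) (0, ω)))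
      (Metric.ball 0 (A.eps ^ 2)) := by
    refine (A.lo_jj none).continuousOn.comp (f := fun ω : ℂ => lam (false, b) (0, ω))
      ((lo_lam _).continuousOn.comp_continuous (f := fun ω : ℂ => ((0, ω) : CC)) (by fun_prop)
        fun ω => ?_).continuousOn fun ω hω => ?_
    · exact box_of_norm (by simp)
    · have h3 := wabs_lam (false, b) (0, ω)
      rw [mem_ball_zero_iff] at hω
      exact lt_of_pow_lt_pow_left₀ 2 h2.le (h3.trans_lt hω)
  have hP : P.Homotopic (Path.refl _) := by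
    refine pic_convex (convex_ball 0 _) hF
      (γ := fun t => (((A.eps / 2) ^ 2 : ℝ) : ℂ) * ee t) (by fun_prop) (fun t => ?_)
      (by simp [ee_zero, ee_one]) P fun t => A.pic_lam b t
    rw [mem_ball_zero_iff, norm_mul, norm_ee, mul_one, norm_real, Real.norm_of_nonneg (sq_nonneg _)]
    nlinarith
  exact A.mem_picH ⟨δ, P, fun t => A.pic_far _, fun _ => rfl,
    (Path.Homotopic.Quotient.eq.2 hP).symm⟩

lemma picH_eq : A.picH = ⊤ :=
  closure_T (A.pic_gen false rfl (by simp [u0])) (A.pic_gen true rfl (by simp [u0]))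

theorem null_loop (x : A.X) (γ : Path x x) (h : ∀ t, γ t ∈ A.T) : γ.Homotopic (Path.refl x) := by
  obtain ⟨e, he, hex⟩ := h 0
  obtain ⟨δ, hc, hm, h0, hl⟩ := A.covT.lift (γ := γ.extend) γ.continuous_extend.continuousOn
    (fun t ht => by rw [γ.extend_apply ht]; exact h _) he (by simpa using hex)
  have h1 : A.prT e = A.prT (δ 1) := by
    rw [hl 1 ⟨zero_le_one, le_rfl⟩, hex]
    simp
  obtain ⟨g, hg⟩ := (A.prT_eq_iff he (hm 1)).1 h1
  have hH : g ∈ A.picH := by rw [A.picH_eq]; trivial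
  refine Path.Homotopic.Quotient.eq.1 (hH e x _
    ⟨⟨⟨fun t => δ t, by fun_prop⟩, h0, hg.symm⟩, γ, fun t => hm t, fun t => ?_, rfl⟩)
  exact ((hl t t.2).trans (γ.extend_extends' t)).symm

theorem simply : SimplyConnectedSpace A.X :=
  have := locPath_of_locEuc A.locEuc
  sc_of_dense A.dense_T A.pathConn_T A.null_loop A.nbhd

end Br

end Pool.Agent.Lib.MP_45bb13_gt
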