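import Pool.Agent.Lib.MP_45bb13_gt.One

/-! The effect of local homeomorphisms on the intersection form. -/

set_option linter.unusedSectionVars false

namespace Pool.Agent.Lib.MP_45bb13_gt

open Set Filter Topology Complex Pool.Agent.Shared.Sing Pool.Agent.Shared.SingEZ
open scoped ComplexConjugate

variable {X : Type} [TopologicalSpace X] [Nonempty X] [T2Space X] (hX : LocEuc (Fin 4) X)
  {F : Type} [Field F] {μ : C F X} {τ : C F (X × X) →ₗ[F] F} (hτ : IsThom 4 μ τ)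
  (h0 : ∀ x, μ ∉ B F univ {x}ᶜ 4) {U : Set X} {φ : X → X} (hφ : LO φ U) (hi : InjOn φ U)
  (hU : IsPreconnected U)

include hX in
/-- The local degree is constant in a family. -/
theorem deg_family (hμ : μ ∈ Z F univ ∅ 4) {Ψ : CC × ℝ → X} {O : Set CC}
    (hΨ : ContinuousOn Ψ (O ×ˢ Icc 0 1)) (hO : (0 : CC) ∈ O)
    (hn : ∀ x ∈ O, x ≠ 0 → ∀ s ∈ Icc (0 : ℝ) 1, Ψ (x, s) ≠ Ψ (0, s)) {c : C F CC}
    (hc : c ∈ Z F O (O ∩ {0}ᶜ) 4) {r : F}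
    (h : map (fun x => Ψ (x, 0)) c - r • μ ∈ B F univ {Ψ (0, 0)}ᶜ 4) :
    map (fun x => Ψ (x, 1)) c - r • μ ∈ B F univ {Ψ (0, 1)}ᶜ 4 := by
  obtain ⟨L, hL, hLO, hDc⟩ := exists_compact (Z_D hc)
  have hLO' : L ⊆ O := hLO.trans inter_subset_left
  have hc' : c ∈ Z F O L 4 := ⟨hc.1, hDc⟩
  have key : ∀ s₀ ∈ Icc (0 : ℝ) 1, ∀ᶠ s in 𝓝[Icc 0 1] s₀,
      (map (fun x => Ψ (x, s₀)) c - r • μ ∈ B F univ {Ψ (0, s₀)}ᶜ 4 ↔
        map (fun x => Ψ (x, s)) c - r • μ ∈ B F univ {Ψ (0, s)}ᶜ 4) := by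
    intro s₀ hs₀
    have c1 : ContinuousOn (fun x => Ψ (x, s₀)) O :=
      hΨ.comp (by fun_prop) fun x hx => ⟨hx, hs₀⟩
    have z1 : map (fun x => Ψ (x, s₀)) c - r • μ ∈ Z F univ {Ψ (0, s₀)}ᶜ 4 :=
      sub_mem (map_Z c1 inter_subset_left (mapsTo_univ _ _)
        (fun x hx => hn x hx.1 hx.2 s₀ hs₀) hc)
        (Submodule.smul_mem _ _ (Z_mono le_rfl (empty_subset _) hμ))
    have c2 : ContinuousWithinAt (fun s => Ψ (0, s)) (Icc 0 1) s₀ :=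
      (hΨ.comp (f := fun s : ℝ => ((0 : CC), s)) (by fun_prop) fun s hs => ⟨hO, hs⟩) s₀ hs₀
    have e1 := c2.eventually (loc_const hX z1)
    have c3 : ContinuousOn (fun z : (ℝ × ℝ) × CC => (Ψ (z.2, z.1.1), Ψ (0, z.1.2)))
        ((Icc 0 1 ×ˢ Icc 0 1) ×ˢ O) :=
      (hΨ.comp (f := fun z : (ℝ × ℝ) × CC => (z.2, z.1.1)) (by fun_prop)
        fun z hz => ⟨hz.2, hz.1.1⟩).prodMk
      (hΨ.comp (f := fun z : (ℝ × ℝ) × CC => ((0 : CC), z.1.2)) (by fun_prop)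
        fun z hz => ⟨hO, hz.1.2⟩)
    have e2 := hL.eventually_forall_of_forall_eventually (x₀ := (s₀, s₀))
      (P := fun (s : ℝ × ℝ) (y : CC) => (s, y) ∈ (Icc (0 : ℝ) 1 ×ˢ Icc (0 : ℝ) 1) ×ˢ O →
        Ψ (y, s.1) ≠ Ψ (0, s.2)) fun y hy =>
      eventually_nhdsWithin_iff.1 ((c3 ((s₀, s₀), y) ⟨⟨hs₀, hs₀⟩, hLO' hy⟩).eventually
        (isOpen_Off.mem_nhds (hn y (hLO' hy) (hLO hy).2 s₀ hs₀)))
    obtain ⟨δ, hδ, e2⟩ := Metric.eventually_nhds_iff.1 e2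
    filter_upwards [e1, self_mem_nhdsWithin,
      mem_nhdsWithin_of_mem_nhds (Metric.ball_mem_nhds s₀ hδ)] with s e1 hs hs'
    have m1 : ∀ t ∈ Icc (0 : ℝ) 1, s₀ + t * (s - s₀) ∈ Icc (0 : ℝ) 1 := fun t ht =>
      (convex_Icc (0 : ℝ) 1).add_smul_sub_mem hs₀ hs ht
    have h1 := htpy_B (H := fun q : CC × ℝ => Ψ (q.1, s₀ + q.2 * (s - s₀))) (A := univ)
      (A' := {Ψ (0, s)}ᶜ) (hΨ.comp (by fun_prop) fun q hq => ⟨hq.1, m1 _ hq.2⟩) hLO'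
      (mapsTo_univ _ _) (fun q hq => e2 (y := (s₀ + q.2 * (s - s₀), s)) (by
        rw [Prod.dist_eq]
        exact max_lt ((convex_ball s₀ δ).add_smul_sub_mem (Metric.mem_ball_self hδ) hs' hq.2) hs')
        q.1 hq.1 ⟨⟨m1 _ hq.2, hs⟩, hLO' hq.1⟩) hc'
    simp only [one_mul, add_sub_cancel, zero_mul, add_zero] at h1
    rw [← e1]
    exact (congr_B (by simpa using h1)).symm
  exact (isPreconnected_Icc.induction₂ (fun s s' =>
    (map (fun x => Ψ (x, s)) c - r • μ ∈ B F univ {Ψ (0, s)}ᶜ 4 ↔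
      map (fun x => Ψ (x, s')) c - r • μ ∈ B F univ {Ψ (0, s')}ᶜ 4)) key
    (fun _ _ _ _ _ _ => Iff.trans) (fun _ _ _ _ => Iff.symm) (left_mem_Icc.2 zero_le_one)
    (right_mem_Icc.2 zero_le_one)).1 h

include hτ in
lemma pres_val {y : X} {c : C F X} {r : F} (h : c - r • μ ∈ B F univ {y}ᶜ 4) :
    τ (map (Prod.mk y) c) = r := by
  have h1 := map_B (g := Prod.mk y) (O' := univ) (W := Off X) (by fun_prop) (subset_univ _)
    (mapsTo_univ _ _) (fun x hx => Ne.symm hx) h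
  obtain ⟨w, hw, hv⟩ := mem_B h1
  have h2 := hτ.off _ hv
  rw [map_sub, hτ.coc w hw, sub_zero, map_sub, map_sub, map_smul, map_smul, hτ.one, smul_eq_mul,
    mul_one] at h2
  exact sub_eq_zero.1 h2

include hφ hi in
lemma pres_push {y : X} (hy : y ∈ U) {c : C F X} (hc : c ∈ Z F U (U ∩ {y}ᶜ) 4)
    (h : c ∈ B F univ {y}ᶜ 4) : map φ c ∈ B F univ {φ y}ᶜ 4 := by
  obtain ⟨χ, rfl, rfl, -⟩ := hφ.oph hi
  exact (chart_pt χ (mem_singleton y) hy hc).1 h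

include hφ hi in
lemma pres_Z {y : X} (hy : y ∈ U) {c : C F X} (hc : c ∈ Z F U (U ∩ {y}ᶜ) 4) :
    map φ c ∈ Z F univ {φ y}ᶜ 4 :=
  map_Z (U := U ∩ {y}ᶜ) hφ.continuousOn inter_subset_left (mapsTo_univ _ _)
    (fun _ hx e => hx.2 (hi hx.1 hy e)) hc

lemma pres_cross {c d : C F ℂ} {x y : ℂ} (hc : c ∈ Z F univ {x}ᶜ 2) (hd : d ∈ B F univ {y}ᶜ 2) :
    cross c d ∈ B F univ {(x, y)}ᶜ 4 := by
  obtain ⟨w, hw, hv⟩ := mem_B hd
  have h1 : cross c (d - D w) ∈ In F {(x, y)}ᶜ 5 :=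
    In_mono (A := univ ×ˢ {y}ᶜ) (B := {(x, y)}ᶜ)
      (fun q hq e => hq.2 (congrArg Prod.snd (show q = (x, y) from e))) _
      (cross_In (p := 2) (q := 2) hc.1 hv)
  have h2 : cross (D c) w ∈ In F {(x, y)}ᶜ 5 :=
    In_mono (A := {x}ᶜ ×ˢ univ) (B := {(x, y)}ᶜ)
      (fun q hq e => hq.1 (congrArg Prod.fst (show q = (x, y) from e))) _
      (cross_In (p := 1) (q := 3) (Z_D hc) hw)
  refine B_of (w := cross c w) (cross_In' (p := 2) (q := 3) hc.1 hw) ?_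
  have e : cross c d - D (cross c w) = cross c (d - D w) - cross (D c) w := by
    rw [D_cross, e1_In hc.1 (by omega), zero_mul, zero_smul, add_zero, sg_In hc.1, map_sub]
    have : ((-1 : F) ^ (2 + 1)) = -1 := by norm_num
    rw [this, neg_one_smul, map_neg, LinearMap.neg_apply]
    abel
  rw [e]
  exact sub_mem h1 h2

include hX h0 in
/-- A small local generator in a chart. -/
lemma pres_small (hμ : μ ∈ Z F univ ∅ 4) (χ : OpenPartialHomeomorph CC X) {O : Set CC}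
    (hO : IsOpen O) (h1 : (0 : CC) ∈ O) (h2 : O ⊆ χ.source) :
    ∃ c ∈ Z F O (O ∩ {0}ᶜ) 4, cross (dsk F) (dsk F) - c ∈ B F univ {0}ᶜ 4 ∧
      ∃ r : F, r ≠ 0 ∧ map χ c - r • μ ∈ B F univ {χ 0}ᶜ 4 := by
  have a1 : cross (dsk F) (dsk F) ∈ Z F univ {(0 : CC)}ᶜ 4 :=
    cross_dsk_Z (x := 0) (y := 0) (by simp) (by simp)
  have a2 : cross (dsk F) (dsk F) ∉ B F univ {(0 : CC)}ᶜ 4 :=
    cross_dsk_not_B (x := 0) (y := 0) (by simp) (by simp)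
  obtain ⟨c, hc, h3⟩ := exc_surj hO isOpen_compl_singleton
    (by simpa [← compl_subset_iff_union] using h1) a1
  have hc' : c ∈ Z F χ.source (χ.source ∩ {0}ᶜ) 4 := Z_mono h2 (inter_subset_inter_left _ h2) hc
  have h4 : map χ c ∈ Z F univ {χ 0}ᶜ 4 :=
    map_Z (U := χ.source ∩ {0}ᶜ) χ.continuousOn inter_subset_left (mapsTo_univ _ _)
      (fun _ hx e => hx.2 (χ.injOn hx.1 (h2 h1) e)) hc'
  obtain ⟨r, hr⟩ := loc_gen hX (Z_mono le_rfl (empty_subset _) hμ) (h0 (χ 0)) h4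
  refine ⟨c, hc, h3, r, fun e => a2 ((congr_B h3).2 ?_), hr⟩
  exact (chart_pt χ (mem_singleton 0) (h2 h1) hc').2 (by simpa [e] using hr)

include hX hτ h0 hφ hi hU

theorem sqi_map {x : X} (hx : x ∈ U) {c : C F X} (hc : c ∈ Z F U (U ∩ {x}ᶜ) 4) {ε r : F}
    (hr : r ≠ 0) (h1 : c - r • μ ∈ B F univ {x}ᶜ 4) (h2 : map φ c - (ε * r) • μ ∈ B F univ {φ x}ᶜ 4)
    {z : C F X} (hz : z ∈ Z F U ∅ 2) : sqi τ (map φ z) = ε * sqi τ z := by
  have hμ : ∀ y : X, μ ∈ Z F univ {y}ᶜ 4 := fun y => Z_mono le_rfl (empty_subset _) hτ.cyc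
  let Q : X → Prop := fun y => ∀ c' ∈ Z F U (U ∩ {y}ᶜ) 4, ∀ r' : F,
    c' - r' • μ ∈ B F univ {y}ᶜ 4 → map φ c' - (ε * r') • μ ∈ B F univ {φ y}ᶜ 4
  have k1 : ∀ y ∈ U, ∀ c₀ ∈ Z F U (U ∩ {y}ᶜ) 4, μ - c₀ ∈ B F univ {y}ᶜ 4 →
      (Q y ↔ map φ c₀ - ε • μ ∈ B F univ {φ y}ᶜ 4) := by
    intro y hy c₀ hc₀ h3
    refine ⟨fun hQ => ?_, fun h4 c' hc' r' h5 => ?_⟩
    · simpa using hQ c₀ hc₀ 1 (by simpa using neg_mem h3)
    · have h6 := pres_push hφ hi hy (sub_mem hc' (Submodule.smul_mem _ r' hc₀)) (by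
        have := add_mem h5 (Submodule.smul_mem _ r' h3)
        rwa [smul_sub, sub_add_sub_cancel] at this)
      have h7 := add_mem h6 (Submodule.smul_mem _ r' h4)
      rwa [map_sub, map_smul, smul_sub, sub_add_sub_cancel, smul_smul, mul_comm] at h7
  have k2 : ∀ y₀ ∈ U, ∀ᶠ y in 𝓝[U] y₀, (Q y₀ ↔ Q y) := by
    intro y₀ hy₀
    obtain ⟨c₀, hc₀, h3⟩ := exc_surj hφ.1 isOpen_compl_singleton
      (by simpa [← compl_subset_iff_union] using hy₀) (hμ y₀)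
    obtain ⟨L, hL, hLU, hD⟩ := exists_compact (Z_D hc₀)
    have e1 := loc_const hX (sub_mem (hμ y₀) (Z_mono (subset_univ _) inter_subset_right hc₀))
    have e2 := (hφ.continuousAt hy₀).eventually (loc_const hX
      (sub_mem (pres_Z hφ hi hy₀ hc₀) (Submodule.smul_mem _ ε (hμ _))))
    have e3 := hL.isClosed.isOpen_compl.mem_nhds fun h => (hLU h).2 rfl
    filter_upwards [mem_nhdsWithin_of_mem_nhds e1, mem_nhdsWithin_of_mem_nhds e2,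
      mem_nhdsWithin_of_mem_nhds e3, self_mem_nhdsWithin] with y e1 e2 e3 hy
    have hc₁ : c₀ ∈ Z F U (U ∩ {y}ᶜ) 4 :=
      ⟨hc₀.1, In_mono (A := L) (B := U ∩ {y}ᶜ)
        (fun q hq => ⟨(hLU hq).1, fun e => e3 ((show q = y from e) ▸ hq)⟩) _ hD⟩
    rw [k1 y₀ hy₀ c₀ hc₀ h3, k1 y hy c₀ hc₁ (e1.2 h3), e2]
  have k3 : Q x := by
    refine (k1 x hx (r⁻¹ • c) (Submodule.smul_mem _ _ hc) ?_).2 ?_
    · have := neg_mem (Submodule.smul_mem _ r⁻¹ h1)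
      rwa [smul_sub, smul_smul, inv_mul_cancel₀ hr, one_smul, neg_sub] at this
    · have := Submodule.smul_mem _ r⁻¹ h2
      rwa [smul_sub, smul_smul, mul_left_comm, inv_mul_cancel₀ hr, mul_one, ← map_smul] at this
  have k4 : ∀ y ∈ U, Q y := fun y hy => (hU.induction₂ (fun a b => (Q a ↔ Q b)) k2
    (fun _ _ _ _ _ _ => Iff.trans) (fun _ _ _ _ => Iff.symm) hx hy).1 k3
  have i0 := iform_of_thom hX hτ h0
  have i1 := i0.pull hφ hi (mapsTo_univ _ _)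
  have i2 := i0.mono hφ.1 (subset_univ _)
  have k5 := thom_gen hX hφ.1 (S := LinearMap.ker (τ ∘ₗ map (Prod.map φ φ) - ε • τ))
    (fun v hv => by
      rw [LinearMap.mem_ker, LinearMap.sub_apply, i1.apply_B hv, LinearMap.smul_apply,
        i2.apply_B hv, smul_zero, sub_zero])
    (fun y hy c' hc' => by
      obtain ⟨r', hr'⟩ := loc_gen hX (hμ y) (h0 y) (Z_mono (subset_univ _) inter_subset_right hc')
      rw [LinearMap.mem_ker, LinearMap.sub_apply, LinearMap.smul_apply, pres_val hτ hr',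
        LinearMap.comp_apply, map_map (by fun_prop) hc'.1,
        show Prod.map φ φ ∘ Prod.mk y = Prod.mk (φ y) ∘ φ from rfl,
        ← map_map hφ.continuousOn hc'.1, pres_val hτ (k4 y hy c' hc' r' hr'), smul_eq_mul,
        sub_self])
    (Z_mono le_rfl (empty_subset _) (cross_Z hz hz))
  rw [LinearMap.mem_ker, LinearMap.sub_apply, LinearMap.smul_apply, sub_eq_zero] at k5
  rw [← sqi_pull hφ.continuousOn hz]
  exact k5

theorem sqi_iso {Ψ : CC × ℝ → X} {O : Set CC} (hO : O ∈ 𝓝 0) (hΨ : ContinuousOn Ψ (O ×ˢ Icc 0 1))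
    (hn : ∀ x ∈ O, x ≠ 0 → ∀ s ∈ Icc (0 : ℝ) 1, Ψ (x, s) ≠ Ψ (0, s))
    (hl : Lemb (fun x => Ψ (x, 0)) 0) (hm : Ψ (0, 0) ∈ U) (he : ∀ x ∈ O, Ψ (x, 1) = φ (Ψ (x, 0)))
    {z : C F X} (hz : z ∈ Z F U ∅ 2) : sqi τ (map φ z) = sqi τ z := by
  obtain ⟨χ, e, h1, h2⟩ := hl.oph (inter_mem hO
    (hl.continuousAt.preimage_mem_nhds (hφ.1.mem_nhds hm)))
  obtain ⟨c, hc, -, r, hr, h3⟩ := pres_small hX h0 hτ.cyc χ χ.open_source h1 le_rfl
  have s1 : χ.source ⊆ O := h2.trans inter_subset_left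
  have h4 := deg_family hX hτ.cyc (hΨ.mono (prod_mono_left s1)) h1 (fun x hx => hn x (s1 hx)) hc
    (r := r) (by rw [e] at h3; exact h3)
  have h5 : map χ c ∈ Z F U (U ∩ {χ 0}ᶜ) 4 :=
    map_Z (U := χ.source ∩ {0}ᶜ) χ.continuousOn inter_subset_left
      (fun x hx => by rw [e]; exact (h2 hx).2)
      (fun x hx => ⟨by rw [e]; exact (h2 hx.1).2, fun e' => hx.2 (χ.injOn hx.1 h1 e')⟩) hc
  have h6 := sqi_map hX hτ h0 hφ hi hU (x := χ 0) (by rw [e]; exact hm) h5 (ε := 1) hr h3 (by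
    rw [one_mul, map_map χ.continuousOn hc.1,
      map_congr (g := φ ∘ χ) (g' := fun x => Ψ (x, 1))
        (fun x hx => by rw [e]; exact (he x (s1 hx)).symm) hc.1,
      show φ (χ 0) = Ψ (0, 1) by rw [e]; exact (he 0 (s1 h1)).symm]
    exact h4) hz
  rwa [one_mul] at h6

theorem sqi_refl {ψ : CC → X} (hl : Lemb ψ 0) (hm : ψ 0 ∈ U)
    (he : ∀ᶠ x in 𝓝 (0 : CC), φ (ψ x) = ψ (x.1, -conj x.2)) {z : C F X} (hz : z ∈ Z F U ∅ 2) :
    sqi τ (map φ z) = -sqi τ z := by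
  obtain ⟨χ, rfl, h1, h2⟩ := hl.oph (inter_mem he
    (hl.continuousAt.preimage_mem_nhds (hφ.1.mem_nhds hm)))
  let ρ : CC → CC := Prod.map id fun x : ℂ => -conj x
  have c0 : Continuous fun x : ℂ => -conj x := by fun_prop
  have c1 : Continuous ρ := continuous_id.prodMap c0
  have ρ0 : ρ 0 = 0 := by simp [ρ, Prod.map]
  have ρ1 : ∀ x, ρ x = 0 → x = 0 := fun x hx => by
    simpa [ρ, Prod.map, Prod.ext_iff] using hx
  obtain ⟨c, hc, h3, r, hr, h4⟩ := pres_small hX h0 hτ.cyc χ (O := χ.source ∩ ρ ⁻¹' χ.source)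
    (χ.open_source.inter (χ.open_source.preimage c1)) ⟨h1, by rw [mem_preimage, ρ0]; exact h1⟩
    inter_subset_left
  have hc1 : c ∈ Z F χ.source (χ.source ∩ {0}ᶜ) 4 :=
    Z_mono inter_subset_left (inter_subset_inter_left _ inter_subset_left) hc
  have hc2 : map ρ c ∈ Z F χ.source (χ.source ∩ {0}ᶜ) 4 :=
    map_Z (U := χ.source ∩ ρ ⁻¹' χ.source ∩ {0}ᶜ) c1.continuousOn inter_subset_left
      (fun x hx => hx.2)
      (fun x hx => ⟨hx.1.2, fun e => hx.2 (ρ1 x e)⟩) hc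
  have h5 : map ρ c + c ∈ B F univ {0}ᶜ 4 := by
    have a0 : MapsTo ρ {0}ᶜ {0}ᶜ := fun x hx e => hx (ρ1 x e)
    have a1 := map_B c1.continuousOn (subset_univ _) (mapsTo_univ _ _) a0 h3
    have a2 : cross (dsk F) (map (fun x : ℂ => -conj x) (dsk F) + dsk F) ∈ B F univ {(0 : CC)}ᶜ 4 :=
      pres_cross (dsk_Z (x := 0) (by simp)) dsk_refl
    rw [map_sub, map_cross continuous_id c0, Shared.SingEZ.map_id'] at a1
    have a3 := sub_mem (sub_mem a2 a1) h3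
    rw [map_add] at a3
    have e : ∀ a b c d : C F CC, a + b - (a - c) - (b - d) = c + d := fun a b c d => by abel
    rwa [e] at a3
  have h6 := (chart_pt χ (mem_singleton 0) h1 (add_mem hc2 hc1)).1 h5
  have h7 : map χ c ∈ Z F U (U ∩ {χ 0}ᶜ) 4 :=
    map_Z (U := χ.source ∩ {0}ᶜ) χ.continuousOn inter_subset_left (fun x hx => (h2 hx).2)
      (fun x hx => ⟨(h2 hx.1).2, fun e' => hx.2 (χ.injOn hx.1 h1 e')⟩) hc1
  have h8 := sqi_map hX hτ h0 hφ hi hU hm h7 (ε := -1) hr h4 (by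
    rw [map_map χ.continuousOn hc1.1,
      map_congr (g := φ ∘ χ) (g' := χ ∘ ρ) (fun x hx => (h2 hx).1) hc1.1,
      ← map_map c1.continuousOn hc.1, show φ (χ 0) = χ 0 from (h2 h1).1.trans (congrArg χ ρ0)]
    have a4 := sub_mem h6 h4
    rw [map_add] at a4
    rw [neg_mul, one_mul, neg_smul, sub_neg_eq_add]
    rwa [add_comm, add_sub_sub_cancel] at a4) hz
  rwa [neg_one_mul] at h8

end Pool.Agent.Lib.MP_45bb13_gt
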