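import Pool.Agent.Lib.MP_45bb13_gt.RayN
import Pool.Agent.Lib.MP_45bb13_gt.Fill

/-! The ray spheres: basic facts. -/

set_option linter.unusedSectionVars false

namespace Pool.Agent.Lib.MP_45bb13_gt

open Set Filter Topology Complex
open scoped ComplexConjugate

variable (j : Fin 3) (b : Bool) {l s φ : ℝ}

lemma ray0_sqrt : 3 / 2 < √3 ∧ √3 < 2 :=
  ⟨Real.lt_sqrt_of_sq_lt (by norm_num), (Real.sqrt_lt' (by norm_num)).2 (by norm_num)⟩

lemma ray0_R_pos : 0 < rayR := lt_of_lt_of_le (by norm_num) rayR_ge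

lemma ray0_frz (hs' : s < (chB 0).eps) (φ : ℝ) : frz s φ = φ := by
  refine frz_eq ?_
  have h1 := (chB 0).eps_le
  have h2 := ray0_sqrt.1
  have h3 := neg_le_abs (s - √3)
  have h4 := abs_nonneg φ
  linarith

lemma ray0_ee_sq (t : ℝ) : ee (t / 2) ^ 2 = ee t := by
  rw [pow_two, ← ee_add, add_halves]

/-- The formula near the own strand. -/
lemma rayF_small (hs : 0 < s) (hs' : s < (chB 0).eps) (l φ : ℝ) :
    rayF j b l ((s / rayR : ℝ) * ee φ) =
      (chB 0).pW (some j) (u0 (false, b) + rayN l s φ, s, ts j + φ) := by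
  have R0 := ray0_R_pos
  have h1 : ‖((s / rayR : ℝ) : ℂ) * ee φ‖ = s / rayR := by
    rw [norm_mul, norm_ee, mul_one, norm_real, Real.norm_eq_abs, abs_of_pos (by positivity)]
  have h2 : rayR * (s / rayR) = s := by field_simp
  have h3 : min s 1 = s := min_eq_left (by linarith [(chB 0).eps_le])
  have hw : (s : ℂ) * ee ((ts j + φ) / 2) ≠ 0 :=
    mul_ne_zero (ofReal_ne_zero.2 hs.ne') (ee_ne_zero _)
  have h4 : ((rayR ^ 2 * (s / rayR) : ℝ) : ℂ) * (((s / rayR : ℝ) : ℂ) * ee φ) * ee (ts j) =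
      ((s : ℂ) * ee ((ts j + φ) / 2)) ^ 2 := by
    have : (rayR : ℂ) ≠ 0 := ofReal_ne_zero.2 R0.ne'
    rw [mul_pow, ray0_ee_sq, ee_add]
    push_cast
    field_simp
  have h5 : -I * ((l / 100 : ℝ) : ℂ) * ee (-(ts j / 2)) * ((s : ℂ) * ee ((ts j + φ) / 2)) =
      rayN l s φ := by
    rw [rayN, ray0_frz hs', h3, show φ / 2 = -(ts j / 2) + (ts j + φ) / 2 by ring, ee_add]
    push_cast
    ring
  rw [rayF, h1, h2, if_pos hs', h4, lam_eq _ _ hw, h5]
  rfl

lemma pW_rayP (hs : 0 < s) (hs' : s < (chB 0).eps) (l φ : ℝ) :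
    (chB 0).pW (some j) (u0 (false, b) + rayN l s φ, s, ts j + φ) =
      (chB 0).prT (rayP j b l s φ) := by
  have h1 : max 0 (min 1 ((6 - s) / 2)) = 1 := by
    rw [min_eq_left (by linarith [(chB 0).eps_le]), max_eq_right zero_le_one]
  rw [(chB 0).pW_eq _ _ hs, rayP, ray0_frz hs', h1]
  congr 1
  refine Prod.ext ?_ ?_
  · simp [Br.loc, u0]
  · simp

lemma ray0_ang_center : ang ((√3 / rayR : ℝ) : ℂ) = 0 := by
  have R0 := ray0_R_pos
  rw [ang, arg_ofReal_of_nonneg (by positivity), zero_div]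

lemma ray0_norm_center : rayR * ‖((√3 / rayR : ℝ) : ℂ)‖ = √3 := by
  have R0 := ray0_R_pos
  rw [norm_real, Real.norm_eq_abs, abs_of_pos (by positivity)]
  field_simp

lemma ray0_center_slit : ((√3 / rayR : ℝ) : ℂ) ∈ slitPlane := by
  have R0 := ray0_R_pos
  exact ofReal_mem_slitPlane.2 (by positivity)

lemma ray0_dd_zero : dd 0 = ((√3 : ℝ) : ℂ) := by
  refine Complex.ext ?_ ?_ <;> simp [dd]

/-- The formula near the crossing point. -/
lemma rayF_cross (l : ℝ) : ∀ᶠ x in 𝓝 ((√3 / rayR : ℝ) : ℂ), rayF j b l x = (chB 0).jj (some (j + 1))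
    (cd ((chB 0).eps / 2) ((u0 (false, b)).im - l / 100) (ee (ts j / 2))
      ((rayR * ‖x‖ : ℝ) - dd (ang x))) := by
  have c1 : ContinuousAt (fun x : ℂ => rayR * ‖x‖) ((√3 / rayR : ℝ) : ℂ) := by fun_prop
  have c2 := continuousAt_ang ray0_center_slit
  have c3 : ContinuousAt (fun x : ℂ => |rayR * ‖x‖ - √3| + |ang x|) ((√3 / rayR : ℝ) : ℂ) :=
    ((c1.sub continuousAt_const).abs).add c2.abs
  have c4 : ContinuousAt (fun x : ℂ => ‖((rayR * ‖x‖ : ℝ) : ℂ) - dd (ang x)‖)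
      ((√3 / rayR : ℝ) : ℂ) :=
    ((continuous_ofReal.continuousAt.comp c1).sub (continuous_dd.continuousAt.comp c2)).norm
  have e3 := c3.eventually (gt_mem_nhds (a := 1 / 1000) (by
    simp only [ray0_norm_center, ray0_ang_center]; norm_num))
  have e4 := c4.eventually (gt_mem_nhds (a := (chB 0).eps) (by
    simp only [ray0_norm_center, ray0_ang_center, ray0_dd_zero, sub_self, norm_zero]
    exact (chB 0).eps_pos))
  filter_upwards [e3, e4] with x h3 h4
  set s := rayR * ‖x‖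
  have q := ray0_sqrt
  have h5 : 1 ≤ s ∧ s ≤ 4 := by
    have a1 := abs_nonneg (ang x)
    have a2 := abs_le.1 (show |s - √3| ≤ 1 / 1000 by linarith)
    constructor <;> linarith [a2.1, a2.2]
  have h6 : frz s (ang x) = 0 := frz_zero h3.le
  have h7 : max 0 (min 1 ((6 - s) / 2)) = 1 := by
    rw [min_eq_left (by linarith [h5.2]), max_eq_right zero_le_one]
  have h8 : rayP j b l s (ang x) = ((chB 0).b j (ts j) + s + (dd 0 - dd (ang x)),
      ⟨(u0 (false, b)).im - l / 100, ts j⟩) := by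
    rw [rayP, rayN_re, rayN_im, h6, h7, min_eq_right h5.1]
    simp [ee_zero, sub_eq_add_neg]
  have h9 : (chB 0).b j (ts j) + s + (dd 0 - dd (ang x)) - (chB 0).b (j + 1) (ts j) =
      s - dd (ang x) := by
    rw [chB_succ, show ts j + 1 / 3 + 2 * (j : ℕ) / 3 = 0 by unfold ts; ring]
    ring
  rw [rayF, if_neg (by linarith [(chB 0).eps_le, h5.1]), h8,
    (chB 0).fill_near (i := j + 1) (by simpa only [h9] using h4)]
  simp only [h9]

lemma ray0_le_polar {x : ℂ} (hx : x ∈ slitPlane) : Lemb (fun x : ℂ => (‖x‖, ang x)) x := by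
  have p0 := Real.pi_pos
  have h3 : ∀ x ∈ slitPlane, pol (‖x‖, ang x) = x := fun x _ => norm_mul_ee_ang x
  have h := lo_of_inverse (p := fun x : ℂ => (‖x‖, ang x)) (g := pol) (O := slitPlane)
    (U := Ioi 0 ×ˢ Ioo (-(1 / 2)) (1 / 2)) isOpen_slitPlane (isOpen_Ioi.prod isOpen_Ioo)
    (fun x hx => (continuous_norm.continuousAt.prodMk (continuousAt_ang hx)).continuousWithinAt)
    (by unfold pol; fun_prop) (fun x hx => ?_) (fun q hq => ?_) h3 fun q hq => ?_
  · exact h.le (LeftInvOn.injOn h3) hx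
  · rw [mem_slitPlane_iff_arg] at hx
    refine ⟨norm_pos_iff.2 hx.2, (ang_mem x).1, lt_of_le_of_ne (ang_mem x).2 fun h => hx.1 ?_⟩
    change arg x / (2 * Real.pi) = _ at h
    rw [div_eq_iff (by positivity)] at h
    linarith
  · have h1 := ang_ee hq.1 ⟨hq.2.1, hq.2.2.le⟩
    rw [mem_slitPlane_iff_arg]
    refine ⟨fun h => ?_, mul_ne_zero (ofReal_ne_zero.2 (ne_of_gt hq.1)) (ee_ne_zero _)⟩
    have h2 := hq.2.2
    change arg (q.1 * ee q.2) = _ at h
    rw [← h1, ang, h, div_lt_iff₀ (by positivity)] at h2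
    linarith
  · refine Prod.ext ?_ (ang_ee hq.1 ⟨hq.2.1, hq.2.2.le⟩)
    change ‖(q.1 : ℂ) * ee q.2‖ = q.1
    rw [norm_mul, norm_ee, mul_one, norm_real, Real.norm_eq_abs, abs_of_pos hq.1]

/-- A shear of the plane. -/
noncomputable def ray0Shear : ℝ × ℝ ≃ₜ ℝ × ℝ where
  toFun q := (rayR * q.1 - √3 * Real.cos (2 * Real.pi * q.2), q.2)
  invFun q := ((q.1 + √3 * Real.cos (2 * Real.pi * q.2)) / rayR, q.2)
  left_inv q := by
    have := ray0_R_pos
    refine Prod.ext ?_ rfl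
    simp only
    field_simp
    ring
  right_inv q := by
    have := ray0_R_pos
    refine Prod.ext ?_ rfl
    simp only
    field_simp
    ring
  continuous_toFun := by fun_prop
  continuous_invFun := by fun_prop

lemma lemb_cross : Lemb (fun x : ℂ => ((rayR * ‖x‖ : ℝ) : ℂ) - dd (ang x)) ((√3 / rayR : ℝ) : ℂ) := by
  have h1 := ray0_le_polar ray0_center_slit
  have h2 := (le_homeo ray0Shear _).comp h1
  have d1 : HasStrictDerivAt (fun t : ℝ => √3 * Real.sin (Real.pi * t))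
      (√3 * (Real.cos (Real.pi * 0) * (Real.pi * 1))) 0 :=
    (((hasStrictDerivAt_id (0 : ℝ)).const_mul Real.pi).sin).const_mul _
  have h3 : Lemb (fun t : ℝ => √3 * Real.sin (Real.pi * t)) (ang ((√3 / rayR : ℝ) : ℂ)) := by
    rw [ray0_ang_center]
    exact le_of_deriv_real d1 (by simp)
  have h4 := Lemb.comp (p := ray0Shear ∘ fun x : ℂ => (‖x‖, ang x))
    ((le_homeo (Homeomorph.refl ℝ) _).prod h3) h2
  have h5 := (le_homeo equivRealProdCLM.symm.toHomeomorph _).comp h4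
  refine h5.congr (Eventually.of_forall fun x => ?_)
  refine Complex.ext ?_ ?_ <;> simp [dd, ray0Shear, equivRealProdCLM_symm_apply, -ofReal_sin,
    -ofReal_cos]

/-- The formula at infinity. -/
lemma lam_inf (hs : 6 ≤ s) (l φ : ℝ) : (chB 0).jj none (lam (false, b)
    (-I * (l / 100 * s : ℝ) * ee (-(ts j / 2)) * conj (ee φ), ee (ts j) * ee φ / (s ^ 2 : ℝ))) =
      (chB 0).prT (rayP j b l s φ) := by
  have s0 : 0 < s := by linarith
  have s1 : (s : ℂ) ≠ 0 := ofReal_ne_zero.2 s0.ne'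
  have hw : ((s⁻¹ : ℝ) : ℂ) * ee ((ts j + φ) / 2) ≠ 0 :=
    mul_ne_zero (ofReal_ne_zero.2 (inv_pos.2 s0).ne') (ee_ne_zero _)
  have h4 : ee (ts j) * ee φ / ((s ^ 2 : ℝ) : ℂ) =
      (((s⁻¹ : ℝ) : ℂ) * ee ((ts j + φ) / 2)) ^ 2 := by
    rw [mul_pow, ray0_ee_sq, ee_add]
    push_cast
    field_simp
  have h5 : -I * ((l / 100 * s : ℝ) : ℂ) * ee (-(ts j / 2)) * conj (ee φ) *
      (((s⁻¹ : ℝ) : ℂ) * ee ((ts j + φ) / 2)) = -I * ((l / 100 : ℝ) : ℂ) * ee (-(φ / 2)) := by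
    rw [← ee_neg, show -(φ / 2) = -(ts j / 2) + -φ + (ts j + φ) / 2 by ring, ee_add, ee_add]
    push_cast
    field_simp
  have h6 := (chB 0).pW_eq none (u0 (false, b) + -I * ((l / 100 : ℝ) : ℂ) * ee (-(φ / 2)))
    (inv_pos.2 s0) (ts j + φ)
  rw [h4, lam_eq _ _ hw, h5]
  refine h6.trans ?_
  have a : 2 * Real.pi * -(φ / 2) = -(Real.pi * φ) := by ring
  have r1 : (u0 (false, b) + -I * ((l / 100 : ℝ) : ℂ) * ee (-(φ / 2))).re =
      -(l / 100 * Real.sin (Real.pi * φ)) := by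
    simp [u0, ee_re, ee_im, a]
  have r2 : (u0 (false, b) + -I * ((l / 100 : ℝ) : ℂ) * ee (-(φ / 2))).im =
      (u0 (false, b)).im - l / 100 * Real.cos (Real.pi * φ) := by
    simp [ee_re, ee_im, a, sub_eq_add_neg]
  rw [rayP_far j b hs, r1, r2]
  congr 2
  simp only [Br.loc, neg_neg]
  push_cast
  field_simp

end Pool.Agent.Lib.MP_45bb13_gt
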