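import Pool.Agent.Lib.MP_45bb13_gt.Ray0

/-! The ray spheres form a continuous family. -/

set_option linter.unusedSectionVars false

namespace Pool.Agent.Lib.MP_45bb13_gt

open Set Filter Topology Complex
open scoped ComplexConjugate

lemma rayA_half : (chB 0).eps / 2 < (chB 0).eps := half_lt_self (chB 0).eps_pos

lemma rayA_pos : 0 < rayR := by linarith [rayR_ge]

/-- Continuity of a cap chart composed with a continuous map. -/
lemma rayA_lam {Z : Type*} [TopologicalSpace Z] (k : Option (Fin 3)) (c : Bool × Bool) {f : Z → CC}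
    {z : Z} (hf : ContinuousAt f z) (h1 : ‖(f z).1‖ ^ 2 * ‖(f z).2‖ < 1 / 16)
    (h2 : ‖(f z).2‖ < (chB 0).eps ^ 2) :
    ContinuousAt (fun z => (chB 0).jj k (lam c (f z))) z := by
  have a1 : f z ∈ domL := box_of_norm (by rwa [norm_mul, norm_pow])
  have a2 : lam c (f z) ∈ Nr (chB 0).eps := by
    rw [← wabs_lam c] at h2
    exact lt_of_pow_lt_pow_left₀ 2 (chB 0).eps_pos.le h2
  exact ContinuousAt.comp (f := fun z => lam c (f z)) (((chB 0).lo_jj k).continuousAt a2)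
    (ContinuousAt.comp (f := f) ((lo_lam c).continuousAt a1) hf)

lemma rayA_own (j : Fin 3) (b : Bool) (l : ℝ) {s : ℝ} (h0 : 0 ≤ s) (hs : s ≤ 1 / 2) (φ : ℝ) :
    ‖(rayP j b l s φ).1 - (chB 0).b j (rayP j b l s φ).2.im‖ = s := by
  have h3 : (1 : ℝ) ≤ √3 := Real.one_le_sqrt.2 (by norm_num)
  have e1 : frz s φ = φ := frz_eq (by
    have := neg_le_abs (s - √3)
    have := abs_nonneg φ
    linarith)
  have e2 : max 0 (min 1 ((6 - s) / 2)) = (1 : ℝ) := by
    rw [min_eq_left (by linarith), max_eq_right zero_le_one]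
  simp only [rayP, e1, e2, sub_self, add_zero, ofReal_one, one_mul, add_sub_cancel_left, norm_mul,
    norm_ee, mul_one, Complex.norm_real, Real.norm_of_nonneg h0]

/-- The second formula holds on the larger set. -/
lemma rayA_large (j : Fin 3) (b : Bool) (l : ℝ) {x : ℂ} (hx : (chB 0).eps / 2 ≤ rayR * ‖x‖) :
    rayF j b l x = (chB 0).fill ((chB 0).eps / 2) (rayP j b l (rayR * ‖x‖) (ang x)) := by
  by_cases h : rayR * ‖x‖ < (chB 0).eps
  swap
  · rw [rayF, if_neg h]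
  have e0 := (chB 0).eps_pos
  have hs : 0 < rayR * ‖x‖ := by linarith
  have e1 : x = ((rayR * ‖x‖ / rayR : ℝ) : ℂ) * ee (ang x) := by
    rw [mul_div_cancel_left₀ _ rayA_pos.ne', norm_mul_ee_ang]
  have e2 := rayA_own j b l hs.le (by linarith [(chB 0).eps_le]) (ang x)
  rw [(chB 0).fill_far (half_pos e0) rayA_half, ← pW_rayP j b hs h, ← rayF_small j b hs h, ← e1]
  intro i
  by_cases hi : i = j
  · rw [hi, e2]; exact hx
  · have h1 := (chB 0).eps_spec.2.2.1 (rayP j b l (rayR * ‖x‖) (ang x)).2.im i j hi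
    have h2 := norm_sub_le_norm_sub_add_norm_sub
      ((chB 0).b i (rayP j b l (rayR * ‖x‖) (ang x)).2.im) (rayP j b l (rayR * ‖x‖) (ang x)).1
      ((chB 0).b j (rayP j b l (rayR * ‖x‖) (ang x)).2.im)
    rw [e2, norm_sub_rev _ (rayP j b l (rayR * ‖x‖) (ang x)).1] at h2
    linarith

lemma rayA_contP (j : Fin 3) (b : Bool) {a : ℂ → ℝ} {q : ℂ × ℝ} (ha : ContinuousAt a q.1) :
    ContinuousAt (fun q : ℂ × ℝ => rayP j b q.2 (rayR * ‖q.1‖) (a q.1)) q :=
  ContinuousAt.comp (f := fun q : ℂ × ℝ => (q.2, rayR * ‖q.1‖, a q.1))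
    (continuous_rayP j b).continuousAt (continuousAt_snd.prodMk (ContinuousAt.prodMk (by fun_prop)
      (ContinuousAt.comp (f := Prod.fst) ha continuousAt_fst)))

lemma rayA_slit (j : Fin 3) (b : Bool) {q : ℂ × ℝ} (hl : q.2 ∈ Icc (0 : ℝ) 1)
    (hx : q.1 ∈ slitPlane) : ContinuousAt (fun q : ℂ × ℝ =>
      (chB 0).fill ((chB 0).eps / 2) (rayP j b q.2 (rayR * ‖q.1‖) (ang q.1))) q := by
  have h1 : (rayP j b q.2 (rayR * ‖q.1‖) (ang q.1)).2.re ≠ 1 / 4 := fun e => by
    have := rayP_re_ne j b hl (mul_nonneg rayA_pos.le (norm_nonneg q.1)) (ang q.1)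
    rw [e, abs_le] at this
    cases b <;> simp only [u0] at this <;> norm_num at this
  have h2 : IsOpen {p : CC | p.2.re ≠ 1 / 4} := isOpen_ne_fun (by fun_prop) continuous_const
  exact ContinuousAt.comp (f := fun q : ℂ × ℝ => rayP j b q.2 (rayR * ‖q.1‖) (ang q.1))
    (((chB 0).fill_cont (half_pos (chB 0).eps_pos) rayA_half).continuousAt (h2.mem_nhds h1))
    (rayA_contP j b (continuousAt_ang hx))

/-- Near the cut the value does not depend on the branch of the angle. -/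
lemma rayA_branch (j : Fin 3) (b : Bool) {l c : ℝ} (hl : l ∈ Icc (0 : ℝ) 1) {x : ℂ}
    (hx : (chB 0).eps / 2 ≤ rayR * ‖x‖) (hc : |c - 1 / 2| < 1 / 2000) (e : ‖x‖ * ee c = x) :
    rayF j b l x = (chB 0).prT (rayP j b l (rayR * ‖x‖) c) := by
  have e0 := (chB 0).eps_pos
  have h0 : 0 < ‖x‖ := (mul_pos_iff_of_pos_left rayA_pos).1 (by linarith)
  obtain ⟨n, hn⟩ := exists_ang h0 c
  rw [e] at hn
  obtain ⟨m1, m2⟩ := ang_mem x
  obtain ⟨c1, c2⟩ := abs_lt.1 hc
  have n1 : (-2 : ℤ) < n := by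
    have : ((-2 : ℤ) : ℝ) < n := by push_cast; linarith
    exact_mod_cast this
  have n2 : n < 1 := by
    have : (n : ℝ) < (1 : ℤ) := by push_cast; linarith
    exact_mod_cast this
  have hn' : ang x = c ∨ ang x = c - 1 := by
    obtain rfl | rfl : n = 0 ∨ n = -1 := by omega
    · left; simpa using hn
    · right; rw [hn]; push_cast; ring
  have hq : |ang x ^ 2 - 1 / 4| ≤ 1 / 1000 := by
    rcases hn' with h | h <;> rw [h, abs_le] <;> constructor <;> nlinarith
  rw [rayA_large j b l hx, (chB 0).fill_far (half_pos e0) rayA_half (rayP_cut j b hl hx hq)]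
  rcases hn' with h | h
  · rw [h]
  · have e1 : c = ang x + 1 := by rw [h]; ring
    rw [e1, rayP_per j b (le_abs.2 (.inr (by linarith))) (le_abs.2 (.inl (by linarith))),
      (chB 0).prT_smul]

lemma rayA_cf (j : Fin 3) (b : Bool) :
    ContinuousOn (fun q : ℂ × ℝ => rayF j b q.2 q.1) (D1 ×ˢ Icc 0 1) := by
  intro q hq
  have e0 := (chB 0).eps_pos
  have e1 := (chB 0).eps_le
  have hl : q.2 ∈ Icc (0 : ℝ) 1 := hq.2
  have cn : Continuous fun q : ℂ × ℝ => rayR * ‖q.1‖ := by fun_prop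
  by_cases h : rayR * ‖q.1‖ < (chB 0).eps
  · have hn : ‖((rayR ^ 2 * ‖q.1‖ : ℝ) : ℂ) * q.1 * ee (ts j)‖ = (rayR * ‖q.1‖) ^ 2 := by
      rw [norm_mul, norm_mul, norm_ee, Complex.norm_real, Real.norm_of_nonneg (by positivity)]
      ring
    have h2 : (rayR * ‖q.1‖) ^ 2 < (chB 0).eps ^ 2 :=
      pow_lt_pow_left₀ h (mul_nonneg rayA_pos.le (norm_nonneg _)) two_ne_zero
    have := rayA_lam (some j) (false, b) (f := fun q : ℂ × ℝ =>
      (-I * (q.2 / 100 : ℝ) * ee (-(ts j / 2)), (rayR ^ 2 * ‖q.1‖ : ℝ) * q.1 * ee (ts j))) (z := q)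
      (by fun_prop) (by
        simp only [hn]
        rw [norm_mul, norm_mul, norm_neg, norm_I, norm_ee, Complex.norm_real, Real.norm_eq_abs,
          one_mul, mul_one, sq_abs]
        have a1 : (q.2 / 100) ^ 2 ≤ 1 / 10000 := by nlinarith [hl.1, hl.2]
        have a2 : (chB 0).eps ^ 2 ≤ 1 := by nlinarith
        nlinarith [sq_nonneg (rayR * ‖q.1‖), sq_nonneg (q.2 / 100)]) (by simp only [hn]; exact h2)
    refine (this.congr ?_).continuousWithinAt
    filter_upwards [cn.continuousAt.eventually_lt continuousAt_const h] with y hy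
    rw [rayF, if_pos hy]
  have h1 : (chB 0).eps / 2 < rayR * ‖q.1‖ := by linarith
  have ev : ∀ᶠ y : ℂ × ℝ in 𝓝 q, (chB 0).eps / 2 < rayR * ‖y.1‖ :=
    continuousAt_const.eventually_lt cn.continuousAt h1
  by_cases hs : q.1 ∈ slitPlane
  · refine ((rayA_slit j b hl hs).congr ?_).continuousWithinAt
    filter_upwards [ev] with y hy
    rw [rayA_large j b _ hy.le]
  have h0 : 0 < ‖q.1‖ := (mul_pos_iff_of_pos_left rayA_pos).1 (by linarith)
  have e2 : ‖q.1‖ * ee (1 / 2) = q.1 := by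
    rw [mem_slitPlane_iff, not_or, not_lt, not_not] at hs
    have : q.1 = ((q.1.re : ℝ) : ℂ) := Complex.ext (by simp) (by simp [hs.2])
    rw [ee_half, this, Complex.norm_real, Real.norm_of_nonpos hs.1]
    simp
  obtain ⟨a, a1, a2, a3⟩ := exists_branch h0 (1 / 2)
  rw [e2] at a1 a2
  have a4 : ContinuousAt a q.1 := (a1 0).continuousAt
  have hd : rayP j b q.2 (rayR * ‖q.1‖) (a q.1) ∈ (chB 0).domT := fun i e => by
    have := rayP_cut j b hl h1.le (φ := a q.1) (by rw [a2]; norm_num) i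
    rw [sub_eq_zero.2 e, norm_zero] at this
    linarith
  have c1 := ContinuousAt.comp (f := fun q : ℂ × ℝ => rayP j b q.2 (rayR * ‖q.1‖) (a q.1))
    ((chB 0).lo_prT.continuousAt hd) (rayA_contP j b a4)
  have ev2 : ∀ᶠ y : ℂ × ℝ in 𝓝 q, |a y.1 - 1 / 2| < 1 / 2000 := by
    refine ContinuousAt.eventually_lt (f := fun y : ℂ × ℝ => |a y.1 - 1 / 2|)
      ((ContinuousAt.comp (f := Prod.fst) a4 continuousAt_fst).sub continuousAt_const).abs
      continuousAt_const ?_
    simp only [a2]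
    norm_num
  refine c1.continuousWithinAt.congr_of_eventuallyEq ?_
    (rayA_branch j b hl h1.le (by rw [a2]; norm_num) (a3 _))
  filter_upwards [nhdsWithin_le_nhds ev, nhdsWithin_le_nhds ev2, self_mem_nhdsWithin]
    with y y1 y2 y3
  exact rayA_branch j b y3.2 y1.le y2 (a3 _)

lemma rayA_cg (j : Fin 3) (b : Bool) :
    ContinuousOn (fun q : ℂ × ℝ => rayG j b q.2 q.1) (D1 ×ˢ Icc 0 1) := by
  intro q hq
  have e0 := (chB 0).eps_pos
  have hl : q.2 ∈ Icc (0 : ℝ) 1 := hq.2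
  have hx : ‖q.1‖ ≤ 1 := mem_closedBall_zero_iff.1 hq.1
  have R0 := rayA_pos
  have hn : ‖ee (ts j) * q.1 / ((rayR ^ 2 : ℝ) : ℂ)‖ = ‖q.1‖ / rayR ^ 2 := by
    rw [norm_div, norm_mul, norm_ee, one_mul, Complex.norm_real, Real.norm_of_nonneg (sq_nonneg _)]
  refine (rayA_lam none (false, b) (f := fun q : ℂ × ℝ =>
    (-I * (q.2 / 100 * rayR : ℝ) * ee (-(ts j / 2)) * conj q.1, ee (ts j) * q.1 / (rayR ^ 2 : ℝ)))
    (z := q) (by fun_prop) ?_ ?_).continuousWithinAt
  · simp only [hn]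
    rw [norm_mul, norm_mul, norm_mul, norm_neg, norm_I, norm_ee, Complex.norm_real,
      Real.norm_eq_abs, one_mul, mul_one, Complex.norm_conj, mul_pow, sq_abs]
    have e : (q.2 / 100 * rayR) ^ 2 * ‖q.1‖ ^ 2 * (‖q.1‖ / rayR ^ 2) =
        (q.2 / 100) ^ 2 * ‖q.1‖ ^ 3 := by field_simp
    have a1 : (q.2 / 100) ^ 2 ≤ 1 / 10000 := by nlinarith [hl.1, hl.2]
    have a2 : ‖q.1‖ ^ 3 ≤ 1 := pow_le_one₀ (norm_nonneg _) hx
    rw [e]
    nlinarith [sq_nonneg (q.2 / 100)]
  · simp only [hn]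
    have e : (chB 0).eps ^ 2 * rayR ^ 2 = 36 := by rw [rayR]; field_simp; norm_num
    rw [div_lt_iff₀ (by positivity), e]
    linarith

theorem ray_fam (j : Fin 3) (b : Bool) : BiFam univ (rayF j b) (rayG j b) := by
  refine ⟨rayA_cf j b, rayA_cg j b, fun _ _ => mapsTo_univ _ _, fun _ _ => mapsTo_univ _ _,
    fun l _ t => ?_⟩
  have e0 := (chB 0).eps_pos
  have e1 := (chB 0).eps_le
  have hR := rayR_ge
  have e2 : ee (ang (ee t)) = ee t := by simpa [norm_ee] using norm_mul_ee_ang (ee t)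
  rw [rayA_large j b l (by rw [norm_ee]; linarith), norm_ee, mul_one,
    (chB 0).fill_far (half_pos e0) rayA_half, ← lam_inf j b (by linarith), e2, rayG]
  intro i
  refine le_trans ?_ (norm_sub_norm_le _ _)
  have h1 : ‖(chB 0).b i (rayP j b l rayR (ang (ee t))).2.im‖ < 3 / 2 := norm_fig _
  have h2 : ‖(rayP j b l rayR (ang (ee t))).1‖ = rayR := by
    rw [rayP_far j b (by linarith), norm_mul, norm_ee, mul_one, Complex.norm_real,
      Real.norm_of_nonneg (by linarith)]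
  linarith

end Pool.Agent.Lib.MP_45bb13_gt
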