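import Pool.Agent.Lib.MP_45bb13_gt.Ray0

/-! The ray spheres meet their push-offs twice. -/

set_option linter.unusedSectionVars false

namespace Pool.Agent.Lib.MP_45bb13_gt

open Set Filter Topology Complex
open scoped ComplexConjugate

variable (j : Fin 3) (b : Bool)

lemma rayb_lam_mem (k : Bool × Bool) {p : CC} {r : ℝ} (hr : 0 < r) (h : ‖p.2‖ < r ^ 2) :
    lam k p ∈ Nr r := by
  have h1 := wabs_lam k p
  change wabs (lam k p) < r
  exact lt_of_pow_lt_pow_left₀ 2 hr.le (by rw [h1]; exact h)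

lemma rayb_R_eps : rayR * (chB 0).eps = 6 := by
  have := (chB 0).eps_pos
  unfold rayR
  field_simp

lemma rayb_R_pos : 0 < rayR := lt_of_lt_of_le (by norm_num) rayR_ge

/-- The coordinates of the finite part near its own strand. -/
noncomputable def raybS (j : Fin 3) (l : ℝ) (x : ℂ) : CC :=
  (-I * (l / 100 : ℝ) * ee (-(ts j / 2)), (rayR ^ 2 * ‖x‖ : ℝ) * x * ee (ts j))

/-- The coordinates of the part at infinity. -/
noncomputable def raybG (j : Fin 3) (l s : ℝ) (x : ℂ) : CC :=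
  (-I * (l / 100 * s : ℝ) * ee (-(ts j / 2)) * conj x, ee (ts j) * x / (s ^ 2 : ℝ))

lemma raybS_norm (l : ℝ) (x : ℂ) : ‖(raybS j l x).2‖ = (rayR * ‖x‖) ^ 2 := by
  have := rayb_R_pos
  simp only [raybS, norm_mul, norm_ee, norm_real, Real.norm_eq_abs, abs_norm, norm_pow,
    abs_of_pos this]
  ring

lemma raybS_Nr (l : ℝ) {x : ℂ} (hx : rayR * ‖x‖ < (chB 0).eps) :
    lam (false, b) (raybS j l x) ∈ Nr (chB 0).eps := by
  refine rayb_lam_mem _ (chB 0).eps_pos ?_
  rw [raybS_norm]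
  have := rayb_R_pos
  exact pow_lt_pow_left₀ hx (by positivity) two_ne_zero

lemma raybS_dom {l : ℝ} (hl : l ∈ Icc (0 : ℝ) 1) {x : ℂ} (hx : rayR * ‖x‖ < (chB 0).eps) :
    raybS j l x ∈ domL := by
  refine box_of_norm ?_
  rw [norm_mul, raybS_norm, norm_pow]
  have h1 : ‖(raybS j l x).1‖ = l / 100 := by
    simp only [raybS, norm_mul, norm_neg, norm_I, norm_ee, norm_real, Real.norm_eq_abs]
    rw [abs_of_nonneg (by linarith [hl.1])]
    ring
  have h2 := (chB 0).eps_le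
  have h3 : 0 ≤ rayR * ‖x‖ := by have := rayb_R_pos; positivity
  have h4 : (rayR * ‖x‖) ^ 2 ≤ 1 := by nlinarith
  have h5 : (l / 100) ^ 2 ≤ 1 / 10000 := by nlinarith [hl.1, hl.2]
  rw [h1]
  nlinarith [sq_nonneg (l / 100), sq_nonneg (rayR * ‖x‖)]

lemma raybG_norm (l : ℝ) {s : ℝ} (hs : 0 < s) (x : ℂ) : ‖(raybG j l s x).2‖ = ‖x‖ / s ^ 2 := by
  simp only [raybG, norm_div, norm_mul, norm_ee, norm_real, Real.norm_eq_abs, norm_pow,
    abs_of_pos hs, one_mul]

lemma raybG_Nr (l : ℝ) {s r : ℝ} (hs : 0 < s) (hr : 1 < s * r) {x : ℂ} (hx : ‖x‖ ≤ 1) :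
    lam (false, b) (raybG j l s x) ∈ Nr r := by
  have h0 : 0 < r := by
    by_contra h
    nlinarith
  refine rayb_lam_mem _ h0 ?_
  rw [raybG_norm j l hs, div_lt_iff₀ (by positivity)]
  nlinarith

lemma raybG_dom {l : ℝ} (hl : l ∈ Icc (0 : ℝ) 1) {s : ℝ} (hs : 0 < s) {x : ℂ} (hx : ‖x‖ ≤ 1) :
    raybG j l s x ∈ domL := by
  refine box_of_norm ?_
  rw [norm_mul, raybG_norm j l hs, norm_pow]
  have h1 : ‖(raybG j l s x).1‖ = l / 100 * s * ‖x‖ := by
    simp only [raybG, norm_mul, norm_neg, norm_I, norm_ee, norm_real, Real.norm_eq_abs,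
      RCLike.norm_conj, abs_of_pos hs]
    rw [abs_of_nonneg (by linarith [hl.1])]
    ring
  have h2 : (l / 100 * s * ‖x‖) ^ 2 * (‖x‖ / s ^ 2) = (l / 100) ^ 2 * ‖x‖ ^ 3 := by
    field_simp
  have h3 : ‖x‖ ^ 3 ≤ 1 := pow_le_one₀ (norm_nonneg x) hx
  have h5 : (l / 100) ^ 2 ≤ 1 / 10000 := by nlinarith [hl.1, hl.2]
  rw [h1, h2]
  nlinarith [sq_nonneg (l / 100), pow_nonneg (norm_nonneg x) 3]

lemma rayb_F_small (l : ℝ) {x : ℂ} (hx : rayR * ‖x‖ < (chB 0).eps) :
    rayF j b l x = (chB 0).jj (some j) (lam (false, b) (raybS j l x)) := if_pos hx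

lemma rayb_F_large (l : ℝ) {x : ℂ} (hx : (chB 0).eps ≤ rayR * ‖x‖) :
    rayF j b l x = (chB 0).fill ((chB 0).eps / 2) (rayP j b l (rayR * ‖x‖) (ang x)) :=
  if_neg (not_lt.2 hx)

lemma rayb_G (l : ℝ) (x : ℂ) :
    rayG j b l x = (chB 0).jj none (lam (false, b) (raybG j l rayR x)) := rfl

lemma rayb_abs_ang (x : ℂ) : |ang x| ≤ 1 / 2 :=
  abs_le.2 ⟨(ang_mem x).1.le, (ang_mem x).2⟩

lemma rayb_frz (s : ℝ) (x : ℂ) : frz s (ang x) ∈ Ioc (-(1 / 2) : ℝ) (1 / 2) := by
  obtain ⟨a, ha, h⟩ := frz_sign s (ang x)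
  have h1 := ang_mem x
  rw [h]
  constructor
  · rcases le_total 0 (ang x) with h2 | h2
    · nlinarith [mul_nonneg ha.1 h2]
    · nlinarith [h1.1, mul_nonneg (sub_nonneg.2 ha.2) (neg_nonneg.2 h2)]
  · rcases le_total 0 (ang x) with h2 | h2
    · nlinarith [h1.2, mul_nonneg (sub_nonneg.2 ha.2) h2]
    · nlinarith [mul_nonneg ha.1 (neg_nonneg.2 h2)]

/-- The small part and the large part are disjoint. -/
lemma rayb_small_large {l l' : ℝ} (hl' : l' ∈ Icc (0 : ℝ) 1) {x x' : ℂ}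
    (hx : rayR * ‖x‖ < (chB 0).eps) (hx' : (chB 0).eps ≤ rayR * ‖x'‖) :
    rayF j b l x ≠ rayF j b l' x' := by
  intro h
  have e0 := (chB 0).eps_pos
  have h1 : rayF j b l x ∈ (chB 0).Cap (some j) := by
    rw [rayb_F_small j b l hx]
    exact mem_image_of_mem _ (raybS_Nr j b l hx)
  rw [h, rayb_F_large j b l' hx', (chB 0).fill_mem_cap (by linarith) (by linarith)] at h1
  exact absurd h1 (not_lt.2 (rayP_own j b hl' hx' _))

lemma rayb_center {x : ℂ} (h1 : rayR * ‖x‖ = √3) (h2 : ang x = 0) :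
    x = ((√3 / rayR : ℝ) : ℂ) := by
  have h3 := norm_mul_ee_ang x
  have h4 : ‖x‖ = √3 / rayR := by
    rw [eq_div_iff rayb_R_pos.ne', ← h1, mul_comm]
  rw [h2, ee_zero, mul_one, h4] at h3
  exact h3.symm

lemma rayb_le_jj (k : Option (Fin 3)) {n : N} (h : n ∈ Nr (chB 0).eps) :
    Lemb ((chB 0).jj k) n := ((chB 0).lo_jj k).le ((chB 0).jj_injOn k) h

lemma rayb_fin : ∀ i j : Fin 3, i = j ∨ i = j + 1 ∨ i = j + 2 := by decide

theorem ray_ff : Meets (rayF j b 0) (rayF j b 1) 1 := by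
  have e0 := (chB 0).eps_pos
  have l0 : (0 : ℝ) ∈ Icc (0 : ℝ) 1 := ⟨le_rfl, zero_le_one⟩
  have l1 : (1 : ℝ) ∈ Icc (0 : ℝ) 1 := ⟨zero_le_one, le_rfl⟩
  have R0 := rayb_R_pos
  have ha : ‖((√3 / rayR : ℝ) : ℂ)‖ < 1 := by
    have h3 : √3 < 12 := by
      rw [Real.sqrt_lt' (by norm_num)]
      norm_num
    rw [norm_real, Real.norm_eq_abs, abs_of_nonneg (by positivity), div_lt_one R0]
    linarith [rayR_ge]
  refine meets_one (fun x _ x' _ h => ?_) ha ha ?_
  · rcases lt_or_ge (rayR * ‖x‖) (chB 0).eps with hx | hx <;>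
      rcases lt_or_ge (rayR * ‖x'‖) (chB 0).eps with hx' | hx'
    · exfalso
      rw [rayb_F_small j b 0 hx, rayb_F_small j b 1 hx'] at h
      have h1 := (chB 0).jj_injOn _ (raybS_Nr j b 0 hx) (raybS_Nr j b 1 hx') h
      have h2 := congrArg Prod.fst (lam_injOn _ (raybS_dom j l0 hx) (raybS_dom j l1 hx') h1)
      simp [raybS, ee_ne_zero] at h2
    · exact absurd h (rayb_small_large j b l1 hx hx')
    · exact absurd h.symm (rayb_small_large j b l0 hx' hx)
    · rw [rayb_F_large j b 0 hx, rayb_F_large j b 1 hx'] at h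
      have s0 : 0 < rayR * ‖x‖ := e0.trans_le hx
      have s0' : 0 < rayR * ‖x'‖ := e0.trans_le hx'
      have f1 := rayb_frz (rayR * ‖x‖) x
      have f2 := rayb_frz (rayR * ‖x'‖) x'
      have z1 := abs_le.1 (rayP_re_ne j b l0 s0.le (ang x))
      have z2 := abs_le.1 (rayP_re_ne j b l1 s0'.le (ang x'))
      rcases (chB 0).fill_inj (by linarith) (by linarith)
        (abs_lt.2 ⟨by simp only [rayP]; linarith [f1.1, f2.2],
          by simp only [rayP]; linarith [f1.2, f2.1]⟩)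
        (abs_lt.2 ⟨by linarith [z1.1, z2.2], by linarith [z1.2, z2.1]⟩) h with h1 | ⟨i, h1, h2⟩
      · exact absurd h1 (rayP_ne j b s0 s0' (rayb_abs_ang x) (rayb_abs_ang x'))
      · rcases rayb_fin i j with rfl | rfl | rfl
        · exfalso
          have := rayP_own i b l0 hx (ang x)
          rw [h1, sub_self, norm_zero] at this
          linarith
        · have a1 := rayP_next j b l0 s0 (rayb_abs_ang x) h1
          have a2 := rayP_next j b l1 s0' (rayb_abs_ang x') h2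
          exact ⟨rayb_center a1.1 a1.2, rayb_center a2.1 a2.2⟩
        · exact absurd h1 (rayP_prev j b s0 (rayb_abs_ang x))
  · have h0 : (fun x : ℂ => ((rayR * ‖x‖ : ℝ) : ℂ) - dd (ang x)) ((√3 / rayR : ℝ) : ℂ) = 0 := by
      have p3 : 0 < √3 / rayR := by positivity
      have a0 : ang ((√3 / rayR : ℝ) : ℂ) = 0 := by
        rw [ang, arg_ofReal_of_nonneg p3.le, zero_div]
      have n0 : rayR * ‖((√3 / rayR : ℝ) : ℂ)‖ = √3 := by
        rw [norm_real, Real.norm_eq_abs, abs_of_pos p3]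
        field_simp
      simp only [a0, n0]
      refine Complex.ext ?_ ?_ <;> simp [dd]
    have h1 := cd_std (r := (chB 0).eps / 2) (z := (u0 (false, b)).im - 0 / 100)
      (z' := (u0 (false, b)).im - 1 / 100) (τ := ee (ts j / 2)) (by linarith) (ee_ne_zero _)
      (fun h => by linarith) (by cases b <;> simp [u0] <;> norm_num)
    have h2 := h1.post (rayb_le_jj (some (j + 1))
      (Br.cd_mem (by linarith) _ _ (by rw [norm_zero]; exact e0)))
    exact (h2.pre lemb_cross lemb_cross h0 h0).congr (rayF_cross j b 0) (rayF_cross j b 1)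

/-- An intersection of the finite part with the part at infinity, in coordinates. -/
lemma rayb_fg {l l' : ℝ} (hl : l ∈ Icc (0 : ℝ) 1) (hl' : l' ∈ Icc (0 : ℝ) 1) {x x' : ℂ}
    (hx' : ‖x'‖ ≤ 1) (h : rayF j b l x = rayG j b l' x') :
    ∃ s φ : ℝ, 0 < s ∧ raybG j l s (ee φ) = raybG j l' rayR x' := by
  have e0 := (chB 0).eps_pos
  have e1 := (chB 0).eps_le
  have R0 := rayb_R_pos
  have Re := rayb_R_eps
  have g1 : lam (false, b) (raybG j l' rayR x') ∈ Nr (chB 0).eps :=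
    raybG_Nr j b l' R0 (by linarith) hx'
  have g2 : lam (false, b) (raybG j l' rayR x') ∈ Nr ((chB 0).eps / 5) :=
    raybG_Nr j b l' R0 (by linarith) hx'
  rw [rayb_G] at h
  rcases lt_or_ge (rayR * ‖x‖) (chB 0).eps with hx | hx
  · rw [rayb_F_small j b l hx] at h
    exact absurd ((chB 0).jj_disj (raybS_Nr j b l hx) g1 h) (by simp)
  · rw [rayb_F_large j b l hx] at h
    set s := rayR * ‖x‖
    have s0 : 0 < s := e0.trans_le hx
    obtain ⟨h1, h2⟩ := (chB 0).fill_mem_inf (r := (chB 0).eps / 2) (by linarith) (by linarith)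
      (s := (chB 0).eps / 5) (by linarith) (p := rayP j b l s (ang x)) ⟨_, g2, h.symm⟩
    have h3 := rayP_size j b (l := l) s0.le (ang x)
    have h4 : 0 < ‖(rayP j b l s (ang x)).1‖ := inv_pos.1 h1.1
    have h5 : 1 < (chB 0).eps / 5 * ‖(rayP j b l s (ang x)).1‖ := by
      have := h1.2
      change ‖(rayP j b l s (ang x)).1‖⁻¹ < _ at this
      rwa [inv_lt_iff_one_lt_mul₀ h4] at this
    have h6 : 4 < s * (chB 0).eps := by nlinarith
    have h7 : 6 ≤ s := by nlinarith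
    rw [h2, ← lam_inf j b h7] at h
    change (chB 0).jj none (lam (false, b) (raybG j l s (ee (ang x)))) = _ at h
    have n1 := (norm_ee (ang x)).le
    have h8 := (chB 0).jj_injOn _ (raybG_Nr j b l s0 (by linarith) n1) g1 h
    exact ⟨s, ang x, s0, lam_injOn _ (raybG_dom j hl s0 n1) (raybG_dom j hl' R0 hx') h8⟩

theorem ray_fg : Meets (rayF j b 0) (rayG j b 1) 0 := by
  refine meets_zero fun x _ x' hx' h => ?_
  obtain ⟨s, φ, s0, h1⟩ := rayb_fg j b ⟨le_rfl, zero_le_one⟩ ⟨zero_le_one, le_rfl⟩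
    (mem_closedBall_zero_iff.1 hx') h
  have R0 := rayb_R_pos.ne'
  have h2 := congrArg Prod.fst h1
  have h3 := congrArg Prod.snd h1
  have h4 : x' = 0 := by simpa [raybG, ee_ne_zero, R0] using h2
  simp [raybG, ee_ne_zero, h4, s0.ne'] at h3

theorem ray_gf : Meets (rayG j b 0) (rayF j b 1) 0 := by
  refine meets_zero fun x hx x' _ h => ?_
  obtain ⟨s, φ, s0, h1⟩ := rayb_fg j b ⟨zero_le_one, le_rfl⟩ ⟨le_rfl, zero_le_one⟩
    (mem_closedBall_zero_iff.1 hx) h.symm
  have h2 := congrArg Prod.fst h1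
  simp [raybG, ee_ne_zero, s0.ne'] at h2

theorem ray_gg : Meets (rayG j b 0) (rayG j b 1) 1 := by
  have e0 := (chB 0).eps_pos
  have l0 : (0 : ℝ) ∈ Icc (0 : ℝ) 1 := ⟨le_rfl, zero_le_one⟩
  have l1 : (1 : ℝ) ∈ Icc (0 : ℝ) 1 := ⟨zero_le_one, le_rfl⟩
  have R0 := rayb_R_pos
  have Re := rayb_R_eps
  refine meets_one (a := 0) (a' := 0) (fun x hx x' hx' h => ?_) (by simp) (by simp) ?_
  · rw [mem_closedBall_zero_iff] at hx hx'
    rw [rayb_G, rayb_G] at h
    have h1 := (chB 0).jj_injOn _ (raybG_Nr j b 0 R0 (by linarith) hx)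
      (raybG_Nr j b 1 R0 (by linarith) hx') h
    have h2 := lam_injOn _ (raybG_dom j l0 R0 hx) (raybG_dom j l1 R0 hx') h1
    have h3 : x' = 0 := by simpa [raybG, ee_ne_zero, R0.ne'] using congrArg Prod.fst h2
    have h4 : x = 0 := by simpa [raybG, ee_ne_zero, R0.ne', h3] using congrArg Prod.snd h2
    exact ⟨h4, h3⟩
  · let c : ℂ := ee (ts j) / (rayR ^ 2 : ℝ)
    let d : ℂ := -I * (1 / 100 * rayR : ℝ) * ee (-(ts j / 2))
    have c0 : c ≠ 0 := by simp [c, ee_ne_zero, R0.ne']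
    have d0 : d ≠ 0 := by simp [d, ee_ne_zero, R0.ne']
    let θ : CC → CC := Homeomorph.prodComm ℂ ℂ ∘ Prod.map (fun x => c * x + 0) fun y => 1 * y + 0
    have θe : ∀ x y, θ (x, y) = (y, c * x) := fun x y => by simp [θ]
    have h1 : Lemb θ (0, 0) := (le_homeo _ _).comp ((le_lin c0 0 0).prod (le_lin one_ne_zero 0 0))
    have m1 : θ (0, 0) ∈ domL := by
      rw [θe]
      exact box_of_norm (by simp)
    have m2 : lam (false, b) (θ (0, 0)) ∈ Nr (chB 0).eps := by
      refine rayb_lam_mem _ e0 ?_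
      rw [θe]
      simpa using by positivity
    have h2 : Lemb ((chB 0).jj none ∘ lam (false, b) ∘ θ) (0, 0) :=
      Lemb.comp (p := lam (false, b) ∘ θ) (rayb_le_jj none m2)
        (((lo_lam _).le (lam_injOn _) m1).comp h1)
    have h3 := locStd_graph (a := 0) (u := fun _ => 0) (u' := fun x => d * conj x) h2
      (Eventually.of_forall fun _ => continuousAt_const) (by simp)
      (by simpa using le_conj d0 0)
    refine h3.congr (Eventually.of_forall fun x => ?_) (Eventually.of_forall fun x => ?_)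
    · simp only [Function.comp, θe, rayb_G, raybG]
      congr 3
      · simp
      · simp only [c]
        ring
    · simp only [Function.comp, θe, rayb_G, raybG]
      congr 3
      simp only [c]
      ring

end Pool.Agent.Lib.MP_45bb13_gt
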