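import Pool.Agent.Lib.MP_45bb13_gt.RayA
import Pool.Agent.Lib.MP_45bb13_gt.RayB

/-! The ray spheres are crossing spheres. -/

set_option linter.unusedSectionVars false

namespace Pool.Agent.Lib.MP_45bb13_gt

open Set Filter Topology Complex
open scoped ComplexConjugate

lemma rayc_deck (b : Bool) (s t : ℝ) : ((u0 (false, b), s, t + 1) : ℂ × ℝ × ℝ) =
    (⟨(0, if b then 1 else 0), 1⟩ : SD (ℤ × ℤ)) • ((u0 (false, b), s, t + 0) : ℂ × ℝ × ℝ) := by
  rw [actW_def]
  refine Prod.ext (Complex.ext ?_ ?_) (Prod.ext rfl ?_)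
  · simp [u0]
  · cases b <;> simp [u0, sgn_one] <;> norm_num
  · simp

lemma rayc_loop (k : Option (Fin 3)) (b : Bool) {s : ℝ} (hs : 0 < s) (hs' : s < (chB 0).eps)
    (τ : ℝ) {ℓ : ℝ → (chB 0).X} (h : ∀ t, ℓ t = (chB 0).pW k (u0 (false, b), s, τ + t)) :
    LoopCls ((chB 0).pW k) (OW (chB 0).eps) (⟨(0, if b then 1 else 0), 1⟩ : SD (ℤ × ℤ)) ℓ :=
  ⟨fun t => (u0 (false, b), s, τ + t), by fun_prop, fun _ _ => ⟨hs, hs'⟩, rayc_deck b s τ,
    fun t _ => h t⟩

lemma rayc_T (j : Fin 3) (b : Bool) {x : ℂ} (h0 : x ≠ 0) (h1 : x ≠ ((√3 / rayR : ℝ) : ℂ)) :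
    rayF j b 0 x ∈ (chB 0).T := by
  have e0 := (chB 0).eps_pos
  have l0 : (0 : ℝ) ∈ Icc (0 : ℝ) 1 := ⟨le_rfl, zero_le_one⟩
  have R0 := rayb_R_pos
  have s0 : 0 < rayR * ‖x‖ := mul_pos R0 (norm_pos_iff.2 h0)
  rcases lt_or_ge (rayR * ‖x‖) (chB 0).eps with hx | hx
  · rw [rayb_F_small j b 0 hx, (chB 0).jj_mem_T (raybS_Nr j b 0 hx)]
    have h2 := wabs_lam (false, b) (raybS j 0 x)
    rw [raybS_norm] at h2
    refine lt_of_le_of_ne (wabs_nonneg _) fun h3 => ?_
    rw [← h3] at h2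
    nlinarith
  · rw [rayb_F_large j b 0 hx]
    refine (chB 0).fill_mem_T (by linarith) (by linarith) fun i hi => ?_
    rcases rayb_fin i j with rfl | rfl | rfl
    · have := rayP_own i b l0 hx (ang x)
      rw [hi, sub_self, norm_zero] at this
      linarith
    · have a1 := rayP_next j b l0 s0 (rayb_abs_ang x) hi
      exact h1 (rayb_center a1.1 a1.2)
    · exact rayP_prev j b s0 (rayb_abs_ang x) hi

lemma rayc_small (j : Fin 3) (b : Bool) :
    MapsTo (rayF j b 0) (Metric.closedBall 0 ((chB 0).eps / 2 / rayR)) ((chB 0).Cap (some j)) ∧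
      LoopCls ((chB 0).pW (some j)) (OW (chB 0).eps) (⟨(0, if b then 1 else 0), 1⟩ : SD (ℤ × ℤ))
        fun t => rayF j b 0 (0 + ((chB 0).eps / 2 / rayR : ℝ) * ee t) := by
  have e0 := (chB 0).eps_pos
  have R0 := rayb_R_pos
  refine ⟨fun x hx => ?_, rayc_loop _ b (s := (chB 0).eps / 2) (by linarith) (by linarith) (ts j)
    fun t => ?_⟩
  · rw [mem_closedBall_zero_iff, le_div_iff₀ R0] at hx
    have hx' : rayR * ‖x‖ < (chB 0).eps := by linarith
    rw [rayb_F_small j b 0 hx']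
    exact mem_image_of_mem _ (raybS_Nr j b 0 hx')
  · rw [zero_add, rayF_small j b (by linarith) (by linarith)]
    simp [rayN]

lemma rayc_inf (j : Fin 3) (b : Bool) : MapsTo (rayG j b 0) D1 ((chB 0).Cap none) ∧
    LoopCls ((chB 0).pW none) (OW (chB 0).eps) (⟨(0, if b then 1 else 0), 1⟩ : SD (ℤ × ℤ))
      fun t => rayG j b 0 (ee t) := by
  have e0 := (chB 0).eps_pos
  have R0 := rayb_R_pos
  have Re := rayb_R_eps
  refine ⟨fun x hx => ?_, rayc_loop _ b (s := rayR⁻¹) (by positivity) ?_ (ts j) fun t => ?_⟩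
  · rw [rayb_G]
    exact mem_image_of_mem _ (raybG_Nr j b 0 R0 (by linarith) (mem_closedBall_zero_iff.1 hx))
  · rw [inv_lt_iff_one_lt_mul₀' R0]
    linarith
  · have hw : ((rayR⁻¹ : ℝ) : ℂ) * ee ((ts j + t) / 2) ≠ 0 :=
      mul_ne_zero (ofReal_ne_zero.2 (by positivity)) (ee_ne_zero _)
    have h1 := lam_eq (false, b) 0 hw
    have h2 : raybG j 0 rayR (ee t) = (0, (((rayR⁻¹ : ℝ) : ℂ) * ee ((ts j + t) / 2)) ^ 2) := by
      refine Prod.ext (by simp [raybG]) ?_
      have h3 : ee ((ts j + t) / 2) ^ 2 = ee (ts j) * ee t := by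
        rw [sq, ← ee_add, ← ee_add, add_halves]
      simp only [raybG]
      rw [mul_pow, h3]
      push_cast
      ring
    rw [rayb_G, h2, h1, zero_mul, add_zero]
    rfl

lemma rayc_cross (j : Fin 3) (b : Bool) {δ : ℝ} (hδ : 0 < δ) : ∃ ρ : ℝ, 0 < ρ ∧ ρ < δ ∧
    MapsTo (rayF j b 0) (Metric.closedBall ((√3 / rayR : ℝ) : ℂ) ρ) ((chB 0).Cap (some (j + 1))) ∧
      ∃ a : ℤ, LoopCls ((chB 0).pW (some (j + 1))) (OW (chB 0).eps) (⟨(a, 0), 0⟩ : SD (ℤ × ℤ))
        fun t => rayF j b 0 (((√3 / rayR : ℝ) : ℂ) + ρ * ee t) := by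
  have e0 := (chB 0).eps_pos
  have R0 := rayb_R_pos
  have r0 : 0 < (chB 0).eps / 2 := by linarith
  set c : ℂ := ((√3 / rayR : ℝ) : ℂ) with hc
  set h : ℂ → ℂ := fun x => ((rayR * ‖x‖ : ℝ) : ℂ) - dd (ang x) with hh
  have h0 : h c = 0 := by
    have p3 : 0 < √3 / rayR := by positivity
    have a0 : ang c = 0 := by
      rw [ang, arg_ofReal_of_nonneg p3.le, zero_div]
    have n0 : rayR * ‖c‖ = √3 := by
      rw [norm_real, Real.norm_eq_abs, abs_of_pos p3]
      field_simp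
    simp only [hh, a0, n0]
    refine Complex.ext ?_ ?_ <;> simp [dd]
  obtain ⟨O, hO, hl, hi⟩ : Lemb h c := lemb_cross
  have h1 : ∀ᶠ x in 𝓝 c, ‖h x‖ < (chB 0).eps := by
    have := (hl.continuousAt hO).norm
    refine this.eventually_lt continuousAt_const ?_
    rwa [h0, norm_zero]
  have h2 := ((rayF_cross j b 0).and h1).and (hl.1.mem_nhds hO)
  obtain ⟨ε, ε0, hε⟩ := Metric.nhds_basis_closedBall.mem_iff.1 h2
  have ρ0 : 0 < min ε (δ / 2) := lt_min ε0 (by linarith)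
  set ρ := min ε (δ / 2) with hρ
  have hs : Metric.closedBall c ρ ⊆ Metric.closedBall c ε :=
    Metric.closedBall_subset_closedBall (min_le_left _ _)
  refine ⟨ρ, ρ0, (min_le_right _ _).trans_lt (by linarith), fun x hx => ?_, ?_⟩
  · obtain ⟨⟨h3, h4⟩, -⟩ := hε (hs hx)
    rw [h3]
    exact mem_image_of_mem _ (Br.cd_mem r0 _ _ h4)
  · have hm : ∀ t, c + ρ * ee t ∈ Metric.closedBall c ρ := fun t => by
      rw [mem_closedBall_iff_norm, add_sub_cancel_left, basic_norm ρ0]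
    have hx : Continuous fun t => h (c + ρ * ee t) := continuous_iff_continuousAt.2 fun t =>
      ContinuousAt.comp (g := h) (hl.continuousAt (hε (hs (hm t))).2) (by fun_prop)
    have hn : ∀ t, h (c + ρ * ee t) ≠ 0 := fun t e => by
      have h3 := hi (hε (hs (hm t))).2 hO (e.trans h0.symm)
      have h4 : (ρ : ℂ) * ee t = 0 := by simpa using h3
      exact mul_ne_zero (ofReal_ne_zero.2 ρ0.ne') (ee_ne_zero t) h4
    obtain ⟨θ, θc, hθ⟩ := exists_ang_lift hx.continuousOn fun t _ => hn t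
    have e1 : h (c + ρ * ee 1) = h (c + ρ * ee 0) := by rw [ee_one, ee_zero]
    obtain ⟨a, ha⟩ : ∃ a : ℤ, θ 1 = θ 0 + a := by
      have h3 := hθ 1 (right_mem_Icc.2 zero_le_one)
      have h4 := hθ 0 (left_mem_Icc.2 zero_le_one)
      rw [e1] at h3
      exact ee_eq_iff.1 (mul_left_cancel₀ (ofReal_ne_zero.2 (norm_ne_zero_iff.2 (hn 0)))
        (h3.trans h4.symm))
    refine ⟨a, fun t => (⟨θ t, 1 / 4 + ((u0 (false, b)).im - 0 / 100 - 1 / 4) *
      min (‖h (c + ρ * ee t)‖ / ((chB 0).eps / 2)) 1⟩, ‖h (c + ρ * ee t)‖ *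
      min (‖h (c + ρ * ee t)‖ / ((chB 0).eps / 2)) 1, ts j), ?_, fun t _ => ?_, ?_,
      fun t ht => ?_⟩
    · have hy := hx.norm
      exact ((continuous_mk θc (continuous_const.add (continuous_const.mul
        ((hy.div_const _).min continuous_const)))).prodMk ((hy.mul
          ((hy.div_const _).min continuous_const)).prodMk continuous_const)).continuousOn
    · have h3 := norm_pos_iff.2 (hn t)
      have h4 := (hε (hs (hm t))).1.2
      refine ⟨mul_pos h3 (lt_min (div_pos h3 r0) one_pos), ?_⟩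
      exact (mul_le_of_le_one_right h3.le (min_le_right _ _)).trans_lt h4
    · rw [actW_def]
      simp only [e1, ha, sgn_zero]
      refine Prod.ext (Complex.ext ?_ ?_) (Prod.ext rfl ?_)
      · simp [add_comm]
      · simp
      · simp
    · have h3 := (hε (hs (hm t))).1.1
      have h4 := cd_pw (z := (u0 (false, b)).im - 0 / 100) r0 (norm_pos_iff.2 (hn t)) (θ t) (ts j)
      rw [hθ t ht] at h4
      exact h3.trans (congrArg ((chB 0).jj (some (j + 1))) h4)

theorem geo_ray (j : Fin 3) (b : Bool) : ∃ a : ℤ, (chB 0).Geo (κ := Bool)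
    (fun i => some (if i then j + 1 else j))
    (fun i => if i then ⟨(a, 0), 0⟩ else ⟨(0, if b then 1 else 0), 1⟩)
    ⟨(0, if b then 1 else 0), 1⟩ := by
  have e0 := (chB 0).eps_pos
  have e1 := (chB 0).eps_le
  have R0 := rayb_R_pos
  have R1 := rayR_ge
  have s1 : 1 ≤ √3 := Real.one_le_sqrt.2 (by norm_num)
  have s2 : √3 ≤ 2 := Real.sqrt_le_iff.2 (by norm_num)
  have nc : ‖((√3 / rayR : ℝ) : ℂ)‖ = √3 / rayR := by
    rw [norm_real, Real.norm_eq_abs, abs_of_pos (by positivity)]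
  obtain ⟨ρ, ρ0, ρ1, h1, a, h2⟩ := rayc_cross j b (δ := 1 / 2 / rayR) (by positivity)
  have d1 : (chB 0).eps / 2 / rayR + 1 / 2 / rayR < √3 / rayR := by
    rw [← add_div]
    exact div_lt_div_of_pos_right (by linarith) R0
  have d2 : √3 / rayR + 1 / 2 / rayR < 1 := by
    rw [← add_div, div_lt_one R0]
    linarith
  have d3 : 0 < 1 / 2 / rayR := by positivity
  refine ⟨a, rayF j b 0, rayG j b 0, ⟨rayF j b, rayG j b, ray_fam j b, rfl, rfl, 1, 0, 0, 1,
    ray_ff j b, ray_fg j b, ray_gf j b, ray_gg j b, by decide⟩,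
    fun i => if i then ((√3 / rayR : ℝ) : ℂ) else 0,
    fun i => if i then ρ else (chB 0).eps / 2 / rayR, fun i => ?_, fun i i' hi => ?_,
    fun x _ hx => rayc_T j b (hx false) (hx true), fun i => ?_, rayc_inf j b⟩
  · cases i
    · refine ⟨by positivity, ?_⟩
      simp only [Bool.false_eq_true, if_false, norm_zero]
      linarith
    · refine ⟨ρ0, ?_⟩
      simp only [if_true, nc]
      linarith
  · cases i <;> cases i'
    · exact absurd rfl hi
    · simp only [Bool.false_eq_true, if_false, if_true, zero_sub, norm_neg, nc]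
      linarith
    · simp only [Bool.false_eq_true, if_false, if_true, sub_zero, nc]
      linarith
    · exact absurd rfl hi
  · cases i
    · exact rayc_small j b
    · exact ⟨h1, h2⟩

end Pool.Agent.Lib.MP_45bb13_gt
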