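import Pool.Agent.Lib.MP_45bb13_gt.XEq
import Pool.Agent.Lib.MP_45bb13_gt.HDefs

/-! The ray spheres: basic facts. -/

set_option linter.unusedSectionVars false
set_option linter.unusedVariables false

namespace Pool.Agent.Lib.MP_45bb13_gt

open Set Filter Topology Complex
open scoped ComplexConjugate

variable (j : Fin 3) (b : Bool) {l s φ : ℝ}

/-- The cut-off factor of the ray surface. -/
noncomputable def rayn_k (s : ℝ) : ℝ := max 0 (min 1 ((6 - s) / 2))

lemma rayn_k_nonneg (s : ℝ) : 0 ≤ rayn_k s := le_max_left _ _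

lemma rayn_k_le (s : ℝ) : rayn_k s ≤ 1 := max_le zero_le_one (min_le_left _ _)

lemma rayn_k_one (h : s ≤ 4) : rayn_k s = 1 := by
  unfold rayn_k
  rw [min_eq_left (by linarith), max_eq_right zero_le_one]

lemma rayn_k_zero (h : 6 ≤ s) : rayn_k s = 0 := by
  unfold rayn_k
  rw [min_eq_right (by linarith), max_eq_left (by linarith)]

lemma rayn_k_lip (s s' : ℝ) : |rayn_k s - rayn_k s'| ≤ |s - s'| / 2 := by
  have h1 := abs_max_sub_max_le_max (0 : ℝ) (min 1 ((6 - s) / 2)) 0 (min 1 ((6 - s') / 2))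
  have h2 := abs_min_sub_min_le_max (1 : ℝ) ((6 - s) / 2) 1 ((6 - s') / 2)
  have h3 : |(6 - s) / 2 - (6 - s') / 2| = |s - s'| / 2 := by
    rw [show (6 - s) / 2 - (6 - s') / 2 = -((s - s') / 2) by ring, abs_neg, abs_div, abs_two]
  have h4 : ∀ x : ℝ, max 0 |x| = |x| := fun x => max_eq_right (abs_nonneg x)
  rw [sub_self, abs_zero, h4] at h1 h2
  unfold rayn_k
  linarith

lemma rayn_fst (l s φ : ℝ) : (rayP j b l s φ).1 =
    (rayn_k s : ℝ) * (chB 0).b j (ts j + frz s φ) + s * ee (rayN l s φ).re +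
      (dd (frz s φ) - dd φ) := rfl

lemma rayn_im (l s φ : ℝ) : (rayP j b l s φ).2.im = ts j + frz s φ := rfl

lemma rayn_re (l s φ : ℝ) : (rayP j b l s φ).2.re = (u0 (false, b)).im + (rayN l s φ).im := rfl

lemma rayn_b (i : Fin 3) (t : ℝ) : ‖(chB 0).b i t‖ < 3 / 2 := norm_fig _

lemma rayn_sqrt_lo : (1.73 : ℝ) < √3 := Real.lt_sqrt_of_sq_lt (by norm_num)

lemma rayn_sqrt_hi : √3 < (1.74 : ℝ) := (Real.sqrt_lt' (by norm_num)).2 (by norm_num)

lemma rayn_succ (f : ℝ) : (chB 0).b (j + 1) (ts j + f) = (chB 0).b j (ts j + f) + dd f := by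
  rw [chB_succ]
  congr 2
  unfold ts
  ring

lemma rayn_pred (f : ℝ) :
    (chB 0).b (j + 2) (ts j + f) = (chB 0).b j (ts j + f) - dd (f - 2 / 3) := by
  rw [chB_pred]
  congr 2
  unfold ts
  ring

lemma rayn_norm_dd (φ : ℝ) : ‖dd φ‖ < 5 / 2 := by
  have h3 : √3 ^ 2 = (3 : ℝ) := Real.sq_sqrt (by norm_num)
  have h1 := Real.cos_sq_le_one (2 * Real.pi * φ)
  have h2 := Real.sin_sq_le_one (Real.pi * φ)
  refine lt_of_pow_lt_pow_left₀ 2 (by norm_num) ?_
  rw [← normSq_eq_norm_sq, normSq_apply]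
  simp only [dd]
  nlinarith

lemma rayn_norm_mul (hs : 0 ≤ s) (c : ℝ) : ‖(s : ℂ) * ee c‖ = s := by
  rw [norm_mul, norm_ee, mul_one, norm_real, Real.norm_of_nonneg hs]

lemma rayR_ge : 12 ≤ rayR := by
  have h1 := (chB 0).eps_pos
  have h2 := (chB 0).eps_le
  unfold rayR
  rw [le_div_iff₀ h1]
  linarith

lemma continuous_frz : Continuous fun q : ℝ × ℝ => frz q.1 q.2 := by
  unfold frz
  fun_prop

lemma frz_eq (h : 1 / 500 ≤ |s - √3| + |φ|) : frz s φ = φ := by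
  unfold frz
  rw [min_eq_right (by linarith), max_eq_left (by linarith), sub_zero, mul_one]

lemma abs_frz_sub (s φ : ℝ) : |frz s φ - φ| ≤ 1 / 500 := by
  rcases le_total (1 / 500) (|s - √3| + |φ|) with h | h
  · rw [frz_eq h, sub_self, abs_zero]
    norm_num
  · have h0 : (0 : ℝ) ≤ max 0 (min 1 (2 - 1000 * (|s - √3| + |φ|))) := le_max_left _ _
    have h1 : max 0 (min 1 (2 - 1000 * (|s - √3| + |φ|))) ≤ (1 : ℝ) :=
      max_le zero_le_one (min_le_left _ _)
    have h2 := abs_nonneg (s - √3)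
    have h3 := abs_nonneg φ
    unfold frz
    rw [show ∀ m : ℝ, φ * (1 - m) - φ = -(φ * m) from fun m => by ring, abs_neg, abs_mul,
      abs_of_nonneg h0]
    nlinarith

lemma frz_zero (h : |s - √3| + |φ| ≤ 1 / 1000) : frz s φ = 0 := by
  unfold frz
  rw [min_eq_left (by linarith), max_eq_right zero_le_one, sub_self, mul_zero]

lemma frz_sign (s φ : ℝ) : ∃ a ∈ Icc (0 : ℝ) 1, frz s φ = a * φ :=
  ⟨1 - max 0 (min 1 (2 - 1000 * (|s - √3| + |φ|))),
    ⟨sub_nonneg.2 (max_le zero_le_one (min_le_left _ _)), sub_le_self _ (le_max_left _ _)⟩,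
    mul_comm _ _⟩

lemma rayN_re (l s φ : ℝ) : (rayN l s φ).re = l / 100 * min s 1 * Real.sin (Real.pi * frz s φ) := by
  unfold rayN
  rw [mul_re, ee_re, ee_im, show 2 * Real.pi * (frz s φ / 2) = Real.pi * frz s φ by ring]
  simp only [mul_re, mul_im, neg_re, neg_im, I_re, I_im, ofReal_re, ofReal_im]
  ring

lemma rayN_im (l s φ : ℝ) :
    (rayN l s φ).im = -(l / 100 * min s 1 * Real.cos (Real.pi * frz s φ)) := by
  unfold rayN
  rw [mul_im, ee_re, ee_im, show 2 * Real.pi * (frz s φ / 2) = Real.pi * frz s φ by ring]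
  simp only [mul_re, mul_im, neg_re, neg_im, I_re, I_im, ofReal_re, ofReal_im]
  ring

lemma continuous_rayP : Continuous fun q : ℝ × ℝ × ℝ => rayP j b q.1 q.2.1 q.2.2 := by
  have hf : Continuous fun q : ℝ × ℝ × ℝ => frz q.2.1 q.2.2 := continuous_frz.comp continuous_snd
  have hN : Continuous fun q : ℝ × ℝ × ℝ => rayN q.1 q.2.1 q.2.2 := by
    unfold rayN
    refine Continuous.mul (by fun_prop) (continuous_ee.comp (hf.div_const 2))
  have hb : Continuous fun q : ℝ × ℝ × ℝ => (chB 0).b j (ts j + frz q.2.1 q.2.2) :=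
    ((chB 0).cont j).comp (continuous_const.add hf)
  have he : Continuous fun q : ℝ × ℝ × ℝ => ee (rayN q.1 q.2.1 q.2.2).re :=
    continuous_ee.comp (continuous_re.comp hN)
  have hd : Continuous fun q : ℝ × ℝ × ℝ => dd (frz q.2.1 q.2.2) - dd q.2.2 :=
    (continuous_dd.comp hf).sub (continuous_dd.comp (by fun_prop))
  unfold rayP
  refine Continuous.prodMk ?_ (continuous_mk (continuous_const.add (continuous_im.comp hN))
    (continuous_const.add hf))
  exact (((by fun_prop : Continuous fun q : ℝ × ℝ × ℝ =>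
    ((max 0 (min 1 ((6 - q.2.1) / 2)) : ℝ) : ℂ)).mul hb).add
      ((by fun_prop : Continuous fun q : ℝ × ℝ × ℝ => ((q.2.1 : ℝ) : ℂ)).mul he)).add hd

lemma rayn_coef (hl : l ∈ Icc (0 : ℝ) 1) (hs : 0 ≤ s) :
    0 ≤ l / 100 * min s 1 ∧ l / 100 * min s 1 ≤ 1 / 100 := by
  have h0 : 0 ≤ min s 1 := le_min hs zero_le_one
  have h1 : min s 1 ≤ 1 := min_le_right _ _
  obtain ⟨h2, h3⟩ := hl
  constructor
  · positivity
  · nlinarith

lemma rayn_abs (hl : l ∈ Icc (0 : ℝ) 1) (hs : 0 ≤ s) {x : ℝ} (hx : |x| ≤ 1) :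
    |l / 100 * min s 1 * x| ≤ 1 / 100 := by
  obtain ⟨h0, h1⟩ := rayn_coef hl hs
  rw [abs_mul, abs_of_nonneg h0]
  nlinarith [abs_nonneg x]

lemma rayn_abs_re (hl : l ∈ Icc (0 : ℝ) 1) (hs : 0 ≤ s) (φ : ℝ) : |(rayN l s φ).re| ≤ 1 / 100 := by
  rw [rayN_re]
  exact rayn_abs hl hs (Real.abs_sin_le_one _)

lemma rayn_cos (hl : l ∈ Icc (0 : ℝ) 1) (hs : 0 ≤ s) (φ : ℝ) :
    0 ≤ ((s : ℂ) * ee (rayN l s φ).re).re := by
  have h := abs_le.1 (rayn_abs_re hl hs φ)
  have hp := Real.pi_pos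
  rw [re_ofReal_mul, ee_re]
  refine mul_nonneg hs (Real.cos_nonneg_of_neg_pi_div_two_le_of_le ?_ ?_) <;> nlinarith

lemma rayn_err (s φ : ℝ) : ‖dd (frz s φ) - dd φ‖ ≤ 1 / 25 := by
  have h1 := norm_dd_sub (frz s φ) φ
  have h2 := abs_frz_sub s φ
  linarith

lemma rayn_frz_big (h : 2 ≤ s) (φ : ℝ) : frz s φ = φ := by
  refine frz_eq ?_
  have h1 := rayn_sqrt_hi
  have h2 := le_abs_self (s - √3)
  have h3 := abs_nonneg φ
  linarith

lemma rayP_re_ne (hl : l ∈ Icc (0 : ℝ) 1) (hs : 0 ≤ s) (φ : ℝ) :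
    |(rayP j b l s φ).2.re - (u0 (false, b)).im| ≤ 1 / 100 := by
  rw [rayn_re, add_sub_cancel_left, rayN_im, abs_neg]
  exact rayn_abs hl hs (Real.abs_cos_le_one _)

/-- Periodicity away from the frozen zone. -/
lemma rayP_per (h : 1 / 500 ≤ |φ|) (h' : 1 / 500 ≤ |φ + 1|) :
    rayP j b l s (φ + 1) = (⟨if b then 1 else 0, 1⟩ : SD ℤ) • rayP j b l s φ := by
  have e1 : frz s φ = φ := frz_eq (by linarith [abs_nonneg (s - √3)])
  have e2 : frz s (φ + 1) = φ + 1 := frz_eq (by linarith [abs_nonneg (s - √3)])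
  have r1 : (rayN l s (φ + 1)).re = -(rayN l s φ).re := by
    rw [rayN_re, rayN_re, e1, e2, mul_add, mul_one, Real.sin_add_pi]
    ring
  have r2 : (rayN l s (φ + 1)).im = -(rayN l s φ).im := by
    rw [rayN_im, rayN_im, e1, e2, mul_add, mul_one, Real.cos_add_pi]
    ring
  rw [actT_def]
  refine Prod.ext ?_ (Complex.ext ?_ ?_)
  · show (rayP j b l s (φ + 1)).1 = cj 1 (rayP j b l s φ).1
    rw [rayn_fst, rayn_fst, cj_one, e1, e2, r1, ee_neg, ← add_assoc (ts j), (chB 0).eqv]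
    simp
  · show (rayP j b l s (φ + 1)).2.re =
      ((if b then 1 else 0 : ℤ) : ℝ) + (sgn 1 : ℤ) * (rayP j b l s φ).2.re
    rw [rayn_re, rayn_re, r2, sgn_one]
    cases b <;> simp [u0]
    ring
  · show (rayP j b l s (φ + 1)).2.im = (rayP j b l s φ).2.im + ((1 : ℤ) : ℝ)
    rw [rayn_im, rayn_im, e1, e2]
    push_cast
    ring

/-- A lower bound far out. -/
lemma rayn_out (hs : 4 ≤ s) (l φ c : ℝ) (hc : |c| ≤ 1) (t : ℝ) :
    s - 3 / 2 ≤ ‖(c : ℂ) * (chB 0).b j t + s * ee (rayN l s φ).re‖ := by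
  have h1 : ‖(c : ℂ) * (chB 0).b j t‖ ≤ 3 / 2 := by
    rw [norm_mul, norm_real, Real.norm_eq_abs]
    nlinarith [rayn_b j t, norm_nonneg ((chB 0).b j t), abs_nonneg c]
  have h2 := rayn_norm_mul (s := s) (by linarith) (rayN l s φ).re
  have h3 := norm_sub_le ((c : ℂ) * (chB 0).b j t + s * ee (rayN l s φ).re)
    ((c : ℂ) * (chB 0).b j t)
  rw [add_sub_cancel_left, h2] at h3
  linarith

lemma rayn_k_abs (s : ℝ) : |rayn_k s| ≤ 1 :=
  abs_le.2 ⟨by linarith [rayn_k_nonneg s], rayn_k_le s⟩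

lemma rayn_k_abs' (s : ℝ) : |rayn_k s - 1| ≤ 1 :=
  abs_le.2 ⟨by linarith [rayn_k_nonneg s], by linarith [rayn_k_le s]⟩

lemma rayn_fin (i : Fin 3) : i = j ∨ i = j + 1 ∨ i = j + 2 := by
  revert i j
  decide

lemma rayn_half (h : |φ ^ 2 - 1 / 4| ≤ 1 / 1000) :
    ∃ c : ℝ, (c = 1 / 2 ∨ c = -(1 / 2)) ∧ |φ - c| ≤ 1 / 500 := by
  obtain ⟨h1, h2⟩ := abs_le.1 h
  rcases le_total 0 φ with h0 | h0
  · refine ⟨1 / 2, .inl rfl, abs_le.2 ⟨?_, ?_⟩⟩ <;> nlinarith
  · refine ⟨-(1 / 2), .inr rfl, abs_le.2 ⟨?_, ?_⟩⟩ <;> nlinarith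

lemma rayn_dd_half {c : ℝ} (hc : c = 1 / 2 ∨ c = -(1 / 2)) :
    (dd c).re = -√3 ∧ (dd (c - 2 / 3)).re = √3 / 2 := by
  simp only [dd]
  rcases hc with rfl | rfl
  · rw [show 2 * Real.pi * (1 / 2) = Real.pi by ring, Real.cos_pi,
      show 2 * Real.pi * (1 / 2 - 2 / 3) = -(Real.pi / 3) by ring, Real.cos_neg,
      Real.cos_pi_div_three]
    constructor <;> ring
  · rw [show 2 * Real.pi * -(1 / 2) = -Real.pi by ring, Real.cos_neg, Real.cos_pi,
      show 2 * Real.pi * (-(1 / 2) - 2 / 3) = -(Real.pi / 3 + 2 * Real.pi) by ring, Real.cos_neg,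
      Real.cos_add_two_pi, Real.cos_pi_div_three]
    constructor <;> ring

lemma rayn_dd_re (x y : ℝ) (h : |x - y| ≤ 1 / 500) : |(dd x).re - (dd y).re| ≤ 1 / 25 := by
  have h1 := norm_dd_sub x y
  have h2 := abs_re_le_norm (dd x - dd y)
  rw [sub_re] at h2
  linarith

/-- Near the cut the surface stays away from the strands. -/
lemma rayP_cut (hl : l ∈ Icc (0 : ℝ) 1) (hs : (chB 0).eps / 2 ≤ s) (h : |φ ^ 2 - 1 / 4| ≤ 1 / 1000)
    (i : Fin 3) : (chB 0).eps / 2 ≤ ‖(rayP j b l s φ).1 - (chB 0).b i (rayP j b l s φ).2.im‖ := by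
  have he0 := (chB 0).eps_pos
  have he1 := (chB 0).eps_le
  have hs0 : 0 ≤ s := by linarith
  obtain ⟨c, hc, hφ⟩ := rayn_half h
  have e1 : frz s φ = φ := by
    refine frz_eq ?_
    have h1 := abs_nonneg (s - √3)
    obtain ⟨h2, h3⟩ := abs_le.1 hφ
    rcases hc with rfl | rfl
    · linarith [le_abs_self φ]
    · linarith [neg_le_abs φ]
  rw [rayn_fst, rayn_im, e1, sub_self, add_zero]
  rcases le_total s 4 with h4 | h4
  · rw [rayn_k_one h4, ofReal_one, one_mul]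
    obtain ⟨d1, d2⟩ := rayn_dd_half hc
    have hr := rayn_cos hl hs0 φ
    have h3 := rayn_sqrt_lo
    rcases rayn_fin j i with rfl | rfl | rfl
    · rw [add_sub_cancel_left, rayn_norm_mul hs0]
      exact hs
    · rw [rayn_succ, add_sub_add_left_eq_sub]
      refine le_trans ?_ (re_le_norm _)
      have := abs_le.1 (rayn_dd_re φ c hφ)
      rw [sub_re]
      linarith [this.2]
    · rw [rayn_pred, show ∀ x y z : ℂ, x + y - (x - z) = y + z from fun x y z => by ring]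
      refine le_trans ?_ (re_le_norm _)
      have := abs_le.1 (rayn_dd_re (φ - 2 / 3) (c - 2 / 3) (by rwa [sub_sub_sub_cancel_right]))
      rw [add_re]
      linarith [this.1]
  · have h1 := rayn_out j h4 l φ _ (rayn_k_abs s) (ts j + φ)
    have h2 := rayn_b i (ts j + φ)
    have h3 := norm_sub_norm_le ((rayn_k s : ℂ) * (chB 0).b j (ts j + φ) + s * ee (rayN l s φ).re)
      ((chB 0).b i (ts j + φ))
    linarith

lemma rayP_own (hl : l ∈ Icc (0 : ℝ) 1) (hs : (chB 0).eps ≤ s) (φ : ℝ) :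
    (chB 0).eps ≤ ‖(rayP j b l s φ).1 - (chB 0).b j (rayP j b l s φ).2.im‖ := by
  have he0 := (chB 0).eps_pos
  have he1 := (chB 0).eps_le
  have hs0 : 0 ≤ s := by linarith
  rw [rayn_fst, rayn_im]
  rcases le_total s 4 with h4 | h4
  · rw [rayn_k_one h4, ofReal_one, one_mul, add_assoc, add_sub_cancel_left]
    rcases le_total (1 / 500) (|s - √3| + |φ|) with h | h
    · rw [frz_eq h, sub_self, add_zero, rayn_norm_mul hs0]
      exact hs
    · have h1 := rayn_err s φ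
      have h2 := norm_sub_le ((s : ℂ) * ee (rayN l s φ).re + (dd (frz s φ) - dd φ))
        (dd (frz s φ) - dd φ)
      rw [add_sub_cancel_right, rayn_norm_mul hs0] at h2
      have h3 := rayn_sqrt_lo
      have h5 := neg_le_abs (s - √3)
      have h6 := abs_nonneg φ
      linarith
  · rw [rayn_frz_big (by linarith), sub_self, add_zero]
    have h1 := rayn_out j h4 l φ _ (rayn_k_abs' s) (ts j + φ)
    rw [show ∀ (k x y : ℂ), k * x + y - x = (k - 1) * x + y from fun k x y => by ring]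
    push_cast at h1
    linarith

lemma rayn_sin_nonneg (hl : l ∈ Icc (0 : ℝ) 1) (hs : 0 ≤ s) (h0 : 0 ≤ φ) (h1 : φ ≤ 1 / 2) :
    0 ≤ (rayN l s φ).re := by
  obtain ⟨a, ⟨ha0, ha1⟩, ha⟩ := frz_sign s φ
  have hp := Real.pi_pos
  have h2 : 0 ≤ a * φ := mul_nonneg ha0 h0
  have h3 : a * φ ≤ 1 / 2 := by nlinarith
  rw [rayN_re, ha]
  refine mul_nonneg (rayn_coef hl hs).1 (Real.sin_nonneg_of_nonneg_of_le_pi ?_ ?_) <;> nlinarith

lemma rayn_sin_nonpos (hl : l ∈ Icc (0 : ℝ) 1) (hs : 0 ≤ s) (h0 : φ ≤ 0) (h1 : -(1 / 2) ≤ φ) :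
    (rayN l s φ).re ≤ 0 := by
  obtain ⟨a, ⟨ha0, ha1⟩, ha⟩ := frz_sign s φ
  have hp := Real.pi_pos
  have h2 : a * φ ≤ 0 := mul_nonpos_of_nonneg_of_nonpos ha0 h0
  have h3 : -(1 / 2) ≤ a * φ := by nlinarith
  rw [rayN_re, ha]
  refine mul_nonpos_of_nonneg_of_nonpos (rayn_coef hl hs).1
    (Real.sin_nonpos_of_nonpos_of_neg_pi_le ?_ ?_) <;> nlinarith

lemma rayP_next (hl : l ∈ Icc (0 : ℝ) 1) (hs : 0 < s) (hφ : |φ| ≤ 1 / 2)
    (h : (rayP j b l s φ).1 = (chB 0).b (j + 1) (rayP j b l s φ).2.im) : s = √3 ∧ φ = 0 := by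
  rw [rayn_fst, rayn_im, rayn_succ] at h
  have h' : ((rayn_k s - 1 : ℝ) : ℂ) * (chB 0).b j (ts j + frz s φ) + s * ee (rayN l s φ).re =
      dd φ := by
    push_cast
    linear_combination h
  rcases le_total s 4 with h4 | h4
  · rw [rayn_k_one h4, sub_self, ofReal_zero, zero_mul, zero_add] at h'
    have hre := congrArg Complex.re h'
    have him := congrArg Complex.im h'
    rw [re_ofReal_mul, ee_re] at hre
    rw [im_ofReal_mul, ee_im] at him
    simp only [dd] at hre him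
    obtain ⟨p1, p2⟩ := abs_le.1 hφ
    obtain ⟨n1, n2⟩ := abs_le.1 (rayn_abs_re hl hs.le φ)
    have hp := Real.pi_pos
    have h3 := rayn_sqrt_lo
    have e0 : φ = 0 := by
      rcases lt_trichotomy φ 0 with h0 | h0 | h0
      · have a1 := rayn_sin_nonpos hl hs.le h0.le p1
        have a2 : Real.sin (2 * Real.pi * (rayN l s φ).re) ≤ 0 :=
          Real.sin_nonpos_of_nonpos_of_neg_pi_le (by nlinarith) (by nlinarith)
        have a3 : Real.sin (Real.pi * φ) < 0 :=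
          Real.sin_neg_of_neg_of_neg_pi_lt (by nlinarith) (by nlinarith)
        nlinarith
      · exact h0
      · have a1 := rayn_sin_nonneg hl hs.le h0.le p2
        have a2 : 0 ≤ Real.sin (2 * Real.pi * (rayN l s φ).re) :=
          Real.sin_nonneg_of_nonneg_of_le_pi (by nlinarith) (by nlinarith)
        have a3 : 0 < Real.sin (Real.pi * φ) :=
          Real.sin_pos_of_pos_of_lt_pi (by nlinarith) (by nlinarith)
        nlinarith
    subst e0
    refine ⟨?_, rfl⟩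
    have e1 : (rayN l s 0).re = 0 :=
      le_antisymm (rayn_sin_nonpos hl hs.le le_rfl p1) (rayn_sin_nonneg hl hs.le le_rfl p2)
    rw [e1] at hre
    simpa using hre
  · have h1 := rayn_out j h4 l φ _ (rayn_k_abs' s) (ts j + frz s φ)
    rw [h'] at h1
    linarith [rayn_norm_dd φ]

lemma rayn_zero (s φ : ℝ) : rayN 0 s φ = 0 := by simp [rayN]

lemma rayP_prev (hs : 0 < s) (hφ : |φ| ≤ 1 / 2) :
    (rayP j b 0 s φ).1 ≠ (chB 0).b (j + 2) (rayP j b 0 s φ).2.im := by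
  intro h
  rw [rayn_fst, rayn_im, rayn_pred] at h
  rcases le_total s 4 with h4 | h4
  · rw [rayn_k_one h4, rayn_zero, zero_re, ee_zero] at h
    have h' : (s : ℂ) + (dd (frz s φ) - dd φ) + dd (frz s φ - 2 / 3) = 0 := by
      push_cast at h
      linear_combination h
    have h1 := rayn_err s φ
    generalize dd (frz s φ) - dd φ = e at h' h1
    generalize frz s φ - 2 / 3 = ψ at h'
    have hre := congrArg Complex.re h'
    have him := congrArg Complex.im h'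
    simp only [dd, add_re, add_im, ofReal_re, ofReal_im, zero_re, zero_im] at hre him
    obtain ⟨a1, a2⟩ := abs_le.1 ((abs_re_le_norm e).trans h1)
    obtain ⟨a3, a4⟩ := abs_le.1 ((abs_im_le_norm e).trans h1)
    rw [mul_assoc, Real.cos_two_mul, Real.cos_sq'] at hre
    have h3 := rayn_sqrt_lo
    generalize Real.sin (Real.pi * ψ) = x at hre him
    have x1 : x ≤ 1 / 25 := by nlinarith
    have x2 : -(1 / 25) ≤ x := by nlinarith
    have x3 : x ^ 2 ≤ 1 / 625 := by nlinarith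
    nlinarith
  · have h' : ((rayn_k s - 1 : ℝ) : ℂ) * (chB 0).b j (ts j + frz s φ) + s * ee (rayN 0 s φ).re =
        -dd (φ - 2 / 3) := by
      rw [rayn_frz_big (by linarith)] at h ⊢
      push_cast
      linear_combination h
    have h1 := rayn_out j h4 0 φ _ (rayn_k_abs' s) (ts j + frz s φ)
    rw [h', norm_neg] at h1
    linarith [rayn_norm_dd (φ - 2 / 3)]

lemma rayP_size (hs : 0 ≤ s) (φ : ℝ) : ‖(rayP j b l s φ).1‖ ≤ s + 2 := by
  rw [rayn_fst]
  have h1 : ‖(rayn_k s : ℂ) * (chB 0).b j (ts j + frz s φ)‖ ≤ 3 / 2 := by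
    rw [norm_mul, norm_real, Real.norm_eq_abs]
    nlinarith [rayn_b j (ts j + frz s φ), norm_nonneg ((chB 0).b j (ts j + frz s φ)),
      abs_nonneg (rayn_k s), rayn_k_abs s]
  have h2 := rayn_norm_mul hs (rayN l s φ).re
  have h3 := rayn_err s φ
  refine norm_add₃_le.trans ?_
  linarith

lemma rayP_far (hs : 6 ≤ s) (φ : ℝ) : rayP j b l s φ =
    (s * ee (l / 100 * Real.sin (Real.pi * φ)),
      ⟨(u0 (false, b)).im - l / 100 * Real.cos (Real.pi * φ), ts j + φ⟩) := by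
  have e1 : frz s φ = φ := rayn_frz_big (by linarith) φ
  have e2 : min s 1 = 1 := min_eq_right (by linarith)
  refine Prod.ext ?_ (Complex.ext ?_ ?_)
  · rw [rayn_fst, rayn_k_zero hs, rayN_re, e1, e2]
    simp
  · rw [rayn_re, rayN_im, e1, e2]
    ring
  · rw [rayn_im, e1]

lemma rayn_frz_half (hφ : |φ| ≤ 1 / 2) (h : |frz s φ| = 1 / 2) : frz s φ = φ := by
  refine frz_eq ?_
  have h1 := abs_frz_sub s φ
  have h2 := abs_sub_abs_le_abs_sub (frz s φ) φ
  have h3 := abs_nonneg (s - √3)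
  linarith

/-- The surface and its push-off do not meet in the cover. -/
lemma rayP_ne {s' φ' : ℝ} (hs : 0 < s) (hs' : 0 < s') (hφ : |φ| ≤ 1 / 2) (hφ' : |φ'| ≤ 1 / 2) :
    rayP j b 0 s φ ≠ rayP j b 1 s' φ' := by
  intro h
  have h1 : (rayP j b 0 s φ).1 = (rayP j b 1 s' φ').1 := congrArg Prod.fst h
  have h2 : (rayP j b 0 s φ).2.re = (rayP j b 1 s' φ').2.re := by rw [h]
  have h3 : (rayP j b 0 s φ).2.im = (rayP j b 1 s' φ').2.im := by rw [h]
  rw [rayn_im, rayn_im, add_right_inj] at h3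
  rw [rayn_re, rayn_re, add_right_inj, rayn_zero, zero_im, rayN_im] at h2
  have hm : 0 < min s' 1 := lt_min hs' one_pos
  have hp := Real.pi_pos
  have hc : Real.cos (Real.pi * frz s' φ') = 0 := by
    have : 1 / 100 * min s' 1 * Real.cos (Real.pi * frz s' φ') = 0 := by linarith
    exact (mul_eq_zero.1 this).resolve_left (by positivity)
  have hf : |frz s' φ'| = 1 / 2 := by
    obtain ⟨a, ⟨ha0, ha1⟩, ha⟩ := frz_sign s' φ'
    have h4 : |frz s' φ'| ≤ 1 / 2 := by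
      rw [ha, abs_mul, abs_of_nonneg ha0]
      nlinarith [abs_nonneg φ']
    refine le_antisymm h4 (not_lt.1 fun h5 => ?_)
    obtain ⟨h6, h7⟩ := abs_lt.1 h5
    exact (Real.cos_pos_of_mem_Ioo ⟨by nlinarith, by nlinarith⟩).ne' hc
  have e' := rayn_frz_half hφ' hf
  have e := rayn_frz_half hφ (h3 ▸ hf)
  have hs2 : Real.sin (Real.pi * frz s' φ') ≠ 0 := fun h0 => by
    have := Real.sin_sq_add_cos_sq (Real.pi * frz s' φ')
    rw [h0, hc] at this
    norm_num at this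
  have hn : (rayN 1 s' φ').re ≠ 0 := by
    rw [rayN_re]
    exact mul_ne_zero (by positivity) hs2
  have hn' := rayn_abs_re (l := 1) ⟨zero_le_one, le_rfl⟩ hs'.le φ'
  rw [rayn_fst, rayn_fst, rayn_zero, zero_re, ee_zero, ← h3, e, show φ' = φ by rw [← e', ← h3, e],
    sub_self, add_zero, add_zero, mul_one] at h1
  rw [show φ' = φ by rw [← e', ← h3, e]] at hn hn'
  generalize (rayN 1 s' φ).re = n at h1 hn hn'
  have h4 : (s : ℂ) - s' * ee n = ((rayn_k s' - rayn_k s : ℝ) : ℂ) * (chB 0).b j (ts j + φ) := by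
    push_cast
    linear_combination h1
  have h5 := abs_norm_sub_norm_le (s : ℂ) (s' * ee n)
  rw [h4, rayn_norm_mul hs'.le, norm_real, Real.norm_of_nonneg hs.le, norm_mul, norm_real,
    Real.norm_eq_abs] at h5
  have h6 := rayn_k_lip s' s
  rw [abs_sub_comm s' s] at h6
  have h7 := rayn_b j (ts j + φ)
  have h8 : |s - s'| ≤ 0 := by
    nlinarith [abs_nonneg (rayn_k s' - rayn_k s), norm_nonneg ((chB 0).b j (ts j + φ)),
      abs_nonneg (s - s')]
  have h9 : s = s' := sub_eq_zero.1 (abs_nonpos_iff.1 h8)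
  subst h9
  rw [sub_self, ofReal_zero, zero_mul] at h4
  have h10 : ee n = ee 0 := by
    rw [ee_zero]
    have h11 : (s : ℂ) ≠ 0 := ofReal_ne_zero.2 hs.ne'
    apply mul_left_cancel₀ h11
    linear_combination -h4
  obtain ⟨m, hm'⟩ := ee_eq_iff.1 h10
  rw [zero_add] at hm'
  subst hm'
  have h12 : |m| < 1 := by
    have : |(m : ℝ)| < 1 := by linarith
    exact_mod_cast this
  exact hn (by rw [Int.abs_lt_one_iff.1 h12, Int.cast_zero])

end Pool.Agent.Lib.MP_45bb13_gt
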