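import Pool.Agent.Lib.MP_45bb13_gt.XTop

/-! An orientation reversing involution of the complement of the exceptional spheres. -/

set_option linter.unusedSectionVars false

namespace Pool.Agent.Lib.MP_45bb13_gt

open Set Filter Topology Complex
open scoped ComplexConjugate

/-- The reflection in the covering coordinates. -/
noncomputable def refl_rf (p : CC) : CC := (p.1, 1 / 2 - conj p.2)

lemma refl_rf_rf (p : CC) : refl_rf (refl_rf p) = p :=
  Prod.ext rfl (Complex.ext (by simp [refl_rf]) (by simp [refl_rf]))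

lemma refl_cont : Continuous refl_rf := by unfold refl_rf; fun_prop

lemma refl_smul (g : SD ℤ) (p : CC) : ∃ g' : SD ℤ, g' • refl_rf p = refl_rf (g • p) := by
  rcases sgn_eq g.n with h | h
  · refine ⟨⟨-g.a, g.n⟩, Prod.ext rfl (Complex.ext ?_ ?_)⟩ <;> simp [actT_def, refl_rf, h]
    ring
  · refine ⟨⟨1 - g.a, g.n⟩, Prod.ext rfl (Complex.ext ?_ ?_)⟩ <;> simp [actT_def, refl_rf, h]
    ring

lemma refl_contAt_rfN {n : N} (h : ∀ k l, n ≠ .e k l) : ContinuousAt rfN n := by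
  rcases N.cases n with ⟨p, hp, rfl⟩ | ⟨k, l, e⟩ | ⟨v, rfl⟩
  · rw [lo_kap.continuousAt_iff hp]
    refine ContinuousAt.congr (f := kap ∘ fun q : CC => (conj q.1 + I / 2, q.2))
      (ContinuousAt.comp (lo_kap.continuousAt (rfN_domK hp)) (by fun_prop)) ?_
    filter_upwards [isOpen_domK.mem_nhds hp] with q hq using (rfN_kap hq).symm
  · exact absurd e (h k l)
  · have h0 : ∀ s : S2, ((0 : ℂ), s) ∈ domS := fun s => by simp [domS]
    rw [← Sg_zero, lo_Sg.continuousAt_iff (h0 v)]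
    refine ContinuousAt.congr (f := Sg ∘ fun q : ℂ × S2 =>
      (q.1, (⟨(-q.2.1.1, q.2.1.2), by rw [neg_sq]; exact q.2.2⟩ : S2)))
      (ContinuousAt.comp (lo_Sg.continuousAt (h0 _)) (Continuous.continuousAt
        (continuous_fst.prodMk (Continuous.subtype_mk (by fun_prop)
          fun x => by rw [neg_sq]; exact x.2.2)))) ?_
    filter_upwards [isOpen_domS.mem_nhds (h0 v)] with q hq using (rfN_Sg hq).symm

lemma refl_open : IsOpen {n : N | ∀ k l, n ≠ .e k l} := by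
  have : {n : N | ∀ k l, n ≠ .e k l} = kap '' domK ∪ Ms := by
    ext n
    constructor
    · intro h
      rcases N.cases n with ⟨p, hp, rfl⟩ | ⟨k, l, e⟩ | ⟨v, rfl⟩
      exacts [.inl ⟨p, hp, rfl⟩, absurd e (h k l), .inr (s_mem_Ms v)]
    · rintro (⟨p, hp, rfl⟩ | h) k l e
      exacts [kap_ne_e hp k l e, e_not_mem_Ms l (e ▸ h)]
  rw [this]
  exact (lo_kap.isOpen_image isOpen_domK subset_rfl).union isOpen_Ms

namespace Br

variable {ι : Type} [Finite ι] (A : Br ι)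

lemma T_sub_XE : A.T ⊆ A.XE := by
  rintro _ ⟨p, hp, rfl⟩ k k' l h
  exact A.jj_ne_prT (wabs_e k' l) hp h.symm

lemma refl_Nr {n : N} (h : wabs n = 0) : n ∈ Nr A.eps := h.trans_lt A.eps_pos

lemma isOpen_XE : IsOpen A.XE := by
  refine isOpen_iff_forall_mem_open.2 fun x hx => ?_
  rcases A.X_cases x with h | ⟨k, n, hn, rfl⟩
  · exact ⟨A.T, A.T_sub_XE, A.isOpen_T, h⟩
  · refine ⟨A.jj k '' (Nr A.eps ∩ {n : N | ∀ k l, n ≠ .e k l}), ?_,
      (A.lo_jj k).isOpen_image ((isOpen_Nr _).inter refl_open) inter_subset_left,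
      n, ⟨A.refl_Nr hn, fun k' l e => hx k k' l (e ▸ rfl)⟩, rfl⟩
    rintro _ ⟨n', ⟨h1, h2⟩, rfl⟩ k₂ k' l e
    have h3 := A.refl_Nr (wabs_e k' l)
    obtain rfl := A.jj_disj h1 h3 e
    exact h2 k' l (A.jj_injOn k h1 h3 e)

lemma preconn_XE : IsPreconnected A.XE :=
  A.pathConn_T.isConnected.isPreconnected.subset_closure A.T_sub_XE
    (by rw [A.dense_T.closure_eq]; exact subset_univ _)

/-- The involution. -/
noncomputable def refl_map : A.X → A.X
  | .inl q => A.prT (refl_rf q.out.1)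
  | .inr a => A.jj a.1 (rfN a.2.1)

lemma refl_domT {p : CC} (hp : p ∈ A.domT) : refl_rf p ∈ A.domT := fun i => by
  simpa [refl_rf] using hp i

lemma refl_prT {p : CC} (hp : p ∈ A.domT) : A.refl_map (A.prT p) = A.prT (refl_rf p) := by
  have h2 : A.prT p = .inl (Quotient.mk A.tS ⟨p, hp⟩) := dif_pos hp
  obtain ⟨g, hg⟩ : ∃ g : SD ℤ, g • (Quotient.mk A.tS ⟨p, hp⟩).out.1 = p :=
    Quotient.mk_out (s := A.tS) ⟨p, hp⟩
  obtain ⟨g', hg'⟩ := refl_smul g (Quotient.mk A.tS ⟨p, hp⟩).out.1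
  rw [hg] at hg'
  rw [h2, ← hg', prT_smul]
  rfl

lemma refl_jj (k : Option ι) {n : N} (hn : n ∈ Nr A.eps) :
    A.refl_map (A.jj k n) = A.jj k (rfN n) := by
  rcases (wabs_nonneg n).eq_or_lt with h | h
  · have h1 : A.jj k n = .inr (k, ⟨n, h.symm⟩) := dif_pos h.symm
    rw [h1]
    rfl
  · obtain ⟨u, t, e⟩ := exists_pw h
    have hn' : wabs n < A.eps := hn
    generalize wabs n = s at *
    have h0 : (pw (u, s, t)).2 ≠ 0 := mul_ne_zero (ofReal_ne_zero.2 h.ne') (ee_ne_zero _)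
    have h1 : (A.loc k t s u.re, (⟨u.im, t⟩ : ℂ)) ∈ A.domT :=
      A.near_domT (k := k) le_rfl (by rw [Near, A.dst_loc k t h]; exact ⟨h, hn'⟩)
    rw [e, rfN_kap (domK_of_ne h0)]
    change A.refl_map (A.pW k (u, s, t)) = A.pW k (conj u + I / 2, s, t)
    rw [A.pW_eq k _ h, A.pW_eq k _ h, A.refl_prT h1]
    refine congrArg A.prT (Prod.ext (by simp [refl_rf]) (Complex.ext ?_ ?_)) <;> simp [refl_rf]
    ring

lemma refl_refl (x : A.X) : A.refl_map (A.refl_map x) = x := by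
  rcases A.X_cases x with ⟨p, hp, rfl⟩ | ⟨k, n, hn, rfl⟩
  · rw [A.refl_prT hp, A.refl_prT (A.refl_domT hp), refl_rf_rf]
  · rw [A.refl_jj k (A.refl_Nr hn), A.refl_jj k (A.refl_Nr ((wabs_rfN n).trans hn)), rfN_rfN]

lemma refl_maps : MapsTo A.refl_map A.XE A.XE := fun x hx k k' l e => hx k k' l (by
  rw [← A.refl_refl x, e, A.refl_jj k (A.refl_Nr (wabs_e k' l))]
  rfl)

lemma refl_contOn : ContinuousOn A.refl_map A.XE := by
  refine continuousOn_of_forall_continuousAt fun x hx => ?_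
  rcases A.X_cases x with ⟨p, hp, rfl⟩ | ⟨k, n, hn, rfl⟩
  · rw [A.lo_prT.continuousAt_iff hp]
    refine ContinuousAt.congr (f := A.prT ∘ refl_rf)
      (ContinuousAt.comp (A.lo_prT.continuousAt (A.refl_domT hp)) refl_cont.continuousAt) ?_
    filter_upwards [A.isOpen_domT.mem_nhds hp] with q hq using (A.refl_prT hq).symm
  · rw [(A.lo_jj k).continuousAt_iff (A.refl_Nr hn)]
    refine ContinuousAt.congr (f := A.jj k ∘ rfN)
      (ContinuousAt.comp ((A.lo_jj k).continuousAt (A.refl_Nr ((wabs_rfN n).trans hn)))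
        (refl_contAt_rfN fun k' l e => hx k k' l (e ▸ rfl))) ?_
    filter_upwards [(isOpen_Nr _).mem_nhds (A.refl_Nr hn)] with q hq using (A.refl_jj k hq).symm

theorem exists_refl : ∃ σ : A.X → A.X, LO σ A.XE ∧ InjOn σ A.XE ∧ MapsTo σ A.XE A.XE ∧
    ∀ p ∈ A.domT, σ (A.prT p) = A.prT (p.1, 1 / 2 - conj p.2) :=
  ⟨A.refl_map, lo_of_inverse A.isOpen_XE A.isOpen_XE A.refl_contOn A.refl_contOn A.refl_maps
    A.refl_maps (fun x _ => A.refl_refl x) fun x _ => A.refl_refl x,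
    (Function.LeftInverse.injective A.refl_refl).injOn, A.refl_maps, fun _ hp => A.refl_prT hp⟩

end Br

end Pool.Agent.Lib.MP_45bb13_gt
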