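import Pool.Agent.Lib.MP_45bb13_gt.XTop
import Pool.Agent.Lib.MP_45bb13_gt.Cover

/-! Relations in the first homology of the complement of the choreography. -/

set_option linter.unusedSectionVars false

namespace Pool.Agent.Lib.MP_45bb13_gt

open Set Filter Topology Complex Pool.Agent.Shared.Sing Pool.Agent.Shared.SingEZ
open scoped ComplexConjugate

lemma rels_rt_cont {w : ℝ → ℂ} (hw : Continuous w) (h : ∀ t, w t ∈ slitPlane) :
    Continuous fun t => rt (w t) := hw.cpow continuous_const h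

lemma rels_rt_conj {x : ℂ} (h : x ∈ slitPlane) : rt (conj x) = conj (rt x) := by
  unfold rt
  rw [conj_cpow x _ (slitPlane_arg_ne_pi h), map_inv₀, conj_ofNat]

lemma rels_sg0 : sg2 0 = 1 := by simp [sg2]

lemma rels_sg1 : sg2 1 = -1 := by simp [sg2]

lemma rels_dd {φ c : ℝ} (hc : -1 < c) : dd φ + c ∈ slitPlane := by
  by_cases h : Real.sin (Real.pi * φ) = 0
  · left
    have h1 : Real.cos (2 * Real.pi * φ) = 1 := by
      rw [mul_assoc, Real.cos_two_mul, Real.cos_sq', h]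
      norm_num
    have h3 : (1 : ℝ) ≤ √3 := Real.one_le_sqrt.2 (by norm_num)
    simp only [dd, add_re, ofReal_re, h1]
    linarith
  · right
    have h3 : (0 : ℝ) < √3 := Real.sqrt_pos.2 (by norm_num)
    simp only [dd, add_im, ofReal_im, add_zero, ne_eq, neg_eq_zero, mul_eq_zero, h, or_false]
    exact h3.ne'

section general

variable {ι : Type} [Finite ι] (A : Br ι)

lemma rels_half : 0 < A.eps / 2 := half_pos A.eps_pos

lemma rels_dom (k : Option ι) (t c z : ℝ) :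
    ((A.loc k t (A.eps / 2) c, ⟨z, t⟩) : CC) ∈ A.domT :=
  A.near_domT le_rfl (k := k) (by
    unfold Br.Near
    rw [A.dst_loc k t (rels_half A)]
    exact ⟨rels_half A, half_lt_self A.eps_pos⟩)

lemma rels_lpA (k : Option ι) (t : ℝ) :
    A.lpA k t = A.prT (A.loc k 0 (A.eps / 2) t, ⟨0, 0⟩) := by
  rw [Br.lpA, A.pW_eq k _ (rels_half A), ofReal_re, ofReal_im]

lemma rels_lpT (k : Option ι) (b : Bool) (t : ℝ) :
    A.lpT k b t = A.prT (A.loc k t (A.eps / 2) 0, ⟨if b then 1 / 2 else 0, t⟩) := by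
  rw [Br.lpT, A.pW_eq k _ (rels_half A)]
  simp [u0]

lemma rels_locA (k : Option ι) : Continuous fun t => A.loc k 0 (A.eps / 2) t := by
  cases k <;> simp only [Br.loc] <;> fun_prop

lemma rels_locT (k : Option ι) : Continuous fun t => A.loc k t (A.eps / 2) 0 := by
  rcases k with _ | i
  · exact continuous_const
  · exact (A.cont i).add continuous_const

lemma rels_locA_one (k : Option ι) : A.loc k 0 (A.eps / 2) 1 = A.loc k 0 (A.eps / 2) 0 := by
  simpa using A.loc_int k 0 (A.eps / 2) 0 1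

lemma rels_locT_one (k : Option ι) :
    A.loc k 1 (A.eps / 2) 0 = conj (A.loc k 0 (A.eps / 2) 0) := by
  simpa [cj_one] using A.loc_smul k 1 0 (A.eps / 2) 0

lemma rels_b_one (i : ι) : A.b i 1 = conj (A.b i 0) := by simpa using A.eqv i 0

lemma rels_TA (k : Option ι) : LoopCls A.prT A.domT (⟨0, 0⟩ : SD ℤ) (A.lpA k) := by
  refine ⟨fun t => (A.loc k 0 (A.eps / 2) t, ⟨0, 0⟩), ((rels_locA A k).prodMk
    continuous_const).continuousOn, fun t _ => rels_dom A k 0 t 0, ?_, fun t _ => rels_lpA A k t⟩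
  simp [actT_def, cj_zero, rels_locA_one]

lemma rels_TT (k : Option ι) (b : Bool) :
    LoopCls A.prT A.domT (⟨if b then 1 else 0, 1⟩ : SD ℤ) (A.lpT k b) := by
  refine ⟨fun t => (A.loc k t (A.eps / 2) 0, ⟨if b then 1 / 2 else 0, t⟩), ((rels_locT A k).prodMk
    (continuous_mk continuous_const continuous_id)).continuousOn, fun t _ => rels_dom A k t 0 _,
    ?_, fun t _ => rels_lpT A k b t⟩
  cases b <;> simp [actT_def, cj_one, rels_locT_one, sgn_one]
  norm_num

lemma rels_QA (i : ι) (k : Option ι) {f x : ℝ → ℂ} (hf : Continuous f) (hx : Continuous x)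
    (h1 : ∀ t, ‖x t‖ < 1) (h2 : x 1 = x 0) {e : ZMod 2} (h3 : f 1 = sg2 e * f 0)
    (h4 : ∀ t, f t ^ 2 * (1 + x t) + A.b i 0 = A.loc k 0 (A.eps / 2) t) :
    LoopCls (A.prQ i) (A.domQ i) (⟨(0, e), 0⟩ : SD (ℤ × ZMod 2)) (A.lpA k) := by
  have hs : ∀ t, (f t * rt (1 + x t)) ^ 2 + A.b i 0 = A.loc k 0 (A.eps / 2) t := fun t => by
    rw [mul_pow, rt_sq, h4]
  refine ⟨fun t => (f t * rt (1 + x t), ⟨0, 0⟩), ((hf.mul (rels_rt_cont (continuous_const.add hx)
    fun t => mem_slitPlane_of_norm_lt_one (h1 t))).prodMk continuous_const).continuousOn,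
    fun t _ => ?_, ?_, fun t _ => ?_⟩
  · show (_, _) ∈ A.domT
    simp only [hs]
    exact rels_dom A k 0 t 0
  · simp [actQ_def, cj_zero, h2, h3, mul_assoc]
  · simp only [Br.prQ, hs, rels_lpA]

lemma rels_QT (i : ι) (k : Option ι) (b : Bool) {η : ℝ → ℂ} (hη : Continuous η) {e : ZMod 2}
    (h1 : η 1 = sg2 e * conj (η 0)) (h2 : ∀ t, η t ^ 2 + A.b i t = A.loc k t (A.eps / 2) 0) :
    LoopCls (A.prQ i) (A.domQ i) (⟨(if b then 1 else 0, e), 1⟩ : SD (ℤ × ZMod 2)) (A.lpT k b) := by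
  refine ⟨fun t => (η t, ⟨if b then 1 / 2 else 0, t⟩), (hη.prodMk
    (continuous_mk continuous_const continuous_id)).continuousOn, fun t _ => ?_, ?_, fun t _ => ?_⟩
  · show (_, _) ∈ A.domT
    simp only [h2]
    exact rels_dom A k t 0 _
  · cases b <;> simp [actQ_def, cj_one, h1, sgn_one]
    norm_num
  · simp only [Br.prQ, h2, rels_lpT]

lemma rels_QT0 (i : ι) (k : Option ι) (b : Bool)
    (h : ∀ t, A.loc k t (A.eps / 2) 0 - A.b i t ∈ slitPlane) :
    LoopCls (A.prQ i) (A.domQ i) (⟨(if b then 1 else 0, 0), 1⟩ : SD (ℤ × ZMod 2)) (A.lpT k b) :=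
  rels_QT A i k b (η := fun t => rt (A.loc k t (A.eps / 2) 0 - A.b i t))
    (rels_rt_cont ((rels_locT A k).sub (A.cont i)) h)
    (by rw [rels_sg0, one_mul, ← rels_rt_conj (h 0), rels_locT_one, rels_b_one, map_sub])
    fun t => by rw [rt_sq, sub_add_cancel]

lemma rels_QT1 (i : ι) (k : Option ι) (b : Bool)
    (h : ∀ t, A.b i t - A.loc k t (A.eps / 2) 0 ∈ slitPlane) :
    LoopCls (A.prQ i) (A.domQ i) (⟨(if b then 1 else 0, 1), 1⟩ : SD (ℤ × ZMod 2)) (A.lpT k b) :=
  rels_QT A i k b (η := fun t => I * rt (A.b i t - A.loc k t (A.eps / 2) 0))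
    (continuous_const.mul (rels_rt_cont ((A.cont i).sub (rels_locT A k)) h))
    (by
      rw [rels_sg1, map_mul, ← rels_rt_conj (h 0), rels_locT_one, rels_b_one, map_sub, conj_I]
      ring)
    fun t => by
      rw [mul_pow, rt_sq, I_sq]
      ring

lemma rels_b_lt (i : ι) (t : ℝ) : A.eps / 2 * ‖A.b i t‖ < 1 := by
  have h0 := A.eps_pos
  have h1 : ‖A.b i t‖ < A.eps⁻¹ := by linarith [A.eps_spec.2.2.2 i t]
  have h2 : A.eps * ‖A.b i t‖ < 1 := by
    rw [← mul_inv_cancel₀ h0.ne']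
    exact mul_lt_mul_of_pos_left h1 h0
  nlinarith [norm_nonneg (A.b i t)]

lemma rels_sqrt : (((√(A.eps / 2) : ℝ) : ℂ)) ^ 2 = ((A.eps / 2 : ℝ) : ℂ) := by
  rw [← ofReal_pow, Real.sq_sqrt (rels_half A).le]

lemma rels_QA_own (i : ι) :
    LoopCls (A.prQ i) (A.domQ i) (⟨(0, 1), 0⟩ : SD (ℤ × ZMod 2)) (A.lpA (some i)) := by
  refine rels_QA A i _ (f := fun t => (√(A.eps / 2) : ℝ) * ee (t / 2)) (x := fun _ => 0)
    (by fun_prop) continuous_const (fun _ => by simp) rfl ?_ fun t => ?_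
  · rw [ee_half, zero_div, ee_zero, rels_sg1]
    ring
  · rw [mul_pow, rels_sqrt, sq, ← ee_add, add_halves, Br.loc]
    ring

lemma rels_QA_ne {i j : ι} (h : j ≠ i) :
    LoopCls (A.prQ i) (A.domQ i) (⟨(0, 0), 0⟩ : SD (ℤ × ZMod 2)) (A.lpA (some j)) := by
  have h0 := A.eps_pos
  have h1 := A.eps_spec.2.2.1 0 j i h
  have h2 : A.b j 0 - A.b i 0 ≠ 0 := norm_pos_iff.1 (by linarith)
  refine rels_QA A i _ (f := fun _ => rt (A.b j 0 - A.b i 0))
    (x := fun t => (A.eps / 2 : ℝ) * ee t / (A.b j 0 - A.b i 0))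
    continuous_const (by fun_prop) (fun t => ?_) (by rw [ee_one, ee_zero])
    (by rw [rels_sg0, one_mul]) fun t => ?_
  · rw [norm_div, norm_mul, norm_ee, norm_real, Real.norm_of_nonneg (rels_half A).le,
      div_lt_one (by linarith)]
    linarith
  · rw [rt_sq, Br.loc]
    field_simp
    ring

lemma rels_QA_inf (i : ι) :
    LoopCls (A.prQ i) (A.domQ i) (⟨(0, 1), 0⟩ : SD (ℤ × ZMod 2)) (A.lpA none) := by
  have h0 : ((A.eps / 2 : ℝ) : ℂ) ≠ 0 := ofReal_ne_zero.2 (rels_half A).ne'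
  refine rels_QA A i _ (f := fun t => ee (-(t / 2)) / (√(A.eps / 2) : ℝ))
    (x := fun t => -((A.eps / 2 : ℝ) * ee t * A.b i 0))
    (by fun_prop) (by fun_prop) (fun t => ?_) (by rw [ee_one, ee_zero]) ?_ fun t => ?_
  · rw [norm_neg, norm_mul, norm_mul, norm_ee, norm_real, Real.norm_of_nonneg (rels_half A).le,
      mul_one]
    exact rels_b_lt A i 0
  · rw [ee_neg, ee_half, zero_div, neg_zero, ee_zero, rels_sg1]
    simp [neg_div]
  · have h1 := ee_mul_neg t
    rw [div_pow, rels_sqrt, sq, ← ee_add, show -(t / 2) + -(t / 2) = -t by ring, Br.loc]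
    field_simp
    linear_combination (-((A.eps / 2 : ℝ) : ℂ) * A.b i 0) * h1

lemma rels_QT_own (i : ι) (b : Bool) :
    LoopCls (A.prQ i) (A.domQ i) (⟨(if b then 1 else 0, 0), 1⟩ : SD (ℤ × ZMod 2))
      (A.lpT (some i) b) :=
  rels_QT0 A i _ b fun t => by
    rw [Br.loc, ee_zero, mul_one, add_sub_cancel_left]
    exact ofReal_mem_slitPlane.2 (rels_half A)

lemma rels_QT_inf (i : ι) (b : Bool) :
    LoopCls (A.prQ i) (A.domQ i) (⟨(if b then 1 else 0, 0), 1⟩ : SD (ℤ × ZMod 2))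
      (A.lpT none b) :=
  rels_QT0 A i _ b fun t => by
    left
    have h1 := rels_b_lt A i t
    have h2 := (abs_le.1 (abs_re_le_norm (A.b i t))).2
    have h3 := rels_half A
    rw [Br.loc, neg_zero, ee_zero, ← ofReal_one, ← ofReal_div, sub_re, ofReal_re, sub_pos,
      lt_div_iff₀ h3]
    nlinarith

/-- A character of a covering vanishes on a combination of loops that bounds. -/
lemma rels_eval [Fintype ι] {E Γ : Type} [TopologicalSpace E] [Nonempty E] [Group Γ]
    [MulAction Γ E] {p : E → A.X} {O : Set E} (h : CovOn Γ p O) (hT : p '' O = A.T)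
    (χ : Γ →* Multiplicative F2) {α β γ : Option ι → F2} (hB : A.stdL α β γ ∈ B F2 A.T ∅ 1)
    {ga gb gc : Option ι → Γ} (ha : ∀ k, LoopCls p O (ga k) (A.lpA k))
    (hb : ∀ k, LoopCls p O (gb k) (A.lpT k false)) (hc : ∀ k, LoopCls p O (gc k) (A.lpT k true)) :
    ∑ k, (α k * (χ (ga k)).toAdd + β k * (χ (gb k)).toAdd + γ k * (χ (gc k)).toAdd) = 0 := by
  obtain ⟨φ, h1, h2⟩ := h.coc χ
  rw [hT] at h1
  have h3 := h1.apply_B hB
  rw [Br.stdL, map_sum] at h3
  rw [← h3]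
  refine Finset.sum_congr rfl fun k _ => ?_
  rw [map_add, map_add, map_smul, map_smul, map_smul, h2 _ _ (ha k), h2 _ _ (hb k), h2 _ _ (hc k)]
  rfl

end general

lemma rels_QT_succ (i : Fin 3) (b : Bool) :
    LoopCls ((chB 0).prQ i) ((chB 0).domQ i) (⟨(if b then 1 else 0, 0), 1⟩ : SD (ℤ × ZMod 2))
      ((chB 0).lpT (some (i + 1)) b) :=
  rels_QT0 _ i _ b fun t => by
    rw [Br.loc, ee_zero, mul_one, chB_succ, add_assoc, add_sub_cancel_left]
    exact rels_dd (by linarith [rels_half (chB 0)])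

lemma rels_QT_pred (i : Fin 3) (b : Bool) :
    LoopCls ((chB 0).prQ i) ((chB 0).domQ i) (⟨(if b then 1 else 0, 1), 1⟩ : SD (ℤ × ZMod 2))
      ((chB 0).lpT (some (i + 2)) b) :=
  rels_QT1 _ i _ b fun t => by
    have h := rels_dd (φ := t - 1 / 3 + 2 * (i : ℕ) / 3) (c := -((chB 0).eps / 2))
      (by linarith [(chB 0).eps_le])
    rw [Br.loc, ee_zero, mul_one, chB_pred]
    convert h using 1
    push_cast
    ring

lemma rels_QT_all (i : Fin 3) (b : Bool) (k : Option (Fin 3)) :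
    LoopCls ((chB 0).prQ i) ((chB 0).domQ i)
      (⟨(if b then 1 else 0, if k = some (i + 2) then 1 else 0), 1⟩ : SD (ℤ × ZMod 2))
      ((chB 0).lpT k b) := by
  have h : ∀ i j : Fin 3, j = i ∧ i ≠ i + 2 ∨ j = i + 1 ∧ i + 1 ≠ i + 2 ∨ j = i + 2 := by decide
  rcases k with _ | j
  · simpa using rels_QT_inf _ i b
  · rcases h i j with ⟨rfl, h⟩ | ⟨rfl, h⟩ | rfl
    · rw [if_neg fun e => h (Option.some.inj e)]
      exact rels_QT_own _ _ b
    · rw [if_neg fun e => h (Option.some.inj e)]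
      exact rels_QT_succ i b
    · rw [if_pos rfl]
      exact rels_QT_pred i b

lemma rels_QA_all (i : Fin 3) (k : Option (Fin 3)) :
    LoopCls ((chB 0).prQ i) ((chB 0).domQ i)
      (⟨(0, if k = some i ∨ k = none then 1 else 0), 0⟩ : SD (ℤ × ZMod 2)) ((chB 0).lpA k) := by
  rcases k with _ | j
  · rw [if_pos (.inr rfl)]
    exact rels_QA_inf _ i
  · by_cases h : j = i
    · rw [if_pos (.inl (by rw [h])), h]
      exact rels_QA_own _ i
    · rw [if_neg (by simp [h])]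
      exact rels_QA_ne _ h

theorem rels {α β γ : Option (Fin 3) → F2} (h : (chB 0).stdL α β γ ∈ B F2 (chB 0).T ∅ 1) :
    β none = ∑ j, β (some j) ∧ γ none = ∑ j, γ (some j) ∧
      ∀ j, α (some (j + 1)) = α none + β (some j) + γ (some j) := by
  have h2 : (2 : F2) = 0 := by decide
  obtain ⟨χ1, e1⟩ := exists_char (0 : ℤ →+ ZMod 2) 1
  obtain ⟨χ2, e2⟩ := exists_char (Int.castAddHom (ZMod 2)) 0
  obtain ⟨χ3, e3⟩ := exists_char (AddMonoidHom.snd ℤ (ZMod 2)) 0
  have r1 := rels_eval (chB 0) (chB 0).covT rfl χ1 h (rels_TA _) (fun k => rels_TT _ k false)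
    fun k => rels_TT _ k true
  have r2 := rels_eval (chB 0) (chB 0).covT rfl χ2 h (rels_TA _) (fun k => rels_TT _ k false)
    fun k => rels_TT _ k true
  have r3 := fun i => rels_eval (chB 0) ((chB 0).covQ i) ((chB 0).image_domQ i) χ3 h
    (rels_QA_all i) (rels_QT_all i false) (rels_QT_all i true)
  simp [e1, Fintype.sum_option, Fin.sum_univ_three] at r1
  simp [e2, Fintype.sum_option, Fin.sum_univ_three] at r2
  simp only [Fin.sum_univ_three]
  refine ⟨?_, ?_, fun j => ?_⟩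
  · linear_combination r1 - r2 - (β (some 0) + β (some 1) + β (some 2)) * h2
  · linear_combination r2 - (γ (some 0) + γ (some 1) + γ (some 2)) * h2
  · have r := r3 (j + 1)
    fin_cases j <;> simp [e3, Fintype.sum_option, Fin.sum_univ_three] at r ⊢
    · linear_combination r - (α none + β (some 0) + γ (some 0)) * h2
    · linear_combination r - (α none + β (some 1) + γ (some 1)) * h2
    · linear_combination r - (α none + β (some 2) + γ (some 2)) * h2

end Pool.Agent.Lib.MP_45bb13_gt
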