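import Pool.Agent.Lib.MP_45bb13_gt.HDefs
import Pool.Agent.Lib.MP_18d288_gt.Betti

/-! The signature from an orthogonal splitting. -/

set_option linter.unusedSectionVars false

namespace Pool.Agent.Lib.MP_45bb13_gt

open Set Filter Topology Complex Pool.Agent.Shared.Sing Pool.Agent.Shared.SingEZ
open scoped ComplexConjugate

section algebra

variable {V A : Type*} [AddCommGroup V] [Module ℝ V] [AddCommGroup A] [Module ℝ A] {q : V → ℝ}

/-- The dimensions of the subspaces on which a function is positive away from the origin. -/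
def sigS (q : V → ℝ) : Set ℕ :=
  {n | ∃ P : Submodule ℝ V, Module.finrank ℝ P = n ∧ ∀ x ∈ P, x ≠ 0 → 0 < q x}

lemma sigS_of_map (f : A →ₗ[ℝ] V) (hq : q 0 = 0) (h : ∀ x, x ≠ 0 → 0 < q (f x)) :
    Module.finrank ℝ A ∈ sigS q := by
  have hi : Function.Injective f := (injective_iff_map_eq_zero _).2 fun x hx => by
    by_contra h0
    have := h x h0
    rw [hx, hq] at this
    exact this.false
  refine ⟨LinearMap.range f, LinearMap.finrank_range_of_inj hi, ?_⟩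
  rintro _ ⟨x, rfl⟩ h0
  exact h x fun h1 => h0 (by rw [h1, map_zero])

lemma sigS_comp_le (f : A →ₗ[ℝ] V) (hq : q 0 = 0) : sigS (fun x => q (f x)) ⊆ sigS q := by
  rintro _ ⟨P, rfl, h⟩
  exact sigS_of_map (f ∘ₗ P.subtype) hq fun x hx => h x x.2 fun h0 => hx (Subtype.ext h0)

lemma sigS_comp (f : A →ₗ[ℝ] V) (hf : Function.Surjective f) (hq : q 0 = 0) :
    sigS (fun x => q (f x)) = sigS q := by
  refine (sigS_comp_le f hq).antisymm ?_
  obtain ⟨g, hg⟩ := f.exists_rightInverse_of_surjective (LinearMap.range_eq_top.2 hf)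
  have h : ∀ x, f (g x) = x := LinearMap.congr_fun hg
  have := sigS_comp_le (q := fun x => q (f x)) g (by simpa using hq)
  simpa only [h] using this

lemma sigS_bdd [Module.Finite ℝ V] (q : V → ℝ) : BddAbove (sigS q) :=
  ⟨Module.finrank ℝ V, fun _ ⟨P, h, _⟩ => h ▸ P.finrank_le⟩

lemma sigS_ne (q : V → ℝ) : (sigS q).Nonempty := ⟨_, ⊥, rfl, fun _ h h' => (h' h).elim⟩

lemma sigS_prod [Module.Finite ℝ V] (hq : q 0 = 0) {κ : Type} [Fintype κ] (d : κ → ℝ) :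
    sSup (sigS fun x : (κ → ℝ) × V => ∑ i, x.1 i ^ 2 * d i + q x.2) =
      {i | 0 < d i}.ncard + sSup (sigS q) := by
  classical
  have hc : Module.finrank ℝ ({i | 0 < d i} → ℝ) = {i | 0 < d i}.ncard := by
    rw [Module.finrank_fintype_fun_eq_card, ← Nat.card_eq_fintype_card, Nat.card_coe_set_eq]
  refine le_antisymm (csSup_le (sigS_ne _) ?_) ?_
  · rintro _ ⟨P, rfl, h⟩
    let π : P →ₗ[ℝ] ({i | 0 < d i} → ℝ) :=
      LinearMap.funLeft ℝ ℝ Subtype.val ∘ₗ LinearMap.fst ℝ _ _ ∘ₗ P.subtype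
    rw [← π.finrank_range_add_finrank_ker, ← hc]
    refine add_le_add (Submodule.finrank_le _) (le_csSup (sigS_bdd q) ?_)
    refine sigS_of_map (A := LinearMap.ker π)
      (LinearMap.snd ℝ _ _ ∘ₗ P.subtype ∘ₗ (LinearMap.ker π).subtype) hq fun x hx => ?_
    have h1 := h x.1.1 x.1.2 fun h0 => hx (Subtype.ext (Subtype.ext h0))
    have h2 : ∑ i, x.1.1.1 i ^ 2 * d i ≤ 0 := Finset.sum_nonpos fun i _ => by
      by_cases hi : 0 < d i
      · have : x.1.1.1 i = 0 := congrFun x.2 ⟨i, hi⟩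
        simp [this]
      · exact mul_nonpos_of_nonneg_of_nonpos (sq_nonneg _) (not_lt.1 hi)
    change 0 < q x.1.1.2
    linarith
  · obtain ⟨P, h1, h2⟩ := Nat.sSup_mem (sigS_ne q) (sigS_bdd q)
    rw [← h1, ← hc, ← Module.finrank_prod]
    let E : ({i | 0 < d i} → ℝ) →ₗ[ℝ] (κ → ℝ) :=
      LinearMap.pi fun i => if h : 0 < d i then LinearMap.proj (⟨i, h⟩ : {i | 0 < d i}) else 0
    have hE : ∀ a (i : {i | 0 < d i}), E a i = a i := fun a i => by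
      simp [E, show 0 < d i from i.2]
    have hE' : ∀ a i, 0 ≤ E a i ^ 2 * d i := fun a i => by
      by_cases hi : 0 < d i
      · positivity
      · simp [E, hi]
    refine le_csSup (sigS_bdd _) (sigS_of_map (E.prodMap P.subtype) (by simpa using hq) ?_)
    rintro ⟨a, x⟩ hx
    change 0 < ∑ i, E a i ^ 2 * d i + q x
    by_cases ha : a = 0
    · refine add_pos_of_nonneg_of_pos (Finset.sum_nonneg fun i _ => hE' a i)
        (h2 x x.2 fun h0 => hx (Prod.ext ha (Subtype.ext h0)))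
    · obtain ⟨i, hi⟩ := Function.ne_iff.1 ha
      refine add_pos_of_pos_of_nonneg (Finset.sum_pos' (fun i _ => hE' a i)
        ⟨i, Finset.mem_univ _, ?_⟩) ?_
      · rw [hE]
        exact mul_pos (sq_pos_of_ne_zero hi) i.2
      · by_cases h0 : x.1 = 0
        · rw [h0, hq]
        · exact (h2 x x.2 h0).le

/-- Sylvester's count for a space spanned by orthogonal vectors and the image of a map. -/
lemma sigS_split [Module.Finite ℝ V] (β : V →ₗ[ℝ] V →ₗ[ℝ] ℝ) {κ : Type} [Fintype κ] (e : κ → V)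
    (j : A →ₗ[ℝ] V) (h1 : ∀ i k, i ≠ k → β (e i) (e k) = 0)
    (h2 : ∀ i w, β (e i) (j w) = 0 ∧ β (j w) (e i) = 0)
    (h3 : ∀ z, ∃ a : κ → ℝ, ∃ w, z = ∑ i, a i • e i + j w) :
    sSup (sigS fun x => β x x) =
      {i | 0 < β (e i) (e i)}.ncard + sSup (sigS fun w => β (j w) (j w)) := by
  classical
  let f : (κ → ℝ) × LinearMap.range j →ₗ[ℝ] V :=
    (Fintype.linearCombination ℝ e).coprod (LinearMap.range j).subtype
  have hf : Function.Surjective f := fun z => by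
    obtain ⟨a, w, rfl⟩ := h3 z
    exact ⟨(a, ⟨j w, w, rfl⟩), by simp [f, Fintype.linearCombination_apply]⟩
  have e1 := sigS_comp (q := fun x : LinearMap.range j => β x x) j.rangeRestrict
    j.surjective_rangeRestrict (by simp)
  rw [← sigS_comp (q := fun x => β x x) f hf (by simp),
    show (sigS fun w => β (j w) (j w)) = _ from e1,
    ← sigS_prod (q := fun x : LinearMap.range j => β x x) (by simp)]
  congr 2
  funext ⟨a, _, w, rfl⟩
  have h4 : ∀ i, ∑ k, a i * (a k * β (e i) (e k)) = a i ^ 2 * β (e i) (e i) := fun i => by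
    rw [Finset.sum_eq_single i (fun k _ hk => by rw [h1 i k hk.symm, mul_zero, mul_zero]) (by simp)]
    ring
  simp [f, Fintype.linearCombination_apply, h2, Finset.mul_sum, h4]

lemma sigS_split_ne [Module.Finite ℝ V] (β : V →ₗ[ℝ] V →ₗ[ℝ] ℝ) {κ : Type} [Fintype κ]
    (e : κ → V) (j : A →ₗ[ℝ] V) (σ : A →ₗ[ℝ] A)
    (hσ : ∀ w, β (j (σ w)) (j (σ w)) = -β (j w) (j w)) (h1 : ∀ i k, i ≠ k → β (e i) (e k) = 0)
    (h2 : ∀ i w, β (e i) (j w) = 0 ∧ β (j w) (e i) = 0)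
    (h3 : ∀ z, ∃ a : κ → ℝ, ∃ w, z = ∑ i, a i • e i + j w)
    (h4 : {i | 0 < β (e i) (e i)}.ncard ≠ {i | β (e i) (e i) < 0}.ncard) :
    sSup (sigS fun x => β x x) ≠ sSup (sigS fun x => -β x x) := by
  have e1 := sigS_split (-β) e j (fun i k h => by simp [h1 i k h]) (fun i w => by simp [h2]) h3
  simp only [LinearMap.neg_apply, neg_pos] at e1
  have e2 : (sigS fun w => β (j w) (j w)) = sigS fun w => -β (j w) (j w) := by
    refine subset_antisymm ?_ ?_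
    · simpa only [hσ, neg_neg] using sigS_comp_le (q := fun w => -β (j w) (j w)) σ (by simp)
    · simpa only [hσ] using sigS_comp_le (q := fun w => β (j w) (j w)) σ (by simp)
  rw [e1, sigS_split β e j h1 h2 h3, e2]
  exact fun h => h4 (add_right_cancel h)

end algebra

section top

variable {X : Type} [TopologicalSpace X] [Nonempty X]

lemma sig_exists_form {τ : C ℝ (X × X) →ₗ[ℝ] ℝ} (hτ : Coc univ 4 τ) :
    ∃ β : Hq ℝ (univ : Set X) 2 →ₗ[ℝ] Hq ℝ (univ : Set X) 2 →ₗ[ℝ] ℝ,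
      ∀ z y : Z ℝ (univ : Set X) ∅ 2,
        β (Submodule.Quotient.mk z) (Submodule.Quotient.mk y) = τ (cross z.1 y.1) := by
  let b : Z ℝ (univ : Set X) ∅ 2 →ₗ[ℝ] Z ℝ (univ : Set X) ∅ 2 →ₗ[ℝ] ℝ :=
    (cross.compl₁₂ (Z ℝ (univ : Set X) ∅ 2).subtype (Z ℝ (univ : Set X) ∅ 2).subtype).compr₂ τ
  let b1 : Z ℝ (univ : Set X) ∅ 2 →ₗ[ℝ] Hq ℝ (univ : Set X) 2 →ₗ[ℝ] ℝ :=
    (Submodule.liftQ _ b.flip fun y hy => LinearMap.ext fun z =>
      hτ.apply_B (by simpa using cross_B_right z.2 hy)).flip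
  refine ⟨Submodule.liftQ _ b1 fun z hz => LinearMap.ext fun x => ?_, fun z y => rfl⟩
  obtain ⟨y, rfl⟩ := Submodule.Quotient.mk_surjective _ x
  exact hτ.apply_B (by simpa using cross_B_left hz y.2)

lemma sig_bPlus (μ : Sing.Ch ℤ X 4) (q : Sing.Coh ℝ X 2 → ℝ)
    (h : ∀ a : Sing.cocyc ℝ X 2, Sing.cup (show 2 + 2 = 4 from rfl) a.1 a.1
      (μ.mapRange Int.cast Int.cast_zero) = q (Sing.ccl ℝ X 2 a)) :
    MP_18d288_gt.bPlus X μ = sSup (sigS q) := by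
  unfold MP_18d288_gt.bPlus sigS
  congr 1
  ext n
  refine exists_congr fun P => and_congr_right fun _ => ⟨fun h1 x hx h0 => ?_, fun h1 a ha h0 => ?_⟩
  · obtain ⟨a, rfl⟩ := Sing.ccl_surjective 2 x
    exact h a ▸ h1 a hx h0
  · exact (h a).symm ▸ h1 _ ha h0

end top

theorem sig_ne {X : Type} [TopologicalSpace X] [Nonempty X] [T2Space X] [CompactSpace X]
    (hX : LocEuc (Fin 4) X) (μ : Sing.Ch ℤ X 4) {τ : C ℝ (X × X) →ₗ[ℝ] ℝ}
    (hτ : IsThom 4 (cf (Int.castRingHom ℝ) (br ℤ 4 μ)) τ) {κ : Type} [Fintype κ] (e : κ → C ℝ X)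
    (he : ∀ i, e i ∈ Z ℝ univ ∅ 2) (W : Set X) (σ : C ℝ X →ₗ[ℝ] C ℝ X)
    (hσ : ∀ w ∈ Z ℝ W ∅ 2, σ w ∈ Z ℝ W ∅ 2 ∧ sqi τ (σ w) = -sqi τ w)
    (h1 : ∀ i j, i ≠ j → τ (cross (e i) (e j)) = 0)
    (h2 : ∀ i, ∀ w ∈ Z ℝ W ∅ 2, τ (cross (e i) w) = 0 ∧ τ (cross w (e i)) = 0)
    (h3 : ∀ z ∈ Z ℝ univ ∅ 2, ∃ a : κ → ℝ, ∃ w ∈ Z ℝ W ∅ 2, z - (∑ i, a i • e i + w) ∈ B ℝ univ ∅ 2)
    (h4 : {i | 0 < sqi τ (e i)}.ncard ≠ {i | sqi τ (e i) < 0}.ncard) :
    MP_18d288_gt.bPlus X μ ≠ MP_18d288_gt.bPlus X (-μ) := by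
  obtain ⟨β, hβ⟩ := sig_exists_form hτ.coc
  have hfin := hτ.finite hX (show 2 + 2 = 4 from rfl)
  have hcyc : cf (Int.castRingHom ℝ) (br ℤ 4 μ) ∈ Z ℝ (univ : Set X) ∅ (2 + 2) := hτ.cyc
  let φ : Sing.cocyc ℝ X 2 →ₗ[ℝ] Z ℝ (univ : Set X) ∅ 2 :=
    { toFun a := ⟨_, cap_Z (coc_comp_rb.2 a.2) hcyc⟩
      map_add' a b := Subtype.ext (by simp [LinearMap.add_comp, cap_add])
      map_smul' r a := Subtype.ext (by simp [LinearMap.smul_comp, cap_smul]) }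
  let Φ : Sing.Coh ℝ X 2 →ₗ[ℝ] Hq ℝ (univ : Set X) 2 :=
    Submodule.liftQ _ (Submodule.mkQ _ ∘ₗ φ) fun a ha => (Submodule.Quotient.mk_eq_zero _).2
      (Dies.cap_B (p := 1) (comp_br_mem_cobdry.1 (by rw [comp_rb_comp_br]; exact ha)) hcyc)
  have hΦ : ∀ a, Φ (Sing.ccl ℝ X 2 a) = Submodule.Quotient.mk (φ a) := fun _ => rfl
  have hs : Function.Surjective Φ := fun x => by
    obtain ⟨z, rfl⟩ := Submodule.Quotient.mk_surjective _ x
    obtain ⟨a, ha, h⟩ := hτ.pd_surj hX (show 2 + 2 = 4 from rfl) z.2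
    refine ⟨Sing.ccl ℝ X 2 ⟨a ∘ₗ br ℝ 2, comp_br_mem_cocyc.2 ha⟩, ?_⟩
    rw [hΦ, eq_comm, Submodule.Quotient.eq]
    have : cap 2 ((a ∘ₗ br ℝ 2) ∘ₗ rb ℝ 2) (cf (Int.castRingHom ℝ) (br ℤ 4 μ)) =
        cap 2 a (cf (Int.castRingHom ℝ) (br ℤ 4 μ)) :=
      cap_congr (fun c hc => by rw [LinearMap.comp_apply, LinearMap.comp_apply, br_rb hc]) hcyc.1
    rw [← this] at h
    exact h
  have hq : ∀ a : Sing.cocyc ℝ X 2, Sing.cup (show 2 + 2 = 4 from rfl) a.1 a.1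
      (μ.mapRange Int.cast Int.cast_zero) = β (Φ (Sing.ccl ℝ X 2 a)) (Φ (Sing.ccl ℝ X 2 a)) :=
    fun a => by
      rw [hΦ, hβ, cup_eq_comp_br, LinearMap.comp_apply, MP_18d288_gt.br_cast]
      exact (hτ.pd hX (show 2 + 2 = 4 from rfl) (coc_comp_rb.2 a.2) (φ a).2).trans
        (by rw [show (-1 : ℝ) ^ (2 * 2) = 1 by norm_num, one_mul]; rfl)
  rw [sig_bPlus μ (fun x => β (Φ x) (Φ x)) hq, sig_bPlus (-μ) (fun x => -β (Φ x) (Φ x)) fun a => by
    rw [show (-μ).mapRange (Int.cast : ℤ → ℝ) Int.cast_zero =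
      -μ.mapRange Int.cast Int.cast_zero from Finsupp.ext fun _ => by simp, map_neg, hq],
    sigS_comp (q := fun x => β x x) Φ hs (by simp), sigS_comp (q := fun x => -β x x) Φ hs (by simp)]
  have hW : Z ℝ W ∅ 2 ≤ Z ℝ univ ∅ 2 := Z_mono (subset_univ _) le_rfl
  refine sigS_split_ne (A := Z ℝ W ∅ 2) β (fun i => Submodule.Quotient.mk ⟨e i, he i⟩)
    (Submodule.mkQ _ ∘ₗ Submodule.inclusion hW) (σ.restrict fun w hw => (hσ w hw).1)
    (fun w => ?_) (fun i k h => (hβ _ _).trans (h1 i k h))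
    (fun i w => ⟨(hβ _ _).trans (h2 i w.1 w.2).1, (hβ _ _).trans (h2 i w.1 w.2).2⟩) (fun x => ?_) ?_
  · exact (hβ _ _).trans ((hσ w w.2).2.trans (congrArg _ (hβ ⟨_, hW w.2⟩ ⟨_, hW w.2⟩).symm))
  · obtain ⟨z, rfl⟩ := Submodule.Quotient.mk_surjective _ x
    obtain ⟨a, w, hw, h⟩ := h3 z z.2
    refine ⟨a, ⟨w, hw⟩, ?_⟩
    have : (Submodule.Quotient.mk z : Hq ℝ (univ : Set X) 2) = Submodule.mkQ _
        (∑ i, a i • (⟨e i, he i⟩ : Z ℝ (univ : Set X) ∅ 2) + ⟨w, hW hw⟩) :=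
      (Submodule.Quotient.eq _).2 (Submodule.mem_comap.2 (by simpa using h))
    rw [this, map_add, map_sum]
    simp only [map_smul]
    rfl
  · simpa only [hβ, sqi] using h4

end Pool.Agent.Lib.MP_45bb13_gt
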