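import Pool.Agent.Lib.MP_45bb13_gt.Refl
import Pool.Agent.Lib.MP_45bb13_gt.Move
import Pool.Agent.Lib.MP_45bb13_gt.Pres
import Pool.Agent.Lib.MP_45bb13_gt.SigLA
import Pool.Agent.Lib.MP_45bb13_gt.NEv

/-! The signature does not vanish. -/

set_option linter.unusedSectionVars false

namespace Pool.Agent.Lib.MP_45bb13_gt

open Set Filter Topology Complex Pool.Agent.Shared.Sing Pool.Agent.Shared.SingEZ
open scoped ComplexConjugate

namespace Br

variable {ι : Type} [Fintype ι] (A : Br ι)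

/-- The exceptional spheres as cycles. -/
noncomputable def eC (a : Option ι × Bool × Bool) : C ℝ A.X :=
  map (A.jj a.1) (bi ℝ (eF a.2) (eG a.2))

/-- The neighbourhoods of the exceptional spheres. -/
private def sigV (a : Option ι × Bool × Bool) : Set A.X := A.jj a.1 '' (Vk a.2 ∩ Nr A.eps)

/-- The exceptional spheres. -/
private def sigE (a : Option ι × Bool × Bool) : Set A.X := A.jj a.1 '' Ek a.2

private lemma sig_e_Nr (k : Bool × Bool) (l : Option ℂ) : N.e k l ∈ Nr A.eps := by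
  change wabs _ < _
  rw [wabs_e]
  exact A.eps_pos

private lemma sig_E_sub (k : Bool × Bool) : Ek k ⊆ Vk k ∩ Nr A.eps := by
  rintro _ ⟨l, rfl⟩
  exact ⟨e_mem_Vk.2 rfl, A.sig_e_Nr k l⟩

private lemma sig_lo (k : Option ι) (k' : Bool × Bool) : LO (A.jj k) (Vk k' ∩ Nr A.eps) :=
  (A.lo_jj k).mono ((isOpen_Vk k').inter (isOpen_Nr _)) inter_subset_right

private lemma sig_openV (a : Option ι × Bool × Bool) : IsOpen (A.sigV a) :=
  (A.lo_jj a.1).isOpen_image ((isOpen_Vk _).inter (isOpen_Nr _)) inter_subset_right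

private lemma sig_VE {a a' : Option ι × Bool × Bool} (h : a ≠ a') :
    Disjoint (A.sigV a) (A.sigE a') := by
  rw [Set.disjoint_left]
  rintro _ ⟨n, hn, rfl⟩ ⟨n', hn', e⟩
  have h1 := (A.sig_E_sub _ hn').2
  have h2 : a'.1 = a.1 := A.jj_disj h1 hn.2 e
  rw [h2] at e
  have h3 : n' = n := A.jj_injOn _ h1 hn.2 e
  have h4 : a.2 ≠ a'.2 := fun h4 => h (Prod.ext h2.symm h4)
  exact Set.disjoint_left.1 (Vk_Ek h4) hn.1 (h3 ▸ hn')

private lemma sig_mem_XE {x : A.X} : x ∈ A.XE ↔ ∀ a, x ∉ A.sigE a :=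
  ⟨fun h a ⟨_, ⟨l, hl⟩, e⟩ => h a.1 a.2 l (by rw [hl, e]),
    fun h k k' l e => h (k, k') ⟨_, ⟨l, rfl⟩, e.symm⟩⟩

private lemma sig_eC_E (a : Option ι × Bool × Bool) : A.eC a ∈ Z ℝ (A.sigE a) ∅ 2 :=
  map_Z ((A.lo_jj a.1).continuousOn.mono fun _ h => (A.sig_E_sub _ h).2) (empty_subset _)
    (mapsTo_image _ _) (mapsTo_empty _ _) (bi_e_In a.2)

private lemma sig_null (a : Option ι × Bool × Bool) {U : Set A.X} (h1 : A.XE ⊆ U)
    (h2 : Disjoint U (A.sigE a)) : Z ℝ (U ∩ A.sigV a) ∅ 1 ≤ B ℝ (U ∩ A.sigV a) ∅ 1 := by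
  have e1 : (Vk a.2 ∩ Nr A.eps) \ Ek a.2 = (Vk a.2 ∩ Nr A.eps) ∩ A.jj a.1 ⁻¹' A.XE := by
    refine Set.ext fun n => and_congr_right fun hn => ⟨fun h => A.sig_mem_XE.2 fun a' => ?_,
      fun h h' => A.sig_mem_XE.1 h a ⟨n, h', rfl⟩⟩
    rcases eq_or_ne a a' with rfl | ha
    · rintro ⟨n', hn', e⟩
      exact h (A.jj_injOn _ (A.sig_E_sub _ hn').2 hn.2 e ▸ hn')
    · exact Set.disjoint_left.1 (A.sig_VE ha) ⟨n, hn, rfl⟩
  have e2 : U ∩ A.sigV a = A.jj a.1 '' ((Vk a.2 ∩ Nr A.eps) \ Ek a.2) := by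
    refine Subset.antisymm ?_ ?_
    · rintro _ ⟨hU, n, hn, rfl⟩
      exact ⟨n, ⟨hn, fun h => Set.disjoint_left.1 h2 hU ⟨n, h, rfl⟩⟩, rfl⟩
    · rintro _ ⟨n, hn, rfl⟩
      exact ⟨h1 (e1 ▸ hn).2, n, hn.1, rfl⟩
  have ho : IsOpen ((Vk a.2 ∩ Nr A.eps) \ Ek a.2) :=
    e1 ▸ (A.sig_lo a.1 a.2).continuousOn.isOpen_inter_preimage (A.sig_lo a.1 a.2).1 A.isOpen_XE
  rw [e2]
  exact null_image ((A.sig_lo a.1 a.2).mono ho sdiff_subset)
    ((A.jj_injOn _).mono fun _ h => h.1.2) (h1_VE A.eps_pos a.2)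

private lemma sig_spn (a : Option ι × Bool × Bool) {u : C ℝ A.X} (hu : u ∈ Z ℝ (A.sigV a) ∅ 2) :
    ∃ r : ℝ, u - r • A.eC a ∈ B ℝ univ ∅ 2 := by
  have h := (Spn.image (A.sig_lo a.1 a.2) ((A.jj_injOn _).mono inter_subset_right)
    (spn_V (F := ℝ) A.eps_pos a.2)).2 hu
  rw [image_singleton] at h
  obtain ⟨y, hy, b, hb, rfl⟩ := Submodule.mem_sup.1 h
  obtain ⟨r, rfl⟩ := Submodule.mem_span_singleton.1 hy
  exact ⟨r, by simpa [eC] using B_mono (subset_univ _) le_rfl hb⟩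

private lemma sig_ind (S : Finset (Option ι × Bool × Bool)) :
    ∀ z ∈ Z ℝ (A.XE ∪ ⋃ a ∈ S, A.sigV a) ∅ 2, ∃ a : Option ι × Bool × Bool → ℝ,
      ∃ w ∈ Z ℝ A.XE ∅ 2, z - (∑ i, a i • A.eC i + w) ∈ B ℝ univ ∅ 2 := by
  classical
  induction S using Finset.induction_on with
  | empty => exact fun z hz => ⟨0, z, by simpa using hz, by simp⟩
  | insert a S ha ih =>
    intro z hz
    have hU : IsOpen (A.XE ∪ ⋃ a ∈ S, A.sigV a) :=
      A.isOpen_XE.union (isOpen_biUnion fun a _ => A.sig_openV a)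
    have hd : Disjoint (A.XE ∪ ⋃ a ∈ S, A.sigV a) (A.sigE a) := by
      rw [Set.disjoint_left]
      rintro x (hx | hx)
      · exact A.sig_mem_XE.1 hx a
      · obtain ⟨a', h', hx⟩ := mem_iUnion₂.1 hx
        exact Set.disjoint_left.1 (A.sig_VE fun e : a' = a => ha (e ▸ h')) hx
    rw [Finset.set_biUnion_insert, union_comm (A.sigV a), ← union_assoc] at hz
    obtain ⟨s, hs, -, u, hu, u', hu', h⟩ := mv_span hU (A.sig_openV a) (S := ⊥)
      (fun c hc _ _ => ⟨0, zero_mem _, 0, zero_mem _, by simp, by simp, by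
        simpa using A.sig_null a subset_union_left hd hc⟩) hz
    obtain ⟨b, w, hw, h1⟩ := ih u hu
    obtain ⟨r, h2⟩ := A.sig_spn a hu'
    refine ⟨b + Pi.single a r, w, hw, ?_⟩
    have e : ∑ i, (b + (Pi.single a r : _ → ℝ)) i • A.eC i = ∑ i, b i • A.eC i + r • A.eC a := by
      simp [add_smul, Finset.sum_add_distrib, Pi.single_apply, ite_smul]
    rw [(Submodule.mem_bot ℝ).1 hs] at h
    convert add_mem (add_mem (B_mono (subset_univ _) le_rfl h) h1) h2 using 1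
    rw [e]
    abel

theorem span_E {z : C ℝ A.X} (hz : z ∈ Z ℝ univ ∅ 2) : ∃ a : Option ι × Bool × Bool → ℝ,
    ∃ w ∈ Z ℝ A.XE ∅ 2, z - (∑ i, a i • A.eC i + w) ∈ B ℝ univ ∅ 2 := by
  refine A.sig_ind Finset.univ z (Z_mono (fun x _ => ?_) le_rfl hz)
  by_cases h : x ∈ A.XE
  · exact .inl h
  · obtain ⟨a, ha⟩ := not_forall.1 (mt A.sig_mem_XE.2 h)
    exact .inr (mem_iUnion₂.2 ⟨a, Finset.mem_univ _, image_mono (A.sig_E_sub _) (not_not.1 ha)⟩)

private lemma sig_bi (a : Option ι × Bool × Bool) :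
    A.eC a = bi ℝ (A.jj a.1 ∘ eF a.2) (A.jj a.1 ∘ eG a.2) :=
  map_bi (continuous_eF _).continuousOn (continuous_eG _).continuousOn _

private lemma sig_eF (k : Bool × Bool) (x : ℂ) : eF k x = .e k (some x) := if_pos rfl

private lemma sig_eG (k : Bool × Bool) (x : ℂ) :
    eG k x = .e k (if conj x = 0 then none else some (conj x)⁻¹) := by
  unfold eG mu
  rw [if_pos rfl]

private lemma sig_move {i i' : Option ι} {k k' : Bool × Bool} {φ : A.X → A.X}
    (h : ∀ l, φ (A.jj i (.e k l)) = A.jj i' (.e k' l)) : map φ (A.eC (i, k)) = A.eC (i', k') := by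
  rw [sig_bi, sig_bi, map_bi
    ((A.lo_jj _).continuousOn.comp (continuous_eF _).continuousOn fun x _ =>
      sig_eF k x ▸ A.sig_e_Nr _ _)
    ((A.lo_jj _).continuousOn.comp (continuous_eG _).continuousOn fun x _ =>
      sig_eG k x ▸ A.sig_e_Nr _ _)]
  congr 1 <;> funext x <;> simp only [Function.comp_apply, sig_eF, sig_eG, h]

private lemma sig_count (h : 2 ≤ Fintype.card ι) {P M : Set (Option ι × Bool × Bool)}
    (hP : ∀ i k, (some i, k) ∈ P) (hM : ∀ i k, (some i, k) ∉ M) : M.ncard < P.ncard := by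
  have h1 : M.ncard ≤ (range fun k : Bool × Bool => ((none : Option ι), k)).ncard := by
    refine ncard_le_ncard (fun a ha => ?_) (toFinite _)
    obtain ⟨_ | i, k⟩ := a
    · exact ⟨k, rfl⟩
    · exact (hM i k ha).elim
  have h2 : (range fun a : ι × Bool × Bool => (some a.1, a.2)).ncard ≤ P.ncard :=
    ncard_le_ncard (range_subset_iff.2 fun a => hP a.1 a.2) (toFinite _)
  rw [ncard_range_of_injective fun k k' e => (Prod.ext_iff.1 e).2] at h1
  rw [ncard_range_of_injective (f := fun a : ι × Bool × Bool => (some a.1, a.2)) fun k k' e =>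
    Prod.ext (Option.some_injective _ (Prod.ext_iff.1 e).1) (Prod.ext_iff.1 e).2] at h2
  simp only [Nat.card_eq_fintype_card, Fintype.card_prod, Fintype.card_bool] at h1 h2
  omega

theorem bPlus_ne (h : 2 ≤ Fintype.card ι) (μ : Sing.Ch ℤ A.X 4) (hμ : μ ∈ Sing.cyc ℤ A.X 4)
    (h0 : ∀ x, cf (Int.castRingHom ℝ) (br ℤ 4 μ) ∉ B ℝ univ {x}ᶜ 4) :
    MP_18d288_gt.bPlus A.X μ ≠ MP_18d288_gt.bPlus A.X (-μ) := by
  have := A.t2
  have := A.compact
  have := t2_N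
  obtain ⟨τ, hτ⟩ : ∃ τ, IsThom 4 (cf (Int.castRingHom ℝ) (br ℤ 4 μ)) τ := by
    simpa using exists_isThom A.locEuc (μ := cf (Int.castRingHom ℝ) (br ℤ 4 μ))
      (by simpa using cf_Z (Int.castRingHom ℝ) (br_mem_Z.2 hμ)) (by simpa using h0)
  have hI := iform_of_thom A.locEuc hτ h0
  obtain ⟨σ, s1, s2, s3, s4⟩ := A.exists_refl
  have hp : (((A.eps⁻¹ : ℝ) : ℂ), ((1 / 4 : ℝ) : ℂ)) ∈ A.domT := fun i e => by
    have h1 := A.eps_spec.2.2.2 i (((1 / 4 : ℝ) : ℂ)).im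
    have h2 := A.eps_pos
    rw [← show ((A.eps⁻¹ : ℝ) : ℂ) = _ from e, norm_real, Real.norm_of_nonneg (by positivity)] at h1
    linarith
  set p0 : CC := (((A.eps⁻¹ : ℝ) : ℂ), ((1 / 4 : ℝ) : ℂ)) with hp0
  have hl : Lemb (A.prT ∘ Homeomorph.addLeft p0) 0 :=
    Lemb.comp (by simpa using A.covT.le p0 hp) (le_homeo _ 0)
  have hev : ∀ᶠ x in 𝓝 (0 : CC), σ ((A.prT ∘ Homeomorph.addLeft p0) x) =
      (A.prT ∘ Homeomorph.addLeft p0) (x.1, -conj x.2) := by
    have : ∀ᶠ x in 𝓝 (0 : CC), p0 + x ∈ A.domT :=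
      (continuous_const.add continuous_id).continuousAt.eventually
        (A.isOpen_domT.mem_nhds (show p0 + 0 ∈ _ by rwa [add_zero]))
    refine this.mono fun x hx => ?_
    simp only [Function.comp_apply, Homeomorph.coe_addLeft]
    rw [s4 _ hx]
    refine congrArg A.prT (Prod.ext rfl ?_)
    simp only [hp0, Prod.snd_add, map_add, conj_ofReal]
    push_cast
    ring
  have hne (a : Option ι × Bool × Bool) : sqi τ (A.eC a) ≠ 0 := by
    have := sqi_e_ne A.eps_pos a.2 (hI.pull (A.lo_jj a.1) (A.jj_injOn _) (mapsTo_univ _ _))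
    rwa [sqi_pull (A.lo_jj a.1).continuousOn
      (Z_mono (fun _ h => (A.sig_E_sub _ h).2) le_rfl (bi_e_In a.2))] at this
  obtain ⟨i0⟩ : Nonempty ι := Fintype.card_pos_iff.1 (by omega)
  have heq (i : ι) (k : Bool × Bool) :
      sqi τ (A.eC (some i, k)) = sqi τ (A.eC (some i0, (false, false))) := by
    obtain ⟨φ, f1, f2, f3, Ψ, O, g1, g2, g3, g4, g5, g6⟩ := A.exists_move i0 i k
    rw [← A.sig_move f3]
    exact sqi_iso A.locEuc hτ h0 f1 f2 (A.preconn_V _ _) g1 g2 g3 g4 g5 g6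
      (Z_mono (image_mono (A.sig_E_sub _)) le_rfl (A.sig_eC_E (some i0, (false, false))))
  have hd (a : Option ι × Bool × Bool) : Disjoint A.XE (A.sigE a) :=
    Set.disjoint_left.2 fun x hx => A.sig_mem_XE.1 hx a
  refine sig_ne A.locEuc μ hτ A.eC (fun a => Z_mono (subset_univ _) le_rfl (A.sig_eC_E a)) A.XE
    (map σ) (fun w hw => ⟨map_Z s1.continuousOn (empty_subset _) s3 (mapsTo_empty _ _) hw,
      sqi_refl A.locEuc hτ h0 s1 s2 A.preconn_XE hl (A.T_sub_XE ⟨p0, hp, by simp⟩) hev hw⟩)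
    (fun a a' ha => hI.disj (subset_univ _) (subset_univ _)
      ((A.sig_VE ha).mono_left (image_mono (A.sig_E_sub _))) (A.sig_eC_E a).1 (A.sig_eC_E a').1)
    (fun a w hw => ⟨hI.disj (subset_univ _) (subset_univ _) (hd a).symm (A.sig_eC_E a).1 hw.1,
      hI.disj (subset_univ _) (subset_univ _) (hd a) hw.1 (A.sig_eC_E a).1⟩)
    (fun z hz => A.span_E hz) ?_
  rcases lt_or_gt_of_ne (hne (some i0, (false, false))) with h1 | h1
  · exact (sig_count h (fun i k => by simpa [heq] using h1)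
      (fun i k => by simpa [heq] using h1.le)).ne
  · exact (sig_count h (fun i k => by simpa [heq] using h1)
      (fun i k => by simpa [heq] using h1.le)).ne'

end Br

end Pool.Agent.Lib.MP_45bb13_gt
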