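import Pool.Agent.Lib.MP_45bb13_gt.Sig
import Pool.Agent.Lib.MP_18d288_gt.Geo

/-! The positive index read on cocycles and on cohomology classes. -/

set_option linter.unusedSectionVars false
set_option maxSynthPendingDepth 3

namespace Pool.Agent.Lib.MP_45bb13_gt

open Set Pool.Agent.Shared.Sing Pool.Agent.Shared.SingEZ Pool.Agent.Lib.MP_18d288_gt

variable {M : Type} [TopologicalSpace M] [Nonempty M] {μ : Sing.Ch ℤ M 4}

lemma sigb_ub (hfin : Module.Finite ℝ (Sing.Coh ℝ M 2)) (hμ : IsCyc μ) :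
    bPlus M μ ∈ upperBounds {n | ∃ P ≤ Sing.cocyc ℝ M 2, Module.finrank ℝ P = n ∧ ∀ a ∈ P, a ≠ 0 →
      0 < val (Sing.cup (show 2 + 2 = 4 from rfl) a a) (μ.mapRange Int.cast Int.cast_zero)} := by
  rintro _ ⟨P, h1, rfl, h2⟩
  by_cases h : Module.Finite ℝ P
  · let b := Module.finBasis ℝ P
    simpa using le_bPlus hfin hμ (fun i => (b i).1 ∘ₗ rb ℝ 2)
      (fun i => coc_comp_rb.2 (h1 (b i).2)) fun t ht => by
        have := h2 _ (b.equivFun.symm t).2 fun h => b.equivFun.symm.map_ne_zero_iff.2 ht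
          (Subtype.ext h)
        rw [val, cup_eq_comp_br, LinearMap.comp_apply, br_cast] at this
        convert this <;> exact LinearMap.ext fun c => by simp
  · simp [Module.finrank_of_not_finite h]

lemma bPos_eq (hfin : Module.Finite ℝ (Sing.Coh ℝ M 2)) (hμ : IsCyc μ) : bPos μ = bPlus M μ := by
  refine le_antisymm (csSup_le' (sigb_ub hfin hμ)) ?_
  obtain ⟨P, h1, h2⟩ := exists_bPlus hfin μ
  obtain ⟨s, hs⟩ := (Sing.ccl ℝ M 2).exists_rightInverse_of_surjective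
    (LinearMap.range_eq_top.2 (Sing.ccl_surjective 2))
  have e : ∀ x, Sing.ccl ℝ M 2 (s x) = x := LinearMap.congr_fun hs
  have hi : Function.Injective ((Sing.cocyc ℝ M 2).subtype ∘ₗ s) :=
    Subtype.val_injective.comp (Function.LeftInverse.injective e)
  refine le_csSup ⟨_, sigb_ub hfin hμ⟩ ⟨P.map ((Sing.cocyc ℝ M 2).subtype ∘ₗ s), ?_, ?_, ?_⟩
  · rintro _ ⟨x, -, rfl⟩
    exact (s x).2
  · rw [← h1]
    exact (Submodule.equivMapOfInjective _ hi P).finrank_eq.symm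
  · rintro _ ⟨x, hx, rfl⟩ h
    exact h2 (s x) (by rwa [e]) (by rw [e]; rintro rfl; exact h (map_zero _))

theorem sig_ne_zero [T2Space M] [CompactSpace M] (hM : LocEuc (Fin 4) M) (hμ : IsCyc μ)
    (h0 : ∀ x, cf (Int.castRingHom ℝ) (br ℤ 4 μ) ∉ B ℝ univ {x}ᶜ 4)
    (h : bPlus M μ ≠ bPlus M (-μ)) : sig μ ≠ 0 := by
  obtain ⟨τ, hτ⟩ : ∃ τ, IsThom 4 (cf (Int.castRingHom ℝ) (br ℤ 4 μ)) τ := by
    simpa using exists_isThom hM (μ := cf (Int.castRingHom ℝ) (br ℤ 4 μ))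
      (by simpa using cf_Z (Int.castRingHom ℝ) (br_mem_Z.2 hμ)) (by simpa using h0)
  have f2 := hτ.finite hM (show 2 + 2 = 4 from rfl)
  have f3 := Module.Finite.equiv (hml_equiv (M := M) 2).some.symm
  have f4 := Module.Finite.equiv (coh_equiv (M := M) 2).some.symm
  rw [sig, bPos_eq f4 hμ, bPos_eq f4 (neg_mem hμ), sub_ne_zero]
  exact_mod_cast h

end Pool.Agent.Lib.MP_45bb13_gt
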