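import Pool.Agent.Lib.MP_45bb13_gt.Ext
import Pool.Agent.Lib.MP_45bb13_gt.Belt

/-! The double twist in a thin time slice. -/

set_option linter.unusedSectionVars false

namespace Pool.Agent.Lib.MP_45bb13_gt

open Set Filter Topology Complex
open scoped ComplexConjugate

/-- The rotation of the open disc of radius `ρ` about `m`. -/
noncomputable def twaR (m ρ c : ℝ) (y : ℂ) : ℂ := if ‖y - m‖ < ρ then m + ee c * (y - m) else y

/-- The distance to the half integers. -/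
noncomputable def twaD (t : ℝ) : ℝ := ‖((t - 1 / 2 : ℝ) : UnitAddCircle)‖

section aux

variable {m ρ δ c : ℝ} {y : ℂ} {η : ℝ → ℝ}

lemma twa_in (h : ‖y - m‖ < ρ) : twaR m ρ c y = m + ee c * (y - m) := if_pos h

lemma twa_out (h : ρ ≤ ‖y - m‖) : twaR m ρ c y = y := if_neg (not_lt.2 h)

lemma twa_one (h : ee c = 1) : twaR m ρ c y = y := by
  unfold twaR
  split_ifs
  · rw [h]; ring
  · rfl

lemma twa_norm : ‖twaR m ρ c y - m‖ = ‖y - m‖ := by
  unfold twaR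
  split_ifs
  · rw [add_sub_cancel_left, norm_mul, norm_ee, one_mul]
  · rfl

lemma twa_inv (c c' : ℝ) (h : ee c' * ee c = 1) : twaR m ρ c' (twaR m ρ c y) = y := by
  by_cases hy : ‖y - m‖ < ρ
  · rw [twa_in (by rwa [twa_norm]), twa_in hy, add_sub_cancel_left, ← mul_assoc, h]
    ring
  · rw [twa_out (by rw [twa_norm]; exact not_lt.1 hy), twa_out (not_lt.1 hy)]

lemma twa_left : twaR m ρ (-c) (twaR m ρ c y) = y :=
  twa_inv _ _ (by rw [mul_comm, ee_mul_neg])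

lemma twa_right : twaR m ρ c (twaR m ρ (-c) y) = y := twa_inv _ _ (ee_mul_neg c)

lemma twa_norm_cj (n : ℤ) : ‖cj n y - m‖ = ‖y - m‖ := by
  rw [← norm_cj n (y - m), cj_sub, cj_ofReal]

lemma twa_cj (n : ℤ) : twaR m ρ (sgn n * c) (cj n y) = cj n (twaR m ρ c y) := by
  by_cases hy : ‖y - m‖ < ρ
  · rw [twa_in (by rwa [twa_norm_cj]), twa_in hy, cj_plus, cj_mul, cj_sub, cj_ofReal, cj_ee]
  · rw [twa_out (by rw [twa_norm_cj]; exact not_lt.1 hy), twa_out (not_lt.1 hy)]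

lemma twa_cont : Continuous twaD :=
  continuous_norm.comp ((AddCircle.continuous_mk' 1).comp (continuous_id.sub continuous_const))

lemma twa_int (t : ℝ) (n : ℤ) : twaD (t + n) = twaD t := by
  unfold twaD
  rw [UnitAddCircle.norm_eq, UnitAddCircle.norm_eq, show t + n - 1 / 2 = t - 1 / 2 + n by ring,
    round_add_intCast]
  congr 1
  push_cast
  ring

lemma twa_abs {t : ℝ} (h : |t - 1 / 2| ≤ 1 / 2) : twaD t = |t - 1 / 2| :=
  (AddCircle.norm_coe_eq_abs_iff 1 one_ne_zero).2 (by rwa [abs_one])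

lemma twa_red (t : ℝ) : ∃ (s : ℝ) (n : ℤ), t = s + n ∧ |s - 1 / 2| ≤ 1 / 2 ∧
    twaD t = |s - 1 / 2| := by
  have h : |t - round (t - 1 / 2) - 1 / 2| ≤ 1 / 2 := by
    rw [show t - round (t - 1 / 2) - 1 / 2 = t - 1 / 2 - round (t - 1 / 2) by ring]
    exact abs_sub_round _
  refine ⟨t - round (t - 1 / 2), round (t - 1 / 2), by ring, h, ?_⟩
  rw [← twa_abs h, ← twa_int (t - round (t - 1 / 2)) (round (t - 1 / 2)), sub_add_cancel]

lemma twa_ee (ho : ∀ t, η (t + 1) = -η t)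
    (e0 : ∀ t ∈ Icc (0 : ℝ) 1, δ / 2 ≤ |t - 1 / 2| → η t = 1 ∨ η t = -1) {t : ℝ}
    (h : δ / 2 ≤ twaD t) : ee (η t) = 1 := by
  obtain ⟨s, n, rfl, h1, h2⟩ := twa_red t
  have hm : ee (-1) = 1 := by simpa using ee_int (-1)
  have h3 := abs_le.1 h1
  rw [odd_int ho]
  rcases e0 s ⟨by linarith, by linarith⟩ (h2 ▸ h) with h4 | h4 <;> rcases sgn_eq n with h5 | h5 <;>
    simp [h4, h5, ee_one, hm]

lemma twa_contAt {Z : Type} [TopologicalSpace Z] {f : Z → ℂ} {τ : Z → ℝ} (hf : Continuous f)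
    (hτ : Continuous τ) (hη : Continuous η) (he : ∀ t, δ / 2 ≤ twaD t → ee (η t) = 1) {z : Z}
    (hz : ¬(‖f z - m‖ = ρ ∧ twaD (τ z) ≤ δ / 2)) :
    ContinuousAt (fun z => twaR m ρ (η (τ z)) (f z)) z := by
  have hn : Continuous fun z => ‖f z - m‖ := by fun_prop
  by_cases h1 : δ / 2 < twaD (τ z)
  · refine hf.continuousAt.congr ?_
    filter_upwards [(isOpen_lt continuous_const (twa_cont.comp hτ)).mem_nhds h1] with w hw
    exact (twa_one (he _ (le_of_lt hw))).symm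
  rcases lt_trichotomy ‖f z - m‖ ρ with h | h | h
  · have : Continuous fun z => m + ee (η (τ z)) * (f z - m) := by fun_prop
    refine this.continuousAt.congr ?_
    filter_upwards [(isOpen_lt hn continuous_const).mem_nhds h] with w hw
    exact (twa_in hw).symm
  · exact absurd ⟨h, not_lt.1 h1⟩ hz
  · refine hf.continuousAt.congr ?_
    filter_upwards [(isOpen_lt continuous_const hn).mem_nhds h] with w hw
    exact (twa_out (le_of_lt hw)).symm

lemma twa_oph {W : Type} [TopologicalSpace W] {τ : W → ℝ} (hτ : Continuous τ) (hη : Continuous η)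
    (he : ∀ t, δ / 2 ≤ twaD t → ee (η t) = 1) {O O' : Set (ℂ × W)} (hO : IsOpen O)
    (hO' : IsOpen O') (h : ∀ p : ℂ × W, p ∈ O ↔ (twaR m ρ (η (τ p.2)) p.1, p.2) ∈ O')
    (hS : ∀ p ∈ O, ¬(‖p.1 - m‖ = ρ ∧ twaD (τ p.2) ≤ δ / 2)) :
    ∃ Φ : OpenPartialHomeomorph (ℂ × W) (ℂ × W), Φ.source = O ∧ Φ.target = O' ∧
      ∀ p, Φ p = (twaR m ρ (η (τ p.2)) p.1, p.2) := by
  have hb : ∀ p ∈ O', (twaR m ρ (-η (τ p.2)) p.1, p.2) ∈ O := fun p hp => by
    rw [h]
    simpa only [twa_right] using hp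
  refine ⟨{ toFun := fun p => (twaR m ρ (η (τ p.2)) p.1, p.2)
            invFun := fun p => (twaR m ρ (-η (τ p.2)) p.1, p.2)
            source := O
            target := O'
            map_source' := fun p hp => (h p).1 hp
            map_target' := hb
            left_inv' := fun p _ => Prod.ext twa_left rfl
            right_inv' := fun p _ => Prod.ext twa_right rfl
            open_source := hO
            open_target := hO'
            continuousOn_toFun := fun p hp => ContinuousAt.continuousWithinAt ?_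
            continuousOn_invFun := fun p hp => ContinuousAt.continuousWithinAt ?_ },
    rfl, rfl, fun _ => rfl⟩
  · exact (twa_contAt continuous_fst (hτ.comp continuous_snd) hη he (hS p hp)).prodMk
      continuousAt_snd
  · refine (twa_contAt (η := fun t => -η t) (δ := δ) continuous_fst (hτ.comp continuous_snd) hη.neg
      (fun t ht => by rw [ee_neg, he t ht, map_one]) ?_).prodMk continuousAt_snd
    have := hS _ (hb p hp)
    rwa [twa_norm] at this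

lemma twa_closed {W : Type} [TopologicalSpace W] {τ : W → ℝ} (hτ : Continuous τ) :
    IsClosed {p : ℂ × W | ‖p.1 - m‖ = ρ ∧ τ p.2 ≤ δ / 2} :=
  (isClosed_eq (by fun_prop) continuous_const).inter
    (isClosed_le (hτ.comp continuous_snd) continuous_const)

lemma twa_image {ι : Type} (B : Br ι) (hδ' : δ < 1 / 4)
    (hB : ∀ i t, twaD t ≤ δ / 2 → ‖B.b i t - m‖ ≠ ρ) :
    B.prT '' (B.domT \ (B.domT \ {p : CC | ‖p.1 - m‖ = ρ ∧ twaD p.2.im ≤ δ / 2})) =
      B.prC '' {p : MM | ‖p.1 - m‖ = ρ ∧ |p.2.2 - 1 / 2| ≤ δ / 2} := by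
  refine Subset.antisymm ?_ ?_
  · rintro _ ⟨p, ⟨hp, hq⟩, rfl⟩
    have hS : ‖p.1 - m‖ = ρ ∧ twaD p.2.im ≤ δ / 2 := by
      by_contra hS
      exact hq ⟨hp, hS⟩
    obtain ⟨s, n, h1, -, h3⟩ := twa_red p.2.im
    refine ⟨(cj (-n) p.1, ((sgn (-n) * p.2.re : ℝ) : UnitAddCircle), s),
      ⟨by rw [twa_norm_cj]; exact hS.1, h3 ▸ hS.2⟩, ?_⟩
    rw [B.prC_eq, ← B.prT_smul ⟨0, -n⟩ p, actT_def]
    congr 2
    refine Complex.ext (by simp) ?_
    simp [h1]
  · rintro _ ⟨p, ⟨h1, h2⟩, rfl⟩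
    have h3 : twaD p.2.2 ≤ δ / 2 := by rw [twa_abs (by linarith)]; exact h2
    refine ⟨(p.1, ⟨(AddCircle.equivIco 1 0 p.2.1 : ℝ), p.2.2⟩), ⟨fun i hi => ?_, fun h => ?_⟩, rfl⟩
    · exact hB i p.2.2 h3 (by rw [← h1]; exact congrArg (fun y => ‖y - (m : ℂ)‖) hi.symm)
    · exact h.2 ⟨h1, h3⟩

lemma twa_nrm_cont : Continuous (nrm m ρ) := by
  unfold nrm
  fun_prop

lemma twa_le_nrm (p : MM) : ‖p.1 - m‖ / ρ ≤ nrm m ρ p := le_max_left _ _

lemma twa_c1 : Continuous fun p : MM => ‖p.1 - m‖ := by fun_prop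

lemma twa_c2 : Continuous fun p : MM => |p.2.2 - 1 / 2| := by fun_prop

lemma twa_domG_open : IsOpen (domG m ρ δ) :=
  (isOpen_lt twa_c1 continuous_const).and
    ((isOpen_lt twa_c2 continuous_const).and (isOpen_lt continuous_const twa_nrm_cont))

lemma twa_nrm_congr {p q : MM} (h : ‖p.1 - m‖ = ‖q.1 - m‖) (h' : p.2 = q.2) :
    nrm m ρ p = nrm m ρ q := by
  unfold nrm
  rw [h, h']

lemma twa_compact :
    IsCompact {p : MM | ‖p.1 - m‖ ≤ ρ ∧ |p.2.2 - 1 / 2| ≤ δ / 2 ∧ 1 - δ / 2 ≤ nrm m ρ p} := by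
  refine ((isCompact_closedBall (m : ℂ) ρ).prod
    (isCompact_univ.prod (isCompact_closedBall (1 / 2 : ℝ) (δ / 2)))).of_isClosed_subset
    ((isClosed_le twa_c1 continuous_const).and ((isClosed_le twa_c2 continuous_const).and
      (isClosed_le continuous_const twa_nrm_cont))) fun p hp => ⟨?_, trivial, ?_⟩
  · exact mem_closedBall_iff_norm.2 hp.1
  · exact mem_closedBall_iff_norm.2 hp.2.1

end aux

theorem rel_twist_core {ι : Type} [Finite ι] (A A' : Br ι) {m ρ δ : ℝ} {i₁ i₂ : ι} (hρ : 0 < ρ)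
    (hδ : 0 < δ) (hδ' : δ < 1 / 4) (hd : ∀ i, δ < |‖A.b i (1 / 2) - m‖ - ρ|) {e : MM → A.X}
    (he : LO e (domG m ρ δ)) (hi : InjOn e (domG m ρ δ))
    (hp : ∀ p ∈ domG m ρ δ, ρ - δ < ‖p.1 - m‖ → e p = A.prC p) {η : ℝ → ℝ} (hη : Continuous η)
    (ho : ∀ t, η (t + 1) = -η t)
    (e0 : ∀ t ∈ Icc (0 : ℝ) 1, δ / 2 ≤ |t - 1 / 2| → η t = 1 ∨ η t = -1)
    (hc : ∀ i, ∀ t ∈ Icc (1 / 4 : ℝ) (3 / 4), A.b i t = A.b i (1 / 2))
    (h1 : ∀ i, i = i₁ ∨ i = i₂ → ‖A.b i (1 / 2) - m‖ < ρ ∧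
      ∀ t, A'.b i t = m + ee (η t) * (A.b i t - m))
    (h2 : ∀ i, i ≠ i₁ → i ≠ i₂ → ρ < ‖A.b i (1 / 2) - m‖ ∧ ∀ t, A'.b i t = A.b i t) :
    BRel A A' := by
  classical
  have hee : ∀ t, δ / 2 ≤ twaD t → ee (η t) = 1 := fun t => twa_ee ho e0
  have hn : ∀ i t, twaD t ≤ 1 / 4 → ‖A.b i t - m‖ = ‖A.b i (1 / 2) - m‖ := fun i t ht => by
    obtain ⟨s, n, rfl, -, h3⟩ := twa_red t
    have h4 := abs_le.1 (h3 ▸ ht)
    rw [A.b_int, twa_norm_cj, hc i s ⟨by linarith, by linarith⟩]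
  have hb : ∀ i t, A'.b i t = twaR m ρ (η t) (A.b i t) := fun i t => by
    by_cases hi' : i = i₁ ∨ i = i₂
    · rw [(h1 i hi').2]
      rcases le_total (δ / 2) (twaD t) with ht | ht
      · rw [twa_one (hee t ht), hee t ht]; ring
      · rw [twa_in (by rw [hn i t (by linarith)]; exact (h1 i hi').1)]
    · have h3 := h2 i (fun h => hi' (.inl h)) fun h => hi' (.inr h)
      rw [h3.2]
      rcases le_total (δ / 2) (twaD t) with ht | ht
      · rw [twa_one (hee t ht)]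
      · rw [twa_out (by rw [hn i t (by linarith)]; exact h3.1.le)]
  have hfar : ∀ i t (y : ℂ), twaD t ≤ 1 / 4 → δ - |‖y - m‖ - ρ| < ‖y - A.b i t‖ := by
    intro i t y ht
    have h3 := hd i
    rw [← hn i t ht] at h3
    have h4 := abs_norm_sub_norm_le (A.b i t - m) (y - m)
    rw [sub_sub_sub_cancel_right, norm_sub_rev (A.b i t) y] at h4
    have h5 := abs_sub_le ‖A.b i t - m‖ ‖y - m‖ ρ
    linarith
  have hT : ∀ p : CC, p ∈ A.domT ↔ (twaR m ρ (η p.2.im) p.1, p.2) ∈ A'.domT := fun p => by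
    refine forall_congr' fun i => not_congr ⟨fun h => ?_, fun h => ?_⟩
    · rw [hb, ← h]
    · have h3 : twaR m ρ (η p.2.im) p.1 = twaR m ρ (η p.2.im) (A.b i p.2.im) := h.trans (hb _ _)
      rw [← twa_left (m := m) (ρ := ρ) (c := η p.2.im) (y := p.1), h3, twa_left]
  have hSc : IsClosed {p : CC | ‖p.1 - m‖ = ρ ∧ twaD p.2.im ≤ δ / 2} :=
    twa_closed (τ := fun v : ℂ => twaD v.im) (twa_cont.comp continuous_im)
  obtain ⟨Φ, hΦs, hΦt, hΦ⟩ := twa_oph (m := m) (ρ := ρ) continuous_im hη hee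
    (A.isOpen_domT.sdiff hSc) (A'.isOpen_domT.sdiff hSc)
    (fun p => and_congr (hT p) (by simp only [mem_ofPred_eq, twa_norm])) fun p hp => hp.2
  have hm : 0 < |m| + ρ := by positivity
  obtain ⟨r, hr, hr1, hr2, hr3⟩ : ∃ r > 0, r ≤ δ / 2 ∧ r ≤ A.eps ∧ r ≤ (|m| + ρ)⁻¹ :=
    ⟨min (δ / 2) (min A.eps (|m| + ρ)⁻¹), lt_min (by positivity) (lt_min A.eps_pos (by positivity)),
      min_le_left _ _, (min_le_right _ _).trans (min_le_left _ _),
      (min_le_right _ _).trans (min_le_right _ _)⟩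
  obtain ⟨f, hfs, hft, hf⟩ := A.extend A' Φ (hΦs ▸ sdiff_subset) (hΦt ▸ sdiff_subset)
    (fun g p hp => by
      rw [hΦs] at hp ⊢
      refine ⟨⟨(A.smul_domT g).2 hp.1, fun h => hp.2 ?_⟩, ?_⟩
      · simpa only [actT_def, mem_ofPred_eq, twa_norm_cj, twa_int] using h
      · simp only [hΦ, actT_def, odd_int ho, twa_cj]) hr
    (fun i t => if i = i₁ ∨ i = i₂ then η t else 0)
    (fun i => by split_ifs; exacts [hη, continuous_const])
    (fun i t => by split_ifs; exacts [ho t, neg_zero.symm])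
    (fun i p hq => by
      have h3 : ‖p.1 - A.b i p.2.im‖ < r := hq.2
      refine ⟨hΦs ▸ ⟨A.near_domT hr2 hq, fun h => ?_⟩, ?_⟩
      · have h4 := hfar i p.2.im p.1 (by linarith [h.2])
        rw [h.1, sub_self, abs_zero] at h4
        linarith
      rw [hΦ]
      refine Prod.ext ?_ rfl
      rcases le_total (δ / 2) (twaD p.2.im) with ht | ht
      · have h5 : ee (if i = i₁ ∨ i = i₂ then η p.2.im else 0) = 1 := by
          split_ifs
          exacts [hee _ ht, ee_zero]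
        simp only [hb, twa_one (hee _ ht), h5]
        ring
      have h4 := abs_norm_sub_norm_le (p.1 - m) (A.b i p.2.im - m)
      rw [sub_sub_sub_cancel_right, hn i _ (by linarith)] at h4
      have h5 := abs_le.1 h4
      have h6 := hd i
      by_cases hi' : i = i₁ ∨ i = i₂
      · rw [abs_of_neg (by linarith [(h1 i hi').1])] at h6
        simp only [if_pos hi', (h1 i hi').2, twa_in (show ‖p.1 - m‖ < ρ by linarith)]
        ring
      · have h7 := h2 i (fun h => hi' (.inl h)) fun h => hi' (.inr h)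
        rw [abs_of_pos (by linarith [h7.1])] at h6
        simp only [if_neg hi', h7.2, twa_out (show ρ ≤ ‖p.1 - m‖ by linarith), ee_zero]
        ring)
    (fun p hq => by
      have h3 : 0 < ‖p.1‖⁻¹ := hq.1
      have h4 : ‖p.1‖⁻¹ < (|m| + ρ)⁻¹ := lt_of_lt_of_le hq.2 hr3
      have h5 := (inv_lt_inv₀ (inv_pos.1 h3) hm).1 h4
      have h6 := norm_sub_norm_le p.1 (m : ℂ)
      rw [norm_real, Real.norm_eq_abs] at h6
      refine ⟨hΦs ▸ ⟨A.near_domT hr2 hq, fun h => by linarith [h.1]⟩, ?_⟩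
      rw [hΦ, twa_out (by linarith)])
  have hKc : IsClosed {p : MM | ‖p.1 - m‖ = ρ ∧ |p.2.2 - 1 / 2| ≤ δ / 2} :=
    twa_closed (τ := fun v : UnitAddCircle × ℝ => |v.2 - 1 / 2|) (by fun_prop)
  have hD : ∀ p q : MM, ‖p.1 - m‖ = ‖q.1 - m‖ → p.2 = q.2 →
      (p ∈ domG m ρ δ ↔ q ∈ domG m ρ δ) := fun p q h h' => by
    simp only [domG, mem_ofPred_eq, h, h', twa_nrm_congr h h']
  have hab : ∀ t : ℝ, |t - 1 / 2| < δ → twaD t = |t - 1 / 2| := fun t ht =>
    twa_abs (by linarith)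
  obtain ⟨ψ, hψs, hψt, hψ⟩ := twa_oph (m := m) (ρ := ρ) (W := UnitAddCircle × ℝ) continuous_snd hη
    hee (twa_domG_open.sdiff hKc) (twa_domG_open.sdiff hKc)
    (fun p => and_congr (hD _ _ twa_norm.symm rfl) (by simp only [mem_ofPred_eq, twa_norm]))
    fun p hp h => hp.2 ⟨h.1, hab _ hp.1.2.1 ▸ h.2⟩
  obtain ⟨φ, hφ1, hφ2, hφ3, hφ4⟩ := belt m hρ (σ := 1 - δ / 2) (by linarith) (by linarith) hη
  obtain ⟨d, hd0, hd1, hd2⟩ : ∃ d > 0, d ≤ δ / 2 ∧ d ≤ δ / 2 * ρ :=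
    ⟨_, lt_min (by positivity) (by positivity), min_le_left _ _, min_le_right _ _⟩
  have hUo : IsOpen {p : MM | |‖p.1 - m‖ - ρ| < d ∧ |p.2.2 - 1 / 2| < δ} :=
    (isOpen_lt (twa_c1.sub continuous_const).abs continuous_const).and
      (isOpen_lt twa_c2 continuous_const)
  have hUD : {p : MM | |‖p.1 - m‖ - ρ| < d ∧ |p.2.2 - 1 / 2| < δ} ⊆ domG m ρ δ := fun p hq => by
    have h3 := abs_lt.1 hq.1
    refine ⟨by linarith, hq.2, lt_of_lt_of_le ?_ (twa_le_nrm p)⟩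
    rw [lt_div_iff₀ hρ]
    nlinarith
  have hU' : ∀ p : MM, |‖p.1 - m‖ - ρ| < d → |p.2.2 - 1 / 2| < δ → ∀ i, p.1 ≠ A'.b i p.2.2 := by
    intro p h3 h4 i h5
    have h6 := hd i
    rw [← hn i p.2.2 (by rw [hab _ h4]; linarith), ← twa_norm (ρ := ρ) (c := η p.2.2), ← hb,
      ← h5] at h6
    linarith
  have hKU : {p : MM | ‖p.1 - m‖ = ρ ∧ |p.2.2 - 1 / 2| ≤ δ / 2} ⊆
      {p : MM | |‖p.1 - m‖ - ρ| < d ∧ |p.2.2 - 1 / 2| < δ} := fun p hq =>
    ⟨by rw [hq.1, sub_self, abs_zero]; exact hd0, by linarith [hq.2]⟩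
  have hlt : ∀ p : MM, nrm m ρ p < 1 → ‖p.1 - m‖ < ρ := fun p h =>
    (div_lt_one hρ).1 ((twa_le_nrm p).trans_lt h)
  have := A.t2
  have := A'.t2
  have hinj : InjOn A'.prC {p : MM | |‖p.1 - m‖ - ρ| < d ∧ |p.2.2 - 1 / 2| < δ} :=
    A'.injOn_prC.mono fun p hq => by
      have h3 := abs_lt.1 hq.2
      exact ⟨hU' p hq.1 hq.2, by linarith, by linarith⟩
  refine glue he hi (A'.lo_prC.mono hUo fun p hq => hU' p hq.1 hq.2) hinj
    (twa_compact (m := m) (ρ := ρ) (δ := δ)) (fun p hq => ?_)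
    (fun p hq => ?_) hKU hUD f ?_ ?_ ψ hψs hψt (fun p _ => ?_) (fun p hq => ?_) φ (fun p => ?_)
    fun p hq => ?_
  · refine ⟨hq.1.le, hq.2, le_trans ?_ (twa_le_nrm p)⟩
    rw [hq.1, div_self hρ.ne']
    linarith
  · exact ⟨by linarith [hq.1], by linarith [hq.2.1], by linarith [hq.2.2]⟩
  · rw [hfs, hΦs, twa_image A hδ' fun i t ht h => ?_]
    · exact congrArg _ (image_congr fun p hq =>
        (hp p (hUD (hKU hq)) (by linarith [hq.1])).symm)
    · have h3 := hd i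
      rw [← hn i t (by linarith), h, sub_self, abs_zero] at h3
      linarith
  · rw [hft, hΦt, twa_image A' hδ' fun i t ht h => ?_]
    have h3 := hd i
    rw [← hn i t (by linarith), ← twa_norm (ρ := ρ) (c := η t), ← hb, h, sub_self, abs_zero] at h3
    linarith
  · simp only [hψ, mem_ofPred_eq, twa_norm]
  · have h3 := abs_lt.1 hq.1.1
    have h4 := hab _ hq.1.2
    have h5 : ∀ i, r ≤ ‖p.1 - A.b i p.2.2‖ := fun i => by
      have := hfar i p.2.2 p.1 (by linarith [hq.1.2])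
      linarith [hq.1.1]
    rw [hp p (hUD hq.1) (by linarith), hψ]
    refine (hf (p.1, ⟨(AddCircle.equivIco 1 0 p.2.1 : ℝ), p.2.2⟩)
      (hΦs ▸ ⟨fun i h => ?_, fun h => hq.2 ⟨h.1, h4 ▸ h.2⟩⟩) h5).trans (by rw [hΦ]; rfl)
    have h6 := h5 i
    rw [show p.1 = A.b i p.2.2 from h, sub_self, norm_zero] at h6
    linarith
  · rcases le_or_gt 1 (nrm m ρ p) with h | h
    · rw [hφ3 p (.inl h)]
    · have h3 := hlt p h
      have h4 := hlt (φ p) (by rwa [hφ2])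
      simp only [domG, mem_ofPred_eq, hφ1, hφ2]
      exact and_congr_left' ⟨fun _ => by linarith, fun _ => by linarith⟩
  · rw [hψ]
    by_cases h3 : ‖p.1 - m‖ ≤ ρ
    swap
    · rw [twa_out (le_of_not_ge h3), hφ3 p (.inl (le_trans ?_ (twa_le_nrm p)))]
      exact (one_le_div hρ).2 (le_of_not_ge h3)
    by_cases h4 : |p.2.2 - 1 / 2| ≤ δ / 2
    swap
    · have h5 := abs_lt.1 hq.1.2.1
      rw [twa_one (hee _ (by rw [hab _ hq.1.2.1]; exact le_of_not_ge h4)),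
        hφ3 p (.inr (e0 _ ⟨by linarith, by linarith⟩ (le_of_not_ge h4)))]
    have h5 : nrm m ρ p < 1 - δ / 2 := lt_of_not_ge fun h => hq.2 ⟨h3, h4, h⟩
    rw [hφ4 p h5.le, twa_in (hlt p (by linarith))]

end Pool.Agent.Lib.MP_45bb13_gt
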