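import Pool.Agent.Lib.MP_45bb13_gt.Iso
import Pool.Agent.Lib.MP_45bb13_gt.TwistA
import Pool.Agent.Lib.MP_45bb13_gt.Emb

/-! A double full twist of two strands does not change the manifold. -/

set_option linter.unusedSectionVars false

namespace Pool.Agent.Lib.MP_45bb13_gt

open Set Filter Topology Complex
open scoped ComplexConjugate

open Classical in
/-- Two strands rotated about `m` by `c` turns. -/
noncomputable def twist_b {ι : Type} (A : Br ι) (m : ℝ) (i₁ i₂ i : ι) (c t : ℝ) : ℂ :=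
  if i = i₁ ∨ i = i₂ then m + ee c * (A.b i t - m) else A.b i t

lemma twist_cont {ι Z : Type} [TopologicalSpace Z] (A : Br ι) (m : ℝ) (i₁ i₂ i : ι) {c t : Z → ℝ}
    (hc : Continuous c) (ht : Continuous t) :
    Continuous fun z => twist_b A m i₁ i₂ i (c z) (t z) := by
  have h : Continuous fun z => A.b i (t z) := (A.cont i).comp ht
  have h' : Continuous fun z => ee (c z) := continuous_ee.comp hc
  unfold twist_b
  split_ifs
  · exact continuous_const.add (h'.mul (h.sub continuous_const))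
  · exact h

lemma twist_eqv {ι : Type} (A : Br ι) (m : ℝ) (i₁ i₂ i : ι) (c t : ℝ) :
    twist_b A m i₁ i₂ i (-c) (t + 1) = conj (twist_b A m i₁ i₂ i c t) := by
  unfold twist_b
  split_ifs
  · rw [A.eqv, ee_neg, map_add, map_mul, map_sub, conj_ofReal]
  · exact A.eqv i t

lemma twist_inj {ι : Type} (A : Br ι) {m ρ : ℝ} {i₁ i₂ : ι} {ζ : ℝ → ℝ}
    (ho : ∀ t, ζ (t + 1) = -ζ t) {ε : ℝ} (hε : ε = 1 ∨ ε = -1)
    (e0 : ∀ t ∈ Icc (0 : ℝ) (1 / 4), ζ t = -ε) (e1 : ∀ t ∈ Icc (3 / 4 : ℝ) 1, ζ t = ε)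
    (hc : ∀ i, ∀ t ∈ Icc (1 / 4 : ℝ) (3 / 4), A.b i t = A.b i (1 / 2))
    (h1 : ∀ i, i = i₁ ∨ i = i₂ → ‖A.b i (1 / 2) - m‖ < ρ)
    (h2 : ∀ i, i ≠ i₁ → i ≠ i₂ → ρ < ‖A.b i (1 / 2) - m‖) (t : ℝ) (i j : ι)
    (h : twist_b A m i₁ i₂ i (ζ t) t = twist_b A m i₁ i₂ j (ζ t) t) : i = j := by
  have he : ∀ k u, twist_b A m i₁ i₂ k (ζ (u + 1)) (u + 1) = conj (twist_b A m i₁ i₂ k (ζ u) u) :=
    fun k u => by rw [ho, twist_eqv]
  have hf : ∀ k, twist_b A m i₁ i₂ k (ζ t) t =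
      cj ⌊t⌋ (twist_b A m i₁ i₂ k (ζ (Int.fract t)) (Int.fract t)) := fun k => by
    have := eqv_int (f := fun u => twist_b A m i₁ i₂ k (ζ u) u) (he k) (Int.fract t) ⌊t⌋
    rwa [Int.fract_add_floor] at this
  rw [hf, hf] at h
  have h3 := congrArg (cj ⌊t⌋) h
  rw [cj_cj, cj_cj] at h3
  have u0 := Int.fract_nonneg t
  have u1 := (Int.fract_lt_one t).le
  generalize Int.fract t = u at h3 u0 u1
  have hone : ∀ c : ℝ, c = 1 ∨ c = -1 → ∀ k, twist_b A m i₁ i₂ k c u = A.b k u := by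
    intro c hc k
    have : ee c = 1 := by
      rcases hc with rfl | rfl
      · exact ee_one
      · rw [ee_neg, ee_one, map_one]
    unfold twist_b
    split_ifs
    · rw [this, one_mul, add_sub_cancel]
    · rfl
  rcases le_total u (1 / 4) with a | a
  · have hε' : -ε = 1 ∨ -ε = -1 := by rcases hε with rfl | rfl <;> simp
    rw [e0 u ⟨u0, a⟩, hone _ hε', hone _ hε'] at h3
    exact A.inj u i j h3
  rcases le_total (3 / 4) u with b | b
  · rw [e1 u ⟨b, u1⟩, hone _ hε, hone _ hε] at h3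
    exact A.inj u i j h3
  have hn : ∀ k k', (k = i₁ ∨ k = i₂) → ¬ (k' = i₁ ∨ k' = i₂) →
      m + ee (ζ u) * (A.b k u - m) ≠ A.b k' u := fun k k' hk hk' e => by
    have x1 := h1 k hk
    have x2 := h2 k' (not_or.1 hk').1 (not_or.1 hk').2
    rw [← hc k' u ⟨a, b⟩, ← e, add_sub_cancel_left, norm_mul, norm_ee, one_mul,
      hc k u ⟨a, b⟩] at x2
    exact lt_asymm x1 x2
  unfold twist_b at h3
  split_ifs at h3 with p q q
  · exact A.inj u i j (sub_left_injective (mul_left_cancel₀ (ee_ne_zero _) (add_left_cancel h3)))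
  · exact absurd h3 (hn i j p q)
  · exact absurd h3.symm (hn j i q p)
  · exact A.inj u i j h3

lemma twist_cos {δ t : ℝ} (h0 : 0 ≤ t) (hδ : 0 < δ) (h1 : t ≤ 1 / 2 - δ / 2) :
    1 ≤ δ⁻¹ * Real.cos (Real.pi * t) := by
  have hp := Real.pi_pos
  have h2 := Real.mul_le_sin (x := Real.pi / 2 - Real.pi * t) (by nlinarith) (by nlinarith)
  rw [Real.sin_pi_div_two_sub] at h2
  have h3 : 2 / Real.pi * (Real.pi / 2 - Real.pi * t) = 1 - 2 * t := by field_simp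
  rw [le_inv_mul_iff₀ hδ]
  linarith

/-- An odd function that changes sign in a thin slice. -/
lemma twist_exists {δ : ℝ} (hδ : 0 < δ) (ε : ℝ) : ∃ ζ : ℝ → ℝ, Continuous ζ ∧
    (∀ t, ζ (t + 1) = -ζ t) ∧ (∀ t, 0 ≤ t → t ≤ 1 / 2 - δ / 2 → ζ t = -ε) ∧
    ∀ t, t ≤ 1 → 1 / 2 + δ / 2 ≤ t → ζ t = ε := by
  refine ⟨fun t => -ε * max (-1) (min 1 (δ⁻¹ * Real.cos (Real.pi * t))), by fun_prop,
    fun t => ?_, fun t h0 h1 => ?_, fun t h0 h1 => ?_⟩
  · have : ∀ x : ℝ, max (-1) (min 1 (-x)) = -max (-1) (min 1 x) := fun x => by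
      simp only [max_def, min_def]
      split_ifs <;> linarith
    simp only [mul_add, mul_one, Real.cos_add_pi, mul_neg, this]
  · simp only [min_eq_left (twist_cos h0 hδ h1)]
    norm_num
  · have h2 := twist_cos (t := 1 - t) (by linarith) hδ (by linarith)
    rw [mul_sub, mul_one, Real.cos_pi_sub, mul_neg] at h2
    have h3 : max (-1) (min 1 (δ⁻¹ * Real.cos (Real.pi * t))) = -1 :=
      max_eq_left ((min_le_right _ _).trans (by linarith))
    simp only [h3, mul_neg, mul_one, neg_neg]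

theorem rel_twist {ι : Type} [Finite ι] (A A' : Br ι) {m ρ : ℝ} {i₁ i₂ : ι} (h12 : i₁ ≠ i₂)
    {η : ℝ → ℝ} (hη : Continuous η) (ho : ∀ t, η (t + 1) = -η t)
    {ε : ℝ} (hε : ε = 1 ∨ ε = -1) (e0 : ∀ t ∈ Icc (0 : ℝ) (1 / 4), η t = -ε)
    (e1 : ∀ t ∈ Icc (3 / 4 : ℝ) 1, η t = ε)
    (hc : ∀ i, ∀ t ∈ Icc (1 / 4 : ℝ) (3 / 4), A.b i t = A.b i (1 / 2))
    (h1 : ∀ i, i = i₁ ∨ i = i₂ → ‖A.b i (1 / 2) - m‖ < ρ ∧
      ∀ t, A'.b i t = m + ee (η t) * (A.b i t - m))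
    (h2 : ∀ i, i ≠ i₁ → i ≠ i₂ → ρ < ‖A.b i (1 / 2) - m‖ ∧ ∀ t, A'.b i t = A.b i t) :
    BRel A A' := by
  have k1 := fun i hi => (h1 i hi).1
  have k2 := fun i hi hi' => (h2 i hi hi').1
  obtain ⟨δ, hδ, hδ', hd, e, he, hi, hp⟩ :=
    A.exists_emb h12 hc (k1 i₁ (Or.inl rfl)) (k1 i₂ (Or.inr rfl)) k2
  obtain ⟨ζ, zc, zo, z0, z1⟩ := twist_exists hδ ε
  have z0' : ∀ t ∈ Icc (0 : ℝ) (1 / 4), ζ t = -ε := fun t ht => z0 t ht.1 (by linarith [ht.2])
  have z1' : ∀ t ∈ Icc (3 / 4 : ℝ) 1, ζ t = ε := fun t ht => z1 t ht.2 (by linarith [ht.1])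
  let A'' : Br ι := ⟨fun i t => twist_b A m i₁ i₂ i (ζ t) t,
    fun i => twist_cont A m i₁ i₂ i zc continuous_id, fun i t => by rw [zo, twist_eqv],
    twist_inj A zo hε z0' z1' hc k1 k2⟩
  have r1 : BRel A A'' := by
    refine rel_twist_core A A'' (i₁ := i₁) (i₂ := i₂)
      ((norm_nonneg _).trans_lt (k1 i₁ (Or.inl rfl))) hδ hδ' hd he hi hp zc zo
      (fun t ht h => ?_) hc (fun i h => ⟨k1 i h, fun t => if_pos h⟩)
      fun i h h' => ⟨k2 i h h', fun t => if_neg (not_or.2 ⟨h, h'⟩)⟩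
    rcases le_abs.1 h with h | h
    · rw [z1 t ht.2 (by linarith)]
      exact hε
    · rw [z0 t ht.1 (by linarith)]
      rcases hε with rfl | rfl <;> simp
  refine r1.trans (rel_htpy A'' A'
    (fun i p => twist_b A m i₁ i₂ i ((1 - p.1) * ζ p.2 + p.1 * η p.2) p.2)
    (fun i => twist_cont A m i₁ i₂ i (by fun_prop) continuous_snd) (fun i t => ?_) (fun i t => ?_)
    (fun i s _ t => ?_) fun s _ t i j h => ?_)
  · simp only [sub_zero, one_mul, zero_mul, add_zero]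
    rfl
  · simp only [sub_self, one_mul, zero_mul, zero_add, twist_b]
    split_ifs with h
    · exact ((h1 i h).2 t).symm
    · exact ((h2 i (not_or.1 h).1 (not_or.1 h).2).2 t).symm
  · simp only
    rw [← twist_eqv, zo, ho]
    congr 1
    ring
  · refine twist_inj A (ζ := fun t => (1 - s) * ζ t + s * η t) (fun t => ?_) hε (fun t ht => ?_)
      (fun t ht => ?_) hc k1 k2 t i j h
    · simp only [zo, ho]
      ring
    · simp only [z0' t ht, e0 t ht]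
      ring
    · simp only [z1' t ht, e1 t ht]
      ring

end Pool.Agent.Lib.MP_45bb13_gt
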