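import Pool.Agent.Lib.MP_45bb13_gt.XTop

/-! The cyclic action. -/

set_option linter.unusedSectionVars false

namespace Pool.Agent.Lib.MP_45bb13_gt

open Set Filter Topology Complex
open scoped ComplexConjugate ContDiff

/-- Translation in the time direction. -/
noncomputable def xact_sh (s : ℝ) (p : CC) : CC := (p.1, p.2 + s * I)

lemma xact_sh_im (s : ℝ) (p : CC) : (xact_sh s p).2.im = p.2.im + s := by simp [xact_sh]

lemma xact_sh_smul (s : ℝ) (g : SD ℤ) (p : CC) : xact_sh s (g • p) = g • xact_sh s p := by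
  rw [actT_def, actT_def]
  refine Prod.ext rfl (Complex.ext ?_ ?_)
  · simp [xact_sh]
  · simp [xact_sh]; ring

lemma xact_sh_add (s s' : ℝ) (p : CC) : xact_sh (s + s') p = xact_sh s (xact_sh s' p) := by
  refine Prod.ext rfl ?_
  simp only [xact_sh]
  push_cast
  ring

lemma xact_sh_two (p : CC) : xact_sh 2 p = (⟨0, 2⟩ : SD ℤ) • p := by
  rw [actT_def]
  refine Prod.ext ?_ (Complex.ext ?_ ?_)
  · simp [xact_sh, cj]
  · simp [xact_sh, sgn]
  · simp [xact_sh]

lemma xact_sh_contDiff (s : ℝ) : ContDiff ℝ ∞ (xact_sh s) :=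
  contDiff_fst.prodMk (contDiff_snd.add contDiff_const)

/-- The linear maps that describe the circle action in the charts of the cap. -/
noncomputable def xact_lin (θ : ℝ) : NA → CC → CC
  | .k, p => (p.1, ee θ * p.2)
  | .l _, p => (ee (-θ) * p.1, ee (2 * θ) * p.2)
  | .m _, p => (ee θ * p.1, p.2)
  | .s _, p => (p.1, ee θ * p.2)

lemma xact_lin_contDiff (θ : ℝ) (a : NA) : ContDiff ℝ ∞ (xact_lin θ a) := by
  cases a
  · exact contDiff_fst.prodMk (contDiff_const.mul contDiff_snd)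
  · exact (contDiff_const.mul contDiff_fst).prodMk (contDiff_const.mul contDiff_snd)
  · exact (contDiff_const.mul contDiff_fst).prodMk contDiff_snd
  · exact contDiff_fst.prodMk (contDiff_const.mul contDiff_snd)

lemma xact_lin_dom (θ : ℝ) (a : NA) {p : CC} (hp : p ∈ NP.dom a) : xact_lin θ a p ∈ NP.dom a := by
  cases a with
  | k =>
    rcases hp with h | h
    · exact .inl (mul_ne_zero (ee_ne_zero _) h)
    · exact .inr h
  | l k =>
    have e : (ee (-θ) * p.1) ^ 2 * (ee (2 * θ) * p.2) = p.1 ^ 2 * p.2 := by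
      have h1 := ee_mul_neg θ
      rw [two_mul, ee_add]
      linear_combination (p.1 ^ 2 * p.2 * (ee θ * ee (-θ) + 1)) * h1
    show box ((ee (-θ) * p.1) ^ 2 * (ee (2 * θ) * p.2))
    rw [e]
    exact hp
  | m k => exact hp
  | s σ =>
    show (p.1, st σ (ee θ * p.2)) ∈ domS
    rw [← rS_st]
    exact hp

lemma xact_lin_map (θ : ℝ) (a : NA) {p : CC} (hp : p ∈ NP.dom a) :
    NP.map a (xact_lin θ a p) = rot θ (NP.map a p) := by
  cases a with
  | k => exact (rot_kap θ hp).symm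
  | l k => exact (rot_lam θ k p).symm
  | m k => exact (rot_mu θ k hp).symm
  | s σ =>
    show Sg (p.1, st σ (ee θ * p.2)) = rot θ (Sg (p.1, st σ p.2))
    rw [← rS_st]
    exact (rot_Sg θ hp).symm

namespace Br

variable {ι : Type} (A : Br ι)

/-- The braid has period `s`. -/
def xactPer (s : ℝ) : Prop := ∀ i t, A.b i (t + s) = A.b i t

/-- The translation of the closed manifold. -/
noncomputable def xactSig (s : ℝ) : A.X → A.X
  | .inl q => A.prT (xact_sh s q.out.1)
  | .inr a => A.jj a.1 (rot (s / 2) a.2.1)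

variable {A} {s s' : ℝ}

lemma xactPer.neg (h : A.xactPer s) : A.xactPer (-s) := fun i t => by
  rw [← h i (t + -s), neg_add_cancel_right]

lemma xactPer.add (h : A.xactPer s) (h' : A.xactPer s') : A.xactPer (s + s') := fun i t => by
  rw [← add_assoc, h', h]

lemma xactPer.int (h : A.xactPer s) (m : ℤ) : A.xactPer (m * s) := by
  induction m with
  | zero => intro i t; simp
  | succ n ih =>
    have := ih.add h
    rwa [show ((n : ℤ) : ℝ) * s + s = ((n + 1 : ℤ) : ℝ) * s by push_cast; ring] at this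
  | pred n ih =>
    have := ih.add h.neg
    rwa [show ((-n : ℤ) : ℝ) * s + -s = ((-n - 1 : ℤ) : ℝ) * s by push_cast; ring] at this

lemma xactPer.domT (h : A.xactPer s) {p : CC} (hp : p ∈ A.domT) : xact_sh s p ∈ A.domT :=
  fun i => by
    rw [xact_sh_im, h]
    exact hp i

lemma xactSig_prT (s : ℝ) {p : CC} (hp : p ∈ A.domT) :
    A.xactSig s (A.prT p) = A.prT (xact_sh s p) := by
  have e : A.prT p = .inl (Quotient.mk A.tS ⟨p, hp⟩) := dif_pos hp
  obtain ⟨g, hg⟩ : ∃ g : SD ℤ, g • (Quotient.mk A.tS ⟨p, hp⟩).out.1 = p :=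
    Quotient.exact (Quotient.out_eq (Quotient.mk A.tS ⟨p, hp⟩))
  rw [e]
  show A.prT (xact_sh s (Quotient.mk A.tS ⟨p, hp⟩).out.1) = _
  rw [← A.prT_smul g, ← xact_sh_smul, hg]

lemma xactSig_jj0 (s : ℝ) (k : Option ι) {n : N} (hn : wabs n = 0) :
    A.xactSig s (A.jj k n) = A.jj k (rot (s / 2) n) := by
  have e : A.jj k n = .inr (k, ⟨n, hn⟩) := dif_pos hn
  rw [e]
  rfl

lemma xactPer.loc (h : A.xactPer s) (k : Option ι) (t r c : ℝ) :
    A.loc k (t + s) r c = A.loc k t r c := by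
  cases k with
  | none => rfl
  | some i => simp only [Br.loc, h i t]

lemma xactSig_two (x : A.X) : A.xactSig 2 x = x := by
  rcases A.X_cases x with ⟨p, hp, rfl⟩ | ⟨k, n, hn, rfl⟩
  · rw [xactSig_prT _ hp, xact_sh_two, prT_smul]
  · have := rot_int 1 n
    rw [xactSig_jj0 _ _ hn, show (2 : ℝ) / 2 = ((1 : ℤ) : ℝ) by norm_num, this]

lemma xactSig_zero (x : A.X) : A.xactSig 0 x = x := by
  rcases A.X_cases x with ⟨p, hp, rfl⟩ | ⟨k, n, hn, rfl⟩
  · rw [xactSig_prT _ hp]
    simp [xact_sh]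
  · have := rot_int 0 n
    rw [xactSig_jj0 _ _ hn, show (0 : ℝ) / 2 = ((0 : ℤ) : ℝ) by norm_num, this]

lemma xactSig_add (s : ℝ) (h' : A.xactPer s') (x : A.X) :
    A.xactSig (s + s') x = A.xactSig s (A.xactSig s' x) := by
  rcases A.X_cases x with ⟨p, hp, rfl⟩ | ⟨k, n, hn, rfl⟩
  · rw [xactSig_prT _ hp, xactSig_prT _ hp, xactSig_prT _ (h'.domT hp), xact_sh_add]
  · rw [xactSig_jj0 _ _ hn, xactSig_jj0 _ _ hn, xactSig_jj0 _ _ ((wabs_rot _ _).trans hn),
      add_div, rot_add]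

variable [Finite ι]

lemma xactSig_jj (h : A.xactPer s) (k : Option ι) {n : N} (hn : wabs n < A.eps) :
    A.xactSig s (A.jj k n) = A.jj k (rot (s / 2) n) := by
  rcases (wabs_nonneg n).eq_or_lt with h0 | h0
  · exact xactSig_jj0 _ _ h0.symm
  obtain ⟨u, t, e⟩ := exists_pw h0
  generalize wabs n = r at e hn h0
  subst e
  have hK : pw (u, r, t) ∈ domK :=
    domK_of_ne (mul_ne_zero (ofReal_ne_zero.2 h0.ne') (ee_ne_zero _))
  have hT : ((A.loc k t r u.re, ⟨u.im, t⟩) : CC) ∈ A.domT :=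
    A.near_domT (k := k) le_rfl (by
      unfold Near
      rw [A.dst_loc k t h0]
      exact ⟨h0, hn⟩)
  have e1 : A.jj k (kap (pw (u, r, t))) = _ := A.pW_eq k u h0 t
  have e2 : A.jj k (kap (pw (u, r, t + s))) = _ := A.pW_eq k u h0 (t + s)
  have e3 : rot (s / 2) (kap (pw (u, r, t))) = kap (pw (u, r, t + s)) := by
    rw [rot_kap _ hK]
    congr 1
    refine Prod.ext rfl ?_
    simp only [pw]
    rw [add_div, ee_add]
    ring
  rw [e3, e1, e2, xactSig_prT _ hT, h.loc]
  congr 1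
  refine Prod.ext rfl (Complex.ext ?_ ?_) <;> simp [xact_sh]

lemma xactSig_comp (h : A.xactPer s) (a : Option (Option ι × NA)) {x : CC} (hx : x ∈ A.XP.dom a) :
    ∃ y ∈ A.XP.dom a, Comp ∞ (A.xactSig s ∘ A.XP.map a) x (A.XP.map a) y := by
  have ho : ∀ᶠ z in 𝓝 x, z ∈ A.XP.dom a := (A.good0.opn a).mem_nhds hx
  cases a with
  | none =>
    exact ⟨_, h.domT hx, xact_sh s, (xact_sh_contDiff s).contDiffAt, rfl,
      ho.mono fun z hz => (xactSig_prT s hz).symm⟩
  | some a =>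
    refine ⟨xact_lin (s / 2) a.2 x, ⟨xact_lin_dom _ _ hx.1, ?_⟩, xact_lin (s / 2) a.2,
      (xact_lin_contDiff _ _).contDiffAt, rfl, ho.mono fun z hz => ?_⟩
    · rw [xact_lin_map _ _ hx.1, wabs_rot]
      exact hx.2
    · show A.jj a.1 (NP.map a.2 (xact_lin (s / 2) a.2 z)) = A.xactSig s (A.jj a.1 (NP.map a.2 z))
      rw [xact_lin_map _ _ hz.1, xactSig_jj h _ hz.2]

lemma xactSig_cont (h : A.xactPer s) : Continuous (A.xactSig s) := by
  rw [← continuousOn_univ]
  refine A.good0.continuousOn fun a x hx _ => ?_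
  obtain ⟨y, hy, θ, h1, h2, h3⟩ := xactSig_comp h a hx
  have h4 : ContinuousAt (A.XP.map a ∘ θ) x :=
    ContinuousAt.comp (h2 ▸ (A.good0.lo a).continuousAt hy) h1.continuousAt
  exact h4.congr h3

/-- The translation as a homeomorphism. -/
noncomputable def xactHom (h : A.xactPer s) : A.X ≃ₜ A.X where
  toFun := A.xactSig s
  invFun := A.xactSig (-s)
  left_inv x := by rw [← xactSig_add _ h, neg_add_cancel, xactSig_zero]
  right_inv x := by rw [← xactSig_add _ h.neg, add_neg_cancel, xactSig_zero]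
  continuous_toFun := xactSig_cont h
  continuous_invFun := xactSig_cont h.neg

end Br

theorem Br.exists_act {ι : Type} [Finite ι] (A : Br ι) {p : ℕ} (hp : 2 < p)
    (h : ∀ i t, A.b i (t + 2 / p) = A.b i t) :
    ∃ ρ : Multiplicative (ZMod p) →* (A.X ≃ₜ A.X), ρ ≠ 1 ∧ ∀ g a, ∀ x ∈ A.XP.dom a, ∃ b,
      ∃ y ∈ A.XP.dom b, Comp ∞ (ρ g ∘ A.XP.map a) x (A.XP.map b) y := by
  have hP : A.xactPer (2 / p) := h
  have hp2 : (2 : ℝ) < p := by exact_mod_cast hp
  have hp0 : (0 : ℝ) < p := by linarith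
  let f : ℤ →+ Additive (A.X ≃ₜ A.X) := AddMonoidHom.mk'
    (fun m => Additive.ofMul (Br.xactHom (hP.int m))) fun m n => by
      rw [← ofMul_mul]
      congr 1
      ext x
      show A.xactSig _ x = A.xactSig _ (A.xactSig _ x)
      rw [← Br.xactSig_add _ (hP.int n)]
      congr 1
      push_cast
      ring
  have hf : f p = 0 := by
    show Additive.ofMul (Br.xactHom (hP.int p)) = Additive.ofMul 1
    congr 1
    ext x
    show A.xactSig _ x = x
    rw [show (((p : ℤ) : ℝ)) * (2 / p) = 2 by push_cast; field_simp, Br.xactSig_two]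
  let F : ZMod p →+ Additive (A.X ≃ₜ A.X) := ZMod.lift p ⟨f, hf⟩
  have hF : ∀ m : ℤ, F m = f m := fun m => ZMod.lift_coe p ⟨f, hf⟩ m
  refine ⟨AddMonoidHom.toMultiplicativeLeft F, fun h1 => ?_, fun g a x hx => ⟨a, ?_⟩⟩
  · obtain ⟨q, hq⟩ := A.pathConn_domT.nonempty
    have e : Br.xactHom (hP.int 1) = 1 := by
      have := DFunLike.congr_fun h1 (Multiplicative.ofAdd ((1 : ℤ) : ZMod p))
      change Additive.toMul (F ((1 : ℤ) : ZMod p)) = 1 at this
      rw [hF] at this
      exact this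
    have e2 : A.xactSig (((1 : ℤ) : ℝ) * (2 / p)) (A.prT q) = A.prT q := DFunLike.congr_fun e _
    rw [Br.xactSig_prT _ hq, A.prT_eq_iff ((hP.int 1).domT hq) hq] at e2
    obtain ⟨g, hg⟩ := e2
    have e3 := congrArg (fun z : CC => z.2.im) hg
    simp only [actT_def, xact_sh_im] at e3
    have h1 : (0 : ℝ) < 2 / p := by positivity
    have h2 : (2 : ℝ) / p < 1 := (div_lt_one hp0).2 hp2
    have h3 : ((g.n : ℤ) : ℝ) < ((0 : ℤ) : ℝ) := by push_cast at e3 ⊢; linarith
    have h4 : ((-1 : ℤ) : ℝ) < ((g.n : ℤ) : ℝ) := by push_cast at e3 ⊢; linarith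
    have := Int.cast_lt.1 h3
    have := Int.cast_lt.1 h4
    omega
  · obtain ⟨m, hm⟩ := ZMod.intCast_surjective (Multiplicative.toAdd g)
    have e : AddMonoidHom.toMultiplicativeLeft F g = Br.xactHom (hP.int m) := by
      change Additive.toMul (F (Multiplicative.toAdd g)) = _
      rw [← hm, hF]
      rfl
    rw [e]
    exact Br.xactSig_comp (hP.int m) a hx

end Pool.Agent.Lib.MP_45bb13_gt
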