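import Pool.Agent.Lib.MP_18d288_gt.Geo

/-! Even intersection forms and smooth cyclic actions on four-manifolds. -/

namespace Pool.Agent.Lib.MP_45bb13_gt

open Pool.Agent.Sing Pool.Agent.Lib.MP_18d288_gt
open scoped Manifold ContDiff

variable {X : Type} [TopologicalSpace X]

/-- The intersection form of `X` oriented by `μ` is even: the cup square of every integral
two-cocycle takes an even value on `μ`. -/
def EvenForm (μ : Ch ℤ X 4) : Prop :=
  ∀ a : Co ℤ X 2, IsCoc a → Even (val (cup (show 2 + 2 = 4 from rfl) a a) μ)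

variable (X) in
/-- Some smooth structure on `X` admits a nontrivial smooth action of the cyclic group of
order `p`. -/
def HasSmoothAction (p : ℕ) : Prop :=
  ∃ _ : ChartedSpace (EuclideanSpace ℝ (Fin 4)) X, IsManifold (𝓡 4) ∞ X ∧
    ∃ ρ : Multiplicative (ZMod p) →* (X ≃ₜ X), ρ ≠ 1 ∧ ∀ g, ContMDiff (𝓡 4) (𝓡 4) ∞ (ρ g)

end Pool.Agent.Lib.MP_45bb13_gt
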