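import Pool.Agent.Lib.MP_45bb13_gt.XTop
import Pool.Agent.Lib.MP_45bb13_gt.Form

/-! Cycles in the braid complement can be displaced. -/

set_option linter.unusedSectionVars false

namespace Pool.Agent.Lib.MP_45bb13_gt

open Set Filter Topology Complex Pool.Agent.Shared.Sing Pool.Agent.Shared.SingEZ
open scoped ComplexConjugate

/-- The braid without strands. -/
private def tev_B : Br Empty := ⟨fun i => i.elim, fun i => i.elim, fun i => i.elim,
  fun _ i => i.elim⟩

private lemma tev_mem (p : CC) : p ∈ tev_B.domT := fun i => i.elim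

private lemma tev_re (n : ℤ) (y : ℂ) : (cj n y).re = y.re := by
  unfold cj
  split_ifs <;> simp

private lemma tev_zero {τ : C F2 (tev_B.X × tev_B.X) →ₗ[F2] F2} (h : IForm univ τ) :
    Ev τ tev_B.T := by
  intro z hz
  obtain ⟨K, hK, hKT, hzK⟩ := exists_compact hz.1
  obtain ⟨ν, hν, hν'⟩ := tev_B.lo_prT.descend (S := (univ : Set Unit))
    (H := fun q : CC × Unit => q.1.1.re) (by fun_prop) (fun x hx y hy e _ _ => by
      obtain ⟨g, rfl⟩ := (tev_B.prT_eq_iff hx hy).1 e
      exact (tev_re _ _).symm)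
  have hc : ContinuousOn (fun x => ν (x, ())) tev_B.T :=
    hν.comp (by fun_prop) fun x hx => ⟨hx, trivial⟩
  obtain ⟨M, hM⟩ := hK.exists_bound_of_continuousOn (hc.mono hKT)
  obtain ⟨G, hG, hG'⟩ := tev_B.lo_prT.descend (S := Icc (0 : ℝ) 1)
    (H := fun q : CC × ℝ => tev_B.prT (q.1.1 + ((q.2 * (2 * M + 1) : ℝ) : ℂ), q.1.2))
    (tev_B.lo_prT.continuousOn.comp (by fun_prop) fun _ _ => tev_mem _) (fun x hx y hy e s _ => by
      obtain ⟨g, rfl⟩ := (tev_B.prT_eq_iff hx hy).1 e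
      refine (tev_B.prT_eq_iff (tev_mem _) (tev_mem _)).2 ⟨g, ?_⟩
      simp only [actT_def, cj_plus, cj_ofReal])
  have h1 := htpy_B (A := univ) (A' := ∅) hG (empty_subset _) (mapsTo_univ _ _)
    (fun _ h => h.1.elim) hz
  rw [map_self (g := fun y => G (y, 0)) (A := tev_B.T) (by
    rintro _ ⟨p, hp, rfl⟩
    simp [hG' p hp 0 (by simp)]) hz.1] at h1
  have h2 : map (fun y => G (y, 1)) z ∈ In F2 {x | M < ν (x, ())} 3 := by
    refine map_In ((hG.comp (by fun_prop) fun x hx => ⟨hx, by simp⟩).mono hKT) (fun x hx => ?_) hzK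
    obtain ⟨p, hp, rfl⟩ := hKT hx
    have h3 := hM _ hx
    rw [hν' p hp _ trivial, Real.norm_eq_abs, abs_le] at h3
    show M < ν (G (tev_B.prT p, 1), ())
    rw [hG' p hp 1 (by simp), hν' _ (tev_mem _) _ trivial]
    simp only [add_re, ofReal_re] at h3 ⊢
    linarith [h3.1]
  have hu := Z_mono (subset_univ _) le_rfl hz
  rw [sqi, h.congr (z' := z) hu hu (by simp) (by simpa using neg_mem h1)]
  refine h.disj (subset_univ _) (subset_univ _) (Set.disjoint_left.2 fun x hx hx' => ?_) hzK h2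
  exact absurd ((le_abs_self _).trans (hM x hx)) (not_le.2 hx')

theorem Br.ev_T {ι : Type} [Finite ι] (A : Br ι) {τ : C F2 (A.X × A.X) →ₗ[F2] F2}
    (h : IForm univ τ) : Ev τ A.T := by
  have := A.t2
  have := tev_B.t2
  have := tev_B.compact
  obtain ⟨τ₀, h0⟩ := exists_iform tev_B.locEuc
  obtain ⟨φ, hs, ht, -⟩ := oph_family (A := Unit) (D := fun _ => CC) (O := fun _ => A.domT)
    (p := fun _ => A.prT) (q := fun _ => tev_B.prT) (fun _ => A.lo_prT)
    (fun _ => tev_B.lo_prT.mono A.isOpen_domT fun p _ => tev_mem p) fun _ _ x hx y hy => by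
      rw [A.prT_eq_iff hx hy, tev_B.prT_eq_iff (tev_mem _) (tev_mem _)]
  rw [iUnion_const] at hs ht
  intro z hz
  have hz' : z ∈ Z F2 φ.source ∅ 2 := hs ▸ hz
  have h1 := IForm.unique A.locEuc (h.mono φ.open_source (subset_univ _))
    (h0.pull (lo_oph φ) φ.injOn (mapsTo_univ _ _))
    (Z_mono le_rfl (empty_subset _) (cross_Z hz' hz'))
  rw [sqi, h1, ← sqi, sqi_pull φ.continuousOn hz']
  refine tev_zero h0 _ (map_Z φ.continuousOn (empty_subset _) (φ.mapsTo.mono_right ?_)
    (mapsTo_empty _ _) hz')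
  rw [ht]
  exact image_mono fun p _ => tev_mem p

end Pool.Agent.Lib.MP_45bb13_gt
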