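import Pool.Agent.Lib.MP_45bb13_gt.XTop
import Pool.Agent.Lib.MP_45bb13_gt.One

/-! The first homology of the punctured caps and crossing chains. -/

set_option linter.unusedSectionVars false

namespace Pool.Agent.Lib.MP_45bb13_gt

open Set Filter Topology Complex Pool.Agent.Shared.Sing Pool.Agent.Shared.SingEZ
open scoped ComplexConjugate

namespace Br

variable {ι : Type} [Fintype ι] (A : Br ι)

lemma cls_lpA (k : Option ι) : LoopCls (A.pW k) (OW A.eps) (⟨(1, 0), 0⟩ : SD (ℤ × ℤ)) (A.lpA k) := by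
  have he := A.eps_pos
  refine ⟨fun t => ((t : ℂ), A.eps / 2, 0), by fun_prop, fun t _ => ⟨?_, ?_⟩, ?_, fun t _ => rfl⟩
  · show 0 < A.eps / 2
    linarith
  · show A.eps / 2 < A.eps
    linarith
  · rw [actW_def]
    refine Prod.ext (Complex.ext ?_ ?_) (Prod.ext rfl ?_) <;> simp

lemma cls_lpT (k : Option ι) (b : Bool) :
    LoopCls (A.pW k) (OW A.eps) (⟨(0, if b then 1 else 0), 1⟩ : SD (ℤ × ℤ)) (A.lpT k b) := by
  have he := A.eps_pos
  refine ⟨fun t => (u0 (false, b), A.eps / 2, t), by fun_prop, fun t _ => ⟨?_, ?_⟩, ?_,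
    fun t _ => rfl⟩
  · show 0 < A.eps / 2
    linarith
  · show A.eps / 2 < A.eps
    linarith
  · rw [actW_def]
    refine Prod.ext (Complex.ext ?_ ?_) (Prod.ext rfl ?_)
    · simp [u0]
    · cases b
      · simp [u0]
      · simp only [u0, sgn_one, if_true]
        norm_num
    · simp

lemma stdL_add (α β γ α' β' γ' : Option ι → F2) :
    A.stdL (α + α') (β + β') (γ + γ') = A.stdL α β γ + A.stdL α' β' γ' := by
  simp only [stdL, Pi.add_apply, add_smul, ← Finset.sum_add_distrib]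
  exact Finset.sum_congr rfl fun k _ => by abel

lemma stdL_smul (r : F2) (α β γ : Option ι → F2) :
    A.stdL (r • α) (r • β) (r • γ) = r • A.stdL α β γ := by
  simp only [stdL, Pi.smul_apply, smul_eq_mul, mul_smul, Finset.smul_sum, smul_add]

lemma whom_stdL_zero : A.stdL 0 0 0 = 0 := by simp [stdL]

lemma whom_stdL_sum {κ : Type} (s : Finset κ) (α β γ : κ → Option ι → F2) :
    A.stdL (∑ i ∈ s, α i) (∑ i ∈ s, β i) (∑ i ∈ s, γ i) = ∑ i ∈ s, A.stdL (α i) (β i) (γ i) := by
  classical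
  induction s using Finset.induction_on with
  | empty => simpa using A.whom_stdL_zero
  | insert i s hi ih => simp only [Finset.sum_insert hi, stdL_add, ih]

open Classical in
lemma whom_stdL_single (k : Option ι) (a b c : F2) :
    A.stdL (Pi.single k a) (Pi.single k b) (Pi.single k c) =
      a • edge F2 (A.lpA k) + b • edge F2 (A.lpT k false) + c • edge F2 (A.lpT k true) := by
  rw [stdL, Finset.sum_eq_single k]
  · simp
  · intro j _ hj
    simp [Pi.single_eq_of_ne hj]
  · simp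

lemma whom_ctr : Ctr (OW A.eps) := by
  have he := A.eps_pos
  have hc : Convex ℝ (OW A.eps) :=
    (convex_Ioo (0 : ℝ) A.eps).linear_preimage
      ((LinearMap.fst ℝ ℝ ℝ).comp (LinearMap.snd ℝ ℂ (ℝ × ℝ)))
  have ha : ((0 : ℂ), A.eps / 2, (0 : ℝ)) ∈ OW A.eps :=
    ⟨show 0 < A.eps / 2 by linarith, show A.eps / 2 < A.eps by linarith⟩
  exact ctr_star ha (hc.starConvex ha)

lemma whom_h1 : Z F2 (OW A.eps) ∅ 1 ≤ B F2 (OW A.eps) ∅ 1 := (A.whom_ctr.acy F2).Z_le 0

/-- The classes of the three standard loops. -/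
def whom_g : Option Bool → SD (ℤ × ℤ)
  | none => ⟨(1, 0), 0⟩
  | some b => ⟨(0, if b then 1 else 0), 1⟩

/-- The three standard loops. -/
noncomputable def whom_l (k : Option ι) : Option Bool → ℝ → A.X
  | none => A.lpA k
  | some b => A.lpT k b

lemma whom_cls (k : Option ι) : ∀ i, LoopCls (A.pW k) (OW A.eps) (whom_g i) (A.whom_l k i)
  | none => A.cls_lpA k
  | some b => A.cls_lpT k b

lemma whom_sub (k : Option ι) : B F2 (A.Wk k) ∅ 1 ≤ B F2 (⋃ k, A.Wk k) ∅ 1 :=
  B_mono (subset_iUnion _ k) subset_rfl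

lemma whom_span (k : Option ι) {d : C F2 A.X} (hd : d ∈ Z F2 (A.Wk k) ∅ 1) : ∃ a b c : F2,
    d - (a • edge F2 (A.lpA k) + b • edge F2 (A.lpT k false) + c • edge F2 (A.lpT k true)) ∈
      B F2 (A.Wk k) ∅ 1 := by
  have h := (A.covWk k).span (F := F2) A.whom_ctr.pathConn A.whom_h1 whom_g (A.whom_l k)
    (A.whom_cls k) fun χ hχ => by
      ext g
      have h1 : χ ⟨(1, 0), 0⟩ = 1 := hχ none
      have h2 : χ ⟨(0, 0), 1⟩ = 1 := hχ (some false)
      have h3 : χ ⟨(0, 1), 1⟩ = 1 := hχ (some true)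
      have := char_W χ g
      rw [h1, h2, h3] at this
      simpa using this
  rw [A.image_OW] at h
  obtain ⟨s, hs, w, hw, rfl⟩ := Submodule.mem_sup.1 (h.2 hd)
  obtain ⟨c, rfl⟩ := (Submodule.mem_span_range_iff_exists_fun F2).1 hs
  refine ⟨c none, c (some false), c (some true), ?_⟩
  convert hw using 1
  simp only [Fintype.sum_option, Fintype.sum_bool, whom_l]
  abel

theorem span_W {c : C F2 A.X} (hc : c ∈ Z F2 (⋃ k, A.Wk k) ∅ 1) :
    ∃ α β γ, c - A.stdL α β γ ∈ B F2 (⋃ k, A.Wk k) ∅ 1 := by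
  obtain ⟨d, hd, rfl⟩ := split_disj (V := A.Wk) (n := 0)
    (fun k => A.T_inter_cap k ▸ A.isOpen_T.inter (A.isOpen_cap k))
    (fun k l h => (A.cap_disj h).mono (A.T_inter_cap k ▸ inter_subset_right)
      (A.T_inter_cap l ▸ inter_subset_right)) hc
  choose α β γ h using fun k => A.whom_span k (hd k)
  refine ⟨α, β, γ, ?_⟩
  rw [stdL, ← Finset.sum_sub_distrib]
  exact Submodule.sum_mem _ fun k _ => A.whom_sub k (h k)

open Classical in
theorem cls_std {k : Option ι} {g : SD (ℤ × ℤ)} {ℓ : ℝ → A.X} (h : LoopCls (A.pW k) (OW A.eps) g ℓ) :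
    edge F2 ℓ - A.stdL (Pi.single k g.a.1) (Pi.single k (g.n + g.a.2)) (Pi.single k g.a.2) ∈
      B F2 (⋃ k, A.Wk k) ∅ 1 := by
  have h1 := (A.covWk k).rel (F := F2) A.whom_ctr.pathConn A.whom_h1 (κ := Option (Option Bool))
    (fun i => i.elim 1 fun j => j.elim (-(g.a.1 : F2)) fun b =>
      if b then -(g.a.2 : F2) else -((g.n : F2) + (g.a.2 : F2)))
    (fun i => i.elim g whom_g) (fun i => i.elim ℓ (A.whom_l k))
    (fun i => by
      cases i with
      | none => exact h
      | some j => exact A.whom_cls k j) fun χ => by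
      simp only [Fintype.sum_option, Fintype.sum_bool, Option.elim, whom_g, if_true,
        Bool.false_eq_true, if_false]
      rw [char_W χ g]
      ring
  rw [A.image_OW] at h1
  rw [whom_stdL_single]
  refine A.whom_sub k ?_
  convert h1 using 1
  simp only [Fintype.sum_option, Fintype.sum_bool, Option.elim, whom_l, if_true,
    Bool.false_eq_true, if_false, one_smul, neg_smul]
  abel

lemma whom_neg (x : C F2 A.X) : -x = x := by
  have h : (-1 : F2) = 1 := by decide
  rw [← neg_one_smul F2 x, h, one_smul]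

open Classical in
/-- The chains of a crossing sphere. -/
theorem Geo.chain {κ : Type} [Fintype κ] {cap : κ → Option ι} {cls : κ → SD (ℤ × ℤ)}
    {cinf : SD (ℤ × ℤ)} (h : A.Geo cap cls cinf) {τ : C F2 (A.X × A.X) →ₗ[F2] F2}
    (hτ : IForm univ τ) : ∃ a ∈ In F2 A.T 3, ∃ a' ∈ In F2 (⋃ k, A.Cap k) 3, sqi τ (a + a') = 0 ∧
      D (a + a') = 0 ∧ D a - A.stdL
        (Pi.single none cinf.a.1 + ∑ i, Pi.single (cap i) (cls i).a.1)
        (Pi.single none (cinf.n + cinf.a.2) + ∑ i, Pi.single (cap i) ((cls i).n + (cls i).a.2))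
        (Pi.single none cinf.a.2 + ∑ i, Pi.single (cap i) (cls i).a.2) ∈
          B F2 (⋃ k, A.Wk k) ∅ 1 := by
  have := A.t2
  obtain ⟨f, g, hb, a, ρ, h1, h2, h3, h4, h5, h6⟩ := h
  obtain ⟨cf, cg, mf, mg, hfg⟩ := hb.cont
  obtain ⟨u, hu, w, hw, hD⟩ := planar cf a ρ h1 h2 h3
  have m1 : ∀ i, MapsTo (fun x : ℂ => a i + ρ i * x) D1 (Metric.closedBall (a i) (ρ i)) := by
    intro i x hx
    have hx' : ‖x‖ ≤ 1 := by simpa using hx
    have h0 := (h1 i).1
    rw [mem_closedBall_iff_norm, add_sub_cancel_left, norm_mul, Complex.norm_real,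
      Real.norm_of_nonneg h0.le]
    nlinarith
  have m2 : ∀ i, Metric.closedBall (a i) (ρ i) ⊆ D1 := fun i =>
    Metric.closedBall_subset_closedBall' (by
      have := (h1 i).2
      rw [dist_zero_right]
      linarith)
  have ci : ∀ i, ContinuousOn (fun x : ℂ => f (a i + ρ i * x)) D1 := fun i =>
    cf.comp (by fun_prop) ((m1 i).mono_right (m2 i))
  have hz := bi_Z (R := F2) cf cg mf mg hfg
  set a' : C F2 A.X := ∑ i, map (fun x : ℂ => f (a i + ρ i * x)) (dsk F2) - map g (dsk F2) with ha'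
  have e1 : bi F2 f g - (u + a') = D w := by
    rw [hD, bi, ha']
    abel
  have e2 : D (u + a') = 0 := by
    have := congrArg D e1
    rw [D_D, map_sub, In_empty (Z_D hz), zero_sub, neg_eq_zero] at this
    exact this
  refine ⟨u, hu, a', sub_mem (Submodule.sum_mem _ fun i _ => map_In (ci i) (fun x hx =>
    mem_iUnion.2 ⟨cap i, (h4 i).1 (m1 i hx)⟩) (dsk_In F2)) (map_In cg (fun x hx =>
    mem_iUnion.2 ⟨none, h5 hx⟩) (dsk_In F2)), ?_, e2, ?_⟩
  · rw [← hτ.sqi_congr hz (e1 ▸ D_mem_B hw)]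
    exact hτ.biEv hb
  · have e3 : D u = edge F2 (fun t => g (ee t)) + ∑ i, edge F2 fun t => f (a i + ρ i * ee t) := by
      rw [map_add, add_eq_zero_iff_eq_neg, A.whom_neg] at e2
      rw [e2, ha', map_sub, map_sum, D_map_dsk cg, sub_eq_add_neg, A.whom_neg, add_comm]
      congr 1
      exact Finset.sum_congr rfl fun i _ => D_map_dsk (ci i)
    rw [stdL_add, whom_stdL_sum, e3, add_sub_add_comm, ← Finset.sum_sub_distrib]
    simp only [Int.cast_add]
    exact add_mem (A.cls_std h6) (Submodule.sum_mem _ fun i _ => A.cls_std (h4 i).2)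

end Br

end Pool.Agent.Lib.MP_45bb13_gt
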