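import Pool.Agent.Lib.MP_45bb13_gt.TEv
import Pool.Agent.Lib.MP_45bb13_gt.WHom
import Pool.Agent.Lib.MP_45bb13_gt.Rels
import Pool.Agent.Lib.MP_45bb13_gt.GeoC
import Pool.Agent.Lib.MP_45bb13_gt.RayC
import Pool.Agent.Lib.MP_45bb13_gt.NEv

/-! The intersection form of the choreography manifold is even. -/

set_option linter.unusedSectionVars false

namespace Pool.Agent.Lib.MP_45bb13_gt

open Set Filter Topology Complex Pool.Agent.Shared.Sing Pool.Agent.Shared.SingEZ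
open scoped ComplexConjugate

theorem ev_caps {ι : Type} [Fintype ι] (A : Br ι) {τ : C F2 (A.X × A.X) →ₗ[F2] F2}
    (h : IForm univ τ) : Ev τ (⋃ k, A.Cap k) := by
  have i1 := A.t2
  have i2 := t2_N
  exact h.ev_disj A.locEuc (fun k => A.isOpen_cap k) (fun _ => subset_univ _)
    (fun _ _ hij => A.cap_disj hij) fun k => ev_image (A.lo_jj k) (A.jj_injOn k)
      (ev_N A.eps_pos (h.pull (A.lo_jj k) (A.jj_injOn k) (mapsTo_univ _ _)))

/-- The coefficients of the standard loops are realised by a crossing cycle of square zero. -/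
def XevOk {ι : Type} [Fintype ι] (A : Br ι) (τ : C F2 (A.X × A.X) →ₗ[F2] F2)
    (α β γ : Option ι → F2) : Prop :=
  ∃ a ∈ In F2 A.T 3, ∃ a' ∈ In F2 (⋃ k, A.Cap k) 3, sqi τ (a + a') = 0 ∧ D (a + a') = 0 ∧
    D a - A.stdL α β γ ∈ B F2 (⋃ k, A.Wk k) ∅ 1

section

variable {ι : Type} [Fintype ι] {A : Br ι} {τ : C F2 (A.X × A.X) →ₗ[F2] F2}
  {α β γ α' β' γ' : Option ι → F2}

lemma xev_inter (A : Br ι) : A.T ∩ ⋃ k, A.Cap k = ⋃ k, A.Wk k := by
  simp only [inter_iUnion, A.T_inter_cap]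

lemma xev_sub (A : Br ι) : ⋃ k, A.Wk k ⊆ A.T := xev_inter A ▸ inter_subset_left

lemma xev_Z {a a' : C F2 A.X} (ha : a ∈ In F2 A.T 3) (ha' : a' ∈ In F2 (⋃ k, A.Cap k) 3)
    (h0 : D (a + a') = 0) : a + a' ∈ Z F2 univ ∅ 2 :=
  ⟨add_mem (In_univ ha) (In_univ ha'), show D (a + a') ∈ In F2 ∅ 2 from h0 ▸ zero_mem _⟩

lemma XevOk.add (h : IForm univ τ) (h1 : XevOk A τ α β γ) (h2 : XevOk A τ α' β' γ') :
    XevOk A τ (α + α') (β + β') (γ + γ') := by
  have i1 := A.t2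
  obtain ⟨a, ha, a', ha', e1, e2, e3⟩ := h1
  obtain ⟨b, hb, b', hb', f1, f2, f3⟩ := h2
  have e : a + b + (a' + b') = a + a' + (b + b') := by abel
  refine ⟨a + b, add_mem ha hb, a' + b', add_mem ha' hb', ?_, ?_, ?_⟩
  · rw [e, h.sqi_add A.locEuc (xev_Z ha ha' e2) (xev_Z hb hb' f2), e1, f1, add_zero]
  · rw [e, map_add, e2, f2, add_zero]
  · rw [A.stdL_add, map_add]
    convert add_mem e3 f3 using 1
    abel

lemma XevOk.smul (r : F2) (h1 : XevOk A τ α β γ) : XevOk A τ (r • α) (r • β) (r • γ) := by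
  obtain ⟨a, ha, a', ha', e1, e2, e3⟩ := h1
  refine ⟨r • a, Submodule.smul_mem _ r ha, r • a', Submodule.smul_mem _ r ha', ?_, ?_, ?_⟩
  · rw [← smul_add, sqi_smul, e1, mul_zero]
  · rw [← smul_add, map_smul, e2, smul_zero]
  · rw [A.stdL_smul, map_smul, ← smul_sub]
    exact Submodule.smul_mem _ r e3

lemma XevOk.mem_B (h1 : XevOk A τ α β γ) : A.stdL α β γ ∈ B F2 A.T ∅ 1 := by
  obtain ⟨a, ha, -, -, -, -, e3⟩ := h1
  exact (congr_B (B_mono (xev_sub A) Subset.rfl e3)).1 (D_mem_B ha)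

end

section

variable {τ : C F2 ((chB 0).X × (chB 0).X) →ₗ[F2] F2}

lemma xev_c (h : IForm univ τ) : ∃ α β γ, XevOk (chB 0) τ α β γ ∧ α none = 1 ∧
    (∀ i, β (some i) = 0) ∧ ∀ i, γ (some i) = 0 := by
  refine ⟨_, _, _, Br.Geo.chain _ (geo_c (chB 0)) h, ?_, fun i => ?_, fun i => ?_⟩
  · simp
  · simp
  · simp

lemma xev_f (h : IForm univ τ) (j : Fin 3) : ∃ α β γ, XevOk (chB 0) τ α β γ ∧ α none = 0 ∧
    (∀ i, β (some i) = if i = j then 1 else 0) ∧ ∀ i, γ (some i) = 0 := by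
  obtain ⟨a, ha⟩ := geo_ray j false
  refine ⟨_, _, _, Br.Geo.chain _ ha h, ?_, fun i => ?_, fun i => ?_⟩
  · simp
  · simp [Pi.single_apply]
  · simp

lemma xev_t (h : IForm univ τ) (j : Fin 3) : ∃ α β γ, XevOk (chB 0) τ α β γ ∧ α none = 0 ∧
    (∀ i, β (some i) = 0) ∧ ∀ i, γ (some i) = if i = j then 1 else 0 := by
  obtain ⟨a, ha⟩ := geo_ray j true
  have h2 : (1 : F2) + 1 = 0 := by decide
  refine ⟨_, _, _, Br.Geo.chain _ ha h, ?_, fun i => ?_, fun i => ?_⟩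
  · simp
  · simp [h2]
  · simp [Pi.single_apply]

/-- Free coefficients can be prescribed. -/
lemma xev_free (h : IForm univ τ) (r : F2) (s t : Fin 3 → F2) : ∃ α β γ, XevOk (chB 0) τ α β γ ∧
    α none = r ∧ (∀ i, β (some i) = s i) ∧ ∀ i, γ (some i) = t i := by
  obtain ⟨α, β, γ, h0, a1, a2, a3⟩ := xev_c h
  choose α1 β1 γ1 h1 b1 b2 b3 using xev_f h
  choose α2 β2 γ2 h2 c1 c2 c3 using xev_t h
  refine ⟨_, _, _, ((((((h0.smul r).add h ((h1 0).smul (s 0))).add h ((h1 1).smul (s 1))).add h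
    ((h1 2).smul (s 2))).add h ((h2 0).smul (t 0))).add h ((h2 1).smul (t 1))).add h
    ((h2 2).smul (t 2)), ?_, fun i => ?_, fun i => ?_⟩
  · simp [a1, b1, c1]
  · fin_cases i <;> simp [a2, b2, c2]
  · fin_cases i <;> simp [a3, b3, c3]

lemma xev_all (h : IForm univ τ) {α β γ : Option (Fin 3) → F2}
    (hB : (chB 0).stdL α β γ ∈ B F2 (chB 0).T ∅ 1) : XevOk (chB 0) τ α β γ := by
  obtain ⟨α', β', γ', h0, a1, a2, a3⟩ := xev_free h (α none) (fun i => β (some i))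
    fun i => γ (some i)
  obtain ⟨r1, r2, r3⟩ := rels hB
  obtain ⟨s1, s2, s3⟩ := rels h0.mem_B
  have e1 : α' = α := by
    funext k
    rcases k with _ | i
    · exact a1
    · obtain ⟨j, rfl⟩ : ∃ j, i = j + 1 := ⟨i - 1, by simp⟩
      rw [r3, s3, a1, a2, a3]
  have e2 : β' = β := by
    funext k
    rcases k with _ | i
    · rw [r1, s1]
      exact Finset.sum_congr rfl fun i _ => a2 i
    · exact a2 i
  have e3 : γ' = γ := by
    funext k
    rcases k with _ | i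
    · rw [r2, s2]
      exact Finset.sum_congr rfl fun i _ => a3 i
    · exact a3 i
  rwa [e1, e2, e3] at h0

end

theorem ev_X {τ : C F2 ((chB 0).X × (chB 0).X) →ₗ[F2] F2} (h : IForm univ τ) : Ev τ univ := by
  have i1 := (chB 0).t2
  rw [← (chB 0).T_union]
  refine h.ev_union (chB 0).locEuc (chB 0).isOpen_T (isOpen_iUnion (chB 0).isOpen_cap)
    (subset_univ _) (subset_univ _) ((chB 0).ev_T h) (ev_caps _ h) fun c hc hT _ => ?_
  rw [xev_inter] at hc ⊢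
  obtain ⟨α, β, γ, h1⟩ := (chB 0).span_W hc
  obtain ⟨a, ha, a', ha', e1, e2, e3⟩ :=
    xev_all h ((congr_B (B_mono (xev_sub _) Subset.rfl h1)).1 hT)
  refine ⟨a, ha, a', ha', e1, e2, ?_⟩
  convert sub_mem h1 e3 using 1
  abel

end Pool.Agent.Lib.MP_45bb13_gt
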