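import Pool.Agent.Lib.MP_45bb13_gt.XEqA

/-! Identities in the closed manifold. -/

set_option linter.unusedSectionVars false

namespace Pool.Agent.Lib.MP_45bb13_gt

open Set Filter Topology Complex
open scoped ComplexConjugate

lemma xeq_min {f : ℝ → ℝ} (hf : Continuous f) (hp : ∀ t (n : ℤ), f (t + n) = f t) :
    ∃ t0, ∀ t, f t0 ≤ f t := by
  obtain ⟨t0, -, h⟩ := (isCompact_Icc (a := (0 : ℝ)) (b := 1)).exists_isMinOn
    (nonempty_Icc.2 zero_le_one) hf.continuousOn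
  refine ⟨t0, fun t => ?_⟩
  have h1 : f t0 ≤ f (Int.fract t) := h ⟨Int.fract_nonneg t, (Int.fract_lt_one t).le⟩
  rwa [← hp (Int.fract t) ⌊t⌋, Int.fract_add_floor] at h1

lemma xeq_wabs_pw (u : ℂ) {s : ℝ} (hs : 0 < s) (t : ℝ) : wabs (kap (pw (u, s, t))) = s := by
  rw [wabs_kap]
  simp only [pw, norm_mul, norm_ee, mul_one, norm_real, Real.norm_eq_abs, abs_of_pos hs]

namespace Br

variable {ι : Type} (A : Br ι) {p q : CC} {k l : Option ι} {r : ℝ}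

variable [Finite ι]

lemma isOpen_domT : IsOpen A.domT := by
  have : A.domT = ⋂ i, {p : CC | p.1 ≠ A.b i p.2.im} := by
    ext p
    simp [domT]
  rw [this]
  exact isOpen_iInter_of_finite fun i => isOpen_ne_fun continuous_fst
    ((A.cont i).comp (continuous_im.comp continuous_snd))

lemma xeq_bound : ∃ M : ℝ, ∀ i t, ‖A.b i t‖ ≤ M := by
  have h : ∀ i, ∃ M : ℝ, ∀ t, ‖A.b i t‖ ≤ M := fun i => by
    obtain ⟨t0, h⟩ := xeq_min (f := fun t => -‖A.b i t‖) (A.cont i).norm.neg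
      fun t n => by simp only [A.b_int, norm_cj]
    exact ⟨‖A.b i t0‖, fun t => neg_le_neg_iff.1 (h t)⟩
  choose M hM using h
  obtain ⟨C, hC⟩ := (finite_range M).bddAbove
  exact ⟨C, fun i t => (hM i t).trans (hC ⟨i, rfl⟩)⟩

theorem eps_spec : A.IsEps A.eps := by
  refine Classical.epsilon_spec (p := A.IsEps) ?_
  obtain ⟨M, hM⟩ := A.xeq_bound
  have h1 : ∀ᶠ ε : ℝ in 𝓝[>] 0, ∀ ij : ι × ι, ij.1 ≠ ij.2 → ∀ t,
      2 * ε < ‖A.b ij.1 t - A.b ij.2 t‖ := by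
    refine eventually_all.2 fun ij => ?_
    by_cases hij : ij.1 = ij.2
    · exact Eventually.of_forall fun _ h => absurd hij h
    obtain ⟨t0, h⟩ := xeq_min (f := fun t => ‖A.b ij.1 t - A.b ij.2 t‖)
      ((A.cont _).sub (A.cont _)).norm fun t n => by simp only [A.b_int, ← cj_sub, norm_cj]
    have h0 : 0 < ‖A.b ij.1 t0 - A.b ij.2 t0‖ :=
      norm_pos_iff.2 (sub_ne_zero.2 fun e => hij (A.inj _ _ _ e))
    filter_upwards [Ioo_mem_nhdsGT (half_pos h0)] with ε hε _ t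
    have := h t
    have := hε.2
    linarith
  have h2 : (0 : ℝ) < (|M| + 1)⁻¹ := by positivity
  have k1 : ∀ᶠ ε : ℝ in 𝓝[>] 0, ε ∈ Ioo 0 (|M| + 1)⁻¹ := Ioo_mem_nhdsGT h2
  have k2 : ∀ᶠ ε : ℝ in 𝓝[>] 0, ε ∈ Ioo (0 : ℝ) (1 / 2) := Ioo_mem_nhdsGT (by norm_num)
  obtain ⟨ε, hε1, hε2, hε3⟩ := (h1.and (k1.and k2)).exists
  refine ⟨ε, hε2.1, hε3.2.le, fun t i j hij => hε1 (i, j) hij t, fun i t => ?_⟩
  have h3 : |M| + 1 < ε⁻¹ := lt_inv_of_lt_inv₀ hε2.1 hε2.2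
  have h4 := hM i t
  have h5 := le_abs_self M
  have h6 := hε3.2
  linarith

lemma eps_pos : 0 < A.eps := A.eps_spec.1

lemma eps_le : A.eps ≤ 1 / 2 := A.eps_spec.2.1

lemma exists_bound : ∃ M : ℝ, ∀ i t, ‖A.b i t‖ ≤ M := A.xeq_bound

lemma xeq_close {i j : ι} {y : ℂ} {t : ℝ} (h : ‖y - A.b i t‖ < A.eps)
    (h' : ‖y - A.b j t‖ < A.eps) : i = j := by
  by_contra hij
  have h1 := A.eps_spec.2.2.1 t i j hij
  have h2 : ‖A.b i t - A.b j t‖ ≤ ‖y - A.b i t‖ + ‖y - A.b j t‖ := by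
    rw [show A.b i t - A.b j t = -(y - A.b i t) + (y - A.b j t) by ring]
    exact (norm_add_le _ _).trans (by rw [norm_neg])
  linarith

lemma xeq_far {i : ι} {y : ℂ} {t : ℝ} (h : ‖y - A.b i t‖ < A.eps) (h0 : 0 < ‖y‖⁻¹)
    (h' : ‖y‖⁻¹ < A.eps) : False := by
  have h1 := A.eps_spec.2.2.2 i t
  have h2 : A.eps⁻¹ < ‖y‖ := inv_lt_of_inv_lt₀ (inv_pos.1 h0) h'
  have h3 : ‖y‖ ≤ ‖A.b i t‖ + ‖y - A.b i t‖ := by
    simpa using norm_add_le (A.b i t) (y - A.b i t)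
  linarith

lemma near_domT (hr : r ≤ A.eps) (h : A.Near k r p) : p ∈ A.domT := by
  intro j e
  have hj : ‖p.1 - A.b j p.2.im‖ < A.eps := by
    rw [e, sub_self, norm_zero]
    exact A.eps_pos
  cases k with
  | none => exact A.xeq_far hj h.1 (h.2.trans_le hr)
  | some i =>
    have h1 : ‖p.1 - A.b i p.2.im‖ < A.eps := h.2.trans_le hr
    have h2 : 0 < ‖p.1 - A.b i p.2.im‖ := h.1
    rw [A.xeq_close h1 hj, e, sub_self, norm_zero] at h2
    exact lt_irrefl _ h2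

lemma near_unique (h : A.Near k A.eps p) (h' : A.Near l A.eps p) : k = l := by
  cases k with
  | none =>
    cases l with
    | none => rfl
    | some j => exact (A.xeq_far h'.2 h.1 h.2).elim
  | some i =>
    cases l with
    | none => exact (A.xeq_far h.2 h'.1 h'.2).elim
    | some j => exact congrArg some (A.xeq_close h.2 h'.2)

lemma close_unique {i j : ι} {y : ℂ} {t : ℝ} (h : ‖y - A.b i t‖ < A.eps)
    (h' : ‖y - A.b j t‖ < A.eps) : i = j := A.xeq_close h h'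

lemma xeq_jj (k : Option ι) {n : N} (h : 0 < wabs n) : ∃ (u : ℂ) (t : ℝ),
    n = kap (pw (u, wabs n, t)) ∧ A.jj k n = A.prT (A.loc k t (wabs n) u.re, ⟨u.im, t⟩) := by
  obtain ⟨u, t, e⟩ := exists_pw h
  refine ⟨u, t, e, ?_⟩
  rw [← A.pW_eq k u h t, pW, ← e]

lemma xeq_near (k : Option ι) {s : ℝ} (h : 0 < s) (h' : s < r) (t c z : ℝ) :
    A.Near k r (A.loc k t s c, ⟨z, t⟩) := by
  unfold Near
  rw [A.dst_loc k t h]
  exact ⟨h, h'⟩

lemma xeq_pt (k : Option ι) {n : N} (h : 0 < wabs n) (h' : wabs n < r) :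
    ∃ p, A.Near k r p ∧ A.jj k n = A.prT p := by
  obtain ⟨u, t, -, e⟩ := A.xeq_jj k h
  exact ⟨_, A.xeq_near k h h' _ _ _, e⟩

lemma xeq_zero {n n' : N} (h : wabs n = 0) (h' : n' ∈ Nr A.eps) (e : A.jj k n = A.jj l n') :
    k = l ∧ n = n' := by
  rcases (wabs_nonneg n').eq_or_lt with h0 | h0
  · have e1 : A.jj k n = Sum.inr (k, ⟨n, h⟩) := dif_pos h
    have e2 : A.jj l n' = Sum.inr (l, ⟨n', h0.symm⟩) := dif_pos h0.symm
    have e' := Sum.inr.inj (e1.symm.trans (e.trans e2))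
    exact ⟨congrArg Prod.fst e', congrArg (fun x => x.2.1) e'⟩
  · obtain ⟨p, hp, e'⟩ := A.xeq_pt l h0 h'
    exact absurd (e.trans e') (A.jj_ne_prT h (A.near_domT le_rfl hp))

lemma jj_injOn (k : Option ι) : InjOn (A.jj k) (Nr A.eps) := by
  intro n h n' h' e
  rcases (wabs_nonneg n).eq_or_lt with h0 | h0
  · exact (A.xeq_zero h0.symm h' e).2
  rcases (wabs_nonneg n').eq_or_lt with h0' | h0'
  · exact (A.xeq_zero h0'.symm h e.symm).2.symm
  obtain ⟨u, t, e1, e2⟩ := A.xeq_jj k h0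
  obtain ⟨u', t', e1', e2'⟩ := A.xeq_jj k h0'
  rw [e2, e2'] at e
  obtain ⟨g, hg⟩ := (A.prT_eq_iff (A.near_domT le_rfl (A.xeq_near k h0 h _ _ _))
    (A.near_domT le_rfl (A.xeq_near k h0' h' _ _ _))).1 e
  rw [actT_def] at hg
  have g1 : cj g.n (A.loc k t (wabs n) u.re) = A.loc k t' (wabs n') u'.re := congrArg Prod.fst hg
  have g2 : g.a + sgn g.n * u.im = u'.im := congrArg (fun x : CC => x.2.re) hg
  have g3 : t + g.n = t' := congrArg (fun x : CC => x.2.im) hg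
  rw [← A.loc_smul, g3] at g1
  obtain ⟨g4, a, g5⟩ := A.loc_inj h0 h0' g1
  rw [e1, e1', ← g4]
  refine kap_congr ⟨sgn g.n, a, g.a, sgn_eq _, ?_, ?_⟩
  · apply Complex.ext
    · simp [pw, g5]
    · simp [pw, ← g2, add_comm]
  · simp only [pw]
    rw [← g3, add_div, ee_add, ee_half_int]
    ring

lemma jj_disj {n n' : N} (h : n ∈ Nr A.eps) (h' : n' ∈ Nr A.eps) (e : A.jj k n = A.jj l n') :
    k = l := by
  rcases (wabs_nonneg n).eq_or_lt with h0 | h0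
  · exact (A.xeq_zero h0.symm h' e).1
  rcases (wabs_nonneg n').eq_or_lt with h0' | h0'
  · exact (A.xeq_zero h0'.symm h e.symm).1.symm
  obtain ⟨p, hp, e1⟩ := A.xeq_pt k h0 h
  obtain ⟨q, hq, e2⟩ := A.xeq_pt l h0' h'
  rw [e1, e2] at e
  obtain ⟨g, rfl⟩ := (A.prT_eq_iff (A.near_domT le_rfl hp) (A.near_domT le_rfl hq)).1 e
  unfold Near at hq
  rw [A.dst_smul] at hq
  exact A.near_unique hp hq

lemma cap_disj (h : k ≠ l) : Disjoint (A.Cap k) (A.Cap l) := by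
  rw [Set.disjoint_left]
  rintro _ ⟨n, hn, rfl⟩ ⟨n', hn', e⟩
  exact h (A.jj_disj hn hn' e.symm)

lemma near_iff (hp : p ∈ A.domT) (hr : r ≤ A.eps) :
    A.prT p ∈ A.jj k '' Nr r ↔ A.Near k r p := by
  constructor
  · rintro ⟨n, hn, e⟩
    rcases (wabs_nonneg n).eq_or_lt with h0 | h0
    · exact absurd e (A.jj_ne_prT h0.symm hp)
    obtain ⟨q, hq, e1⟩ := A.xeq_pt k h0 hn
    rw [e1] at e
    obtain ⟨g, rfl⟩ := (A.prT_eq_iff (A.near_domT hr hq) hp).1 e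
    unfold Near
    rw [A.dst_smul]
    exact hq
  · intro h
    obtain ⟨c, hc⟩ := A.exists_loc h.1
    refine ⟨kap (pw (⟨c, p.2.re⟩, A.dst k p, p.2.im)), ?_, ?_⟩
    · change wabs _ < r
      rw [xeq_wabs_pw _ h.1]
      exact h.2
    · have := A.pW_eq k ⟨c, p.2.re⟩ h.1 p.2.im
      rw [pW] at this
      rw [this, ← hc]

lemma jj_mem_T {n : N} (h : n ∈ Nr A.eps) : A.jj k n ∈ A.T ↔ 0 < wabs n := by
  constructor
  · rintro ⟨p, hp, e⟩
    rcases (wabs_nonneg n).eq_or_lt with h0 | h0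
    · exact absurd e.symm (A.jj_ne_prT h0.symm hp)
    · exact h0
  · intro h0
    obtain ⟨p, hp, e⟩ := A.xeq_pt k h0 h
    exact ⟨p, A.near_domT le_rfl hp, e.symm⟩

lemma T_inter_cap (k : Option ι) : A.T ∩ A.Cap k = A.Wk k := by
  ext x
  constructor
  · rintro ⟨hx, n, hn, rfl⟩
    exact ⟨n, ⟨(A.jj_mem_T hn).1 hx, hn⟩, rfl⟩
  · rintro ⟨n, hn, rfl⟩
    exact ⟨(A.jj_mem_T hn.2).2 hn.1, n, hn.2, rfl⟩

lemma image_OW (k : Option ι) : A.pW k '' OW A.eps = A.Wk k := by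
  ext x
  constructor
  · rintro ⟨⟨u, s, t⟩, hq, rfl⟩
    refine ⟨kap (pw (u, s, t)), ?_, rfl⟩
    change 0 < wabs _ ∧ wabs _ < A.eps
    rw [xeq_wabs_pw u hq.1]
    exact hq
  · rintro ⟨n, hn, rfl⟩
    obtain ⟨u, t, e⟩ := exists_pw hn.1
    exact ⟨(u, wabs n, t), hn, by rw [pW, ← e]⟩

lemma T_union : A.T ∪ ⋃ k, A.Cap k = univ := by
  refine eq_univ_of_forall fun x => ?_
  rcases A.X_cases x with h | ⟨k, n, hn, rfl⟩
  · exact .inl h
  · refine .inr (mem_iUnion.2 ⟨k, n, ?_, rfl⟩)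
    change wabs n < A.eps
    rw [hn]
    exact A.eps_pos

theorem pathConn_domT : IsPathConnected A.domT := by
  obtain ⟨M, hM⟩ := A.exists_bound
  have hy : ∀ i t, ((|M| + 1 : ℝ) : ℂ) ≠ A.b i t := fun i t e => by
    have h1 := hM i t
    rw [← e, norm_real, Real.norm_eq_abs, abs_of_pos (by positivity)] at h1
    have := le_abs_self M
    linarith
  refine ⟨(((|M| + 1 : ℝ) : ℂ), 0), fun i => hy i _, fun {p} hp => ?_⟩
  have h1 : IsPathConnected ((fun v : ℂ => ((((|M| + 1 : ℝ) : ℂ), v) : CC)) '' univ) :=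
    isPathConnected_univ.image (by fun_prop)
  have h2 : IsPathConnected (range fun i => A.b i p.2.im)ᶜ :=
    (countable_range _).isPathConnected_compl_of_one_lt_rank (by simp)
  have h3 : IsPathConnected ((fun y : ℂ => ((y, p.2) : CC)) '' (range fun i => A.b i p.2.im)ᶜ) :=
    h2.image (by fun_prop)
  have j1 := h1.joinedIn _ ⟨0, trivial, rfl⟩ _ ⟨p.2, trivial, rfl⟩
  have j2 := h3.joinedIn _ ⟨((|M| + 1 : ℝ) : ℂ), fun ⟨i, e⟩ => hy i _ e.symm, rfl⟩ _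
    ⟨p.1, fun ⟨i, e⟩ => hp i e.symm, rfl⟩
  refine (j1.mono ?_).trans (j2.mono ?_)
  · rintro _ ⟨v, -, rfl⟩ i
    exact hy i _
  · rintro _ ⟨y, hy', rfl⟩ i e
    exact hy' ⟨i, e.symm⟩

lemma image_domQ (i : ι) : A.prQ i '' A.domQ i = A.T := by
  ext x
  constructor
  · rintro ⟨p, hp, rfl⟩
    exact ⟨_, hp, rfl⟩
  · rintro ⟨p, hp, rfl⟩
    have e : ((rt (p.1 - A.b i p.2.im) ^ 2 + A.b i p.2.im, p.2) : CC) = p := by
      rw [rt_sq, sub_add_cancel]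
    refine ⟨(rt (p.1 - A.b i p.2.im), p.2), ?_, ?_⟩
    · change _ ∈ A.domT
      rw [e]
      exact hp
    · unfold prQ
      rw [e]

end Br

end Pool.Agent.Lib.MP_45bb13_gt
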