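import Pool.Agent.Lib.MP_45bb13_gt.NEq

/-! Identities in the closed manifold. -/

set_option linter.unusedSectionVars false

namespace Pool.Agent.Lib.MP_45bb13_gt

open Set Filter Topology Complex
open scoped ComplexConjugate

namespace Br

variable {ι : Type} (A : Br ι) {p q : CC} {k l : Option ι} {r : ℝ}

lemma b_int (i : ι) (t : ℝ) (n : ℤ) : A.b i (t + n) = cj n (A.b i t) :=
  eqv_int (A.eqv i) t n

lemma smul_domT (g : SD ℤ) : g • p ∈ A.domT ↔ p ∈ A.domT := by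
  refine forall_congr' fun i => not_congr ?_
  change cj g.n p.1 = A.b i (p.2.im + g.n) ↔ _
  rw [b_int]
  exact ⟨fun h => by rw [← cj_cj g.n p.1, h, cj_cj], fun h => by rw [h]⟩

lemma prT_smul (g : SD ℤ) (p : CC) : A.prT (g • p) = A.prT p := by
  by_cases h : p ∈ A.domT
  · rw [prT, prT, dif_pos h, dif_pos ((A.smul_domT g).2 h)]
    exact congrArg Sum.inl (Quotient.sound ⟨g⁻¹, inv_smul_smul g p⟩)
  · rw [prT, prT, dif_neg h, dif_neg fun h' => h ((A.smul_domT g).1 h')]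

lemma prT_eq_iff (hp : p ∈ A.domT) (hq : q ∈ A.domT) :
    A.prT p = A.prT q ↔ ∃ g : SD ℤ, g • p = q := by
  refine ⟨fun h => ?_, fun ⟨g, h⟩ => by rw [← h, prT_smul]⟩
  rw [prT, prT, dif_pos hp, dif_pos hq] at h
  exact Quotient.exact (Sum.inl.inj h)

lemma loc_smul (k : Option ι) (n : ℤ) (t s c : ℝ) :
    A.loc k (t + n) s (sgn n * c) = cj n (A.loc k t s c) := by
  cases k with
  | none => simp only [loc, cj_div, cj_ee, cj_ofReal, mul_neg]
  | some i => simp only [loc, cj_plus, cj_mul, cj_ee, cj_ofReal, b_int]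

lemma loc_int (k : Option ι) (t s c : ℝ) (a : ℤ) : A.loc k t s (c + a) = A.loc k t s c := by
  cases k with
  | none => simp only [loc, ee_neg, ee_add_int]
  | some i => simp only [loc, ee_add_int]

lemma dst_smul (k : Option ι) (g : SD ℤ) (p : CC) : A.dst k (g • p) = A.dst k p := by
  cases k with
  | none => exact congrArg Inv.inv (norm_cj g.n p.1)
  | some i =>
    change ‖cj g.n p.1 - A.b i (p.2.im + g.n)‖ = _
    rw [b_int, ← cj_sub, norm_cj]
    rfl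

lemma dst_loc (k : Option ι) (t : ℝ) {s : ℝ} (hs : 0 < s) (c z : ℝ) :
    A.dst k (A.loc k t s c, ⟨z, t⟩) = s := by
  cases k with
  | none => simp [dst, loc, norm_ee, abs_of_pos hs]
  | some i => simp [dst, loc, norm_ee, abs_of_pos hs]

lemma exists_loc (h : 0 < A.dst k p) : ∃ c, p.1 = A.loc k p.2.im (A.dst k p) c := by
  cases k with
  | none =>
    refine ⟨-ang p.1, ?_⟩
    simp only [loc, dst, neg_neg, ofReal_inv, div_inv_eq_mul]
    rw [mul_comm, norm_mul_ee_ang]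
  | some i =>
    refine ⟨ang (p.1 - A.b i p.2.im), ?_⟩
    simp only [loc, dst, norm_mul_ee_ang, add_sub_cancel]

lemma loc_inj {t s s' c c' : ℝ} (hs : 0 < s) (hs' : 0 < s') (h : A.loc k t s c = A.loc k t s' c') :
    s = s' ∧ ∃ a : ℤ, c' = c + a := by
  have e : s = s' := by rw [← A.dst_loc k t hs c 0, h, A.dst_loc k t hs']
  subst e
  have h0 : (s : ℂ) ≠ 0 := ofReal_ne_zero.2 hs.ne'
  refine ⟨rfl, ?_⟩
  cases k with
  | none =>
    obtain ⟨a, ha⟩ := ee_eq_iff.1 ((div_left_inj' h0).1 h)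
    exact ⟨a, by linarith⟩
  | some i => exact ee_eq_iff.1 (mul_left_cancel₀ h0 (add_left_cancel h)).symm

/-- The gluing identity. -/
lemma pW_eq (k : Option ι) (u : ℂ) {s : ℝ} (hs : 0 < s) (t : ℝ) :
    A.pW k (u, s, t) = A.prT (A.loc k t s u.re, ⟨u.im, t⟩) := by
  have hn : ‖(s : ℂ) * ee (t / 2)‖ = s := by simp [norm_ee, abs_of_pos hs]
  have h0 : (pw (u, s, t)).2 ≠ 0 := norm_ne_zero_iff.1 (hn.trans_ne hs.ne')
  obtain ⟨ε, a, b, hε, h1, h2⟩ := rep_kap (domK_of_ne h0)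
  obtain ⟨j, rfl⟩ : ∃ j, ε = sgn j := hε.elim (fun h => ⟨0, h.trans sgn_zero.symm⟩)
    fun h => ⟨1, h.trans sgn_one.symm⟩
  have h3 : (rep (kap (pw (u, s, t)))).2 = s * ee (t / 2 + j / 2) := by
    rw [h2, ee_add, ee_half_int]
    simp only [pw]
    ring
  obtain ⟨m, hm⟩ := exists_ang hs (t / 2 + j / 2)
  have h4 : 2 * ang (rep (kap (pw (u, s, t)))).2 = t + (j + (m + m) : ℤ) := by
    rw [h3, hm]
    push_cast
    ring
  have h5 : sgn (j + (m + m)) = sgn j := by rw [sgn_add, sgn_add, sgn_sq, mul_one]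
  have h6 : ‖(rep (kap (pw (u, s, t)))).2‖ = s := by simp [h3, norm_ee, abs_of_pos hs]
  rw [pW, jj, dif_neg (by rw [wabs_kap]; exact norm_ne_zero_iff.2 h0), pos, h4, h6, h1,
    ← A.prT_smul ⟨b, j + (m + m)⟩ (A.loc k t s u.re, ⟨u.im, t⟩), actT_def, ← loc_smul, h5,
    ← A.loc_int k _ s (sgn j * u.re) a]
  simp [pw, add_comm]

lemma jj_ne_prT {n : N} (hn : wabs n = 0) (hp : p ∈ A.domT) : A.jj k n ≠ A.prT p := by
  intro h
  have h1 : A.jj k n = .inr (k, ⟨n, hn⟩) := dif_pos hn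
  have h2 : A.prT p = .inl (Quotient.mk A.tS ⟨p, hp⟩) := dif_pos hp
  exact Sum.inr_ne_inl (h1.symm.trans (h.trans h2))

lemma X_cases (x : A.X) : x ∈ A.T ∨ ∃ k n, wabs n = 0 ∧ x = A.jj k n := by
  rcases x with ⟨⟨p⟩⟩ | ⟨k, n, h⟩
  · exact .inl ⟨p.1, p.2, dif_pos p.2⟩
  · have h1 : A.jj k n = .inr (k, ⟨n, h⟩) := dif_pos h
    exact .inr ⟨k, n, h, h1.symm⟩

lemma prC_eq (y : ℂ) (z t : ℝ) : A.prC (y, (z : UnitAddCircle), t) = A.prT (y, ⟨z, t⟩) := by
  rw [prC, ← A.prT_smul ⟨-⌊z⌋, 0⟩ (y, ⟨z, t⟩), actT_def, AddCircle.coe_equivIco_mk_apply]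
  simp [cj_zero, sgn_zero, Int.fract, sub_eq_neg_add]

end Br

end Pool.Agent.Lib.MP_45bb13_gt
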