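import Pool.Agent.Lib.MP_45bb13_gt.XEq
import Pool.Agent.Lib.MP_45bb13_gt.NMap

/-! The atlas of the closed manifold. -/

set_option linter.unusedSectionVars false

namespace Pool.Agent.Lib.MP_45bb13_gt

open Set Filter Topology Complex
open scoped ComplexConjugate

section aux

variable {ι : Type} (A : Br ι) {n : WithTop ℕ∞}

private lemma xgood_re {Z : Type*} [NormedAddCommGroup Z] [NormedSpace ℝ Z] {f : Z → ℂ} {z : Z}
    (hf : ContDiffAt ℝ n f z) : ContDiffAt ℝ n (fun z => (f z).re) z :=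
  reCLM.contDiff.contDiffAt.comp z hf

private lemma xgood_im {Z : Type*} [NormedAddCommGroup Z] [NormedSpace ℝ Z] {f : Z → ℂ} {z : Z}
    (hf : ContDiffAt ℝ n f z) : ContDiffAt ℝ n (fun z => (f z).im) z :=
  imCLM.contDiff.contDiffAt.comp z hf

private lemma xgood_ofReal {Z : Type*} [NormedAddCommGroup Z] [NormedSpace ℝ Z] {f : Z → ℝ} {z : Z}
    (hf : ContDiffAt ℝ n f z) : ContDiffAt ℝ n (fun z => (f z : ℂ)) z :=
  ofRealCLM.contDiff.contDiffAt.comp z hf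

private lemma xgood_ee {Z : Type*} [NormedAddCommGroup Z] [NormedSpace ℝ Z] {f : Z → ℝ} {z : Z}
    (hf : ContDiffAt ℝ n f z) : ContDiffAt ℝ n (fun z => ee (f z)) z :=
  contDiff_ee.contDiffAt.comp z hf

/-- Smooth polar coordinates about a strand. -/
private lemma xgood_polar (h : ∀ i, ContDiff ℝ n (A.b i)) {k : Option ι} {x : CC} {c : ℝ}
    (h0 : 0 < A.dst k x) (hc : x.1 = A.loc k x.2.im (A.dst k x) c) :
    ContDiffAt ℝ n (A.dst k) x ∧ ∃ α : CC → ℝ, ContDiffAt ℝ n α x ∧ α x = c ∧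
      ∀ p : CC, 0 < A.dst k p → p.1 = A.loc k p.2.im (A.dst k p) (α p) := by
  cases k with
  | some i =>
    have hd : ContDiffAt ℝ n (fun p : CC => p.1 - A.b i p.2.im) x :=
      contDiffAt_fst.sub ((h i).contDiffAt.comp x (xgood_im contDiffAt_snd))
    have hne : x.1 - A.b i x.2.im ≠ 0 := norm_pos_iff.mp h0
    obtain ⟨a, ha1, ha2, ha3⟩ := exists_branch h0 c
    have e : x.1 - A.b i x.2.im = (A.dst (some i) x : ℂ) * ee c := by
      rw [sub_eq_iff_eq_add']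
      exact hc
    rw [← e] at ha1 ha2
    refine ⟨hd.norm ℝ hne, fun p => a (p.1 - A.b i p.2.im), (ha1 n).comp x hd, ha2, fun p _ => ?_⟩
    show p.1 = A.b i p.2.im + (‖p.1 - A.b i p.2.im‖ : ℝ) * ee (a (p.1 - A.b i p.2.im))
    rw [ha3]
    ring
  | none =>
    have h1 : 0 < ‖x.1‖ := inv_pos.mp h0
    have hne : x.1 ≠ 0 := norm_pos_iff.mp h1
    obtain ⟨a, ha1, ha2, ha3⟩ := exists_branch h1 (-c)
    have e : x.1 = (‖x.1‖ : ℂ) * ee (-c) := by
      have h2 : x.1 = ee (-c) / ((‖x.1‖⁻¹ : ℝ) : ℂ) := hc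
      rw [ofReal_inv, div_inv_eq_mul, mul_comm] at h2
      exact h2
    rw [← e] at ha1 ha2
    refine ⟨(contDiffAt_fst.norm ℝ hne).inv h1.ne', fun p => -a p.1,
      ((ha1 n).comp x contDiffAt_fst).neg, by simp [ha2], fun p _ => ?_⟩
    show p.1 = ee (- -a p.1) / ((‖p.1‖⁻¹ : ℝ) : ℂ)
    rw [neg_neg, ofReal_inv, div_inv_eq_mul, mul_comm, ha3]

private lemma xgood_loc (h : ∀ i, ContDiff ℝ n (A.b i)) (k : Option ι) {t s c : CC → ℝ} {x : CC}
    (ht : ContDiffAt ℝ n t x) (hs : ContDiffAt ℝ n s x) (hc : ContDiffAt ℝ n c x) (h0 : s x ≠ 0) :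
    ContDiffAt ℝ n (fun p => A.loc k (t p) (s p) (c p)) x := by
  cases k with
  | some i =>
    exact ((h i).contDiffAt.comp x ht).add ((xgood_ofReal hs).mul (xgood_ee hc))
  | none =>
    have h1 : ContDiffAt ℝ n (fun p => ((s p)⁻¹ : ℝ)) x := hs.inv h0
    have h2 := (xgood_ee hc.neg).mul (xgood_ofReal h1)
    refine h2.congr_of_eventuallyEq (Eventually.of_forall fun p => ?_)
    show ee (-c p) / (s p : ℂ) = ee (-c p) * (((s p)⁻¹ : ℝ) : ℂ)
    rw [ofReal_inv, div_eq_mul_inv]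

/-- The change of coordinates between the chart of the open part and the chart of a cap. -/
private lemma xgood_comp (h : ∀ i, ContDiff ℝ n (A.b i)) {k : Option ι} {x : CC} {c : ℝ}
    (h0 : 0 < A.dst k x) (hc : x.1 = A.loc k x.2.im (A.dst k x) c) :
    Comp n A.prT x (A.jj k ∘ kap) (pw (⟨c, x.2.re⟩, A.dst k x, x.2.im)) ∧
      Comp n (A.jj k ∘ kap) (pw (⟨c, x.2.re⟩, A.dst k x, x.2.im)) A.prT x := by
  constructor
  · obtain ⟨hd, α, hα, hαx, hα'⟩ := xgood_polar A h h0 hc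
    refine ⟨fun p => pw (⟨α p, p.2.re⟩, A.dst k p, p.2.im), ?_, by simp only [hαx], ?_⟩
    · refine (contDiffAt_mk hα (xgood_re contDiffAt_snd)).prodMk ((xgood_ofReal hd).mul ?_)
      exact xgood_ee ((xgood_im contDiffAt_snd).div_const 2)
    · filter_upwards [hd.continuousAt.eventually (lt_mem_nhds h0)] with p hp
      have h1 := A.pW_eq k ⟨α p, p.2.re⟩ hp p.2.im
      rw [← hα' p hp] at h1
      exact h1
  · obtain ⟨a, ha1, ha2, ha3⟩ := exists_branch h0 (x.2.im / 2)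
    set p0 : CC := pw (⟨c, x.2.re⟩, A.dst k x, x.2.im) with hp0
    have e2 : p0.2 = (A.dst k x : ℂ) * ee (x.2.im / 2) := rfl
    have e1 : p0.1 = ⟨c, x.2.re⟩ := rfl
    have e3 : ‖p0.2‖ = A.dst k x := by
      rw [e2, norm_mul, norm_ee, mul_one, norm_real, Real.norm_of_nonneg h0.le]
    have hne : p0.2 ≠ 0 := norm_pos_iff.mp (e3 ▸ h0)
    rw [← e2] at ha1 ha2
    have hτ : ContDiffAt ℝ n (fun p : CC => 2 * a p.2) p0 :=
      contDiffAt_const.mul ((ha1 n).comp p0 contDiffAt_snd)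
    refine ⟨fun p => (A.loc k (2 * a p.2) ‖p.2‖ p.1.re, ⟨p.1.im, 2 * a p.2⟩), ?_, ?_, ?_⟩
    · refine (xgood_loc A h k hτ (contDiffAt_snd.norm ℝ hne) (xgood_re contDiffAt_fst)
        (norm_ne_zero_iff.mpr hne)).prodMk ?_
      exact contDiffAt_mk (xgood_im contDiffAt_fst) hτ
    · have e4 : 2 * a p0.2 = x.2.im := by
        rw [ha2]
        ring
      simp only [e4, e3, e1]
      rw [← hc]
    · filter_upwards [continuousAt_snd.eventually_ne hne] with p hp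
      have h1 := A.pW_eq k p.1 (norm_pos_iff.mpr hp) (2 * a p.2)
      rw [← h1]
      have e5 : pw (p.1, ‖p.2‖, 2 * a p.2) = p := by
        refine Prod.ext rfl ?_
        show (‖p.2‖ : ℂ) * ee (2 * a p.2 / 2) = p.2
        rw [mul_div_cancel_left₀ _ two_ne_zero, ha3]
      show A.jj k (kap (pw (p.1, ‖p.2‖, 2 * a p.2))) = A.jj k (kap p)
      rw [e5]

private lemma xgood_inj {z : CC} (hD : A.domT ∈ 𝓝 z) : ∃ V ∈ 𝓝 z, InjOn A.prT V := by
  refine ⟨A.domT ∩ Metric.ball z (1 / 2), inter_mem hD (Metric.ball_mem_nhds z (by norm_num)),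
    fun p hp q hq e => ?_⟩
  obtain ⟨g, hg⟩ := (A.prT_eq_iff hp.1 hq.1).mp e
  have h1 : dist q p < 1 := by
    have h2 := dist_triangle_right q p z
    have h3 := Metric.mem_ball.mp hp.2
    have h4 := Metric.mem_ball.mp hq.2
    linarith
  have h5 : ‖q.2 - p.2‖ < 1 := by
    rw [dist_eq_norm] at h1
    exact (norm_snd_le (q - p)).trans_lt h1
  have h6 : (q.2 - p.2).im = g.n := by
    rw [← hg, actT_def]
    simp
  have hn : g.n = 0 := by
    have h7 := (abs_im_le_norm (q.2 - p.2)).trans_lt h5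
    rw [h6, ← Int.cast_abs] at h7
    exact Int.abs_lt_one_iff.mp (by exact_mod_cast h7)
  have h8 : (q.2 - p.2).re = g.a := by
    rw [← hg, actT_def, hn, sgn_zero]
    simp
  have ha : g.a = 0 := by
    have h7 := (abs_re_le_norm (q.2 - p.2)).trans_lt h5
    rw [h8, ← Int.cast_abs] at h7
    exact Int.abs_lt_one_iff.mp (by exact_mod_cast h7)
  have h9 : g = 1 := SD.ext ha hn
  rw [h9, one_smul] at hg
  exact hg

variable [Finite ι]

private lemma xgood_cap (hn : n ≤ ((⊤ : ℕ∞) : WithTop ℕ∞)) (h : ∀ i, ContDiff ℝ n (A.b i))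
    {k : Option ι} {a : NA} {x y : CC} (hx : x ∈ A.domT) (hy : y ∈ NP.dom a)
    (hy' : wabs (NP.map a y) < A.eps) (e : A.prT x = A.jj k (NP.map a y)) :
    Comp n A.prT x (A.jj k ∘ NP.map a) y ∧ Comp n (A.jj k ∘ NP.map a) y A.prT x := by
  have h1 : A.Near k A.eps x := (A.near_iff hx le_rfl).mp ⟨_, hy', e.symm⟩
  obtain ⟨c, hc⟩ := A.exists_loc h1.1
  obtain ⟨h2, h3⟩ := xgood_comp A h h1.1 hc
  set p0 : CC := pw (⟨c, x.2.re⟩, A.dst k x, x.2.im) with hp0
  have e3 : ‖p0.2‖ = A.dst k x := by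
    show ‖(A.dst k x : ℂ) * ee (x.2.im / 2)‖ = _
    rw [norm_mul, norm_ee, mul_one, norm_real, Real.norm_of_nonneg h1.1.le]
  have hK : p0 ∈ domK := domK_of_ne (norm_pos_iff.mp (e3 ▸ h1.1))
  have h4 : kap p0 = NP.map a y := by
    refine A.jj_injOn k ?_ hy' (h2.eq.symm.trans e)
    show wabs (kap p0) < A.eps
    rw [wabs_kap, e3]
    exact h1.2
  exact ⟨h2.trans (((good_N.comp .k a p0 hK y hy h4).post (A.jj k)).of_le hn),
    (((good_N.comp a .k y hy p0 hK h4.symm).post (A.jj k)).of_le hn).trans h3⟩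

end aux

theorem Br.good {ι : Type} [Finite ι] (A : Br ι) {n : WithTop ℕ∞} (hn : n ≤ ((⊤ : ℕ∞) : WithTop ℕ∞))
    (h : ∀ i, ContDiff ℝ n (A.b i)) : A.XP.Good n := by
  have hopn : ∀ a, IsOpen (A.XP.dom a) := by
    rintro (_ | a)
    · exact A.isOpen_domT
    · exact (good_N.lo a.2).continuousOn.isOpen_inter_preimage (good_N.opn _) (isOpen_Nr A.eps)
  refine ⟨fun U => Iff.rfl, hopn, fun x => ?_, ?_, ?_⟩
  · rcases A.X_cases x with ⟨p, hp, rfl⟩ | ⟨k, m, hm, rfl⟩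
    · exact ⟨none, p, hp, rfl⟩
    · obtain ⟨a, z, hz, rfl⟩ := good_N.cov m
      exact ⟨some (k, a), z, ⟨hz, hm.trans_lt A.eps_pos⟩, rfl⟩
  · rintro (_ | a) z hz
    · exact xgood_inj A ((hopn none).mem_nhds hz)
    · obtain ⟨V, hV, hi⟩ := good_N.inj a.2 z hz.1
      refine ⟨V ∩ A.XP.dom (some a), inter_mem hV ((hopn _).mem_nhds hz), fun p hp q hq e => ?_⟩
      exact hi hp.1 hq.1 (A.jj_injOn a.1 hp.2.2 hq.2.2 e)
  · rintro (_ | ⟨k, a⟩) (_ | ⟨l, b⟩) x hx y hy e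
    · obtain ⟨g, hg⟩ := (A.prT_eq_iff hx hy).mp e
      exact ⟨fun p => g • p, (contDiff_actT g).contDiffAt, hg,
        Eventually.of_forall fun p => A.prT_smul g p⟩
    · exact (xgood_cap A hn h hx hy.1 hy.2 e).1
    · exact (xgood_cap A hn h hy hx.1 hx.2 e.symm).2
    · obtain rfl : k = l := A.jj_disj hx.2 hy.2 e
      exact ((good_N.comp a b x hx.1 y hy.1 (A.jj_injOn k hx.2 hy.2 e)).post (A.jj k)).of_le hn

end Pool.Agent.Lib.MP_45bb13_gt
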