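import Pool.Agent.Lib.MP_45bb13_gt.XGood

/-! The topology of the closed manifold. -/

set_option linter.unusedSectionVars false

namespace Pool.Agent.Lib.MP_45bb13_gt

open Set Filter Topology Complex Pool.Agent.Shared.Sing
open scoped ComplexConjugate

namespace Br

variable {ι : Type} [Finite ι] (A : Br ι)

lemma good0 : A.XP.Good 0 := A.good zero_le fun i => contDiff_zero.2 (A.cont i)

lemma lo_prT : LO A.prT A.domT := A.good0.lo none

lemma locEuc : LocEuc (Fin 4) A.X := A.good0.locEuc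

lemma lo_jj (k : Option ι) : LO (A.jj k) (Nr A.eps) := by
  refine lo_of_local fun n hn => ?_
  obtain ⟨a, z, hz, rfl⟩ := good_N.cov n
  have h2 : LO (A.jj k ∘ NP.map a) {p | p ∈ NP.dom a ∧ wabs (NP.map a p) < A.eps} :=
    A.good0.lo (some (k, a))
  have h3 := ((good_N.lo a).mono h2.1 fun _ h => h.1).of_comp h2
  refine ⟨NP.map a '' {p | p ∈ NP.dom a ∧ wabs (NP.map a p) < A.eps}, ⟨z, ⟨hz, hn⟩, rfl⟩, ?_, h3⟩
  rintro _ ⟨p, hp, rfl⟩
  exact hp.2

lemma isOpen_T : IsOpen A.T := A.lo_prT.isOpen_image A.lo_prT.1 subset_rfl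

lemma isOpen_cap (k : Option ι) : IsOpen (A.Cap k) :=
  (A.lo_jj k).isOpen_image (A.lo_jj k).1 subset_rfl

lemma xmap_free {a n : ℤ} {v : ℂ} (h : (⟨a + sgn n * v.re, v.im + n⟩ : ℂ) = v) : a = 0 ∧ n = 0 := by
  have h1 : v.im + n = v.im := congrArg Complex.im h
  have h2 : (a : ℝ) + sgn n * v.re = v.re := congrArg Complex.re h
  obtain rfl : n = 0 := by exact_mod_cast (by linarith : (n : ℝ) = 0)
  rw [sgn_zero] at h2
  push_cast at h2
  exact ⟨by exact_mod_cast (by linarith : (a : ℝ) = 0), rfl⟩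

theorem covT : CovOn (SD ℤ) A.prT A.domT where
  lo := A.lo_prT
  le _ hx := A.good0.le (a := none) hx
  cont := continuous_actT
  inv g _ hx := (A.smul_domT g).2 hx
  smul g x _ := A.prT_smul g x
  trans _ hx _ hy h := (A.prT_eq_iff hx hy).1 h
  free _ _ _ h := SD.ext (xmap_free (congrArg Prod.snd h)).1 (xmap_free (congrArg Prod.snd h)).2

theorem covWk (k : Option ι) : CovOn (SD (ℤ × ℤ)) (A.pW k) (OW A.eps) := by
  have c := covW A.eps
  have hm : MapsTo (kap ∘ pw) (OW A.eps) (Nr A.eps) := fun x hx =>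
    ((MP_45bb13_gt.image_OW A.eps).subset (mem_image_of_mem _ hx)).2
  exact ⟨(A.lo_jj k).comp c.lo hm,
    fun x hx => ((A.lo_jj k).le (A.jj_injOn k) (hm hx)).comp (c.le x hx), c.cont, c.inv,
    fun g x hx => congrArg (A.jj k) (c.smul g x hx),
    fun x hx y hy h => c.trans x hx y hy (A.jj_injOn k (hm hx) (hm hy) h), c.free⟩

/-- Translation of the fibre coordinate by a strand. -/
noncomputable def xmapSh (i : ι) : CC ≃ₜ CC where
  toFun p := (p.1 + A.b i p.2.im, p.2)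
  invFun p := (p.1 - A.b i p.2.im, p.2)
  left_inv p := by simp
  right_inv p := by simp
  continuous_toFun := by have := A.cont i; fun_prop
  continuous_invFun := by have := A.cont i; fun_prop

lemma xmap_sg2 (ε : ZMod 2) : sg2 ε ^ 2 = 1 := by unfold sg2; split_ifs <;> norm_num

lemma xmap_smul (i : ι) (g : SD (ℤ × ZMod 2)) (p : CC) :
    (((g • p).1 ^ 2 + A.b i (g • p).2.im, (g • p).2) : CC) =
      (⟨g.a.1, g.n⟩ : SD ℤ) • ((p.1 ^ 2 + A.b i p.2.im, p.2) : CC) := by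
  rw [actQ_def, actT_def]
  refine Prod.ext ?_ rfl
  simp only
  rw [A.b_int, cj_plus, mul_pow, xmap_sg2, one_mul, sq, sq, cj_mul]

lemma xmap_ne {i : ι} {p : CC} (hp : p ∈ A.domQ i) : p.1 ≠ 0 := fun h => hp i (by simp [h])

theorem covQ (i : ι) : CovOn (SD (ℤ × ZMod 2)) (A.prQ i) (A.domQ i) := by
  have hle : ∀ x ∈ A.domQ i, Lemb (A.prQ i) x := fun x hx => by
    have h1 : Lemb (fun y : ℂ => y ^ 2) x.1 :=
      le_of_deriv (hasStrictDerivAt_pow 2 x.1) (by simpa using A.xmap_ne hx)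
    have h2 := (le_homeo (A.xmapSh i) _).comp (h1.prod (le_homeo (Homeomorph.refl ℂ) x.2))
    exact Lemb.comp (p := A.xmapSh i ∘ Prod.map (fun y : ℂ => y ^ 2) (Homeomorph.refl ℂ))
      (A.covT.le _ hx) h2
  have ho : IsOpen (A.domQ i) := A.isOpen_domT.preimage
    (f := fun p : CC => ((p.1 ^ 2 + A.b i p.2.im, p.2) : CC)) (by have := A.cont i; fun_prop)
  refine ⟨lo_of_le ho hle, hle, continuous_actQ, fun g x hx => ?_, fun g x _ => ?_,
    fun x hx y hy h => ?_, fun g x hx h => ?_⟩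
  · show _ ∈ A.domT
    rw [xmap_smul]
    exact (A.smul_domT _).2 hx
  · rw [prQ, xmap_smul, prT_smul, prQ]
  · obtain ⟨g, hg⟩ := (A.prT_eq_iff hx hy).1 h
    have h2 : (⟨g.a + sgn g.n * x.2.re, x.2.im + g.n⟩ : ℂ) = y.2 := congrArg Prod.snd hg
    have h1 : cj g.n (x.1 ^ 2 + A.b i x.2.im) = y.1 ^ 2 + A.b i y.2.im := congrArg Prod.fst hg
    rw [← h2, A.b_int, cj_plus, sq, cj_mul, ← sq, add_left_inj] at h1
    rcases sq_eq_sq_iff_eq_or_eq_neg.1 h1 with h3 | h3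
    · exact ⟨⟨(g.a, 0), g.n⟩, Prod.ext (show sg2 0 * cj g.n x.1 = y.1 by simp [sg2, h3]) h2⟩
    · exact ⟨⟨(g.a, 1), g.n⟩, Prod.ext (show sg2 1 * cj g.n x.1 = y.1 by simp [sg2, h3]) h2⟩
  · obtain ⟨h1, h2⟩ := xmap_free (congrArg Prod.snd h)
    have h3 : sg2 g.a.2 * cj g.n x.1 = x.1 := congrArg Prod.fst h
    rw [h2, cj_zero, mul_eq_right₀ (A.xmap_ne hx)] at h3
    refine SD.ext (Prod.ext h1 ?_) h2
    by_contra h4
    rw [sg2, if_neg (show ¬g.a.2 = 0 from h4)] at h3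
    norm_num at h3

lemma lo_prC : LO A.prC {p | ∀ i, p.1 ≠ A.b i p.2.2} := by
  have hc : Continuous fun p : CC => ((p.1, (p.2.re : UnitAddCircle), p.2.im) : MM) := by fun_prop
  have ho : IsOpenMap fun p : CC => ((p.1, (p.2.re : UnitAddCircle), p.2.im) : MM) :=
    IsOpenMap.id.prodMap ((QuotientAddGroup.isOpenMap_coe.prodMap IsOpenMap.id).comp
      equivRealProdCLM.toHomeomorph.isOpenMap)
  have h1 : LO (fun p : CC => ((p.1, (p.2.re : UnitAddCircle), p.2.im) : MM)) A.domT :=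
    ⟨A.isOpen_domT, fun x _ => ho.map_nhds_eq hc.continuousAt⟩
  have h2 := h1.of_comp (g := A.prC) (A.lo_prT.congr fun p _ => A.prC_eq p.1 p.2.re p.2.im)
  have h3 : {p : MM | ∀ i, p.1 ≠ A.b i p.2.2} =
      (fun p : CC => ((p.1, (p.2.re : UnitAddCircle), p.2.im) : MM)) '' A.domT := by
    ext ⟨y, z, t⟩
    constructor
    · intro h
      obtain ⟨z, rfl⟩ := QuotientAddGroup.mk_surjective z
      exact ⟨(y, ⟨z, t⟩), h, rfl⟩
    · rintro ⟨p, hp, e⟩
      rw [← e]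
      exact hp
  rwa [h3]

lemma injOn_prC :
    InjOn A.prC {p | (∀ i, p.1 ≠ A.b i p.2.2) ∧ p.2.2 ∈ Ioo (0 : ℝ) 1} := by
  rintro ⟨y, z, t⟩ ⟨h1, h2⟩ ⟨y', z', t'⟩ ⟨h3, h4⟩ h
  obtain ⟨z, rfl⟩ := QuotientAddGroup.mk_surjective z
  obtain ⟨z', rfl⟩ := QuotientAddGroup.mk_surjective z'
  rw [prC_eq, prC_eq] at h
  obtain ⟨g, hg⟩ := (A.prT_eq_iff (p := (y, ⟨z, t⟩)) (q := (y', ⟨z', t'⟩)) h1 h3).1 h
  have e1 : cj g.n y = y' := congrArg Prod.fst hg
  have e2 : (g.a : ℝ) + sgn g.n * z = z' := congrArg (fun p : CC => p.2.re) hg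
  have e3 : t + g.n = t' := congrArg (fun p : CC => p.2.im) hg
  have e4 : g.n = 0 := by
    have a1 : (g.n : ℝ) < 1 := by linarith [h2.1, h4.2]
    have a2 : (-1 : ℝ) < g.n := by linarith [h2.2, h4.1]
    have a3 : g.n < 1 := by exact_mod_cast a1
    have a4 : -1 < g.n := by exact_mod_cast a2
    omega
  rw [e4] at e1 e2 e3
  rw [cj_zero] at e1
  rw [sgn_zero] at e2
  push_cast at e2 e3
  refine Prod.ext e1 (Prod.ext ?_ (by linarith : t = t'))
  refine QuotientAddGroup.eq.2 ⟨g.a, ?_⟩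
  simp only [zsmul_eq_mul, mul_one]
  linarith

end Br

end Pool.Agent.Lib.MP_45bb13_gt
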