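import Pool.Agent.Lib.MP_45bb13_gt.XMap
import Pool.Agent.Lib.MP_45bb13_gt.NTop

/-! The topology of the closed manifold. -/

set_option linter.unusedSectionVars false

namespace Pool.Agent.Lib.MP_45bb13_gt

open Set Filter Topology Complex Pool.Agent.Shared.Sing
open scoped ComplexConjugate

private lemma xtop_pos {n : N} (h : wabs n ≠ 0) : 0 < wabs n :=
  (wabs_nonneg n).lt_of_ne h.symm

private lemma xtop_chart (a : NA) {q : CC} (h1 : q.1 ≠ 0) (h2 : q.2 ≠ 0) :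
    0 < wabs (NP.map a q) := by
  refine xtop_pos fun h => ?_
  rcases a with _ | k | k | σ
  · exact h2 (norm_eq_zero.1 ((wabs_kap q).symm.trans h))
  · have h' := wabs_lam k q
    rw [show wabs (lam k q) = 0 from h] at h'
    exact h2 (norm_eq_zero.1 (by simpa using h'.symm))
  · have h' := wabs_mu k q
    rw [show wabs (mu k q) = 0 from h] at h'
    have h3 : 0 < ‖q.1‖ ^ 2 * ‖q.2‖ := by positivity
    rw [← h'] at h3
    simp at h3
  · have h' := wabs_Sg q.1 (st σ q.2)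
    rw [show wabs (Sg (q.1, st σ q.2)) = 0 from h] at h'
    have h0 : 0 < 1 + normSq q.2 := by have := normSq_nonneg q.2; positivity
    have h3 : (st σ q.2).1.2 ≠ 0 :=
      mul_ne_zero (ofReal_ne_zero.2 (div_pos two_pos h0).ne') h2
    exact (mul_pos (norm_pos_iff.2 h1) (norm_pos_iff.2 h3)).ne h'

private lemma xtop_dense : Dense {n : N | 0 < wabs n} := fun n => by
  obtain ⟨a, z, hz, rfl⟩ := good_N.cov n
  have hd : Dense (({0}ᶜ : Set ℂ) ×ˢ ({0}ᶜ : Set ℂ)) :=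
    (dense_compl_singleton 0).prod (dense_compl_singleton 0)
  exact ((good_N.lo a).continuousAt hz).continuousWithinAt.mem_closure (hd z)
    fun q hq => xtop_chart a hq.1 hq.2

private lemma xtop_fin (M : ℤ) : {g : SD ℤ | |g.a| ≤ M ∧ |g.n| ≤ M}.Finite := by
  have h : (Icc (-M) M ×ˢ Icc (-M) M).Finite := (finite_Icc _ _).prod (finite_Icc _ _)
  refine (h.image fun x : ℤ × ℤ => (⟨x.1, x.2⟩ : SD ℤ)).subset fun g hg => ?_
  exact ⟨(g.a, g.n), ⟨abs_le.1 hg.1, abs_le.1 hg.2⟩, rfl⟩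

private lemma xtop_closed : IsClosed {x : CC × CC | ∃ g : SD ℤ, g • x.1 = x.2} := by
  rw [ofPred_exists]
  refine LocallyFinite.isClosed_iUnion (fun x => ?_) fun g =>
    isClosed_eq ((continuous_actT g).comp continuous_fst) continuous_snd
  have hc : Continuous fun y : CC × CC => ‖y.1.2‖ + ‖y.2.2‖ := by fun_prop
  obtain ⟨M, hM⟩ := exists_int_gt (‖x.1.2‖ + ‖x.2.2‖)
  refine ⟨{y | ‖y.1.2‖ + ‖y.2.2‖ < M}, (isOpen_lt hc continuous_const).mem_nhds hM,
    (xtop_fin M).subset ?_⟩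
  rintro g ⟨y, h1, h2⟩
  have h1 : g • y.1 = y.2 := h1
  have h2 : ‖y.1.2‖ + ‖y.2.2‖ < M := h2
  have e1 : (g.a : ℝ) + sgn g.n * y.1.2.re = y.2.2.re := congrArg (fun p : CC => p.2.re) h1
  have e2 : y.1.2.im + g.n = y.2.2.im := congrArg (fun p : CC => p.2.im) h1
  have a1 := abs_le.1 (abs_re_le_norm y.1.2)
  have a2 := abs_le.1 (abs_re_le_norm y.2.2)
  have a3 := abs_le.1 (abs_im_le_norm y.1.2)
  have a4 := abs_le.1 (abs_im_le_norm y.2.2)
  constructor
  · have : |(g.a : ℝ)| ≤ M := by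
      rcases sgn_eq g.n with h | h <;> rw [h] at e1 <;> push_cast at e1 <;>
        exact abs_le.2 ⟨by linarith [a1.1, a1.2, a2.1], by linarith [a1.1, a1.2, a2.2]⟩
    exact_mod_cast this
  · have : |(g.n : ℝ)| ≤ M := abs_le.2 ⟨by linarith [a3.2, a4.1], by linarith [a3.1, a4.2]⟩
    exact_mod_cast this

private lemma xtop_fund (p : CC) :
    ∃ g : SD ℤ, (g • p).2.re ∈ Icc (0 : ℝ) 1 ∧ (g • p).2.im ∈ Icc (0 : ℝ) 1 := by
  refine ⟨⟨-⌊(sgn (-⌊p.2.im⌋) : ℝ) * p.2.re⌋, -⌊p.2.im⌋⟩, ?_, ?_⟩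
  · have h1 := Int.floor_le ((sgn (-⌊p.2.im⌋) : ℝ) * p.2.re)
    have h2 := Int.lt_floor_add_one ((sgn (-⌊p.2.im⌋) : ℝ) * p.2.re)
    simp only [actT_def, Int.cast_neg]
    constructor <;> linarith
  · have h1 := Int.floor_le p.2.im
    have h2 := Int.lt_floor_add_one p.2.im
    simp only [actT_def, Int.cast_neg]
    constructor <;> linarith

namespace Br

variable {ι : Type} [Finite ι] (A : Br ι)

private lemma xtop_half : A.eps / 2 ≤ A.eps := half_le_self A.eps_pos.le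

private lemma xtop_core {n : N} (hn : wabs n = 0) {r : ℝ} (hr : 0 < r) : n ∈ Nr r :=
  show wabs n < r by rwa [hn]

private lemma xtop_cont (i : ι) : Continuous fun p : CC => ‖p.1 - A.b i p.2.im‖ := by
  have := A.cont i
  fun_prop

private lemma xtop_far {k : Option ι} {q : CC} (hq : q ∈ A.domT) (h : ¬A.Near k A.eps q) :
    ∀ᶠ q' in 𝓝 q, ¬A.Near k (A.eps / 2) q' := by
  have he := A.eps_pos
  rcases k with _ | i
  · have h1 : ‖q.1‖ < (A.eps / 2)⁻¹ := by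
      by_contra h2
      have h2 := not_lt.1 h2
      have h3 : 0 < ‖q.1‖ := lt_of_lt_of_le (by positivity) h2
      refine h ⟨inv_pos.2 h3, ?_⟩
      exact (inv_le_of_inv_le₀ (half_pos he) h2).trans_lt (half_lt_self he)
    have h2 : ∀ᶠ q' : CC in 𝓝 q, ‖q'.1‖ < (A.eps / 2)⁻¹ :=
      (isOpen_lt (by fun_prop) continuous_const).mem_nhds h1
    refine h2.mono fun q' h3 h4 => ?_
    have h5 : 0 < ‖q'.1‖ := inv_pos.1 h4.1
    exact absurd h4.2 (not_lt.2 ((lt_inv_comm₀ h5 (half_pos he)).1 h3).le)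
  · have h1 : A.eps / 2 < ‖q.1 - A.b i q.2.im‖ := by
      by_contra h2
      exact h ⟨norm_pos_iff.2 (sub_ne_zero.2 (hq i)),
        (not_lt.1 h2).trans_lt (half_lt_self he)⟩
    have h2 : ∀ᶠ q' : CC in 𝓝 q, A.eps / 2 < ‖q'.1 - A.b i q'.2.im‖ :=
      (isOpen_lt continuous_const (A.xtop_cont i)).mem_nhds h1
    exact h2.mono fun q' h3 h4 => absurd h4.2 (not_lt.2 h3.le)

private lemma xtop_TT {x y : A.X} (hx : x ∈ A.T) (hy : y ∈ A.T) (h : x ≠ y) :
    Disjoint (𝓝 x) (𝓝 y) := by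
  obtain ⟨p, hp, rfl⟩ := hx
  obtain ⟨q, hq, rfl⟩ := hy
  have h1 : (p, q) ∈ {x : CC × CC | ∃ g : SD ℤ, g • x.1 = x.2}ᶜ := fun h' =>
    h ((A.prT_eq_iff hp hq).2 h')
  obtain ⟨U, hU, V, hV, hs⟩ := mem_nhds_prod_iff.1 (xtop_closed.isOpen_compl.mem_nhds h1)
  refine disjoint_of_disjoint_of_mem ?_
    (A.lo_prT.image_mem hp (inter_mem hU (A.isOpen_domT.mem_nhds hp)))
    (A.lo_prT.image_mem hq (inter_mem hV (A.isOpen_domT.mem_nhds hq)))
  rw [Set.disjoint_left]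
  rintro _ ⟨p', hp', rfl⟩ ⟨q', hq', e⟩
  exact hs (mk_mem_prod hp'.1 hq'.1) ((A.prT_eq_iff hp'.2 hq'.2).1 e.symm)

private lemma xtop_core_sep {k : Option ι} {n : N} (hn : wabs n = 0) {y : A.X}
    (h : A.jj k n ≠ y) : Disjoint (𝓝 (A.jj k n)) (𝓝 y) := by
  have := t2_N
  have he := A.eps_pos
  have hx : A.jj k n ∈ A.Cap k := ⟨n, xtop_core hn he, rfl⟩
  by_cases hy : y ∈ A.Cap k
  · exact (A.lo_jj k).separated (A.jj_injOn k) hx hy h
  rcases A.X_cases y with ⟨q, hq, rfl⟩ | ⟨l, m, hm, rfl⟩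
  · have h1 := A.xtop_far hq fun h' => hy ((A.near_iff hq le_rfl).2 h')
    refine disjoint_of_disjoint_of_mem ?_
      ((A.lo_jj k).image_mem (xtop_core hn he)
        ((isOpen_Nr (A.eps / 2)).mem_nhds (xtop_core hn (half_pos he))))
      (A.lo_prT.image_mem hq (inter_mem h1 (A.isOpen_domT.mem_nhds hq)))
    rw [Set.disjoint_right]
    rintro _ ⟨q', hq', rfl⟩ h2
    exact hq'.1 ((A.near_iff hq'.2 A.xtop_half).1 h2)
  · have hy' : A.jj l m ∈ A.Cap l := ⟨m, xtop_core hm he, rfl⟩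
    have hkl : k ≠ l := fun e => hy (e ▸ hy')
    exact disjoint_of_disjoint_of_mem (A.cap_disj hkl) ((A.isOpen_cap k).mem_nhds hx)
      ((A.isOpen_cap l).mem_nhds hy')

theorem t2 : T2Space A.X := by
  refine t2Space_iff_disjoint_nhds.2 fun x y h => ?_
  rcases A.X_cases x with hx | ⟨k, n, hn, rfl⟩
  · rcases A.X_cases y with hy | ⟨k, n, hn, rfl⟩
    · exact A.xtop_TT hx hy h
    · exact (A.xtop_core_sep hn h.symm).symm
  · exact A.xtop_core_sep hn h

theorem compact : CompactSpace A.X := by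
  have he := A.eps_pos
  let K : Set CC := {p | ‖p.1‖ ≤ (A.eps / 2)⁻¹ ∧ p.2.re ∈ Icc (0 : ℝ) 1 ∧ p.2.im ∈ Icc (0 : ℝ) 1} ∩
    ⋂ i, {p | A.eps / 2 ≤ ‖p.1 - A.b i p.2.im‖}
  have hK : IsCompact K := by
    refine IsCompact.inter_right ?_ (isClosed_iInter fun i =>
      isClosed_le continuous_const (A.xtop_cont i))
    refine (((isCompact_closedBall (0 : ℂ) (A.eps / 2)⁻¹).prod
      ((isCompact_Icc (a := (0 : ℝ)) (b := 1)).reProdIm
        (isCompact_Icc (a := (0 : ℝ)) (b := 1))))).of_isClosed_subset ?_ ?_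
    · refine (isClosed_le continuous_fst.norm continuous_const).inter (IsClosed.inter ?_ ?_)
      · exact isClosed_Icc.preimage (f := fun p : CC => p.2.re) (by fun_prop)
      · exact isClosed_Icc.preimage (f := fun p : CC => p.2.im) (by fun_prop)
    · exact fun p hp => ⟨mem_closedBall_zero_iff.2 hp.1, hp.2⟩
  have hKT : K ⊆ A.domT := fun p hp i e => by
    have h := mem_iInter.1 hp.2 i
    simp only [mem_ofPred_eq, e, sub_self, norm_zero] at h
    linarith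
  have hs : {n : N | wabs n ≤ A.eps / 2} ⊆ Nr A.eps := fun n hn =>
    lt_of_le_of_lt (show wabs n ≤ A.eps / 2 from hn) (half_lt_self he)
  have h1 : IsCompact (A.prT '' K ∪ ⋃ k, A.jj k '' {n | wabs n ≤ A.eps / 2}) :=
    (hK.image_of_continuousOn (A.lo_prT.continuousOn.mono hKT)).union
      (isCompact_iUnion fun k => (isCompact_wabs _).image_of_continuousOn
        ((A.lo_jj k).continuousOn.mono hs))
  refine ⟨h1.of_isClosed_subset isClosed_univ fun x _ => ?_⟩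
  rcases A.X_cases x with ⟨p, hp, rfl⟩ | ⟨k, n, hn, rfl⟩
  · obtain ⟨g, h2, h3⟩ := xtop_fund p
    rw [← A.prT_smul g p]
    have hq := (A.smul_domT g).2 hp
    generalize g • p = q at h2 h3 hq
    have key : ∀ k, A.Near k (A.eps / 2) q →
        A.prT q ∈ A.prT '' K ∪ ⋃ k, A.jj k '' {n | wabs n ≤ A.eps / 2} := fun k hk =>
      .inr (mem_iUnion.2 ⟨k, image_mono (fun n (hn : wabs n < A.eps / 2) => hn.le)
        ((A.near_iff hq A.xtop_half).2 hk)⟩)
    by_cases h4 : ‖q.1‖ ≤ (A.eps / 2)⁻¹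
    · by_cases h5 : ∀ i, A.eps / 2 ≤ ‖q.1 - A.b i q.2.im‖
      · exact .inl ⟨q, ⟨⟨h4, h2, h3⟩, mem_iInter.2 h5⟩, rfl⟩
      · obtain ⟨i, hi⟩ := not_forall.1 h5
        exact key (some i) ⟨norm_pos_iff.2 (sub_ne_zero.2 (hq i)), not_le.1 hi⟩
    · have h5 := not_le.1 h4
      have h6 : 0 < ‖q.1‖ := lt_trans (by positivity) h5
      exact key none ⟨inv_pos.2 h6, inv_lt_of_inv_lt₀ (half_pos he) h5⟩
  · exact .inr (mem_iUnion.2 ⟨k, n, show wabs n ≤ A.eps / 2 by rw [hn]; positivity, rfl⟩)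

theorem pathConn_T : IsPathConnected A.T := A.pathConn_domT.image' A.lo_prT.continuousOn

theorem dense_T : Dense A.T := fun x => by
  rcases A.X_cases x with hx | ⟨k, n, hn, rfl⟩
  · exact subset_closure hx
  · have h0 : n ∈ Nr A.eps := xtop_core hn A.eps_pos
    exact ((A.lo_jj k).continuousAt h0).continuousWithinAt.mem_closure
      (xtop_dense.open_subset_closure_inter (isOpen_Nr A.eps) h0)
      fun m hm => (A.jj_mem_T hm.1).2 hm.2

end Br

end Pool.Agent.Lib.MP_45bb13_gt
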